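import Mathlib

set_option autoImplicit false

/-!
# Curves of orbits of standard maps with varying coefficients

`X_(k+2) = 2 X_(k+1) - X_k + (a_(k+1) + b t) sin (2 π X_(k+1))`, with `X_0 = p` and
`X_1 = q + c t`: the derivatives with respect to `t`.
-/

namespace Pool.Agent.H52.STD

open Real MeasureTheory

/-- the data of a curve of orbits -/
structure Par where
  /-- coefficients -/
  a : ℕ → ℝ
  /-- speed of the coefficients -/
  b : ℝ
  /-- position at time zero -/
  p : ℝ
  /-- position at time one -/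
  q : ℝ
  /-- speed at time one -/
  c : ℝ

/-- positions -/
noncomputable def X (P : Par) : ℕ → ℝ → ℝ
  | 0, _ => P.p
  | 1, t => P.q + P.c * t
  | k + 2, t => 2 * X P (k + 1) t - X P k t + (P.a (k + 1) + P.b * t) * sin (2 * π * X P (k + 1) t)

/-- the derivative of `2 x + α sin 2 π x` -/
noncomputable def L (α x : ℝ) : ℝ := 2 + 2 * π * α * cos (2 * π * x)

/-- first derivatives -/
noncomputable def D (P : Par) : ℕ → ℝ → ℝ
  | 0, _ => 0
  | 1, _ => P.c
  | k + 2, t => L (P.a (k + 1) + P.b * t) (X P (k + 1) t) * D P (k + 1) t - D P k t +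
      P.b * sin (2 * π * X P (k + 1) t)

/-- second derivatives -/
noncomputable def B (P : Par) : ℕ → ℝ → ℝ
  | 0, _ => 0
  | 1, _ => 0
  | k + 2, t => L (P.a (k + 1) + P.b * t) (X P (k + 1) t) * B P (k + 1) t
      - 4 * π ^ 2 * (P.a (k + 1) + P.b * t) * sin (2 * π * X P (k + 1) t) * D P (k + 1) t ^ 2
      + 4 * π * P.b * cos (2 * π * X P (k + 1) t) * D P (k + 1) t - B P k t

theorem X_succ (P : Par) (k : ℕ) (t : ℝ) : X P (k + 2) t = 2 * X P (k + 1) t - X P k t +
    (P.a (k + 1) + P.b * t) * sin (2 * π * X P (k + 1) t) := by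
  simp only [X]

theorem D_succ (P : Par) (k : ℕ) (t : ℝ) : D P (k + 2) t =
    L (P.a (k + 1) + P.b * t) (X P (k + 1) t) * D P (k + 1) t - D P k t +
      P.b * sin (2 * π * X P (k + 1) t) := by
  simp only [D]

theorem B_succ (P : Par) (k : ℕ) (t : ℝ) : B P (k + 2) t =
    L (P.a (k + 1) + P.b * t) (X P (k + 1) t) * B P (k + 1) t
      - 4 * π ^ 2 * (P.a (k + 1) + P.b * t) * sin (2 * π * X P (k + 1) t) * D P (k + 1) t ^ 2
      + 4 * π * P.b * cos (2 * π * X P (k + 1) t) * D P (k + 1) t - B P k t := by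
  simp only [B]

theorem X_hasDeriv (P : Par) (k : ℕ) (t : ℝ) : HasDerivAt (X P k) (D P k t) t := by
  induction k using Nat.strong_induction_on with
  | _ k ih =>
    match k with
    | 0 =>
      have e : X P 0 = fun _ => P.p := by funext u; simp only [X]
      rw [e]
      simpa [D] using hasDerivAt_const t P.p
    | 1 =>
      have e : X P 1 = fun u => P.q + P.c * u := by funext u; simp only [X]
      rw [e]
      have h := ((hasDerivAt_id t).const_mul P.c).const_add P.q
      simpa [D] using h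
    | k + 2 =>
      have h1 := ih (k + 1) (by omega)
      have h0 := ih k (by omega)
      have h2 := (h1.const_mul (2 * π)).sin
      have h4 : HasDerivAt (fun u : ℝ => P.a (k + 1) + P.b * u) P.b t := by
        simpa using ((hasDerivAt_id t).const_mul P.b).const_add (P.a (k + 1))
      have h3 := ((h1.const_mul 2).sub h0).add (h4.mul h2)
      have e : X P (k + 2) = fun u => 2 * X P (k + 1) u - X P k u +
          (P.a (k + 1) + P.b * u) * sin (2 * π * X P (k + 1) u) := by
        funext u
        exact X_succ P k u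
      rw [e]
      refine HasDerivAt.congr_deriv h3 ?_
      rw [D_succ]
      unfold L
      ring

theorem Lt_hasDeriv (P : Par) (k m : ℕ) (t : ℝ) :
    HasDerivAt (fun t => L (P.a m + P.b * t) (X P k t))
    (2 * π * P.b * cos (2 * π * X P k t)
      - 4 * π ^ 2 * (P.a m + P.b * t) * sin (2 * π * X P k t) * D P k t) t := by
  have h1 := ((X_hasDeriv P k t).const_mul (2 * π)).cos
  have h4 : HasDerivAt (fun u : ℝ => P.a m + P.b * u) P.b t := by
    simpa using ((hasDerivAt_id t).const_mul P.b).const_add (P.a m)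
  have h2 := (((h4.const_mul (2 * π)).mul h1)).const_add 2
  refine HasDerivAt.congr_deriv (f := fun t => L (P.a m + P.b * t) (X P k t)) h2 ?_
  ring

theorem D_hasDeriv (P : Par) (k : ℕ) (t : ℝ) : HasDerivAt (D P k) (B P k t) t := by
  induction k using Nat.strong_induction_on with
  | _ k ih =>
    match k with
    | 0 =>
      have e : D P 0 = fun _ => 0 := by funext u; simp only [D]
      rw [e]
      simpa [B] using hasDerivAt_const t (0 : ℝ)
    | 1 =>
      have e : D P 1 = fun _ => P.c := by funext u; simp only [D]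
      rw [e]
      simpa [B] using hasDerivAt_const t P.c
    | k + 2 =>
      have h1 := ih (k + 1) (by omega)
      have h0 := ih k (by omega)
      have h5 := (((X_hasDeriv P (k + 1) t).const_mul (2 * π)).sin).const_mul P.b
      have h3 := (((Lt_hasDeriv P (k + 1) (k + 1) t).mul h1).sub h0).add h5
      have e : D P (k + 2) = fun t => L (P.a (k + 1) + P.b * t) (X P (k + 1) t) * D P (k + 1) t -
          D P k t + P.b * sin (2 * π * X P (k + 1) t) := by
        funext u
        exact D_succ P k u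
      rw [e]
      refine HasDerivAt.congr_deriv h3 ?_
      rw [B_succ]
      ring

theorem X_cont (P : Par) (k : ℕ) : Continuous (X P k) :=
  continuous_iff_continuousAt.2 fun t => (X_hasDeriv P k t).continuousAt

theorem D_cont (P : Par) (k : ℕ) : Continuous (D P k) :=
  continuous_iff_continuousAt.2 fun t => (D_hasDeriv P k t).continuousAt

theorem L_cont (α : ℝ) : Continuous (L α) := by
  unfold L
  fun_prop

theorem B_cont (P : Par) (k : ℕ) : Continuous (B P k) := by
  induction k using Nat.strong_induction_on with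
  | _ k ih =>
    match k with
    | 0 =>
      have e : B P 0 = fun _ => 0 := by funext u; simp only [B]
      rw [e]
      exact continuous_const
    | 1 =>
      have e : B P 1 = fun _ => 0 := by funext u; simp only [B]
      rw [e]
      exact continuous_const
    | k + 2 =>
      have h1 := ih (k + 1) (by omega)
      have h0 := ih k (by omega)
      have h2 := X_cont P (k + 1)
      have h3 := D_cont P (k + 1)
      have e : B P (k + 2) = fun t => L (P.a (k + 1) + P.b * t) (X P (k + 1) t) * B P (k + 1) t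
          - 4 * π ^ 2 * (P.a (k + 1) + P.b * t) * sin (2 * π * X P (k + 1) t) * D P (k + 1) t ^ 2
          + 4 * π * P.b * cos (2 * π * X P (k + 1) t) * D P (k + 1) t - B P k t := by
        funext u
        exact B_succ P k u
      rw [e]
      unfold L
      fun_prop

/-- the good times -/
def Good (P : Par) (l : ℝ) (m : ℕ) (t : ℝ) : Prop := ∀ j, 1 ≤ j → j ≤ m → l ≤ |L (P.a j) (X P j t)|

theorem Good.mono {P : Par} {l : ℝ} {m n : ℕ} {t : ℝ} (h : Good P l n t) (hmn : m ≤ n) :
    Good P l m t := fun j h1 h2 => h j h1 (h2.trans hmn)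

/-- the standing assumptions -/
structure OK (P : Par) (l : ℝ) : Prop where
  c0 : 0 < |P.c|
  c1 : |P.c| ≤ 1
  b1 : |P.b| ≤ 1
  l16 : 16 + 2 * |P.b| / |P.c| ≤ l
  la : ∀ k, 1 ≤ k → l ≤ |P.a k|

theorem OK.l_ge {P : Par} {l : ℝ} (h : OK P l) : 16 ≤ l := by
  have h1 := h.l16
  have h2 := h.c0
  have : 0 ≤ 2 * |P.b| / |P.c| := by positivity
  linarith

theorem OK.l_pos {P : Par} {l : ℝ} (h : OK P l) : 0 < l := by
  have := h.l_ge
  linarith

theorem Lt_close (P : Par) (k : ℕ) {t : ℝ} (ht : t ∈ Set.Icc (0:ℝ) 1) (x : ℝ) :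
    |L (P.a k + P.b * t) x - L (P.a k) x| ≤ 7 * |P.b| := by
  have e : L (P.a k + P.b * t) x - L (P.a k) x = 2 * π * (P.b * t) * cos (2 * π * x) := by
    unfold L
    ring
  rw [e, abs_mul, abs_mul, abs_mul, abs_mul, abs_of_pos pi_pos, abs_of_pos (by norm_num : (0:ℝ) < 2)]
  have h1 := abs_cos_le_one (2 * π * x)
  have h2 : |t| ≤ 1 := by
    rw [abs_le]
    exact ⟨by linarith [ht.1], ht.2⟩
  have h3 := pi_lt_d2
  have h4 := abs_nonneg P.b
  have h5 : |P.b| * |t| ≤ |P.b| := by nlinarith [abs_nonneg t]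
  have h6 : 0 ≤ 2 * π * (|P.b| * |t|) := by positivity
  calc 2 * π * (|P.b| * |t|) * |cos (2 * π * x)| ≤ 2 * π * (|P.b| * |t|) * 1 :=
        mul_le_mul_of_nonneg_left h1 h6
    _ ≤ 2 * π * |P.b| := by
        rw [mul_one]
        exact mul_le_mul_of_nonneg_left h5 (by positivity)
    _ ≤ 7 * |P.b| := mul_le_mul_of_nonneg_right (by linarith) h4

/-- upper bound for the true factor -/
theorem Lt_le {P : Par} {l : ℝ} (h : OK P l) (k : ℕ) {t : ℝ} (ht : t ∈ Set.Icc (0:ℝ) 1) (x : ℝ)
    (hx : l ≤ |L (P.a k) x|) : |L (P.a k + P.b * t) x| ≤ 3 / 2 * |L (P.a k) x| := by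
  have h1 := Lt_close P k ht x
  have h2 := h.b1
  have h3 := h.l_ge
  have h4 := abs_sub_abs_le_abs_sub (L (P.a k + P.b * t) x) (L (P.a k) x)
  linarith

theorem growth {P : Par} {l t : ℝ} (h : OK P l) (ht : t ∈ Set.Icc (0:ℝ) 1) {m : ℕ}
    (hg : Good P l m t) :
    ∀ k, k ≤ m → l * |D P k t| ≤ 2 * |D P (k + 1) t| ∧
      (1 ≤ k → |L (P.a k) (X P k t)| * |D P k t| ≤ 2 * |D P (k + 1) t|) ∧
      |P.c| ≤ |D P (k + 1) t| := by
  have hl := h.l_ge
  have hc0 := h.c0
  have hb1 := h.b1
  intro k
  induction k with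
  | zero =>
    intro _
    refine ⟨?_, by omega, ?_⟩
    · simp only [D, abs_zero, mul_zero]
      positivity
    · simp only [D]
      exact le_rfl
  | succ k ih =>
    intro hk
    obtain ⟨h1, _, h3⟩ := ih (by omega)
    have hL := hg (k + 1) (by omega) hk
    have e := D_succ P k t
    have hclose := Lt_close P (k + 1) ht (X P (k + 1) t)
    set Lt := L (P.a (k + 1) + P.b * t) (X P (k + 1) t) with hLt
    set L1 := L (P.a (k + 1)) (X P (k + 1) t) with hL1
    set d := |D P (k + 1) t| with hd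
    have hd0 : 0 < d := lt_of_lt_of_le hc0 h3
    have h5 : |D P k t| ≤ d := by
      have h0 := abs_nonneg (D P k t)
      nlinarith
    have h6 : |Lt| ≥ |L1| - 7 * |P.b| := by
      have := abs_sub_abs_le_abs_sub L1 Lt
      rw [abs_sub_comm] at this
      linarith
    have h7 : |P.b| ≤ |P.b| / |P.c| * d := by
      rw [div_mul_eq_mul_div, le_div_iff₀ hc0]
      exact mul_le_mul_of_nonneg_left h3 (abs_nonneg _)
    have h8 : |P.b * sin (2 * π * X P (k + 1) t)| ≤ |P.b| := by
      rw [abs_mul]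
      have := abs_sin_le_one (2 * π * X P (k + 1) t)
      calc _ ≤ |P.b| * 1 := mul_le_mul_of_nonneg_left this (abs_nonneg _)
        _ = _ := mul_one _
    have h9 : |Lt| * d - |D P k t| - |P.b * sin (2 * π * X P (k + 1) t)| ≤ |D P (k + 2) t| := by
      rw [e, hd, ← abs_mul]
      have q1 := abs_sub_abs_le_abs_sub (Lt * D P (k + 1) t) (D P k t)
      have q2 := abs_sub_abs_le_abs_sub (Lt * D P (k + 1) t - D P k t)
        (-(P.b * sin (2 * π * X P (k + 1) t)))
      rw [abs_neg, sub_neg_eq_add] at q2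
      linarith
    have h10 : (|L1| - 7 * |P.b|) * d ≤ |Lt| * d := mul_le_mul_of_nonneg_right h6 hd0.le
    have hbc : 0 ≤ |P.b| / |P.c| := by positivity
    have h11 : 16 + 2 * (|P.b| / |P.c|) ≤ |L1| := by
      have := h.l16
      have e3 : 2 * |P.b| / |P.c| = 2 * (|P.b| / |P.c|) := by ring
      rw [e3] at this
      linarith
    have h12 : |L1| * d ≤ 2 * |D P (k + 2) t| := by
      have q1 : (16 + 2 * (|P.b| / |P.c|)) * d ≤ |L1| * d := mul_le_mul_of_nonneg_right h11 hd0.le
      have q2 : |P.b| * d ≤ 1 * d := mul_le_mul_of_nonneg_right hb1 hd0.le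
      nlinarith
    refine ⟨?_, fun _ => h12, ?_⟩
    · exact (mul_le_mul_of_nonneg_right hL hd0.le).trans h12
    · have q1 : 16 * d ≤ |L1| * d := mul_le_mul_of_nonneg_right (hl.trans hL) hd0.le
      show |P.c| ≤ |D P (k + 2) t|
      linarith

theorem growth_pow {P : Par} {l t : ℝ} (h : OK P l) (ht : t ∈ Set.Icc (0:ℝ) 1) {m : ℕ}
    (hg : Good P l m t) : |P.c| * (l / 2) ^ m ≤ |D P (m + 1) t| := by
  have hl := h.l_pos
  induction m with
  | zero =>
    simp only [pow_zero, mul_one]
    exact (growth h ht hg 0 le_rfl).2.2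
  | succ m ih =>
    have h1 := ih (hg.mono (Nat.le_succ m))
    have h2 := (growth h ht hg (m + 1) le_rfl).1
    rw [pow_succ]
    have : |P.c| * ((l / 2) ^ m * (l / 2)) = (|P.c| * (l / 2) ^ m) * (l / 2) := by ring
    rw [this]
    have h3 := mul_le_mul_of_nonneg_right h1 (by positivity : 0 ≤ l / 2)
    linarith

theorem D_ne {P : Par} {l : ℝ} (h : OK P l) {m : ℕ} {t : ℝ} (ht : t ∈ Set.Icc (0:ℝ) 1)
    (hg : Good P l m t) : D P (m + 1) t ≠ 0 := by
  have h1 := (growth h ht hg m le_rfl).2.2
  have h2 := h.c0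
  intro h0
  rw [h0, abs_zero] at h1
  linarith

end Pool.Agent.H52.STD
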