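import Mathlib
import Pool.Graph.R_seed8.TH705.SM.Dens
import Pool.Agent.H52.STD.Chain

set_option autoImplicit false

/-!
# Cutoffs with bounded variation, and integration by parts
-/

namespace Pool.Agent.H52.STD

open Real MeasureTheory Function

/-- the kernel of the distortion -/
noncomputable def ee (α l x : ℝ) : ℝ := |α| / (L α x ^ 2 + l ^ 2)

theorem ee_nonneg (a l x : ℝ) : 0 ≤ ee a l x := by
  unfold ee
  positivity

theorem ee_cont (a : ℝ) {l : ℝ} (hl : 0 < l) : Continuous (ee a l) := by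
  have := L_cont a
  unfold ee
  apply Continuous.div continuous_const (by fun_prop)
  intro x
  positivity

theorem L_per (a : ℝ) : Periodic (L a) 1 := by
  intro x
  unfold L
  have e : 2 * π * (x + 1) = 2 * π * x + 2 * π := by ring
  rw [e, cos_add_two_pi]

theorem ee_per (a l : ℝ) : Periodic (ee a l) 1 := by
  intro x
  unfold ee
  rw [L_per]

theorem ee_int {a l : ℝ} (hl : 16 ≤ l) (hla : l ≤ |a|) :
    ∫ x in (0:ℝ)..1, ee a l x ≤ 1 / (4 * l) :=
  Pool.Agent.TH705.SM.ee_int hl hla

/-- cutoffs -/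
structure Cut (P : Par) (l V : ℝ) (r r' : ℕ → ℝ → ℝ) : Prop where
  d : ∀ k x, HasDerivAt (r k) (r' k x) x
  c : ∀ k, Continuous (r' k)
  p : ∀ k, Periodic (r k) 1
  p' : ∀ k, Periodic (r' k) 1
  m0 : ∀ k x, 0 ≤ r k x
  m1 : ∀ k x, r k x ≤ 1
  z : ∀ k x, |L (P.a k) x| < l → r k x = 0
  z' : ∀ k x, |L (P.a k) x| < l → r' k x = 0
  v : ∀ k, 1 ≤ k → ∫ x in (0:ℝ)..1, |r' k x| ≤ V

section

variable {P : Par} {l V : ℝ} {r r' : ℕ → ℝ → ℝ}

theorem Cut.rc (hr : Cut P l V r r') (k : ℕ) : Continuous (r k) :=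
  continuous_iff_continuousAt.2 fun x => (hr.d k x).continuousAt

/-- the product of the cutoffs -/
noncomputable def chi (P : Par) (r : ℕ → ℝ → ℝ) : ℕ → ℝ → ℝ
  | 0, _ => 1
  | m + 1, t => chi P r m t * r (m + 1) (X P (m + 1) t)

/-- its derivative -/
noncomputable def chi' (P : Par) (r r' : ℕ → ℝ → ℝ) : ℕ → ℝ → ℝ
  | 0, _ => 0
  | m + 1, t => chi' P r r' m t * r (m + 1) (X P (m + 1) t) +
      chi P r m t * (r' (m + 1) (X P (m + 1) t) * D P (m + 1) t)

theorem chi_hasDeriv (hr : Cut P l V r r') (m : ℕ) (t : ℝ) :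
    HasDerivAt (chi P r m) (chi' P r r' m t) t := by
  induction m with
  | zero => exact hasDerivAt_const t 1
  | succ m ih => exact ih.mul ((hr.d (m + 1) (X P (m + 1) t)).comp t (X_hasDeriv P (m + 1) t))

theorem chi_cont (hr : Cut P l V r r') (m : ℕ) : Continuous (chi P r m) :=
  continuous_iff_continuousAt.2 fun z => (chi_hasDeriv hr m z).continuousAt

theorem chi'_cont (hr : Cut P l V r r') (m : ℕ) : Continuous (chi' P r r' m) := by
  induction m with
  | zero => exact continuous_const
  | succ m ih =>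
    exact (ih.mul ((hr.rc (m + 1)).comp (X_cont P (m + 1)))).add ((chi_cont hr m).mul
      (((hr.c (m + 1)).comp (X_cont P (m + 1))).mul (D_cont P (m + 1))))

theorem chi_mem (hr : Cut P l V r r') (m : ℕ) (t : ℝ) : 0 ≤ chi P r m t ∧ chi P r m t ≤ 1 := by
  induction m with
  | zero => exact ⟨zero_le_one, le_rfl⟩
  | succ m ih =>
    exact ⟨mul_nonneg ih.1 (hr.m0 _ _), mul_le_one₀ ih.2 (hr.m0 _ _) (hr.m1 _ _)⟩

theorem chi_bad (hr : Cut P l V r r') {m : ℕ} {t : ℝ} (h : ¬ Good P l m t) :
    chi P r m t = 0 ∧ chi' P r r' m t = 0 := by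
  induction m with
  | zero =>
    exfalso
    apply h
    intro j h1 h2
    omega
  | succ m ih =>
    by_cases h1 : Good P l m t
    · have h2 : ¬ l ≤ |L (P.a (m + 1)) (X P (m + 1) t)| := by
        intro h3
        apply h
        intro j hj1 hj2
        rcases Nat.lt_or_ge j (m + 1) with h4 | h4
        · exact h1 j hj1 (by omega)
        · have : j = m + 1 := by omega
          rw [this]
          exact h3
      have h4 := hr.z (m + 1) _ (not_le.1 h2)
      have h5 := hr.z' (m + 1) _ (not_le.1 h2)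
      constructor
      · show chi P r m t * r (m + 1) (X P (m + 1) t) = 0
        rw [h4, mul_zero]
      · show chi' P r r' m t * r (m + 1) (X P (m + 1) t) +
          chi P r m t * (r' (m + 1) (X P (m + 1) t) * D P (m + 1) t) = 0
        rw [h4, h5, mul_zero, zero_mul, mul_zero, add_zero]
    · obtain ⟨h2, h3⟩ := ih h1
      constructor
      · show chi P r m t * r (m + 1) (X P (m + 1) t) = 0
        rw [h2, zero_mul]
      · show chi' P r r' m t * r (m + 1) (X P (m + 1) t) +
          chi P r m t * (r' (m + 1) (X P (m + 1) t) * D P (m + 1) t) = 0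
        rw [h2, h3, zero_mul, zero_mul, add_zero]

theorem chi_succ_le (hr : Cut P l V r r') (m : ℕ) (t : ℝ) : chi P r (m + 1) t ≤ chi P r m t := by
  show chi P r m t * r (m + 1) (X P (m + 1) t) ≤ chi P r m t
  have h1 := hr.m1 (m + 1) (X P (m + 1) t)
  have h2 := (chi_mem hr m t).1
  nlinarith

/-- the kernel -/
noncomputable def ww (P : Par) (l : ℝ) (r' : ℕ → ℝ → ℝ) (k : ℕ) (x : ℝ) : ℝ :=
  2 / l * |r' k x| + 40 * π ^ 2 * ee (P.a k) l x

theorem ww_nonneg (hl : 0 < l) (k : ℕ) (x : ℝ) : 0 ≤ ww P l r' k x := by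
  unfold ww
  have := ee_nonneg (P.a k) l x
  positivity

theorem ww_cont (hl : 0 < l) (hr : Cut P l V r r') (k : ℕ) : Continuous (ww P l r' k) := by
  unfold ww
  have h1 := ee_cont (P.a k) hl
  have h2 := (hr.c k).abs
  fun_prop

theorem ww_per (hr : Cut P l V r r') (k : ℕ) : Periodic (ww P l r' k) 1 := by
  intro x
  unfold ww
  rw [hr.p', ee_per]

theorem ww_int (h : OK P l) (hr : Cut P l V r r') {k : ℕ} (hk : 1 ≤ k) :
    ∫ x in (0:ℝ)..1, ww P l r' k x ≤ (2 * V + 100) / l := by
  have hl := h.l_pos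
  have h1 := hr.v k hk
  have h2 := ee_int h.l_ge (h.la k hk)
  have h3 : ∫ x in (0:ℝ)..1, ww P l r' k x = 2 / l * (∫ x in (0:ℝ)..1, |r' k x|) +
      40 * π ^ 2 * ∫ x in (0:ℝ)..1, ee (P.a k) l x := by
    unfold ww
    rw [intervalIntegral.integral_add, intervalIntegral.integral_const_mul,
      intervalIntegral.integral_const_mul]
    · exact (continuous_const.mul (hr.c k).abs).intervalIntegrable _ _
    · exact (continuous_const.mul (ee_cont (P.a k) hl)).intervalIntegrable _ _
  rw [h3]
  have hpi : π ^ 2 ≤ 10 := by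
    have := pi_lt_d2
    have := pi_pos
    nlinarith
  have h4 : 2 / l * (∫ x in (0:ℝ)..1, |r' k x|) ≤ 2 / l * V :=
    mul_le_mul_of_nonneg_left h1 (by positivity)
  have h5 : 40 * π ^ 2 * (∫ x in (0:ℝ)..1, ee (P.a k) l x) ≤ 40 * π ^ 2 * (1 / (4 * l)) :=
    mul_le_mul_of_nonneg_left h2 (by positivity)
  have h6 : 40 * π ^ 2 * (1 / (4 * l)) ≤ 40 * 10 * (1 / (4 * l)) := by
    apply mul_le_mul_of_nonneg_right _ (by positivity)
    linarith
  have h7 : 2 / l * V + 40 * 10 * (1 / (4 * l)) = (2 * V + 100) / l := by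
    field_simp
    ring
  linarith

/-- sums of kernels along the orbit, with cutoffs -/
noncomputable def VV (P : Par) (l : ℝ) (r r' : ℕ → ℝ → ℝ) : ℕ → ℝ → ℝ
  | 0, _ => 0
  | m + 1, t => VV P l r r' m t / 2 + chi P r m t * ww P l r' (m + 1) (X P (m + 1) t)

/-- sums of kernels -/
noncomputable def UU (P : Par) (l : ℝ) : ℕ → ℝ → ℝ
  | 0, _ => 0
  | m + 1, t => UU P l m t / 2 + ee (P.a (m + 1)) l (X P (m + 1) t)

theorem UU_nonneg (P : Par) (l : ℝ) (m : ℕ) (t : ℝ) : 0 ≤ UU P l m t := by
  induction m with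
  | zero => exact le_rfl
  | succ m ih =>
    show 0 ≤ UU P l m t / 2 + ee (P.a (m + 1)) l (X P (m + 1) t)
    have := ee_nonneg (P.a (m + 1)) l (X P (m + 1) t)
    positivity

theorem VV_nonneg (hl : 0 < l) (hr : Cut P l V r r') (m : ℕ) (t : ℝ) : 0 ≤ VV P l r r' m t := by
  induction m with
  | zero => exact le_rfl
  | succ m ih =>
    show 0 ≤ VV P l r r' m t / 2 + chi P r m t * ww P l r' (m + 1) (X P (m + 1) t)
    have := ww_nonneg (P := P) (r' := r') hl (m + 1) (X P (m + 1) t)
    have := (chi_mem hr m t).1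
    positivity

theorem VV_cont (hl : 0 < l) (hr : Cut P l V r r') (m : ℕ) : Continuous (VV P l r r' m) := by
  induction m with
  | zero => exact continuous_const
  | succ m ih =>
    exact (ih.div_const 2).add ((chi_cont hr m).mul
      ((ww_cont hl hr (m + 1)).comp (X_cont P (m + 1))))

theorem chi_UU (hl : 0 < l) (hr : Cut P l V r r') (m : ℕ) (t : ℝ) :
    40 * π ^ 2 * (chi P r m t * UU P l m t) ≤ VV P l r r' m t := by
  induction m with
  | zero => simp [UU, VV]
  | succ m ih =>
    show 40 * π ^ 2 * (chi P r (m + 1) t * (UU P l m t / 2 + ee (P.a (m + 1)) l (X P (m + 1) t))) ≤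
      VV P l r r' m t / 2 + chi P r m t * ww P l r' (m + 1) (X P (m + 1) t)
    have h1 := chi_succ_le hr m t
    have h2 := UU_nonneg P l m t
    have h3 := ee_nonneg (P.a (m + 1)) l (X P (m + 1) t)
    have h4 := mul_le_mul_of_nonneg_right h1 h2
    have h5 := mul_le_mul_of_nonneg_right h1 h3
    have h6 : 40 * π ^ 2 * ee (P.a (m + 1)) l (X P (m + 1) t) ≤
        ww P l r' (m + 1) (X P (m + 1) t) := by
      unfold ww
      have : 0 ≤ 2 / l * |r' (m + 1) (X P (m + 1) t)| := by positivity
      linarith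
    have h7 := mul_le_mul_of_nonneg_left h6 (chi_mem hr m t).1
    have hpi : 0 < 40 * π ^ 2 := by positivity
    have h8 := mul_le_mul_of_nonneg_left h4 hpi.le
    have h9 := mul_le_mul_of_nonneg_left h5 hpi.le
    linarith

theorem chi'_le (h : OK P l) (hr : Cut P l V r r') (m : ℕ) {t : ℝ} (ht : t ∈ Set.Icc (0:ℝ) 1) :
    |chi' P r r' m t| ≤ |D P (m + 1) t| * VV P l r r' m t := by
  have hl0 := h.l_pos
  have hl16 := h.l_ge
  induction m with
  | zero => simp [chi', VV]
  | succ m ih =>
    by_cases hg : Good P l (m + 1) t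
    · have h1 := (growth h ht hg (m + 1) le_rfl).1
      have h2 := chi_mem hr m t
      have h4 : |r (m + 1) (X P (m + 1) t)| ≤ 1 := by
        rw [abs_of_nonneg (hr.m0 _ _)]
        exact hr.m1 _ _
      set d := |D P (m + 1) t| with hd
      set e := |D P (m + 1 + 1) t| with he
      set R := |r' (m + 1) (X P (m + 1) t)| with hR
      have hR0 : 0 ≤ R := abs_nonneg _
      have hd0 : 0 ≤ d := abs_nonneg _
      have he0 : 0 ≤ e := abs_nonneg _
      have hVn := VV_nonneg hl0 hr m t
      show |chi' P r r' m t * r (m + 1) (X P (m + 1) t) +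
          chi P r m t * (r' (m + 1) (X P (m + 1) t) * D P (m + 1) t)| ≤
        e * (VV P l r r' m t / 2 + chi P r m t * ww P l r' (m + 1) (X P (m + 1) t))
      have h5 : |chi' P r r' m t * r (m + 1) (X P (m + 1) t) +
          chi P r m t * (r' (m + 1) (X P (m + 1) t) * D P (m + 1) t)| ≤
          d * VV P l r r' m t + chi P r m t * (R * d) := by
        refine (abs_add_le _ _).trans (add_le_add ?_ ?_)
        · rw [abs_mul]
          calc |chi' P r r' m t| * |r (m + 1) (X P (m + 1) t)| ≤ |chi' P r r' m t| * 1 :=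
                mul_le_mul_of_nonneg_left h4 (abs_nonneg _)
            _ ≤ _ := by rw [mul_one]; exact ih
        · rw [abs_mul, abs_of_nonneg h2.1, abs_mul]
      refine h5.trans ?_
      have h6 : d ≤ e / 2 := by nlinarith
      have h7 : d ≤ 2 / l * e := by
        rw [div_mul_eq_mul_div, le_div_iff₀ hl0]
        linarith
      have h8 : d * VV P l r r' m t ≤ e / 2 * VV P l r r' m t := mul_le_mul_of_nonneg_right h6 hVn
      have h9 : R * d ≤ e * ww P l r' (m + 1) (X P (m + 1) t) := by
        have q1 : R * d ≤ R * (2 / l * e) := mul_le_mul_of_nonneg_left h7 hR0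
        have q2 : e * (2 / l * R) ≤ e * ww P l r' (m + 1) (X P (m + 1) t) := by
          apply mul_le_mul_of_nonneg_left _ he0
          unfold ww
          have := ee_nonneg (P.a (m + 1)) l (X P (m + 1) t)
          have : 0 ≤ 40 * π ^ 2 * ee (P.a (m + 1)) l (X P (m + 1) t) := by positivity
          linarith
        linarith
      have h10 := mul_le_mul_of_nonneg_left h9 h2.1
      linarith
    · rw [(chi_bad hr hg).2, abs_zero]
      have := VV_nonneg hl0 hr (m + 1) t
      positivity

theorem B_le (h : OK P l) (m : ℕ) {t : ℝ} (ht : t ∈ Set.Icc (0:ℝ) 1) (hg : Good P l m t) :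
    |B P (m + 1) t| ≤ 40 * π ^ 2 * D P (m + 1) t ^ 2 * UU P l m t := by
  have hl0 := h.l_pos
  have hl := h.l_ge
  have hpi3 := pi_gt_three
  have hpi := pi_pos
  induction m using Nat.strong_induction_on with
  | _ m ih =>
    match m with
    | 0 => simp [B, UU]
    | k + 1 =>
      have h1 := ih k (by omega) (hg.mono (by omega))
      have h0 : |B P k t| ≤ 40 * π ^ 2 * D P k t ^ 2 * (2 * UU P l k t) := by
        match k, ih, hg with
        | 0, _, _ => simp [B, UU]
        | k + 1, ih, hg =>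
          have h := ih k (by omega) (hg.mono (by omega))
          refine h.trans ?_
          apply mul_le_mul_of_nonneg_left _ (by positivity)
          have := ee_nonneg (P.a (k + 1)) l (X P (k + 1) t)
          show UU P l k t ≤ 2 * (UU P l k t / 2 + ee (P.a (k + 1)) l (X P (k + 1) t))
          linarith
      have hL := hg (k + 1) (by omega) le_rfl
      obtain ⟨h66, h6, _⟩ := growth h ht hg (k + 1) le_rfl
      have h6 := h6 (by omega)
      obtain ⟨h5, _, h55⟩ := growth h ht hg k (by omega)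
      have hLt := Lt_le h (k + 1) ht (X P (k + 1) t) hL
      have hla := h.la (k + 1) (by omega)
      set α := P.a (k + 1) with hα
      set Lk := |L α (X P (k + 1) t)| with hLk
      set d := |D P (k + 1) t| with hd
      have hd2 : D P (k + 1) t ^ 2 = d ^ 2 := (sq_abs _).symm
      have hd0 : 0 ≤ d := abs_nonneg _
      have hc0 := h.c0
      have hB : |B P (k + 1 + 1) t| ≤ 3 / 2 * Lk * |B P (k + 1) t| +
          5 * π ^ 2 * |α| * d ^ 2 + |B P k t| := by
        show |B P (k + 2) t| ≤ _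
        rw [B_succ]
        have e1 : |L (P.a (k + 1) + P.b * t) (X P (k + 1) t) * B P (k + 1) t| ≤
            3 / 2 * Lk * |B P (k + 1) t| := by
          rw [abs_mul]
          exact mul_le_mul_of_nonneg_right hLt (abs_nonneg _)
        have hbt : |P.a (k + 1) + P.b * t| ≤ 17 / 16 * |α| := by
          have q1 := abs_add_le (P.a (k + 1)) (P.b * t)
          have q2 : |P.b * t| ≤ 1 := by
            rw [abs_mul]
            have : |t| ≤ 1 := by
              rw [abs_le]
              exact ⟨by linarith [ht.1], ht.2⟩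
            exact mul_le_one₀ h.b1 (abs_nonneg _) this
          rw [← hα] at q1
          linarith
        have e2 : |4 * π ^ 2 * (P.a (k + 1) + P.b * t) * sin (2 * π * X P (k + 1) t) *
            D P (k + 1) t ^ 2| ≤ 4 * π ^ 2 * (17 / 16 * |α|) * d ^ 2 := by
          rw [abs_mul, abs_mul, abs_mul, hd2, abs_of_nonneg (sq_nonneg d),
            abs_of_pos (by positivity : 0 < 4 * π ^ 2)]
          have h7 := abs_sin_le_one (2 * π * X P (k + 1) t)
          apply mul_le_mul_of_nonneg_right _ (sq_nonneg _)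
          calc 4 * π ^ 2 * |P.a (k + 1) + P.b * t| * |sin (2 * π * X P (k + 1) t)| ≤
              4 * π ^ 2 * (17 / 16 * |α|) * 1 := by
                apply mul_le_mul _ h7 (abs_nonneg _) (by positivity)
                exact mul_le_mul_of_nonneg_left hbt (by positivity)
            _ = _ := mul_one _
        have e3 : |4 * π * P.b * cos (2 * π * X P (k + 1) t) * D P (k + 1) t| ≤
            2 * π * |α| * d ^ 2 := by
          rw [abs_mul, abs_mul, abs_mul, abs_of_pos (by positivity : 0 < 4 * π)]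
          have h7 := abs_cos_le_one (2 * π * X P (k + 1) t)
          have h8 : 4 * π * |P.b| * |cos (2 * π * X P (k + 1) t)| * d ≤ 4 * π * |P.b| * 1 * d := by
            apply mul_le_mul_of_nonneg_right _ hd0
            exact mul_le_mul_of_nonneg_left h7 (by positivity)
          have h9 : |P.b| ≤ |α| / 2 * d := by
            have q1 : 2 * |P.b| / |P.c| ≤ |α| := by
              have := h.l16
              linarith
            rw [div_le_iff₀ hc0] at q1
            have q2 : |α| * |P.c| ≤ |α| * d := mul_le_mul_of_nonneg_left h55 (abs_nonneg _)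
            linarith
          have h10 : 4 * π * |P.b| * d ≤ 4 * π * (|α| / 2 * d) * d := by
            apply mul_le_mul_of_nonneg_right _ hd0
            exact mul_le_mul_of_nonneg_left h9 (by positivity)
          have e4 : 4 * π * (|α| / 2 * d) * d = 2 * π * |α| * d ^ 2 := by ring
          linarith
        have q1 := abs_sub (L (P.a (k + 1) + P.b * t) (X P (k + 1) t) * B P (k + 1) t)
          (4 * π ^ 2 * (P.a (k + 1) + P.b * t) * sin (2 * π * X P (k + 1) t) * D P (k + 1) t ^ 2)
        have q2 := abs_add_le (L (P.a (k + 1) + P.b * t) (X P (k + 1) t) * B P (k + 1) t -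
          4 * π ^ 2 * (P.a (k + 1) + P.b * t) * sin (2 * π * X P (k + 1) t) * D P (k + 1) t ^ 2)
          (4 * π * P.b * cos (2 * π * X P (k + 1) t) * D P (k + 1) t)
        have q3 := abs_sub (L (P.a (k + 1) + P.b * t) (X P (k + 1) t) * B P (k + 1) t -
          4 * π ^ 2 * (P.a (k + 1) + P.b * t) * sin (2 * π * X P (k + 1) t) * D P (k + 1) t ^ 2 +
          4 * π * P.b * cos (2 * π * X P (k + 1) t) * D P (k + 1) t) (B P k t)
        have hfin : 4 * π ^ 2 * (17 / 16 * |α|) * d ^ 2 + 2 * π * |α| * d ^ 2 ≤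
            5 * π ^ 2 * |α| * d ^ 2 := by
          have q4 : 2 * π ≤ 3 / 4 * π ^ 2 := by nlinarith
          have q5 := mul_le_mul_of_nonneg_right q4 (by positivity : 0 ≤ |α| * d ^ 2)
          linarith
        linarith
      have h8 : |D P k t| ≤ d := by
        have := abs_nonneg (D P k t)
        nlinarith
      have h9 : D P k t ^ 2 ≤ d ^ 2 := by
        rw [← sq_abs (D P k t)]
        exact pow_le_pow_left₀ (abs_nonneg _) h8 2
      set e2 := D P (k + 1 + 1) t ^ 2 with he2
      have he20 : 0 ≤ e2 := sq_nonneg _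
      have h10 : Lk ^ 2 * d ^ 2 ≤ 4 * e2 := by
        have := pow_le_pow_left₀ (by positivity) h6 2
        rw [mul_pow, mul_pow, sq_abs (D P (k + 1 + 1) t)] at this
        linarith
      have hLk16 : 16 ≤ Lk := hl.trans hL
      have hLk0 : 0 < Lk := by linarith
      set U := UU P l k t with hU
      have hU0 : 0 ≤ U := UU_nonneg P l k t
      set E := ee α l (X P (k + 1) t) with hE
      have hE0 : 0 ≤ E := ee_nonneg _ _ _
      have h11 : |α| * d ^ 2 ≤ 8 * E * e2 := by
        have hx : |α| ≤ 2 * E * Lk ^ 2 := by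
          have hden : 0 < L α (X P (k + 1) t) ^ 2 + l ^ 2 := by positivity
          have e3 : |α| = E * (L α (X P (k + 1) t) ^ 2 + l ^ 2) := by
            rw [hE]
            unfold ee
            field_simp
          have e4 : L α (X P (k + 1) t) ^ 2 + l ^ 2 ≤ 2 * Lk ^ 2 := by
            rw [hLk, sq_abs]
            have := pow_le_pow_left₀ hl0.le hL 2
            rw [hLk, sq_abs] at this
            linarith
          calc |α| = E * (L α (X P (k + 1) t) ^ 2 + l ^ 2) := e3
            _ ≤ E * (2 * Lk ^ 2) := mul_le_mul_of_nonneg_left e4 hE0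
            _ = _ := by ring
        calc |α| * d ^ 2 ≤ 2 * E * Lk ^ 2 * d ^ 2 := mul_le_mul_of_nonneg_right hx (sq_nonneg _)
          _ = 2 * E * (Lk ^ 2 * d ^ 2) := by ring
          _ ≤ 2 * E * (4 * e2) := mul_le_mul_of_nonneg_left h10 (by positivity)
          _ = _ := by ring
      have h12 : Lk * d ^ 2 ≤ e2 / 4 := by nlinarith [sq_nonneg d]
      have h13 : d ^ 2 ≤ e2 / 64 := by nlinarith [sq_nonneg d]
      rw [hd2] at h1
      show |B P (k + 1 + 1) t| ≤ 40 * π ^ 2 * e2 * (U / 2 + E)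
      have q1 : 3 / 2 * Lk * |B P (k + 1) t| ≤ 3 / 2 * Lk * (40 * π ^ 2 * d ^ 2 * U) :=
        mul_le_mul_of_nonneg_left h1 (by positivity)
      have q2 : |B P k t| ≤ 40 * π ^ 2 * d ^ 2 * (2 * U) := by
        refine h0.trans ?_
        apply mul_le_mul_of_nonneg_right _ (by positivity)
        exact mul_le_mul_of_nonneg_left h9 (by positivity)
      have q3 : 3 / 2 * Lk * (40 * π ^ 2 * d ^ 2 * U) ≤ 60 * π ^ 2 * U * (e2 / 4) := by
        have := mul_le_mul_of_nonneg_left h12 (by positivity : 0 ≤ 60 * π ^ 2 * U)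
        linarith
      have q4 : 40 * π ^ 2 * d ^ 2 * (2 * U) ≤ 80 * π ^ 2 * U * (e2 / 64) := by
        have := mul_le_mul_of_nonneg_left h13 (by positivity : 0 ≤ 80 * π ^ 2 * U)
        linarith
      have q5 : 5 * π ^ 2 * |α| * d ^ 2 ≤ 40 * π ^ 2 * e2 * E := by
        have := mul_le_mul_of_nonneg_left h11 (by positivity : 0 ≤ 5 * π ^ 2)
        linarith
      have q6 : 0 ≤ π ^ 2 * U * e2 := by positivity
      linarith

/-- the weight -/
noncomputable def W (P : Par) (r : ℕ → ℝ → ℝ) (m : ℕ) (Q : ℝ → ℝ) (t : ℝ) : ℝ :=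
  chi P r m t * Q t / D P (m + 1) t

/-- its derivative -/
noncomputable def W' (P : Par) (r r' : ℕ → ℝ → ℝ) (m : ℕ) (Q Q' : ℝ → ℝ) (t : ℝ) : ℝ :=
  (chi' P r r' m t * Q t + chi P r m t * Q' t) / D P (m + 1) t -
    chi P r m t * Q t * B P (m + 1) t / D P (m + 1) t ^ 2

theorem W_hasDeriv (h : OK P l) (hr : Cut P l V r r') (m : ℕ) {Q Q' : ℝ → ℝ} {t : ℝ}
    (ht : t ∈ Set.Icc (0:ℝ) 1) (hQ : HasDerivAt Q (Q' t) t) :
    HasDerivAt (W P r m Q) (W' P r r' m Q Q' t) t := by
  by_cases hD : D P (m + 1) t = 0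
  · have hbad : ¬ Good P l m t := fun hg => D_ne h ht hg hD
    have h1 : ∃ j, 1 ≤ j ∧ j ≤ m ∧ |L (P.a j) (X P j t)| < l := by
      unfold Good at hbad
      push Not at hbad
      exact hbad
    obtain ⟨j, hj1, hj2, hj⟩ := h1
    have hc : Continuous (fun t => |L (P.a j) (X P j t)|) :=
      ((L_cont (P.a j)).comp (X_cont P j)).abs
    have h2 : ∀ᶠ u in nhds t, |L (P.a j) (X P j u)| < l := hc.continuousAt.eventually_lt_const hj
    have h3 : W P r m Q =ᶠ[nhds t] fun _ => 0 := by
      filter_upwards [h2] with u hu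
      have : ¬ Good P l m u := fun hg => absurd (hg j hj1 hj2) (not_le.2 hu)
      unfold W
      rw [(chi_bad hr this).1, zero_mul, zero_div]
    have h4 : W' P r r' m Q Q' t = 0 := by
      unfold W'
      rw [hD]
      simp
    rw [h4]
    exact (hasDerivAt_const t 0).congr_of_eventuallyEq h3
  · have h1 := ((chi_hasDeriv hr m t).mul hQ).div (D_hasDeriv P (m + 1) t) hD
    refine HasDerivAt.congr_deriv (f := W P r m Q) h1 ?_
    unfold W'
    rw [Pi.mul_apply]
    field_simp

theorem W'_le (h : OK P l) (hr : Cut P l V r r') (m : ℕ) {Q Q' : ℝ → ℝ} {t : ℝ}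
    (ht : t ∈ Set.Icc (0:ℝ) 1) :
    |W' P r r' m Q Q' t| ≤ 2 * (|Q t| * VV P l r r' m t) +
      chi P r m t * |Q' t| / |D P (m + 1) t| := by
  have hl0 := h.l_pos
  have hVn := VV_nonneg hl0 hr m t
  have h4 := chi_mem hr m t
  by_cases hg : Good P l m t
  · have hD := D_ne h ht hg
    have hD0 : 0 < |D P (m + 1) t| := abs_pos.2 hD
    have h3 := chi'_le h hr m ht
    have h5 := B_le h m ht hg
    have h6 := chi_UU hl0 hr m t
    have h7 : |(chi' P r r' m t * Q t + chi P r m t * Q' t) / D P (m + 1) t| ≤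
        |Q t| * VV P l r r' m t + chi P r m t * |Q' t| / |D P (m + 1) t| := by
      rw [abs_div, div_le_iff₀ hD0, add_mul, div_mul_cancel₀ _ hD0.ne']
      refine (abs_add_le _ _).trans (add_le_add ?_ ?_)
      · rw [abs_mul]
        have := mul_le_mul_of_nonneg_right h3 (abs_nonneg (Q t))
        linarith
      · rw [abs_mul, abs_of_nonneg h4.1]
    have h8 : |chi P r m t * Q t * B P (m + 1) t / D P (m + 1) t ^ 2| ≤
        |Q t| * VV P l r r' m t := by
      have hD2 : 0 < D P (m + 1) t ^ 2 := by positivity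
      rw [abs_div, abs_of_pos hD2, div_le_iff₀ hD2, abs_mul, abs_mul, abs_of_nonneg h4.1]
      calc chi P r m t * |Q t| * |B P (m + 1) t| ≤
          chi P r m t * |Q t| * (40 * π ^ 2 * D P (m + 1) t ^ 2 * UU P l m t) := by
            apply mul_le_mul_of_nonneg_left h5
            exact mul_nonneg h4.1 (abs_nonneg _)
        _ = |Q t| * (40 * π ^ 2 * (chi P r m t * UU P l m t)) * D P (m + 1) t ^ 2 := by ring
        _ ≤ |Q t| * VV P l r r' m t * D P (m + 1) t ^ 2 := by
            apply mul_le_mul_of_nonneg_right _ hD2.le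
            exact mul_le_mul_of_nonneg_left h6 (abs_nonneg _)
    unfold W'
    refine (abs_sub _ _).trans ((add_le_add h7 h8).trans ?_)
    linarith
  · obtain ⟨h1, h2⟩ := chi_bad hr hg
    unfold W'
    rw [h1, h2]
    simp only [zero_mul, add_zero, zero_div, sub_zero, abs_zero]
    positivity

/-- **integration by parts**, general bound -/
theorem ibp (h : OK P l) (hr : Cut P l V r r') (m : ℕ) {Q Q' : ℝ → ℝ}
    (hQ : ∀ t, HasDerivAt Q (Q' t) t) (hQ'c : Continuous Q') {bd : ℝ → ℝ} (hbdc : Continuous bd)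
    (hbd : ∀ t ∈ Set.Icc (0:ℝ) 1, |W' P r r' m Q Q' t| ≤ bd t)
    {G g : ℝ → ℝ} (hG : ∀ u, HasDerivAt G (g u) u) (hg : Continuous g)
    {A : ℝ} (hG1 : ∀ u, |G u| ≤ A) :
    |∫ t in (0:ℝ)..1, chi P r m t * Q t * g (X P (m + 1) t)| ≤
      A * (∫ t in (0:ℝ)..1, bd t) +
        |W P r m Q 1 * G (X P (m + 1) 1) - W P r m Q 0 * G (X P (m + 1) 0)| := by
  have hl0 := h.l_pos
  have hA0 : 0 ≤ A := (abs_nonneg _).trans (hG1 0)
  set F : ℝ → ℝ := fun t => W P r m Q t * G (X P (m + 1) t) with hF
  set f : ℝ → ℝ := fun t => W' P r r' m Q Q' t * G (X P (m + 1) t) with hf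
  set f2 : ℝ → ℝ := fun t => chi P r m t * Q t * g (X P (m + 1) t) with hf2
  have hQc : Continuous Q := continuous_iff_continuousAt.2 fun t => (hQ t).continuousAt
  have hGc : Continuous G := continuous_iff_continuousAt.2 fun t => (hG t).continuousAt
  have hXc := X_cont P (m + 1)
  have hFd : ∀ t ∈ Set.Icc (0:ℝ) 1, HasDerivAt F (f t + f2 t) t := by
    intro t ht
    have h1 := (W_hasDeriv h hr m ht (hQ t)).mul
      ((hG (X P (m + 1) t)).comp t (X_hasDeriv P (m + 1) t))
    refine HasDerivAt.congr_deriv (f := F) h1 ?_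
    show W' P r r' m Q Q' t * G (X P (m + 1) t) +
      W P r m Q t * (g (X P (m + 1) t) * D P (m + 1) t) = f t + f2 t
    have e : W P r m Q t * D P (m + 1) t = chi P r m t * Q t := by
      unfold W
      by_cases hgd : Good P l m t
      · exact div_mul_cancel₀ _ (D_ne h ht hgd)
      · rw [(chi_bad hr hgd).1]
        simp
    rw [hf, hf2]
    simp only
    rw [← e]
    ring
  have hW'm : Measurable (W' P r r' m Q Q') := by
    have c1 := (chi'_cont hr m).measurable
    have c2 := (chi_cont hr m).measurable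
    have c3 := hQc.measurable
    have c4 := hQ'c.measurable
    have c5 := (D_cont P (m + 1)).measurable
    have c6 := (B_cont P (m + 1)).measurable
    unfold W'
    exact (((c1.mul c3).add (c2.mul c4)).div c5).sub (((c2.mul c3).mul c6).div (c5.pow_const 2))
  have hfm : Measurable f := hW'm.mul (hGc.comp hXc).measurable
  have hf2c : Continuous f2 := ((chi_cont hr m).mul hQc).mul (hg.comp hXc)
  have hbdc' : Continuous (fun t => A * bd t) := continuous_const.mul hbdc
  have hfb : ∀ t ∈ Set.Icc (0:ℝ) 1, |f t| ≤ A * bd t := by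
    intro t ht
    rw [hf]
    simp only
    rw [abs_mul, mul_comm A]
    exact mul_le_mul (hbd t ht) (hG1 _) (abs_nonneg _) ((abs_nonneg _).trans (hbd t ht))
  have hsub : Set.uIoc (0:ℝ) 1 ⊆ Set.Icc 0 1 := by
    rw [Set.uIoc_of_le zero_le_one]
    exact Set.Ioc_subset_Icc_self
  have hfi : IntervalIntegrable f volume 0 1 := by
    refine (hbdc'.intervalIntegrable 0 1).mono_fun hfm.aestronglyMeasurable ?_
    refine (ae_restrict_mem measurableSet_uIoc).mono fun t ht => ?_
    show ‖f t‖ ≤ ‖A * bd t‖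
    rw [norm_eq_abs, norm_eq_abs]
    exact (hfb t (hsub ht)).trans (le_abs_self _)
  have hf2i : IntervalIntegrable f2 volume 0 1 := hf2c.intervalIntegrable 0 1
  have hFTC := intervalIntegral.integral_eq_sub_of_hasDerivAt (fun t ht => hFd t (by
    rwa [Set.uIcc_of_le zero_le_one] at ht)) (hfi.add hf2i)
  rw [intervalIntegral.integral_add hfi hf2i] at hFTC
  have h2 : ∫ t in (0:ℝ)..1, f2 t = (F 1 - F 0) - ∫ t in (0:ℝ)..1, f t := by linarith
  have h4 : |∫ t in (0:ℝ)..1, f t| ≤ ∫ t in (0:ℝ)..1, A * bd t := by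
    rw [← norm_eq_abs]
    exact intervalIntegral.norm_integral_le_of_norm_le zero_le_one
      (Filter.Eventually.of_forall fun t ht => hfb t ⟨ht.1.le, ht.2⟩)
      (hbdc'.intervalIntegrable 0 1)
  rw [intervalIntegral.integral_const_mul] at h4
  rw [h2]
  have h5 := abs_sub (F 1 - F 0) (∫ t in (0:ℝ)..1, f t)
  have h6 : |F 1 - F 0| =
    |W P r m Q 1 * G (X P (m + 1) 1) - W P r m Q 0 * G (X P (m + 1) 0)| := rfl
  linarith

end

end Pool.Agent.H52.STD
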