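import Mathlib
import Pool.Agent.H52.STD.Cut

set_option autoImplicit false

/-!
# Relative equidistribution for all times
-/

namespace Pool.Agent.H52.STD

open Real MeasureTheory Function

/-- primitives of centred nonnegative functions -/
theorem prim_nonneg {f : ℝ → ℝ} (hf : Continuous f) (hp : Periodic f 1) (h0 : ∀ x, 0 ≤ f x) :
    ∃ G : ℝ → ℝ, (∀ u, HasDerivAt G (f u - ∫ x in (0:ℝ)..1, f x) u) ∧ Periodic G 1 ∧
      ∀ u, |G u| ≤ ∫ x in (0:ℝ)..1, f x := by
  set fb := ∫ x in (0:ℝ)..1, f x with hfb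
  have hfb0 : 0 ≤ fb := intervalIntegral.integral_nonneg zero_le_one fun x _ => h0 x
  set G : ℝ → ℝ := fun u => ∫ x in (0:ℝ)..u, (f x - fb) with hG
  have hgc : Continuous (fun x => f x - fb) := hf.sub continuous_const
  have hGd : ∀ u, HasDerivAt G (f u - fb) u := fun u =>
    intervalIntegral.integral_hasDerivAt_right (hgc.intervalIntegrable _ _)
      (hgc.stronglyMeasurableAtFilter _ _) hgc.continuousAt
  have hGp : Periodic G 1 := by
    intro u
    rw [hG]
    simp only
    have h1 : ∫ x in (0:ℝ)..(u + 1), (f x - fb) = (∫ x in (0:ℝ)..u, (f x - fb)) +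
        ∫ x in u..(u + 1), (f x - fb) :=
      (intervalIntegral.integral_add_adjacent_intervals (hgc.intervalIntegrable _ _)
        (hgc.intervalIntegrable _ _)).symm
    have h2 : Periodic (fun x => f x - fb) 1 := by
      intro x
      simp only
      rw [hp]
    have h3 := h2.intervalIntegral_add_eq u 0
    have h4 : ∫ x in (0:ℝ)..1, (f x - fb) = 0 := by
      rw [intervalIntegral.integral_sub (hf.intervalIntegrable _ _)
        intervalIntegrable_const, intervalIntegral.integral_const, ← hfb]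
      simp
    rw [zero_add, h4] at h3
    rw [h1, h3, add_zero]
  refine ⟨G, hGd, hGp, ?_⟩
  intro u
  obtain ⟨y, hy, hy2⟩ := hGp.exists_mem_Ico₀ one_pos u
  rw [hy2]
  have h1 : G y = (∫ x in (0:ℝ)..y, f x) - y * fb := by
    rw [hG]
    simp only
    rw [intervalIntegral.integral_sub (hf.intervalIntegrable _ _)
      intervalIntegrable_const, intervalIntegral.integral_const]
    simp
  have h2 : 0 ≤ ∫ x in (0:ℝ)..y, f x :=
    intervalIntegral.integral_nonneg hy.1 fun x _ => h0 x
  have h3 : ∫ x in (0:ℝ)..y, f x ≤ fb := by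
    have h4 := intervalIntegral.integral_add_adjacent_intervals
      (hf.intervalIntegrable (μ := volume) 0 y) (hf.intervalIntegrable y 1)
    have h5 : 0 ≤ ∫ x in y..1, f x :=
      intervalIntegral.integral_nonneg hy.2.le fun x _ => h0 x
    linarith
  rw [h1, abs_le]
  have := hy.1
  have := hy.2
  constructor <;> nlinarith

section

variable {P : Par} {l V : ℝ} {r r' : ℕ → ℝ → ℝ}

/-- control of the boundary terms -/
structure Bdry (P : Par) (r : ℕ → ℝ → ℝ) (β : ℕ → ℝ) (b0 : ℝ) : Prop where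
  b : 0 ≤ b0
  n : ∀ m, 0 ≤ β m
  e : ∀ m, β m ≤ b0 * (1 / 8) ^ m
  i : ∀ (m : ℕ) (Q G : ℝ → ℝ) (A : ℝ), (∀ t, |Q t| ≤ 1) → Q 1 = Q 0 → Periodic G 1 →
    (∀ u, |G u| ≤ A) → |W P r m Q 1 * G (X P (m + 1) 1) - W P r m Q 0 * G (X P (m + 1) 0)| ≤
      A * β m

/-- the mass that survives -/
noncomputable def cc (P : Par) (r : ℕ → ℝ → ℝ) (m : ℕ) : ℝ := ∫ t in (0:ℝ)..1, chi P r m t

/-- the distortion -/
noncomputable def vv (P : Par) (l : ℝ) (r r' : ℕ → ℝ → ℝ) (m : ℕ) : ℝ :=
  ∫ t in (0:ℝ)..1, VV P l r r' m t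

theorem cc_nonneg (hr : Cut P l V r r') (m : ℕ) : 0 ≤ cc P r m :=
  intervalIntegral.integral_nonneg zero_le_one fun t _ => (chi_mem hr m t).1

theorem cc_le_one (hr : Cut P l V r r') (m : ℕ) : cc P r m ≤ 1 := by
  have h5 : ∫ t in (0:ℝ)..1, chi P r m t ≤ ∫ t in (0:ℝ)..1, (1:ℝ) :=
    intervalIntegral.integral_mono_on zero_le_one
      ((chi_cont hr m).intervalIntegrable _ _) intervalIntegrable_const
      (fun t _ => (chi_mem hr m t).2)
  simpa [cc] using h5

theorem vv_nonneg (h : OK P l) (hr : Cut P l V r r') (m : ℕ) : 0 ≤ vv P l r r' m :=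
  intervalIntegral.integral_nonneg zero_le_one fun t _ => VV_nonneg h.l_pos hr m t

/-- one step: the law of the next position against Lebesgue -/
theorem one_step (h : OK P l) (hr : Cut P l V r r') {β : ℕ → ℝ} {b0 : ℝ} (hβ : Bdry P r β b0)
    (m : ℕ) {f : ℝ → ℝ} (hf : Continuous f) (hp : Periodic f 1) (h0 : ∀ x, 0 ≤ f x) :
    |(∫ t in (0:ℝ)..1, chi P r m t * f (X P (m + 1) t)) - (∫ x in (0:ℝ)..1, f x) * cc P r m| ≤
      (∫ x in (0:ℝ)..1, f x) * (2 * vv P l r r' m + β m) := by
  obtain ⟨G, hGd, hGp, hG1⟩ := prim_nonneg hf hp h0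
  set fb := ∫ x in (0:ℝ)..1, f x with hfb
  have hl0 := h.l_pos
  have hb := ibp h hr m (Q := fun _ => 1) (Q' := fun _ => 0)
    (fun t => hasDerivAt_const t 1) continuous_const
    (bd := fun t => 2 * VV P l r r' m t)
    (continuous_const.mul (VV_cont hl0 hr m)) (by
      intro t ht
      have h := W'_le h hr m (Q := fun _ => 1) (Q' := fun _ => 0) ht
      simpa using h) hGd (hf.sub continuous_const) hG1
  rw [intervalIntegral.integral_const_mul] at hb
  have hb2 := hβ.i m (fun _ => 1) G fb (by simp) rfl hGp hG1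
  have h3 : ∫ t in (0:ℝ)..1, chi P r m t * 1 * (f (X P (m + 1) t) - fb) =
      (∫ t in (0:ℝ)..1, chi P r m t * f (X P (m + 1) t)) - fb * cc P r m := by
    have hcc := chi_cont hr m
    have hfx : Continuous (fun t => f (X P (m + 1) t)) := hf.comp (X_cont P (m + 1))
    unfold cc
    rw [← intervalIntegral.integral_const_mul, ← intervalIntegral.integral_sub
      (f := fun t => chi P r m t * f (X P (m + 1) t)) (g := fun t => fb * chi P r m t)
      ((hcc.mul hfx).intervalIntegrable _ _) ((continuous_const.mul hcc).intervalIntegrable _ _)]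
    apply intervalIntegral.integral_congr
    intro t _
    simp only
    ring
  rw [h3] at hb
  refine hb.trans ((add_le_add le_rfl hb2).trans (le_of_eq ?_))
  unfold vv
  ring

theorem vv_succ (h : OK P l) (hr : Cut P l V r r') (k : ℕ) : vv P l r r' (k + 1) =
    vv P l r r' k / 2 + ∫ t in (0:ℝ)..1, chi P r k t * ww P l r' (k + 1) (X P (k + 1) t) := by
  have hl0 := h.l_pos
  unfold vv
  rw [← intervalIntegral.integral_div, ← intervalIntegral.integral_add]
  · rfl
  · exact ((VV_cont hl0 hr k).div_const 2).intervalIntegrable _ _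
  · exact ((chi_cont hr k).mul
      ((ww_cont hl0 hr (k + 1)).comp (X_cont P (k + 1)))).intervalIntegrable _ _

theorem cc_succ (hr : Cut P l V r r') (k : ℕ) : cc P r (k + 1) =
    cc P r k - ∫ t in (0:ℝ)..1, chi P r k t * (1 - r (k + 1) (X P (k + 1) t)) := by
  unfold cc
  have h1 := chi_cont hr k
  have h2 : Continuous (fun t => r (k + 1) (X P (k + 1) t)) :=
    (hr.rc (k + 1)).comp (X_cont P (k + 1))
  rw [← intervalIntegral.integral_sub (f := chi P r k)
    (g := fun t => chi P r k t * (1 - r (k + 1) (X P (k + 1) t))) (h1.intervalIntegrable _ _)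
    ((h1.mul (continuous_const.sub h2)).intervalIntegrable _ _)]
  apply intervalIntegral.integral_congr
  intro t _
  show chi P r k t * r (k + 1) (X P (k + 1) t) =
    chi P r k t - chi P r k t * (1 - r (k + 1) (X P (k + 1) t))
  ring

/-- the constant -/
noncomputable def Cw (V : ℝ) : ℝ := 2 * V + 100

/-- the standing assumptions for the relative estimates -/
structure Rel (P : Par) (l V : ℝ) (r r' : ℕ → ℝ → ℝ) (β : ℕ → ℝ) (b0 : ℝ) : Prop where
  ok : OK P l
  cut : Cut P l V r r'
  bd : Bdry P r β b0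
  v0 : 0 ≤ V
  big : 8 * Cw V * (2 + b0) ≤ l
  hole : ∀ k, 1 ≤ k → (∫ x in (0:ℝ)..1, (1 - r k x)) * (2 + b0) ≤ 1 / 4

theorem rel_main {β : ℕ → ℝ} {b0 : ℝ} (H : Rel P l V r r' β b0) (m : ℕ) :
    vv P l r r' m ≤ 4 * Cw V * (2 + b0) / l * cc P r m ∧ (3 / 4) ^ m ≤ cc P r m := by
  have h := H.ok
  have hr := H.cut
  have hl0 := h.l_pos
  have hV := H.v0
  have hb0 := H.bd.b
  have hC : 0 < Cw V := by
    unfold Cw
    linarith
  set U := 4 * Cw V * (2 + b0) / l with hU
  have hU0 : 0 ≤ U := by positivity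
  have hU2 : U ≤ 1 / 2 := by
    rw [hU, div_le_iff₀ hl0]
    have := H.big
    linarith
  induction m with
  | zero =>
    constructor
    · have e : vv P l r r' 0 = 0 := by
        unfold vv
        simp [VV]
      rw [e]
      exact mul_nonneg hU0 (cc_nonneg hr 0)
    · have e : cc P r 0 = 1 := by
        unfold cc
        simp [chi]
      rw [e]
      simp
  | succ m ih =>
    obtain ⟨ih1, ih2⟩ := ih
    have hc0 := cc_nonneg hr m
    have hv0 := vv_nonneg h hr m
    have hβm : β m ≤ b0 * cc P r m := by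
      refine (H.bd.e m).trans (mul_le_mul_of_nonneg_left ?_ hb0)
      refine le_trans ?_ ih2
      exact pow_le_pow_left₀ (by norm_num) (by norm_num) m
    have key : 2 * vv P l r r' m + β m ≤ (1 + b0) * cc P r m := by
      have : vv P l r r' m ≤ 1 / 2 * cc P r m :=
        ih1.trans (mul_le_mul_of_nonneg_right hU2 hc0)
      linarith
    -- the kernel
    have k1 := one_step h hr H.bd m (ww_cont hl0 hr (m + 1)) (ww_per hr (m + 1))
      (ww_nonneg hl0 (m + 1))
    have k2 := ww_int h hr (k := m + 1) (by omega)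
    have k3 : 0 ≤ ∫ x in (0:ℝ)..1, ww P l r' (m + 1) x :=
      intervalIntegral.integral_nonneg zero_le_one fun x _ => ww_nonneg hl0 (m + 1) x
    have k4 : ∫ t in (0:ℝ)..1, chi P r m t * ww P l r' (m + 1) (X P (m + 1) t) ≤
        Cw V / l * ((2 + b0) * cc P r m) := by
      have q1 := (abs_le.1 k1).2
      have q2 : ∫ t in (0:ℝ)..1, chi P r m t * ww P l r' (m + 1) (X P (m + 1) t) ≤
          (∫ x in (0:ℝ)..1, ww P l r' (m + 1) x) * ((2 + b0) * cc P r m) := by
        have q3 := mul_le_mul_of_nonneg_left key k3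
        linarith
      refine q2.trans ?_
      apply mul_le_mul_of_nonneg_right _ (by positivity)
      exact k2
    -- the hole
    have n1 := one_step h hr H.bd m (f := fun x => 1 - r (m + 1) x)
      (continuous_const.sub (hr.rc (m + 1))) (fun x => by simp only; rw [hr.p]) (fun x => by
        have := hr.m1 (m + 1) x
        linarith)
    have n2 := H.hole (m + 1) (by omega)
    have n3 : 0 ≤ ∫ x in (0:ℝ)..1, (1 - r (m + 1) x) :=
      intervalIntegral.integral_nonneg zero_le_one fun x _ => by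
        have := hr.m1 (m + 1) x
        linarith
    have n4 : ∫ t in (0:ℝ)..1, chi P r m t * (1 - r (m + 1) (X P (m + 1) t)) ≤
        1 / 4 * cc P r m := by
      have q1 := (abs_le.1 n1).2
      have q3 := mul_le_mul_of_nonneg_left key n3
      have q4 := mul_le_mul_of_nonneg_right n2 hc0
      linarith
    have n5 : 3 / 4 * cc P r m ≤ cc P r (m + 1) := by
      rw [cc_succ hr]
      linarith
    constructor
    · rw [vv_succ h hr]
      have q1 : Cw V / l * ((2 + b0) * cc P r m) = U / 4 * cc P r m := by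
        rw [hU]
        field_simp
      have q2 : vv P l r r' m / 2 ≤ U / 2 * cc P r m := by linarith
      have q3 : U * (3 / 4 * cc P r m) ≤ U * cc P r (m + 1) := mul_le_mul_of_nonneg_left n5 hU0
      linarith
    · rw [pow_succ]
      linarith

/-- **relative equidistribution for all times** -/
theorem rel_equi {β : ℕ → ℝ} {b0 : ℝ} (H : Rel P l V r r' β b0) (m : ℕ) {f : ℝ → ℝ}
    (hf : Continuous f) (hp : Periodic f 1) (h0 : ∀ x, 0 ≤ f x) :
    |(∫ t in (0:ℝ)..1, chi P r m t * f (X P (m + 1) t)) - (∫ x in (0:ℝ)..1, f x) * cc P r m| ≤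
      (∫ x in (0:ℝ)..1, f x) *
        ((8 * Cw V * (2 + b0) / l + b0 * (1 / 6) ^ m) * cc P r m) := by
  have h1 := one_step H.ok H.cut H.bd m hf hp h0
  obtain ⟨h2, h3⟩ := rel_main H m
  have h4 : 0 ≤ ∫ x in (0:ℝ)..1, f x :=
    intervalIntegral.integral_nonneg zero_le_one fun x _ => h0 x
  refine h1.trans (mul_le_mul_of_nonneg_left ?_ h4)
  have h5 : β m ≤ b0 * (1 / 6) ^ m * cc P r m := by
    refine (H.bd.e m).trans ?_
    rw [mul_assoc]
    apply mul_le_mul_of_nonneg_left _ H.bd.b
    have h6 : (1 / 6 : ℝ) ^ m * (3 / 4) ^ m ≤ (1 / 6) ^ m * cc P r m :=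
      mul_le_mul_of_nonneg_left h3 (by positivity)
    have h7 : (1 / 6 : ℝ) ^ m * (3 / 4) ^ m = (1 / 8) ^ m := by
      rw [← mul_pow]
      norm_num
    linarith
  have h8 : 2 * vv P l r r' m ≤ 2 * (4 * Cw V * (2 + b0) / l * cc P r m) := by linarith
  have h9 : 2 * (4 * Cw V * (2 + b0) / l * cc P r m) = 8 * Cw V * (2 + b0) / l * cc P r m := by
    ring
  rw [add_mul]
  linarith

end

end Pool.Agent.H52.STD
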