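import Mathlib
import Pool.Agent.H52.STD.Rel

set_option autoImplicit false

/-!
# Sharp cutoffs
-/

namespace Pool.Agent.H52.STD

open Real MeasureTheory Function Filter Topology

theorem sT_deriv_zero {w : ℝ} (h : w < 0 ∨ 1 < w) : deriv smoothTransition w = 0 :=
  Pool.Agent.TH705.SM.sT_deriv_zero h

/-- the cutoff -/
noncomputable def rho (θ z : ℝ) : ℝ := smoothTransition (θ * (z ^ 2 - 1))

/-- its derivative -/
noncomputable def rho' (θ z : ℝ) : ℝ := deriv smoothTransition (θ * (z ^ 2 - 1)) * (θ * (2 * z))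

theorem rho_hasDeriv (θ z : ℝ) : HasDerivAt (rho θ) (rho' θ z) z := by
  have h1 : HasDerivAt (fun z : ℝ => θ * (z ^ 2 - 1)) (θ * (2 * z)) z := by
    have := ((hasDerivAt_pow 2 z).sub_const 1).const_mul θ
    simpa using this
  have h2 : HasDerivAt smoothTransition (deriv smoothTransition (θ * (z ^ 2 - 1)))
      (θ * (z ^ 2 - 1)) :=
    ((smoothTransition.contDiff (n := 1)).differentiable one_ne_zero _).hasDerivAt
  exact h2.comp z h1

theorem rho_nonneg (θ z : ℝ) : 0 ≤ rho θ z := smoothTransition.nonneg _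

theorem rho_le_one (θ z : ℝ) : rho θ z ≤ 1 := smoothTransition.le_one _

theorem rho'_cont (θ : ℝ) : Continuous (rho' θ) := by
  unfold rho'
  have h := Pool.Agent.TH705.SM.sT_deriv_cont
  have h1 : Continuous (fun z : ℝ => deriv smoothTransition (θ * (z ^ 2 - 1))) :=
    h.comp (by fun_prop)
  fun_prop

theorem rho_zero {θ z : ℝ} (hθ : 0 ≤ θ) (h : |z| ≤ 1) : rho θ z = 0 := by
  unfold rho
  apply smoothTransition.zero_of_nonpos
  have : z ^ 2 ≤ 1 := by rwa [sq_le_one_iff_abs_le_one]
  nlinarith

theorem rho'_zero {θ z : ℝ} (hθ : 0 < θ) (h : |z| < 1) : rho' θ z = 0 := by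
  unfold rho'
  rw [sT_deriv_zero, zero_mul]
  left
  have : z ^ 2 < 1 := by rwa [sq_lt_one_iff_abs_lt_one]
  nlinarith

theorem rho_one {θ z : ℝ} (h : 1 ≤ θ * (z ^ 2 - 1)) : rho θ z = 1 := by
  unfold rho
  exact smoothTransition.one_of_one_le h

/-- the variation of the cutoff -/
noncomputable def TT (θ z : ℝ) : ℝ := ∫ u in (0:ℝ)..z, |rho' θ u|

theorem TT_hasDeriv (θ z : ℝ) : HasDerivAt (TT θ) |rho' θ z| z := by
  have hc := (rho'_cont θ).abs
  exact intervalIntegral.integral_hasDerivAt_right (hc.intervalIntegrable _ _)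
    (hc.stronglyMeasurableAtFilter _ _) hc.continuousAt

theorem TT_abs {θ : ℝ} (hθ : 0 ≤ θ) (z : ℝ) : |TT θ z| ≤ 1 := by
  have hF : ∀ z, ∫ u in (0:ℝ)..z, rho' θ u = rho θ z - rho θ 0 := fun z =>
    intervalIntegral.integral_eq_sub_of_hasDerivAt (fun x _ => rho_hasDeriv θ x)
      ((rho'_cont θ).intervalIntegrable _ _)
  have hz := rho_nonneg θ z
  have hz1 := rho_le_one θ z
  have h0 : rho θ 0 = 0 := rho_zero hθ (by simp)
  have hd : ∀ w, 0 ≤ deriv smoothTransition w := fun w =>
    (smoothTransition.monotone).deriv_nonneg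
  rcases le_total 0 z with h | h
  · have e : TT θ z = ∫ u in (0:ℝ)..z, rho' θ u := by
      unfold TT
      apply intervalIntegral.integral_congr
      intro u hu
      rw [Set.uIcc_of_le h] at hu
      apply abs_of_nonneg
      unfold rho'
      have := hu.1
      have := hd (θ * (u ^ 2 - 1))
      positivity
    rw [e, hF, h0, sub_zero, abs_of_nonneg hz]
    exact hz1
  · have e : TT θ z = ∫ u in (0:ℝ)..z, -rho' θ u := by
      unfold TT
      apply intervalIntegral.integral_congr
      intro u hu
      rw [Set.uIcc_of_ge h] at hu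
      apply abs_of_nonpos
      unfold rho'
      have h1 := hu.2
      have h2 := hd (θ * (u ^ 2 - 1))
      have h3 : θ * (2 * u) ≤ 0 := by nlinarith
      exact mul_nonpos_of_nonneg_of_nonpos h2 h3
    rw [e, intervalIntegral.integral_neg, hF, h0, sub_zero, abs_neg, abs_of_nonneg hz]
    exact hz1

theorem var_le {θ α l : ℝ} (hθ : 0 ≤ θ) (hl : 0 < l) :
    ∫ x in (0:ℝ)..1, |rho' θ (L α x / l) * (-(4 * π ^ 2 * α * sin (2 * π * x)) / l)| ≤ 4 := by
  obtain ⟨s, hs, hs1⟩ : ∃ s : ℝ, |α| = -(s * α) ∧ |s| = 1 := by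
    rcases le_total 0 α with h | h
    · exact ⟨-1, by rw [abs_of_nonneg h]; ring, by simp⟩
    · exact ⟨1, by rw [abs_of_nonpos h]; ring, by simp⟩
  set g : ℝ → ℝ := fun x => TT θ (L α x / l) with hg
  set g' : ℝ → ℝ := fun x => |rho' θ (L α x / l)| * (-(4 * π ^ 2 * α * sin (2 * π * x)) / l)
    with hg'
  have hgd : ∀ x, HasDerivAt g (g' x) x := by
    intro x
    have h1 : HasDerivAt (L α) (-(4 * π ^ 2 * α * sin (2 * π * x))) x := by
      have h := (((hasDerivAt_id x).const_mul (2 * π)).cos.const_mul (2 * π * α)).const_add 2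
      refine HasDerivAt.congr_deriv (f := L α) h ?_
      simp only [id]
      ring
    exact (TT_hasDeriv θ (L α x / l)).comp x (h1.div_const l)
  have hLc := L_cont α
  have hrc := rho'_cont θ
  have hgc : Continuous g' := by
    rw [hg']
    have : Continuous (fun x => rho' θ (L α x / l)) := hrc.comp (hLc.div_const l)
    fun_prop
  have hgb : ∀ u v, |g u - g v| ≤ 2 := by
    intro u v
    have h1 := TT_abs hθ (L α u / l)
    have h2 := TT_abs hθ (L α v / l)
    have h3 := abs_sub (g u) (g v)
    rw [hg] at h3 ⊢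
    simp only at h3 ⊢
    linarith
  set F : ℝ → ℝ := fun x => |rho' θ (L α x / l) * (-(4 * π ^ 2 * α * sin (2 * π * x)) / l)| with hF
  have hFc : Continuous F := by
    rw [hF]
    have : Continuous (fun x => rho' θ (L α x / l)) := hrc.comp (hLc.div_const l)
    fun_prop
  have hFe : ∀ x, F x = |rho' θ (L α x / l)| * (4 * π ^ 2 * |α| * |sin (2 * π * x)| / l) := by
    intro x
    rw [hF]
    simp only
    rw [abs_mul, abs_div, abs_neg, abs_mul, abs_mul, abs_of_pos (by positivity : 0 < 4 * π ^ 2),
      abs_of_pos hl]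
  have hpi := pi_pos
  have half1 : ∫ x in (0:ℝ)..(1 / 2), F x ≤ 2 := by
    have e : ∫ x in (0:ℝ)..(1 / 2), F x = ∫ x in (0:ℝ)..(1 / 2), s * g' x := by
      apply intervalIntegral.integral_congr
      intro x hx
      rw [Set.uIcc_of_le (by norm_num)] at hx
      have h1 : 0 ≤ sin (2 * π * x) := by
        apply sin_nonneg_of_nonneg_of_le_pi
        · have := hx.1
          positivity
        · have := hx.2
          nlinarith
      simp only
      rw [hFe, abs_of_nonneg h1, hs, hg']
      ring
    rw [e, intervalIntegral.integral_const_mul,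
      intervalIntegral.integral_eq_sub_of_hasDerivAt (fun x _ => hgd x)
        (hgc.intervalIntegrable _ _)]
    refine (le_abs_self _).trans ?_
    rw [abs_mul, hs1, one_mul]
    exact hgb _ _
  have half2 : ∫ x in (1 / 2 : ℝ)..1, F x ≤ 2 := by
    have e : ∫ x in (1 / 2 : ℝ)..1, F x = ∫ x in (1 / 2 : ℝ)..1, (-s) * g' x := by
      apply intervalIntegral.integral_congr
      intro x hx
      rw [Set.uIcc_of_le (by norm_num)] at hx
      have h1 : sin (2 * π * x) ≤ 0 := by
        have e2 : sin (2 * π * x) = -sin (2 * π * x - π) := by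
          rw [sin_sub_pi]
          ring
        have : 0 ≤ sin (2 * π * x - π) := by
          apply sin_nonneg_of_nonneg_of_le_pi
          · have := hx.1
            nlinarith
          · have := hx.2
            nlinarith
        rw [e2]
        linarith
      simp only
      rw [hFe, abs_of_nonpos h1, hs, hg']
      ring
    rw [e, intervalIntegral.integral_const_mul,
      intervalIntegral.integral_eq_sub_of_hasDerivAt (fun x _ => hgd x)
        (hgc.intervalIntegrable _ _)]
    refine (le_abs_self _).trans ?_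
    rw [abs_mul, abs_neg, hs1, one_mul]
    exact hgb _ _
  have hsplit := intervalIntegral.integral_add_adjacent_intervals
    (hFc.intervalIntegrable (μ := volume) 0 (1 / 2)) (hFc.intervalIntegrable (1 / 2) 1)
  rw [← hsplit]
  linarith

/-- the cutoffs -/
noncomputable def rr (P : Par) (l θ : ℝ) (k : ℕ) (x : ℝ) : ℝ := rho θ (L (P.a k) x / l)

/-- their derivatives -/
noncomputable def rr' (P : Par) (l θ : ℝ) (k : ℕ) (x : ℝ) : ℝ :=
  rho' θ (L (P.a k) x / l) * (-(4 * π ^ 2 * P.a k * sin (2 * π * x)) / l)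

theorem rr_cut (P : Par) {l θ : ℝ} (hl : 0 < l) (hθ : 0 < θ) :
    Cut P l 4 (rr P l θ) (rr' P l θ) where
  d := by
    intro k x
    have h1 : HasDerivAt (L (P.a k)) (-(4 * π ^ 2 * P.a k * sin (2 * π * x))) x := by
      have h := (((hasDerivAt_id x).const_mul (2 * π)).cos.const_mul (2 * π * P.a k)).const_add 2
      refine HasDerivAt.congr_deriv (f := L (P.a k)) h ?_
      simp only [id]
      ring
    exact (rho_hasDeriv θ (L (P.a k) x / l)).comp x (h1.div_const l)
  c := by
    intro k
    have hLc := L_cont (P.a k)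
    have : Continuous (fun x => rho' θ (L (P.a k) x / l)) := (rho'_cont θ).comp (hLc.div_const l)
    unfold rr'
    fun_prop
  p := by
    intro k x
    unfold rr
    rw [L_per]
  p' := by
    intro k x
    unfold rr'
    have e : 2 * π * (x + 1) = 2 * π * x + 2 * π := by ring
    rw [L_per, e, sin_add_two_pi]
  m0 := fun k x => rho_nonneg _ _
  m1 := fun k x => rho_le_one _ _
  z := by
    intro k x h
    apply rho_zero hθ.le
    rw [abs_div, abs_of_pos hl, div_le_one hl]
    exact h.le
  z' := by
    intro k x h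
    unfold rr'
    rw [rho'_zero hθ, zero_mul]
    rw [abs_div, abs_of_pos hl, div_lt_one hl]
    exact h
  v := fun k _ => var_le hθ.le hl

theorem rr_hole {P : Par} {l θ : ℝ} (hl : 16 ≤ l) (hθ : 1 ≤ θ) {k : ℕ} (hk : l ≤ |P.a k|) :
    ∫ x in (0:ℝ)..1, (1 - rr P l θ k x) ≤ 3 / 4 * (l / |P.a k|) := by
  have hl0 : 0 < l := by linarith
  have ha0 : 0 < |P.a k| := by linarith
  have h1 := ee_int hl hk
  have h2 : ∀ x, 1 - rr P l θ k x ≤ 3 * l ^ 2 / |P.a k| * ee (P.a k) l x := by
    intro x
    have hden : 0 < L (P.a k) x ^ 2 + l ^ 2 := by positivity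
    have e : 3 * l ^ 2 / |P.a k| * ee (P.a k) l x = 3 * l ^ 2 / (L (P.a k) x ^ 2 + l ^ 2) := by
      unfold ee
      field_simp
    rw [e]
    by_cases hz : 2 ≤ (L (P.a k) x / l) ^ 2
    · have : rr P l θ k x = 1 := rho_one (by nlinarith)
      rw [this, sub_self]
      positivity
    · rw [not_le, div_pow, div_lt_iff₀ (by positivity)] at hz
      have h3 : 1 ≤ 3 * l ^ 2 / (L (P.a k) x ^ 2 + l ^ 2) := by
        rw [le_div_iff₀ hden]
        linarith
      have h4 : 0 ≤ rr P l θ k x := rho_nonneg _ _
      linarith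
  have hc : Continuous (fun x => 1 - rr P l θ k x) :=
    continuous_const.sub ((rr_cut P hl0 (by linarith : 0 < θ)).rc k)
  have hc2 : Continuous (fun x => 3 * l ^ 2 / |P.a k| * ee (P.a k) l x) :=
    continuous_const.mul (ee_cont _ hl0)
  have h3 := intervalIntegral.integral_mono_on (μ := volume) zero_le_one
    (hc.intervalIntegrable 0 1) (hc2.intervalIntegrable 0 1) (fun x _ => h2 x)
  rw [intervalIntegral.integral_const_mul] at h3
  refine h3.trans ?_
  have h4 : 3 * l ^ 2 / |P.a k| * (∫ x in (0:ℝ)..1, ee (P.a k) l x) ≤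
      3 * l ^ 2 / |P.a k| * (1 / (4 * l)) := mul_le_mul_of_nonneg_left h1 (by positivity)
  refine h4.trans (le_of_eq ?_)
  field_simp

/-- the surviving set: the strips are avoided at the times `1, …, m` -/
def Surv (P : Par) (l : ℝ) (m : ℕ) : Set ℝ :=
  {t | ∀ k, 1 ≤ k → k ≤ m → l < |L (P.a k) (X P k t)|}

theorem Surv_open (P : Par) (l : ℝ) (m : ℕ) : IsOpen (Surv P l m) := by
  have e : Surv P l m = ⋂ k ∈ Finset.Icc 1 m, {t | l < |L (P.a k) (X P k t)|} := by
    ext t
    simp [Surv]
  rw [e]
  apply isOpen_biInter_finset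
  intro k _
  exact isOpen_lt continuous_const ((L_cont (P.a k)).comp (X_cont P k)).abs

theorem Surv_meas (P : Par) (l : ℝ) (m : ℕ) : MeasurableSet (Surv P l m) :=
  (Surv_open P l m).measurableSet

theorem chi_tendsto (P : Par) {l : ℝ} (hl : 0 < l) (m : ℕ) (t : ℝ) :
    Tendsto (fun j : ℕ => chi P (rr P l (j + 1)) m t) atTop
      (𝓝 (Set.indicator (Surv P l m) (fun _ => (1:ℝ)) t)) := by
  apply tendsto_const_nhds.congr'
  have key : ∀ k : ℕ, ∀ᶠ j : ℕ in atTop, rr P l ((j : ℝ) + 1) k (X P k t) =
      if l < |L (P.a k) (X P k t)| then 1 else 0 := by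
    intro k
    split_ifs with h
    · have hz : 0 < (L (P.a k) (X P k t) / l) ^ 2 - 1 := by
        have h1 : 1 < |L (P.a k) (X P k t) / l| := by
          rw [abs_div, abs_of_pos hl, one_lt_div hl]
          exact h
        have h2 : 1 < (L (P.a k) (X P k t) / l) ^ 2 := by
          rw [← sq_abs]
          nlinarith
        linarith
      obtain ⟨N, hN⟩ := exists_nat_ge (1 / ((L (P.a k) (X P k t) / l) ^ 2 - 1))
      filter_upwards [eventually_ge_atTop N] with j hj
      apply rho_one
      have h3 : (N : ℝ) ≤ j := by exact_mod_cast hj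
      rw [div_le_iff₀ hz] at hN
      nlinarith
    · filter_upwards with j
      apply rho_zero (by positivity)
      rw [abs_div, abs_of_pos hl, div_le_one hl]
      exact not_lt.1 h
  have key2 : ∀ᶠ j : ℕ in atTop, ∀ k ∈ Finset.range (m + 1), rr P l ((j : ℝ) + 1) k (X P k t) =
      if l < |L (P.a k) (X P k t)| then 1 else 0 := by
    rw [Filter.eventually_all_finset]
    intro k _
    exact key k
  filter_upwards [key2] with j hj
  clear key key2
  induction m with
  | zero =>
    have : t ∈ Surv P l 0 := by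
      intro k h1 h2
      omega
    rw [Set.indicator_of_mem this]
    rfl
  | succ m ih =>
    have h1 := ih (fun k hk => hj k (by
      rw [Finset.mem_range] at hk ⊢
      omega))
    have h2 := hj (m + 1) (Finset.mem_range.2 (by omega))
    show _ = chi P (rr P l (j + 1)) m t * rr P l (j + 1) (m + 1) (X P (m + 1) t)
    rw [← h1, h2]
    by_cases h3 : t ∈ Surv P l m
    · by_cases h4 : l < |L (P.a (m + 1)) (X P (m + 1) t)|
      · have : t ∈ Surv P l (m + 1) := by
          intro k hk1 hk2
          rcases Nat.lt_or_ge k (m + 1) with h5 | h5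
          · exact h3 k hk1 (by omega)
          · have : k = m + 1 := by omega
            rw [this]
            exact h4
        rw [Set.indicator_of_mem this, Set.indicator_of_mem h3, if_pos h4, mul_one]
      · have : t ∉ Surv P l (m + 1) := fun h => h4 (h (m + 1) (by omega) le_rfl)
        rw [Set.indicator_of_notMem this, if_neg h4, mul_zero]
    · have : t ∉ Surv P l (m + 1) := fun h => h3 fun k hk1 hk2 => h k hk1 (by omega)
      rw [Set.indicator_of_notMem this, Set.indicator_of_notMem h3, zero_mul]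

/-- the limit of the integrals -/
theorem int_tendsto {P : Par} {l : ℝ} (hl : 0 < l) (m : ℕ) {g : ℝ → ℝ} (hg : Continuous g) :
    Tendsto (fun j : ℕ => ∫ t in (0:ℝ)..1, chi P (rr P l (j + 1)) m t * g t) atTop
      (𝓝 (∫ t in Set.Ioc (0:ℝ) 1 ∩ Surv P l m, g t)) := by
  have e : ∫ t in Set.Ioc (0:ℝ) 1 ∩ Surv P l m, g t =
      ∫ t in (0:ℝ)..1, Set.indicator (Surv P l m) (fun _ => (1:ℝ)) t * g t := by
    rw [intervalIntegral.integral_of_le zero_le_one, ← setIntegral_indicator (Surv_meas P l m)]
    apply integral_congr_ae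
    filter_upwards with t
    by_cases h : t ∈ Surv P l m
    · rw [Set.indicator_of_mem h, Set.indicator_of_mem h, one_mul]
    · rw [Set.indicator_of_notMem h, Set.indicator_of_notMem h, zero_mul]
  rw [e]
  apply intervalIntegral.tendsto_integral_filter_of_dominated_convergence (fun t => |g t|)
  · filter_upwards with j
    have hr := rr_cut P hl (by positivity : (0:ℝ) < (j : ℝ) + 1)
    exact ((chi_cont hr m).mul hg).aestronglyMeasurable
  · filter_upwards with j
    filter_upwards with t _
    have hr := rr_cut P hl (by positivity : (0:ℝ) < (j : ℝ) + 1)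
    have := chi_mem hr m t
    rw [norm_eq_abs, abs_mul, abs_of_nonneg this.1]
    calc chi P (rr P l (j + 1)) m t * |g t| ≤ 1 * |g t| :=
          mul_le_mul_of_nonneg_right this.2 (abs_nonneg _)
      _ = _ := one_mul _
  · exact hg.abs.intervalIntegrable _ _
  · filter_upwards with t _
    exact (chi_tendsto P hl m t).mul_const _

end Pool.Agent.H52.STD
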