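import Mathlib
import Pool.Agent.H52.STD.Sharp

set_option autoImplicit false

/-!
# Relative equidistribution of the survivors, sharp form
-/

namespace Pool.Agent.H52.STD

open Real MeasureTheory Function Filter Topology

/-! ### boundary terms -/

theorem X_period {P : Par} (hb : P.b = 0) (hc : P.c = 1) (k : ℕ) (t : ℝ) :
    X P k (t + 1) = X P k t + k := by
  induction k using Nat.strong_induction_on with
  | _ k ih =>
    match k with
    | 0 => simp [X]
    | 1 =>
      simp only [X, hc]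
      push_cast
      ring
    | k + 2 =>
      have h1 := ih (k + 1) (by omega)
      have h0 := ih k (by omega)
      rw [X_succ, X_succ, hb, h1, h0]
      have e : 2 * π * (X P (k + 1) t + ((k + 1 : ℕ) : ℝ)) =
          2 * π * X P (k + 1) t + ((k + 1 : ℕ) : ℝ) * (2 * π) := by ring
      rw [e, sin_add_nat_mul_two_pi]
      push_cast
      ring

theorem L_per_nat (α x : ℝ) (k : ℕ) : L α (x + k) = L α x := by
  have := (L_per α).nat_mul k x
  rwa [mul_one] at this

theorem D_period {P : Par} (hb : P.b = 0) (hc : P.c = 1) (k : ℕ) (t : ℝ) :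
    D P k (t + 1) = D P k t := by
  induction k using Nat.strong_induction_on with
  | _ k ih =>
    match k with
    | 0 => simp [D]
    | 1 => simp [D]
    | k + 2 =>
      have h1 := ih (k + 1) (by omega)
      have h0 := ih k (by omega)
      rw [D_succ, D_succ, hb, h1, h0, X_period hb hc]
      simp only [zero_mul, add_zero]
      rw [L_per_nat]

theorem chi_period {P : Par} (hb : P.b = 0) (hc : P.c = 1) {r : ℕ → ℝ → ℝ}
    (hr : ∀ k, Periodic (r k) 1) (m : ℕ) (t : ℝ) : chi P r m (t + 1) = chi P r m t := by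
  induction m with
  | zero => rfl
  | succ m ih =>
    show chi P r m (t + 1) * r (m + 1) (X P (m + 1) (t + 1)) =
      chi P r m t * r (m + 1) (X P (m + 1) t)
    rw [ih, X_period hb hc]
    have := (hr (m + 1)).nat_mul (m + 1) (X P (m + 1) t)
    rw [mul_one] at this
    rw [this]

theorem bdry_per {P : Par} (hb : P.b = 0) (hc : P.c = 1) {r : ℕ → ℝ → ℝ}
    (hr : ∀ k, Periodic (r k) 1) : Bdry P r (fun _ => 0) 0 where
  b := le_rfl
  n := fun _ => le_rfl
  e := fun m => by simp
  i := by
    intro m Q G A _ hQ hG _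
    have e1 : chi P r m 1 = chi P r m 0 := by
      have := chi_period hb hc hr m 0
      rwa [zero_add] at this
    have e2 : D P (m + 1) 1 = D P (m + 1) 0 := by
      have := D_period hb hc (m + 1) 0
      rwa [zero_add] at this
    have e3 : G (X P (m + 1) 1) = G (X P (m + 1) 0) := by
      have := X_period hb hc (m + 1) 0
      rw [zero_add] at this
      rw [this]
      have h2 := hG.nat_mul (m + 1) (X P (m + 1) 0)
      rwa [mul_one] at h2
    have e4 : W P r m Q 1 = W P r m Q 0 := by
      unfold W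
      rw [e1, e2, hQ]
    rw [e3, e4]
    simp

theorem W_abs {P : Par} {l V : ℝ} {r r' : ℕ → ℝ → ℝ} (h : OK P l) (hr : Cut P l V r r') (m : ℕ)
    {Q : ℝ → ℝ} {t : ℝ} (ht : t ∈ Set.Icc (0:ℝ) 1) (hQ : |Q t| ≤ 1) :
    |W P r m Q t| ≤ 1 / |P.c| * (2 / l) ^ m := by
  have hl := h.l_pos
  have hc := h.c0
  unfold W
  by_cases hg : Good P l m t
  · have h1 := growth_pow h ht hg
    have h2 := chi_mem hr m t
    have h3 : 0 < |P.c| * (l / 2) ^ m := by positivity
    rw [abs_div, abs_mul, abs_of_nonneg h2.1]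
    calc chi P r m t * |Q t| / |D P (m + 1) t| ≤ 1 / (|P.c| * (l / 2) ^ m) := by
          apply div_le_div₀ zero_le_one _ h3 h1
          exact mul_le_one₀ h2.2 (abs_nonneg _) hQ
      _ = _ := by
          rw [one_div, mul_inv, ← inv_pow, inv_div, one_div]
  · rw [(chi_bad hr hg).1, zero_mul, zero_div, abs_zero]
    positivity

theorem bdry_gen {P : Par} {l V : ℝ} {r r' : ℕ → ℝ → ℝ} (h : OK P l) (hr : Cut P l V r r') :
    Bdry P r (fun m => 2 / |P.c| * (2 / l) ^ m) (2 / |P.c|) where
  b := by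
    have := h.c0
    positivity
  n := fun m => by
    have := h.c0
    have := h.l_pos
    positivity
  e := fun m => by
    have h1 := h.c0
    have h2 := h.l_ge
    have h3 := h.l_pos
    apply mul_le_mul_of_nonneg_left _ (by positivity)
    apply pow_le_pow_left₀ (by positivity)
    rw [div_le_iff₀ h3]
    linarith
  i := by
    intro m Q G A hQ _ _ hG
    have hl := h.l_pos
    have hc := h.c0
    have h1 := W_abs h hr m (t := 1) (by simp) (hQ 1)
    have h0 := W_abs h hr m (t := 0) (by simp) (hQ 0)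
    have hA : 0 ≤ A := (abs_nonneg _).trans (hG 0)
    refine (abs_sub _ _).trans ?_
    rw [abs_mul, abs_mul]
    have q : 0 ≤ 1 / |P.c| * (2 / l) ^ m := by positivity
    have q1 : |W P r m Q 1| * |G (X P (m + 1) 1)| ≤ (1 / |P.c| * (2 / l) ^ m) * A :=
      mul_le_mul h1 (hG _) (abs_nonneg _) q
    have q0 : |W P r m Q 0| * |G (X P (m + 1) 0)| ≤ (1 / |P.c| * (2 / l) ^ m) * A :=
      mul_le_mul h0 (hG _) (abs_nonneg _) q
    have e : A * (2 / |P.c| * (2 / l) ^ m) = (1 / |P.c| * (2 / l) ^ m) * A +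
        (1 / |P.c| * (2 / l) ^ m) * A := by ring
    rw [e]
    exact add_le_add q1 q0

/-! ### the survivors -/

/-- the surviving set -/
def SS (P : Par) (l : ℝ) (m : ℕ) : Set ℝ := Set.Ioc 0 1 ∩ Surv P l m

theorem SS_meas (P : Par) (l : ℝ) (m : ℕ) : MeasurableSet (SS P l m) :=
  measurableSet_Ioc.inter (Surv_meas P l m)

theorem SS_fin (P : Par) (l : ℝ) (m : ℕ) : volume (SS P l m) ≠ ⊤ := by
  have : volume (SS P l m) ≤ volume (Set.Ioc (0:ℝ) 1) := measure_mono Set.inter_subset_left
  refine ne_top_of_le_ne_top ?_ this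
  simp

/-- the standing assumptions, sharp form -/
structure Std (P : Par) (l b0 : ℝ) : Prop where
  ok : OK P l
  b : 0 ≤ b0
  bd : ∀ θ : ℝ, 1 ≤ θ → ∃ β, Bdry P (rr P l θ) β b0
  big : 864 * (2 + b0) ≤ l
  hole : ∀ k, 1 ≤ k → 3 * (2 + b0) * l ≤ |P.a k|

theorem Std.rel {P : Par} {l b0 : ℝ} (H : Std P l b0) {θ : ℝ} (hθ : 1 ≤ θ) :
    ∃ β, Rel P l 4 (rr P l θ) (rr' P l θ) β b0 := by
  obtain ⟨β, hβ⟩ := H.bd θ hθ
  refine ⟨β, H.ok, rr_cut P H.ok.l_pos (by linarith), hβ, by norm_num, ?_, ?_⟩
  · have := H.big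
    unfold Cw
    linarith
  · intro k hk
    have h1 := rr_hole (P := P) H.ok.l_ge hθ (H.ok.la k hk)
    have h2 := H.hole k hk
    have h3 := H.b
    have h4 := H.ok.l_pos
    have h5 : 0 < |P.a k| := by
      have := H.ok.la k hk
      linarith
    have h6 : 3 / 4 * (l / |P.a k|) * (2 + b0) ≤ 1 / 4 := by
      have e : 3 / 4 * (l / |P.a k|) * (2 + b0) = (3 * (2 + b0) * l) / (4 * |P.a k|) := by
        field_simp
      rw [e, div_le_div_iff₀ (by positivity) (by norm_num)]
      linarith
    exact (mul_le_mul_of_nonneg_right h1 (by linarith)).trans h6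

theorem sharp_cont {P : Par} {l b0 : ℝ} (H : Std P l b0) (m : ℕ) {f : ℝ → ℝ}
    (hf : Continuous f) (hp : Periodic f 1) (h0 : ∀ x, 0 ≤ f x) :
    |(∫ t in SS P l m, f (X P (m + 1) t)) - (∫ x in (0:ℝ)..1, f x) * volume.real (SS P l m)| ≤
      (∫ x in (0:ℝ)..1, f x) *
        ((864 * (2 + b0) / l + b0 * (1 / 6) ^ m) * volume.real (SS P l m)) := by
  have hl := H.ok.l_pos
  have t1 := int_tendsto (P := P) hl m (g := fun t => f (X P (m + 1) t)) (hf.comp (X_cont P _))
  have t2 := int_tendsto (P := P) hl m (g := fun _ => (1:ℝ)) continuous_const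
  have e2 : ∫ t in SS P l m, (1:ℝ) = volume.real (SS P l m) := by
    simp
  change Tendsto _ _ (𝓝 (∫ t in SS P l m, (1:ℝ))) at t2
  rw [e2] at t2
  have hle : ∀ j : ℕ, |(∫ t in (0:ℝ)..1, chi P (rr P l (j + 1)) m t * f (X P (m + 1) t)) -
      (∫ x in (0:ℝ)..1, f x) * ∫ t in (0:ℝ)..1, chi P (rr P l (j + 1)) m t * 1| ≤
      (∫ x in (0:ℝ)..1, f x) * ((864 * (2 + b0) / l + b0 * (1 / 6) ^ m) *
        ∫ t in (0:ℝ)..1, chi P (rr P l (j + 1)) m t * 1) := by
    intro j
    obtain ⟨β, hR⟩ := H.rel (θ := (j : ℝ) + 1) (by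
      have : (0:ℝ) ≤ j := Nat.cast_nonneg j
      linarith)
    have h := rel_equi hR m hf hp h0
    have e3 : ∫ t in (0:ℝ)..1, chi P (rr P l (j + 1)) m t * 1 = cc P (rr P l (j + 1)) m := by
      unfold cc
      simp
    rw [e3]
    have e4 : 8 * Cw 4 * (2 + b0) = 864 * (2 + b0) := by
      unfold Cw
      ring
    rw [e4] at h
    exact h
  exact le_of_tendsto_of_tendsto' ((t1.sub (t2.const_mul _)).abs)
    ((t2.const_mul _).const_mul _) hle

/-! ### from continuous functions to sets -/

theorem cmp_meas {μ ν : Measure UnitAddCircle} [IsFiniteMeasure μ] [IsFiniteMeasure ν] {C : ℝ}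
    (hC : 0 ≤ C)
    (h : ∀ F : UnitAddCircle → ℝ, Continuous F → (∀ x, 0 ≤ F x) → ∫ x, F x ∂μ ≤ C * ∫ x, F x ∂ν)
    {E : Set UnitAddCircle} (hE : MeasurableSet E) : μ.real E ≤ C * ν.real E := by
  have hcl : ∀ K : Set UnitAddCircle, IsClosed K → μ.real K ≤ C * ν.real K := by
    intro K hK
    have hpos : ∀ n : ℕ, (0:ℝ) < 1 / ((n : ℝ) + 1) := fun n => by positivity
    have h1 := tendsto_integral_thickenedIndicator_of_isClosed μ hK hpos
      tendsto_one_div_add_atTop_nhds_zero_nat
    have h2 := tendsto_integral_thickenedIndicator_of_isClosed ν hK hpos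
      tendsto_one_div_add_atTop_nhds_zero_nat
    refine le_of_tendsto_of_tendsto' h1 (h2.const_mul C) ?_
    intro n
    apply h
    · exact NNReal.continuous_coe.comp (thickenedIndicator (hpos n) K).continuous
    · intro x
      exact NNReal.coe_nonneg _
  apply le_of_forall_pos_le_add
  intro ε hε
  have hne : (ENNReal.ofReal ε) ≠ 0 := by
    rw [Ne, ENNReal.ofReal_eq_zero, not_le]
    exact hε
  obtain ⟨K, hKE, hK, hlt⟩ := hE.exists_isClosed_lt_add (μ := μ) (measure_ne_top μ E) hne
  have h1 := hcl K hK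
  have h2 : ν.real K ≤ ν.real E := measureReal_mono hKE
  have h3 : μ.real E ≤ μ.real K + ε := by
    have := ENNReal.toReal_mono (by finiteness) hlt.le
    rw [ENNReal.toReal_add (measure_ne_top μ K) ENNReal.ofReal_ne_top,
      ENNReal.toReal_ofReal hε.le] at this
    exact this
  have h4 := mul_le_mul_of_nonneg_left h2 hC
  linarith

/-- the positions modulo one -/
noncomputable def XC (P : Par) (k : ℕ) (t : ℝ) : UnitAddCircle := ((X P k t : ℝ) : UnitAddCircle)

theorem XC_cont (P : Par) (k : ℕ) : Continuous (XC P k) :=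
  (AddCircle.continuous_mk' 1).comp (X_cont P k)

theorem sharp_set {P : Par} {l b0 : ℝ} (H : Std P l b0) (m : ℕ) {E : Set UnitAddCircle}
    (hE : MeasurableSet E) :
    |volume.real (SS P l m ∩ XC P (m + 1) ⁻¹' E) -
      (volume : Measure UnitAddCircle).real E * volume.real (SS P l m)| ≤
      (864 * (2 + b0) / l + b0 * (1 / 6) ^ m) *
        ((volume : Measure UnitAddCircle).real E * volume.real (SS P l m)) := by
  set s := volume.real (SS P l m) with hs
  set ε := 864 * (2 + b0) / l + b0 * (1 / 6) ^ m with hε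
  have hl := H.ok.l_pos
  have hb := H.b
  have hε0 : 0 ≤ ε := by positivity
  have hs0 : 0 ≤ s := measureReal_nonneg
  set ν : Measure UnitAddCircle := volume with hν
  have : Fact (volume (SS P l m) < ⊤) := ⟨(SS_fin P l m).lt_top⟩
  set μ : Measure UnitAddCircle := (volume.restrict (SS P l m)).map (XC P (m + 1)) with hμ
  have : IsFiniteMeasure μ := by
    rw [hμ]
    infer_instance
  have hmeasX := (XC_cont P (m + 1)).measurable
  have hμE : μ.real E = volume.real (SS P l m ∩ XC P (m + 1) ⁻¹' E) := by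
    rw [hμ, measureReal_def, measureReal_def, Measure.map_apply hmeasX hE,
      Measure.restrict_apply (hmeasX hE), Set.inter_comm]
  have hF : ∀ F : UnitAddCircle → ℝ, Continuous F → (∀ x, 0 ≤ F x) →
      |(∫ x, F x ∂μ) - (∫ x, F x ∂ν) * s| ≤ (∫ x, F x ∂ν) * (ε * s) := by
    intro F hFc hF0
    have h1 := sharp_cont H m (f := fun x : ℝ => F (x : UnitAddCircle))
      (hFc.comp (AddCircle.continuous_mk' 1)) (fun x => by
        simp only
        rw [AddCircle.coe_add, AddCircle.coe_period, add_zero]) (fun x => hF0 _)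
    have e1 : ∫ x in (0:ℝ)..1, F (x : UnitAddCircle) = ∫ x, F x ∂ν := by
      have := UnitAddCircle.intervalIntegral_preimage 0 F
      rwa [zero_add] at this
    have e2 : ∫ x, F x ∂μ = ∫ t in SS P l m, F ((X P (m + 1) t : ℝ) : UnitAddCircle) := by
      rw [hμ, integral_map hmeasX.aemeasurable hFc.aestronglyMeasurable]
      rfl
    rw [e1, ← e2] at h1
    exact h1
  have hνE : 0 ≤ ν.real E := measureReal_nonneg
  have hup : μ.real E ≤ ((1 + ε) * s) * ν.real E := by
    apply cmp_meas (by positivity) _ hE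
    intro F hFc hF0
    have := (abs_le.1 (hF F hFc hF0)).2
    linarith
  have hlo : (1 - ε) * s * ν.real E ≤ μ.real E := by
    by_cases hpos : 0 < (1 - ε) * s
    · have h1 : ν.real E ≤ (1 / ((1 - ε) * s)) * μ.real E := by
        apply cmp_meas (by positivity) _ hE
        intro F hFc hF0
        have := (abs_le.1 (hF F hFc hF0)).1
        rw [one_div, ← div_eq_inv_mul, le_div_iff₀ hpos]
        linarith
      rw [one_div, ← div_eq_inv_mul, le_div_iff₀ hpos] at h1
      linarith
    · rw [not_lt] at hpos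
      have h1 : 0 ≤ μ.real E := measureReal_nonneg
      have h2 := mul_nonneg_of_nonpos_of_nonpos hpos (neg_nonpos.2 hνE)
      linarith
  rw [← hμE, abs_le]
  constructor <;> linarith

end Pool.Agent.H52.STD
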