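import Mathlib
import Pool.Agent.H52.STD.Esc

set_option autoImplicit false

/-!
# Second moments of Birkhoff sums along curves of orbits
-/

namespace Pool.Agent.H52.STD

open Real MeasureTheory Function Filter Topology

/-- primitives of centred functions -/
theorem prim_ctr {g : ℝ → ℝ} (hg : Continuous g) (hp : Periodic g 1)
    (h0 : ∫ x in (0:ℝ)..1, g x = 0) {M : ℝ} (hM : ∀ x, |g x| ≤ M) :
    ∃ G : ℝ → ℝ, (∀ u, HasDerivAt G (g u) u) ∧ Periodic G 1 ∧ ∀ u, |G u| ≤ M := by
  have hM0 : 0 ≤ M := (abs_nonneg _).trans (hM 0)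
  set G : ℝ → ℝ := fun u => ∫ x in (0:ℝ)..u, g x with hG
  have hGd : ∀ u, HasDerivAt G (g u) u := fun u =>
    intervalIntegral.integral_hasDerivAt_right (hg.intervalIntegrable _ _)
      (hg.stronglyMeasurableAtFilter _ _) hg.continuousAt
  have hGp : Periodic G 1 := by
    intro u
    rw [hG]
    simp only
    have h1 : ∫ x in (0:ℝ)..(u + 1), g x = (∫ x in (0:ℝ)..u, g x) + ∫ x in u..(u + 1), g x :=
      (intervalIntegral.integral_add_adjacent_intervals (hg.intervalIntegrable _ _)
        (hg.intervalIntegrable _ _)).symm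
    have h3 := hp.intervalIntegral_add_eq u 0
    rw [zero_add, h0] at h3
    rw [h1, h3, add_zero]
  refine ⟨G, hGd, hGp, ?_⟩
  intro u
  obtain ⟨y, hy, hy2⟩ := hGp.exists_mem_Ico₀ one_pos u
  rw [hy2]
  have h1 : ‖∫ x in (0:ℝ)..y, g x‖ ≤ M * |y - 0| :=
    intervalIntegral.norm_integral_le_of_norm_le_const fun x _ => by
      rw [norm_eq_abs]
      exact hM x
  rw [norm_eq_abs, sub_zero, abs_of_nonneg hy.1] at h1
  have := hy.2
  have h2 : M * y ≤ M := by nlinarith
  exact h1.trans h2

section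

variable {P : Par} {l b0 : ℝ}

theorem Std.kpos (H : Std P l b0) : 2 ≤ 2 + b0 := by
  have := H.b
  linarith

/-- ratios of derivatives -/
theorem ratio {t : ℝ} (h : OK P l) (ht : t ∈ Set.Icc (0:ℝ) 1) {m : ℕ} (hg : Good P l m t) :
    ∀ j, 1 ≤ j → j ≤ m → |D P j t| ≤ 2 / l * |D P (m + 1) t| := by
  have hl := h.l_pos
  have hl16 := h.l_ge
  have h1 := (growth h ht hg m le_rfl).1
  have h2 : |D P m t| ≤ 2 / l * |D P (m + 1) t| := by
    rw [div_mul_eq_mul_div, le_div_iff₀ hl]
    linarith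
  have hmono : ∀ i j, i ≤ j → j ≤ m → |D P i t| ≤ |D P j t| := by
    intro i j hij
    induction j, hij using Nat.le_induction with
    | base => intro _; exact le_rfl
    | succ j hij ih =>
      intro hj
      refine (ih (by omega)).trans ?_
      have h3 := (growth h ht hg j (by omega)).1
      have := abs_nonneg (D P j t)
      nlinarith
  intro j _ hj
  exact (hmono j m hj le_rfl).trans h2

theorem chi_anti {V : ℝ} {r r' : ℕ → ℝ → ℝ} (hr : Cut P l V r r') {i j : ℕ} (hij : i ≤ j) (t : ℝ) :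
    chi P r j t ≤ chi P r i t := by
  induction j, hij using Nat.le_induction with
  | base => exact le_rfl
  | succ j hij ih => exact (chi_succ_le hr j t).trans ih

/-- the boundary terms, without periodicity -/
theorem bd_gen (h : OK P l) {V : ℝ} {r r' : ℕ → ℝ → ℝ} (hr : Cut P l V r r') (m : ℕ)
    {Q G : ℝ → ℝ} {A : ℝ} (hQ : ∀ t, |Q t| ≤ 1) (hG : ∀ u, |G u| ≤ A) :
    |W P r m Q 1 * G (X P (m + 1) 1) - W P r m Q 0 * G (X P (m + 1) 0)| ≤
      A * (2 / |P.c| * (1 / 8) ^ m) := by
  have hl := h.l_pos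
  have hl16 := h.l_ge
  have hc := h.c0
  have h1 := W_abs h hr m (t := 1) (by simp) (hQ 1)
  have h0 := W_abs h hr m (t := 0) (by simp) (hQ 0)
  have hA : 0 ≤ A := (abs_nonneg _).trans (hG 0)
  have hpow : (2 / l) ^ m ≤ (1 / 8 : ℝ) ^ m := by
    apply pow_le_pow_left₀ (by positivity)
    rw [div_le_iff₀ hl]
    linarith
  have hq : 1 / |P.c| * (2 / l) ^ m ≤ 1 / |P.c| * (1 / 8) ^ m :=
    mul_le_mul_of_nonneg_left hpow (by positivity)
  refine (abs_sub _ _).trans ?_
  rw [abs_mul, abs_mul]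
  have q : 0 ≤ 1 / |P.c| * (1 / 8 : ℝ) ^ m := by positivity
  have q1 : |W P r m Q 1| * |G (X P (m + 1) 1)| ≤ (1 / |P.c| * (1 / 8) ^ m) * A :=
    mul_le_mul (h1.trans hq) (hG _) (abs_nonneg _) q
  have q0 : |W P r m Q 0| * |G (X P (m + 1) 0)| ≤ (1 / |P.c| * (1 / 8) ^ m) * A :=
    mul_le_mul (h0.trans hq) (hG _) (abs_nonneg _) q
  have e : A * (2 / |P.c| * (1 / 8) ^ m) = (1 / |P.c| * (1 / 8) ^ m) * A +
      (1 / |P.c| * (1 / 8) ^ m) * A := by ring
  rw [e]
  exact add_le_add q1 q0

/-- the weak relative bound -/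
theorem step_upper (H : Std P l b0) (m : ℕ) {f : ℝ → ℝ} (hf : Continuous f) (hp : Periodic f 1)
    (h0 : ∀ x, 0 ≤ f x) :
    ∫ t in (0:ℝ)..1, chi P (rr P l 1) m t * f (X P (m + 1) t) ≤
      (∫ x in (0:ℝ)..1, f x) * (2 + b0) := by
  obtain ⟨β, hR⟩ := H.rel (θ := 1) le_rfl
  have hl := H.ok.l_pos
  have h1 := rel_equi hR m hf hp h0
  have hc1 := cc_le_one hR.cut m
  have hc0 := cc_nonneg hR.cut m
  have hI : 0 ≤ ∫ x in (0:ℝ)..1, f x :=
    intervalIntegral.integral_nonneg zero_le_one fun x _ => h0 x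
  have h2 := (abs_le.1 h1).2
  have h3 : (8 * Cw 4 * (2 + b0) / l + b0 * (1 / 6) ^ m) ≤ 1 + b0 := by
    have q1 : 8 * Cw 4 * (2 + b0) / l ≤ 1 := by
      rw [div_le_one hl]
      have := H.big
      unfold Cw
      linarith
    have q2 : (1 / 6 : ℝ) ^ m ≤ 1 := pow_le_one₀ (by norm_num) (by norm_num)
    have q3 := mul_le_mul_of_nonneg_left q2 H.b
    linarith
  have h4 : (8 * Cw 4 * (2 + b0) / l + b0 * (1 / 6) ^ m) * cc P (rr P l 1) m ≤
      (1 + b0) * 1 := by
    apply mul_le_mul h3 hc1 hc0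
    have := H.b
    linarith
  have h5 := mul_le_mul_of_nonneg_left h4 hI
  have h6 := mul_le_mul_of_nonneg_left hc1 hI
  linarith

/-- pair correlations -/
theorem pair (H : Std P l b0) (hb0 : 2 / |P.c| ≤ b0) {g g' : ℝ → ℝ}
    (hd : ∀ x, HasDerivAt g (g' x) x) (hc' : Continuous g') (hp : Periodic g 1)
    (hp' : Periodic g' 1) (h0 : ∫ x in (0:ℝ)..1, g x = 0) {M V : ℝ} (hM0 : 0 < M)
    (hM : ∀ x, |g x| ≤ M) (hV : ∫ x in (0:ℝ)..1, |g' x| ≤ V) {j m : ℕ} (hj : 1 ≤ j)
    (hjm : j ≤ m) :
    |∫ t in (0:ℝ)..1, chi P (rr P l 1) m t * g (X P j t) * g (X P (m + 1) t)| ≤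
      M ^ 2 * (864 * (2 + b0) / l + b0 * (1 / 8) ^ m) + 2 * M * V * (2 + b0) / l := by
  obtain ⟨β, hR⟩ := H.rel (θ := 1) le_rfl
  have h := H.ok
  have hr := hR.cut
  have hl := h.l_pos
  have hgc : Continuous g := continuous_iff_continuousAt.2 fun x => (hd x).continuousAt
  obtain ⟨G, hGd, -, hG1⟩ := prim_ctr hgc hp h0 hM
  set Q : ℝ → ℝ := fun t => g (X P j t) / M with hQ
  set Q' : ℝ → ℝ := fun t => g' (X P j t) * D P j t / M with hQ'
  have hQd : ∀ t, HasDerivAt Q (Q' t) t := fun t =>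
    ((hd (X P j t)).comp t (X_hasDeriv P j t)).div_const M
  have hQ'c : Continuous Q' := by
    rw [hQ']
    exact ((hc'.comp (X_cont P j)).mul (D_cont P j)).div_const M
  have hQ1 : ∀ t, |Q t| ≤ 1 := by
    intro t
    rw [hQ]
    simp only
    rw [abs_div, abs_of_pos hM0, div_le_one hM0]
    exact hM _
  have hjj : j - 1 + 1 = j := Nat.sub_add_cancel hj
  set bd : ℝ → ℝ := fun t => 2 * VV P l (rr P l 1) (rr' P l 1) m t +
    2 / (l * M) * (chi P (rr P l 1) (j - 1) t * |g' (X P j t)|) with hbd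
  have hcj : Continuous (fun t => chi P (rr P l 1) (j - 1) t * |g' (X P j t)|) :=
    (chi_cont hr (j - 1)).mul (hc'.comp (X_cont P j)).abs
  have hbdc : Continuous bd :=
    (continuous_const.mul (VV_cont hl hr m)).add (continuous_const.mul hcj)
  have hbdle : ∀ t ∈ Set.Icc (0:ℝ) 1, |W' P (rr P l 1) (rr' P l 1) m Q Q' t| ≤ bd t := by
    intro t ht
    have hVn := VV_nonneg hl hr m t
    refine (W'_le h hr m ht).trans ?_
    have q1 : |Q t| * VV P l (rr P l 1) (rr' P l 1) m t ≤ 1 * VV P l (rr P l 1) (rr' P l 1) m t :=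
      mul_le_mul_of_nonneg_right (hQ1 t) hVn
    have q2 : chi P (rr P l 1) m t * |Q' t| / |D P (m + 1) t| ≤
        2 / (l * M) * (chi P (rr P l 1) (j - 1) t * |g' (X P j t)|) := by
      by_cases hg : Good P l m t
      · have hD := D_ne h ht hg
        have hD0 : 0 < |D P (m + 1) t| := abs_pos.2 hD
        have hrat := ratio h ht hg j hj hjm
        have hch := chi_anti hr (i := j - 1) (j := m) (by omega) t
        have hc0 := (chi_mem hr m t).1
        rw [div_le_iff₀ hD0]
        have e1 : |Q' t| = |g' (X P j t)| * |D P j t| / M := by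
          rw [hQ']
          simp only
          rw [abs_div, abs_mul, abs_of_pos hM0]
        rw [e1]
        have hg0 := abs_nonneg (g' (X P j t))
        calc chi P (rr P l 1) m t * (|g' (X P j t)| * |D P j t| / M) ≤
            chi P (rr P l 1) m t * (|g' (X P j t)| * (2 / l * |D P (m + 1) t|) / M) := by
              apply mul_le_mul_of_nonneg_left _ hc0
              apply div_le_div_of_nonneg_right _ hM0.le
              exact mul_le_mul_of_nonneg_left hrat hg0
          _ = 2 / (l * M) * (chi P (rr P l 1) m t * |g' (X P j t)|) * |D P (m + 1) t| := by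
              field_simp
          _ ≤ 2 / (l * M) * (chi P (rr P l 1) (j - 1) t * |g' (X P j t)|) * |D P (m + 1) t| := by
              apply mul_le_mul_of_nonneg_right _ hD0.le
              apply mul_le_mul_of_nonneg_left _ (by positivity)
              exact mul_le_mul_of_nonneg_right hch hg0
      · rw [(chi_bad hr hg).1, zero_mul, zero_div]
        have := (chi_mem hr (j - 1) t).1
        positivity
    rw [hbd]
    simp only
    linarith
  have key := ibp h hr m hQd hQ'c hbdc hbdle hGd hgc hG1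
  have hbnd := bd_gen h hr m hQ1 hG1
  have e1 : ∫ t in (0:ℝ)..1, chi P (rr P l 1) m t * Q t * g (X P (m + 1) t) =
      (∫ t in (0:ℝ)..1, chi P (rr P l 1) m t * g (X P j t) * g (X P (m + 1) t)) / M := by
    rw [← intervalIntegral.integral_div]
    apply intervalIntegral.integral_congr
    intro t _
    rw [hQ]
    simp only
    ring
  have e2 : ∫ t in (0:ℝ)..1, bd t = 2 * vv P l (rr P l 1) (rr' P l 1) m +
      2 / (l * M) * ∫ t in (0:ℝ)..1, chi P (rr P l 1) (j - 1) t * |g' (X P j t)| := by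
    rw [hbd, intervalIntegral.integral_add
      (f := fun t => 2 * VV P l (rr P l 1) (rr' P l 1) m t)
      (g := fun t => 2 / (l * M) * (chi P (rr P l 1) (j - 1) t * |g' (X P j t)|))
      ((continuous_const.mul (VV_cont hl hr m)).intervalIntegrable _ _)
      ((continuous_const.mul hcj).intervalIntegrable _ _), intervalIntegral.integral_const_mul,
      intervalIntegral.integral_const_mul]
    rfl
  have hu : ∫ t in (0:ℝ)..1, chi P (rr P l 1) (j - 1) t * |g' (X P j t)| ≤ V * (2 + b0) := by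
    have q := step_upper H (j - 1) (f := fun x => |g' x|) hc'.abs (fun x => by
      simp only
      rw [hp']) (fun x => abs_nonneg _)
    rw [hjj] at q
    refine q.trans ?_
    apply mul_le_mul_of_nonneg_right hV
    have := H.b
    linarith
  have hv : vv P l (rr P l 1) (rr' P l 1) m ≤ 432 * (2 + b0) / l := by
    have q := (rel_main hR m).1
    have hc1 := cc_le_one hr m
    have q0 : 0 ≤ 4 * Cw 4 * (2 + b0) / l := by
      have := H.b
      unfold Cw
      positivity
    have q1 := mul_le_mul_of_nonneg_left hc1 q0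
    have q2 : 4 * Cw 4 * (2 + b0) / l * 1 = 432 * (2 + b0) / l := by
      unfold Cw
      ring
    linarith
  rw [e1, abs_div, abs_of_pos hM0, div_le_iff₀ hM0, e2] at key
  refine key.trans ?_
  have hV0 : 0 ≤ V := le_trans (intervalIntegral.integral_nonneg zero_le_one fun x _ =>
    abs_nonneg _) hV
  have hb := H.b
  have s1 : M * (2 * vv P l (rr P l 1) (rr' P l 1) m + 2 / (l * M) *
      ∫ t in (0:ℝ)..1, chi P (rr P l 1) (j - 1) t * |g' (X P j t)|) ≤
      M * (2 * (432 * (2 + b0) / l) + 2 / (l * M) * (V * (2 + b0))) := by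
    apply mul_le_mul_of_nonneg_left _ hM0.le
    apply add_le_add
    · linarith
    · exact mul_le_mul_of_nonneg_left hu (by positivity)
  have s2 : M * (2 / |P.c| * (1 / 8) ^ m) ≤ M * (b0 * (1 / 8) ^ m) := by
    apply mul_le_mul_of_nonneg_left _ hM0.le
    exact mul_le_mul_of_nonneg_right hb0 (by positivity)
  have s3 : (M * (2 * (432 * (2 + b0) / l) + 2 / (l * M) * (V * (2 + b0))) +
      M * (b0 * (1 / 8) ^ m)) * M =
      M ^ 2 * (864 * (2 + b0) / l + b0 * (1 / 8) ^ m) + 2 * M * V * (2 + b0) / l := by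
    field_simp
    ring
  rw [← s3]
  apply mul_le_mul_of_nonneg_right _ hM0.le
  linarith

/-- the mass lost -/
theorem loss (H : Std P l b0) {Λ : ℝ} (hΛ : ∀ k, 1 ≤ k → Λ ≤ |P.a k|) (hΛ0 : 0 < Λ) (n : ℕ) :
    1 - cc P (rr P l 1) n ≤ n * ((2 + b0) * (l / Λ)) := by
  obtain ⟨β, hR⟩ := H.rel (θ := 1) le_rfl
  have hr := hR.cut
  have hl := H.ok.l_pos
  have hb := H.b
  induction n with
  | zero =>
    have e : cc P (rr P l 1) 0 = 1 := by
      unfold cc
      simp [chi]
    rw [e]
    simp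
  | succ n ih =>
    rw [cc_succ hr]
    have h1 := step_upper H n (f := fun x => 1 - rr P l 1 (n + 1) x)
      (continuous_const.sub (hr.rc (n + 1))) (fun x => by simp only; rw [hr.p]) (fun x => by
        have := hr.m1 (n + 1) x
        linarith)
    have h2 := rr_hole (P := P) (l := l) (θ := 1) H.ok.l_ge le_rfl (k := n + 1)
      (H.ok.la (n + 1) (by omega))
    have h3 : 3 / 4 * (l / |P.a (n + 1)|) ≤ l / Λ := by
      have q := hΛ (n + 1) (by omega)
      have q1 : l / |P.a (n + 1)| ≤ l / Λ := div_le_div_of_nonneg_left hl.le hΛ0 q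
      have q2 : 0 ≤ l / |P.a (n + 1)| := by positivity
      linarith
    have h4 : (∫ x in (0:ℝ)..1, (1 - rr P l 1 (n + 1) x)) * (2 + b0) ≤ l / Λ * (2 + b0) :=
      mul_le_mul_of_nonneg_right (h2.trans h3) (by linarith)
    push_cast
    linarith

/-- **second moment of the Birkhoff sums** -/
theorem second_moment (H : Std P l b0) (hb0 : 2 / |P.c| ≤ b0) {Λ : ℝ}
    (hΛ : ∀ k, 1 ≤ k → Λ ≤ |P.a k|) (hΛ0 : 0 < Λ) {g g' : ℝ → ℝ}
    (hd : ∀ x, HasDerivAt g (g' x) x) (hc' : Continuous g') (hp : Periodic g 1)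
    (hp' : Periodic g' 1) (h0 : ∫ x in (0:ℝ)..1, g x = 0) {M V : ℝ} (hM0 : 0 < M)
    (hM : ∀ x, |g x| ≤ M) (hV : ∫ x in (0:ℝ)..1, |g' x| ≤ V) (n : ℕ) :
    ∫ t in (0:ℝ)..1, (∑ k ∈ Finset.range n, g (X P (k + 1) t)) ^ 2 ≤
      n * (M ^ 2 * (1 + 2 * b0)) + n ^ 2 * (M ^ 2 * (864 * (2 + b0) / l) +
        2 * M * V * (2 + b0) / l + M ^ 2 * (n * ((2 + b0) * (l / Λ)))) := by
  obtain ⟨β, hR⟩ := H.rel (θ := 1) le_rfl
  have hr := hR.cut
  have hl := H.ok.l_pos
  have hb := H.b
  have hgc : Continuous g := continuous_iff_continuousAt.2 fun x => (hd x).continuousAt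
  have hV0 : 0 ≤ V := le_trans (intervalIntegral.integral_nonneg zero_le_one fun x _ =>
    abs_nonneg _) hV
  have hX : ∀ k, Continuous (fun t => g (X P k t)) := fun k => hgc.comp (X_cont P k)
  set a1 : ℝ := M ^ 2 * (864 * (2 + b0) / l) + 2 * M * V * (2 + b0) / l with ha1
  have ha10 : 0 ≤ a1 := by positivity
  -- pairs
  have hpair : ∀ j m : ℕ, j < m → m < n →
      ∫ t in (0:ℝ)..1, g (X P (j + 1) t) * g (X P (m + 1) t) ≤
        a1 + M ^ 2 * b0 * (1 / 8) ^ m + M ^ 2 * (1 - cc P (rr P l 1) m) := by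
    intro j m hjm _
    have h1 := pair H hb0 hd hc' hp hp' h0 hM0 hM hV (j := j + 1) (m := m) (by omega) (by omega)
    have e : ∫ t in (0:ℝ)..1, g (X P (j + 1) t) * g (X P (m + 1) t) =
        (∫ t in (0:ℝ)..1, chi P (rr P l 1) m t * g (X P (j + 1) t) * g (X P (m + 1) t)) +
        ∫ t in (0:ℝ)..1, (1 - chi P (rr P l 1) m t) * (g (X P (j + 1) t) * g (X P (m + 1) t)) := by
      rw [← intervalIntegral.integral_add]
      · apply intervalIntegral.integral_congr
        intro t _
        simp only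
        ring
      · exact (((chi_cont hr m).mul (hX _)).mul (hX _)).intervalIntegrable _ _
      · exact ((continuous_const.sub (chi_cont hr m)).mul
          ((hX _).mul (hX _))).intervalIntegrable _ _
    have h2 : ∫ t in (0:ℝ)..1, (1 - chi P (rr P l 1) m t) *
        (g (X P (j + 1) t) * g (X P (m + 1) t)) ≤
        ∫ t in (0:ℝ)..1, M ^ 2 * (1 - chi P (rr P l 1) m t) := by
      apply intervalIntegral.integral_mono_on zero_le_one
        (((continuous_const.sub (chi_cont hr m)).mul ((hX _).mul (hX _))).intervalIntegrable _ _)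
        ((continuous_const.mul (continuous_const.sub (chi_cont hr m))).intervalIntegrable _ _)
      intro t _
      have q1 := (chi_mem hr m t).2
      have q2 : g (X P (j + 1) t) * g (X P (m + 1) t) ≤ M ^ 2 := by
        refine (le_abs_self _).trans ?_
        rw [abs_mul, sq]
        exact mul_le_mul (hM _) (hM _) (abs_nonneg _) hM0.le
      have q3 : 0 ≤ 1 - chi P (rr P l 1) m t := by linarith
      calc _ ≤ (1 - chi P (rr P l 1) m t) * M ^ 2 := mul_le_mul_of_nonneg_left q2 q3
        _ = _ := mul_comm _ _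
    have h3 : ∫ t in (0:ℝ)..1, M ^ 2 * (1 - chi P (rr P l 1) m t) =
        M ^ 2 * (1 - cc P (rr P l 1) m) := by
      rw [intervalIntegral.integral_const_mul, intervalIntegral.integral_sub
        intervalIntegrable_const ((chi_cont hr m).intervalIntegrable _ _)]
      unfold cc
      simp
    have h4 := (abs_le.1 h1).2
    have e2 : M ^ 2 * (864 * (2 + b0) / l + b0 * (1 / 8) ^ m) + 2 * M * V * (2 + b0) / l =
        a1 + M ^ 2 * b0 * (1 / 8) ^ m := by
      rw [ha1]
      ring
    rw [e2] at h4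
    rw [e]
    linarith
  have hcc : ∀ m, m ≤ n → 1 - cc P (rr P l 1) m ≤ n * ((2 + b0) * (l / Λ)) := by
    intro m hm
    refine (loss H hΛ hΛ0 m).trans ?_
    apply mul_le_mul_of_nonneg_right _ (by positivity)
    exact_mod_cast hm
  set a2 : ℝ := M ^ 2 * (n * ((2 + b0) * (l / Λ))) with ha2
  have ha20 : 0 ≤ a2 := by positivity
  -- induction on the number of terms
  have main : ∀ m, m ≤ n → ∫ t in (0:ℝ)..1, (∑ k ∈ Finset.range m, g (X P (k + 1) t)) ^ 2 ≤
      m * (M ^ 2 * (1 + 2 * b0)) + 2 * (m * (m - 1) / 2) * (a1 + a2) := by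
    intro m
    induction m with
    | zero =>
      intro _
      simp
    | succ m ih =>
      intro hm
      have h1 := ih (by omega)
      have hS : Continuous (fun t => ∑ k ∈ Finset.range m, g (X P (k + 1) t)) :=
        continuous_finsetSum _ fun k _ => hX (k + 1)
      have e : ∫ t in (0:ℝ)..1, (∑ k ∈ Finset.range (m + 1), g (X P (k + 1) t)) ^ 2 =
          (∫ t in (0:ℝ)..1, (∑ k ∈ Finset.range m, g (X P (k + 1) t)) ^ 2) +
          2 * (∑ j ∈ Finset.range m, ∫ t in (0:ℝ)..1, g (X P (j + 1) t) * g (X P (m + 1) t)) +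
          ∫ t in (0:ℝ)..1, g (X P (m + 1) t) ^ 2 := by
        rw [← intervalIntegral.integral_finsetSum, ← intervalIntegral.integral_const_mul,
          ← intervalIntegral.integral_add, ← intervalIntegral.integral_add]
        · apply intervalIntegral.integral_congr
          intro t _
          simp only
          rw [Finset.sum_range_succ, ← Finset.sum_mul]
          ring
        · refine Continuous.intervalIntegrable ?_ _ _
          exact (hS.pow 2).add (continuous_const.mul
            (continuous_finsetSum _ fun k _ => (hX (k + 1)).mul (hX (m + 1))))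
        · exact ((hX (m + 1)).pow 2).intervalIntegrable _ _
        · exact (hS.pow 2).intervalIntegrable _ _
        · exact (continuous_const.mul
            (continuous_finsetSum _ fun k _ => (hX (k + 1)).mul (hX (m + 1)))).intervalIntegrable _ _
        · intro k _
          exact ((hX (k + 1)).mul (hX (m + 1))).intervalIntegrable _ _
      have h2 : ∑ j ∈ Finset.range m, ∫ t in (0:ℝ)..1, g (X P (j + 1) t) * g (X P (m + 1) t) ≤
          ∑ j ∈ Finset.range m, (a1 + M ^ 2 * b0 * (1 / 8) ^ m + a2) := by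
        apply Finset.sum_le_sum
        intro j hj
        have q1 := hpair j m (Finset.mem_range.1 hj) (by omega)
        have q2 := mul_le_mul_of_nonneg_left (hcc m (by omega)) (sq_nonneg M)
        linarith
      rw [Finset.sum_const, Finset.card_range, nsmul_eq_mul] at h2
      have h3 : ∫ t in (0:ℝ)..1, g (X P (m + 1) t) ^ 2 ≤ M ^ 2 := by
        have q : ∫ t in (0:ℝ)..1, g (X P (m + 1) t) ^ 2 ≤ ∫ t in (0:ℝ)..1, M ^ 2 := by
          apply intervalIntegral.integral_mono_on zero_le_one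
            (((hX (m + 1)).pow 2).intervalIntegrable _ _) intervalIntegrable_const
          intro t _
          show g (X P (m + 1) t) ^ 2 ≤ M ^ 2
          rw [← sq_abs]
          exact pow_le_pow_left₀ (abs_nonneg _) (hM _) 2
        simpa using q
      have h4 : (m : ℝ) * (1 / 8) ^ m ≤ 1 := by
        have q1 : ∀ i : ℕ, (i : ℝ) ≤ 8 ^ i := by
          intro i
          induction i with
          | zero => simp
          | succ i ih =>
            rw [pow_succ]
            have : (1:ℝ) ≤ 8 ^ i := one_le_pow₀ (by norm_num)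
            push_cast
            linarith
        rw [one_div, inv_pow, ← div_eq_mul_inv, div_le_one (by positivity)]
        exact q1 m
      have h5 : (m : ℝ) * (M ^ 2 * b0 * (1 / 8) ^ m) ≤ M ^ 2 * b0 := by
        have q := mul_le_mul_of_nonneg_left h4 (by positivity : 0 ≤ M ^ 2 * b0)
        linarith
      rw [e]
      push_cast
      have e3 : (m : ℝ) * (a1 + M ^ 2 * b0 * (1 / 8) ^ m + a2) = m * (a1 + a2) +
          m * (M ^ 2 * b0 * (1 / 8) ^ m) := by ring
      rw [e3] at h2
      nlinarith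
  have hfin := main n le_rfl
  refine hfin.trans ?_
  have hn : (0:ℝ) ≤ n := Nat.cast_nonneg n
  have e4 : 2 * ((n:ℝ) * (n - 1) / 2) * (a1 + a2) ≤ n ^ 2 * (a1 + a2) := by
    apply mul_le_mul_of_nonneg_right _ (by positivity)
    nlinarith
  rw [ha1, ha2] at *
  linarith

end

end Pool.Agent.H52.STD
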