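import Mathlib
import Pool.Graph.R_seed8.TH705.SM.CltQ
import Pool.Agent.H52.STD.Mom

set_option autoImplicit false

/-!
# The derivative cocycle of the standard map along an orbit
-/

namespace Pool.Agent.H52.STD

open Real MeasureTheory Function Filter Topology

/-- the lift of the standard map -/
noncomputable def pm (a : ℝ) (p : ℝ × ℝ) : ℝ × ℝ := (2 * p.1 - p.2 + a * sin (2 * π * p.1), p.1)

/-- its derivative -/
noncomputable def pmD (a : ℝ) (p : ℝ × ℝ) : ℝ × ℝ →L[ℝ] ℝ × ℝ :=
  (L a p.1 • ContinuousLinearMap.fst ℝ ℝ ℝ - ContinuousLinearMap.snd ℝ ℝ ℝ).prod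
    (ContinuousLinearMap.fst ℝ ℝ ℝ)

theorem pmD_apply (a : ℝ) (p v : ℝ × ℝ) : pmD a p v = (L a p.1 * v.1 - v.2, v.1) := by
  simp [pmD]

theorem pm_hasF (a : ℝ) (p : ℝ × ℝ) : HasFDerivAt (pm a) (pmD a p) p := by
  have h1 : HasFDerivAt (fun p : ℝ × ℝ => p.1) (ContinuousLinearMap.fst ℝ ℝ ℝ) p :=
    hasFDerivAt_fst
  have h2 : HasFDerivAt (fun p : ℝ × ℝ => p.2) (ContinuousLinearMap.snd ℝ ℝ ℝ) p :=
    hasFDerivAt_snd
  have h3 : HasDerivAt (fun x : ℝ => 2 * x + a * sin (2 * π * x)) (L a p.1) p.1 := by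
    have h4 : HasDerivAt (fun x : ℝ => 2 * π * x) (2 * π) p.1 := by
      simpa using (hasDerivAt_id p.1).const_mul (2 * π)
    have h5 := ((hasDerivAt_id p.1).const_mul 2).add (h4.sin.const_mul a)
    refine HasDerivAt.congr_deriv (f := fun x : ℝ => 2 * x + a * sin (2 * π * x)) h5 ?_
    unfold L
    ring
  have h6 : HasFDerivAt (fun p : ℝ × ℝ => 2 * p.1 + a * sin (2 * π * p.1))
      (L a p.1 • ContinuousLinearMap.fst ℝ ℝ ℝ) p := h3.comp_hasFDerivAt p h1
  have h7 := (h6.sub h2).prodMk h1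
  refine h7.congr_of_eventuallyEq (Eventually.of_forall fun q => ?_)
  show pm a q = (2 * q.1 + a * sin (2 * π * q.1) - q.2, q.1)
  unfold pm
  congr 1
  ring

theorem pm_iter (a : ℝ) (z : ℝ × ℝ) (k : ℕ) :
    HasFDerivAt (pm a)^[k] (fderiv ℝ (pm a)^[k] z) z ∧
    fderiv ℝ (pm a)^[k + 1] z = (pmD a ((pm a)^[k] z)).comp (fderiv ℝ (pm a)^[k] z) := by
  have hd : Differentiable ℝ (pm a) := fun p => (pm_hasF a p).differentiableAt
  have h1 : HasFDerivAt (pm a)^[k] (fderiv ℝ (pm a)^[k] z) z := (hd.iterate k z).hasFDerivAt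
  refine ⟨h1, ?_⟩
  rw [iterate_succ']
  exact ((pm_hasF a ((pm a)^[k] z)).comp z h1).fderiv

theorem pmD_norm (a : ℝ) (p : ℝ × ℝ) : ‖pmD a p‖ ≤ |L a p.1| + 1 := by
  apply ContinuousLinearMap.opNorm_le_bound _ (by positivity)
  intro v
  rw [pmD_apply, Prod.norm_def]
  have h1 : |v.1| ≤ ‖v‖ := norm_fst_le v
  have h2 : |v.2| ≤ ‖v‖ := norm_snd_le v
  have h0 := norm_nonneg v
  apply max_le
  · show |L a p.1 * v.1 - v.2| ≤ _
    refine (abs_sub _ _).trans ?_
    rw [abs_mul, add_mul, one_mul]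
    exact add_le_add (mul_le_mul_of_nonneg_left h1 (abs_nonneg _)) h2
  · show |v.1| ≤ _
    have := abs_nonneg (L a p.1)
    nlinarith

/-- the trace along the orbit -/
noncomputable def tr (a : ℝ) (z : ℝ × ℝ) (k : ℕ) : ℝ := L a ((pm a)^[k] z).1

/-- upper bound of the norm -/
theorem norm_upper (a : ℝ) (z : ℝ × ℝ) (n : ℕ) :
    ‖fderiv ℝ (pm a)^[n] z‖ ≤ ∏ k ∈ Finset.range n, (|tr a z k| + 1) := by
  induction n with
  | zero =>
    have : fderiv ℝ (pm a)^[0] z = ContinuousLinearMap.id ℝ (ℝ × ℝ) := fderiv_id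
    rw [this]
    simpa using ContinuousLinearMap.norm_id_le
  | succ n ih =>
    rw [(pm_iter a z n).2, Finset.prod_range_succ, mul_comm]
    refine (ContinuousLinearMap.opNorm_comp_le _ _).trans ?_
    exact mul_le_mul (pmD_norm a _) ih (norm_nonneg _) (by positivity)

/-- lower bound of the norm -/
theorem norm_lower (a : ℝ) (z : ℝ × ℝ) (n : ℕ) (hg : ∀ k, 1 ≤ k → k ≤ n → 2 ≤ |tr a z k|) :
    ∏ k ∈ Finset.range n, (|tr a z (k + 1)| - 1) ≤ |(fderiv ℝ (pm a)^[n + 1] z (0, 1)).1| ∧
      |(fderiv ℝ (pm a)^[n + 1] z (0, 1)).2| ≤ |(fderiv ℝ (pm a)^[n + 1] z (0, 1)).1| := by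
  induction n with
  | zero =>
    have e : fderiv ℝ (pm a)^[0 + 1] z (0, 1) = (-1, 0) := by
      rw [(pm_iter a z 0).2, ContinuousLinearMap.comp_apply]
      have : fderiv ℝ (pm a)^[0] z = ContinuousLinearMap.id ℝ (ℝ × ℝ) := fderiv_id
      rw [this]
      simp [pmD_apply]
    rw [e]
    simp
  | succ n ih =>
    obtain ⟨h1, h2⟩ := ih fun k hk1 hk2 => hg k hk1 (by omega)
    have hk := hg (n + 1) (by omega) le_rfl
    have e : fderiv ℝ (pm a)^[n + 1 + 1] z (0, 1) =
        (tr a z (n + 1) * (fderiv ℝ (pm a)^[n + 1] z (0, 1)).1 -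
          (fderiv ℝ (pm a)^[n + 1] z (0, 1)).2, (fderiv ℝ (pm a)^[n + 1] z (0, 1)).1) := by
      rw [(pm_iter a z (n + 1)).2, ContinuousLinearMap.comp_apply, pmD_apply]
      rfl
    rw [e]
    set v := fderiv ℝ (pm a)^[n + 1] z (0, 1) with hv
    set s := tr a z (n + 1) with hs
    have h3 : |s| * |v.1| - |v.2| ≤ |s * v.1 - v.2| := by
      rw [← abs_mul]
      exact abs_sub_abs_le_abs_sub _ _
    have h0 := abs_nonneg v.1
    have h4 : (|s| - 1) * |v.1| ≤ |s * v.1 - v.2| := by linarith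
    constructor
    · rw [Finset.prod_range_succ, mul_comm]
      show (|s| - 1) * _ ≤ |s * v.1 - v.2|
      refine le_trans ?_ h4
      exact mul_le_mul_of_nonneg_left h1 (by linarith)
    · show |v.1| ≤ |s * v.1 - v.2|
      nlinarith

theorem log_upper {u e : ℝ} (hu : 0 < u) (he : 0 ≤ e) : log (u + e) ≤ log u + e / u := by
  have h1 : u + e = u * (1 + e / u) := by field_simp
  have h2 : 0 < 1 + e / u := by positivity
  rw [h1, Real.log_mul hu.ne' h2.ne']
  have := Real.log_le_sub_one_of_pos h2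
  linarith

theorem log_lower {u e : ℝ} (hu : 0 < u) (he : 0 ≤ e) (heu : 2 * e ≤ u) :
    log u - 2 * e / u ≤ log (u - e) := by
  have h1 : u - e = u * (1 - e / u) := by field_simp
  have h3 : e / u ≤ 1 / 2 := by
    rw [div_le_iff₀ hu]
    linarith
  have h4 : 0 ≤ e / u := by positivity
  have h2 : 0 < 1 - e / u := by linarith
  rw [h1, Real.log_mul hu.ne' h2.ne']
  have h5 := Real.one_sub_inv_le_log_of_pos h2
  have h6 : (1 - e / u)⁻¹ ≤ 1 + 2 * (e / u) := by
    rw [inv_le_iff_one_le_mul₀ h2]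
    nlinarith
  have e3 : 2 * e / u = 2 * (e / u) := by ring
  rw [e3]
  linarith

/-- the library function `log (1 + L²) / 2` -/
noncomputable def hh (a x : ℝ) : ℝ := Pool.Agent.TH705.SM.hh a x

theorem hh_def (a x : ℝ) : hh a x = log (1 + L a x ^ 2) / 2 := rfl

/-- comparison with `log |L|` -/
theorem hh_log {A x l : ℝ} (hl : 1 ≤ l) (hL : l ≤ |L A x|) :
    log |L A x| ≤ hh A x ∧ hh A x ≤ log |L A x| + 1 / l := by
  have h0 : 0 < |L A x| := by linarith
  rw [hh_def]
  have e1 : log |L A x| = log (L A x ^ 2) / 2 := by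
    rw [← sq_abs, Real.log_pow]
    push_cast
    ring
  have hp : 0 < L A x ^ 2 := by
    rw [← sq_abs]
    positivity
  constructor
  · rw [e1]
    have := Real.log_le_log hp (by linarith : L A x ^ 2 ≤ 1 + L A x ^ 2)
    linarith
  · rw [e1]
    have h1 := log_upper hp (zero_le_one)
    rw [add_comm (L A x ^ 2) 1] at h1
    have h2 : 1 / L A x ^ 2 ≤ 1 / l := by
      apply one_div_le_one_div_of_le (by linarith)
      rw [← sq_abs]
      nlinarith
    have h3 : 0 < 1 / l := by positivity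
    linarith

/-- **the norm of the derivative and the Birkhoff sums of `hh`** -/
theorem norm_birkhoff {A a : ℝ} {z : ℝ × ℝ} {l : ℝ} (hl : 1728 ≤ l) (hlA : l ≤ |A|)
    (haA : ∀ x, |L a x - L A x| ≤ 7) (n : ℕ)
    (hg : ∀ k, 1 ≤ k → k ≤ n → l ≤ |L A ((pm a)^[k] z).1|) :
    |log ‖fderiv ℝ (pm a)^[n + 1] z‖ - ∑ k ∈ Finset.range n, hh A ((pm a)^[k + 1] z).1| ≤
      n * (17 / l) + (3 * (1 + log |A|)) := by
  have hl0 : 0 < l := by linarith
  have hA0 : 0 < |A| := by linarith
  have hlogA : 0 ≤ log |A| := Real.log_nonneg (by linarith)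
  -- the traces
  have htr : ∀ k, 1 ≤ k → k ≤ n → |L A ((pm a)^[k] z).1| - 7 ≤ |tr a z k| ∧
      |tr a z k| ≤ |L A ((pm a)^[k] z).1| + 7 := by
    intro k _ _
    have h1 := haA ((pm a)^[k] z).1
    have h2 := abs_sub_abs_le_abs_sub (tr a z k) (L A ((pm a)^[k] z).1)
    have h3 := abs_sub_abs_le_abs_sub (L A ((pm a)^[k] z).1) (tr a z k)
    rw [abs_sub_comm] at h3
    unfold tr at h2 h3 ⊢
    constructor <;> linarith
  have hup := norm_upper a z (n + 1)
  have hlo := (norm_lower a z n fun k h1 h2 => by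
    have := (htr k h1 h2).1
    have := hg k h1 h2
    linarith).1
  have hpos : ∀ k ∈ Finset.range n, 0 < |tr a z (k + 1)| - 1 := by
    intro k hk
    have hk' := Finset.mem_range.1 hk
    have h1 := (htr (k + 1) (by omega) (by omega)).1
    have h2 := hg (k + 1) (by omega) (by omega)
    linarith
  have hprod : 0 < ∏ k ∈ Finset.range n, (|tr a z (k + 1)| - 1) := Finset.prod_pos hpos
  have hnorm : ∏ k ∈ Finset.range n, (|tr a z (k + 1)| - 1) ≤ ‖fderiv ℝ (pm a)^[n + 1] z‖ := by
    refine hlo.trans ?_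
    have h1 := (fderiv ℝ (pm a)^[n + 1] z).le_opNorm (0, 1)
    have h2 : ‖((0, 1) : ℝ × ℝ)‖ = 1 := by simp [Prod.norm_def]
    rw [h2, mul_one] at h1
    exact (norm_fst_le _).trans h1
  have hn0 : 0 < ‖fderiv ℝ (pm a)^[n + 1] z‖ := hprod.trans_le hnorm
  have hL1 : log (∏ k ∈ Finset.range n, (|tr a z (k + 1)| - 1)) ≤
      log ‖fderiv ℝ (pm a)^[n + 1] z‖ := Real.log_le_log hprod hnorm
  have hL2 : log ‖fderiv ℝ (pm a)^[n + 1] z‖ ≤
      log (∏ k ∈ Finset.range (n + 1), (|tr a z k| + 1)) := Real.log_le_log hn0 hup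
  rw [Real.log_prod (fun k hk => (hpos k hk).ne')] at hL1
  rw [Real.log_prod (fun k _ => by positivity), Finset.sum_range_succ'] at hL2
  -- termwise
  have hterm : ∀ k ∈ Finset.range n, hh A ((pm a)^[k + 1] z).1 - 17 / l ≤
      log (|tr a z (k + 1)| - 1) ∧ log (|tr a z (k + 1)| + 1) ≤
      hh A ((pm a)^[k + 1] z).1 + 17 / l := by
    intro k hk
    have hk' := Finset.mem_range.1 hk
    obtain ⟨h1, h2⟩ := htr (k + 1) (by omega) (by omega)
    have h3 := hg (k + 1) (by omega) (by omega)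
    set u := |L A ((pm a)^[k + 1] z).1| with hu
    have hu0 : 0 < u := by linarith
    obtain ⟨h4, h5⟩ := hh_log (A := A) (x := ((pm a)^[k + 1] z).1) (l := l) (by linarith) h3
    rw [← hu] at h4 h5
    have h6 : 1 / u ≤ 1 / l := one_div_le_one_div_of_le hl0 h3
    constructor
    · have h7 := log_lower (u := u) (e := 8) hu0 (by norm_num) (by linarith)
      have h8 : log (u - 8) ≤ log (|tr a z (k + 1)| - 1) :=
        Real.log_le_log (by linarith) (by linarith)
      have h9 : 2 * 8 / u = 16 * (1 / u) := by ring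
      have h10 : 17 / l = 16 * (1 / l) + 1 / l := by ring
      rw [h9] at h7
      linarith
    · have h7 := log_upper (u := u) (e := 8) hu0 (by norm_num)
      have h8 : log (|tr a z (k + 1)| + 1) ≤ log (u + 8) :=
        Real.log_le_log (by positivity) (by linarith)
      have h9 : 8 / u = 8 * (1 / u) := by ring
      have h10 : 17 / l = 17 * (1 / l) := by ring
      have h11 : 0 < 1 / l := by positivity
      rw [h9] at h7
      linarith
  have hs1 := Finset.sum_le_sum fun k hk => (hterm k hk).1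
  have hs2 := Finset.sum_le_sum fun k hk => (hterm k hk).2
  rw [Finset.sum_sub_distrib, Finset.sum_const, Finset.card_range, nsmul_eq_mul] at hs1
  rw [Finset.sum_add_distrib, Finset.sum_const, Finset.card_range, nsmul_eq_mul] at hs2
  -- the first factor
  have hfirst : log (|tr a z 0| + 1) ≤ 3 * (1 + log |A|) := by
    have h1 : |tr a z 0| ≤ 9 * |A| := by
      have h2 := haA ((pm a)^[0] z).1
      have h3 : |L A ((pm a)^[0] z).1| ≤ 2 + 2 * π * |A| := by
        unfold L
        have h4 := abs_cos_le_one (2 * π * ((pm a)^[0] z).1)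
        have hpi := pi_pos
        calc _ ≤ |(2:ℝ)| + |2 * π * A * cos (2 * π * ((pm a)^[0] z).1)| := abs_add_le _ _
          _ = 2 + 2 * π * |A| * |cos (2 * π * ((pm a)^[0] z).1)| := by
              rw [abs_mul, abs_mul, abs_mul, abs_of_pos hpi, abs_of_pos (by norm_num : (0:ℝ) < 2)]
          _ ≤ 2 + 2 * π * |A| * 1 := by gcongr
          _ = _ := by ring
      have h5 := abs_sub_abs_le_abs_sub (tr a z 0) (L A ((pm a)^[0] z).1)
      unfold tr at h5 ⊢
      have h6 := pi_lt_d2
      nlinarith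
    have h2 : log (|tr a z 0| + 1) ≤ log (10 * |A|) :=
      Real.log_le_log (by positivity) (by linarith)
    rw [Real.log_mul (by norm_num) hA0.ne'] at h2
    have h4 : log 10 ≤ 3 := by
      rw [Real.log_le_iff_le_exp (by norm_num)]
      have h5 : exp 3 = exp 1 ^ 3 := by rw [← Real.exp_nat_mul]; norm_num
      have h6 := Real.exp_one_gt_d9
      rw [h5]
      calc (10:ℝ) ≤ 2.7 ^ 3 := by norm_num
        _ ≤ exp 1 ^ 3 := by gcongr; linarith
    linarith
  rw [abs_le]
  constructor
  · linarith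
  · linarith

/-- the variation of `hh` -/
theorem hh_var {A : ℝ} (hA : 1 ≤ |A|) :
    ∫ x in (0:ℝ)..1, |Pool.Agent.TH705.SM.hh' A x| ≤ 12 * (1 + log |A|) := by
  obtain ⟨s, hs, hs1⟩ : ∃ s : ℝ, |A| = -(s * A) ∧ |s| = 1 := by
    rcases le_total 0 A with h | h
    · exact ⟨-1, by rw [abs_of_nonneg h]; ring, by simp⟩
    · exact ⟨1, by rw [abs_of_nonpos h]; ring, by simp⟩
  set U : ℝ → ℝ := fun z => ∫ u in (0:ℝ)..z, |u| / (1 + u ^ 2) with hU
  have huc : Continuous (fun u : ℝ => |u| / (1 + u ^ 2)) := by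
    apply Continuous.div (by fun_prop) (by fun_prop)
    intro u
    positivity
  have hUd : ∀ z, HasDerivAt U (|z| / (1 + z ^ 2)) z := fun z =>
    intervalIntegral.integral_hasDerivAt_right (huc.intervalIntegrable _ _)
      (huc.stronglyMeasurableAtFilter _ _) huc.continuousAt
  have hprim : ∀ z : ℝ, HasDerivAt (fun z : ℝ => log (1 + z ^ 2) / 2) (z / (1 + z ^ 2)) z := by
    intro z
    have h0 : (1 + z ^ 2) ≠ 0 := by positivity
    have h1 := (((hasDerivAt_pow 2 z).const_add 1).log h0).div_const 2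
    refine HasDerivAt.congr_deriv h1 ?_
    field_simp
    push_cast
    ring
  have hzc : Continuous (fun z : ℝ => z / (1 + z ^ 2)) := by
    apply Continuous.div (by fun_prop) (by fun_prop)
    intro u
    positivity
  have hUabs : ∀ z, |U z| = log (1 + z ^ 2) / 2 := by
    intro z
    have hF : ∫ u in (0:ℝ)..z, u / (1 + u ^ 2) = log (1 + z ^ 2) / 2 := by
      rw [intervalIntegral.integral_eq_sub_of_hasDerivAt (fun x _ => hprim x)
        (hzc.intervalIntegrable _ _)]
      simp
    have hlog : 0 ≤ log (1 + z ^ 2) / 2 := by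
      have : 0 ≤ log (1 + z ^ 2) := Real.log_nonneg (by nlinarith [sq_nonneg z])
      linarith
    rcases le_total 0 z with h | h
    · have e : U z = ∫ u in (0:ℝ)..z, u / (1 + u ^ 2) := by
        rw [hU]
        apply intervalIntegral.integral_congr
        intro u hu
        rw [Set.uIcc_of_le h] at hu
        simp only
        rw [abs_of_nonneg hu.1]
      rw [e, hF, abs_of_nonneg hlog]
    · have e : U z = ∫ u in (0:ℝ)..z, -(u / (1 + u ^ 2)) := by
        rw [hU]
        apply intervalIntegral.integral_congr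
        intro u hu
        rw [Set.uIcc_of_ge h] at hu
        simp only
        rw [abs_of_nonpos hu.2]
        ring
      rw [e, intervalIntegral.integral_neg, hF, abs_neg, abs_of_nonneg hlog]
  set g : ℝ → ℝ := fun x => U (L A x) with hg
  set g' : ℝ → ℝ := fun x => |L A x| / (1 + L A x ^ 2) * (-(4 * π ^ 2 * A * sin (2 * π * x)))
    with hg'
  have hgd : ∀ x, HasDerivAt g (g' x) x := by
    intro x
    have h1 : HasDerivAt (L A) (-(4 * π ^ 2 * A * sin (2 * π * x))) x := by
      have h := (((hasDerivAt_id x).const_mul (2 * π)).cos.const_mul (2 * π * A)).const_add 2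
      refine HasDerivAt.congr_deriv (f := L A) h ?_
      simp only [id]
      ring
    exact (hUd (L A x)).comp x h1
  have hLc := L_cont A
  have hgc : Continuous g' := by
    rw [hg']
    have : Continuous (fun x => |L A x| / (1 + L A x ^ 2)) := huc.comp hLc
    fun_prop
  have hgb : ∀ x, |g x| ≤ 3 * (1 + log |A|) := by
    intro x
    rw [hg]
    simp only
    rw [hUabs]
    exact (Pool.Agent.TH705.SM.hh_bound hA x).2
  have hgb2 : ∀ u v, |g u - g v| ≤ 6 * (1 + log |A|) := by
    intro u v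
    have h1 := hgb u
    have h2 := hgb v
    have h3 := abs_sub (g u) (g v)
    linarith
  set F : ℝ → ℝ := fun x => |Pool.Agent.TH705.SM.hh' A x| with hF
  have hFc : Continuous F := (Pool.Agent.TH705.SM.hh'_cont A).abs
  have hFe : ∀ x, F x = |L A x| / (1 + L A x ^ 2) * (4 * π ^ 2 * |A| * |sin (2 * π * x)|) := by
    intro x
    rw [hF]
    show |L A x * (-(4 * π ^ 2 * A * sin (2 * π * x))) / (1 + L A x ^ 2)| = _
    rw [abs_div, abs_mul, abs_neg, abs_mul, abs_mul, abs_of_pos (by positivity : 0 < 4 * π ^ 2),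
      abs_of_pos (by positivity : 0 < 1 + L A x ^ 2)]
    ring
  have hpi := pi_pos
  have half1 : ∫ x in (0:ℝ)..(1 / 2), F x ≤ 6 * (1 + log |A|) := by
    have e : ∫ x in (0:ℝ)..(1 / 2), F x = ∫ x in (0:ℝ)..(1 / 2), s * g' x := by
      apply intervalIntegral.integral_congr
      intro x hx
      rw [Set.uIcc_of_le (by norm_num)] at hx
      have h1 : 0 ≤ sin (2 * π * x) := by
        apply sin_nonneg_of_nonneg_of_le_pi
        · have := hx.1
          positivity
        · have := hx.2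
          nlinarith
      simp only
      rw [hFe, abs_of_nonneg h1, hs, hg']
      ring
    rw [e, intervalIntegral.integral_const_mul,
      intervalIntegral.integral_eq_sub_of_hasDerivAt (fun x _ => hgd x)
        (hgc.intervalIntegrable _ _)]
    refine (le_abs_self _).trans ?_
    rw [abs_mul, hs1, one_mul]
    exact hgb2 _ _
  have half2 : ∫ x in (1 / 2 : ℝ)..1, F x ≤ 6 * (1 + log |A|) := by
    have e : ∫ x in (1 / 2 : ℝ)..1, F x = ∫ x in (1 / 2 : ℝ)..1, (-s) * g' x := by
      apply intervalIntegral.integral_congr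
      intro x hx
      rw [Set.uIcc_of_le (by norm_num)] at hx
      have h1 : sin (2 * π * x) ≤ 0 := by
        have e2 : sin (2 * π * x) = -sin (2 * π * x - π) := by
          rw [sin_sub_pi]
          ring
        have : 0 ≤ sin (2 * π * x - π) := by
          apply sin_nonneg_of_nonneg_of_le_pi
          · have := hx.1
            nlinarith
          · have := hx.2
            nlinarith
        rw [e2]
        linarith
      simp only
      rw [hFe, abs_of_nonpos h1, hs, hg']
      ring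
    rw [e, intervalIntegral.integral_const_mul,
      intervalIntegral.integral_eq_sub_of_hasDerivAt (fun x _ => hgd x)
        (hgc.intervalIntegrable _ _)]
    refine (le_abs_self _).trans ?_
    rw [abs_mul, abs_neg, hs1, one_mul]
    exact hgb2 _ _
  have hsplit := intervalIntegral.integral_add_adjacent_intervals
    (hFc.intervalIntegrable (μ := volume) 0 (1 / 2)) (hFc.intervalIntegrable (1 / 2) 1)
  rw [← hsplit]
  linarith

end Pool.Agent.H52.STD
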