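import Mathlib
import Pool.Graph.R_seed8.TH705.SM.Torus
import Pool.Agent.H52.STD.Esc

set_option autoImplicit false

/-!
# The standard map: survivors outside the critical strip
-/

namespace Pool.Agent.H52.STD

open Real MeasureTheory Function Filter Topology

/-- the data for the standard map on a horizontal line -/
noncomputable def PS (a y : ℝ) : Par := ⟨fun _ => a, 0, y, 0, 1⟩

theorem PS_std {a K : ℝ} (y : ℝ) (hK : 1728 ≤ K) (ha : 6 * K ≤ |a|) : Std (PS a y) K 0 where
  ok :=
    { c0 := by simp [PS]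
      c1 := by simp [PS]
      b1 := by simp [PS]
      l16 := by simp [PS]; linarith
      la := by
        intro k _
        show K ≤ |a|
        linarith }
  b := le_rfl
  bd := fun θ hθ => ⟨fun _ => 0, bdry_per rfl rfl (rr_cut (PS a y) (by linarith : (0:ℝ) < K)
    (by linarith : (0:ℝ) < θ)).p⟩
  big := by linarith
  hole := by
    intro k _
    show 3 * (2 + 0) * K ≤ |a|
    linarith

theorem orbit_plane (a x y : ℝ) (k : ℕ) :
    (fun p : ℝ × ℝ => (2 * p.1 - p.2 + a * sin (2 * π * p.1), p.1))^[k] (x, y) =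
      (X (PS a y) (k + 1) x, X (PS a y) k x) := by
  induction k with
  | zero => simp [X, PS]
  | succ k ih =>
    rw [iterate_succ_apply', ih]
    show (2 * X (PS a y) (k + 1) x - X (PS a y) k x + a * sin (2 * π * X (PS a y) (k + 1) x),
      X (PS a y) (k + 1) x) = (X (PS a y) (k + 2) x, X (PS a y) (k + 1) x)
    rw [X_succ]
    simp [PS]

/-- the torus -/
abbrev T2 := UnitAddCircle × UnitAddCircle

/-- standard maps -/
def IsStd (a : ℝ) (T : T2 → T2) : Prop := ∀ x y : ℝ, T ((x : UnitAddCircle), (y : UnitAddCircle)) =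
  (((2 * x - y + a * sin (2 * π * x) : ℝ) : UnitAddCircle), (x : UnitAddCircle))

theorem std_eq {a : ℝ} {T : T2 → T2} (hT : IsStd a T) : T = Pool.Agent.TH705.SM.S a := by
  funext p
  obtain ⟨x, y⟩ := p
  induction x using QuotientAddGroup.induction_on with
  | _ x =>
    induction y using QuotientAddGroup.induction_on with
    | _ y => exact (hT x y).trans (Pool.Agent.TH705.SM.S_coe a x y).symm

theorem std_cont {a : ℝ} {T : T2 → T2} (hT : IsStd a T) : Continuous T := by
  rw [std_eq hT]
  exact Pool.Agent.TH705.SM.S_cont a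

theorem orbit_torus {a : ℝ} {T : T2 → T2} (hT : IsStd a T) (x y : ℝ) (k : ℕ) :
    T^[k] ((x : UnitAddCircle), (y : UnitAddCircle)) =
      (XC (PS a y) (k + 1) x, XC (PS a y) k x) := by
  induction k with
  | zero => simp [XC, X, PS]
  | succ k ih =>
    rw [iterate_succ_apply', ih]
    show T (((X (PS a y) (k + 1) x : ℝ) : UnitAddCircle), ((X (PS a y) k x : ℝ) : UnitAddCircle)) =
      (((X (PS a y) (k + 2) x : ℝ) : UnitAddCircle), ((X (PS a y) (k + 1) x : ℝ) : UnitAddCircle))
    rw [hT, X_succ]
    simp [PS]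

/-- the slope on the circle -/
noncomputable def LC (a : ℝ) : UnitAddCircle → ℝ := (L_per a).lift

theorem LC_coe (a x : ℝ) : LC a (x : UnitAddCircle) = L a x := (L_per a).lift_coe x

theorem LC_cont (a : ℝ) : Continuous (LC a) := by
  unfold LC Periodic.lift
  exact (L_cont a).quotient_liftOn' _

/-- the strip on the circle -/
def SC (a K : ℝ) : Set UnitAddCircle := {z | |LC a z| ≤ K}

theorem SC_meas (a K : ℝ) : MeasurableSet (SC a K) :=
  (isClosed_le (LC_cont a).abs continuous_const).measurableSet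

theorem circle_vol {E : Set UnitAddCircle} (hE : MeasurableSet E) :
    volume E = volume (Set.Ioc (0:ℝ) 1 ∩ (fun x : ℝ => (x : UnitAddCircle)) ⁻¹' E) := by
  have h := (UnitAddCircle.measurePreserving_mk 0).measure_preimage hE.nullMeasurableSet
  have hm : MeasurableSet (QuotientAddGroup.mk ⁻¹' E : Set ℝ) := AddCircle.measurable_mk' hE
  rw [zero_add, Measure.restrict_apply hm] at h
  rw [← h, Set.inter_comm]

theorem SC_le {a K : ℝ} (hK : 16 ≤ K) (ha : K ≤ |a|) :
    (volume : Measure UnitAddCircle).real (SC a K) ≤ 3 / 4 * (K / |a|) := by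
  have hK0 : 0 < K := by linarith
  have h := rr_hole (P := PS a 0) (l := K) (θ := 1) hK le_rfl (k := 0) ha
  refine le_trans ?_ h
  rw [measureReal_def, circle_vol (SC_meas a K), ← measureReal_def]
  set A : Set ℝ := Set.Ioc (0:ℝ) 1 ∩ (fun x : ℝ => (x : UnitAddCircle)) ⁻¹' SC a K with hA
  have hAm : MeasurableSet A :=
    measurableSet_Ioc.inter ((AddCircle.measurable_mk').comp measurable_id (SC_meas a K))
  have hc := (rr_cut (PS a 0) hK0 (one_pos)).rc 0
  have e : volume.real A = ∫ x in (0:ℝ)..1, A.indicator (fun _ => (1:ℝ)) x := by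
    rw [intervalIntegral.integral_of_le zero_le_one, setIntegral_indicator hAm]
    have : Set.Ioc (0:ℝ) 1 ∩ A = A := by
      rw [hA]
      ext x
      simp
    rw [this]
    simp
  rw [e]
  have hAi : IntervalIntegrable (A.indicator (fun _ => (1:ℝ))) volume 0 1 := by
    rw [intervalIntegrable_iff_integrableOn_Ioc_of_le zero_le_one]
    exact (integrable_const (1:ℝ)).indicator hAm
  apply intervalIntegral.integral_mono_on zero_le_one hAi
    ((continuous_const.sub hc).intervalIntegrable _ _)
  intro x _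
  by_cases hx : x ∈ A
  · rw [Set.indicator_of_mem hx]
    show (1:ℝ) ≤ 1 - rr (PS a 0) K 1 0 x
    have h1 : |LC a (x : UnitAddCircle)| ≤ K := hx.2
    rw [LC_coe] at h1
    have h2 : rr (PS a 0) K 1 0 x = 0 := by
      apply rho_zero zero_le_one
      show |L a x / K| ≤ 1
      rw [abs_div, abs_of_pos hK0, div_le_one hK0]
      exact h1
    rw [h2]
    norm_num
  · rw [Set.indicator_of_notMem hx]
    have := rho_le_one 1 (L ((PS a 0).a 0) x / K)
    show 0 ≤ 1 - rho 1 (L ((PS a 0).a 0) x / K)
    linarith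

theorem SC_pos {a K : ℝ} (hK : 16 ≤ K) : 0 < (volume : Measure UnitAddCircle).real (SC a K) := by
  have ho : IsOpen {z : UnitAddCircle | |LC a z| < K} :=
    isOpen_lt (LC_cont a).abs continuous_const
  have hne : {z : UnitAddCircle | |LC a z| < K}.Nonempty := by
    refine ⟨((1 / 4 : ℝ) : UnitAddCircle), ?_⟩
    show |LC a ((1 / 4 : ℝ) : UnitAddCircle)| < K
    rw [LC_coe]
    unfold L
    have : 2 * π * (1 / 4) = π / 2 := by ring
    rw [this, cos_pi_div_two, mul_zero, add_zero, abs_of_pos (by norm_num : (0:ℝ) < 2)]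
    linarith
  have h1 := ho.measure_pos volume hne
  have h2 : volume {z : UnitAddCircle | |LC a z| < K} ≤ volume (SC a K) :=
    measure_mono fun z (hz : |LC a z| < K) => (le_of_lt hz : |LC a z| ≤ K)
  exact ENNReal.toReal_pos (h1.trans_le h2).ne' (measure_ne_top _ _)

/-- survivors, with the circle -/
def Sv (T : T2 → T2) (a K : ℝ) (n : ℕ) : Set T2 := {p | ∀ k < n, (T^[k] p).1 ∉ SC a K}

theorem Sv_open {a : ℝ} {T : T2 → T2} (hT : IsStd a T) (K : ℝ) (n : ℕ) : IsOpen (Sv T a K n) := by
  have e : Sv T a K n = ⋂ k ∈ Finset.range n, {p | K < |LC a (T^[k] p).1|} := by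
    ext p
    simp [Sv, SC]
  rw [e]
  apply isOpen_biInter_finset
  intro k _
  exact isOpen_lt continuous_const
    ((LC_cont a).comp (continuous_fst.comp ((std_cont hT).iterate k))).abs

theorem Sv_line {a : ℝ} {T : T2 → T2} (hT : IsStd a T) (K : ℝ) (n : ℕ) (y : ℝ) :
    Set.Ioc (0:ℝ) 1 ∩ (fun x : ℝ => (x : UnitAddCircle)) ⁻¹'
      {x : UnitAddCircle | (x, (y : UnitAddCircle)) ∈ Sv T a K n} = SS (PS a y) K n := by
  ext x
  simp only [Set.mem_inter_iff, Set.mem_preimage, Set.mem_ofPred_eq, SS]
  apply and_congr_right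
  intro _
  constructor
  · intro h k hk1 hk2
    have h1 := h (k - 1) (by omega)
    rw [orbit_torus hT] at h1
    have h2 : ¬ |LC a (XC (PS a y) (k - 1 + 1) x)| ≤ K := h1
    unfold XC at h2
    rw [LC_coe, not_le, Nat.sub_add_cancel hk1] at h2
    exact h2
  · intro h k hk
    rw [orbit_torus hT]
    show ¬ |LC a (XC (PS a y) (k + 1) x)| ≤ K
    unfold XC
    rw [LC_coe, not_le]
    exact h (k + 1) (by omega) (by omega)

theorem line_vol {a : ℝ} {T : T2 → T2} (hT : IsStd a T) (K : ℝ) (n : ℕ) (y : ℝ) :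
    (volume : Measure UnitAddCircle).real
      {x : UnitAddCircle | (x, (y : UnitAddCircle)) ∈ Sv T a K n} =
      volume.real (SS (PS a y) K n) := by
  have hm : MeasurableSet {x : UnitAddCircle | (x, (y : UnitAddCircle)) ∈ Sv T a K n} :=
    ((Sv_open hT K n).preimage (by fun_prop : Continuous fun x : UnitAddCircle =>
      (x, (y : UnitAddCircle)))).measurableSet
  rw [measureReal_def, circle_vol hm, Sv_line hT]
  rfl

theorem line_vol_E {a : ℝ} {T : T2 → T2} (hT : IsStd a T) (K : ℝ) (n : ℕ) (y : ℝ)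
    {E : Set UnitAddCircle} (hE : MeasurableSet E) :
    (volume : Measure UnitAddCircle).real
      {x : UnitAddCircle | (x, (y : UnitAddCircle)) ∈ Sv T a K n ∧
        (T^[n] (x, (y : UnitAddCircle))).1 ∈ E} =
      volume.real (SS (PS a y) K n ∩ XC (PS a y) (n + 1) ⁻¹' E) := by
  have hline : Continuous fun x : UnitAddCircle => (x, (y : UnitAddCircle)) := by fun_prop
  have hm : MeasurableSet {x : UnitAddCircle | (x, (y : UnitAddCircle)) ∈ Sv T a K n ∧
        (T^[n] (x, (y : UnitAddCircle))).1 ∈ E} := by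
    apply MeasurableSet.inter
    · exact ((Sv_open hT K n).preimage hline).measurableSet
    · exact ((continuous_fst.comp ((std_cont hT).iterate n)).comp hline).measurable hE
  rw [measureReal_def, circle_vol hm]
  have e : Set.Ioc (0:ℝ) 1 ∩ (fun x : ℝ => (x : UnitAddCircle)) ⁻¹'
      {x : UnitAddCircle | (x, (y : UnitAddCircle)) ∈ Sv T a K n ∧
        (T^[n] (x, (y : UnitAddCircle))).1 ∈ E} =
      SS (PS a y) K n ∩ XC (PS a y) (n + 1) ⁻¹' E := by
    rw [← Sv_line hT]
    ext x
    simp only [Set.mem_inter_iff, Set.mem_preimage, Set.mem_ofPred_eq]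
    rw [orbit_torus hT]
    tauto
  rw [e]
  rfl

/-- **equidistribution of the survivors on a line** -/
theorem line_equi {a K : ℝ} {T : T2 → T2} (hT : IsStd a T) (hK : 1728 ≤ K) (ha : 6 * K ≤ |a|)
    (y : UnitAddCircle) (n : ℕ) {E : Set UnitAddCircle} (hE : MeasurableSet E) :
    |(volume : Measure UnitAddCircle).real {x | (x, y) ∈ Sv T a K n ∧ (T^[n] (x, y)).1 ∈ E} -
      (volume : Measure UnitAddCircle).real E *
        (volume : Measure UnitAddCircle).real {x | (x, y) ∈ Sv T a K n}| ≤
      1728 / K * ((volume : Measure UnitAddCircle).real E *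
        (volume : Measure UnitAddCircle).real {x | (x, y) ∈ Sv T a K n}) := by
  induction y using QuotientAddGroup.induction_on with
  | _ y =>
    have h := sharp_set (PS_std y hK ha) n hE
    have h1 := line_vol hT K n y
    have h2 := line_vol_E hT K n y hE
    have e : 864 * (2 + 0) / K + 0 * (1 / 6) ^ n = 1728 / K := by ring
    rw [e, ← h1, ← h2] at h
    exact h

/-- one step of the survivors -/
theorem line_succ {a K : ℝ} {T : T2 → T2} (hT : IsStd a T) (y : UnitAddCircle) (n : ℕ) :
    (volume : Measure UnitAddCircle).real {x | (x, y) ∈ Sv T a K (n + 1)} =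
      (volume : Measure UnitAddCircle).real {x | (x, y) ∈ Sv T a K n} -
      (volume : Measure UnitAddCircle).real
        {x | (x, y) ∈ Sv T a K n ∧ (T^[n] (x, y)).1 ∈ SC a K} := by
  have hline : Continuous fun x : UnitAddCircle => (x, y) := by fun_prop
  have hm : MeasurableSet {x : UnitAddCircle | (x, y) ∈ Sv T a K n ∧
        (T^[n] (x, y)).1 ∈ SC a K} := by
    apply MeasurableSet.inter
    · exact ((Sv_open hT K n).preimage hline).measurableSet
    · exact ((continuous_fst.comp ((std_cont hT).iterate n)).comp hline).measurable (SC_meas a K)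
  have hsub : {x : UnitAddCircle | (x, y) ∈ Sv T a K n ∧ (T^[n] (x, y)).1 ∈ SC a K} ⊆
      {x | (x, y) ∈ Sv T a K n} := fun x hx => hx.1
  rw [← measureReal_sdiff hsub hm]
  congr 1
  ext x
  simp only [Set.mem_sdiff, Set.mem_ofPred_eq, Sv]
  constructor
  · intro h
    refine ⟨fun k hk => h k (by omega), fun h2 => h n (by omega) h2.2⟩
  · rintro ⟨h1, h2⟩ k hk
    rcases Nat.lt_or_ge k n with h3 | h3
    · exact h1 k h3
    · have : k = n := by omega
      rw [this]
      intro h4
      exact h2 ⟨h1, h4⟩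

/-- **the rate of escape on a line** -/
theorem line_rate {a K : ℝ} {T : T2 → T2} (hT : IsStd a T) (hK : 1728 ≤ K) (ha : 6 * K ≤ |a|)
    (y : UnitAddCircle) (n : ℕ) :
    (1 - (1 + 1728 / K) * (volume : Measure UnitAddCircle).real (SC a K)) ^ n ≤
      (volume : Measure UnitAddCircle).real {x | (x, y) ∈ Sv T a K n} ∧
    (volume : Measure UnitAddCircle).real {x | (x, y) ∈ Sv T a K n} ≤
      (1 - (1 - 1728 / K) * (volume : Measure UnitAddCircle).real (SC a K)) ^ n := by
  set h := (volume : Measure UnitAddCircle).real (SC a K) with hh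
  have hK0 : 0 < K := by linarith
  have ha0 : 0 < |a| := by linarith
  have h0 : 0 ≤ h := measureReal_nonneg
  have h1 : h ≤ 1 / 4 := by
    have q := SC_le (a := a) (K := K) (by linarith) (by linarith)
    have q2 : K / |a| ≤ 1 / 6 := by
      rw [div_le_div_iff₀ ha0 (by norm_num)]
      linarith
    linarith
  have hε0 : 0 ≤ 1728 / K := by positivity
  have hε1 : 1728 / K ≤ 1 := by
    rw [div_le_one hK0]
    exact hK
  induction n with
  | zero =>
    have e : {x : UnitAddCircle | (x, y) ∈ Sv T a K 0} = Set.univ := by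
      ext x
      simp [Sv]
    rw [e]
    simp
  | succ n ih =>
    have h2 := line_equi hT hK ha y n (SC_meas a K)
    rw [line_succ hT y n]
    set s := (volume : Measure UnitAddCircle).real {x | (x, y) ∈ Sv T a K n} with hs
    have hs0 : 0 ≤ s := measureReal_nonneg
    rw [abs_le] at h2
    have c1 : 0 ≤ 1 - (1 + 1728 / K) * h := by nlinarith
    have c2 : 0 ≤ 1 - (1 - 1728 / K) * h := by nlinarith
    have q1 := mul_le_mul_of_nonneg_left ih.1 c1
    have q2 := mul_le_mul_of_nonneg_left ih.2 c2
    rw [pow_succ, pow_succ]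
    constructor <;> linarith [h2.1, h2.2]

/-! ### area -/

theorem area_eq {A : Set T2} (hA : MeasurableSet A) :
    (volume : Measure T2).real A =
      ∫ y : UnitAddCircle, (volume : Measure UnitAddCircle).real {x | (x, y) ∈ A} := by
  have e1 : (volume : Measure T2) A =
      ∫⁻ y : UnitAddCircle, (volume : Measure UnitAddCircle) {x | (x, y) ∈ A} := by
    rw [Measure.volume_eq_prod, Measure.prod_apply_symm hA]
    rfl
  have hm : Measurable fun y : UnitAddCircle =>
      (volume : Measure UnitAddCircle) {x | (x, y) ∈ A} := measurable_measure_prodMk_right hA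
  have e2 : ∫ y : UnitAddCircle, (volume : Measure UnitAddCircle).real {x | (x, y) ∈ A} =
      (∫⁻ y : UnitAddCircle, (volume : Measure UnitAddCircle) {x | (x, y) ∈ A}).toReal := by
    simp only [measureReal_def]
    exact integral_toReal hm.aemeasurable (Eventually.of_forall fun y => measure_lt_top _ _)
  rw [measureReal_def, e1, e2]

theorem area_int {A : Set T2} (hA : MeasurableSet A) :
    Integrable fun y : UnitAddCircle => (volume : Measure UnitAddCircle).real {x | (x, y) ∈ A} := by
  have hm : Measurable fun y : UnitAddCircle =>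
      (volume : Measure UnitAddCircle) {x | (x, y) ∈ A} := measurable_measure_prodMk_right hA
  refine Integrable.of_bound hm.ennreal_toReal.aestronglyMeasurable 1
    (Eventually.of_forall fun y => ?_)
  rw [norm_eq_abs, abs_of_nonneg measureReal_nonneg]
  exact measureReal_le_one

/-- **the rate of escape, for the area** -/
theorem area_rate {a K : ℝ} {T : T2 → T2} (hT : IsStd a T) (hK : 1728 ≤ K) (ha : 6 * K ≤ |a|)
    (n : ℕ) :
    (1 - (1 + 1728 / K) * (volume : Measure UnitAddCircle).real (SC a K)) ^ n ≤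
      (volume : Measure T2).real (Sv T a K n) ∧
    (volume : Measure T2).real (Sv T a K n) ≤
      (1 - (1 - 1728 / K) * (volume : Measure UnitAddCircle).real (SC a K)) ^ n := by
  have hA := (Sv_open hT K n).measurableSet
  rw [area_eq hA]
  have hc : ∀ c : ℝ, ∫ _y : UnitAddCircle, c = c := fun c => by simp
  constructor
  · refine (hc _).symm.le.trans ?_
    exact integral_mono (integrable_const _) (area_int hA) fun y => (line_rate hT hK ha y n).1
  · refine le_trans ?_ (hc _).le
    exact integral_mono (area_int hA) (integrable_const _) fun y => (line_rate hT hK ha y n).2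

/-- **equidistribution of the survivors, for the area** -/
theorem area_equi {a K : ℝ} {T : T2 → T2} (hT : IsStd a T) (hK : 1728 ≤ K) (ha : 6 * K ≤ |a|)
    (n : ℕ) {E : Set UnitAddCircle} (hE : MeasurableSet E) :
    |(volume : Measure T2).real {p | p ∈ Sv T a K n ∧ (T^[n] p).1 ∈ E} -
      (volume : Measure UnitAddCircle).real E * (volume : Measure T2).real (Sv T a K n)| ≤
      1728 / K * ((volume : Measure UnitAddCircle).real E *
        (volume : Measure T2).real (Sv T a K n)) := by
  have hA := (Sv_open hT K n).measurableSet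
  have hB : MeasurableSet {p | p ∈ Sv T a K n ∧ (T^[n] p).1 ∈ E} :=
    hA.inter ((continuous_fst.comp ((std_cont hT).iterate n)).measurable hE)
  have iA := area_int hA
  have iB := area_int hB
  rw [area_eq hA, area_eq hB, ← integral_const_mul, ← integral_sub iB (iA.const_mul _),
    ← integral_const_mul]
  rw [← norm_eq_abs]
  refine norm_integral_le_of_norm_le ((iA.const_mul _).const_mul _) (Eventually.of_forall ?_)
  intro y
  rw [norm_eq_abs]
  exact line_equi hT hK ha y n hE

theorem strip_area (a K : ℝ) : (volume : Measure T2).real {p | p.1 ∈ SC a K} =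
    (volume : Measure UnitAddCircle).real (SC a K) := by
  have hA : MeasurableSet {p : T2 | p.1 ∈ SC a K} := measurable_fst (SC_meas a K)
  rw [area_eq hA]
  simp

/-! ### growth of the derivative -/

theorem deriv_growth {a K : ℝ} (hK : 1728 ≤ K) (ha : 6 * K ≤ |a|) {n : ℕ} {x y : ℝ}
    (hx : x ∈ Set.Icc (0:ℝ) 1) (hs : ∀ k < n, K < |L a (((fun p : ℝ × ℝ =>
      (2 * p.1 - p.2 + a * sin (2 * π * p.1), p.1))^[k] (x, y)).1)|) :
    (K / 2) ^ n ≤ ‖fderiv ℝ (fun p : ℝ × ℝ =>
      (2 * p.1 - p.2 + a * sin (2 * π * p.1), p.1))^[n] (x, y)‖ := by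
  set F : ℝ × ℝ → ℝ × ℝ := fun p => (2 * p.1 - p.2 + a * sin (2 * π * p.1), p.1) with hF
  have hFd : Differentiable ℝ F := by
    rw [hF]
    fun_prop
  have hdiff : DifferentiableAt ℝ F^[n] (x, y) := hFd.iterate n _
  have hline : HasDerivAt (fun t : ℝ => (t, y)) ((1, 0) : ℝ × ℝ) x :=
    (hasDerivAt_id x).prodMk (hasDerivAt_const x y)
  have h1 := (hdiff.hasFDerivAt.comp_hasDerivAt x hline)
  have h2 : HasDerivAt (fun t : ℝ => (F^[n] (t, y)).1) ((fderiv ℝ F^[n] (x, y)) (1, 0)).1 x :=
    h1.fst
  have e : (fun t : ℝ => (F^[n] (t, y)).1) = X (PS a y) (n + 1) := by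
    funext t
    rw [hF, orbit_plane]
  rw [e] at h2
  have h3 := h2.unique (X_hasDeriv (PS a y) (n + 1) x)
  have hOK := (PS_std y hK ha).ok
  have hg : Good (PS a y) K n x := by
    intro j h1 h2
    have := hs (j - 1) (by omega)
    rw [hF, orbit_plane, Nat.sub_add_cancel h1] at this
    exact this.le
  have h4 := growth_pow hOK hx hg
  have h5 : |(PS a y).c| = 1 := by simp [PS]
  rw [h5, one_mul, ← h3] at h4
  refine h4.trans ?_
  have h6 := (fderiv ℝ F^[n] (x, y)).le_opNorm (1, 0)
  have h7 : ‖((1, 0) : ℝ × ℝ)‖ = 1 := by simp [Prod.norm_def]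
  rw [h7, mul_one] at h6
  exact (norm_fst_le _).trans h6

end Pool.Agent.H52.STD
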