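import Mathlib
import Pool.Graph.R_seed8.TH705.SM.Torus
import Pool.Agent.H52.STD.EscMain

set_option autoImplicit false

/-!
# Correlations along a family of measure preserving maps: from products to square integrable
-/

namespace Pool.Agent.H52.STD

open Real MeasureTheory Function Filter Topology

instance instProbT2 : IsProbabilityMeasure (volume : Measure T2) :=
  Pool.Agent.TH705.SM.instProbTorus

/-- continuously differentiable functions on the circle, bounded by one -/
structure Sm1 (h : UnitAddCircle → ℝ) : Prop where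
  smooth : ContDiff ℝ 1 fun t : ℝ => h (t : UnitAddCircle)
  bound : ∀ x, |h x| ≤ 1

theorem per1 (h : UnitAddCircle → ℝ) : Periodic (fun t : ℝ => h (t : UnitAddCircle)) 1 := by
  intro t
  show h ((t + 1 : ℝ) : UnitAddCircle) = h (t : UnitAddCircle)
  rw [AddCircle.coe_add, AddCircle.coe_period, add_zero]

theorem lift_eq1 (h : UnitAddCircle → ℝ) : (per1 h).lift = h := by
  funext x
  induction x using QuotientAddGroup.induction_on with
  | H t => exact (per1 h).lift_coe t

theorem Sm1.cont {h : UnitAddCircle → ℝ} (hh : Sm1 h) : Continuous h := by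
  rw [← lift_eq1 h]
  exact Pool.Agent.TH705.SM.lift_cont (per1 h) hh.smooth.continuous

theorem one_sm1 : Sm1 fun _ => (1:ℝ) := ⟨contDiff_const, fun _ => by simp⟩

/-- products -/
noncomputable def prods : Submonoid C(T2, ℝ) where
  carrier := {f | ∃ g h : UnitAddCircle → ℝ, Sm1 g ∧ Sm1 h ∧ ∀ p : T2, f p = g p.1 * h p.2}
  one_mem' := ⟨fun _ => 1, fun _ => 1, one_sm1, one_sm1, fun p => by simp⟩
  mul_mem' := by
    rintro f f' ⟨g, h, hg, hh, e⟩ ⟨g', h', hg', hh', e'⟩
    refine ⟨fun x => g x * g' x, fun x => h x * h' x, ⟨hg.smooth.mul hg'.smooth, fun x => ?_⟩,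
      ⟨hh.smooth.mul hh'.smooth, fun x => ?_⟩, fun p => ?_⟩
    · rw [abs_mul]
      exact mul_le_one₀ (hg.bound x) (abs_nonneg _) (hg'.bound x)
    · rw [abs_mul]
      exact mul_le_one₀ (hh.bound x) (abs_nonneg _) (hh'.bound x)
    · rw [ContinuousMap.mul_apply, e, e']
      ring

theorem reim_mem (k : Bool) : Sm1 fun x : UnitAddCircle =>
    if k then (AddCircle.toCircle x : ℂ).re else (AddCircle.toCircle x : ℂ).im := by
  have e : ∀ t : ℝ, ((AddCircle.toCircle (t : UnitAddCircle) : Circle) : ℂ) =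
      Complex.exp (((2 * π * t : ℝ) : ℂ) * Complex.I) := by
    intro t
    rw [AddCircle.toCircle_apply_mk, Circle.coe_exp, div_one]
  have hn : ∀ x : UnitAddCircle, ‖(AddCircle.toCircle x : ℂ)‖ = 1 := fun x => Circle.norm_coe _
  cases k
  · refine ⟨?_, fun x => ?_⟩
    · have : (fun t : ℝ => if false = true then (AddCircle.toCircle (t : UnitAddCircle) : ℂ).re
          else (AddCircle.toCircle (t : UnitAddCircle) : ℂ).im) = fun t : ℝ => sin (2 * π * t) := by
        funext t
        simp only [Bool.false_eq_true, if_false]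
        rw [e, Complex.exp_ofReal_mul_I_im]
      rw [this]
      fun_prop
    · simp only [Bool.false_eq_true, if_false]
      exact (Complex.abs_im_le_norm _).trans (hn x).le
  · refine ⟨?_, fun x => ?_⟩
    · have : (fun t : ℝ => if true = true then (AddCircle.toCircle (t : UnitAddCircle) : ℂ).re
          else (AddCircle.toCircle (t : UnitAddCircle) : ℂ).im) = fun t : ℝ => cos (2 * π * t) := by
        funext t
        simp only [if_true]
        rw [e, Complex.exp_ofReal_mul_I_re]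
      rw [this]
      fun_prop
    · simp only [if_true]
      exact (Complex.abs_re_le_norm _).trans (hn x).le

theorem exists_sep1 {x y : UnitAddCircle} (h : x ≠ y) : ∃ g, Sm1 g ∧ g x ≠ g y := by
  by_contra hc
  push Not at hc
  have h1 := hc _ (reim_mem true)
  have h2 := hc _ (reim_mem false)
  simp only [if_true, Bool.false_eq_true, if_false] at h1 h2
  exact h (AddCircle.injective_toCircle one_ne_zero (Circle.ext (Complex.ext h1 h2)))

/-- the algebra -/
noncomputable def alg : Subalgebra ℝ C(T2, ℝ) := Algebra.adjoin ℝ (prods : Set C(T2, ℝ))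

theorem alg_sep : alg.SeparatesPoints := by
  intro p q hpq
  by_cases h : p.1 = q.1
  · have h2 : p.2 ≠ q.2 := fun e => hpq (Prod.ext h e)
    obtain ⟨g, hg, hne⟩ := exists_sep1 h2
    refine ⟨_, ⟨⟨fun r : T2 => 1 * g r.2, continuous_const.mul (hg.cont.comp continuous_snd)⟩,
      Algebra.subset_adjoin ⟨fun _ => 1, g, one_sm1, hg, fun p => rfl⟩, rfl⟩, ?_⟩
    simpa using hne
  · obtain ⟨g, hg, hne⟩ := exists_sep1 h
    refine ⟨_, ⟨⟨fun r : T2 => g r.1 * 1, (hg.cont.comp continuous_fst).mul continuous_const⟩,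
      Algebra.subset_adjoin ⟨g, fun _ => 1, hg, one_sm1, fun p => rfl⟩, rfl⟩, ?_⟩
    simpa using hne

theorem alg_dense : Dense (alg : Set C(T2, ℝ)) := by
  have h := ContinuousMap.subalgebra_topologicalClosure_eq_top_of_separatesPoints alg alg_sep
  have h2 := congrArg (fun A : Subalgebra ℝ C(T2, ℝ) => (A : Set C(T2, ℝ))) h
  rw [dense_iff_closure_eq]
  simpa [Subalgebra.topologicalClosure_coe] using h2

theorem alg_eq : Subalgebra.toSubmodule alg = Submodule.span ℝ (prods : Set C(T2, ℝ)) := by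
  unfold alg
  rw [Algebra.adjoin_eq_span, Submonoid.closure_eq]

/-- the Hilbert space -/
abbrev HH : Type := Lp ℝ 2 (volume : Measure T2)

/-- the inclusion in the Hilbert space -/
noncomputable def JJ : C(T2, ℝ) →L[ℝ] HH := ContinuousMap.toLp 2 volume ℝ

theorem JJ_eq (f : C(T2, ℝ)) : ⇑(JJ f) =ᵐ[volume] f :=
  ContinuousMap.coeFn_toLp (p := 2) (𝕜 := ℝ) volume f

theorem dense_JJ : Dense (JJ '' (alg : Set C(T2, ℝ))) := by
  have h : DenseRange (JJ : C(T2, ℝ) → HH) :=
    ContinuousMap.toLp_denseRange ℝ volume ℝ (by simp)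
  exact h.dense_image JJ.continuous alg_dense

/-- the constant one -/
noncomputable def one1 : HH := (memLp_const (μ := (volume : Measure T2)) (p := 2) (1:ℝ)).toLp _

theorem norm_one1 : ‖one1‖ ≤ 1 := by
  unfold one1
  rw [Lp.norm_toLp, eLpNorm_const _ (by norm_num) (NeZero.ne _)]
  simp

theorem JJ_toLp (f : C(T2, ℝ)) : ∃ hf : MemLp (f : T2 → ℝ) 2 volume, JJ f = hf.toLp f := by
  have hf : MemLp (f : T2 → ℝ) 2 volume := (Lp.memLp (JJ f)).ae_eq (JJ_eq f)
  refine ⟨hf, ?_⟩
  apply Lp.ext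
  exact (JJ_eq f).trans hf.coeFn_toLp.symm

section

variable {ι : Type} {τ : ι → T2 → T2} (hτ : ∀ i, MeasurePreserving (τ i) volume volume)

/-- Koopman -/
noncomputable def UK (i : ι) : HH →ₗᵢ[ℝ] HH := Lp.compMeasurePreservingₗᵢ ℝ (τ i) (hτ i)

/-- the correlation -/
noncomputable def BB (i : ι) (u v : HH) : ℝ :=
  inner ℝ (UK hτ i u) v - inner ℝ u one1 * inner ℝ v one1

theorem BB_add_left (i : ι) (u u' v : HH) : BB hτ i (u + u') v = BB hτ i u v + BB hτ i u' v := by
  unfold BB
  rw [map_add, inner_add_left, inner_add_left]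
  ring

theorem BB_smul_left (i : ι) (c : ℝ) (u v : HH) : BB hτ i (c • u) v = c * BB hτ i u v := by
  unfold BB
  rw [map_smul, real_inner_smul_left, real_inner_smul_left]
  ring

theorem BB_add_right (i : ι) (u v v' : HH) : BB hτ i u (v + v') = BB hτ i u v + BB hτ i u v' := by
  unfold BB
  rw [inner_add_right, inner_add_left]
  ring

theorem BB_smul_right (i : ι) (c : ℝ) (u v : HH) : BB hτ i u (c • v) = c * BB hτ i u v := by
  unfold BB
  rw [real_inner_smul_right, real_inner_smul_left]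
  ring

theorem BB_bound (i : ι) (u v : HH) : |BB hτ i u v| ≤ 2 * ‖u‖ * ‖v‖ := by
  unfold BB
  have h1 := abs_real_inner_le_norm (UK hτ i u) v
  rw [(UK hτ i).norm_map] at h1
  have h2 := abs_real_inner_le_norm u one1
  have h3 := abs_real_inner_le_norm v one1
  have h4 := norm_one1
  have h5 : |inner ℝ u one1| ≤ ‖u‖ :=
    h2.trans (mul_le_of_le_one_right (norm_nonneg u) h4)
  have h6 : |inner ℝ v one1| ≤ ‖v‖ :=
    h3.trans (mul_le_of_le_one_right (norm_nonneg v) h4)
  calc _ ≤ |inner ℝ (UK hτ i u) v| + |inner ℝ u one1 * inner ℝ v one1| := abs_sub _ _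
    _ ≤ ‖u‖ * ‖v‖ + ‖u‖ * ‖v‖ := by
        rw [abs_mul]
        exact add_le_add h1 (mul_le_mul h5 h6 (abs_nonneg _) (norm_nonneg u))
    _ = _ := by ring

theorem BB_eq (i : ι) {u v : T2 → ℝ} (hu : MemLp u 2 volume) (hv : MemLp v 2 volume) :
    BB hτ i (hu.toLp u) (hv.toLp v) =
      (∫ p : T2, u (τ i p) * v p) - (∫ p, u p) * ∫ p, v p := by
  unfold BB
  have hone : ∀ {w : T2 → ℝ} (hw : MemLp w 2 volume),
      inner ℝ (hw.toLp w) one1 = ∫ p, w p := by
    intro w hw
    rw [L2.inner_def]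
    apply integral_congr_ae
    filter_upwards [hw.coeFn_toLp, (memLp_const (μ := (volume : Measure T2)) (p := 2)
      (1:ℝ)).coeFn_toLp] with x i1 i2
    unfold one1
    rw [i1, i2]
    simp
  rw [hone hu, hone hv]
  congr 1
  rw [L2.inner_def]
  have e : UK hτ i (hu.toLp u) = (hu.comp_measurePreserving (hτ i)).toLp _ := rfl
  rw [e]
  apply integral_congr_ae
  filter_upwards [hv.coeFn_toLp, (hu.comp_measurePreserving (hτ i)).coeFn_toLp] with x i1 i2
  rw [i1, i2]
  simp [mul_comm]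

variable {𝓕 : Filter ι}

/-- correlations tend to zero -/
def Gd (𝓕 : Filter ι) (u v : HH) : Prop := Tendsto (fun i => BB hτ i u v) 𝓕 (𝓝 0)

theorem Gd.add_left {u u' v : HH} (h : Gd hτ 𝓕 u v) (h' : Gd hτ 𝓕 u' v) :
    Gd hτ 𝓕 (u + u') v := by
  have := Tendsto.add h h'
  rw [add_zero] at this
  exact this.congr fun i => (BB_add_left hτ i u u' v).symm

theorem Gd.add_right {u v v' : HH} (h : Gd hτ 𝓕 u v) (h' : Gd hτ 𝓕 u v') :
    Gd hτ 𝓕 u (v + v') := by
  have := Tendsto.add h h'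
  rw [add_zero] at this
  exact this.congr fun i => (BB_add_right hτ i u v v').symm

theorem Gd.smul_left {u v : HH} (h : Gd hτ 𝓕 u v) (c : ℝ) : Gd hτ 𝓕 (c • u) v := by
  have := Tendsto.const_mul c h
  rw [mul_zero] at this
  exact this.congr fun i => (BB_smul_left hτ i c u v).symm

theorem Gd.smul_right {u v : HH} (h : Gd hτ 𝓕 u v) (c : ℝ) : Gd hτ 𝓕 u (c • v) := by
  have := Tendsto.const_mul c h
  rw [mul_zero] at this
  exact this.congr fun i => (BB_smul_right hτ i c u v).symm

theorem gd_zero_left (v : HH) : Gd hτ 𝓕 0 v := by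
  have h : ∀ i, BB hτ i 0 v = 0 := by
    intro i
    have := BB_smul_left hτ i 0 0 v
    rwa [zero_smul, zero_mul] at this
  unfold Gd
  simp_rw [h]
  exact tendsto_const_nhds

theorem gd_zero_right (u : HH) : Gd hτ 𝓕 u 0 := by
  have h : ∀ i, BB hτ i u 0 = 0 := by
    intro i
    have := BB_smul_right hτ i 0 u 0
    rwa [zero_smul, zero_mul] at this
  unfold Gd
  simp_rw [h]
  exact tendsto_const_nhds

theorem gd_closed_left {s : Set HH} (hs : Dense s) {v : HH} (h : ∀ u ∈ s, Gd hτ 𝓕 u v) (u : HH) :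
    Gd hτ 𝓕 u v := by
  unfold Gd
  rw [Metric.tendsto_nhds]
  intro ε hε
  set K := 2 * (‖v‖ + 1) with hK
  have hK0 : 0 < K := by positivity
  obtain ⟨u', hu', hd⟩ := hs.exists_dist_lt u (show 0 < ε / (2 * K) by positivity)
  have H := h u' hu'
  unfold Gd at H
  rw [Metric.tendsto_nhds] at H
  filter_upwards [H (ε / 2) (by positivity)] with i hi
  rw [dist_zero_right, norm_eq_abs] at hi ⊢
  have e : BB hτ i u v = BB hτ i (u - u') v + BB hτ i u' v := by
    rw [← BB_add_left, sub_add_cancel]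
  have i1 := BB_bound hτ i (u - u') v
  rw [dist_eq_norm] at hd
  have i3 : 2 * ‖u - u'‖ * ‖v‖ ≤ ε / 2 := by
    calc 2 * ‖u - u'‖ * ‖v‖ ≤ 2 * ‖u - u'‖ * (‖v‖ + 1) := by
          gcongr
          linarith
      _ = K * ‖u - u'‖ := by rw [hK]; ring
      _ ≤ K * (ε / (2 * K)) := by gcongr
      _ = ε / 2 := by field_simp
  rw [e]
  exact (abs_add_le _ _).trans_lt (by linarith)

theorem gd_closed_right {s : Set HH} (hs : Dense s) {u : HH} (h : ∀ v ∈ s, Gd hτ 𝓕 u v) (v : HH) :
    Gd hτ 𝓕 u v := by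
  unfold Gd
  rw [Metric.tendsto_nhds]
  intro ε hε
  set K := 2 * (‖u‖ + 1) with hK
  have hK0 : 0 < K := by positivity
  obtain ⟨v', hv', hd⟩ := hs.exists_dist_lt v (show 0 < ε / (2 * K) by positivity)
  have H := h v' hv'
  unfold Gd at H
  rw [Metric.tendsto_nhds] at H
  filter_upwards [H (ε / 2) (by positivity)] with i hi
  rw [dist_zero_right, norm_eq_abs] at hi ⊢
  have e : BB hτ i u v = BB hτ i u (v - v') + BB hτ i u v' := by
    rw [← BB_add_right, sub_add_cancel]
  have i1 := BB_bound hτ i u (v - v')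
  rw [dist_eq_norm] at hd
  have i3 : 2 * ‖u‖ * ‖v - v'‖ ≤ ε / 2 := by
    calc 2 * ‖u‖ * ‖v - v'‖ ≤ 2 * (‖u‖ + 1) * ‖v - v'‖ := by
          gcongr
          linarith
      _ = K * ‖v - v'‖ := by rw [hK]
      _ ≤ K * (ε / (2 * K)) := by gcongr
      _ = ε / 2 := by field_simp
  rw [e]
  exact (abs_add_le _ _).trans_lt (by linarith)

include hτ in
/-- from products to square integrable functions -/
theorem corr_all (h : ∀ f ∈ prods, ∀ g ∈ prods,
    Tendsto (fun i => ∫ p : T2, f (τ i p) * g p) 𝓕 (𝓝 ((∫ p, f p) * ∫ p, g p)))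
    {u v : T2 → ℝ} (hu : MemLp u 2 volume) (hv : MemLp v 2 volume) :
    Tendsto (fun i => ∫ p : T2, u (τ i p) * v p) 𝓕 (𝓝 ((∫ p, u p) * ∫ p, v p)) := by
  have base : ∀ f ∈ prods, ∀ g ∈ prods, Gd hτ 𝓕 (JJ f) (JJ g) := by
    intro f hf g hg
    obtain ⟨m1, q1⟩ := JJ_toLp f
    obtain ⟨m2, q2⟩ := JJ_toLp g
    unfold Gd
    have h1 := (h f hf g hg).sub_const ((∫ p, f p) * ∫ p, g p)
    rw [sub_self] at h1
    refine h1.congr fun i => ?_
    rw [q1, q2, BB_eq hτ i m1 m2]
  have s1 : ∀ f ∈ prods, ∀ g ∈ Submodule.span ℝ (prods : Set C(T2, ℝ)),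
      Gd hτ 𝓕 (JJ f) (JJ g) := by
    intro f hf g hg
    induction hg using Submodule.span_induction with
    | mem g hg2 => exact base f hf g hg2
    | zero => rw [map_zero]; exact gd_zero_right hτ _
    | add x y _ _ i1 i2 => rw [map_add]; exact i1.add_right hτ i2
    | smul c x _ i1 => rw [map_smul]; exact i1.smul_right hτ c
  have s2 : ∀ f ∈ Submodule.span ℝ (prods : Set C(T2, ℝ)),
      ∀ g ∈ Submodule.span ℝ (prods : Set C(T2, ℝ)), Gd hτ 𝓕 (JJ f) (JJ g) := by
    intro f hf g hg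
    induction hf using Submodule.span_induction with
    | mem f hf1 => exact s1 f hf1 g hg
    | zero => rw [map_zero]; exact gd_zero_left hτ _
    | add x y _ _ i1 i2 => rw [map_add]; exact i1.add_left hτ i2
    | smul c x _ i1 => rw [map_smul]; exact i1.smul_left hτ c
  have all : Gd hτ 𝓕 (hu.toLp u) (hv.toLp v) := by
    refine gd_closed_left hτ dense_JJ ?_ _
    rintro _ ⟨f, hf, rfl⟩
    refine gd_closed_right hτ dense_JJ ?_ _
    rintro _ ⟨g, hg, rfl⟩
    have hf1 : f ∈ Submodule.span ℝ (prods : Set C(T2, ℝ)) := by rw [← alg_eq]; exact hf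
    have hg1 : g ∈ Submodule.span ℝ (prods : Set C(T2, ℝ)) := by rw [← alg_eq]; exact hg
    exact s2 f hf1 g hg1
  unfold Gd at all
  have h1 := all.add_const ((∫ p, u p) * ∫ p, v p)
  rw [zero_add] at h1
  refine h1.congr fun i => ?_
  rw [BB_eq hτ i hu hv]
  ring

end

end Pool.Agent.H52.STD
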