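import Mathlib
import Pool.Agent.H52.STD.Mom

set_option autoImplicit false

/-!
# Compositions of standard maps: one decorrelating step, correlations on lines
-/

namespace Pool.Agent.H52.STD

open Real MeasureTheory Function Filter Topology

section

variable {P : Par} {l : ℝ}

/-- the mass lost, with varying coefficients -/
theorem loss_sum (H : Std P l 0) (n : ℕ) :
    1 - cc P (rr P l 1) n ≤ 2 * l * ∑ k ∈ Finset.range n, 1 / |P.a (k + 1)| := by
  obtain ⟨β, hR⟩ := H.rel (θ := 1) le_rfl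
  have hr := hR.cut
  have hl := H.ok.l_pos
  induction n with
  | zero =>
    have e : cc P (rr P l 1) 0 = 1 := by
      unfold cc
      simp [chi]
    rw [e]
    simp
  | succ n ih =>
    rw [cc_succ hr, Finset.sum_range_succ]
    have h1 := step_upper H n (f := fun x => 1 - rr P l 1 (n + 1) x)
      (continuous_const.sub (hr.rc (n + 1))) (fun x => by simp only; rw [hr.p]) (fun x => by
        have := hr.m1 (n + 1) x
        linarith)
    have h2 := rr_hole (P := P) (l := l) (θ := 1) H.ok.l_ge le_rfl (k := n + 1)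
      (H.ok.la (n + 1) (by omega))
    have h5 : 0 ≤ 1 / |P.a (n + 1)| := by positivity
    have h6 : l / |P.a (n + 1)| = l * (1 / |P.a (n + 1)|) := by ring
    have h7 : 0 ≤ l * (1 / |P.a (n + 1)|) := by positivity
    rw [h6] at h2
    have h4 : (∫ x in (0:ℝ)..1, (1 - rr P l 1 (n + 1) x)) * (2 + 0) ≤
        3 / 4 * (l * (1 / |P.a (n + 1)|)) * (2 + 0) :=
      mul_le_mul_of_nonneg_right h2 (by norm_num)
    rw [mul_add]
    linarith

/-- one decorrelating step -/
theorem dec (H : Std P l 0) (hb : P.b = 0) (hc : P.c = 1) (m : ℕ) {Q Q' : ℝ → ℝ}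
    (hQ : ∀ t, HasDerivAt Q (Q' t) t) (hQ'c : Continuous Q') (hQ1 : ∀ t, |Q t| ≤ 1)
    (hper : Q 1 = Q 0) {e : ℝ} (he0 : 0 ≤ e)
    (he : ∀ t ∈ Set.Icc (0:ℝ) 1, Good P l m t → |Q' t| ≤ e * |D P (m + 1) t|)
    {u : ℝ → ℝ} (hu : Continuous u) (hup : Periodic u 1) (hu1 : ∀ x, |u x| ≤ 1) :
    |(∫ t in (0:ℝ)..1, Q t * u (X P (m + 1) t)) - (∫ x in (0:ℝ)..1, u x) *
      ∫ t in (0:ℝ)..1, Q t| ≤ 2 * (3456 / l + e) + 2 * (1 - cc P (rr P l 1) m) := by
  obtain ⟨β, hR⟩ := H.rel (θ := 1) le_rfl
  have h := H.ok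
  have hr := hR.cut
  have hl := h.l_pos
  have hQc : Continuous Q := continuous_iff_continuousAt.2 fun x => (hQ x).continuousAt
  set ub := ∫ x in (0:ℝ)..1, u x with hub
  have hubM : |ub| ≤ 1 := by
    have q : ‖∫ x in (0:ℝ)..1, u x‖ ≤ 1 * |1 - 0| :=
      intervalIntegral.norm_integral_le_of_norm_le_const fun x _ => by
        rw [norm_eq_abs]
        exact hu1 x
    rw [norm_eq_abs] at q
    simpa using q
  have hg1 : ∀ x, |u x - ub| ≤ 2 := by
    intro x
    have := abs_sub (u x) ub
    linarith [hu1 x]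
  have hg0 : ∫ x in (0:ℝ)..1, (u x - ub) = 0 := by
    rw [intervalIntegral.integral_sub (hu.intervalIntegrable _ _) intervalIntegrable_const,
      ← hub]
    simp
  have hgp : Periodic (fun x => u x - ub) 1 := fun x => by simp only; rw [hup]
  have hgc : Continuous (fun x => u x - ub) := hu.sub continuous_const
  obtain ⟨G, hGd, hGp, hG1⟩ := prim_ctr hgc hgp hg0 hg1
  have hbd := ibp h hr m hQ hQ'c (bd := fun t => 2 * VV P l (rr P l 1) (rr' P l 1) m t + e)
    ((continuous_const.mul (VV_cont hl hr m)).add continuous_const) (by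
      intro t ht
      refine (W'_le h hr m ht).trans ?_
      have q1 := VV_nonneg hl hr m t
      have q2 : |Q t| * VV P l (rr P l 1) (rr' P l 1) m t ≤
          1 * VV P l (rr P l 1) (rr' P l 1) m t :=
        mul_le_mul_of_nonneg_right (hQ1 t) q1
      have q3 : chi P (rr P l 1) m t * |Q' t| / |D P (m + 1) t| ≤ e := by
        by_cases hg : Good P l m t
        · have hD : 0 < |D P (m + 1) t| := abs_pos.2 (D_ne h ht hg)
          rw [div_le_iff₀ hD]
          have q4 := chi_mem hr m t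
          have q5 := he t ht hg
          have q6 : chi P (rr P l 1) m t * |Q' t| ≤ 1 * |Q' t| :=
            mul_le_mul_of_nonneg_right q4.2 (abs_nonneg _)
          linarith
        · rw [(chi_bad hr hg).1]
          simpa using he0
      linarith) hGd hgc hG1
  have hbdry := (bdry_per hb hc (r := rr P l 1) (fun k => hr.p k)).i m Q G 2 hQ1 hper hGp hG1
  rw [mul_zero] at hbdry
  have hint : ∫ t in (0:ℝ)..1, (2 * VV P l (rr P l 1) (rr' P l 1) m t + e) =
      2 * vv P l (rr P l 1) (rr' P l 1) m + e := by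
    rw [intervalIntegral.integral_add, intervalIntegral.integral_const_mul]
    · unfold vv
      simp
    · exact (continuous_const.mul (VV_cont hl hr m)).intervalIntegrable _ _
    · exact intervalIntegrable_const
  rw [hint] at hbd
  have hvv : vv P l (rr P l 1) (rr' P l 1) m ≤ 864 / l := by
    have q := (rel_main hR m).1
    have q1 := cc_le_one hr m
    have q2 := cc_nonneg hr m
    have q3 : 4 * Cw 4 * (2 + 0) / l = 864 / l := by
      unfold Cw
      norm_num
    rw [q3] at q
    have q4 : 864 / l * cc P (rr P l 1) m ≤ 864 / l * 1 :=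
      mul_le_mul_of_nonneg_left q1 (by positivity)
    linarith
  have hX : Continuous (fun t => u (X P (m + 1) t)) := hu.comp (X_cont P _)
  have hchi := chi_cont hr m
  have e1 : (∫ t in (0:ℝ)..1, Q t * u (X P (m + 1) t)) - ub * ∫ t in (0:ℝ)..1, Q t =
      (∫ t in (0:ℝ)..1, chi P (rr P l 1) m t * Q t * (u (X P (m + 1) t) - ub)) +
      ∫ t in (0:ℝ)..1, (1 - chi P (rr P l 1) m t) * (Q t * (u (X P (m + 1) t) - ub)) := by
    rw [← intervalIntegral.integral_const_mul, ← intervalIntegral.integral_sub,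
      ← intervalIntegral.integral_add]
    · apply intervalIntegral.integral_congr
      intro t _
      simp only
      ring
    · exact ((hchi.mul hQc).mul (hX.sub continuous_const)).intervalIntegrable _ _
    · exact ((continuous_const.sub hchi).mul (hQc.mul (hX.sub continuous_const))).intervalIntegrable
        _ _
    · exact (hQc.mul hX).intervalIntegrable _ _
    · exact (continuous_const.mul hQc).intervalIntegrable _ _
  have e2 : |∫ t in (0:ℝ)..1, (1 - chi P (rr P l 1) m t) * (Q t * (u (X P (m + 1) t) - ub))| ≤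
      2 * (1 - cc P (rr P l 1) m) := by
    have q1 : ∫ t in (0:ℝ)..1, 2 * (1 - chi P (rr P l 1) m t) =
        2 * (1 - cc P (rr P l 1) m) := by
      rw [intervalIntegral.integral_const_mul, intervalIntegral.integral_sub
        intervalIntegrable_const (hchi.intervalIntegrable _ _)]
      unfold cc
      simp
    rw [← q1, ← norm_eq_abs]
    apply intervalIntegral.norm_integral_le_of_norm_le zero_le_one
    · refine Filter.Eventually.of_forall fun t _ => ?_
      have q2 := (chi_mem hr m t).2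
      rw [norm_eq_abs, abs_mul, abs_mul, abs_of_nonneg (by linarith : 0 ≤ 1 - chi P (rr P l 1) m t)]
      have q3 : |Q t| * |u (X P (m + 1) t) - ub| ≤ 1 * 2 :=
        mul_le_mul (hQ1 t) (hg1 _) (abs_nonneg _) zero_le_one
      have q4 := mul_le_mul_of_nonneg_left q3
        (by linarith : 0 ≤ 1 - chi P (rr P l 1) m t)
      linarith
    · exact (continuous_const.mul (continuous_const.sub hchi)).intervalIntegrable _ _
  rw [e1]
  have h9 := abs_add_le
    (∫ t in (0:ℝ)..1, chi P (rr P l 1) m t * Q t * (u (X P (m + 1) t) - ub))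
    (∫ t in (0:ℝ)..1, (1 - chi P (rr P l 1) m t) * (Q t * (u (X P (m + 1) t) - ub)))
  have h10 : 864 / l * 4 = 3456 / l := by ring
  have h11 : 0 ≤ 864 / l := by positivity
  linarith

/-- correlations on a line -/
theorem corr (H : Std P l 0) (hb : P.b = 0) (hc : P.c = 1) {n : ℕ} (hn : 2 ≤ n)
    {u v v' w w' : ℝ → ℝ} {M N : ℝ} (hM : 0 ≤ M) (hN : 0 ≤ N)
    (hu : Continuous u) (hup : Periodic u 1) (hu1 : ∀ x, |u x| ≤ 1)
    (hv : ∀ x, HasDerivAt v (v' x) x) (hv'c : Continuous v') (hvp : Periodic v 1)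
    (hv1 : ∀ x, |v x| ≤ 1) (hvM : ∀ x, |v' x| ≤ M)
    (hw : ∀ x, HasDerivAt w (w' x) x) (hw'c : Continuous w') (hwp : Periodic w 1)
    (hw1 : ∀ x, |w x| ≤ 1) (hwN : ∀ x, |w' x| ≤ N) :
    |(∫ t in (0:ℝ)..1, u (X P (n + 1) t) * v (X P n t) * w (X P 1 t)) -
      (∫ x in (0:ℝ)..1, u x) * (∫ x in (0:ℝ)..1, v x) * ∫ t in (0:ℝ)..1, w (X P 1 t)| ≤
      (13824 + 4 * M) / l + 4 * N * (2 / l) ^ (n - 1) +
        8 * l * ∑ k ∈ Finset.range n, 1 / |P.a (k + 1)| := by
  have h := H.ok
  have hl := h.l_pos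
  have hl16 := h.l_ge
  have hwc : Continuous w := continuous_iff_continuousAt.2 fun x => (hw x).continuousAt
  have hvc : Continuous v := continuous_iff_continuousAt.2 fun x => (hv x).continuousAt
  have hgrow : ∀ m t, t ∈ Set.Icc (0:ℝ) 1 → Good P l m t → 1 ≤ (2 / l) ^ m * |D P (m + 1) t| := by
    intro m t ht hg
    have q := growth_pow h ht hg
    rw [hc, abs_one, one_mul] at q
    have q1 : (2 / l) ^ m * (l / 2) ^ m = 1 := by
      rw [← mul_pow]
      have : 2 / l * (l / 2) = 1 := by field_simp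
      rw [this, one_pow]
    rw [← q1]
    exact mul_le_mul_of_nonneg_left q (by positivity)
  have hD1 : ∀ t, D P 1 t = 1 := fun t => by simp only [D, hc]
  have hX1 : ∀ t, w (X P 1 (t + 1)) = w (X P 1 t) := by
    intro t
    have q := X_period hb hc 1 t
    rw [q]
    simpa using hwp (X P 1 t)
  have hXn : ∀ t, v (X P n (t + 1)) = v (X P n t) := by
    intro t
    have q := X_period hb hc n t
    rw [q]
    have := hvp.nat_mul n (X P n t)
    rwa [mul_one] at this
  -- first step
  have s1 := dec H hb hc n (Q := fun t => v (X P n t) * w (X P 1 t))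
    (Q' := fun t => v' (X P n t) * D P n t * w (X P 1 t) + v (X P n t) * (w' (X P 1 t) * D P 1 t))
    (fun t => ((hv _).comp t (X_hasDeriv P n t)).mul ((hw _).comp t (X_hasDeriv P 1 t)))
    ((((hv'c.comp (X_cont P n)).mul (D_cont P n)).mul (hwc.comp (X_cont P 1))).add
      ((hvc.comp (X_cont P n)).mul ((hw'c.comp (X_cont P 1)).mul (D_cont P 1))))
    (fun t => by
      rw [abs_mul]
      exact mul_le_one₀ (hv1 _) (abs_nonneg _) (hw1 _))
    (by
      have q1 := hX1 0
      have q2 := hXn 0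
      rw [zero_add] at q1 q2
      rw [q1, q2])
    (e := 2 * M / l + N * (2 / l) ^ n) (by positivity)
    (by
      intro t ht hg
      have q1 : |D P n t| ≤ 2 / l * |D P (n + 1) t| := by
        have q := (growth h ht hg n le_rfl).1
        rw [div_mul_eq_mul_div, le_div_iff₀ hl]
        linarith
      have q2 := hgrow n t ht hg
      have q3 : |v' (X P n t) * D P n t * w (X P 1 t)| ≤ M * (2 / l * |D P (n + 1) t|) := by
        rw [abs_mul, abs_mul]
        have r1 : |v' (X P n t)| * |D P n t| ≤ M * (2 / l * |D P (n + 1) t|) :=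
          mul_le_mul (hvM _) q1 (abs_nonneg _) hM
        have r2 := mul_le_mul r1 (hw1 (X P 1 t)) (abs_nonneg _) (by positivity)
        linarith
      have q4 : |v (X P n t) * (w' (X P 1 t) * D P 1 t)| ≤ N := by
        rw [hD1, mul_one, abs_mul]
        have r2 := mul_le_mul (hv1 (X P n t)) (hwN (X P 1 t)) (abs_nonneg _) zero_le_one
        linarith
      have q5 : N * 1 ≤ N * ((2 / l) ^ n * |D P (n + 1) t|) := mul_le_mul_of_nonneg_left q2 hN
      calc _ ≤ |v' (X P n t) * D P n t * w (X P 1 t)| +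
            |v (X P n t) * (w' (X P 1 t) * D P 1 t)| := abs_add_le _ _
        _ ≤ M * (2 / l * |D P (n + 1) t|) + N * ((2 / l) ^ n * |D P (n + 1) t|) := by linarith
        _ = _ := by ring)
    hu hup hu1
  -- second step
  obtain ⟨k, rfl⟩ : ∃ k, n = k + 1 := ⟨n - 1, by omega⟩
  have hk : 1 ≤ k := by omega
  have s2 := dec H hb hc k (Q := fun t => w (X P 1 t)) (Q' := fun t => w' (X P 1 t) * D P 1 t)
    (fun t => (hw _).comp t (X_hasDeriv P 1 t))
    ((hw'c.comp (X_cont P 1)).mul (D_cont P 1)) (fun t => hw1 _)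
    (by
      have q1 := hX1 0
      rw [zero_add] at q1
      exact q1)
    (e := N * (2 / l) ^ k) (by positivity)
    (by
      intro t ht hg
      have q2 := hgrow k t ht hg
      rw [hD1, mul_one]
      have q5 : N * 1 ≤ N * ((2 / l) ^ k * |D P (k + 1) t|) := mul_le_mul_of_nonneg_left q2 hN
      calc _ ≤ N := hwN _
        _ ≤ N * ((2 / l) ^ k * |D P (k + 1) t|) := by linarith
        _ = _ := by ring)
    hvc hvp hv1
  have l1 := loss_sum H (k + 1)
  have l2 := loss_sum H k
  have l3 : ∑ j ∈ Finset.range k, 1 / |P.a (j + 1)| ≤ ∑ j ∈ Finset.range (k + 1), 1 / |P.a (j + 1)| := by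
    rw [Finset.sum_range_succ]
    have : 0 ≤ 1 / |P.a (k + 1)| := by positivity
    linarith
  have l4 := mul_le_mul_of_nonneg_left l3 (by positivity : 0 ≤ 2 * l)
  have hub : |∫ x in (0:ℝ)..1, u x| ≤ 1 := by
    have q : ‖∫ x in (0:ℝ)..1, u x‖ ≤ 1 * |1 - 0| :=
      intervalIntegral.norm_integral_le_of_norm_le_const fun x _ => by
        rw [norm_eq_abs]
        exact hu1 x
    rw [norm_eq_abs] at q
    simpa using q
  have e0 : ∫ t in (0:ℝ)..1, u (X P (k + 1 + 1) t) * v (X P (k + 1) t) * w (X P 1 t) =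
      ∫ t in (0:ℝ)..1, v (X P (k + 1) t) * w (X P 1 t) * u (X P (k + 1 + 1) t) := by
    apply intervalIntegral.integral_congr
    intro t _
    simp only
    ring
  have e1 : ∫ t in (0:ℝ)..1, v (X P (k + 1) t) * w (X P 1 t) =
      ∫ t in (0:ℝ)..1, w (X P 1 t) * v (X P (k + 1) t) := by
    apply intervalIntegral.integral_congr
    intro t _
    simp only
    ring
  rw [e1, ← e0] at s1
  set I1 := ∫ t in (0:ℝ)..1, u (X P (k + 1 + 1) t) * v (X P (k + 1) t) * w (X P 1 t) with hI1
  set I2 := ∫ t in (0:ℝ)..1, w (X P 1 t) * v (X P (k + 1) t) with hI2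
  set I3 := ∫ t in (0:ℝ)..1, w (X P 1 t) with hI3
  set ub := ∫ x in (0:ℝ)..1, u x with hub'
  set vb := ∫ x in (0:ℝ)..1, v x with hvb
  have e2 : I1 - ub * vb * I3 = (I1 - ub * I2) + ub * (I2 - vb * I3) := by ring
  have e3 : |ub * (I2 - vb * I3)| ≤ |I2 - vb * I3| := by
    rw [abs_mul]
    have := mul_le_mul_of_nonneg_right hub (abs_nonneg (I2 - vb * I3))
    linarith
  have e4 := abs_add_le (I1 - ub * I2) (ub * (I2 - vb * I3))
  rw [← e2] at e4
  have e5 : (2 / l) ^ (k + 1) ≤ (2 / l) ^ k := by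
    apply pow_le_pow_of_le_one (by positivity) _ (Nat.le_succ k)
    rw [div_le_one hl]
    linarith
  have e6 := mul_le_mul_of_nonneg_left e5 hN
  have e7 : (13824 + 4 * M) / l = 2 * (3456 / l + 2 * M / l) + 2 * (3456 / l) := by ring
  rw [Nat.add_sub_cancel]
  rw [e7]
  have e8 : 2 * l * ∑ j ∈ Finset.range (k + 1), 1 / |P.a (j + 1)| =
    2 * (l * ∑ j ∈ Finset.range (k + 1), 1 / |P.a (j + 1)|) := by ring
  have e9 : 8 * l * ∑ j ∈ Finset.range (k + 1), 1 / |P.a (j + 1)| =
    8 * (l * ∑ j ∈ Finset.range (k + 1), 1 / |P.a (j + 1)|) := by ring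
  rw [e9]
  rw [e8] at l1 l4
  linarith

end

end Pool.Agent.H52.STD
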