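import Mathlib
import Pool.Agent.H52.STD.Non1
import Pool.Agent.H52.STD.EscMain
import Pool.Agent.H52.STD.Coc

set_option autoImplicit false

/-!
# Compositions of standard maps: chains, correlations on a line with a rate
-/

namespace Pool.Agent.H52.STD

open Real MeasureTheory Function Filter Topology

/-- the data for the composition on a horizontal line -/
noncomputable def PA (a : ℕ → ℝ) (y : ℝ) : Par := ⟨fun k => a (k - 1), 0, y, 0, 1⟩

/-- the composition in the plane -/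
noncomputable def pc (a : ℕ → ℝ) : ℕ → ℝ × ℝ → ℝ × ℝ
  | 0, z => z
  | n + 1, z => pm (a n) (pc a n z)

theorem pc_eq (a : ℕ → ℝ) (x y : ℝ) (n : ℕ) :
    pc a n (x, y) = (X (PA a y) (n + 1) x, X (PA a y) n x) := by
  induction n with
  | zero => simp [pc, X, PA]
  | succ n ih =>
    show pm (a n) (pc a n (x, y)) = _
    rw [ih, X_succ]
    simp [pm, PA]

theorem pc_congr {a a' : ℕ → ℝ} {n : ℕ} (h : ∀ k < n, a k = a' k) (z : ℝ × ℝ) :
    pc a n z = pc a' n z := by
  induction n with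
  | zero => rfl
  | succ n ih =>
    show pm (a n) (pc a n z) = pm (a' n) (pc a' n z)
    rw [ih fun k hk => h k (by omega), h n (Nat.lt_succ_self n)]

theorem PA_std {a : ℕ → ℝ} {l : ℝ} (y : ℝ) (hl : 1728 ≤ l) (ha : ∀ k, 6 * l ≤ |a k|) :
    Std (PA a y) l 0 where
  ok :=
    { c0 := by simp [PA]
      c1 := by simp [PA]
      b1 := by simp [PA]
      l16 := by simp [PA]; linarith
      la := by
        intro k _
        show l ≤ |a (k - 1)|
        have := ha (k - 1)
        linarith }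
  b := le_rfl
  bd := fun θ hθ => ⟨fun _ => 0, bdry_per rfl rfl (rr_cut (PA a y) (by linarith : (0:ℝ) < l)
    (by linarith : (0:ℝ) < θ)).p⟩
  big := by linarith
  hole := by
    intro k _
    show 3 * (2 + 0) * l ≤ |a (k - 1)|
    have := ha (k - 1)
    linarith

/-- correlations on a line, large coefficients -/
theorem line_corr0 {a : ℕ → ℝ} {l : ℝ} (hl : 1728 ≤ l) (ha : ∀ k, 6 * l ≤ |a k|) (y : ℝ)
    {n : ℕ} (hn : 2 ≤ n) {u v v' w w' : ℝ → ℝ} {M N : ℝ} (hM : 0 ≤ M) (hN : 0 ≤ N)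
    (hu : Continuous u) (hup : Periodic u 1) (hu1 : ∀ x, |u x| ≤ 1)
    (hv : ∀ x, HasDerivAt v (v' x) x) (hv'c : Continuous v') (hvp : Periodic v 1)
    (hv1 : ∀ x, |v x| ≤ 1) (hvM : ∀ x, |v' x| ≤ M)
    (hw : ∀ x, HasDerivAt w (w' x) x) (hw'c : Continuous w') (hwp : Periodic w 1)
    (hw1 : ∀ x, |w x| ≤ 1) (hwN : ∀ x, |w' x| ≤ N) :
    |(∫ t in (0:ℝ)..1, u (pc a n (t, y)).1 * v (pc a n (t, y)).2 * w t) -
      (∫ x in (0:ℝ)..1, u x) * (∫ x in (0:ℝ)..1, v x) * ∫ x in (0:ℝ)..1, w x| ≤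
      (13824 + 4 * M) / l + 4 * N * (2 / l) ^ (n - 1) +
        8 * l * ∑ k ∈ Finset.range n, 1 / |a k| := by
  have h := corr (PA_std y hl ha) rfl rfl hn hM hN hu hup hu1 hv hv'c hvp hv1 hvM hw hw'c hwp hw1
    hwN
  have e1 : ∀ t, w (X (PA a y) 1 t) = w t := by
    intro t
    simp [X, PA]
  have e2 : ∫ t in (0:ℝ)..1, u (pc a n (t, y)).1 * v (pc a n (t, y)).2 * w t =
      ∫ t in (0:ℝ)..1, u (X (PA a y) (n + 1) t) * v (X (PA a y) n t) * w (X (PA a y) 1 t) := by
    apply intervalIntegral.integral_congr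
    intro t _
    simp only
    rw [pc_eq, e1]
  rw [e2]
  simp_rw [e1] at h ⊢
  exact h

/-- correlations on a line, arbitrary coefficients -/
theorem line_corr {a : ℕ → ℝ} {n : ℕ} (hn : 2 ≤ n) (ha : ∀ k < n, a k ≠ 0) (y : ℝ)
    {u v v' w w' : ℝ → ℝ} {M : ℝ} (hM : 0 ≤ M)
    (hu : Continuous u) (hup : Periodic u 1) (hu1 : ∀ x, |u x| ≤ 1)
    (hv : ∀ x, HasDerivAt v (v' x) x) (hv'c : Continuous v') (hvp : Periodic v 1)
    (hv1 : ∀ x, |v x| ≤ 1) (hvM : ∀ x, |v' x| ≤ M)
    (hw : ∀ x, HasDerivAt w (w' x) x) (hw'c : Continuous w') (hwp : Periodic w 1)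
    (hw1 : ∀ x, |w x| ≤ 1) (hwN : ∀ x, |w' x| ≤ M) :
    |(∫ t in (0:ℝ)..1, u (pc a n (t, y)).1 * v (pc a n (t, y)).2 * w t) -
      (∫ x in (0:ℝ)..1, u x) * (∫ x in (0:ℝ)..1, v x) * ∫ x in (0:ℝ)..1, w x| ≤
      14000 * (1 + M) * √(∑ k ∈ Finset.range n, 1 / |a k|) := by
  set s := ∑ k ∈ Finset.range n, 1 / |a k| with hs
  have hterm : ∀ k < n, 1 / |a k| ≤ s := by
    intro k hk
    exact Finset.single_le_sum (f := fun k => 1 / |a k|) (fun i _ => by positivity)
      (Finset.mem_range.2 hk)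
  have hs0 : 0 < s := by
    have h0 := hterm 0 (by omega)
    have h1 : 0 < |a 0| := abs_pos.2 (ha 0 (by omega))
    have : 0 < 1 / |a 0| := by positivity
    linarith
  have hsq : 0 < √s := Real.sqrt_pos.2 hs0
  have hone : ∀ f : ℝ → ℝ, (∀ x, |f x| ≤ 1) → |∫ x in (0:ℝ)..1, f x| ≤ 1 := by
    intro f hf
    have q : ‖∫ x in (0:ℝ)..1, f x‖ ≤ 1 * |1 - 0| :=
      intervalIntegral.norm_integral_le_of_norm_le_const fun x _ => by
        rw [norm_eq_abs]
        exact hf x
    rw [norm_eq_abs] at q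
    simpa using q
  have huvw : ∀ x y z : ℝ, |x| ≤ 1 → |y| ≤ 1 → |z| ≤ 1 → |x * y * z| ≤ 1 := by
    intro x y z hx hy hz
    rw [abs_mul, abs_mul]
    exact mul_le_one₀ (mul_le_one₀ hx (abs_nonneg _) hy) (abs_nonneg _) hz
  rcases le_or_gt (1 / 1728) (√s) with hbig | hsmall
  · have h1 := hone (fun t => u (pc a n (t, y)).1 * v (pc a n (t, y)).2 * w t)
      fun t => huvw _ _ _ (hu1 _) (hv1 _) (hw1 _)
    have h2 := huvw _ _ _ (hone u hu1) (hone v hv1) (hone w hw1)
    have h3 := abs_sub (∫ t in (0:ℝ)..1, u (pc a n (t, y)).1 * v (pc a n (t, y)).2 * w t)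
      ((∫ x in (0:ℝ)..1, u x) * (∫ x in (0:ℝ)..1, v x) * ∫ x in (0:ℝ)..1, w x)
    have h4 : (2:ℝ) ≤ 14000 * 1 * (1 / 1728) := by norm_num
    have h5 : 14000 * 1 * (1 / 1728) ≤ 14000 * (1 + M) * √s := by
      apply mul_le_mul _ hbig (by norm_num) (by positivity)
      nlinarith
    linarith
  · set l : ℝ := 1 / √s with hl
    have hl1 : 1728 ≤ l := by
      rw [hl, le_div_iff₀ hsq]
      linarith
    have hl0 : 0 < l := by linarith
    have hl2 : l ^ 2 = 1 / s := by
      rw [hl, div_pow, one_pow, Real.sq_sqrt hs0.le]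
    set a' : ℕ → ℝ := fun k => if k < n then a k else l ^ 2 with ha'
    have h6 : 6 * l ≤ l ^ 2 := by nlinarith
    have hal : ∀ k, 6 * l ≤ |a' k| := by
      intro k
      rw [ha']
      simp only
      split_ifs with hk
      · have q1 := hterm k hk
        have q2 : 0 < |a k| := abs_pos.2 (ha k hk)
        have q3 : 1 / s ≤ |a k| := by
          rw [div_le_iff₀ hs0]
          rw [div_le_iff₀ q2] at q1
          linarith
        linarith
      · rw [abs_of_nonneg (by positivity)]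
        exact h6
    have hcg : ∀ z, pc a n z = pc a' n z := fun z => pc_congr (fun k hk => by simp [ha', hk]) z
    have hse : ∑ k ∈ Finset.range n, 1 / |a' k| = s := by
      apply Finset.sum_congr rfl
      intro k hk
      simp [ha', Finset.mem_range.1 hk]
    have key := line_corr0 hl1 hal y hn hM hM hu hup hu1 hv hv'c hvp hv1 hvM hw hw'c hwp hw1 hwN
    simp_rw [← hcg] at key
    rw [hse] at key
    refine key.trans ?_
    have e1 : 1 / l = √s := by rw [hl]; field_simp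
    have e2 : l * s = √s := by
      rw [hl]
      have := Real.mul_self_sqrt hs0.le
      field_simp
      linarith
    have e3 : (2 / l) ^ (n - 1) ≤ 2 / l := by
      have q : (2 / l) ^ (n - 1) ≤ (2 / l) ^ 1 := by
        apply pow_le_pow_of_le_one (by positivity) _ (by omega)
        rw [div_le_one hl0]
        linarith
      rwa [pow_one] at q
    have e4 : 2 / l = 2 * √s := by rw [← e1]; ring
    have e5 : (13824 + 4 * M) / l = (13824 + 4 * M) * √s := by rw [← e1]; ring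
    have e6 : 8 * l * s = 8 * √s := by rw [← e2]; ring
    rw [e5, e6]
    rw [e4] at e3 ⊢
    have e7 := mul_le_mul_of_nonneg_left e3 (by positivity : 0 ≤ 4 * M)
    have e8 : 0 ≤ M * √s := by positivity
    linarith

end Pool.Agent.H52.STD
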