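import Mathlib
import Pool.Agent.H52.STD.Non2
import Pool.Agent.H52.STD.L2d

set_option autoImplicit false

/-!
# Compositions of standard maps on the torus: smooth observables
-/

namespace Pool.Agent.H52.STD

open Real MeasureTheory Function Filter Topology

/-- the composition on the torus -/
noncomputable def cs (a : ℕ → ℝ) : ℕ → T2 → T2
  | 0, p => p
  | n + 1, p => Pool.Agent.TH705.SM.S (a n) (cs a n p)

theorem cs_coe (a : ℕ → ℝ) (n : ℕ) (z : ℝ × ℝ) :
    cs a n ((z.1 : UnitAddCircle), (z.2 : UnitAddCircle)) =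
      (((pc a n z).1 : UnitAddCircle), ((pc a n z).2 : UnitAddCircle)) := by
  induction n with
  | zero => rfl
  | succ n ih =>
    show Pool.Agent.TH705.SM.S (a n) (cs a n _) = _
    rw [ih, Pool.Agent.TH705.SM.S_coe]
    rfl

theorem cs_add (a : ℕ → ℝ) (m n : ℕ) (p : T2) :
    cs a (m + n) p = cs (fun k => a (m + k)) n (cs a m p) := by
  induction n with
  | zero => rfl
  | succ n ih =>
    show Pool.Agent.TH705.SM.S (a (m + n)) (cs a (m + n) p) =
      Pool.Agent.TH705.SM.S (a (m + n)) (cs (fun k => a (m + k)) n (cs a m p))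
    rw [ih]

theorem cs_mp (a : ℕ → ℝ) (n : ℕ) : MeasurePreserving (cs a n) volume volume := by
  induction n with
  | zero => exact MeasurePreserving.id _
  | succ n ih => exact (Pool.Agent.TH705.SM.S_mp (a n)).comp ih

theorem cs_cont (a : ℕ → ℝ) (n : ℕ) : Continuous (cs a n) := by
  induction n with
  | zero => exact continuous_id
  | succ n ih => exact (Pool.Agent.TH705.SM.S_cont (a n)).comp ih

/-- the lift of a function on the torus -/
def lft (g : T2 → ℝ) (z : ℝ × ℝ) : ℝ := g ((z.1 : UnitAddCircle), (z.2 : UnitAddCircle))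

/-- continuously differentiable functions on the torus -/
def Smo (g : T2 → ℝ) : Prop := ContDiff ℝ 1 (lft g)

theorem Smo.cont {g : T2 → ℝ} (hg : Smo g) : Continuous g := by
  have h := (QuotientAddGroup.isOpenQuotientMap_mk (G := ℝ)
    (N := AddSubgroup.zmultiples (1:ℝ))).prodMap (QuotientAddGroup.isOpenQuotientMap_mk (G := ℝ)
    (N := AddSubgroup.zmultiples (1:ℝ)))
  exact h.isQuotientMap.continuous_iff.2 (ContDiff.continuous (n := 1) hg)

theorem Smo.comp_Si {g : T2 → ℝ} (hg : Smo g) (a : ℝ) :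
    Smo (fun p => g (Pool.Agent.TH705.SM.Si a p)) := by
  unfold Smo
  have e : lft (fun p => g (Pool.Agent.TH705.SM.Si a p)) =
      fun z : ℝ × ℝ => lft g (z.2, 2 * z.2 - z.1 + a * sin (2 * π * z.2)) := by
    funext z
    show g (Pool.Agent.TH705.SM.Si a ((z.1 : UnitAddCircle), (z.2 : UnitAddCircle))) = _
    rw [Pool.Agent.TH705.SM.Si_coe]
    rfl
  rw [e]
  have h : ContDiff ℝ 1 (lft g) := hg
  exact h.comp (by fun_prop)

/-- transport of a smooth function -/
theorem transport (a : ℕ → ℝ) {g : T2 → ℝ} (hg : Smo g) (hb : ∀ p, |g p| ≤ 1) (m : ℕ) :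
    ∃ g' : T2 → ℝ, Smo g' ∧ (∀ p, |g' p| ≤ 1) ∧ ∀ p, g' (cs a m p) = g p := by
  induction m with
  | zero => exact ⟨g, hg, hb, fun p => rfl⟩
  | succ m ih =>
    obtain ⟨g', h1, h2, h3⟩ := ih
    refine ⟨fun p => g' (Pool.Agent.TH705.SM.Si (a m) p), h1.comp_Si (a m), fun p => h2 _, ?_⟩
    intro p
    show g' (Pool.Agent.TH705.SM.Si (a m) (Pool.Agent.TH705.SM.S (a m) (cs a m p))) = g p
    rw [Pool.Agent.TH705.SM.Si_S, h3]

theorem coe_add_int (x : ℝ) (n : ℤ) : ((x + n : ℝ) : UnitAddCircle) = (x : UnitAddCircle) := by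
  rw [AddCircle.coe_add]
  have : ((n : ℝ) : UnitAddCircle) = 0 := by
    have h := AddCircle.coe_eq_zero_iff (1:ℝ) (x := (n : ℝ))
    rw [h]
    exact ⟨n, by simp⟩
  rw [this, add_zero]

theorem lft_per (g : T2 → ℝ) (z : ℝ × ℝ) (i j : ℤ) : lft g (z + ((i:ℝ), (j:ℝ))) = lft g z := by
  unfold lft
  simp only [Prod.fst_add, Prod.snd_add]
  rw [coe_add_int, coe_add_int]

/-- the derivative along the line -/
noncomputable def lw (g : T2 → ℝ) (y t : ℝ) : ℝ := fderiv ℝ (lft g) (t, y) (1, 0)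

theorem lw_hasDeriv {g : T2 → ℝ} (hg : Smo g) (y t : ℝ) :
    HasDerivAt (fun t => lft g (t, y)) (lw g y t) t := by
  have h1 : HasFDerivAt (lft g) (fderiv ℝ (lft g) (t, y)) (t, y) :=
    (ContDiff.differentiable hg one_ne_zero (t, y)).hasFDerivAt
  have h2 : HasDerivAt (fun t : ℝ => (t, y)) ((1:ℝ), (0:ℝ)) t :=
    (hasDerivAt_id t).prodMk (hasDerivAt_const t y)
  exact h1.comp_hasDerivAt t h2

theorem lw_cont {g : T2 → ℝ} (hg : Smo g) : Continuous (fun z : ℝ × ℝ => lw g z.2 z.1) := by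
  have h1 : Continuous (fderiv ℝ (lft g)) := ContDiff.continuous_fderiv hg one_ne_zero
  unfold lw
  fun_prop

theorem lw_per (g : T2 → ℝ) (y t : ℝ) (i j : ℤ) : lw g (y + j) (t + i) = lw g y t := by
  unfold lw
  have h := fderiv_comp_add_right (𝕜 := ℝ) (f := lft g) (x := (t, y)) ((i:ℝ), (j:ℝ))
  have e : (fun x => lft g (x + ((i:ℝ), (j:ℝ)))) = lft g := funext fun z => lft_per g z i j
  rw [e] at h
  rw [h]
  rfl

theorem lw_bdd {g : T2 → ℝ} (hg : Smo g) : ∃ N : ℝ, 0 ≤ N ∧ ∀ y t, |lw g y t| ≤ N := by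
  have hc : IsCompact (Set.Icc (0:ℝ) 1 ×ˢ Set.Icc (0:ℝ) 1) := isCompact_Icc.prod isCompact_Icc
  obtain ⟨N, hN⟩ := hc.exists_bound_of_continuousOn (lw_cont hg).continuousOn
  refine ⟨max N 0, le_max_right _ _, fun y t => ?_⟩
  have e := lw_per g (Int.fract y) (Int.fract t) ⌊t⌋ ⌊y⌋
  rw [Int.fract_add_floor, Int.fract_add_floor] at e
  rw [e]
  have h := hN (Int.fract t, Int.fract y) ⟨⟨Int.fract_nonneg _, (Int.fract_lt_one _).le⟩,
    ⟨Int.fract_nonneg _, (Int.fract_lt_one _).le⟩⟩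
  rw [norm_eq_abs] at h
  exact h.trans (le_max_left _ _)

theorem circle_int (f : UnitAddCircle → ℝ) :
    ∫ x : UnitAddCircle, f x = ∫ t in (0:ℝ)..1, f (t : UnitAddCircle) := by
  have h := UnitAddCircle.intervalIntegral_preimage 0 f
  rw [zero_add] at h
  exact h.symm

/-- correlations on the torus, large coefficients -/
theorem torus_corr {a : ℕ → ℝ} {l σ : ℝ} (hl : 1728 ≤ l) (ha : ∀ k, 6 * l ≤ |a k|)
    (hσ : ∀ n, ∑ k ∈ Finset.range n, 1 / |a k| ≤ σ) {n : ℕ} (hn : 2 ≤ n)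
    {f h : UnitAddCircle → ℝ} (hf : Sm1 f) (hh : Sm1 h) {M N : ℝ} (hM : 0 ≤ M) (hN : 0 ≤ N)
    (hhM : ∀ x, |deriv (fun t : ℝ => h (t : UnitAddCircle)) x| ≤ M)
    {g : T2 → ℝ} (hg : Smo g) (hg1 : ∀ p, |g p| ≤ 1) (hgN : ∀ y t, |lw g y t| ≤ N) :
    |(∫ p : T2, f (cs a n p).1 * h (cs a n p).2 * g p) - (∫ x, f x) * (∫ x, h x) * ∫ p, g p| ≤
      (13824 + 4 * M) / l + 4 * N * (2 / l) ^ (n - 1) + 8 * l * σ := by
  have hl0 : 0 < l := by linarith
  have hcs := cs_cont a n
  have c1 : Continuous (fun p : T2 => f (cs a n p).1 * h (cs a n p).2 * g p) :=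
    ((hf.cont.comp (continuous_fst.comp hcs)).mul (hh.cont.comp (continuous_snd.comp hcs))).mul
      hg.cont
  rw [Pool.Agent.TH705.SM.int_T2 _ (Pool.Agent.TH705.SM.integrable_cont c1),
    Pool.Agent.TH705.SM.int_T2 _ (Pool.Agent.TH705.SM.integrable_cont hg.cont),
    circle_int f, circle_int h]
  set fb := ∫ t in (0:ℝ)..1, f (t : UnitAddCircle) with hfb
  set hb := ∫ t in (0:ℝ)..1, h (t : UnitAddCircle) with hhb
  set err := (13824 + 4 * M) / l + 4 * N * (2 / l) ^ (n - 1) + 8 * l * σ with herr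
  have mkc : Continuous (fun z : ℝ × ℝ => (((z.2 : UnitAddCircle), (z.1 : UnitAddCircle)) : T2)) :=
    ((AddCircle.continuous_mk' 1).comp continuous_snd).prodMk
      ((AddCircle.continuous_mk' 1).comp continuous_fst)
  have c2 : Continuous (fun s : ℝ => ∫ t in (0:ℝ)..1,
      (fun p : T2 => f (cs a n p).1 * h (cs a n p).2 * g p)
        ((t : UnitAddCircle), (s : UnitAddCircle))) :=
    intervalIntegral.continuous_parametric_intervalIntegral_of_continuous'
      (f := fun s t : ℝ => (fun p : T2 => f (cs a n p).1 * h (cs a n p).2 * g p)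
        ((t : UnitAddCircle), (s : UnitAddCircle))) (c1.comp mkc) 0 1
  have c3 : Continuous (fun s : ℝ => ∫ t in (0:ℝ)..1,
      g ((t : UnitAddCircle), (s : UnitAddCircle))) :=
    intervalIntegral.continuous_parametric_intervalIntegral_of_continuous'
      (f := fun s t : ℝ => g ((t : UnitAddCircle), (s : UnitAddCircle))) (hg.cont.comp mkc) 0 1
  have c4 : Continuous (fun s : ℝ => fb * hb * ∫ t in (0:ℝ)..1,
      g ((t : UnitAddCircle), (s : UnitAddCircle))) := continuous_const.mul c3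
  have e0 : ∫ s in (0:ℝ)..1, ((∫ t in (0:ℝ)..1,
      (fun p : T2 => f (cs a n p).1 * h (cs a n p).2 * g p)
        ((t : UnitAddCircle), (s : UnitAddCircle))) - fb * hb *
        ∫ t in (0:ℝ)..1, g ((t : UnitAddCircle), (s : UnitAddCircle))) =
      (∫ s in (0:ℝ)..1, ∫ t in (0:ℝ)..1,
      (fun p : T2 => f (cs a n p).1 * h (cs a n p).2 * g p)
        ((t : UnitAddCircle), (s : UnitAddCircle))) - fb * hb * ∫ s in (0:ℝ)..1,
        ∫ t in (0:ℝ)..1, g ((t : UnitAddCircle), (s : UnitAddCircle)) := by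
    rw [intervalIntegral.integral_sub (c2.intervalIntegrable _ _) (c4.intervalIntegrable _ _),
      intervalIntegral.integral_const_mul]
  have key : ∀ s : ℝ, ‖(∫ t in (0:ℝ)..1, (fun p : T2 => f (cs a n p).1 * h (cs a n p).2 * g p)
      ((t : UnitAddCircle), (s : UnitAddCircle))) - fb * hb *
        ∫ t in (0:ℝ)..1, g ((t : UnitAddCircle), (s : UnitAddCircle))‖ ≤ err := by
    intro s
    rw [norm_eq_abs]
    have h1 := line_corr0 hl ha s hn (u := fun t : ℝ => f (t : UnitAddCircle))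
      (v := fun t : ℝ => h (t : UnitAddCircle)) (w := fun t : ℝ => lft g (t, s))
      (w' := lw g s) hM hN
      hf.smooth.continuous (per1 f) (fun x => hf.bound _)
      (fun x => ((hh.smooth.differentiable one_ne_zero) x).hasDerivAt)
      (hh.smooth.continuous_deriv le_rfl) (per1 h) (fun x => hh.bound _) hhM
      (fun x => lw_hasDeriv hg s x)
      ((lw_cont hg).comp (f := fun t : ℝ => ((t, s) : ℝ × ℝ)) (by fun_prop))
      (fun x => by
        have := lft_per g (x, s) 1 0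
        simpa using this)
      (fun x => hg1 _) (fun x => hgN s x)
    have e : ∫ t in (0:ℝ)..1, (fun p : T2 => f (cs a n p).1 * h (cs a n p).2 * g p)
        ((t : UnitAddCircle), (s : UnitAddCircle)) =
        ∫ t in (0:ℝ)..1, (fun t : ℝ => f (t : UnitAddCircle)) (pc a n (t, s)).1 *
          (fun t : ℝ => h (t : UnitAddCircle)) (pc a n (t, s)).2 * lft g (t, s) := by
      apply intervalIntegral.integral_congr
      intro t _
      simp only
      rw [cs_coe a n (t, s)]
      rfl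
    rw [e]
    refine h1.trans ?_
    rw [herr]
    have := mul_le_mul_of_nonneg_left (hσ n) (by positivity : 0 ≤ 8 * l)
    linarith
  have h2 := intervalIntegral.norm_integral_le_of_norm_le_const (a := 0) (b := 1)
    (f := fun s => (∫ t in (0:ℝ)..1, (fun p : T2 => f (cs a n p).1 * h (cs a n p).2 * g p)
      ((t : UnitAddCircle), (s : UnitAddCircle))) - fb * hb *
        ∫ t in (0:ℝ)..1, g ((t : UnitAddCircle), (s : UnitAddCircle))) (fun s _ => key s)
  rw [norm_eq_abs, sub_zero, abs_one, mul_one, e0] at h2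
  exact h2

end Pool.Agent.H52.STD
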