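import Mathlib
import Pool.Agent.H52.STD.Non3

set_option autoImplicit false

/-!
# Compositions of standard maps: mixing and the law of large numbers
-/

namespace Pool.Agent.H52.STD

open Real MeasureTheory Function Filter Topology

/-- the standing assumption -/
structure Inc (a : ℕ → ℝ) : Prop where
  s : Summable fun k => 1 / |a k|
  ne : ∀ᶠ k in atTop, a k ≠ 0

/-- the shifted sequence -/
def sh (a : ℕ → ℝ) (m : ℕ) : ℕ → ℝ := fun k => a (m + k)

theorem Inc.large {a : ℕ → ℝ} (h : Inc a) (l : ℝ) : ∀ᶠ k in atTop, l ≤ |a k| := by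
  have h0 := h.s.tendsto_atTop_zero
  set l' := max l 1 with hl'
  have hl0 : 0 < l' := lt_of_lt_of_le one_pos (le_max_right _ _)
  have h1 : ∀ᶠ k in atTop, 1 / |a k| < 1 / l' := by
    have := (tendsto_order.1 h0).2 (1 / l') (by positivity)
    exact this
  filter_upwards [h1, h.ne] with k hk hne
  have hp : 0 < |a k| := abs_pos.2 hne
  rw [div_lt_div_iff₀ hp hl0, one_mul, one_mul] at hk
  exact (le_max_left _ _).trans hk.le

theorem Inc.tail {a : ℕ → ℝ} (h : Inc a) {δ : ℝ} (hδ : 0 < δ) :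
    ∀ᶠ m in atTop, ∀ n, ∑ k ∈ Finset.range n, 1 / |sh a m k| ≤ δ := by
  have h0 := tendsto_sum_nat_add (fun k => 1 / |a k|)
  have h1 := (tendsto_order.1 h0).2 δ hδ
  filter_upwards [h1] with m hm n
  have hs : Summable fun k => 1 / |a (k + m)| := (summable_nat_add_iff m).2 h.s
  have h2 := hs.sum_le_tsum (Finset.range n) (fun i _ => by positivity)
  have e : ∑ k ∈ Finset.range n, 1 / |sh a m k| = ∑ k ∈ Finset.range n, 1 / |a (k + m)| := by
    apply Finset.sum_congr rfl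
    intro k _
    unfold sh
    rw [add_comm]
  rw [e]
  exact h2.trans hm.le

section

variable {a : ℕ → ℝ} {f h : UnitAddCircle → ℝ}

theorem deriv_bdd (hh : Sm1 h) : ∃ M : ℝ, 0 ≤ M ∧
    ∀ x, |deriv (fun t : ℝ => h (t : UnitAddCircle)) x| ≤ M := by
  have hc : Continuous (deriv fun t : ℝ => h (t : UnitAddCircle)) :=
    hh.smooth.continuous_deriv le_rfl
  have hp : Periodic (deriv fun t : ℝ => h (t : UnitAddCircle)) 1 := by
    intro t
    have h1 : (fun t : ℝ => h ((t + 1 : ℝ) : UnitAddCircle)) = fun t : ℝ => h (t : UnitAddCircle) :=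
      funext (per1 h)
    have h2 := deriv_comp_add_const (fun t : ℝ => h (t : UnitAddCircle)) 1 t
    rw [h1] at h2
    exact h2.symm
  obtain ⟨M, hM⟩ := (isCompact_Icc (a := (0:ℝ)) (b := 1)).exists_bound_of_continuousOn
    hc.continuousOn
  refine ⟨max M 0, le_max_right _ _, fun x => ?_⟩
  have e := hp.int_mul ⌊x⌋ (Int.fract x)
  rw [mul_one, Int.fract_add_floor] at e
  rw [e]
  have h1 := hM (Int.fract x) ⟨Int.fract_nonneg _, (Int.fract_lt_one _).le⟩
  rw [norm_eq_abs] at h1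
  exact h1.trans (le_max_left _ _)

theorem lemA (ha : Inc a) (hf : Sm1 f) (hh : Sm1 h) {ε : ℝ} (hε : 0 < ε) :
    ∃ (l : ℝ) (m₀ : ℕ), 1728 ≤ l ∧ ∀ m, m₀ ≤ m → ∀ g : T2 → ℝ, Smo g → (∀ p, |g p| ≤ 1) →
      ∀ N : ℝ, 0 ≤ N → (∀ y t, |lw g y t| ≤ N) → ∀ n, 2 ≤ n →
      |(∫ p : T2, f (cs (sh a m) n p).1 * h (cs (sh a m) n p).2 * g p) -
        (∫ x, f x) * (∫ x, h x) * ∫ p, g p| ≤ ε + 4 * N * (2 / l) ^ (n - 1) := by
  obtain ⟨M, hM0, hM⟩ := deriv_bdd hh
  set l : ℝ := max 1728 ((13824 + 4 * M) / (ε / 2)) with hl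
  have hl1 : 1728 ≤ l := le_max_left _ _
  have hl0 : 0 < l := by linarith
  have h1 := (ha.large (6 * l)).and (ha.tail (δ := ε / 2 / (8 * l)) (by positivity))
  obtain ⟨m₀, hm₀⟩ := eventually_atTop.1 h1
  refine ⟨l, m₀, hl1, ?_⟩
  intro m hm g hg hg1 N hN0 hN n hn
  have hlarge : ∀ k, 6 * l ≤ |sh a m k| := fun k => (hm₀ (m + k) (by omega)).1
  have htail := (hm₀ m hm).2
  have key := torus_corr hl1 hlarge htail hn hf hh hM0 hN0 hM hg hg1 hN
  refine key.trans ?_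
  have e1 : (13824 + 4 * M) / l ≤ ε / 2 := by
    rw [div_le_iff₀ hl0]
    have : (13824 + 4 * M) / (ε / 2) ≤ l := le_max_right _ _
    rw [div_le_iff₀ (by positivity)] at this
    linarith
  have e2 : 8 * l * (ε / 2 / (8 * l)) = ε / 2 := by field_simp
  rw [e2]
  linarith

theorem pow_small {l N ε : ℝ} (hl : 1728 ≤ l) (hN : 0 ≤ N) (hε : 0 < ε) :
    ∃ n₀ : ℕ, 2 ≤ n₀ ∧ ∀ n, n₀ ≤ n → 4 * N * (2 / l) ^ (n - 1) ≤ ε := by
  have hl0 : 0 < l := by linarith
  have h1 : 2 / l < 1 := by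
    rw [div_lt_one hl0]
    linarith
  have h2 : Tendsto (fun n : ℕ => 4 * N * (2 / l) ^ n) atTop (𝓝 (4 * N * 0)) :=
    (tendsto_pow_atTop_nhds_zero_of_lt_one (by positivity) h1).const_mul _
  rw [mul_zero] at h2
  obtain ⟨n₁, hn₁⟩ := eventually_atTop.1 ((tendsto_order.1 h2).2 ε hε)
  refine ⟨n₁ + 2, by omega, fun n hn => (hn₁ (n - 1) (by omega)).le⟩

theorem int_cs (b : ℕ → ℝ) (m : ℕ) {F : T2 → ℝ} (hF : AEStronglyMeasurable F volume) :
    ∫ p, F (cs b m p) = ∫ p, F p := by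
  have hmp := cs_mp b m
  have h1 : ∫ y, F y ∂(Measure.map (cs b m) volume) = ∫ p, F (cs b m p) :=
    integral_map hmp.measurable.aemeasurable (by rw [hmp.map_eq]; exact hF)
  rw [← h1, hmp.map_eq]

theorem lemB (ha : Inc a) (hf : Sm1 f) (hh : Sm1 h) {g : T2 → ℝ} (hg : Smo g)
    (hg1 : ∀ p, |g p| ≤ 1) {ε : ℝ} (hε : 0 < ε) : ∃ N₀ : ℕ, ∀ m n : ℕ, N₀ ≤ n →
      |(∫ p : T2, f (cs (sh a m) n p).1 * h (cs (sh a m) n p).2 * g p) -
        (∫ x, f x) * (∫ x, h x) * ∫ p, g p| ≤ ε := by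
  obtain ⟨l, m₀, hl, hA⟩ := lemA ha hf hh (ε := ε / 2) (by positivity)
  -- the start after `m₀`
  obtain ⟨N, hN0, hN⟩ := lw_bdd hg
  obtain ⟨n₀, hn₀2, hn₀⟩ := pow_small hl hN0 (ε := ε / 2) (by positivity)
  -- the start before `m₀`
  have hB : ∀ m, ∃ N₁ : ℕ, m < m₀ → ∀ n, N₁ ≤ n →
      |(∫ p : T2, f (cs (sh a m) n p).1 * h (cs (sh a m) n p).2 * g p) -
        (∫ x, f x) * (∫ x, h x) * ∫ p, g p| ≤ ε := by
    intro m
    by_cases hm : m < m₀
    · obtain ⟨d, hd⟩ : ∃ d, m₀ = m + d := ⟨m₀ - m, by omega⟩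
      obtain ⟨g', hg', hg'1, hg'2⟩ := transport (sh a m) hg hg1 d
      obtain ⟨N', hN'0, hN'⟩ := lw_bdd hg'
      obtain ⟨n₁, hn₁2, hn₁⟩ := pow_small hl hN'0 (ε := ε / 2) (by positivity)
      refine ⟨d + n₁, fun _ n hn => ?_⟩
      obtain ⟨k, rfl⟩ : ∃ k, n = d + k := ⟨n - d, by omega⟩
      have hk : n₁ ≤ k := by omega
      have e1 : ∀ p, cs (sh a m) (d + k) p = cs (sh a m₀) k (cs (sh a m) d p) := by
        intro p
        rw [cs_add]
        congr 2
        funext j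
        show a (m + (d + j)) = a (m₀ + j)
        rw [hd, add_assoc]
      have e2 : ∫ p : T2, f (cs (sh a m) (d + k) p).1 * h (cs (sh a m) (d + k) p).2 * g p =
          ∫ p : T2, f (cs (sh a m₀) k p).1 * h (cs (sh a m₀) k p).2 * g' p := by
        rw [← int_cs (sh a m) d (F := fun p => f (cs (sh a m₀) k p).1 *
          h (cs (sh a m₀) k p).2 * g' p)]
        · congr 1
          funext p
          rw [e1, hg'2]
        · have hcs := cs_cont (sh a m₀) k
          exact (((hf.cont.comp (continuous_fst.comp hcs)).mul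
            (hh.cont.comp (continuous_snd.comp hcs))).mul hg'.cont).aestronglyMeasurable
      have e3 : ∫ p, g p = ∫ p, g' p := by
        rw [← int_cs (sh a m) d (F := g') hg'.cont.aestronglyMeasurable]
        congr 1
        funext p
        rw [hg'2]
      rw [e2, e3]
      have h1 := hA m₀ le_rfl g' hg' hg'1 N' hN'0 hN' k (by omega)
      have h2 := hn₁ k hk
      linarith
    · exact ⟨0, fun h => absurd h hm⟩
  choose N₁ hN₁ using hB
  refine ⟨max n₀ (∑ m ∈ Finset.range m₀, N₁ m), fun m n hn => ?_⟩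
  have hn1 : n₀ ≤ n := (le_max_left _ _).trans hn
  have hn2 : ∑ m ∈ Finset.range m₀, N₁ m ≤ n := (le_max_right _ _).trans hn
  rcases Nat.lt_or_ge m m₀ with hm | hm
  · exact hN₁ m hm n ((Finset.single_le_sum (f := N₁) (fun i _ => Nat.zero_le _)
      (Finset.mem_range.2 hm)).trans hn2)
  · have h1 := hA m hm g hg hg1 N hN0 hN n (by omega)
    have h2 := hn₀ n hn1
    linarith

end

theorem smo_prod {g h : UnitAddCircle → ℝ} (hg : Sm1 g) (hh : Sm1 h) :
    Smo (fun p : T2 => g p.1 * h p.2) := by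
  unfold Smo
  have h1 : ContDiff ℝ 1 (fun z : ℝ × ℝ => g ((z.1 : ℝ) : UnitAddCircle)) :=
    hg.smooth.comp contDiff_fst
  have h2 : ContDiff ℝ 1 (fun z : ℝ × ℝ => h ((z.2 : ℝ) : UnitAddCircle)) :=
    hh.smooth.comp contDiff_snd
  exact h1.mul h2

/-- **mixing, uniformly in the starting time** -/
theorem mixing {a : ℕ → ℝ} (ha : Inc a) {u v : T2 → ℝ} (hu : MemLp u 2 volume)
    (hv : MemLp v 2 volume) {ε : ℝ} (hε : 0 < ε) : ∃ N : ℕ, ∀ m n : ℕ, N ≤ n →
      |(∫ p : T2, u (cs (sh a m) n p) * v p) - (∫ p, u p) * ∫ p, v p| ≤ ε := by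
  have key := corr_all (ι := ℕ × ℕ) (τ := fun i => cs (sh a i.1) i.2)
    (fun i => cs_mp (sh a i.1) i.2) (𝓕 := comap Prod.snd atTop) (by
      rintro f ⟨f1, f2, hf1, hf2, ef⟩ g ⟨g1, g2, hg1, hg2, eg⟩
      rw [Metric.tendsto_nhds]
      intro δ hδ
      have hgs : (g : T2 → ℝ) = fun p : T2 => g1 p.1 * g2 p.2 := funext eg
      have hb : ∀ p : T2, |g1 p.1 * g2 p.2| ≤ 1 := by
        intro p
        rw [abs_mul]
        exact mul_le_one₀ (hg1.bound _) (abs_nonneg _) (hg2.bound _)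
      obtain ⟨N₀, hN₀⟩ := lemB ha hf1 hf2 (smo_prod hg1 hg2) hb (ε := δ / 2) (by positivity)
      rw [eventually_comap, eventually_atTop]
      refine ⟨N₀, fun n hn i hi => ?_⟩
      obtain ⟨m, n'⟩ := i
      simp only at hi
      subst hi
      have h1 := hN₀ m n' hn
      rw [Real.dist_eq]
      have e1 : (∫ p : T2, f p) = (∫ x, f1 x) * ∫ x, f2 x := by
        simp_rw [ef]
        exact integral_prod_mul f1 f2
      rw [e1]
      simp_rw [ef, hgs]
      linarith) hu hv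
  rw [Metric.tendsto_nhds] at key
  have h1 := key ε hε
  rw [eventually_comap, eventually_atTop] at h1
  obtain ⟨N, hN⟩ := h1
  refine ⟨N, fun m n hn => ?_⟩
  have h2 := hN n hn (m, n) rfl
  rw [Real.dist_eq] at h2
  exact h2.le

end Pool.Agent.H52.STD
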