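import Mathlib
import Pool.Agent.H52.STD.Non4

set_option autoImplicit false

/-!
# Compositions of standard maps: the mean ergodic theorem and growth almost everywhere
-/

namespace Pool.Agent.H52.STD

open Real MeasureTheory Function Filter Topology

section lln

variable {a : ℕ → ℝ} {u : T2 → ℝ}

/-- centred values -/
noncomputable def GG (a : ℕ → ℝ) (u : T2 → ℝ) (k : ℕ) (p : T2) : ℝ := u (cs a k p) - ∫ q, u q

theorem GG_memLp (hu : MemLp u 2 volume) (k : ℕ) : MemLp (GG a u k) 2 volume :=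
  (hu.comp_measurePreserving (cs_mp a k)).sub (memLp_const _)

theorem GG_corr (hu : MemLp u 2 volume) (i d : ℕ) :
    ∫ p, GG a u (i + d) p * GG a u i p =
      (∫ p : T2, u (cs (sh a i) d p) * u p) - (∫ p, u p) * ∫ p, u p := by
  set c := ∫ q, u q with hc
  have h1 : MemLp (fun p => u (cs a (i + d) p)) 2 volume := hu.comp_measurePreserving (cs_mp a _)
  have h2 : MemLp (fun p => u (cs a i p)) 2 volume := hu.comp_measurePreserving (cs_mp a _)
  have j1 : Integrable (fun p => u (cs a (i + d) p) * u (cs a i p)) := h1.integrable_mul h2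
  have j2 : Integrable (fun p => u (cs a (i + d) p)) := h1.integrable (by norm_num)
  have j3 : Integrable (fun p => u (cs a i p)) := h2.integrable (by norm_num)
  have e1 : ∫ p, GG a u (i + d) p * GG a u i p =
      (∫ p, u (cs a (i + d) p) * u (cs a i p)) - c * (∫ p, u (cs a (i + d) p)) -
        c * (∫ p, u (cs a i p)) + c * c := by
    have e : ∀ p, GG a u (i + d) p * GG a u i p = u (cs a (i + d) p) * u (cs a i p) -
        c * u (cs a (i + d) p) - c * u (cs a i p) + c * c := by
      intro p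
      unfold GG
      rw [← hc]
      ring
    simp_rw [e]
    rw [integral_add, integral_sub, integral_sub, integral_const_mul, integral_const_mul]
    · simp
    · exact j1
    · exact j2.const_mul c
    · exact j1.sub (j2.const_mul c)
    · exact j3.const_mul c
    · exact (j1.sub (j2.const_mul c)).sub (j3.const_mul c)
    · exact integrable_const _
  have e2 : ∀ k, ∫ p, u (cs a k p) = c := fun k => int_cs a k hu.1
  have e3 : ∫ p, u (cs a (i + d) p) * u (cs a i p) = ∫ p : T2, u (cs (sh a i) d p) * u p := by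
    rw [← int_cs a i (F := fun p => u (cs (sh a i) d p) * u p)]
    · congr 1
      funext p
      rw [cs_add]
      rfl
    · exact (hu.comp_measurePreserving (cs_mp (sh a i) d)).1.mul hu.1
  rw [e1, e2, e2, e3]
  ring

theorem GG_bound (hu : MemLp u 2 volume) : ∃ D : ℝ, 0 ≤ D ∧
    ∀ i j, |∫ p, GG a u i p * GG a u j p| ≤ D := by
  refine ⟨2 * ‖hu.toLp u‖ * ‖hu.toLp u‖, by positivity, ?_⟩
  have key : ∀ i d, |∫ p, GG a u (i + d) p * GG a u i p| ≤ 2 * ‖hu.toLp u‖ * ‖hu.toLp u‖ := by
    intro i d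
    rw [GG_corr hu]
    have h1 := BB_eq (ι := Unit) (τ := fun _ => cs (sh a i) d) (fun _ => cs_mp (sh a i) d) () hu hu
    have h2 := BB_bound (ι := Unit) (τ := fun _ => cs (sh a i) d) (fun _ => cs_mp (sh a i) d) ()
      (hu.toLp u) (hu.toLp u)
    rwa [h1] at h2
  intro i j
  rcases le_total i j with h | h
  · obtain ⟨d, rfl⟩ := Nat.exists_eq_add_of_le h
    have e : ∫ p, GG a u i p * GG a u (i + d) p = ∫ p, GG a u (i + d) p * GG a u i p := by
      congr 1
      funext p
      ring
    rw [e]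
    exact key i d
  · obtain ⟨d, rfl⟩ := Nat.exists_eq_add_of_le h
    exact key j d

theorem near_card (n N i : ℕ) :
    ((Finset.range n).filter fun j => i < j + N ∧ j < i + N).card ≤ 2 * N := by
  have h1 : ((Finset.range n).filter fun j => i < j + N ∧ j < i + N) ⊆
      Finset.Ico (i + 1 - N) (i + N) := by
    intro j hj
    rw [Finset.mem_filter] at hj
    rw [Finset.mem_Ico]
    omega
  have h2 := Finset.card_le_card h1
  rw [Nat.card_Ico] at h2
  omega

/-- **the mean ergodic theorem** -/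
theorem lln (ha : Inc a) (hu : MemLp u 2 volume) :
    Tendsto (fun n : ℕ => ∫ p : T2, ((1 / (n : ℝ)) * ∑ k ∈ Finset.range n, u (cs a k p) -
      ∫ q, u q) ^ 2) atTop (𝓝 0) := by
  obtain ⟨D, hD0, hD⟩ := GG_bound (a := a) hu
  have hsq : ∀ n : ℕ, 1 ≤ n → ∫ p : T2, ((1 / (n : ℝ)) * ∑ k ∈ Finset.range n, u (cs a k p) -
      ∫ q, u q) ^ 2 = (1 / (n : ℝ)) ^ 2 * ∑ i ∈ Finset.range n, ∑ j ∈ Finset.range n,
        ∫ p, GG a u i p * GG a u j p := by
    intro n hn
    have hn0 : (n : ℝ) ≠ 0 := by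
      have : (0:ℝ) < n := by exact_mod_cast hn
      exact this.ne'
    have e1 : ∀ p, ((1 / (n : ℝ)) * ∑ k ∈ Finset.range n, u (cs a k p) - ∫ q, u q) ^ 2 =
        (1 / (n : ℝ)) ^ 2 * ∑ i ∈ Finset.range n, ∑ j ∈ Finset.range n,
          GG a u i p * GG a u j p := by
      intro p
      rw [← Finset.sum_mul_sum, ← sq, ← mul_pow]
      congr 1
      unfold GG
      rw [Finset.sum_sub_distrib, Finset.sum_const, Finset.card_range, nsmul_eq_mul]
      field_simp
    simp_rw [e1]
    have hint : ∀ i j, Integrable (fun p => GG a u i p * GG a u j p) := fun i j =>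
      (GG_memLp hu i).integrable_mul (GG_memLp hu j)
    rw [integral_const_mul, integral_finsetSum _ (fun i _ => integrable_finsetSum _
      fun j _ => hint i j)]
    congr 1
    apply Finset.sum_congr rfl
    intro i _
    rw [integral_finsetSum _ (fun j _ => hint i j)]
  rw [Metric.tendsto_nhds]
  intro ε hε
  obtain ⟨N, hN⟩ := mixing ha hu hu (ε := ε / 2) (by positivity)
  have hfar : ∀ i j, ¬ (i < j + N ∧ j < i + N) → |∫ p, GG a u i p * GG a u j p| ≤ ε / 2 := by
    intro i j hij
    rcases le_total i j with h | h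
    · obtain ⟨d, rfl⟩ := Nat.exists_eq_add_of_le h
      have hd : N ≤ d := by
        by_contra hcon
        apply hij
        omega
      have e : ∫ p, GG a u i p * GG a u (i + d) p = ∫ p, GG a u (i + d) p * GG a u i p := by
        congr 1
        funext p
        ring
      rw [e, GG_corr hu]
      exact hN i d hd
    · obtain ⟨d, rfl⟩ := Nat.exists_eq_add_of_le h
      have hd : N ≤ d := by
        by_contra hcon
        apply hij
        omega
      rw [GG_corr hu]
      exact hN j d hd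
  have hlim : Tendsto (fun n : ℕ => 2 * N * D / (n : ℝ)) atTop (𝓝 0) :=
    tendsto_const_div_atTop_nhds_zero_nat _
  have h3 := (tendsto_order.1 hlim).2 (ε / 2) (by positivity)
  filter_upwards [h3, eventually_ge_atTop 1] with n hn hn1
  have hn0 : (0:ℝ) < n := by exact_mod_cast hn1
  rw [dist_zero_right, norm_eq_abs, abs_of_nonneg (integral_nonneg fun p => sq_nonneg _),
    hsq n hn1]
  have h4 : ∀ i ∈ Finset.range n, ∑ j ∈ Finset.range n, ∫ p, GG a u i p * GG a u j p ≤
      n * (ε / 2) + 2 * N * D := by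
    intro i _
    have h5 : ∀ j ∈ Finset.range n, ∫ p, GG a u i p * GG a u j p ≤
        ε / 2 + (if i < j + N ∧ j < i + N then D else 0) := by
      intro j _
      split_ifs with hc
      · have := (le_abs_self _).trans (hD i j)
        linarith
      · have := (le_abs_self _).trans (hfar i j hc)
        linarith
    refine (Finset.sum_le_sum h5).trans ?_
    rw [Finset.sum_add_distrib, Finset.sum_const, Finset.card_range, nsmul_eq_mul,
      ← Finset.sum_filter, Finset.sum_const, nsmul_eq_mul]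
    have h6 : (((Finset.range n).filter fun j => i < j + N ∧ j < i + N).card : ℝ) ≤ 2 * N := by
      exact_mod_cast near_card n N i
    have h7 := mul_le_mul_of_nonneg_right h6 hD0
    linarith
  have h8 := Finset.sum_le_sum h4
  rw [Finset.sum_const, Finset.card_range, nsmul_eq_mul] at h8
  calc (1 / (n : ℝ)) ^ 2 * ∑ i ∈ Finset.range n, ∑ j ∈ Finset.range n,
        ∫ p, GG a u i p * GG a u j p
      ≤ (1 / (n : ℝ)) ^ 2 * (n * (n * (ε / 2) + 2 * N * D)) :=
        mul_le_mul_of_nonneg_left h8 (by positivity)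
    _ = ε / 2 + 2 * N * D / n := by field_simp
    _ < ε := by linarith

end lln

section growthae

/-- the derivative of the composition -/
theorem pc_deriv (a : ℕ → ℝ) (z : ℝ × ℝ) (n : ℕ) :
    HasFDerivAt (pc a n) (fderiv ℝ (pc a n) z) z ∧
    fderiv ℝ (pc a (n + 1)) z = (pmD (a n) (pc a n z)).comp (fderiv ℝ (pc a n) z) := by
  have hd : ∀ m, Differentiable ℝ (pc a m) := by
    intro m
    induction m with
    | zero => exact differentiable_id
    | succ m ih =>
      intro w
      exact ((pm_hasF (a m) (pc a m w)).differentiableAt).comp w (ih w)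
  have h1 := (hd n z).hasFDerivAt
  refine ⟨h1, ?_⟩
  exact ((pm_hasF (a n) (pc a n z)).comp z h1).fderiv

theorem pc_surj (a : ℕ → ℝ) (z : ℝ × ℝ) (n : ℕ) (w : ℝ × ℝ) :
    ∃ v, fderiv ℝ (pc a n) z v = w := by
  induction n generalizing w with
  | zero =>
    refine ⟨w, ?_⟩
    have : pc a 0 = id := rfl
    rw [this, fderiv_id]
    rfl
  | succ n ih =>
    obtain ⟨v, hv⟩ := ih (w.2, L (a n) (pc a n z).1 * w.2 - w.1)
    refine ⟨v, ?_⟩
    rw [(pc_deriv a z n).2, ContinuousLinearMap.comp_apply, hv, pmD_apply]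
    ext
    · simp
    · simp

/-- growth after the time `m` -/
theorem pc_grow {a : ℕ → ℝ} {z : ℝ × ℝ} {m : ℕ} {l : ℕ → ℝ} (hl : ∀ k, 16 ≤ l k)
    (h : ∀ k, m ≤ k → l k ≤ |L (a k) (pc a k z).1|) {v : ℝ × ℝ}
    (hv : fderiv ℝ (pc a m) z v = (1, 0)) (n : ℕ) :
    ∏ k ∈ Finset.range n, (l (m + k) - 1) ≤ |(fderiv ℝ (pc a (m + n)) z v).1| ∧
      |(fderiv ℝ (pc a (m + n)) z v).2| ≤ |(fderiv ℝ (pc a (m + n)) z v).1| := by
  induction n with
  | zero =>
    rw [add_zero, hv]
    simp
  | succ n ih =>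
    obtain ⟨ih1, ih2⟩ := ih
    set w := fderiv ℝ (pc a (m + n)) z v with hw
    have e : fderiv ℝ (pc a (m + (n + 1))) z v = (L (a (m + n)) (pc a (m + n) z).1 * w.1 - w.2,
        w.1) := by
      rw [← add_assoc, (pc_deriv a z (m + n)).2, ContinuousLinearMap.comp_apply, ← hw, pmD_apply]
    rw [e]
    simp only
    have h1 := h (m + n) (by omega)
    have h2 := hl (m + n)
    have h3 : (l (m + n) - 1) * |w.1| ≤ |L (a (m + n)) (pc a (m + n) z).1 * w.1 - w.2| := by
      have q1 := abs_sub_abs_le_abs_sub (L (a (m + n)) (pc a (m + n) z).1 * w.1) w.2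
      rw [abs_mul] at q1
      have q2 := mul_le_mul_of_nonneg_right h1 (abs_nonneg w.1)
      linarith
    constructor
    · rw [Finset.prod_range_succ]
      have q3 := mul_le_mul_of_nonneg_right ih1 (by linarith : 0 ≤ l (m + n) - 1)
      linarith
    · have q4 := abs_nonneg w.1
      nlinarith

theorem growth_pt {a : ℕ → ℝ} {z : ℝ × ℝ} {w : ℕ → ℝ} (hw : ∀ k, 0 ≤ w k)
    (h : ∀ᶠ k in atTop, 2 * w k + 17 ≤ |L (a k) (pc a k z).1|) :
    ∀ᶠ n in atTop, ∏ k ∈ Finset.range n, w k ≤ ‖fderiv ℝ (pc a n) z‖ := by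
  obtain ⟨m, hm⟩ := eventually_atTop.1 h
  obtain ⟨v, hv⟩ := pc_surj a z m (1, 0)
  set A := ∏ k ∈ Finset.range m, w k with hA
  have hA0 : 0 ≤ A := Finset.prod_nonneg fun k _ => hw k
  have h2 : ∀ᶠ n : ℕ in atTop, A * ‖v‖ ≤ 2 ^ n :=
    (tendsto_pow_atTop_atTop_of_one_lt (by norm_num : (1:ℝ) < 2)).eventually_ge_atTop _
  obtain ⟨n₀, hn₀⟩ := eventually_atTop.1 h2
  rw [eventually_atTop]
  refine ⟨m + n₀, fun n hn => ?_⟩
  obtain ⟨d, rfl⟩ : ∃ d, n = m + d := ⟨n - m, by omega⟩
  have hg := (pc_grow (l := fun k => 2 * w k + 17) (fun k => by linarith [hw k]) hm hv d).1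
  have h3 := (fderiv ℝ (pc a (m + d)) z).le_opNorm v
  have h4 : |(fderiv ℝ (pc a (m + d)) z v).1| ≤ ‖fderiv ℝ (pc a (m + d)) z v‖ := by
    rw [← norm_eq_abs]
    exact norm_fst_le _
  have h5 : 2 ^ d * ∏ k ∈ Finset.range d, w (m + k) ≤
      ∏ k ∈ Finset.range d, (2 * w (m + k) + 17 - 1) := by
    have h50 : 2 ^ d * ∏ k ∈ Finset.range d, w (m + k) =
        ∏ k ∈ Finset.range d, (2 * w (m + k)) := by
      rw [Finset.prod_mul_distrib]
      simp
    rw [h50]
    apply Finset.prod_le_prod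
    · intro k _
      have := hw (m + k)
      positivity
    · intro k _
      linarith
  have hP0 : 0 ≤ ∏ k ∈ Finset.range d, w (m + k) := Finset.prod_nonneg fun k _ => hw _
  rw [Finset.prod_range_add, ← hA]
  have h6 : A * ‖v‖ * ∏ k ∈ Finset.range d, w (m + k) ≤
      2 ^ d * ∏ k ∈ Finset.range d, w (m + k) :=
    mul_le_mul_of_nonneg_right (hn₀ d (by omega)) hP0
  have hv0 : 0 < ‖v‖ := by
    rw [norm_pos_iff]
    rintro rfl
    rw [map_zero] at hv
    have := congrArg Prod.fst hv
    simp at this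
  have h7 : (A * ∏ k ∈ Finset.range d, w (m + k)) * ‖v‖ ≤ ‖fderiv ℝ (pc a (m + d)) z‖ * ‖v‖ := by
    calc (A * ∏ k ∈ Finset.range d, w (m + k)) * ‖v‖ =
        A * ‖v‖ * ∏ k ∈ Finset.range d, w (m + k) := by ring
      _ ≤ _ := by linarith
  exact le_of_mul_le_mul_right h7 hv0

/-- **growth almost everywhere** -/
theorem growth_ae {a : ℕ → ℝ} (ha : Inc a) {w : ℕ → ℝ} (hw : ∀ k, 0 ≤ w k)
    (hs : Summable fun k => w k / |a k|) : ∀ᵐ p : T2, ∀ x y : ℝ,
      ((x : UnitAddCircle), (y : UnitAddCircle)) = p →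
      ∀ᶠ n in atTop, ∏ k ∈ Finset.range n, w k ≤ ‖fderiv ℝ (pc a n) (x, y)‖ := by
  set l : ℕ → ℝ := fun k => 2 * w k + 17 with hl
  have hl16 : ∀ k, 16 ≤ l k := fun k => by
    have := hw k
    simp only [hl]
    linarith
  have hsl : Summable fun k => l k / |a k| := by
    have h1 := (hs.mul_left 2).add (ha.s.mul_left 17)
    refine h1.congr fun k => ?_
    simp only [hl]
    ring
  -- the strips
  set s : ℕ → Set T2 := fun k => {p | (cs a k p).1 ∈ SC (a k) (l k)} with hsdef
  have hmeas : ∀ k, MeasurableSet (s k) := fun k =>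
    (continuous_fst.comp (cs_cont a k)).measurable (SC_meas (a k) (l k))
  have hvol : ∀ k, volume.real (s k) = (volume : Measure UnitAddCircle).real (SC (a k) (l k)) := by
    intro k
    have e1 : s k = cs a k ⁻¹' (SC (a k) (l k) ×ˢ Set.univ) := by
      ext p
      simp [hsdef]
    rw [measureReal_def, measureReal_def, e1, (cs_mp a k).measure_preimage
      ((SC_meas (a k) (l k)).prod MeasurableSet.univ).nullMeasurableSet, Measure.volume_eq_prod,
      Measure.prod_prod]
    simp
  have hlarge : ∀ᶠ k in atTop, l k ≤ |a k| := by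
    have h1 := (tendsto_order.1 hsl.tendsto_atTop_zero).2 1 one_pos
    filter_upwards [h1, ha.ne] with k hk hne
    have hp : 0 < |a k| := abs_pos.2 hne
    rw [div_lt_one hp] at hk
    exact hk.le
  obtain ⟨m, hm⟩ := eventually_atTop.1 hlarge
  have hsum : ∑' k, volume (s (k + m)) ≠ ⊤ := by
    have h1 : ∀ k, volume (s (k + m)) ≤ ENNReal.ofReal (l (k + m) / |a (k + m)|) := by
      intro k
      have h2 := SC_le (a := a (k + m)) (K := l (k + m)) (hl16 _) (hm _ (by omega))
      rw [← hvol] at h2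
      have h3 : 0 ≤ l (k + m) / |a (k + m)| := by
        have := hl16 (k + m)
        positivity
      rw [← ENNReal.ofReal_toReal (measure_ne_top volume (s (k + m)))]
      apply ENNReal.ofReal_le_ofReal
      have h4 : (volume (s (k + m))).toReal = volume.real (s (k + m)) := rfl
      rw [h4]
      linarith
    have h5 : Summable fun k => l (k + m) / |a (k + m)| := (summable_nat_add_iff m).2 hsl
    refine ne_top_of_le_ne_top ?_ (ENNReal.tsum_le_tsum h1)
    exact h5.tsum_ofReal_ne_top
  have hbc := ae_eventually_notMem hsum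
  filter_upwards [hbc] with p hp x y hxy
  apply growth_pt hw
  rw [eventually_atTop] at hp ⊢
  obtain ⟨n₀, hn₀⟩ := hp
  refine ⟨n₀ + m, fun k hk => ?_⟩
  have h1 := hn₀ (k - m) (by omega)
  rw [Nat.sub_add_cancel (by omega)] at h1
  rw [← hxy] at h1
  have h2 : ¬ |LC (a k) (cs a k ((x : UnitAddCircle), (y : UnitAddCircle))).1| ≤ l k := h1
  have e := cs_coe a k (x, y)
  simp only at e
  rw [e, LC_coe, not_le] at h2
  exact h2.le

end growthae

end Pool.Agent.H52.STD
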