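import Mathlib
import Pool.Agent.H52.STD.Coc

set_option autoImplicit false

/-!
# A fixed initial point and a random parameter
-/

namespace Pool.Agent.H52.STD

open Real MeasureTheory Function Filter Topology

/-- the data: the parameter is `A + t`, the initial point is `(x, y)` -/
noncomputable def PP (A x y : ℝ) : Par :=
  ⟨fun _ => A, 1, x, 2 * x - y + A * sin (2 * π * x), sin (2 * π * x)⟩

theorem PP_orbit (A x y t : ℝ) (k : ℕ) :
    (pm (A + t))^[k + 1] (x, y) = (X (PP A x y) (k + 1) t, X (PP A x y) k t) := by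
  induction k with
  | zero =>
    show pm (A + t) (x, y) = _
    unfold pm
    simp only [X, PP]
    congr 1
    ring
  | succ k ih =>
    rw [iterate_succ_apply', ih]
    show (2 * X (PP A x y) (k + 1) t - X (PP A x y) k t +
      (A + t) * sin (2 * π * X (PP A x y) (k + 1) t), X (PP A x y) (k + 1) t) =
      (X (PP A x y) (k + 2) t, X (PP A x y) (k + 1) t)
    rw [X_succ]
    simp [PP]

theorem PP_pos (A x y t : ℝ) {k : ℕ} (hk : 1 ≤ k) :
    ((pm (A + t))^[k] (x, y)).1 = X (PP A x y) k t := by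
  obtain ⟨j, rfl⟩ := Nat.exists_eq_add_of_le' hk
  rw [PP_orbit]

theorem Bdry.mono {P : Par} {r : ℕ → ℝ → ℝ} {β : ℕ → ℝ} {b0 b1 : ℝ} (h : Bdry P r β b0)
    (hb : b0 ≤ b1) : Bdry P r β b1 where
  b := h.b.trans hb
  n := h.n
  e := fun m => (h.e m).trans (mul_le_mul_of_nonneg_right hb (by positivity))
  i := h.i

theorem PP_std {A x y σ l : ℝ} (hσ : 0 < σ) (hx : σ ≤ |sin (2 * π * x)|)
    (hl : 864 * (2 + 2 / σ) ≤ l) (hA : 3 * (2 + 2 / σ) * l ≤ |A|) :
    Std (PP A x y) l (2 / σ) := by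
  have hσ2 : 0 < 2 / σ := by positivity
  have hl0 : 0 < l := by linarith
  have hc : 0 < |sin (2 * π * x)| := hσ.trans_le hx
  have hcs : 2 / |sin (2 * π * x)| ≤ 2 / σ := div_le_div_of_nonneg_left (by norm_num) hσ hx
  have hOK : OK (PP A x y) l :=
    { c0 := hc
      c1 := abs_sin_le_one _
      b1 := by simp [PP]
      l16 := by
        show 16 + 2 * |(1:ℝ)| / |sin (2 * π * x)| ≤ l
        rw [abs_one, mul_one]
        linarith
      la := by
        intro k _
        show l ≤ |A|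
        nlinarith }
  exact
    { ok := hOK
      b := hσ2.le
      bd := fun θ hθ => ⟨_, (bdry_gen hOK (rr_cut (PP A x y) hl0
        (by linarith : (0:ℝ) < θ))).mono hcs⟩
      big := hl
      hole := fun k _ => hA }

/-- Chebyshev's inequality on the unit interval -/
theorem cheb {f : ℝ → ℝ} (hf : Continuous f) (h0 : ∀ x, 0 ≤ f x) {c : ℝ} (hc : 0 < c) :
    volume {t : ℝ | t ∈ Set.Ioc (0:ℝ) 1 ∧ c ≤ f t} ≤
      ENNReal.ofReal ((∫ t in (0:ℝ)..1, f t) / c) := by
  have hi : Integrable f (volume.restrict (Set.Ioc (0:ℝ) 1)) := by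
    have := hf.intervalIntegrable (μ := volume) 0 1
    rwa [intervalIntegrable_iff_integrableOn_Ioc_of_le zero_le_one] at this
  have h1 := mul_meas_ge_le_integral_of_nonneg (μ := volume.restrict (Set.Ioc (0:ℝ) 1))
    (Eventually.of_forall h0) hi c
  have hm : MeasurableSet {t : ℝ | c ≤ f t} := measurableSet_le measurable_const hf.measurable
  have e : (volume.restrict (Set.Ioc (0:ℝ) 1)).real {t : ℝ | c ≤ f t} =
      volume.real {t : ℝ | t ∈ Set.Ioc (0:ℝ) 1 ∧ c ≤ f t} := by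
    rw [measureReal_def, measureReal_def, Measure.restrict_apply hm, Set.inter_comm]
    rfl
  have hfin : volume {t : ℝ | t ∈ Set.Ioc (0:ℝ) 1 ∧ c ≤ f t} ≠ ⊤ := by
    refine ne_top_of_le_ne_top ?_ (measure_mono (fun t ht => ht.1 :
      {t : ℝ | t ∈ Set.Ioc (0:ℝ) 1 ∧ c ≤ f t} ⊆ Set.Ioc 0 1))
    simp
  rw [e, ← intervalIntegral.integral_of_le zero_le_one] at h1
  rw [← ENNReal.ofReal_toReal hfin]
  apply ENNReal.ofReal_le_ofReal
  rw [le_div_iff₀ hc, mul_comm]
  exact h1

theorem bad_measure {P : Par} {l b0 : ℝ} (H : Std P l b0) {Λ : ℝ}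
    (hΛ : ∀ k, 1 ≤ k → Λ ≤ |P.a k|) (hΛ0 : 0 < Λ) (n : ℕ) :
    volume {t : ℝ | t ∈ Set.Ioc (0:ℝ) 1 ∧ ¬ Good P l n t} ≤
      ENNReal.ofReal (n * ((2 + b0) * (l / Λ))) := by
  obtain ⟨β, hR⟩ := H.rel (θ := 1) le_rfl
  have hr := hR.cut
  have h1 := cheb (f := fun t => 1 - chi P (rr P l 1) n t) (continuous_const.sub (chi_cont hr n))
    (fun t => by
      have := (chi_mem hr n t).2
      linarith) (c := 1) one_pos
  have h2 : ∫ t in (0:ℝ)..1, (1 - chi P (rr P l 1) n t) = 1 - cc P (rr P l 1) n := by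
    rw [intervalIntegral.integral_sub intervalIntegrable_const
      ((chi_cont hr n).intervalIntegrable _ _)]
    unfold cc
    simp
  rw [h2, div_one] at h1
  refine le_trans (measure_mono ?_) (h1.trans (ENNReal.ofReal_le_ofReal (loss H hΛ hΛ0 n)))
  intro t ht
  refine ⟨ht.1, ?_⟩
  show 1 ≤ 1 - chi P (rr P l 1) n t
  rw [(chi_bad hr ht.2).1]
  simp

/-- the change of variables `a = A + t` -/
theorem shift_vol (A : ℝ) (p : ℝ → Prop) :
    volume {a : ℝ | a ∈ Set.Ioc A (A + 1) ∧ p a} =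
      volume {t : ℝ | t ∈ Set.Ioc (0:ℝ) 1 ∧ p (A + t)} := by
  have e : {t : ℝ | t ∈ Set.Ioc (0:ℝ) 1 ∧ p (A + t)} =
      (fun t => A + t) ⁻¹' {a : ℝ | a ∈ Set.Ioc A (A + 1) ∧ p a} := by
    ext t
    constructor
    · rintro ⟨h1, h2⟩
      exact ⟨⟨by linarith [h1.1], by linarith [h1.2]⟩, h2⟩
    · rintro ⟨h1, h2⟩
      exact ⟨⟨by linarith [h1.1], by linarith [h1.2]⟩, h2⟩
  rw [e, measure_preimage_add]

theorem L_shift (A : ℝ) {t : ℝ} (ht : t ∈ Set.Icc (0:ℝ) 1) (x : ℝ) :
    |L (A + t) x - L A x| ≤ 7 := by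
  have e : L (A + t) x - L A x = 2 * π * t * cos (2 * π * x) := by
    unfold L
    ring
  rw [e, abs_mul, abs_mul, abs_mul, abs_of_pos pi_pos, abs_of_pos (by norm_num : (0:ℝ) < 2),
    abs_of_nonneg ht.1]
  have h1 := abs_cos_le_one (2 * π * x)
  have h3 := pi_lt_d2
  have h2 := ht.2
  have h4 := ht.1
  have h6 : 0 ≤ 2 * π * t := by positivity
  calc 2 * π * t * |cos (2 * π * x)| ≤ 2 * π * t * 1 := mul_le_mul_of_nonneg_left h1 h6
    _ ≤ 7 := by nlinarith [pi_pos]

/-- the Birkhoff sums of a centred function, second moment, for all parameters and times -/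
theorem param_moment {σ : ℝ} (hσ : 0 < σ) : ∃ C : ℝ, 0 < C ∧
    ∀ x y : ℝ, σ ≤ |sin (2 * π * x)| → ∀ g g' : ℝ → ℝ, (∀ x, HasDerivAt g (g' x) x) →
      Continuous g' → Periodic g 1 → ∫ x in (0:ℝ)..1, g x = 0 → ∀ M V : ℝ, 0 < M →
      (∀ x, |g x| ≤ M) → ∫ x in (0:ℝ)..1, |g' x| ≤ V → ∀ A : ℝ, A ≠ 0 → ∀ n : ℕ, 1 ≤ n →
      ∫ t in (0:ℝ)..1, ((1 / (n : ℝ)) *
        ∑ k ∈ Finset.range n, g ((pm (A + t))^[k + 1] (x, y)).1) ^ 2 ≤
        C * (M ^ 2 + M * V) * (√(n / |A|) + 1 / n) := by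
  set κ : ℝ := 2 + 2 / σ with hκ
  have hσ2 : 0 < 2 / σ := by positivity
  have hκ2 : 2 ≤ κ := by linarith
  set C : ℝ := 2592 * κ ^ 2 + 1 with hC
  have hC0 : 0 < C := by positivity
  refine ⟨C, hC0, ?_⟩
  intro x y hx g g' hd hc' hp h0 M V hM0 hM hV A hA n hn
  have hp' := Pool.Agent.TH705.SM.deriv_per hd hp
  have hgc : Continuous g := continuous_iff_continuousAt.2 fun x => (hd x).continuousAt
  have hn0 : (0:ℝ) < n := by exact_mod_cast hn
  have hn1 : (1:ℝ) ≤ n := by exact_mod_cast hn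
  have hA0 : 0 < |A| := abs_pos.2 hA
  have hV0 : 0 ≤ V := le_trans (intervalIntegral.integral_nonneg zero_le_one fun x _ =>
    abs_nonneg _) hV
  set q : ℝ := √(n / |A|) with hq
  have hq0 : 0 < q := Real.sqrt_pos.2 (by positivity)
  have hqsq : q ^ 2 = n / |A| := Real.sq_sqrt (by positivity)
  have hmv : M ^ 2 ≤ M ^ 2 + M * V := by nlinarith
  -- the sums in terms of the curve
  have hsum : ∀ t, ∑ k ∈ Finset.range n, g ((pm (A + t))^[k + 1] (x, y)).1 =
      ∑ k ∈ Finset.range n, g (X (PP A x y) (k + 1) t) := by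
    intro t
    apply Finset.sum_congr rfl
    intro k _
    rw [PP_orbit]
  have hScont : Continuous (fun t => ∑ k ∈ Finset.range n, g (X (PP A x y) (k + 1) t)) :=
    continuous_finsetSum _ fun k _ => hgc.comp (X_cont _ _)
  have e0 : ∫ t in (0:ℝ)..1, ((1 / (n : ℝ)) *
      ∑ k ∈ Finset.range n, g ((pm (A + t))^[k + 1] (x, y)).1) ^ 2 =
      (1 / (n : ℝ) ^ 2) * ∫ t in (0:ℝ)..1,
        (∑ k ∈ Finset.range n, g (X (PP A x y) (k + 1) t)) ^ 2 := by
    rw [← intervalIntegral.integral_const_mul]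
    apply intervalIntegral.integral_congr
    intro t _
    simp only
    rw [hsum]
    ring
  rw [e0]
  by_cases hmain : (n : ℝ) ≤ |A| ∧ (2592 * κ ^ 2) ^ 2 ≤ |A|
  · obtain ⟨hnA, hAbig⟩ := hmain
    set l : ℝ := 864 * κ / q with hl
    have hq1 : q ≤ 1 := by
      rw [hq]
      apply Real.sqrt_le_one.2
      rw [div_le_one hA0]
      exact hnA
    have hl1 : 864 * κ ≤ l := by
      rw [hl, le_div_iff₀ hq0]
      nlinarith
    have hAq : 1 / q ≤ √|A| := by
      rw [div_le_iff₀ hq0, hq, ← Real.sqrt_mul (by positivity)]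
      rw [show |A| * (n / |A|) = n by field_simp]
      exact Real.one_le_sqrt.2 hn1
    have hsqA : 2592 * κ ^ 2 ≤ √|A| := Real.le_sqrt_of_sq_le hAbig
    have hhole : 3 * κ * l ≤ |A| := by
      have e1 : 3 * κ * l = 2592 * κ ^ 2 * (1 / q) := by
        rw [hl]
        field_simp
        norm_num
      rw [e1]
      calc 2592 * κ ^ 2 * (1 / q) ≤ √|A| * √|A| := by
            apply mul_le_mul hsqA hAq (by positivity) (by positivity)
        _ = |A| := Real.mul_self_sqrt (abs_nonneg _)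
    have H := PP_std (y := y) hσ hx hl1 hhole
    have hcs : 2 / |(PP A x y).c| ≤ 2 / σ := div_le_div_of_nonneg_left (by norm_num) hσ hx
    have hl0 : 0 < l := by positivity
    have hmom := second_moment H hcs (Λ := |A|) (fun k _ => le_rfl) hA0 hd hc' hp hp' h0 hM0 hM
      hV n
    have e1 : 864 * (2 + 2 / σ) / l = q := by
      rw [← hκ, hl]
      field_simp
    have e2 : (n : ℝ) * ((2 + 2 / σ) * (l / |A|)) = 864 * κ ^ 2 * q := by
      rw [← hκ, hl]
      have : (n : ℝ) * (κ * (864 * κ / q / |A|)) = 864 * κ ^ 2 * (n / |A|) / q := by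
        field_simp
      rw [this, ← hqsq]
      field_simp
    have e3 : 2 * M * V * (2 + 2 / σ) / l = 2 * M * V * (q / 864) := by
      rw [← hκ, hl]
      field_simp
    rw [e1, e2, e3] at hmom
    have h1 : (1 / (n : ℝ) ^ 2) * (∫ t in (0:ℝ)..1,
        (∑ k ∈ Finset.range n, g (X (PP A x y) (k + 1) t)) ^ 2) ≤
        (1 / (n : ℝ) ^ 2) * (n * (M ^ 2 * (1 + 2 * (2 / σ))) + n ^ 2 * (M ^ 2 * q +
        2 * M * V * (q / 864) + M ^ 2 * (864 * κ ^ 2 * q))) :=
      mul_le_mul_of_nonneg_left hmom (by positivity)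
    refine h1.trans ?_
    have e4 : (1 / (n : ℝ) ^ 2) * (n * (M ^ 2 * (1 + 2 * (2 / σ))) + n ^ 2 * (M ^ 2 * q +
        2 * M * V * (q / 864) + M ^ 2 * (864 * κ ^ 2 * q))) =
        M ^ 2 * (1 + 2 * (2 / σ)) * (1 / n) + (M ^ 2 * (1 + 864 * κ ^ 2) + M * V / 432) * q := by
      field_simp
      ring
    rw [e4]
    have hMV : 0 ≤ M * V := by positivity
    have hM2 : 0 < M ^ 2 := by positivity
    have s1 : M ^ 2 * (1 + 2 * (2 / σ)) ≤ C * (M ^ 2 + M * V) := by
      have q1 : 1 + 2 * (2 / σ) ≤ C := by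
        rw [hC]
        have : 2 / σ = κ - 2 := by rw [hκ]; ring
        rw [this]
        nlinarith
      calc M ^ 2 * (1 + 2 * (2 / σ)) ≤ M ^ 2 * C := mul_le_mul_of_nonneg_left q1 hM2.le
        _ ≤ C * (M ^ 2 + M * V) := by nlinarith
    have s2 : M ^ 2 * (1 + 864 * κ ^ 2) + M * V / 432 ≤ C * (M ^ 2 + M * V) := by
      have q1 : 1 + 864 * κ ^ 2 ≤ C := by
        rw [hC]
        nlinarith
      have q2 : (1:ℝ) / 432 ≤ C := by
        rw [hC]
        nlinarith
      have q3 := mul_le_mul_of_nonneg_left q1 hM2.le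
      have q4 := mul_le_mul_of_nonneg_left q2 hMV
      linarith
    have s3 := mul_le_mul_of_nonneg_right s1 (by positivity : (0:ℝ) ≤ 1 / n)
    have s4 := mul_le_mul_of_nonneg_right s2 hq0.le
    linarith
  · -- trivial bound
    have htriv : (1 / (n : ℝ) ^ 2) * (∫ t in (0:ℝ)..1,
        (∑ k ∈ Finset.range n, g (X (PP A x y) (k + 1) t)) ^ 2) ≤ M ^ 2 := by
      have h1 : ∫ t in (0:ℝ)..1, (∑ k ∈ Finset.range n, g (X (PP A x y) (k + 1) t)) ^ 2 ≤
          ∫ t in (0:ℝ)..1, (n * M) ^ 2 := by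
        apply intervalIntegral.integral_mono_on zero_le_one
          ((hScont.pow 2).intervalIntegrable _ _) intervalIntegrable_const
        intro t _
        show (∑ k ∈ Finset.range n, g (X (PP A x y) (k + 1) t)) ^ 2 ≤ (n * M) ^ 2
        rw [← sq_abs]
        apply pow_le_pow_left₀ (abs_nonneg _)
        refine (Finset.abs_sum_le_sum_abs _ _).trans ?_
        calc ∑ k ∈ Finset.range n, |g (X (PP A x y) (k + 1) t)| ≤ ∑ k ∈ Finset.range n, M :=
              Finset.sum_le_sum fun k _ => hM _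
          _ = n * M := by simp
      rw [intervalIntegral.integral_const] at h1
      simp only [sub_zero, one_smul] at h1
      rw [one_div, ← div_eq_inv_mul, div_le_iff₀ (by positivity)]
      linarith
    refine htriv.trans ?_
    have hbig : 1 ≤ C * q := by
      rw [not_and_or, not_le, not_le] at hmain
      rcases hmain with h | h
      · have h1 : 1 ≤ q := by
          rw [hq]
          apply Real.one_le_sqrt.2
          rw [le_div_iff₀ hA0]
          linarith
        have h2 : 1 ≤ C := by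
          rw [hC]
          nlinarith
        nlinarith
      · have h1 : 1 / (2592 * κ ^ 2) ≤ q := by
          rw [hq]
          apply Real.le_sqrt_of_sq_le
          rw [div_pow, one_pow, div_le_div_iff₀ (by positivity) hA0]
          nlinarith
        rw [div_le_iff₀ (by positivity)] at h1
        rw [hC]
        nlinarith
    have h1 : 0 ≤ M ^ 2 + M * V := by positivity
    have h2 : 0 ≤ 1 / (n:ℝ) := by positivity
    calc M ^ 2 ≤ (M ^ 2 + M * V) * 1 := by linarith
      _ ≤ (M ^ 2 + M * V) * (C * q) := mul_le_mul_of_nonneg_left hbig h1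
      _ ≤ C * (M ^ 2 + M * V) * (q + 1 / n) := by
          have := mul_nonneg (mul_nonneg hC0.le h1) h2
          linarith

end Pool.Agent.H52.STD
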