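import Mathlib
import Pool.Agent.H52.STD.Param

set_option autoImplicit false

/-!
# A fixed initial point and a random parameter: finite-time exponents
-/

namespace Pool.Agent.H52.STD

open Real MeasureTheory Function Filter Topology

theorem log_abs_close {A t : ℝ} (hA : 2 ≤ |A|) (ht : t ∈ Set.Icc (0:ℝ) 1) :
    |log (π * |A|) - log (π * |A + t|)| ≤ 2 / |A| := by
  have hA0 : 0 < |A| := by linarith
  have hpi := pi_pos
  have h1 : |A + t| ≤ |A| + 1 := by
    have := abs_add_le A t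
    rw [abs_of_nonneg ht.1] at this
    linarith [ht.2]
  have h2 : |A| - 1 ≤ |A + t| := by
    have := abs_sub_abs_le_abs_sub A (-t)
    rw [abs_neg, sub_neg_eq_add, abs_of_nonneg ht.1] at this
    linarith [ht.2]
  have h3 : 0 < |A + t| := by linarith
  rw [Real.log_mul hpi.ne' hA0.ne', Real.log_mul hpi.ne' h3.ne']
  have e : log π + log |A| - (log π + log |A + t|) = log |A| - log |A + t| := by ring
  rw [e, abs_le]
  have q1 : log (|A| + 1) ≤ log |A| + 1 / |A| := log_upper hA0 zero_le_one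
  have q2 : log |A| - 2 * 1 / |A| ≤ log (|A| - 1) := log_lower hA0 zero_le_one (by linarith)
  have q3 : log |A + t| ≤ log (|A| + 1) := Real.log_le_log h3 h1
  have q4 : log (|A| - 1) ≤ log |A + t| := Real.log_le_log (by linarith) h2
  have q5 : 1 / |A| ≤ 2 / |A| := div_le_div_of_nonneg_right (by norm_num) hA0.le
  constructor <;> linarith

/-- the mean of the library function -/
noncomputable def hm (A : ℝ) : ℝ := Pool.Agent.TH705.SM.hmean A

theorem det_bound {A l : ℝ} {x y t : ℝ} (hl : 1728 ≤ l) (hlA : l ≤ |A|)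
    (ht : t ∈ Set.Icc (0:ℝ) 1) (N : ℕ) (hg : Good (PP A x y) l N t) :
    |log ‖fderiv ℝ (pm (A + t))^[N + 1] (x, y)‖ / (N + 1 : ℕ) - log (π * |A + t|)| ≤
      17 / l + 6 * (1 + log |A|) / (N + 1 : ℕ) + 3 / |A| +
        |∑ k ∈ Finset.range N, (hh A (X (PP A x y) (k + 1) t) - hm A)| / (N + 1 : ℕ) := by
  have hl0 : 0 < l := by linarith
  have hA0 : 0 < |A| := by linarith
  have hA1 : 1 ≤ |A| := by linarith
  have h1 := norm_birkhoff (a := A + t) (z := (x, y)) hl hlA (L_shift A ht) N (by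
    intro k hk1 hk2
    rw [PP_pos A x y t hk1]
    exact hg k hk1 hk2)
  have e1 : ∑ k ∈ Finset.range N, hh A ((pm (A + t))^[k + 1] (x, y)).1 =
      ∑ k ∈ Finset.range N, (hh A (X (PP A x y) (k + 1) t) - hm A) + N * hm A := by
    rw [Finset.sum_sub_distrib, Finset.sum_const, Finset.card_range, nsmul_eq_mul]
    have : ∑ k ∈ Finset.range N, hh A ((pm (A + t))^[k + 1] (x, y)).1 =
        ∑ k ∈ Finset.range N, hh A (X (PP A x y) (k + 1) t) := by
      apply Finset.sum_congr rfl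
      intro k _
      rw [PP_orbit]
    rw [this]
    ring
  rw [e1] at h1
  set F := log ‖fderiv ℝ (pm (A + t))^[N + 1] (x, y)‖ with hF
  set S := ∑ k ∈ Finset.range N, (hh A (X (PP A x y) (k + 1) t) - hm A) with hS
  have hn0 : (0:ℝ) < ((N + 1 : ℕ) : ℝ) := by positivity
  have hNn : (N : ℝ) = ((N + 1 : ℕ) : ℝ) - 1 := by push_cast; ring
  set n : ℝ := ((N + 1 : ℕ) : ℝ) with hn
  have hm1 := Pool.Agent.TH705.SM.hmean_mem hA1
  have hm2 := Pool.Agent.TH705.SM.hmean_near hA1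
  have hlog := log_abs_close (A := A) (by linarith) ht
  change 0 ≤ hm A ∧ hm A ≤ 3 * (1 + log |A|) at hm1
  change 0 ≤ hm A - log (π * |A|) ∧ hm A - log (π * |A|) ≤ 1 / |A| at hm2
  have e2 : F / n - log (π * |A + t|) = (F - (S + N * hm A)) / n + S / n - hm A / n +
      (hm A - log (π * |A|)) + (log (π * |A|) - log (π * |A + t|)) := by
    rw [hNn]
    field_simp
    ring
  rw [e2]
  have b1 : |(F - (S + N * hm A)) / n| ≤ 17 / l + 3 * (1 + log |A|) / n := by
    rw [abs_div, abs_of_pos hn0, div_le_iff₀ hn0]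
    refine h1.trans ?_
    rw [add_mul, div_mul_cancel₀ _ hn0.ne']
    have : (N : ℝ) * (17 / l) ≤ 17 / l * n := by
      rw [mul_comm]
      apply mul_le_mul_of_nonneg_left _ (by positivity)
      linarith
    linarith
  have b2 : |S / n| = |S| / n := by rw [abs_div, abs_of_pos hn0]
  have b3 : |hm A / n| ≤ 3 * (1 + log |A|) / n := by
    rw [abs_div, abs_of_pos hn0, abs_of_nonneg hm1.1]
    exact div_le_div_of_nonneg_right hm1.2 hn0.le
  have b4 : |hm A - log (π * |A|)| ≤ 1 / |A| := by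
    rw [abs_of_nonneg hm2.1]
    exact hm2.2
  have c1 := abs_add_le ((F - (S + N * hm A)) / n + S / n - hm A / n + (hm A - log (π * |A|)))
    (log (π * |A|) - log (π * |A + t|))
  have c2 := abs_add_le ((F - (S + N * hm A)) / n + S / n - hm A / n) (hm A - log (π * |A|))
  have c3 := abs_sub ((F - (S + N * hm A)) / n + S / n) (hm A / n)
  have c4 := abs_add_le ((F - (S + N * hm A)) / n) (S / n)
  have e3 : 6 * (1 + log |A|) / n = 3 * (1 + log |A|) / n + 3 * (1 + log |A|) / n := by ring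
  have e4 : 3 / |A| = 1 / |A| + 2 / |A| := by ring
  rw [e3, e4]
  linarith

/-- the second moment of the centred logarithms -/
theorem log_moment {σ : ℝ} (hσ : 0 < σ) : ∃ C : ℝ, 0 < C ∧
    ∀ x y : ℝ, σ ≤ |sin (2 * π * x)| → ∀ A : ℝ, 1 ≤ |A| → ∀ N : ℕ, 1 ≤ N →
      ∫ t in (0:ℝ)..1, (∑ k ∈ Finset.range N, (hh A (X (PP A x y) (k + 1) t) - hm A)) ^ 2 ≤
        C * (1 + log |A|) ^ 2 * ((N + 1 : ℕ) ^ 2 * (√((N + 1 : ℕ) / |A|) + 1 / (N + 1 : ℕ))) := by
  obtain ⟨C, hC0, hC⟩ := param_moment hσ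
  refine ⟨C * 45, by positivity, ?_⟩
  intro x y hx A hA N hN
  have hlogA : 0 ≤ log |A| := Real.log_nonneg hA
  set ℓ : ℝ := 1 + log |A| with hℓ
  have hℓ0 : 0 < ℓ := by linarith
  have h := hC x y hx (fun x => hh A x - hm A) (Pool.Agent.TH705.SM.hh' A)
    (fun x => (Pool.Agent.TH705.SM.hh_hasDeriv A x).sub_const (hm A))
    (Pool.Agent.TH705.SM.hh'_cont A)
    (fun x => by
      simp only
      have := Pool.Agent.TH705.SM.hh_period A x
      change hh A (x + 1) = hh A x at this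
      rw [this])
    (Pool.Agent.TH705.SM.ctr_int A) (3 * ℓ) (12 * ℓ) (by positivity)
    (Pool.Agent.TH705.SM.ctr_bound hA) (hh_var hA) A (by
      intro h0
      rw [h0, abs_zero] at hA
      linarith) N hN
  have hN0 : (0:ℝ) < N := by exact_mod_cast hN
  have e1 : ∫ t in (0:ℝ)..1, ((1 / (N : ℝ)) *
      ∑ k ∈ Finset.range N, (hh A ((pm (A + t))^[k + 1] (x, y)).1 - hm A)) ^ 2 =
      (1 / (N : ℝ) ^ 2) * ∫ t in (0:ℝ)..1,
        (∑ k ∈ Finset.range N, (hh A (X (PP A x y) (k + 1) t) - hm A)) ^ 2 := by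
    rw [← intervalIntegral.integral_const_mul]
    apply intervalIntegral.integral_congr
    intro t _
    simp only
    have : ∑ k ∈ Finset.range N, (hh A ((pm (A + t))^[k + 1] (x, y)).1 - hm A) =
        ∑ k ∈ Finset.range N, (hh A (X (PP A x y) (k + 1) t) - hm A) := by
      apply Finset.sum_congr rfl
      intro k _
      rw [PP_orbit]
    rw [this]
    ring
  rw [e1, one_div, ← div_eq_inv_mul, div_le_iff₀ (by positivity)] at h
  refine h.trans ?_
  have e2 : (3 * ℓ) ^ 2 + 3 * ℓ * (12 * ℓ) = 45 * ℓ ^ 2 := by ring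
  rw [e2]
  have hn : (N : ℝ) ≤ ((N + 1 : ℕ) : ℝ) := by
    push_cast
    linarith
  have hA0 : 0 < |A| := by linarith
  set n : ℝ := ((N + 1 : ℕ) : ℝ) with hn'
  have hn0 : 0 < n := by linarith
  have h2 : √(N / |A|) ≤ √(n / |A|) := by
    apply Real.sqrt_le_sqrt
    exact div_le_div_of_nonneg_right hn hA0.le
  have h3 : (√(N / |A|) + 1 / N) * (N : ℝ) ^ 2 ≤ n ^ 2 * (√(n / |A|) + 1 / n) := by
    have q1 : (√(N / |A|) + 1 / N) * (N : ℝ) ^ 2 = √(N / |A|) * N ^ 2 + N := by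
      field_simp
    have q2 : n ^ 2 * (√(n / |A|) + 1 / n) = √(n / |A|) * n ^ 2 + n := by
      field_simp
    rw [q1, q2]
    have q3 : √(N / |A|) * (N : ℝ) ^ 2 ≤ √(n / |A|) * n ^ 2 := by
      apply mul_le_mul h2 _ (by positivity) (by positivity)
      exact pow_le_pow_left₀ hN0.le hn 2
    linarith
  calc C * (45 * ℓ ^ 2) * (√(N / |A|) + 1 / N) * (N : ℝ) ^ 2 =
      (C * (45 * ℓ ^ 2)) * ((√(N / |A|) + 1 / N) * (N : ℝ) ^ 2) := by ring
    _ ≤ (C * (45 * ℓ ^ 2)) * (n ^ 2 * (√(n / |A|) + 1 / n)) :=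
        mul_le_mul_of_nonneg_left h3 (by positivity)
    _ = C * 45 * ℓ ^ 2 * (n ^ 2 * (√(n / |A|) + 1 / n)) := by ring

/-- **exponents of a fixed point, random parameter** -/
theorem param_exp {σ : ℝ} (hσ : 0 < σ) : ∃ C : ℝ, 0 < C ∧
    ∀ x y : ℝ, σ ≤ |sin (2 * π * x)| → ∀ A : ℝ, 1 ≤ |A| → ∀ n : ℕ, 1 ≤ n →
      ∀ ε : ℝ, 0 < ε → ε ≤ 1 →
      volume {a : ℝ | a ∈ Set.Ioc A (A + 1) ∧
        ε < |log ‖fderiv ℝ (pm a)^[n] (x, y)‖ / n - log (π * |a|)|} ≤
        ENNReal.ofReal (C * (1 + log |A|) ^ 2 * (√(n / |A|) + 1 / n) / ε ^ 2) := by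
  obtain ⟨C1, hC1, hmom⟩ := log_moment hσ
  set κ : ℝ := 2 + 2 / σ with hκ
  have hσ2 : 0 < 2 / σ := by positivity
  have hκ2 : 2 ≤ κ := by linarith
  set C : ℝ := 2592 * κ ^ 2 + 18 + 864 * κ ^ 2 + 4 * C1 with hC
  have hC0 : 0 < C := by positivity
  refine ⟨C, hC0, ?_⟩
  intro x y hx A hA n hn ε hε hε1
  have hlogA : 0 ≤ log |A| := Real.log_nonneg hA
  set ℓ : ℝ := 1 + log |A| with hℓ
  have hℓ1 : 1 ≤ ℓ := by linarith
  have hℓ2 : 1 ≤ ℓ ^ 2 := one_le_pow₀ hℓ1
  have hn0 : (0:ℝ) < n := by exact_mod_cast hn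
  have hn1 : (1:ℝ) ≤ n := by exact_mod_cast hn
  have hA0 : 0 < |A| := by linarith
  set q : ℝ := √(n / |A|) with hq
  have hq0 : 0 < q := Real.sqrt_pos.2 (by positivity)
  have hqsq : q ^ 2 = n / |A| := Real.sq_sqrt (by positivity)
  have hεsq : ε ^ 2 ≤ 1 := pow_le_one₀ hε.le hε1
  have hε20 : 0 < ε ^ 2 := by positivity
  have hinv : 0 < 1 / (n:ℝ) := by positivity
  -- the trivial bound
  have htriv : 1 ≤ C * ℓ ^ 2 * (q + 1 / n) / ε ^ 2 →
      volume {a : ℝ | a ∈ Set.Ioc A (A + 1) ∧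
        ε < |log ‖fderiv ℝ (pm a)^[n] (x, y)‖ / n - log (π * |a|)|} ≤
        ENNReal.ofReal (C * ℓ ^ 2 * (q + 1 / n) / ε ^ 2) := by
    intro h
    have h1 : volume {a : ℝ | a ∈ Set.Ioc A (A + 1) ∧
        ε < |log ‖fderiv ℝ (pm a)^[n] (x, y)‖ / n - log (π * |a|)|} ≤
        volume (Set.Ioc A (A + 1)) := measure_mono fun a ha => ha.1
    rw [Real.volume_Ioc] at h1
    refine h1.trans (ENNReal.ofReal_le_ofReal ?_)
    linarith
  by_cases hmain : ((n : ℝ) ≤ |A| ∧ (2592 * κ ^ 2) ^ 2 ≤ |A|) ∧ 2 ≤ n ∧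
      9 * ℓ * (q + 1 / n) ≤ ε / 2
  · obtain ⟨⟨hnA, hAbig⟩, hn2, hdet⟩ := hmain
    obtain ⟨N, rfl⟩ : ∃ N, n = N + 1 := ⟨n - 1, by omega⟩
    have hN1 : 1 ≤ N := by omega
    clear htriv
    set l : ℝ := 864 * κ / q with hl
    have hq1 : q ≤ 1 := by
      rw [hq]
      apply Real.sqrt_le_one.2
      rw [div_le_one hA0]
      exact hnA
    have hl1 : 864 * κ ≤ l := by
      rw [hl, le_div_iff₀ hq0]
      nlinarith
    have hAq : 1 / q ≤ √|A| := by
      rw [div_le_iff₀ hq0, hq, ← Real.sqrt_mul (by positivity)]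
      rw [show |A| * (((N + 1 : ℕ) : ℝ) / |A|) = ((N + 1 : ℕ) : ℝ) by field_simp]
      exact Real.one_le_sqrt.2 hn1
    have hsqA : 2592 * κ ^ 2 ≤ √|A| := Real.le_sqrt_of_sq_le hAbig
    have hhole : 3 * κ * l ≤ |A| := by
      have e1 : 3 * κ * l = 2592 * κ ^ 2 * (1 / q) := by
        rw [hl]
        field_simp
        norm_num
      rw [e1]
      calc 2592 * κ ^ 2 * (1 / q) ≤ √|A| * √|A| := by
            apply mul_le_mul hsqA hAq (by positivity) (by positivity)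
        _ = |A| := Real.mul_self_sqrt (abs_nonneg _)
    have H := PP_std (y := y) hσ hx hl1 hhole
    have hl0 : 0 < l := by positivity
    have hl1728 : 1728 ≤ l := by linarith
    have hlA : l ≤ |A| := by nlinarith
    have hbad := bad_measure H (Λ := |A|) (fun k _ => le_rfl) hA0 N
    have hb1 : (N : ℝ) * ((2 + 2 / σ) * (l / |A|)) ≤ 864 * κ ^ 2 * q := by
      have e2 : ((N + 1 : ℕ) : ℝ) * (κ * (l / |A|)) = 864 * κ ^ 2 * q := by
        rw [hl]
        have : ((N + 1 : ℕ) : ℝ) * (κ * (864 * κ / q / |A|)) =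
            864 * κ ^ 2 * (((N + 1 : ℕ) : ℝ) / |A|) / q := by
          field_simp
        rw [this, ← hqsq]
        field_simp
      rw [← e2]
      apply mul_le_mul_of_nonneg_right _ (by positivity)
      push_cast
      linarith
    -- Chebyshev
    set S : ℝ → ℝ := fun t => ∑ k ∈ Finset.range N, (hh A (X (PP A x y) (k + 1) t) - hm A) with hS
    have hhc : Continuous (hh A) :=
      continuous_iff_continuousAt.2 fun x =>
        (Pool.Agent.TH705.SM.hh_hasDeriv A x).continuousAt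
    have hSc : Continuous S :=
      continuous_finsetSum _ fun k _ => (hhc.comp (X_cont _ _)).sub continuous_const
    have hch := cheb (f := fun t => S t ^ 2) (hSc.pow 2) (fun t => sq_nonneg _)
      (c := (((N + 1 : ℕ) : ℝ) * ε / 2) ^ 2) (by positivity)
    have hmo := hmom x y hx A hA N hN1
    have hch2 : (∫ t in (0:ℝ)..1, S t ^ 2) / (((N + 1 : ℕ) : ℝ) * ε / 2) ^ 2 ≤
        4 * C1 * ℓ ^ 2 * (q + 1 / ((N + 1 : ℕ) : ℝ)) / ε ^ 2 := by
      rw [div_le_iff₀ (by positivity)]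
      refine hmo.trans (le_of_eq ?_)
      rw [← hℓ, ← hq]
      field_simp
      norm_num
    rw [shift_vol]
    refine le_trans (measure_mono (t := {t : ℝ | t ∈ Set.Ioc (0:ℝ) 1 ∧
      ¬ Good (PP A x y) l N t} ∪ {t : ℝ | t ∈ Set.Ioc (0:ℝ) 1 ∧
        (((N + 1 : ℕ) : ℝ) * ε / 2) ^ 2 ≤ S t ^ 2}) ?_) ?_
    · intro t ht
      obtain ⟨ht1, ht2⟩ := ht
      by_cases hg : Good (PP A x y) l N t
      · right
        refine ⟨ht1, ?_⟩
        have h1 := det_bound (x := x) (y := y) hl1728 hlA ⟨ht1.1.le, ht1.2⟩ N hg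
        have h2 : 17 / l + 6 * (1 + log |A|) / ((N + 1 : ℕ) : ℝ) + 3 / |A| ≤ ε / 2 := by
          refine le_trans ?_ hdet
          have q1 : 17 / l ≤ q := by
            rw [hl, div_div_eq_mul_div, div_le_iff₀ (by positivity)]
            nlinarith
          have q2 : 3 / |A| ≤ 3 * (1 / ((N + 1 : ℕ) : ℝ)) := by
            rw [div_eq_mul_one_div]
            apply mul_le_mul_of_nonneg_left _ (by norm_num)
            exact one_div_le_one_div_of_le hn0 hnA
          have q3 : 6 * (1 + log |A|) / ((N + 1 : ℕ) : ℝ) = 6 * ℓ * (1 / ((N + 1 : ℕ) : ℝ)) := by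
            rw [hℓ]
            ring
          rw [q3]
          nlinarith
        have h3 : ε / 2 ≤ |S t| / ((N + 1 : ℕ) : ℝ) := by
          have h4 : |∑ k ∈ Finset.range N, (hh A (X (PP A x y) (k + 1) t) - hm A)| = |S t| := rfl
          rw [h4] at h1
          linarith
        rw [le_div_iff₀ hn0] at h3
        show (((N + 1 : ℕ) : ℝ) * ε / 2) ^ 2 ≤ S t ^ 2
        rw [← sq_abs (S t)]
        apply pow_le_pow_left₀ (by positivity)
        linarith
      · left
        exact ⟨ht1, hg⟩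
    · refine (measure_union_le _ _).trans ?_
      refine (add_le_add (hbad.trans (ENNReal.ofReal_le_ofReal hb1))
        (hch.trans (ENNReal.ofReal_le_ofReal hch2))).trans ?_
      rw [← ENNReal.ofReal_add (by positivity) (by positivity)]
      apply ENNReal.ofReal_le_ofReal
      have s1 : 864 * κ ^ 2 * q ≤ 864 * κ ^ 2 * ℓ ^ 2 * (q + 1 / ((N + 1 : ℕ) : ℝ)) / ε ^ 2 := by
        rw [le_div_iff₀ hε20]
        have q1 : q ≤ ℓ ^ 2 * (q + 1 / ((N + 1 : ℕ) : ℝ)) := by nlinarith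
        have q2 : 864 * κ ^ 2 * q ≤ 864 * κ ^ 2 * (ℓ ^ 2 * (q + 1 / ((N + 1 : ℕ) : ℝ))) :=
          mul_le_mul_of_nonneg_left q1 (by positivity)
        have q3 : 864 * κ ^ 2 * q * ε ^ 2 ≤ 864 * κ ^ 2 * q * 1 :=
          mul_le_mul_of_nonneg_left hεsq (by positivity)
        linarith
      have s2 : 0 ≤ (2592 * κ ^ 2 + 18) * ℓ ^ 2 * (q + 1 / ((N + 1 : ℕ) : ℝ)) / ε ^ 2 := by
        positivity
      have s3 : C * ℓ ^ 2 * (q + 1 / ((N + 1 : ℕ) : ℝ)) / ε ^ 2 =
          864 * κ ^ 2 * ℓ ^ 2 * (q + 1 / ((N + 1 : ℕ) : ℝ)) / ε ^ 2 +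
          4 * C1 * ℓ ^ 2 * (q + 1 / ((N + 1 : ℕ) : ℝ)) / ε ^ 2 +
          (2592 * κ ^ 2 + 18) * ℓ ^ 2 * (q + 1 / ((N + 1 : ℕ) : ℝ)) / ε ^ 2 := by
        rw [hC]
        ring
      rw [s3]
      linarith
  · apply htriv
    rw [le_div_iff₀ hε20, one_mul]
    have hCℓ : C ≤ C * ℓ ^ 2 := by nlinarith
    have hs0 : 0 < q + 1 / n := by positivity
    rw [not_and_or, not_and_or, not_and_or] at hmain
    rcases hmain with (h | h) | (h | h)
    · rw [not_le] at h
      refine hεsq.trans ?_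
      have h1 : 1 ≤ q := by
        rw [hq]
        apply Real.one_le_sqrt.2
        rw [le_div_iff₀ hA0]
        linarith
      have h2 : 1 ≤ C := by
        rw [hC]
        nlinarith
      calc (1:ℝ) ≤ C * 1 := by linarith
        _ ≤ C * ℓ ^ 2 * (q + 1 / n) := by
            apply mul_le_mul hCℓ _ zero_le_one (by positivity)
            linarith
    · rw [not_le] at h
      refine hεsq.trans ?_
      have h1 : 1 / (2592 * κ ^ 2) ≤ q := by
        rw [hq]
        apply Real.le_sqrt_of_sq_le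
        rw [div_pow, one_pow, div_le_div_iff₀ (by positivity) hA0]
        nlinarith
      have h2 : 2592 * κ ^ 2 ≤ C := by
        rw [hC]
        nlinarith
      calc (1:ℝ) = (2592 * κ ^ 2) * (1 / (2592 * κ ^ 2)) := by
            field_simp
        _ ≤ C * ℓ ^ 2 * (q + 1 / n) := by
            apply mul_le_mul (h2.trans hCℓ) _ (by positivity) (by positivity)
            linarith
    · have h1 : n = 1 := by omega
      refine hεsq.trans ?_
      have h2 : 1 ≤ C := by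
        rw [hC]
        nlinarith
      have h3 : (1:ℝ) ≤ q + 1 / n := by
        rw [h1]
        push_cast
        linarith
      calc (1:ℝ) ≤ C * 1 := by linarith
        _ ≤ C * ℓ ^ 2 * (q + 1 / n) := by
            apply mul_le_mul hCℓ h3 zero_le_one (by positivity)
    · rw [not_le] at h
      -- `ε ≤ 18 ℓ (q + 1/n)`, and `ε ≤ 1`
      have h1 : ε ≤ 18 * ℓ * (q + 1 / n) := by linarith
      have h2 : 18 ≤ C := by
        rw [hC]
        nlinarith
      have h3 : 18 * ℓ * (q + 1 / n) ≤ C * ℓ ^ 2 * (q + 1 / n) := by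
        apply mul_le_mul_of_nonneg_right _ hs0.le
        nlinarith
      calc ε ^ 2 = ε * ε := sq ε
        _ ≤ 1 * (18 * ℓ * (q + 1 / n)) := mul_le_mul hε1 h1 hε.le zero_le_one
        _ ≤ C * ℓ ^ 2 * (q + 1 / n) := by rw [one_mul]; exact h3

end Pool.Agent.H52.STD
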