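import Mathlib
import Pool.Agent.H52.STD.Param2
import Pool.Agent.H52.STD.EscMain

set_option autoImplicit false

/-!
# A fixed initial point and a random parameter: all initial points
-/

namespace Pool.Agent.H52.STD

open Real MeasureTheory Function Filter Topology

theorem fd_pos (a : ℝ) (z : ℝ × ℝ) (k : ℕ) :
    0 < ‖fderiv ℝ (pm a)^[k] z‖ ∧
      ‖fderiv ℝ (pm a)^[k] z‖ ≤ (|tr a z k| + 1) * ‖fderiv ℝ (pm a)^[k + 1] z‖ := by
  have hb : ∀ k : ℕ, ‖fderiv ℝ (pm a)^[k] z‖ ≤
      (|tr a z k| + 1) * ‖fderiv ℝ (pm a)^[k + 1] z‖ := by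
    intro k
    apply ContinuousLinearMap.opNorm_le_bound _ (by positivity)
    intro v
    set w := fderiv ℝ (pm a)^[k] z v with hw
    have h1 : fderiv ℝ (pm a)^[k + 1] z v = (tr a z k * w.1 - w.2, w.1) := by
      rw [(pm_iter a z k).2, ContinuousLinearMap.comp_apply, pmD_apply]
      rfl
    have h2 := (fderiv ℝ (pm a)^[k + 1] z).le_opNorm v
    rw [h1, Prod.norm_def] at h2
    have h3 : |w.1| ≤ ‖fderiv ℝ (pm a)^[k + 1] z‖ * ‖v‖ := (le_max_right _ _).trans h2
    have h4 : |tr a z k * w.1 - w.2| ≤ ‖fderiv ℝ (pm a)^[k + 1] z‖ * ‖v‖ :=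
      (le_max_left _ _).trans h2
    have h0 : 0 ≤ ‖fderiv ℝ (pm a)^[k + 1] z‖ * ‖v‖ := by positivity
    have ht := abs_nonneg (tr a z k)
    rw [Prod.norm_def, mul_assoc, add_mul, one_mul]
    apply max_le
    · show |w.1| ≤ _
      nlinarith
    · show |w.2| ≤ _
      have h5 : |w.2| ≤ |tr a z k * w.1| + |tr a z k * w.1 - w.2| := by
        have := abs_sub (tr a z k * w.1) (tr a z k * w.1 - w.2)
        rwa [sub_sub_cancel] at this
      rw [abs_mul] at h5
      have h6 := mul_le_mul_of_nonneg_left h3 ht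
      linarith
  refine ⟨?_, hb k⟩
  induction k with
  | zero =>
    have : fderiv ℝ (pm a)^[0] z = ContinuousLinearMap.id ℝ (ℝ × ℝ) := fderiv_id
    rw [this]
    have h := (ContinuousLinearMap.id ℝ (ℝ × ℝ)).le_opNorm (1, 0)
    have h2 : ‖((1, 0) : ℝ × ℝ)‖ = 1 := by simp [Prod.norm_def]
    rw [ContinuousLinearMap.id_apply, h2, mul_one] at h
    linarith
  | succ k ih =>
    by_contra hcon
    have h0 : ‖fderiv ℝ (pm a)^[k + 1] z‖ = 0 := le_antisymm (not_lt.1 hcon) (norm_nonneg _)
    have := hb k
    rw [h0, mul_zero] at this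
    linarith

/-- change of the initial point by one step -/
theorem fd_shift (a : ℝ) (z : ℝ × ℝ) (k : ℕ) :
    |log ‖fderiv ℝ (pm a)^[k + 1] z‖ - log ‖fderiv ℝ (pm a)^[k] (pm a z)‖| ≤
      log (|L a z.1| + 1) := by
  have hd : Differentiable ℝ (pm a) := fun p => (pm_hasF a p).differentiableAt
  have e : fderiv ℝ (pm a)^[k + 1] z = (fderiv ℝ (pm a)^[k] (pm a z)).comp (pmD a z) := by
    rw [iterate_succ]
    exact (((hd.iterate k (pm a z)).hasFDerivAt).comp z (pm_hasF a z)).fderiv
  have h1 := (fd_pos a z (k + 1)).1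
  have h2 := (fd_pos a (pm a z) k).1
  have h3 : ‖fderiv ℝ (pm a)^[k + 1] z‖ ≤ ‖fderiv ℝ (pm a)^[k] (pm a z)‖ * (|L a z.1| + 1) := by
    rw [e]
    refine (ContinuousLinearMap.opNorm_comp_le _ _).trans ?_
    exact mul_le_mul_of_nonneg_left (pmD_norm a z) (norm_nonneg _)
  have h4 : ‖fderiv ℝ (pm a)^[k] (pm a z)‖ ≤ (|L a z.1| + 1) * ‖fderiv ℝ (pm a)^[k + 1] z‖ := by
    apply ContinuousLinearMap.opNorm_le_bound _ (by positivity)
    intro v
    set w : ℝ × ℝ := (v.2, L a z.1 * v.2 - v.1) with hw
    have e1 : pmD a z w = v := by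
      rw [pmD_apply, hw]
      simp
    have e2 : fderiv ℝ (pm a)^[k] (pm a z) v = fderiv ℝ (pm a)^[k + 1] z w := by
      rw [e, ContinuousLinearMap.comp_apply, e1]
    have e3 : ‖w‖ ≤ (|L a z.1| + 1) * ‖v‖ := by
      have q1 : |v.1| ≤ ‖v‖ := norm_fst_le v
      have q2 : |v.2| ≤ ‖v‖ := norm_snd_le v
      have q0 := norm_nonneg v
      have q3 := abs_nonneg (L a z.1)
      rw [hw, Prod.norm_def]
      apply max_le
      · show |v.2| ≤ _
        nlinarith
      · show |L a z.1 * v.2 - v.1| ≤ _
        refine (abs_sub _ _).trans ?_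
        rw [abs_mul]
        nlinarith
    rw [e2]
    refine ((fderiv ℝ (pm a)^[k + 1] z).le_opNorm w).trans ?_
    calc ‖fderiv ℝ (pm a)^[k + 1] z‖ * ‖w‖ ≤
        ‖fderiv ℝ (pm a)^[k + 1] z‖ * ((|L a z.1| + 1) * ‖v‖) :=
          mul_le_mul_of_nonneg_left e3 (norm_nonneg _)
      _ = _ := by ring
  have hL : 0 < |L a z.1| + 1 := by positivity
  have l3 := Real.log_le_log h1 h3
  have l4 := Real.log_le_log h2 h4
  rw [Real.log_mul h2.ne' hL.ne'] at l3
  rw [Real.log_mul hL.ne' h1.ne'] at l4
  rw [abs_le]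
  constructor <;> linarith

/-- the two conclusions -/
def Typ (C x y : ℝ) : Prop :=
  (∀ A : ℝ, 1 ≤ |A| → ∀ n : ℕ, 1 ≤ n → ∀ ε : ℝ, 0 < ε → ε ≤ 1 →
      volume {a : ℝ | a ∈ Set.Ioc A (A + 1) ∧
        ε < |log ‖fderiv ℝ (pm a)^[n] (x, y)‖ / n - log (π * |a|)|} ≤
        ENNReal.ofReal (C * (1 + log |A|) ^ 2 * (√(n / |A|) + 1 / n) / ε ^ 2)) ∧
  (∀ f : ℝ → ℝ, ContDiff ℝ 1 f → Periodic f 1 → ∀ M : ℝ, 0 < M → (∀ x, |f x| ≤ M) →
      (∀ x, |deriv f x| ≤ M) → ∀ A : ℝ, 1 ≤ |A| → ∀ n : ℕ, 1 ≤ n →
      ∫ a in A..(A + 1), ((1 / (n : ℝ)) * ∑ k ∈ Finset.range n, f ((pm a)^[k + 1] (x, y)).1 -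
        ∫ x in (0:ℝ)..1, f x) ^ 2 ≤ C * M ^ 2 * (√(n / |A|) + 1 / n))

theorem Typ.mono {C C' x y : ℝ} (h : Typ C x y) (hC : C ≤ C') : Typ C' x y := by
  constructor
  · intro A hA n hn ε hε hε1
    refine (h.1 A hA n hn ε hε hε1).trans (ENNReal.ofReal_le_ofReal ?_)
    apply div_le_div_of_nonneg_right _ (by positivity)
    apply mul_le_mul_of_nonneg_right _ (by positivity)
    exact mul_le_mul_of_nonneg_right hC (sq_nonneg _)
  · intro f hf hp M hM hM1 hM2 A hA n hn
    refine (h.2 f hf hp M hM hM1 hM2 A hA n hn).trans ?_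
    apply mul_le_mul_of_nonneg_right _ (by positivity)
    exact mul_le_mul_of_nonneg_right hC (sq_nonneg _)

/-- the centred sums -/
theorem sum_ctr (f : ℝ → ℝ) (c : ℝ) (u : ℕ → ℝ) {n : ℕ} (hn : 1 ≤ n) :
    (1 / (n : ℝ)) * ∑ k ∈ Finset.range n, f (u k) - c =
      (1 / (n : ℝ)) * ∑ k ∈ Finset.range n, (f (u k) - c) := by
  have hn0 : (n : ℝ) ≠ 0 := by
    have : (0:ℝ) < n := by exact_mod_cast hn
    exact this.ne'
  rw [Finset.sum_sub_distrib, Finset.sum_const, Finset.card_range, nsmul_eq_mul]
  field_simp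

theorem typ_uniform {σ : ℝ} (hσ : 0 < σ) : ∃ C : ℝ, 0 < C ∧
    ∀ x y : ℝ, σ ≤ |sin (2 * π * x)| → Typ C x y := by
  obtain ⟨C1, hC1, h1⟩ := param_exp hσ
  obtain ⟨C2, hC2, h2⟩ := param_moment hσ
  have key : ∀ x y : ℝ, σ ≤ |sin (2 * π * x)| → Typ (C1 + 6 * C2) x y := by
    intro x y hx
    constructor
    · intro A hA n hn ε hε hε1
      refine (h1 x y hx A hA n hn ε hε hε1).trans (ENNReal.ofReal_le_ofReal ?_)
      apply div_le_div_of_nonneg_right _ (by positivity)
      apply mul_le_mul_of_nonneg_right _ (by positivity)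
      apply mul_le_mul_of_nonneg_right _ (sq_nonneg _)
      linarith
    · intro f hf hp M hM hM1 hM2 A hA n hn
      set c := ∫ x in (0:ℝ)..1, f x with hc
      have hfc : Continuous f := hf.continuous
      have hd : ∀ x, HasDerivAt f (deriv f x) x := fun x =>
        (hf.differentiable one_ne_zero x).hasDerivAt
      have hcM : |c| ≤ M := by
        have q : ‖∫ x in (0:ℝ)..1, f x‖ ≤ M * |1 - 0| :=
          intervalIntegral.norm_integral_le_of_norm_le_const fun x _ => by
            rw [norm_eq_abs]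
            exact hM1 x
        rw [norm_eq_abs] at q
        simpa using q
      have h0 : ∫ x in (0:ℝ)..1, (f x - c) = 0 := by
        rw [intervalIntegral.integral_sub (hfc.intervalIntegrable _ _) intervalIntegrable_const,
          intervalIntegral.integral_const, ← hc]
        simp
      have hV : ∫ x in (0:ℝ)..1, |deriv f x| ≤ M := by
        have q : ∫ x in (0:ℝ)..1, |deriv f x| ≤ ∫ x in (0:ℝ)..1, M := by
          apply intervalIntegral.integral_mono_on zero_le_one
            ((hf.continuous_deriv le_rfl).abs.intervalIntegrable _ _) intervalIntegrable_const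
          intro x _
          exact hM2 x
        simpa using q
      have h3 := h2 x y hx (fun x => f x - c) (deriv f) (fun x => (hd x).sub_const c)
        (hf.continuous_deriv le_rfl) (fun x => by simp only; rw [hp]) h0 (2 * M) M (by positivity)
        (fun x => by
          have := abs_sub (f x) c
          have := hM1 x
          linarith) hV A (by
          intro h0
          rw [h0, abs_zero] at hA
          linarith) n hn
      have e : ∫ a in A..(A + 1), ((1 / (n : ℝ)) *
          ∑ k ∈ Finset.range n, f ((pm a)^[k + 1] (x, y)).1 - c) ^ 2 =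
          ∫ t in (0:ℝ)..1, ((1 / (n : ℝ)) *
          ∑ k ∈ Finset.range n, (f ((pm (A + t))^[k + 1] (x, y)).1 - c)) ^ 2 := by
        have q := intervalIntegral.integral_comp_add_left (a := 0) (b := 1)
          (fun a => ((1 / (n : ℝ)) *
          ∑ k ∈ Finset.range n, f ((pm a)^[k + 1] (x, y)).1 - c) ^ 2) A
        rw [add_zero] at q
        rw [← q]
        apply intervalIntegral.integral_congr
        intro t _
        simp only
        rw [sum_ctr f c _ hn]
      rw [e]
      refine h3.trans ?_
      apply mul_le_mul_of_nonneg_right _ (by positivity)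
      have hM2 : 0 < M ^ 2 := by positivity
      nlinarith
  exact ⟨C1 + 6 * C2, by positivity, key⟩

/-- all initial points but four -/
theorem typ_all {x y : ℝ} (hz : sin (2 * π * x) ≠ 0 ∨ sin (2 * π * y) ≠ 0) :
    ∃ C : ℝ, 0 < C ∧ Typ C x y := by
  by_cases hx : sin (2 * π * x) ≠ 0
  · obtain ⟨C, hC0, hC⟩ := typ_uniform (abs_pos.2 hx)
    exact ⟨C, hC0, hC x y le_rfl⟩
  · rw [not_not] at hx
    have hy : sin (2 * π * y) ≠ 0 := by
      rcases hz with h | h
      · exact absurd hx h
      · exact h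
    set x' : ℝ := 2 * x - y with hx'
    have hpm : ∀ a, pm a (x, y) = (x', x) := by
      intro a
      unfold pm
      simp only
      rw [hx, mul_zero, add_zero]
    have hs' : |sin (2 * π * x')| = |sin (2 * π * y)| := by
      have e1 : 2 * π * x' = 2 * (2 * π * x) - 2 * π * y := by rw [hx']; ring
      have e2 : cos (2 * (2 * π * x)) = 1 := by
        rw [cos_two_mul, cos_sq', hx]
        ring
      have e3 : sin (2 * (2 * π * x)) = 0 := by
        rw [sin_two_mul, hx]
        ring
      rw [e1, sin_sub, e2, e3, zero_mul, one_mul, zero_sub, abs_neg]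
    obtain ⟨C, hC0, hC⟩ := typ_uniform (abs_pos.2 hy)
    obtain ⟨t1, t2⟩ := hC x' x hs'.ge
    refine ⟨8 * C + 28, by positivity, ?_, ?_⟩
    · intro A hA n hn ε hε hε1
      have hlogA : 0 ≤ log |A| := Real.log_nonneg hA
      set ℓ : ℝ := 1 + log |A| with hℓ
      have hℓ1 : 1 ≤ ℓ := by linarith
      have hA0 : 0 < |A| := by linarith
      have hn0 : (0:ℝ) < n := by exact_mod_cast hn
      have hε20 : 0 < ε ^ 2 := by positivity
      have hεsq : ε ^ 2 ≤ 1 := pow_le_one₀ hε.le hε1
      have htriv : 1 ≤ (8 * C + 28) * ℓ ^ 2 * (√(n / |A|) + 1 / n) / ε ^ 2 →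
          volume {a : ℝ | a ∈ Set.Ioc A (A + 1) ∧
            ε < |log ‖fderiv ℝ (pm a)^[n] (x, y)‖ / n - log (π * |a|)|} ≤
            ENNReal.ofReal ((8 * C + 28) * ℓ ^ 2 * (√(n / |A|) + 1 / n) / ε ^ 2) := by
        intro h
        have h1 : volume {a : ℝ | a ∈ Set.Ioc A (A + 1) ∧
            ε < |log ‖fderiv ℝ (pm a)^[n] (x, y)‖ / n - log (π * |a|)|} ≤
            volume (Set.Ioc A (A + 1)) := measure_mono fun a ha => ha.1
        rw [Real.volume_Ioc] at h1
        refine h1.trans (ENNReal.ofReal_le_ofReal ?_)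
        linarith
      have hq0 : 0 ≤ √(n / |A|) := Real.sqrt_nonneg _
      by_cases hmain : 2 ≤ n ∧ 4 ≤ |A| ∧ 7 * ℓ / n ≤ ε / 2
      · obtain ⟨hn2, hA4, hdet⟩ := hmain
        obtain ⟨m, rfl⟩ : ∃ m, n = m + 1 := ⟨n - 1, by omega⟩
        have hm1 : 1 ≤ m := by omega
        have hm0 : (0:ℝ) < m := by exact_mod_cast hm1
        have h1 := t1 A hA m hm1 (ε / 2) (by positivity) (by linarith)
        refine le_trans (measure_mono ?_) (h1.trans (ENNReal.ofReal_le_ofReal ?_))
        · rintro a ⟨ha1, ha2⟩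
          refine ⟨ha1, ?_⟩
          have haA : |a| ≤ 2 * |A| ∧ |A| / 2 ≤ |a| := by
            have q1 := abs_sub_abs_le_abs_sub a A
            have q2 := abs_sub_abs_le_abs_sub A a
            have q3 : |a - A| ≤ 1 := by
              rw [abs_le]
              exact ⟨by linarith [ha1.1], by linarith [ha1.2]⟩
            rw [abs_sub_comm] at q2
            constructor <;> linarith
          have ha0 : 0 < |a| := by linarith
          have hsh := fd_shift a (x, y) m
          rw [hpm a] at hsh
          set F := log ‖fderiv ℝ (pm a)^[m + 1] (x, y)‖ with hF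
          set G := log ‖fderiv ℝ (pm a)^[m] (x', x)‖ with hG
          have hL : log (|L a x| + 1) ≤ 4 * ℓ := by
            have q1 : |L a x| + 1 ≤ 20 * |A| := by
              unfold L
              have h2 := abs_cos_le_one (2 * π * x)
              have h3 := pi_lt_d2
              have hpi := pi_pos
              have h4 : |2 + 2 * π * a * cos (2 * π * x)| ≤ 2 + 2 * π * |a| := by
                calc _ ≤ |(2:ℝ)| + |2 * π * a * cos (2 * π * x)| := abs_add_le _ _
                  _ = 2 + 2 * π * |a| * |cos (2 * π * x)| := by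
                      rw [abs_mul, abs_mul, abs_mul, abs_of_pos hpi,
                        abs_of_pos (by norm_num : (0:ℝ) < 2)]
                  _ ≤ 2 + 2 * π * |a| * 1 := by gcongr
                  _ = _ := by ring
              nlinarith
            have q2 : log (|L a x| + 1) ≤ log (20 * |A|) := Real.log_le_log (by positivity) q1
            rw [Real.log_mul (by norm_num) hA0.ne'] at q2
            have q3 : log 20 ≤ 4 := by
              rw [Real.log_le_iff_le_exp (by norm_num)]
              have h5 : exp 4 = exp 1 ^ 4 := by rw [← Real.exp_nat_mul]; norm_num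
              have h6 := Real.exp_one_gt_d9
              rw [h5]
              calc (20:ℝ) ≤ 2.7 ^ 4 := by norm_num
                _ ≤ exp 1 ^ 4 := by gcongr; linarith
            linarith
          have hpa : |log (π * |a|)| ≤ 3 * ℓ := by
            have hpi3 := pi_gt_three
            have q0 : 1 ≤ π * |a| := by nlinarith
            rw [abs_of_nonneg (Real.log_nonneg q0)]
            have q1 : π * |a| ≤ 8 * |A| := by
              have := pi_lt_d2
              nlinarith
            have q2 : log (π * |a|) ≤ log (8 * |A|) := Real.log_le_log (by linarith) q1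
            rw [Real.log_mul (by norm_num) hA0.ne'] at q2
            have q3 : log 8 ≤ 3 := by
              rw [Real.log_le_iff_le_exp (by norm_num)]
              have h5 : exp 3 = exp 1 ^ 3 := by rw [← Real.exp_nat_mul]; norm_num
              have h6 := Real.exp_one_gt_d9
              rw [h5]
              calc (8:ℝ) ≤ 2.7 ^ 3 := by norm_num
                _ ≤ exp 1 ^ 3 := by gcongr; linarith
            linarith
          by_contra hcon
          rw [not_lt] at hcon
          have hdec : F / ((m + 1 : ℕ) : ℝ) - log (π * |a|) =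
              (F - G) / ((m + 1 : ℕ) : ℝ) + (G / m - log (π * |a|)) * (m / ((m + 1 : ℕ) : ℝ)) -
              log (π * |a|) / ((m + 1 : ℕ) : ℝ) := by
            have h5 : ((m + 1 : ℕ) : ℝ) = m + 1 := by push_cast; ring
            rw [h5]
            field_simp
            ring
          have b1 : |(F - G) / ((m + 1 : ℕ) : ℝ)| ≤ 4 * ℓ / ((m + 1 : ℕ) : ℝ) := by
            rw [abs_div, abs_of_pos hn0]
            exact div_le_div_of_nonneg_right (hsh.trans hL) hn0.le
          have b2 : |(G / m - log (π * |a|)) * (m / ((m + 1 : ℕ) : ℝ))| ≤ ε / 2 := by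
            rw [abs_mul, abs_of_nonneg (by positivity : (0:ℝ) ≤ m / ((m + 1 : ℕ) : ℝ))]
            have q1 : (m : ℝ) / ((m + 1 : ℕ) : ℝ) ≤ 1 := by
              rw [div_le_one hn0]
              push_cast
              linarith
            calc _ ≤ (ε / 2) * 1 := mul_le_mul hcon q1 (by positivity) (by positivity)
              _ = _ := mul_one _
          have b3 : |log (π * |a|) / ((m + 1 : ℕ) : ℝ)| ≤ 3 * ℓ / ((m + 1 : ℕ) : ℝ) := by
            rw [abs_div, abs_of_pos hn0]
            exact div_le_div_of_nonneg_right hpa hn0.le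
          have c1 := abs_sub ((F - G) / ((m + 1 : ℕ) : ℝ) +
            (G / m - log (π * |a|)) * (m / ((m + 1 : ℕ) : ℝ))) (log (π * |a|) / ((m + 1 : ℕ) : ℝ))
          have c2 := abs_add_le ((F - G) / ((m + 1 : ℕ) : ℝ))
            ((G / m - log (π * |a|)) * (m / ((m + 1 : ℕ) : ℝ)))
          rw [← hdec] at c1
          have e7 : 7 * ℓ / ((m + 1 : ℕ) : ℝ) = 4 * ℓ / ((m + 1 : ℕ) : ℝ) +
              3 * ℓ / ((m + 1 : ℕ) : ℝ) := by ring
          rw [e7] at hdet
          linarith
        · have q1 : √(m / |A|) ≤ √(((m + 1 : ℕ) : ℝ) / |A|) := by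
            apply Real.sqrt_le_sqrt
            apply div_le_div_of_nonneg_right _ hA0.le
            push_cast
            linarith
          have q2 : 1 / (m : ℝ) ≤ 2 * (1 / ((m + 1 : ℕ) : ℝ)) := by
            rw [mul_one_div, div_le_div_iff₀ hm0 hn0]
            push_cast
            have : (1:ℝ) ≤ m := by exact_mod_cast hm1
            linarith
          have e1 : C * ℓ ^ 2 * (√(m / |A|) + 1 / m) / (ε / 2) ^ 2 =
              4 * C * ℓ ^ 2 * (√(m / |A|) + 1 / m) / ε ^ 2 := by
            field_simp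
            norm_num
          rw [e1]
          apply div_le_div_of_nonneg_right _ hε20.le
          have q3 : √(m / |A|) + 1 / m ≤ 2 * (√(((m + 1 : ℕ) : ℝ) / |A|) +
              1 / ((m + 1 : ℕ) : ℝ)) := by linarith
          have q4 := mul_le_mul_of_nonneg_left q3 (by positivity : 0 ≤ 4 * C * ℓ ^ 2)
          have q5 : 0 ≤ 28 * ℓ ^ 2 * (√(((m + 1 : ℕ) : ℝ) / |A|) + 1 / ((m + 1 : ℕ) : ℝ)) := by
            positivity
          linarith
      · apply htriv
        rw [le_div_iff₀ hε20, one_mul]
        have hs0 : 0 < 1 / (n : ℝ) := by positivity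
        have hℓ2 : ℓ ≤ ℓ ^ 2 := by nlinarith
        have hbig : 28 * ℓ * (√(n / |A|) + 1 / n) ≤ (8 * C + 28) * ℓ ^ 2 * (√(n / |A|) + 1 / n) := by
          apply mul_le_mul_of_nonneg_right _ (by positivity)
          nlinarith
        rw [not_and_or, not_and_or] at hmain
        rcases hmain with h | h | h
        · have h1 : n = 1 := by omega
          have h2 : (1:ℝ) / n = 1 := by
            rw [h1]
            norm_num
          nlinarith
        · rw [not_le] at h
          have h1 : 1 / 2 ≤ √(n / |A|) := by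
            apply Real.le_sqrt_of_sq_le
            rw [le_div_iff₀ hA0]
            have : (1:ℝ) ≤ n := by exact_mod_cast hn
            linarith
          nlinarith
        · rw [not_le] at h
          have h1 : ε ≤ 14 * ℓ * (1 / n) := by
            have : 7 * ℓ / n = 7 * ℓ * (1 / n) := by ring
            rw [this] at h
            linarith
          have h2 : ε ^ 2 ≤ ε := by nlinarith
          have h3 : 0 ≤ ℓ * √(n / |A|) := by positivity
          have h4 : 0 ≤ ℓ * (1 / n) := by positivity
          nlinarith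
    · intro f hf hp M hM hM1 hM2 A hA n hn
      have hA0 : 0 < |A| := by linarith
      have hn0 : (0:ℝ) < n := by exact_mod_cast hn
      have hfc : Continuous f := hf.continuous
      set c := ∫ x in (0:ℝ)..1, f x with hc
      have hcM : |c| ≤ M := by
        have q : ‖∫ x in (0:ℝ)..1, f x‖ ≤ M * |1 - 0| :=
          intervalIntegral.norm_integral_le_of_norm_le_const fun x _ => by
            rw [norm_eq_abs]
            exact hM1 x
        rw [norm_eq_abs] at q
        simpa using q
      have hq0 : 0 ≤ √(n / |A|) := Real.sqrt_nonneg _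
      -- continuity in the parameter
      have hcont : ∀ (k : ℕ) (z : ℝ × ℝ), Continuous (fun a => (pm a)^[k] z) := by
        intro k z
        induction k with
        | zero => exact continuous_const
        | succ k ih =>
          have e : (fun a => (pm a)^[k + 1] z) = fun a => pm a ((pm a)^[k] z) := by
            funext a
            rw [iterate_succ_apply']
          rw [e]
          unfold pm at ih ⊢
          fun_prop
      have hfk : ∀ (k : ℕ) (z : ℝ × ℝ), Continuous (fun a => f ((pm a)^[k] z).1) := fun k z =>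
        hfc.comp (continuous_fst.comp (hcont k z))
      obtain ⟨m, rfl⟩ : ∃ m, n = m + 1 := ⟨n - 1, by omega⟩
      have hshift : ∀ (a : ℝ) (k : ℕ), (pm a)^[k + 1 + 1] (x, y) = (pm a)^[k + 1] (x', x) := by
        intro a k
        rw [iterate_succ_apply, hpm a]
      rcases Nat.eq_zero_or_pos m with hm | hm
      · subst hm
        have h1 : ∫ a in A..(A + 1), ((1 / ((0 + 1 : ℕ) : ℝ)) *
            ∑ k ∈ Finset.range (0 + 1), f ((pm a)^[k + 1] (x, y)).1 - c) ^ 2 ≤
            ∫ a in A..(A + 1), (2 * M) ^ 2 := by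
          apply intervalIntegral.integral_mono_on (by linarith)
          · apply Continuous.intervalIntegrable
            exact ((continuous_const.mul (continuous_finsetSum _ fun k _ =>
              hfk (k + 1) (x, y))).sub continuous_const).pow 2
          · exact intervalIntegrable_const
          · intro a _
            rw [← sq_abs]
            apply pow_le_pow_left₀ (abs_nonneg _)
            simp only [zero_add, Nat.cast_one, div_one, one_mul, Finset.range_one,
              Finset.sum_singleton]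
            have q1 := abs_sub (f ((pm a)^[1] (x, y)).1) c
            have q2 := hM1 ((pm a)^[1] (x, y)).1
            linarith
        rw [intervalIntegral.integral_const] at h1
        have e2 : A + 1 - A = 1 := by ring
        rw [e2, one_smul] at h1
        refine h1.trans ?_
        have hM2 : 0 < M ^ 2 := by positivity
        have h3 : (1:ℝ) ≤ √(((0 + 1 : ℕ) : ℝ) / |A|) + 1 / ((0 + 1 : ℕ) : ℝ) := by
          have : (1:ℝ) / ((0 + 1 : ℕ) : ℝ) = 1 := by norm_num
          rw [this]
          linarith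
        calc (2 * M) ^ 2 = 4 * M ^ 2 * 1 := by ring
          _ ≤ (8 * C + 28) * M ^ 2 * (√(((0 + 1 : ℕ) : ℝ) / |A|) + 1 / ((0 + 1 : ℕ) : ℝ)) := by
              apply mul_le_mul _ h3 zero_le_one (by positivity)
              apply mul_le_mul_of_nonneg_right _ hM2.le
              linarith
      · have h1 := t2 f hf hp M hM hM1 hM2 A hA m hm
        have hm0 : (0:ℝ) < m := by exact_mod_cast hm
        have hN : ((m + 1 : ℕ) : ℝ) = m + 1 := by push_cast; ring
        have hpt : ∀ a, ((1 / ((m + 1 : ℕ) : ℝ)) *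
            ∑ k ∈ Finset.range (m + 1), f ((pm a)^[k + 1] (x, y)).1 - c) ^ 2 ≤
            2 * ((1 / (m : ℝ)) * ∑ k ∈ Finset.range m, f ((pm a)^[k + 1] (x', x)).1 - c) ^ 2 +
            2 * (2 * M * (1 / ((m + 1 : ℕ) : ℝ))) ^ 2 := by
          intro a
          set T := (1 / (m : ℝ)) * ∑ k ∈ Finset.range m, f ((pm a)^[k + 1] (x', x)).1 - c with hT
          have e1 : (1 / ((m + 1 : ℕ) : ℝ)) *
              ∑ k ∈ Finset.range (m + 1), f ((pm a)^[k + 1] (x, y)).1 - c =
              T * (m / ((m + 1 : ℕ) : ℝ)) +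
                (f ((pm a)^[0 + 1] (x, y)).1 - c) * (1 / ((m + 1 : ℕ) : ℝ)) := by
            rw [Finset.sum_range_succ']
            have : ∑ k ∈ Finset.range m, f ((pm a)^[k + 1 + 1] (x, y)).1 =
                ∑ k ∈ Finset.range m, f ((pm a)^[k + 1] (x', x)).1 := by
              apply Finset.sum_congr rfl
              intro k _
              rw [hshift]
            rw [this, hT, hN]
            field_simp
            ring
          rw [e1]
          have q1 : (T * (m / ((m + 1 : ℕ) : ℝ))) ^ 2 ≤ T ^ 2 := by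
            rw [mul_pow]
            have : (m / ((m + 1 : ℕ) : ℝ)) ^ 2 ≤ 1 := by
              apply pow_le_one₀ (by positivity)
              rw [div_le_one hn0, hN]
              linarith
            nlinarith [sq_nonneg T]
          have q2 : ((f ((pm a)^[0 + 1] (x, y)).1 - c) * (1 / ((m + 1 : ℕ) : ℝ))) ^ 2 ≤
              (2 * M * (1 / ((m + 1 : ℕ) : ℝ))) ^ 2 := by
            rw [← sq_abs, abs_mul, abs_of_pos (by positivity : (0:ℝ) < 1 / ((m + 1 : ℕ) : ℝ))]
            apply pow_le_pow_left₀ (by positivity)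
            apply mul_le_mul_of_nonneg_right _ (by positivity)
            have q3 := abs_sub (f ((pm a)^[0 + 1] (x, y)).1) c
            have q4 := hM1 ((pm a)^[0 + 1] (x, y)).1
            linarith
          nlinarith [sq_nonneg (T * (m / ((m + 1 : ℕ) : ℝ)) -
            (f ((pm a)^[0 + 1] (x, y)).1 - c) * (1 / ((m + 1 : ℕ) : ℝ)))]
        have hc1 : Continuous (fun a => ((1 / ((m + 1 : ℕ) : ℝ)) *
            ∑ k ∈ Finset.range (m + 1), f ((pm a)^[k + 1] (x, y)).1 - c) ^ 2) :=
          ((continuous_const.mul (continuous_finsetSum _ fun k _ =>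
            hfk (k + 1) (x, y))).sub continuous_const).pow 2
        have hc2 : Continuous (fun a => ((1 / (m : ℝ)) *
            ∑ k ∈ Finset.range m, f ((pm a)^[k + 1] (x', x)).1 - c) ^ 2) :=
          ((continuous_const.mul (continuous_finsetSum _ fun k _ =>
            hfk (k + 1) (x', x))).sub continuous_const).pow 2
        have h2 : ∫ a in A..(A + 1), ((1 / ((m + 1 : ℕ) : ℝ)) *
            ∑ k ∈ Finset.range (m + 1), f ((pm a)^[k + 1] (x, y)).1 - c) ^ 2 ≤
            ∫ a in A..(A + 1), (2 * ((1 / (m : ℝ)) *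
            ∑ k ∈ Finset.range m, f ((pm a)^[k + 1] (x', x)).1 - c) ^ 2 +
            2 * (2 * M * (1 / ((m + 1 : ℕ) : ℝ))) ^ 2) :=
          intervalIntegral.integral_mono_on (by linarith) (hc1.intervalIntegrable _ _)
            (((continuous_const.mul hc2).add continuous_const).intervalIntegrable _ _)
            (fun a _ => hpt a)
        rw [intervalIntegral.integral_add (f := fun a => 2 * ((1 / (m : ℝ)) *
            ∑ k ∈ Finset.range m, f ((pm a)^[k + 1] (x', x)).1 - c) ^ 2)
            (g := fun _ => 2 * (2 * M * (1 / ((m + 1 : ℕ) : ℝ))) ^ 2)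
          ((continuous_const.mul hc2).intervalIntegrable _ _) intervalIntegrable_const,
          intervalIntegral.integral_const_mul, intervalIntegral.integral_const] at h2
        have e2 : A + 1 - A = 1 := by ring
        rw [e2, one_smul] at h2
        refine h2.trans ?_
        have q1 : √(m / |A|) ≤ √(((m + 1 : ℕ) : ℝ) / |A|) := by
          apply Real.sqrt_le_sqrt
          apply div_le_div_of_nonneg_right _ hA0.le
          rw [hN]
          linarith
        have q2 : 1 / (m : ℝ) ≤ 2 * (1 / ((m + 1 : ℕ) : ℝ)) := by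
          rw [mul_one_div, div_le_div_iff₀ hm0 hn0, hN]
          have : (1:ℝ) ≤ m := by exact_mod_cast hm
          linarith
        have q3 : √(m / |A|) + 1 / m ≤ 2 * (√(((m + 1 : ℕ) : ℝ) / |A|) +
            1 / ((m + 1 : ℕ) : ℝ)) := by linarith
        have hM2 : 0 < M ^ 2 := by positivity
        have q4 := mul_le_mul_of_nonneg_left q3 (by positivity : 0 ≤ 2 * (C * M ^ 2))
        have q5 : (1 / ((m + 1 : ℕ) : ℝ)) ^ 2 ≤ 1 / ((m + 1 : ℕ) : ℝ) := by
          have s1 : 0 < 1 / ((m + 1 : ℕ) : ℝ) := by positivity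
          have s2 : 1 / ((m + 1 : ℕ) : ℝ) ≤ 1 := by
            rw [div_le_one hn0, hN]
            linarith
          nlinarith
        have q6 : 2 * (2 * M * (1 / ((m + 1 : ℕ) : ℝ))) ^ 2 ≤ 8 * M ^ 2 *
            (1 / ((m + 1 : ℕ) : ℝ)) := by
          have := mul_le_mul_of_nonneg_left q5 (by positivity : 0 ≤ 8 * M ^ 2)
          calc _ = 8 * M ^ 2 * (1 / ((m + 1 : ℕ) : ℝ)) ^ 2 := by ring
            _ ≤ _ := this
        have q7 : 0 ≤ M ^ 2 * √(((m + 1 : ℕ) : ℝ) / |A|) := by positivity
        have q8 : 0 ≤ M ^ 2 * (1 / ((m + 1 : ℕ) : ℝ)) := by positivity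
        have q9 : 0 ≤ C * (M ^ 2 * √(((m + 1 : ℕ) : ℝ) / |A|)) := mul_nonneg hC0.le q7
        have q10 : 0 ≤ C * (M ^ 2 * (1 / ((m + 1 : ℕ) : ℝ))) := mul_nonneg hC0.le q8
        linarith

end Pool.Agent.H52.STD
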