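import Mathlib
import Pool.Agent.H52.STD.Param3

set_option autoImplicit false

/-!
# A fixed initial point and a random parameter: all times
-/

namespace Pool.Agent.H52.STD

open Real MeasureTheory Function Filter Topology

/-- the parameters in `(A, A + 1]` for which the orbit avoids the strip at the times `1, …, n` -/
def PSurv (A K x y : ℝ) (n : ℕ) : Set ℝ :=
  {a | a ∈ Set.Ioc A (A + 1) ∧ ∀ k, 1 ≤ k → k ≤ n → K < |L A ((pm a)^[k] (x, y)).1|}

theorem PSurv_eq (A K x y : ℝ) (n : ℕ) (p : ℝ → Prop) :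
    volume {a | a ∈ PSurv A K x y n ∧ p a} =
      volume (SS (PP A x y) K n ∩ {t | p (A + t)}) := by
  have e : {a | a ∈ PSurv A K x y n ∧ p a} = {a | a ∈ Set.Ioc A (A + 1) ∧
      ((∀ k, 1 ≤ k → k ≤ n → K < |L A ((pm a)^[k] (x, y)).1|) ∧ p a)} := by
    ext a
    simp only [PSurv, Set.mem_ofPred_eq, and_assoc]
  rw [e, shift_vol]
  congr 1
  ext t
  constructor
  · rintro ⟨h1, h2, h3⟩
    refine ⟨⟨h1, fun k hk1 hk2 => ?_⟩, h3⟩
    have := h2 k hk1 hk2
    rw [PP_pos A x y t hk1] at this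
    exact this
  · rintro ⟨⟨h1, h2⟩, h3⟩
    refine ⟨h1, fun k hk1 hk2 => ?_, h3⟩
    rw [PP_pos A x y t hk1]
    exact h2 k hk1 hk2

theorem PSurv_vol (A K x y : ℝ) (n : ℕ) :
    volume.real (PSurv A K x y n) = volume.real (SS (PP A x y) K n) := by
  have h := PSurv_eq A K x y n (fun _ => True)
  have e1 : {a | a ∈ PSurv A K x y n ∧ True} = PSurv A K x y n := by
    ext a
    simp
  have e2 : SS (PP A x y) K n ∩ {t : ℝ | True} = SS (PP A x y) K n := by
    ext t
    simp
  rw [e1, e2] at h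
  rw [measureReal_def, measureReal_def, h]

theorem param_equi {σ K A x y : ℝ} (hσ : 0 < σ) (hx : σ ≤ |sin (2 * π * x)|)
    (hK : 864 * (2 + 2 / σ) ≤ K) (hA : 3 * (2 + 2 / σ) * K ≤ |A|) (n : ℕ)
    {E : Set UnitAddCircle} (hE : MeasurableSet E) :
    |volume.real {a | a ∈ PSurv A K x y n ∧
        ((((pm a)^[n + 1] (x, y)).1 : ℝ) : UnitAddCircle) ∈ E} -
      (volume : Measure UnitAddCircle).real E * volume.real (PSurv A K x y n)| ≤
      (864 * (2 + 2 / σ) / K + 2 / σ * (1 / 6) ^ n) *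
        ((volume : Measure UnitAddCircle).real E * volume.real (PSurv A K x y n)) := by
  have H := PP_std (y := y) hσ hx hK hA
  have h := sharp_set H n hE
  have e1 := PSurv_eq A K x y n
    (fun a => ((((pm a)^[n + 1] (x, y)).1 : ℝ) : UnitAddCircle) ∈ E)
  have e2 : SS (PP A x y) K n ∩
      {t | ((((pm (A + t))^[n + 1] (x, y)).1 : ℝ) : UnitAddCircle) ∈ E} =
      SS (PP A x y) K n ∩ XC (PP A x y) (n + 1) ⁻¹' E := by
    ext t
    simp only [Set.mem_inter_iff, Set.mem_ofPred_eq, Set.mem_preimage]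
    rw [PP_orbit]
    rfl
  rw [e2] at e1
  have e3 : volume.real {a | a ∈ PSurv A K x y n ∧
      ((((pm a)^[n + 1] (x, y)).1 : ℝ) : UnitAddCircle) ∈ E} =
      volume.real (SS (PP A x y) K n ∩ XC (PP A x y) (n + 1) ⁻¹' E) := by
    rw [measureReal_def, measureReal_def, e1]
  rw [e3, PSurv_vol]
  exact h

theorem SS_succ {P : Par} {A : ℝ} (hP : ∀ k, P.a k = A) (l : ℝ) (m : ℕ) :
    volume.real (SS P l (m + 1)) = volume.real (SS P l m) -
      volume.real (SS P l m ∩ XC P (m + 1) ⁻¹' SC A l) := by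
  have hm : MeasurableSet (SS P l m ∩ XC P (m + 1) ⁻¹' SC A l) :=
    (SS_meas P l m).inter ((XC_cont P (m + 1)).measurable (SC_meas A l))
  rw [← measureReal_sdiff Set.inter_subset_left hm (SS_fin P l m)]
  congr 1
  ext t
  simp only [SS, Set.mem_sdiff, Set.mem_inter_iff, Set.mem_preimage]
  constructor
  · rintro ⟨h1, h2⟩
    refine ⟨⟨h1, fun k hk1 hk2 => h2 k hk1 (by omega)⟩, fun h3 => ?_⟩
    have h4 : |LC A (XC P (m + 1) t)| ≤ l := h3.2
    unfold XC at h4
    rw [LC_coe] at h4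
    have h5 := h2 (m + 1) (by omega) le_rfl
    rw [hP] at h5
    linarith
  · rintro ⟨⟨h1, h2⟩, h3⟩
    refine ⟨h1, fun k hk1 hk2 => ?_⟩
    rcases Nat.lt_or_ge k (m + 1) with h4 | h4
    · exact h2 k hk1 (by omega)
    · have : k = m + 1 := by omega
      subst this
      rw [hP]
      by_contra hcon
      apply h3
      refine ⟨⟨h1, h2⟩, ?_⟩
      show |LC A (XC P (m + 1) t)| ≤ l
      unfold XC
      rw [LC_coe]
      exact not_lt.1 hcon

theorem param_surv {σ K A x y : ℝ} (hσ : 0 < σ) (hx : σ ≤ |sin (2 * π * x)|)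
    (hK : 864 * (2 + 2 / σ) ≤ K) (hA : 3 * (2 + 2 / σ) * K ≤ |A|) (n : ℕ) :
    (1 - (2 + 2 / σ) * (K / |A|)) ^ n ≤ volume.real (PSurv A K x y n) := by
  have hσ2 : 0 < 2 / σ := by positivity
  have H := PP_std (y := y) hσ hx hK hA
  have hK0 : 0 < K := by linarith
  have hA0 : 0 < |A| := by
    have : 0 < 3 * (2 + 2 / σ) * K := by positivity
    linarith
  have hKA : (2 + 2 / σ) * (K / |A|) ≤ 1 := by
    rw [← mul_div_assoc, div_le_one hA0]
    nlinarith
  rw [PSurv_vol]
  induction n with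
  | zero =>
    have e : SS (PP A x y) K 0 = Set.Ioc 0 1 := by
      unfold SS
      rw [Set.inter_eq_left]
      intro t _ k h1 h2
      omega
    rw [e]
    simp
  | succ n ih =>
    rw [SS_succ (P := PP A x y) (A := A) (fun _ => rfl)]
    have h1 := sharp_set H n (SC_meas A K)
    have h2 := SC_le (a := A) (K := K) (by linarith) (by nlinarith)
    set s := volume.real (SS (PP A x y) K n) with hs
    set h := (volume : Measure UnitAddCircle).real (SC A K) with hh
    have hs0 : 0 ≤ s := measureReal_nonneg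
    have hh0 : 0 ≤ h := measureReal_nonneg
    have h3 := (abs_le.1 h1).2
    have h4 : 864 * (2 + 2 / σ) / K + 2 / σ * (1 / 6) ^ n ≤ 1 + 2 / σ := by
      have q1 : 864 * (2 + 2 / σ) / K ≤ 1 := by
        rw [div_le_one hK0]
        exact hK
      have q2 : (1 / 6 : ℝ) ^ n ≤ 1 := pow_le_one₀ (by norm_num) (by norm_num)
      have q3 := mul_le_mul_of_nonneg_left q2 hσ2.le
      linarith
    have h5 := mul_le_mul_of_nonneg_right h4 (mul_nonneg hh0 hs0)
    have h6 : h ≤ K / |A| := by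
      have : 0 < K / |A| := by positivity
      linarith
    have h7 : (2 + 2 / σ) * (h * s) ≤ (2 + 2 / σ) * (K / |A| * s) := by
      apply mul_le_mul_of_nonneg_left _ (by positivity)
      exact mul_le_mul_of_nonneg_right h6 hs0
    rw [pow_succ, mul_comm]
    have h8 : (1 - (2 + 2 / σ) * (K / |A|)) * (1 - (2 + 2 / σ) * (K / |A|)) ^ n ≤
        (1 - (2 + 2 / σ) * (K / |A|)) * s := by
      apply mul_le_mul_of_nonneg_left ih
      linarith
    linarith

theorem param_hyp {K A x y a : ℝ} (hK : 16 ≤ K) {n : ℕ} (ha : a ∈ PSurv A K x y n) :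
    (K - 8) ^ n ≤ ‖fderiv ℝ (pm a)^[n + 1] (x, y)‖ := by
  obtain ⟨ha1, ha2⟩ := ha
  have hL : ∀ u, |L a u - L A u| ≤ 7 := by
    intro u
    have := L_shift A (t := a - A) ⟨by linarith [ha1.1], by linarith [ha1.2]⟩ u
    rwa [add_sub_cancel] at this
  have htr : ∀ k, 1 ≤ k → k ≤ n → K - 7 ≤ |tr a (x, y) k| := by
    intro k h1 h2
    have h3 := ha2 k h1 h2
    have h4 := hL ((pm a)^[k] (x, y)).1
    have h5 := abs_sub_abs_le_abs_sub (L A ((pm a)^[k] (x, y)).1) (L a ((pm a)^[k] (x, y)).1)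
    rw [abs_sub_comm] at h5
    unfold tr
    linarith
  have hlo := (norm_lower a (x, y) n fun k h1 h2 => by
    have := htr k h1 h2
    linarith).1
  have h1 := (fderiv ℝ (pm a)^[n + 1] (x, y)).le_opNorm (0, 1)
  have h2 : ‖((0, 1) : ℝ × ℝ)‖ = 1 := by simp [Prod.norm_def]
  rw [h2, mul_one] at h1
  refine le_trans ?_ (hlo.trans ((norm_fst_le _).trans h1))
  calc (K - 8) ^ n = ∏ _k ∈ Finset.range n, (K - 8) := by simp
    _ ≤ ∏ k ∈ Finset.range n, (|tr a (x, y) (k + 1)| - 1) := by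
        apply Finset.prod_le_prod
        · intro k _
          linarith
        · intro k hk
          have hk' := Finset.mem_range.1 hk
          have := htr (k + 1) (by omega) (by omega)
          linarith

end Pool.Agent.H52.STD
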