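import Mathlib
import Pool.Agent.H52.STD.Chain

set_option autoImplicit false

/-!
# Two integrals
-/

namespace Pool.Agent.H52.STD

open Real MeasureTheory Function Filter Topology

theorem L_hasDeriv' (a x : ℝ) : HasDerivAt (L a) (-(4 * π ^ 2 * a * sin (2 * π * x))) x := by
  have h := (((hasDerivAt_id x).const_mul (2 * π)).cos.const_mul (2 * π * a)).const_add 2
  refine HasDerivAt.congr_deriv (f := L a) h ?_
  simp only [id]
  ring

theorem sin_nonneg_half {x : ℝ} (hx : x ∈ Set.uIcc (0:ℝ) (1 / 2)) : 0 ≤ sin (2 * π * x) := by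
  rw [Set.uIcc_of_le (by norm_num)] at hx
  apply sin_nonneg_of_nonneg_of_le_pi
  · have := hx.1
    positivity
  · have := hx.2
    nlinarith [pi_pos]

theorem sin_nonpos_half {x : ℝ} (hx : x ∈ Set.uIcc (1 / 2 : ℝ) 1) : sin (2 * π * x) ≤ 0 := by
  rw [Set.uIcc_of_le (by norm_num)] at hx
  have h : sin (2 * π * x) = - sin (2 * π * x - π) := by
    rw [sin_sub_pi, neg_neg]
  rw [h, neg_nonpos]
  apply sin_nonneg_of_nonneg_of_le_pi
  · have := hx.1
    nlinarith [pi_pos]
  · have := hx.2
    nlinarith [pi_pos]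

/-- the variation of a bounded monotone function of `L` -/
theorem var_abs {a : ℝ} {F f : ℝ → ℝ} (hF : ∀ z, HasDerivAt F (f z) z) (hf : Continuous f)
    {M : ℝ} (hM : ∀ x, |F (L a x)| ≤ M) :
    ∫ x in (0:ℝ)..1, |a| * |sin (2 * π * x)| * f (L a x) ≤ M / π ^ 2 := by
  have hLc := L_cont a
  have hc : Continuous (fun x => |a| * |sin (2 * π * x)| * f (L a x)) := by fun_prop
  have hd : ∀ x, HasDerivAt (fun x => F (L a x))
      (f (L a x) * (-(4 * π ^ 2 * a * sin (2 * π * x)))) x := fun x =>
    (hF (L a x)).comp x (L_hasDeriv' a x)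
  have hc' : Continuous (fun x => f (L a x) * (-(4 * π ^ 2 * a * sin (2 * π * x)))) := by fun_prop
  have hpi : 0 < π ^ 2 := by positivity
  obtain ⟨s, hs, hs1⟩ : ∃ s : ℝ, |a| = s * a ∧ |s| = 1 := by
    rcases le_total 0 a with h | h
    · exact ⟨1, by rw [abs_of_nonneg h]; ring, by simp⟩
    · exact ⟨-1, by rw [abs_of_nonpos h]; ring, by simp⟩
  have hsM : ∀ z, s * z ≤ |z| := fun z => by
    calc s * z ≤ |s * z| := le_abs_self _
      _ = |z| := by rw [abs_mul, hs1, one_mul]
  have hsM' : ∀ z, -(s * z) ≤ |z| := fun z => by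
    calc -(s * z) ≤ |s * z| := neg_le_abs _
      _ = |z| := by rw [abs_mul, hs1, one_mul]
  have h1 : ∫ x in (0:ℝ)..(1 / 2), |a| * |sin (2 * π * x)| * f (L a x) =
      s / (4 * π ^ 2) * (F (L a 0) - F (L a (1 / 2))) := by
    have e := intervalIntegral.integral_eq_sub_of_hasDerivAt (a := 0) (b := 1 / 2)
      (fun x _ => hd x) (hc'.intervalIntegrable _ _)
    have e2 : ∫ x in (0:ℝ)..(1 / 2), |a| * |sin (2 * π * x)| * f (L a x) =
        -(s / (4 * π ^ 2)) * ∫ x in (0:ℝ)..(1 / 2),
          f (L a x) * (-(4 * π ^ 2 * a * sin (2 * π * x))) := by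
      rw [← intervalIntegral.integral_const_mul]
      apply intervalIntegral.integral_congr
      intro x hx
      simp only
      rw [abs_of_nonneg (sin_nonneg_half hx), hs]
      field_simp
    rw [e2, e]
    ring
  have h2 : ∫ x in (1 / 2 : ℝ)..1, |a| * |sin (2 * π * x)| * f (L a x) =
      s / (4 * π ^ 2) * (F (L a 1) - F (L a (1 / 2))) := by
    have e := intervalIntegral.integral_eq_sub_of_hasDerivAt (a := 1 / 2) (b := 1)
      (fun x _ => hd x) (hc'.intervalIntegrable _ _)
    have e2 : ∫ x in (1 / 2 : ℝ)..1, |a| * |sin (2 * π * x)| * f (L a x) =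
        (s / (4 * π ^ 2)) * ∫ x in (1 / 2 : ℝ)..1,
          f (L a x) * (-(4 * π ^ 2 * a * sin (2 * π * x))) := by
      rw [← intervalIntegral.integral_const_mul]
      apply intervalIntegral.integral_congr
      intro x hx
      simp only
      rw [abs_of_nonpos (sin_nonpos_half hx), hs]
      field_simp
    rw [e2, e]
  rw [← intervalIntegral.integral_add_adjacent_intervals (hc.intervalIntegrable 0 (1 / 2))
    (hc.intervalIntegrable (1 / 2) 1), h1, h2]
  have m0 := hM 0
  have m1 := hM 1
  have m2 := hM (1 / 2)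
  have k0 := hsM (F (L a 0))
  have k1 := hsM (F (L a 1))
  have k2 := hsM' (F (L a (1 / 2)))
  rw [← mul_add, div_mul_eq_mul_div, div_le_div_iff₀ (by positivity) hpi]
  have : s * (F (L a 0) - F (L a (1 / 2)) + (F (L a 1) - F (L a (1 / 2)))) ≤ 4 * M := by
    have e : s * (F (L a 0) - F (L a (1 / 2)) + (F (L a 1) - F (L a (1 / 2)))) =
      s * F (L a 0) + s * F (L a 1) + (-(s * F (L a (1 / 2)))) + (-(s * F (L a (1 / 2)))) := by ring
    rw [e]
    linarith
  nlinarith

/-- splitting `|a|` along sine and cosine -/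
theorem split_a (a : ℝ) (x : ℝ) :
    |a| ≤ |a| * |sin (2 * π * x)| + (|L a x| + 2) / 6 := by
  have h1 : 2 * π * |a| * |cos (2 * π * x)| ≤ |L a x| + 2 := by
    have e : |2 * π * a * cos (2 * π * x)| = 2 * π * |a| * |cos (2 * π * x)| := by
      rw [abs_mul, abs_mul, abs_mul, abs_of_pos pi_pos, abs_of_pos (by norm_num : (0:ℝ) < 2)]
    rw [← e]
    have e2 : 2 * π * a * cos (2 * π * x) = L a x - 2 := by
      unfold L
      ring
    rw [e2]
    have := abs_sub (L a x) 2
    rwa [abs_of_pos (by norm_num : (0:ℝ) < 2)] at this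
  have hpi := pi_gt_three
  have hc0 := abs_nonneg (cos (2 * π * x))
  have hc1 := abs_cos_le_one (2 * π * x)
  have hs0 := abs_nonneg (sin (2 * π * x))
  have hs1 := abs_sin_le_one (2 * π * x)
  have h2 : |a| * |cos (2 * π * x)| ≤ (|L a x| + 2) / 6 := by
    have q : 6 * (|a| * |cos (2 * π * x)|) ≤ 2 * π * |a| * |cos (2 * π * x)| := by
      have : 0 ≤ |a| * |cos (2 * π * x)| := by positivity
      nlinarith
    linarith
  have h3 : sin (2 * π * x) ^ 2 + cos (2 * π * x) ^ 2 = 1 := sin_sq_add_cos_sq _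
  have h4 : sin (2 * π * x) ^ 2 ≤ |sin (2 * π * x)| := by
    rw [← sq_abs]
    nlinarith
  have h5 : cos (2 * π * x) ^ 2 ≤ |cos (2 * π * x)| := by
    rw [← sq_abs]
    nlinarith
  have h6 : |a| ≤ |a| * |sin (2 * π * x)| + |a| * |cos (2 * π * x)| := by
    rw [← mul_add]
    have : 1 ≤ |sin (2 * π * x)| + |cos (2 * π * x)| := by linarith
    nlinarith [abs_nonneg a]
  linarith

/-- the first integral -/
theorem int_sq {a s : ℝ} (ha : 1 ≤ |a|) (hs : 0 < s) :
    ∫ x in (0:ℝ)..1, |a| / (L a x ^ 2 + s ^ 2) ≤ 1 / s := by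
  have hLc := L_cont a
  have hden : ∀ x, 0 < L a x ^ 2 + s ^ 2 := fun x => by positivity
  have hdc : Continuous (fun x => 1 / (L a x ^ 2 + s ^ 2)) :=
    continuous_const.div (by fun_prop) fun x => (hden x).ne'
  have hv := var_abs (a := a) (F := fun z => arctan (z / s)) (f := fun z => s / (z ^ 2 + s ^ 2))
    (by
      intro z
      have h := (hasDerivAt_arctan (z / s)).comp z ((hasDerivAt_id z).div_const s)
      refine HasDerivAt.congr_deriv (f := fun z => arctan (z / s)) h ?_
      field_simp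
      ring)
    (by
      apply continuous_const.div (by fun_prop)
      intro z
      positivity)
    (M := π / 2) (by
      intro x
      rw [abs_le]
      exact ⟨(neg_pi_div_two_lt_arctan _).le, (arctan_lt_pi_div_two _).le⟩)
  have hpi := pi_gt_three
  have hv2 : π / 2 / π ^ 2 ≤ 1 / 6 := by
    rw [div_div, div_le_div_iff₀ (by positivity) (by norm_num)]
    nlinarith
  set I := ∫ x in (0:ℝ)..1, |a| / (L a x ^ 2 + s ^ 2) with hI
  have hJ : ∫ x in (0:ℝ)..1, 1 / (L a x ^ 2 + s ^ 2) ≤ I := by
    apply intervalIntegral.integral_mono_on zero_le_one (hdc.intervalIntegrable _ _)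
    · exact (continuous_const.div (by fun_prop) fun x => (hden x).ne').intervalIntegrable _ _
    · intro x _
      exact div_le_div_of_nonneg_right ha (hden x).le
  have hpt : ∀ x, |a| / (L a x ^ 2 + s ^ 2) ≤
      1 / s * (|a| * |sin (2 * π * x)| * (s / (L a x ^ 2 + s ^ 2))) + 1 / (12 * s) +
        1 / 3 * (1 / (L a x ^ 2 + s ^ 2)) := by
    intro x
    have h1 := split_a a x
    have h2 : |L a x| / (L a x ^ 2 + s ^ 2) ≤ 1 / (2 * s) := by
      rw [div_le_div_iff₀ (hden x) (by positivity)]
      nlinarith [sq_nonneg (|L a x| - s), sq_abs (L a x)]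
    calc |a| / (L a x ^ 2 + s ^ 2) ≤
        (|a| * |sin (2 * π * x)| + (|L a x| + 2) / 6) / (L a x ^ 2 + s ^ 2) :=
          div_le_div_of_nonneg_right h1 (hden x).le
      _ = 1 / s * (|a| * |sin (2 * π * x)| * (s / (L a x ^ 2 + s ^ 2))) +
          1 / 6 * (|L a x| / (L a x ^ 2 + s ^ 2)) + 1 / 3 * (1 / (L a x ^ 2 + s ^ 2)) := by
          field_simp
          ring
      _ ≤ _ := by
          have e : 1 / (12 * s) = 1 / 6 * (1 / (2 * s)) := by field_simp; norm_num
          rw [e]
          linarith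
  have c1 : Continuous (fun x => |a| * |sin (2 * π * x)| * (s / (L a x ^ 2 + s ^ 2))) := by
    apply Continuous.mul (by fun_prop)
    exact continuous_const.div (by fun_prop) fun x => (hden x).ne'
  have hmono : I ≤ ∫ x in (0:ℝ)..1,
      (1 / s * (|a| * |sin (2 * π * x)| * (s / (L a x ^ 2 + s ^ 2))) + 1 / (12 * s) +
        1 / 3 * (1 / (L a x ^ 2 + s ^ 2))) := by
    apply intervalIntegral.integral_mono_on zero_le_one
    · exact (continuous_const.div (by fun_prop) fun x => (hden x).ne').intervalIntegrable _ _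
    · exact (((continuous_const.mul c1).add continuous_const).add
        (continuous_const.mul hdc)).intervalIntegrable _ _
    · intro x _
      exact hpt x
  rw [intervalIntegral.integral_add, intervalIntegral.integral_add,
    intervalIntegral.integral_const_mul, intervalIntegral.integral_const_mul] at hmono
  · simp only [intervalIntegral.integral_const, sub_zero, smul_eq_mul, one_mul] at hmono
    have h3 : 1 / s * (∫ x in (0:ℝ)..1,
        |a| * |sin (2 * π * x)| * (s / (L a x ^ 2 + s ^ 2))) ≤ 1 / s * (1 / 6) :=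
      mul_le_mul_of_nonneg_left (hv.trans hv2) (by positivity)
    have h4 : 1 / (12 * s) = 1 / s * (1 / 12) := by field_simp
    rw [h4] at hmono
    have h5 : 0 < 1 / s := by positivity
    linarith
  · exact (continuous_const.mul c1).intervalIntegrable _ _
  · exact intervalIntegrable_const
  · exact ((continuous_const.mul c1).add continuous_const).intervalIntegrable _ _
  · exact (continuous_const.mul hdc).intervalIntegrable _ _

theorem arsinh_le {z : ℝ} (hz : 0 ≤ z) : arsinh z ≤ log (1 + 2 * z) := by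
  unfold arsinh
  apply log_le_log
  · positivity
  · have : √(1 + z ^ 2) ≤ 1 + z := by
      rw [show (1:ℝ) + z = √((1 + z) ^ 2) from (Real.sqrt_sq (by positivity)).symm]
      apply Real.sqrt_le_sqrt
      nlinarith
    linarith

/-- the second integral -/
theorem int_sqrt {a u : ℝ} (ha : 1 ≤ |a|) (hu : 0 < u) :
    ∫ x in (0:ℝ)..1, |a| / √(L a x ^ 2 + u ^ 2) ≤ 1 + log (1 + 18 * |a| / u) := by
  have hLc := L_cont a
  have hden : ∀ z : ℝ, 0 < √(z ^ 2 + u ^ 2) := fun z => Real.sqrt_pos.2 (by positivity)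
  have hsc : Continuous (fun z : ℝ => √(z ^ 2 + u ^ 2)) := by fun_prop
  have hdc0 : Continuous (fun z : ℝ => 1 / √(z ^ 2 + u ^ 2)) :=
    continuous_const.div hsc fun z => (hden z).ne'
  have hdc : Continuous (fun x => 1 / √(L a x ^ 2 + u ^ 2)) := hdc0.comp hLc
  have hLb : ∀ x, |L a x| ≤ 9 * |a| := by
    intro x
    unfold L
    have h1 := abs_cos_le_one (2 * π * x)
    have h2 : |2 * π * a * cos (2 * π * x)| ≤ 2 * π * |a| := by
      rw [abs_mul, abs_mul, abs_mul, abs_of_pos pi_pos, abs_of_pos (by norm_num : (0:ℝ) < 2)]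
      have : 0 ≤ 2 * π * |a| := by positivity
      nlinarith [abs_nonneg (cos (2 * π * x))]
    have h3 := abs_add_le 2 (2 * π * a * cos (2 * π * x))
    rw [abs_of_pos (by norm_num : (0:ℝ) < 2)] at h3
    have h4 := pi_lt_d2
    nlinarith
  set M := log (1 + 18 * |a| / u) with hM
  have hM0 : 0 ≤ M := by
    apply log_nonneg
    have : 0 ≤ 18 * |a| / u := by positivity
    linarith
  have hv := var_abs (a := a) (F := fun z => arsinh (z / u)) (f := fun z => 1 / √(z ^ 2 + u ^ 2))
    (by
      intro z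
      have h := (hasDerivAt_arsinh (z / u)).comp z ((hasDerivAt_id z).div_const u)
      refine HasDerivAt.congr_deriv (f := fun z => arsinh (z / u)) h ?_
      have e : √(1 + (z / u) ^ 2) = √(z ^ 2 + u ^ 2) / u := by
        rw [show 1 + (z / u) ^ 2 = (z ^ 2 + u ^ 2) / u ^ 2 by field_simp; ring,
          Real.sqrt_div (by positivity), Real.sqrt_sq hu.le]
      rw [e]
      have := hden z
      field_simp)
    hdc0
    (M := M) (by
      intro x
      have h1 : |arsinh (L a x / u)| = arsinh (|L a x| / u) := by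
        rcases le_total 0 (L a x) with h | h
        · rw [abs_of_nonneg h, abs_of_nonneg (arsinh_nonneg_iff.2 (by positivity))]
        · rw [abs_of_nonpos h, abs_of_nonpos (arsinh_nonpos_iff.2
            (div_nonpos_of_nonpos_of_nonneg h hu.le)), neg_div, arsinh_neg]
      rw [h1]
      refine (arsinh_le (by positivity)).trans ?_
      apply log_le_log
      · have : 0 ≤ |L a x| / u := by positivity
        linarith
      · have h2 := hLb x
        have h3 : |L a x| / u ≤ 9 * |a| / u := div_le_div_of_nonneg_right h2 hu.le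
        have e : 18 * |a| / u = 2 * (9 * |a| / u) := by ring
        rw [e]
        linarith)
  have hpi := pi_gt_three
  have hv2 : M / π ^ 2 ≤ 1 / 6 * M := by
    rw [div_le_iff₀ (by positivity)]
    have h9 : 9 ≤ π ^ 2 := by nlinarith
    nlinarith
  set I := ∫ x in (0:ℝ)..1, |a| / √(L a x ^ 2 + u ^ 2) with hI
  have hIc : Continuous (fun x => |a| / √(L a x ^ 2 + u ^ 2)) :=
    continuous_const.div (hsc.comp hLc) fun x => (hden (L a x)).ne'
  have hJ : ∫ x in (0:ℝ)..1, 1 / √(L a x ^ 2 + u ^ 2) ≤ I := by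
    apply intervalIntegral.integral_mono_on zero_le_one (hdc.intervalIntegrable _ _)
      (hIc.intervalIntegrable _ _)
    intro x _
    exact div_le_div_of_nonneg_right ha (hden _).le
  have hpt : ∀ x, |a| / √(L a x ^ 2 + u ^ 2) ≤
      (|a| * |sin (2 * π * x)| * (1 / √(L a x ^ 2 + u ^ 2))) + 1 / 6 +
        1 / 3 * (1 / √(L a x ^ 2 + u ^ 2)) := by
    intro x
    have h1 := split_a a x
    have hd := hden (L a x)
    have h2 : |L a x| / √(L a x ^ 2 + u ^ 2) ≤ 1 := by
      rw [div_le_one hd]
      rw [← Real.sqrt_sq_eq_abs]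
      apply Real.sqrt_le_sqrt
      nlinarith [sq_nonneg u]
    calc |a| / √(L a x ^ 2 + u ^ 2) ≤
        (|a| * |sin (2 * π * x)| + (|L a x| + 2) / 6) / √(L a x ^ 2 + u ^ 2) :=
          div_le_div_of_nonneg_right h1 hd.le
      _ = (|a| * |sin (2 * π * x)| * (1 / √(L a x ^ 2 + u ^ 2))) +
          1 / 6 * (|L a x| / √(L a x ^ 2 + u ^ 2)) + 1 / 3 * (1 / √(L a x ^ 2 + u ^ 2)) := by
          ring
      _ ≤ _ := by linarith
  have c1 : Continuous (fun x => |a| * |sin (2 * π * x)| * (1 / √(L a x ^ 2 + u ^ 2))) :=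
    Continuous.mul (by fun_prop) hdc
  have hmono : I ≤ ∫ x in (0:ℝ)..1,
      ((|a| * |sin (2 * π * x)| * (1 / √(L a x ^ 2 + u ^ 2))) + 1 / 6 +
        1 / 3 * (1 / √(L a x ^ 2 + u ^ 2))) := by
    apply intervalIntegral.integral_mono_on zero_le_one (hIc.intervalIntegrable _ _)
      (((c1.add continuous_const).add (continuous_const.mul hdc)).intervalIntegrable _ _)
    intro x _
    exact hpt x
  rw [intervalIntegral.integral_add, intervalIntegral.integral_add,
    intervalIntegral.integral_const_mul] at hmono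
  · simp only [intervalIntegral.integral_const, sub_zero, smul_eq_mul, one_mul] at hmono
    linarith
  · exact c1.intervalIntegrable _ _
  · exact intervalIntegrable_const
  · exact (c1.add continuous_const).intervalIntegrable _ _
  · exact (continuous_const.mul hdc).intervalIntegrable _ _

end Pool.Agent.H52.STD
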