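import Mathlib
import Pool.Agent.H52.STD.Chain

set_option autoImplicit false

/-!
# Chains whose consecutive derivatives have large products
-/

namespace Pool.Agent.H52.STD

open Real MeasureTheory Function Filter Topology

/-- the derivative along the orbit -/
noncomputable def LL (P : Par) (k : ℕ) (t : ℝ) : ℝ := L (P.a k) (X P k t)

/-- the products of consecutive derivatives are large, and the last derivative is large -/
structure GQ (P : Par) (lm l : ℝ) (m : ℕ) (t : ℝ) : Prop where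
  pair : ∀ j, 1 ≤ j → j ≤ m → lm ≤ |LL P j t| * |LL P (j + 1) t|
  last : l ≤ |LL P (m + 1) t|

/-- the tail products -/
noncomputable def RR (P : Par) (m : ℕ) (t : ℝ) (i : ℕ) : ℝ :=
  ∏ k ∈ Finset.Ico i (m + 2), 2 / |LL P k t|

section

variable {P : Par} {lm l t : ℝ} {m : ℕ}

theorem D_succ' (hb : P.b = 0) (k : ℕ) (t : ℝ) : D P (k + 2) t =
    LL P (k + 1) t * D P (k + 1) t - D P k t := by
  rw [D_succ, hb]
  unfold LL
  ring_nf

theorem B_succ' (hb : P.b = 0) (k : ℕ) (t : ℝ) : B P (k + 2) t =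
    LL P (k + 1) t * B P (k + 1) t
      - 4 * π ^ 2 * P.a (k + 1) * sin (2 * π * X P (k + 1) t) * D P (k + 1) t ^ 2 - B P k t := by
  rw [B_succ, hb]
  unfold LL
  ring_nf

theorem GQ.ne (h : GQ P lm l m t) (hlm : 16 ≤ lm) (hl : 4 ≤ l) {k : ℕ} (h1 : 1 ≤ k)
    (h2 : k ≤ m + 1) : 0 < |LL P k t| := by
  rcases Nat.lt_or_ge m k with h3 | h3
  · have : k = m + 1 := by omega
    subst this
    have := h.last
    linarith
  · have h4 := h.pair k h1 h3
    by_contra hcon
    have h5 : |LL P k t| = 0 := le_antisymm (not_lt.1 hcon) (abs_nonneg _)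
    rw [h5, zero_mul] at h4
    linarith

theorem RR_succ {i : ℕ} (hi : i ≤ m + 1) : RR P m t i = 2 / |LL P i t| * RR P m t (i + 1) := by
  unfold RR
  exact Finset.prod_eq_prod_Ico_succ_bot (by omega) _

theorem RR_last : RR P m t (m + 2) = 1 := by
  unfold RR
  simp

theorem RR_nonneg (i : ℕ) : 0 ≤ RR P m t i := Finset.prod_nonneg fun k _ => by positivity

theorem RR_le (h : GQ P lm l m t) (hlm : 16 ≤ lm) (hl : 4 ≤ l) (n : ℕ) :
    ∀ i, 1 ≤ i → i + n = m + 2 → RR P m t i ≤ (1 / 2) ^ n := by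
  induction n using Nat.strong_induction_on with
  | _ n ih =>
    intro i hi hn
    match n, ih, hn with
    | 0, _, hn =>
      have : i = m + 2 := by omega
      rw [this, RR_last]
      simp
    | 1, _, hn =>
      have : i = m + 1 := by omega
      rw [this, RR_succ le_rfl, RR_last, mul_one, pow_one]
      have h1 := h.last
      have h2 : 0 < |LL P (m + 1) t| := by linarith
      rw [div_le_div_iff₀ h2 (by norm_num)]
      linarith
    | n + 2, ih, hn =>
      have h1 := ih n (by omega) (i + 2) (by omega) (by omega)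
      have h2 := h.pair i hi (by omega)
      have p1 := h.ne hlm hl hi (by omega)
      have p2 := h.ne hlm hl (k := i + 1) (by omega) (by omega)
      rw [RR_succ (by omega), RR_succ (by omega)]
      have h3 := RR_nonneg (P := P) (m := m) (t := t) (i + 1 + 1)
      have e : 2 / |LL P i t| * (2 / |LL P (i + 1) t| * RR P m t (i + 1 + 1)) =
          4 / (|LL P i t| * |LL P (i + 1) t|) * RR P m t (i + 1 + 1) := by
        field_simp
        ring
      rw [e]
      have h4 : 4 / (|LL P i t| * |LL P (i + 1) t|) ≤ 1 / 4 := by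
        rw [div_le_div_iff₀ (by positivity) (by norm_num)]
        linarith
      calc _ ≤ 1 / 4 * RR P m t (i + 1 + 1) := mul_le_mul_of_nonneg_right h4 h3
        _ ≤ 1 / 4 * (1 / 2) ^ n := mul_le_mul_of_nonneg_left h1 (by norm_num)
        _ = _ := by ring

/-- growth -/
theorem growQ (h : GQ P lm l m t) (hlm : 16 ≤ lm) (hl : 4 ≤ l) (hb : P.b = 0) (hc : P.c = 1)
    (k : ℕ) : k ≤ m → 7 * (|LL P (k + 1) t| * |D P (k + 1) t|) ≤ 8 * |D P (k + 2) t| := by
  induction k with
  | zero =>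
    intro _
    rw [D_succ' hb]
    have e0 : D P 0 t = 0 := by simp only [D]
    rw [zero_add, e0, sub_zero, abs_mul]
    have : 0 ≤ |LL P 1 t| * |D P 1 t| := by positivity
    linarith
  | succ k ih =>
    intro hk
    have h1 := ih (by omega)
    have h2 := h.pair (k + 1) (by omega) hk
    have p1 := h.ne hlm hl (k := k + 1) (by omega) (by omega)
    rw [D_succ' hb (k + 1)]
    have h3 := abs_sub_abs_le_abs_sub (LL P (k + 1 + 1) t * D P (k + 1 + 1) t) (D P (k + 1) t)
    rw [abs_mul] at h3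
    have h4 : 14 * |D P (k + 1) t| ≤ |LL P (k + 1 + 1) t| * |D P (k + 1 + 1) t| := by
      have h5 : 7 * (|LL P (k + 1) t| * |D P (k + 1) t|) * |LL P (k + 1 + 1) t| ≤
          8 * |D P (k + 2) t| * |LL P (k + 1 + 1) t| :=
        mul_le_mul_of_nonneg_right h1 (abs_nonneg _)
      have h6 : 16 * |D P (k + 1) t| ≤ (|LL P (k + 1) t| * |LL P (k + 1 + 1) t|) *
          |D P (k + 1) t| := by
        apply mul_le_mul_of_nonneg_right _ (abs_nonneg _)
        linarith
      nlinarith
    have h7 : 0 ≤ |LL P (k + 1 + 1) t| * |D P (k + 1 + 1) t| := by positivity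
    linarith

/-- the derivative before the end -/
theorem DR (h : GQ P lm l m t) (hlm : 16 ≤ lm) (hl : 4 ≤ l) (hb : P.b = 0) (hc : P.c = 1)
    (n : ℕ) : ∀ i, 1 ≤ i → i + n = m + 2 → |D P i t| ≤ RR P m t i * |D P (m + 2) t| := by
  induction n with
  | zero =>
    intro i _ hn
    have : i = m + 2 := by omega
    rw [this, RR_last, one_mul]
  | succ n ih =>
    intro i hi hn
    have h1 := ih (i + 1) (by omega) (by omega)
    obtain ⟨k, rfl⟩ : ∃ k, i = k + 1 := ⟨i - 1, by omega⟩
    have h2 := growQ h hlm hl hb hc k (by omega)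
    have p1 := h.ne hlm hl (k := k + 1) (by omega) (by omega)
    rw [RR_succ (by omega)]
    have h3 : |D P (k + 1) t| ≤ 2 / |LL P (k + 1) t| * |D P (k + 2) t| := by
      rw [div_mul_eq_mul_div, le_div_iff₀ p1]
      have : 0 ≤ |D P (k + 2) t| := abs_nonneg _
      nlinarith
    calc _ ≤ 2 / |LL P (k + 1) t| * |D P (k + 2) t| := h3
      _ ≤ 2 / |LL P (k + 1) t| * (RR P m t (k + 2) * |D P (m + 2) t|) :=
          mul_le_mul_of_nonneg_left h1 (by positivity)
      _ = _ := by ring

theorem D_pos (h : GQ P lm l m t) (hlm : 16 ≤ lm) (hl : 4 ≤ l) (hb : P.b = 0) (hc : P.c = 1) :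
    D P (m + 2) t ≠ 0 := by
  have h1 := DR h hlm hl hb hc (m + 1) 1 le_rfl (by omega)
  have e1 : D P 1 t = 1 := by simp only [D, hc]
  rw [e1, abs_one] at h1
  intro h0
  rw [h0, abs_zero, mul_zero] at h1
  linarith

/-- the derivative at the end -/
theorem D_large (h : GQ P lm l m t) (hlm : 16 ≤ lm) (hl : 4 ≤ l) (hb : P.b = 0) (hc : P.c = 1) :
    1 ≤ (1 / 2) ^ (m + 1) * |D P (m + 2) t| := by
  have h1 := DR h hlm hl hb hc (m + 1) 1 le_rfl (by omega)
  have e1 : D P 1 t = 1 := by simp only [D, hc]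
  rw [e1, abs_one] at h1
  have h2 := RR_le h hlm hl (m + 1) 1 le_rfl (by omega)
  exact h1.trans (mul_le_mul_of_nonneg_right h2 (abs_nonneg _))

theorem third_arith {A0 A1 d0 d1 d2 b r S0 S1 : ℝ} (hA0 : 0 ≤ A0) (hA1 : 0 ≤ A1)
    (hA : 16 ≤ A0 * A1) (hd0 : A0 ^ 2 * d0 ≤ 64 / 49 * d1) (hd1 : A1 ^ 2 * d1 ≤ 64 / 49 * d2)
    (h0' : 0 ≤ d0) (h2 : 0 ≤ d2) (hS0 : 0 ≤ S0) (hS : S0 ≤ S1) (h0 : b * r ≤ d0 * S0) :
    b * (A1 / 2 * (A0 / 2 * r)) ≤ 1 / 20 * (d2 * S1) := by
  have hAA : 0 ≤ A0 * A1 := mul_nonneg hA0 hA1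
  have q1 : A0 * A1 / 4 * (b * r) ≤ A0 * A1 / 4 * (d0 * S0) :=
    mul_le_mul_of_nonneg_left h0 (by positivity)
  have q0 : 16 * (A0 * A1) ≤ (A0 * A1) * (A0 * A1) := mul_le_mul_of_nonneg_right hA hAA
  have q2 : 16 * (A0 * A1) * d0 ≤ (A0 * A1) * (A0 * A1) * d0 :=
    mul_le_mul_of_nonneg_right q0 h0'
  have q3 : A1 ^ 2 * (A0 ^ 2 * d0) ≤ A1 ^ 2 * (64 / 49 * d1) :=
    mul_le_mul_of_nonneg_left hd0 (by positivity)
  have e3 : (A0 * A1) * (A0 * A1) * d0 = A1 ^ 2 * (A0 ^ 2 * d0) := by ring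
  have e4 : A1 ^ 2 * (64 / 49 * d1) = 64 / 49 * (A1 ^ 2 * d1) := by ring
  have e5 : A0 * A1 / 4 * d0 = 1 / 64 * (16 * (A0 * A1) * d0) := by ring
  have q4 : A0 * A1 / 4 * d0 ≤ 1 / 20 * d2 := by
    rw [e5]
    rw [e3] at q2
    rw [e4] at q3
    linarith
  have q5 : A0 * A1 / 4 * d0 * S0 ≤ 1 / 20 * d2 * S0 := mul_le_mul_of_nonneg_right q4 hS0
  have q6 : 1 / 20 * d2 * S0 ≤ 1 / 20 * d2 * S1 := mul_le_mul_of_nonneg_left hS (by positivity)
  calc b * (A1 / 2 * (A0 / 2 * r)) = A0 * A1 / 4 * (b * r) := by ring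
    _ ≤ A0 * A1 / 4 * (d0 * S0) := q1
    _ = A0 * A1 / 4 * d0 * S0 := by ring
    _ ≤ 1 / 20 * d2 * S1 := q5.trans q6
    _ = _ := by ring

/-- the sources -/
noncomputable def sB (P : Par) (m : ℕ) (t : ℝ) (k : ℕ) : ℝ :=
  ∑ j ∈ Finset.range k, 100 * |P.a (j + 1)| / LL P (j + 1) t ^ 2 * RR P m t (j + 2)

theorem sB_nonneg (k : ℕ) : 0 ≤ sB P m t k := Finset.sum_nonneg fun j _ => by
  have := RR_nonneg (P := P) (m := m) (t := t) (j + 2)
  positivity

/-- second derivatives -/
theorem BR (h : GQ P lm l m t) (hlm : 16 ≤ lm) (hl : 4 ≤ l) (hb : P.b = 0) (hc : P.c = 1)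
    (k : ℕ) : k ≤ m + 1 → |B P (k + 1) t| * RR P m t (k + 1) ≤
      D P (k + 1) t ^ 2 * sB P m t k := by
  have hpi : 4 * π ^ 2 ≤ 40 := by
    have := pi_lt_d2
    have := pi_pos
    nlinarith
  -- squares of the derivatives
  have hD2 : ∀ k, k ≤ m → LL P (k + 1) t ^ 2 * D P (k + 1) t ^ 2 ≤
      64 / 49 * D P (k + 2) t ^ 2 := by
    intro k hk
    have h1 := growQ h hlm hl hb hc k hk
    have h2 : |LL P (k + 1) t| * |D P (k + 1) t| ≤ 8 / 7 * |D P (k + 2) t| := by linarith
    have h3 := mul_self_le_mul_self (by positivity) h2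
    rw [← sq_abs (LL P (k + 1) t), ← sq_abs (D P (k + 1) t), ← sq_abs (D P (k + 2) t)]
    nlinarith
  have hs : ∀ k, |sin (2 * π * X P k t)| ≤ 1 := fun k => abs_sin_le_one _
  induction k using Nat.strong_induction_on with
  | _ k ih =>
    intro hk
    match k, ih, hk with
    | 0, _, _ => simp [B, sB]
    | k + 1, ih, hk =>
      have h1 := ih k (by omega) (by omega)
      have p1 := h.ne hlm hl (k := k + 1) (by omega) (by omega)
      have hd1 := hD2 k (by omega)
      have hR2 := RR_nonneg (P := P) (m := m) (t := t) (k + 2)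
      have eR : RR P m t (k + 2) = |LL P (k + 1) t| / 2 * RR P m t (k + 1) := by
        rw [RR_succ (i := k + 1) (by omega)]
        field_simp
      have hB : |B P (k + 2) t| ≤ |LL P (k + 1) t| * |B P (k + 1) t| +
          40 * |P.a (k + 1)| * D P (k + 1) t ^ 2 + |B P k t| := by
        rw [B_succ' hb]
        have q1 := abs_sub (LL P (k + 1) t * B P (k + 1) t
          - 4 * π ^ 2 * P.a (k + 1) * sin (2 * π * X P (k + 1) t) * D P (k + 1) t ^ 2) (B P k t)
        have q2 := abs_sub (LL P (k + 1) t * B P (k + 1) t)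
          (4 * π ^ 2 * P.a (k + 1) * sin (2 * π * X P (k + 1) t) * D P (k + 1) t ^ 2)
        have q3 : |4 * π ^ 2 * P.a (k + 1) * sin (2 * π * X P (k + 1) t) * D P (k + 1) t ^ 2| ≤
            40 * |P.a (k + 1)| * D P (k + 1) t ^ 2 := by
          rw [abs_mul, abs_mul, abs_mul, abs_of_nonneg (by positivity : 0 ≤ 4 * π ^ 2),
            abs_of_nonneg (sq_nonneg (D P (k + 1) t))]
          apply mul_le_mul_of_nonneg_right _ (sq_nonneg _)
          have r1 := hs (k + 1)
          have r2 := abs_nonneg (P.a (k + 1))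
          have r3 : 0 ≤ 4 * π ^ 2 * |P.a (k + 1)| := by positivity
          calc 4 * π ^ 2 * |P.a (k + 1)| * |sin (2 * π * X P (k + 1) t)| ≤
              4 * π ^ 2 * |P.a (k + 1)| * 1 := mul_le_mul_of_nonneg_left r1 r3
            _ ≤ _ := by nlinarith
        rw [abs_mul] at q2
        linarith
      -- the first term
      have t1 : |LL P (k + 1) t| * |B P (k + 1) t| * RR P m t (k + 2) ≤
          32 / 49 * (D P (k + 2) t ^ 2 * sB P m t k) := by
        rw [eR]
        have e : |LL P (k + 1) t| * |B P (k + 1) t| * (|LL P (k + 1) t| / 2 * RR P m t (k + 1)) =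
            LL P (k + 1) t ^ 2 / 2 * (|B P (k + 1) t| * RR P m t (k + 1)) := by
          rw [← sq_abs (LL P (k + 1) t)]
          ring
        rw [e]
        have q1 : LL P (k + 1) t ^ 2 / 2 * (|B P (k + 1) t| * RR P m t (k + 1)) ≤
            LL P (k + 1) t ^ 2 / 2 * (D P (k + 1) t ^ 2 * sB P m t k) :=
          mul_le_mul_of_nonneg_left h1 (by positivity)
        have q2 := mul_le_mul_of_nonneg_right hd1 (sB_nonneg (P := P) (m := m) (t := t) k)
        nlinarith
      -- the second term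
      have t2 : 40 * |P.a (k + 1)| * D P (k + 1) t ^ 2 * RR P m t (k + 2) ≤
          D P (k + 2) t ^ 2 * (100 * |P.a (k + 1)| / LL P (k + 1) t ^ 2 * RR P m t (k + 2)) := by
        have pL : 0 < LL P (k + 1) t ^ 2 := by
          rw [← sq_abs]
          positivity
        have q1 : D P (k + 1) t ^ 2 ≤ 64 / 49 * D P (k + 2) t ^ 2 / LL P (k + 1) t ^ 2 := by
          rw [le_div_iff₀ pL]
          linarith
        have q2 : 40 * |P.a (k + 1)| * D P (k + 1) t ^ 2 ≤
            40 * |P.a (k + 1)| * (64 / 49 * D P (k + 2) t ^ 2 / LL P (k + 1) t ^ 2) :=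
          mul_le_mul_of_nonneg_left q1 (by positivity)
        have q3 : 40 * |P.a (k + 1)| * (64 / 49 * D P (k + 2) t ^ 2 / LL P (k + 1) t ^ 2) ≤
            D P (k + 2) t ^ 2 * (100 * |P.a (k + 1)| / LL P (k + 1) t ^ 2) := by
          have : 0 ≤ |P.a (k + 1)| * D P (k + 2) t ^ 2 / LL P (k + 1) t ^ 2 := by positivity
          have e1 : 40 * |P.a (k + 1)| * (64 / 49 * D P (k + 2) t ^ 2 / LL P (k + 1) t ^ 2) =
            2560 / 49 * (|P.a (k + 1)| * D P (k + 2) t ^ 2 / LL P (k + 1) t ^ 2) := by ring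
          have e2 : D P (k + 2) t ^ 2 * (100 * |P.a (k + 1)| / LL P (k + 1) t ^ 2) =
            100 * (|P.a (k + 1)| * D P (k + 2) t ^ 2 / LL P (k + 1) t ^ 2) := by ring
          rw [e1, e2]
          linarith
        calc _ ≤ D P (k + 2) t ^ 2 * (100 * |P.a (k + 1)| / LL P (k + 1) t ^ 2) *
              RR P m t (k + 2) := mul_le_mul_of_nonneg_right (q2.trans q3) hR2
          _ = _ := by ring
      -- the third term
      have t3 : |B P k t| * RR P m t (k + 2) ≤ 1 / 20 * (D P (k + 2) t ^ 2 * sB P m t k) := by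
        match k, ih, h1, p1, hd1, hR2, eR, hB, t1, t2, hk with
        | 0, _, _, _, _, _, _, _, _, _, _ => simp [B, sB]
        | k + 1, ih, h1, p1, hd1, hR2, eR, hB, t1, t2, hk =>
          have h0 := ih k (by omega) (by omega)
          have p0 := h.ne hlm hl (k := k + 1) (by omega) (by omega)
          have hd0 := hD2 k (by omega)
          have hp := h.pair (k + 1) (by omega) (by omega)
          have eR' : RR P m t (k + 1 + 1) = |LL P (k + 1) t| / 2 * RR P m t (k + 1) := by
            rw [RR_succ (i := k + 1) (by omega)]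
            field_simp
          have hmono : sB P m t k ≤ sB P m t (k + 1) := by
            unfold sB
            rw [Finset.sum_range_succ]
            have := RR_nonneg (P := P) (m := m) (t := t) (k + 2)
            have : 0 ≤ 100 * |P.a (k + 1)| / LL P (k + 1) t ^ 2 * RR P m t (k + 2) := by
              positivity
            linarith
          rw [← sq_abs (LL P (k + 1) t)] at hd0
          rw [← sq_abs (LL P (k + 1 + 1) t)] at hd1
          rw [eR, eR']
          exact third_arith (abs_nonneg _) (abs_nonneg _) (hlm.trans hp) hd0 hd1 (sq_nonneg _)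
            (sq_nonneg _) (sB_nonneg k) hmono h0
      have eS : sB P m t (k + 1) = sB P m t k +
          100 * |P.a (k + 1)| / LL P (k + 1) t ^ 2 * RR P m t (k + 2) := by
        unfold sB
        rw [Finset.sum_range_succ]
      rw [eS, mul_add]
      have h9 := mul_le_mul_of_nonneg_right hB hR2
      rw [add_mul, add_mul] at h9
      have h10 : 0 ≤ D P (k + 2) t ^ 2 * sB P m t k :=
        mul_nonneg (sq_nonneg _) (sB_nonneg k)
      show |B P (k + 2) t| * RR P m t (k + 2) ≤ _
      linarith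

end

end Pool.Agent.H52.STD
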