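import Mathlib
import Pool.Agent.H52.STD.Sq2
import Pool.Agent.H52.STD.Sharp

set_option autoImplicit false

/-!
# Cutoffs for the products of consecutive derivatives, integration by parts
-/

namespace Pool.Agent.H52.STD

open Real MeasureTheory Function Filter Topology

/-- two point weight -/
noncomputable def tt (P : Par) (lm : ℝ) (j : ℕ) (t : ℝ) : ℝ :=
  |P.a j| * |LL P (j + 1) t| / (LL P j t ^ 2 * LL P (j + 1) t ^ 2 + lm ^ 2)

/-- one point weight -/
noncomputable def ss (P : Par) (l : ℝ) (k : ℕ) (t : ℝ) : ℝ := |P.a k| / (LL P k t ^ 2 + l ^ 2)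

/-- the weights -/
noncomputable def ev (P : Par) (lm l : ℝ) (m j : ℕ) (t : ℝ) : ℝ :=
  if j ≤ m then (1 / 2) ^ (m - j) * tt P lm j t else ss P l (m + 1) t

/-- their sum -/
noncomputable def MM (P : Par) (lm l : ℝ) (m : ℕ) (t : ℝ) : ℝ :=
  ∑ j ∈ Finset.range (m + 1), ev P lm l m (j + 1) t

section

variable {P : Par} {lm l t : ℝ} {m : ℕ}

theorem tt_nonneg (j : ℕ) (t : ℝ) : 0 ≤ tt P lm j t := by
  unfold tt
  positivity

theorem ss_nonneg (k : ℕ) (t : ℝ) : 0 ≤ ss P l k t := by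
  unfold ss
  positivity

theorem ev_nonneg (j : ℕ) (t : ℝ) : 0 ≤ ev P lm l m j t := by
  unfold ev
  split_ifs
  · have := tt_nonneg (P := P) (lm := lm) j t
    positivity
  · exact ss_nonneg _ _

theorem MM_nonneg (t : ℝ) : 0 ≤ MM P lm l m t := Finset.sum_nonneg fun j _ => ev_nonneg _ _

theorem ev_le_MM {j : ℕ} (h1 : 1 ≤ j) (h2 : j ≤ m + 1) (t : ℝ) :
    ev P lm l m j t ≤ MM P lm l m t := by
  obtain ⟨i, rfl⟩ : ∃ i, j = i + 1 := ⟨j - 1, by omega⟩
  exact Finset.single_le_sum (f := fun j => ev P lm l m (j + 1) t) (fun i _ => ev_nonneg _ _)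
    (Finset.mem_range.2 (by omega))

/-- one source -/
theorem ev_bd (h : GQ P lm l m t) (hlm : 16 ≤ lm) (hl : 4 ≤ l) {j : ℕ} (h1 : 1 ≤ j)
    (h2 : j ≤ m + 1) : |P.a j| / LL P j t ^ 2 * RR P m t (j + 1) ≤ 4 * ev P lm l m j t := by
  have p1 := h.ne hlm hl h1 h2
  have pL : 0 < LL P j t ^ 2 := by
    rw [← sq_abs]
    positivity
  unfold ev
  split_ifs with hj
  · have p2 := h.ne hlm hl (k := j + 1) (by omega) (by omega)
    have hp := h.pair j h1 hj
    rw [RR_succ (by omega)]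
    have h3 := RR_le h hlm hl (m - j) (j + 2) (by omega) (by omega)
    set x := |LL P j t| with hx
    set y := |LL P (j + 1) t| with hy
    have key : |P.a j| / LL P j t ^ 2 * (2 / y) ≤ 4 * tt P lm j t := by
      unfold tt
      rw [← hy, ← sq_abs (LL P j t), ← sq_abs (LL P (j + 1) t), ← hx, ← hy]
      have e1 : |P.a j| / x ^ 2 * (2 / y) = |P.a j| * y * (2 / (x ^ 2 * y ^ 2)) := by
        field_simp
      have e2 : 4 * (|P.a j| * y / (x ^ 2 * y ^ 2 + lm ^ 2)) =
        |P.a j| * y * (4 / (x ^ 2 * y ^ 2 + lm ^ 2)) := by ring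
      rw [e1, e2]
      apply mul_le_mul_of_nonneg_left _ (by positivity)
      rw [div_le_div_iff₀ (by positivity) (by positivity)]
      have h4 : lm ^ 2 ≤ x ^ 2 * y ^ 2 := by
        have := mul_self_le_mul_self (by linarith) hp
        nlinarith
      nlinarith
    have h5 : 0 ≤ |P.a j| / LL P j t ^ 2 * (2 / y) := by positivity
    calc |P.a j| / LL P j t ^ 2 * (2 / y * RR P m t (j + 1 + 1)) =
        |P.a j| / LL P j t ^ 2 * (2 / y) * RR P m t (j + 2) := by ring
      _ ≤ |P.a j| / LL P j t ^ 2 * (2 / y) * (1 / 2) ^ (m - j) :=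
          mul_le_mul_of_nonneg_left h3 h5
      _ ≤ 4 * tt P lm j t * (1 / 2) ^ (m - j) :=
          mul_le_mul_of_nonneg_right key (by positivity)
      _ = _ := by ring
  · have : j = m + 1 := by omega
    subst this
    rw [RR_last, mul_one]
    unfold ss
    have hl' := h.last
    have h4 : l ^ 2 ≤ LL P (m + 1) t ^ 2 := by
      rw [← sq_abs (LL P (m + 1) t)]
      have := mul_self_le_mul_self (by linarith) hl'
      nlinarith
    have e2 : 4 * (|P.a (m + 1)| / (LL P (m + 1) t ^ 2 + l ^ 2)) =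
      |P.a (m + 1)| * (4 / (LL P (m + 1) t ^ 2 + l ^ 2)) := by ring
    have e1 : |P.a (m + 1)| / LL P (m + 1) t ^ 2 = |P.a (m + 1)| * (1 / LL P (m + 1) t ^ 2) := by
      ring
    rw [e1, e2]
    apply mul_le_mul_of_nonneg_left _ (abs_nonneg _)
    rw [div_le_div_iff₀ pL (by positivity)]
    nlinarith

/-- one derivative -/
theorem dl (h : GQ P lm l m t) (hlm : 16 ≤ lm) (hl : 4 ≤ l) (hb : P.b = 0) (hc : P.c = 1)
    {j : ℕ} (h1 : 1 ≤ j) (h2 : j ≤ m + 1) :
    |P.a j| * |D P j t| / |LL P j t| ≤ 8 * ev P lm l m j t * |D P (m + 2) t| := by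
  have p1 := h.ne hlm hl h1 h2
  obtain ⟨k, rfl⟩ : ∃ k, j = k + 1 := ⟨j - 1, by omega⟩
  have q1 := growQ h hlm hl hb hc k (by omega)
  have q2 := DR h hlm hl hb hc (m - k) (k + 2) (by omega) (by omega)
  have q3 := ev_bd h hlm hl h1 h2
  set x := |LL P (k + 1) t| with hx
  have q4 : |D P (k + 1) t| ≤ 8 / 7 * |D P (k + 2) t| / x := by
    rw [le_div_iff₀ p1]
    linarith
  have hev := ev_nonneg (P := P) (lm := lm) (l := l) (m := m) (k + 1) t
  calc |P.a (k + 1)| * |D P (k + 1) t| / x ≤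
      |P.a (k + 1)| * (8 / 7 * |D P (k + 2) t| / x) / x := by gcongr
    _ ≤ |P.a (k + 1)| * (8 / 7 * (RR P m t (k + 2) * |D P (m + 2) t|) / x) / x := by gcongr
    _ = 8 / 7 * (|P.a (k + 1)| / x ^ 2 * RR P m t (k + 1 + 1)) * |D P (m + 2) t| := by
        field_simp
    _ ≤ 8 / 7 * (4 * ev P lm l m (k + 1) t) * |D P (m + 2) t| := by
        rw [hx, sq_abs]
        gcongr
    _ ≤ _ := by
        apply mul_le_mul_of_nonneg_right _ (abs_nonneg _)
        linarith

/-- the second derivative at the end -/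
theorem B_MM (h : GQ P lm l m t) (hlm : 16 ≤ lm) (hl : 4 ≤ l) (hb : P.b = 0) (hc : P.c = 1) :
    |B P (m + 2) t| ≤ 400 * MM P lm l m t * D P (m + 2) t ^ 2 := by
  have h1 := BR h hlm hl hb hc (m + 1) le_rfl
  rw [show m + 1 + 1 = m + 2 from rfl, RR_last, mul_one] at h1
  have h2 : sB P m t (m + 1) ≤ 400 * MM P lm l m t := by
    unfold sB MM
    rw [Finset.mul_sum]
    apply Finset.sum_le_sum
    intro j hj
    have hj' := Finset.mem_range.1 hj
    have h3 := ev_bd h hlm hl (j := j + 1) (by omega) (by omega)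
    calc 100 * |P.a (j + 1)| / LL P (j + 1) t ^ 2 * RR P m t (j + 2) =
        100 * (|P.a (j + 1)| / LL P (j + 1) t ^ 2 * RR P m t (j + 1 + 1)) := by ring
      _ ≤ 100 * (4 * ev P lm l m (j + 1) t) := by linarith
      _ = _ := by ring
  have h4 := mul_le_mul_of_nonneg_left h2 (sq_nonneg (D P (m + 2) t))
  linarith

end

/-! ### cutoffs -/

theorem rho'_bdd : ∃ C : ℝ, 0 ≤ C ∧ ∀ z, |rho' 1 z| ≤ C := by
  obtain ⟨C, hC⟩ := (isCompact_Icc (a := (-2:ℝ)) (b := 2)).exists_bound_of_continuousOn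
    (rho'_cont 1).continuousOn
  refine ⟨max C 0, le_max_right _ _, fun z => ?_⟩
  by_cases hz : z ∈ Set.Icc (-2:ℝ) 2
  · have := hC z hz
    rw [norm_eq_abs] at this
    exact this.trans (le_max_left _ _)
  · have h1 : 2 < |z| := by
      rw [Set.mem_Icc, not_and_or, not_le, not_le] at hz
      rcases hz with h | h
      · rw [abs_of_neg (by linarith)]
        linarith
      · rw [abs_of_pos (by linarith)]
        exact h
    have h2 : rho' 1 z = 0 := by
      unfold rho'
      rw [sT_deriv_zero, zero_mul]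
      right
      rw [← sq_abs]
      nlinarith
    rw [h2, abs_zero]
    exact le_max_right _ _

theorem rho'_supp {z : ℝ} (h : rho' 1 z ≠ 0) : 1 ≤ |z| ∧ |z| ≤ 3 / 2 := by
  constructor
  · by_contra hcon
    exact h (rho'_zero one_pos (not_le.1 hcon))
  · by_contra hcon
    apply h
    unfold rho'
    rw [sT_deriv_zero, zero_mul]
    right
    have := not_le.1 hcon
    rw [← sq_abs]
    nlinarith

/-- derivative of `LL` -/
noncomputable def LL' (P : Par) (k : ℕ) (t : ℝ) : ℝ :=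
  -(4 * π ^ 2 * P.a k * sin (2 * π * X P k t)) * D P k t

theorem LL_hasDeriv (P : Par) (k : ℕ) (t : ℝ) : HasDerivAt (LL P k) (LL' P k t) t := by
  have h : HasDerivAt (L (P.a k)) (-(4 * π ^ 2 * P.a k * sin (2 * π * X P k t))) (X P k t) := by
    have h := (((hasDerivAt_id (X P k t)).const_mul (2 * π)).cos.const_mul
      (2 * π * P.a k)).const_add 2
    refine HasDerivAt.congr_deriv (f := L (P.a k)) h ?_
    simp only [id]
    ring
  exact h.comp t (X_hasDeriv P k t)

theorem LL_cont (P : Par) (k : ℕ) : Continuous (LL P k) := (L_cont _).comp (X_cont P k)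

theorem LL'_cont (P : Par) (k : ℕ) : Continuous (LL' P k) := by
  have h1 := X_cont P k
  have h2 := D_cont P k
  unfold LL'
  fun_prop

theorem LL'_le (P : Par) (k : ℕ) (t : ℝ) : |LL' P k t| ≤ 40 * |P.a k| * |D P k t| := by
  unfold LL'
  rw [abs_mul, abs_neg, abs_mul, abs_mul, abs_of_nonneg (by positivity : 0 ≤ 4 * π ^ 2)]
  apply mul_le_mul_of_nonneg_right _ (abs_nonneg _)
  have hpi : 4 * π ^ 2 ≤ 40 := by
    have := pi_lt_d2
    have := pi_pos
    nlinarith
  have r1 := abs_sin_le_one (2 * π * X P k t)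
  calc 4 * π ^ 2 * |P.a k| * |sin (2 * π * X P k t)| ≤ 4 * π ^ 2 * |P.a k| * 1 :=
        mul_le_mul_of_nonneg_left r1 (by positivity)
    _ ≤ _ := by
        rw [mul_one]
        exact mul_le_mul_of_nonneg_right hpi (abs_nonneg _)

/-- cutoff of a product -/
noncomputable def psi (P : Par) (lm : ℝ) (j : ℕ) (t : ℝ) : ℝ :=
  rho 1 (LL P j t * LL P (j + 1) t / lm)

/-- its derivative -/
noncomputable def psi' (P : Par) (lm : ℝ) (j : ℕ) (t : ℝ) : ℝ :=
  rho' 1 (LL P j t * LL P (j + 1) t / lm) *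
    ((LL' P j t * LL P (j + 1) t + LL P j t * LL' P (j + 1) t) / lm)

/-- cutoff of the last derivative -/
noncomputable def phl (P : Par) (l : ℝ) (k : ℕ) (t : ℝ) : ℝ := rho 1 (LL P k t / l)

/-- its derivative -/
noncomputable def phl' (P : Par) (l : ℝ) (k : ℕ) (t : ℝ) : ℝ :=
  rho' 1 (LL P k t / l) * (LL' P k t / l)

theorem psi_hasDeriv (P : Par) (lm : ℝ) (j : ℕ) (t : ℝ) :
    HasDerivAt (psi P lm j) (psi' P lm j t) t :=
  (rho_hasDeriv 1 _).comp t (((LL_hasDeriv P j t).mul (LL_hasDeriv P (j + 1) t)).div_const lm)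

theorem phl_hasDeriv (P : Par) (l : ℝ) (k : ℕ) (t : ℝ) :
    HasDerivAt (phl P l k) (phl' P l k t) t :=
  (rho_hasDeriv 1 _).comp t ((LL_hasDeriv P k t).div_const l)

theorem psi'_cont (P : Par) (lm : ℝ) (j : ℕ) : Continuous (psi' P lm j) := by
  have h1 := LL_cont P j
  have h2 := LL_cont P (j + 1)
  have h3 := LL'_cont P j
  have h4 := LL'_cont P (j + 1)
  have h5 : Continuous (fun t => rho' 1 (LL P j t * LL P (j + 1) t / lm)) :=
    (rho'_cont 1).comp ((h1.mul h2).div_const lm)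
  unfold psi'
  exact h5.mul (((h3.mul h2).add (h1.mul h4)).div_const lm)

theorem phl'_cont (P : Par) (l : ℝ) (k : ℕ) : Continuous (phl' P l k) := by
  have h1 := LL_cont P k
  have h3 := LL'_cont P k
  have h5 : Continuous (fun t => rho' 1 (LL P k t / l)) := (rho'_cont 1).comp (h1.div_const l)
  unfold phl'
  exact h5.mul (h3.div_const l)

/-- the product of the cutoffs -/
noncomputable def Pf (P : Par) (lm : ℝ) : ℕ → ℝ → ℝ
  | 0, _ => 1
  | m + 1, t => Pf P lm m t * psi P lm (m + 1) t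

/-- its derivative -/
noncomputable def Pf' (P : Par) (lm : ℝ) : ℕ → ℝ → ℝ
  | 0, _ => 0
  | m + 1, t => Pf' P lm m t * psi P lm (m + 1) t + Pf P lm m t * psi' P lm (m + 1) t

theorem Pf_hasDeriv (P : Par) (lm : ℝ) (m : ℕ) (t : ℝ) :
    HasDerivAt (Pf P lm m) (Pf' P lm m t) t := by
  induction m with
  | zero => exact hasDerivAt_const t 1
  | succ m ih => exact ih.mul (psi_hasDeriv P lm (m + 1) t)

theorem psi_cont (P : Par) (lm : ℝ) (j : ℕ) : Continuous (psi P lm j) :=
  continuous_iff_continuousAt.2 fun t => (psi_hasDeriv P lm j t).continuousAt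

theorem phl_cont (P : Par) (l : ℝ) (k : ℕ) : Continuous (phl P l k) :=
  continuous_iff_continuousAt.2 fun t => (phl_hasDeriv P l k t).continuousAt

theorem Pf_cont (P : Par) (lm : ℝ) (m : ℕ) : Continuous (Pf P lm m) :=
  continuous_iff_continuousAt.2 fun t => (Pf_hasDeriv P lm m t).continuousAt

theorem Pf'_cont (P : Par) (lm : ℝ) (m : ℕ) : Continuous (Pf' P lm m) := by
  induction m with
  | zero => exact continuous_const
  | succ m ih => exact (ih.mul (psi_cont P lm (m + 1))).add ((Pf_cont P lm m).mul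
      (psi'_cont P lm (m + 1)))

theorem psi_mem (P : Par) (lm : ℝ) (j : ℕ) (t : ℝ) : 0 ≤ psi P lm j t ∧ psi P lm j t ≤ 1 :=
  ⟨rho_nonneg _ _, rho_le_one _ _⟩

theorem phl_mem (P : Par) (l : ℝ) (k : ℕ) (t : ℝ) : 0 ≤ phl P l k t ∧ phl P l k t ≤ 1 :=
  ⟨rho_nonneg _ _, rho_le_one _ _⟩

theorem Pf_mem (P : Par) (lm : ℝ) (m : ℕ) (t : ℝ) : 0 ≤ Pf P lm m t ∧ Pf P lm m t ≤ 1 := by
  induction m with
  | zero => exact ⟨zero_le_one, le_rfl⟩
  | succ m ih =>
    have h := psi_mem P lm (m + 1) t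
    exact ⟨mul_nonneg ih.1 h.1, mul_le_one₀ ih.2 h.1 h.2⟩

/-- the full cutoff -/
noncomputable def xi (P : Par) (lm l : ℝ) (m : ℕ) (t : ℝ) : ℝ := Pf P lm m t * phl P l (m + 1) t

/-- its derivative -/
noncomputable def xi' (P : Par) (lm l : ℝ) (m : ℕ) (t : ℝ) : ℝ :=
  Pf' P lm m t * phl P l (m + 1) t + Pf P lm m t * phl' P l (m + 1) t

theorem xi_hasDeriv (P : Par) (lm l : ℝ) (m : ℕ) (t : ℝ) :
    HasDerivAt (xi P lm l m) (xi' P lm l m t) t :=
  (Pf_hasDeriv P lm m t).mul (phl_hasDeriv P l (m + 1) t)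

theorem xi_cont (P : Par) (lm l : ℝ) (m : ℕ) : Continuous (xi P lm l m) :=
  continuous_iff_continuousAt.2 fun t => (xi_hasDeriv P lm l m t).continuousAt

theorem xi'_cont (P : Par) (lm l : ℝ) (m : ℕ) : Continuous (xi' P lm l m) :=
  ((Pf'_cont P lm m).mul (phl_cont P l (m + 1))).add ((Pf_cont P lm m).mul
    (phl'_cont P l (m + 1)))

theorem xi_mem (P : Par) (lm l : ℝ) (m : ℕ) (t : ℝ) :
    0 ≤ xi P lm l m t ∧ xi P lm l m t ≤ 1 := by
  have h1 := Pf_mem P lm m t
  have h2 := phl_mem P l (m + 1) t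
  exact ⟨mul_nonneg h1.1 h2.1, mul_le_one₀ h1.2 h2.1 h2.2⟩

section

variable {P : Par} {lm l t : ℝ} {m : ℕ}

theorem Pf_zero (hlm : 0 < lm) {j : ℕ} (h1 : 1 ≤ j) (h2 : j ≤ m)
    (h : |LL P j t| * |LL P (j + 1) t| < lm) : Pf P lm m t = 0 := by
  have h0 : psi P lm j t = 0 := by
    unfold psi
    apply rho_zero zero_le_one
    rw [abs_div, abs_of_pos hlm, div_le_one hlm, abs_mul]
    exact h.le
  induction m, h2 using Nat.le_induction with
  | base =>
    obtain ⟨i, rfl⟩ : ∃ i, j = i + 1 := ⟨j - 1, by omega⟩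
    show Pf P lm i t * psi P lm (i + 1) t = 0
    rw [h0, mul_zero]
  | succ m hm ih =>
    show Pf P lm m t * psi P lm (m + 1) t = 0
    rw [ih, zero_mul]

theorem phl_zero (hl : 0 < l) {k : ℕ} (h : |LL P k t| < l) : phl P l k t = 0 := by
  unfold phl
  apply rho_zero zero_le_one
  rw [abs_div, abs_of_pos hl, div_le_one hl]
  exact h.le

theorem xi_near (hlm : 0 < lm) (hl : 0 < l) (h : ¬ GQ P lm l m t) :
    xi P lm l m =ᶠ[𝓝 t] fun _ => 0 := by
  have h1 : (∃ j, 1 ≤ j ∧ j ≤ m ∧ |LL P j t| * |LL P (j + 1) t| < lm) ∨ |LL P (m + 1) t| < l := by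
    by_contra hcon
    rw [not_or] at hcon
    obtain ⟨h2, h3⟩ := hcon
    push Not at h2
    exact h ⟨h2, not_lt.1 h3⟩
  rcases h1 with ⟨j, hj1, hj2, hj⟩ | h1
  · have hc : Continuous (fun t => |LL P j t| * |LL P (j + 1) t|) :=
      (LL_cont P j).abs.mul (LL_cont P (j + 1)).abs
    have h2 : ∀ᶠ u in 𝓝 t, |LL P j u| * |LL P (j + 1) u| < lm :=
      hc.continuousAt.eventually_lt_const hj
    filter_upwards [h2] with u hu
    unfold xi
    rw [Pf_zero hlm hj1 hj2 hu, zero_mul]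
  · have hc : Continuous (fun t => |LL P (m + 1) t|) := (LL_cont P (m + 1)).abs
    have h2 : ∀ᶠ u in 𝓝 t, |LL P (m + 1) u| < l := hc.continuousAt.eventually_lt_const h1
    filter_upwards [h2] with u hu
    unfold xi
    rw [phl_zero hl hu, mul_zero]

theorem xi_bad (hlm : 0 < lm) (hl : 0 < l) (h : ¬ GQ P lm l m t) :
    xi P lm l m t = 0 ∧ xi' P lm l m t = 0 := by
  have h1 := xi_near hlm hl h
  refine ⟨h1.eq_of_nhds, ?_⟩
  have h2 : HasDerivAt (xi P lm l m) 0 t :=
    (hasDerivAt_const t (0:ℝ)).congr_of_eventuallyEq h1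
  exact (xi_hasDeriv P lm l m t).unique h2

theorem Pf'_le (m : ℕ) : |Pf' P lm m t| ≤ ∑ j ∈ Finset.range m, |psi' P lm (j + 1) t| := by
  induction m with
  | zero => simp [Pf']
  | succ m ih =>
    rw [Finset.sum_range_succ]
    show |Pf' P lm m t * psi P lm (m + 1) t + Pf P lm m t * psi' P lm (m + 1) t| ≤ _
    have h1 := psi_mem P lm (m + 1) t
    have h2 := Pf_mem P lm m t
    refine (abs_add_le _ _).trans ?_
    rw [abs_mul, abs_mul, abs_of_nonneg h1.1, abs_of_nonneg h2.1]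
    have h3 : |Pf' P lm m t| * psi P lm (m + 1) t ≤ |Pf' P lm m t| :=
      mul_le_of_le_one_right (abs_nonneg _) h1.2
    have h4 : Pf P lm m t * |psi' P lm (m + 1) t| ≤ |psi' P lm (m + 1) t| :=
      mul_le_of_le_one_left (abs_nonneg _) h2.2
    linarith

theorem psi'_le {C : ℝ} (hC0 : 0 ≤ C) (hC : ∀ z, |rho' 1 z| ≤ C) (h : GQ P lm l m t)
    (hlm : 16 ≤ lm) (hl : 4 ≤ l) (hb : P.b = 0) (hc : P.c = 1) {j : ℕ} (h1 : 1 ≤ j)
    (h2 : j ≤ m) : |psi' P lm j t| ≤
      480 * C * (ev P lm l m j t + ev P lm l m (j + 1) t) * |D P (m + 2) t| := by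
  have e0 := ev_nonneg (P := P) (lm := lm) (l := l) (m := m) j t
  have e1 := ev_nonneg (P := P) (lm := lm) (l := l) (m := m) (j + 1) t
  by_cases hz : rho' 1 (LL P j t * LL P (j + 1) t / lm) = 0
  · unfold psi'
    rw [hz, zero_mul, abs_zero]
    positivity
  · have hs := (rho'_supp hz).2
    have p1 := h.ne hlm hl h1 (by omega)
    have p2 := h.ne hlm hl (k := j + 1) (by omega) (by omega)
    have hlm0 : 0 < lm := by linarith
    rw [abs_div, abs_of_pos hlm0, abs_mul, div_le_iff₀ hlm0] at hs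
    have d1 := dl h hlm hl hb hc h1 (by omega : j ≤ m + 1)
    have d2 := dl h hlm hl hb hc (j := j + 1) (by omega) (by omega)
    have l1 := LL'_le P j t
    have l2 := LL'_le P (j + 1) t
    set x := |LL P j t| with hx
    set y := |LL P (j + 1) t| with hy
    set a0 := |P.a j| * |D P j t| with ha0
    set a1 := |P.a (j + 1)| * |D P (j + 1) t| with ha1
    have hxy : 0 < x * y := mul_pos p1 p2
    have hlm' : 1 / lm ≤ 3 / 2 / (x * y) := by
      rw [div_le_div_iff₀ hlm0 hxy]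
      linarith
    have q1 : |LL' P j t * LL P (j + 1) t + LL P j t * LL' P (j + 1) t| ≤
        40 * a0 * y + 40 * a1 * x := by
      refine (abs_add_le _ _).trans ?_
      rw [abs_mul, abs_mul]
      have r1 : |LL' P j t| * y ≤ 40 * |P.a j| * |D P j t| * y :=
        mul_le_mul_of_nonneg_right l1 p2.le
      have r2 : x * |LL' P (j + 1) t| ≤ x * (40 * |P.a (j + 1)| * |D P (j + 1) t|) :=
        mul_le_mul_of_nonneg_left l2 p1.le
      rw [ha0, ha1]
      linarith
    have a00 : 0 ≤ a0 := by positivity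
    have a10 : 0 ≤ a1 := by positivity
    unfold psi'
    rw [abs_mul, abs_div, abs_of_pos hlm0]
    calc |rho' 1 (LL P j t * LL P (j + 1) t / lm)| *
          (|LL' P j t * LL P (j + 1) t + LL P j t * LL' P (j + 1) t| / lm)
        ≤ C * ((40 * a0 * y + 40 * a1 * x) * (1 / lm)) := by
          apply mul_le_mul (hC _) _ (by positivity) hC0
          rw [div_eq_mul_one_div]
          exact mul_le_mul_of_nonneg_right q1 (by positivity)
      _ ≤ C * ((40 * a0 * y + 40 * a1 * x) * (3 / 2 / (x * y))) := by gcongr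
      _ = C * (60 * (a0 / x) + 60 * (a1 / y)) := by
          field_simp
          ring
      _ ≤ C * (60 * (8 * ev P lm l m j t * |D P (m + 2) t|) +
            60 * (8 * ev P lm l m (j + 1) t * |D P (m + 2) t|)) := by gcongr
      _ = _ := by ring

theorem phl'_le {C : ℝ} (hC0 : 0 ≤ C) (hC : ∀ z, |rho' 1 z| ≤ C) (h : GQ P lm l m t)
    (hlm : 16 ≤ lm) (hl : 4 ≤ l) (hb : P.b = 0) (hc : P.c = 1) : |phl' P l (m + 1) t| ≤
      480 * C * ev P lm l m (m + 1) t * |D P (m + 2) t| := by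
  have e0 := ev_nonneg (P := P) (lm := lm) (l := l) (m := m) (m + 1) t
  by_cases hz : rho' 1 (LL P (m + 1) t / l) = 0
  · unfold phl'
    rw [hz, zero_mul, abs_zero]
    positivity
  · have hs := (rho'_supp hz).2
    have p1 := h.ne hlm hl (k := m + 1) (by omega) le_rfl
    have hl0 : 0 < l := by linarith
    rw [abs_div, abs_of_pos hl0, div_le_iff₀ hl0] at hs
    have d1 := dl h hlm hl hb hc (j := m + 1) (by omega) le_rfl
    have l1 := LL'_le P (m + 1) t
    set x := |LL P (m + 1) t| with hx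
    set a0 := |P.a (m + 1)| * |D P (m + 1) t| with ha0
    have hl' : 1 / l ≤ 3 / 2 / x := by
      rw [div_le_div_iff₀ hl0 p1]
      linarith
    have a00 : 0 ≤ a0 := by positivity
    unfold phl'
    rw [abs_mul, abs_div, abs_of_pos hl0]
    calc |rho' 1 (LL P (m + 1) t / l)| * (|LL' P (m + 1) t| / l)
        ≤ C * ((40 * a0) * (1 / l)) := by
          apply mul_le_mul (hC _) _ (by positivity) hC0
          rw [div_eq_mul_one_div]
          apply mul_le_mul_of_nonneg_right _ (by positivity)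
          rw [ha0]
          linarith
      _ ≤ C * ((40 * a0) * (3 / 2 / x)) := by gcongr
      _ = C * (60 * (a0 / x)) := by
          field_simp
          ring
      _ ≤ C * (60 * (8 * ev P lm l m (m + 1) t * |D P (m + 2) t|)) := by gcongr
      _ = _ := by ring

/-- the derivative of the cutoff -/
theorem xi'_le {C : ℝ} (hC0 : 0 ≤ C) (hC : ∀ z, |rho' 1 z| ≤ C) (h : GQ P lm l m t)
    (hlm : 16 ≤ lm) (hl : 4 ≤ l) (hb : P.b = 0) (hc : P.c = 1) :
    |xi' P lm l m t| ≤ 1440 * C * MM P lm l m t * |D P (m + 2) t| := by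
  have h1 := Pf'_le (P := P) (lm := lm) (t := t) m
  have h2 := phl'_le hC0 hC h hlm hl hb hc
  have h3 := phl_mem P l (m + 1) t
  have h4 := Pf_mem P lm m t
  have hD := abs_nonneg (D P (m + 2) t)
  have h5 : |xi' P lm l m t| ≤ |Pf' P lm m t| + |phl' P l (m + 1) t| := by
    unfold xi'
    refine (abs_add_le _ _).trans ?_
    rw [abs_mul, abs_mul, abs_of_nonneg h3.1, abs_of_nonneg h4.1]
    have q1 : |Pf' P lm m t| * phl P l (m + 1) t ≤ |Pf' P lm m t| :=
      mul_le_of_le_one_right (abs_nonneg _) h3.2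
    have q2 : Pf P lm m t * |phl' P l (m + 1) t| ≤ |phl' P l (m + 1) t| :=
      mul_le_of_le_one_left (abs_nonneg _) h4.2
    linarith
  have h6 : ∑ j ∈ Finset.range m, |psi' P lm (j + 1) t| ≤
      ∑ j ∈ Finset.range m, 480 * C * (ev P lm l m (j + 1) t + ev P lm l m (j + 1 + 1) t) *
        |D P (m + 2) t| := by
    apply Finset.sum_le_sum
    intro j hj
    have := Finset.mem_range.1 hj
    exact psi'_le hC0 hC h hlm hl hb hc (by omega) (by omega)
  have h7 : ∑ j ∈ Finset.range m, 480 * C * (ev P lm l m (j + 1) t +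
      ev P lm l m (j + 1 + 1) t) * |D P (m + 2) t| =
      480 * C * |D P (m + 2) t| * ((∑ j ∈ Finset.range m, ev P lm l m (j + 1) t) +
        ∑ j ∈ Finset.range m, ev P lm l m (j + 1 + 1) t) := by
    rw [← Finset.sum_add_distrib, Finset.mul_sum]
    apply Finset.sum_congr rfl
    intro j _
    ring
  have h8 : ∑ j ∈ Finset.range m, ev P lm l m (j + 1) t ≤ MM P lm l m t := by
    unfold MM
    rw [Finset.sum_range_succ]
    have := ev_nonneg (P := P) (lm := lm) (l := l) (m := m) (m + 1) t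
    linarith
  have h9 : ∑ j ∈ Finset.range m, ev P lm l m (j + 1 + 1) t ≤ MM P lm l m t := by
    unfold MM
    rw [Finset.sum_range_succ']
    have := ev_nonneg (P := P) (lm := lm) (l := l) (m := m) (0 + 1) t
    linarith
  have h10 := ev_le_MM (P := P) (lm := lm) (l := l) (m := m) (j := m + 1) (by omega) le_rfl t
  have h11 : 0 ≤ 480 * C * |D P (m + 2) t| := by positivity
  have h12 := mul_le_mul_of_nonneg_left (add_le_add h8 h9) h11
  have h13 := mul_le_mul_of_nonneg_left h10 h11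
  rw [h7] at h6
  nlinarith

end

end Pool.Agent.H52.STD
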