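import Mathlib
import Pool.Agent.H52.STD.Sq3
import Pool.Agent.H52.STD.Non3

set_option autoImplicit false

/-!
# Integration by parts and one decorrelating step, through the critical strip
-/

namespace Pool.Agent.H52.STD

open Real MeasureTheory Function Filter Topology

section

variable {P : Par} {lm l t : ℝ} {m : ℕ}

theorem RR_le2 (h : GQ P lm l m t) (hlm : 16 ≤ lm) (hl : 4 ≤ l) (n : ℕ) :
    ∀ i, 1 ≤ i → i + n = m + 2 → 1 ≤ n →
      RR P m t i ≤ 16 * (1 / 2) ^ n * (1 / l + 1 / lm) := by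
  have hl0 : 0 < 1 / l := by positivity
  have hlm0 : 0 < 1 / lm := by positivity
  induction n using Nat.strong_induction_on with
  | _ n ih =>
    intro i hi hn h0
    match n, ih, hn, h0 with
    | 1, _, hn, _ =>
      have : i = m + 1 := by omega
      rw [this, RR_succ le_rfl, RR_last, mul_one]
      have h1 := h.last
      have h2 : 0 < |LL P (m + 1) t| := by linarith
      have h3 : 2 / |LL P (m + 1) t| ≤ 2 * (1 / l) := by
        rw [mul_one_div]
        exact div_le_div_of_nonneg_left (by norm_num) (by linarith) h1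
      rw [pow_one]
      nlinarith
    | 2, _, hn, _ =>
      have : i = m := by omega
      subst this
      have h2 := h.pair i hi le_rfl
      have p1 := h.ne hlm hl hi (by omega)
      have p2 := h.ne hlm hl (k := i + 1) (by omega) (by omega)
      rw [RR_succ (by omega), RR_succ (by omega), RR_last, mul_one]
      have e : 2 / |LL P i t| * (2 / |LL P (i + 1) t|) =
          4 / (|LL P i t| * |LL P (i + 1) t|) := by
        field_simp
        norm_num
      rw [e]
      have h4 : 4 / (|LL P i t| * |LL P (i + 1) t|) ≤ 4 * (1 / lm) := by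
        rw [mul_one_div]
        exact div_le_div_of_nonneg_left (by norm_num) (by linarith) h2
      nlinarith
    | n + 3, ih, hn, _ =>
      have h1 := ih (n + 1) (by omega) (i + 2) (by omega) (by omega) (by omega)
      have h2 := h.pair i hi (by omega)
      have p1 := h.ne hlm hl hi (by omega)
      have p2 := h.ne hlm hl (k := i + 1) (by omega) (by omega)
      rw [RR_succ (by omega), RR_succ (by omega)]
      have h3 := RR_nonneg (P := P) (m := m) (t := t) (i + 1 + 1)
      have e : 2 / |LL P i t| * (2 / |LL P (i + 1) t| * RR P m t (i + 1 + 1)) =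
          4 / (|LL P i t| * |LL P (i + 1) t|) * RR P m t (i + 1 + 1) := by
        field_simp
        ring
      rw [e]
      have h4 : 4 / (|LL P i t| * |LL P (i + 1) t|) ≤ 1 / 4 := by
        rw [div_le_div_iff₀ (by positivity) (by norm_num)]
        linarith
      calc _ ≤ 1 / 4 * RR P m t (i + 1 + 1) := mul_le_mul_of_nonneg_right h4 h3
        _ ≤ 1 / 4 * (16 * (1 / 2) ^ (n + 1) * (1 / l + 1 / lm)) :=
            mul_le_mul_of_nonneg_left h1 (by norm_num)
        _ = _ := by ring

/-- the derivative at the end -/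
theorem D_large2 (h : GQ P lm l m t) (hlm : 16 ≤ lm) (hl : 4 ≤ l) (hb : P.b = 0)
    (hc : P.c = 1) :
    1 ≤ 16 * (1 / 2) ^ (m + 1) * (1 / l + 1 / lm) * |D P (m + 2) t| := by
  have h1 := DR h hlm hl hb hc (m + 1) 1 le_rfl (by omega)
  have e1 : D P 1 t = 1 := by simp only [D, hc]
  rw [e1, abs_one] at h1
  have h2 := RR_le2 h hlm hl (m + 1) 1 le_rfl (by omega) (by omega)
  exact h1.trans (mul_le_mul_of_nonneg_right h2 (abs_nonneg _))

theorem D_ratio (h : GQ P lm l m t) (hlm : 16 ≤ lm) (hl : 4 ≤ l) (hb : P.b = 0)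
    (hc : P.c = 1) : |D P (m + 1) t| ≤ 2 / l * |D P (m + 2) t| := by
  have h1 := growQ h hlm hl hb hc m le_rfl
  have h2 := h.last
  have h3 := mul_le_mul_of_nonneg_right h2 (abs_nonneg (D P (m + 1) t))
  rw [div_mul_eq_mul_div, le_div_iff₀ (by linarith)]
  have := abs_nonneg (D P (m + 2) t)
  linarith

/-- the weight -/
noncomputable def W2 (P : Par) (lm l : ℝ) (m : ℕ) (Q : ℝ → ℝ) (t : ℝ) : ℝ :=
  xi P lm l m t * Q t / D P (m + 2) t

/-- its derivative -/
noncomputable def W2' (P : Par) (lm l : ℝ) (m : ℕ) (Q Q' : ℝ → ℝ) (t : ℝ) : ℝ :=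
  (xi' P lm l m t * Q t + xi P lm l m t * Q' t) / D P (m + 2) t -
    xi P lm l m t * Q t * B P (m + 2) t / D P (m + 2) t ^ 2

theorem W2_hasDeriv (hlm : 16 ≤ lm) (hl : 4 ≤ l) (hb : P.b = 0) (hc : P.c = 1)
    {Q Q' : ℝ → ℝ} (hQ : HasDerivAt Q (Q' t) t) :
    HasDerivAt (W2 P lm l m Q) (W2' P lm l m Q Q' t) t := by
  by_cases hg : GQ P lm l m t
  · have hD := D_pos hg hlm hl hb hc
    have h1 := ((xi_hasDeriv P lm l m t).mul hQ).div (D_hasDeriv P (m + 2) t) hD
    refine HasDerivAt.congr_deriv (f := W2 P lm l m Q) h1 ?_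
    unfold W2'
    simp only [Pi.mul_apply]
    field_simp
  · have h1 := xi_near (by linarith) (by linarith) hg
    have h2 : W2 P lm l m Q =ᶠ[𝓝 t] fun _ => 0 := by
      filter_upwards [h1] with u hu
      unfold W2
      rw [hu]
      simp
    have h3 := xi_bad (P := P) (m := m) (t := t) (by linarith : 0 < lm) (by linarith : 0 < l) hg
    have e : W2' P lm l m Q Q' t = 0 := by
      unfold W2'
      rw [h3.1, h3.2]
      simp
    rw [e]
    exact (hasDerivAt_const t (0:ℝ)).congr_of_eventuallyEq h2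

theorem W2'_le {C : ℝ} (hC0 : 0 ≤ C) (hC : ∀ z, |rho' 1 z| ≤ C) (hlm : 16 ≤ lm) (hl : 4 ≤ l)
    (hb : P.b = 0) (hc : P.c = 1) {Q Q' : ℝ → ℝ} (hQ1 : |Q t| ≤ 1) {e : ℝ} (he0 : 0 ≤ e)
    (he : GQ P lm l m t → |Q' t| ≤ e * |D P (m + 2) t|) :
    |W2' P lm l m Q Q' t| ≤ (1440 * C + 400) * MM P lm l m t + e := by
  have hM := MM_nonneg (P := P) (lm := lm) (l := l) (m := m) t
  by_cases hg : GQ P lm l m t
  · have hD := D_pos hg hlm hl hb hc
    have hD0 : 0 < |D P (m + 2) t| := abs_pos.2 hD
    have h1 := xi'_le hC0 hC hg hlm hl hb hc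
    have h2 := B_MM hg hlm hl hb hc
    have h3 := xi_mem P lm l m t
    have h4 := he hg
    set d := |D P (m + 2) t| with hd
    unfold W2'
    refine (abs_sub _ _).trans ?_
    have q1 : |(xi' P lm l m t * Q t + xi P lm l m t * Q' t) / D P (m + 2) t| ≤
        1440 * C * MM P lm l m t + e := by
      rw [abs_div, ← hd, div_le_iff₀ hD0]
      refine (abs_add_le _ _).trans ?_
      rw [abs_mul, abs_mul, abs_of_nonneg h3.1]
      have r1 : |xi' P lm l m t| * |Q t| ≤ |xi' P lm l m t| :=
        mul_le_of_le_one_right (abs_nonneg _) hQ1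
      have r2 : xi P lm l m t * |Q' t| ≤ |Q' t| := mul_le_of_le_one_left (abs_nonneg _) h3.2
      linarith
    have q2 : |xi P lm l m t * Q t * B P (m + 2) t / D P (m + 2) t ^ 2| ≤
        400 * MM P lm l m t := by
      rw [abs_div, abs_of_nonneg (sq_nonneg (D P (m + 2) t)), div_le_iff₀ (by positivity),
        abs_mul, abs_mul, abs_of_nonneg h3.1]
      have r1 : xi P lm l m t * |Q t| ≤ 1 := mul_le_one₀ h3.2 (abs_nonneg _) hQ1
      have r2 : xi P lm l m t * |Q t| * |B P (m + 2) t| ≤ |B P (m + 2) t| :=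
        mul_le_of_le_one_left (abs_nonneg _) r1
      linarith
    linarith
  · have h3 := xi_bad (P := P) (m := m) (t := t) (by linarith : 0 < lm) (by linarith : 0 < l) hg
    have e1 : W2' P lm l m Q Q' t = 0 := by
      unfold W2'
      rw [h3.1, h3.2]
      simp
    rw [e1, abs_zero]
    positivity

theorem ibp2 (hlm : 16 ≤ lm) (hl : 4 ≤ l) (hb : P.b = 0) (hc : P.c = 1) (m : ℕ)
    {Q Q' : ℝ → ℝ} (hQ : ∀ t, HasDerivAt Q (Q' t) t) (hQ'c : Continuous Q') {bd : ℝ → ℝ}
    (hbdc : Continuous bd) (hbd : ∀ t, |W2' P lm l m Q Q' t| ≤ bd t)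
    {G g : ℝ → ℝ} (hG : ∀ u, HasDerivAt G (g u) u) (hg : Continuous g)
    {A : ℝ} (hG1 : ∀ u, |G u| ≤ A)
    (hper : W2 P lm l m Q 1 * G (X P (m + 2) 1) = W2 P lm l m Q 0 * G (X P (m + 2) 0)) :
    |∫ t in (0:ℝ)..1, xi P lm l m t * Q t * g (X P (m + 2) t)| ≤ A * (∫ t in (0:ℝ)..1, bd t) := by
  have hA0 : 0 ≤ A := (abs_nonneg _).trans (hG1 0)
  set F : ℝ → ℝ := fun t => W2 P lm l m Q t * G (X P (m + 2) t) with hF
  set f : ℝ → ℝ := fun t => W2' P lm l m Q Q' t * G (X P (m + 2) t) with hf
  set f2 : ℝ → ℝ := fun t => xi P lm l m t * Q t * g (X P (m + 2) t) with hf2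
  have hQc : Continuous Q := continuous_iff_continuousAt.2 fun t => (hQ t).continuousAt
  have hGc : Continuous G := continuous_iff_continuousAt.2 fun t => (hG t).continuousAt
  have hXc := X_cont P (m + 2)
  have hFd : ∀ t, HasDerivAt F (f t + f2 t) t := by
    intro t
    have h1 := (W2_hasDeriv (m := m) hlm hl hb hc (hQ t)).mul
      ((hG (X P (m + 2) t)).comp t (X_hasDeriv P (m + 2) t))
    refine HasDerivAt.congr_deriv (f := F) h1 ?_
    show W2' P lm l m Q Q' t * G (X P (m + 2) t) +
      W2 P lm l m Q t * (g (X P (m + 2) t) * D P (m + 2) t) = f t + f2 t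
    have e : W2 P lm l m Q t * D P (m + 2) t = xi P lm l m t * Q t := by
      unfold W2
      by_cases hgd : GQ P lm l m t
      · exact div_mul_cancel₀ _ (D_pos hgd hlm hl hb hc)
      · rw [(xi_bad (by linarith : 0 < lm) (by linarith : 0 < l) hgd).1]
        simp
    rw [hf, hf2]
    simp only
    rw [← e]
    ring
  have hW'm : Measurable (W2' P lm l m Q Q') := by
    have c1 := (xi'_cont P lm l m).measurable
    have c2 := (xi_cont P lm l m).measurable
    have c3 := hQc.measurable
    have c4 := hQ'c.measurable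
    have c5 := (D_cont P (m + 2)).measurable
    have c6 := (B_cont P (m + 2)).measurable
    unfold W2'
    exact (((c1.mul c3).add (c2.mul c4)).div c5).sub (((c2.mul c3).mul c6).div (c5.pow_const 2))
  have hfm : Measurable f := hW'm.mul (hGc.comp hXc).measurable
  have hf2c : Continuous f2 := ((xi_cont P lm l m).mul hQc).mul (hg.comp hXc)
  have hbdc' : Continuous (fun t => A * bd t) := continuous_const.mul hbdc
  have hfb : ∀ t, |f t| ≤ A * bd t := by
    intro t
    rw [hf]
    simp only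
    rw [abs_mul, mul_comm A]
    exact mul_le_mul (hbd t) (hG1 _) (abs_nonneg _) ((abs_nonneg _).trans (hbd t))
  have hfi : IntervalIntegrable f volume 0 1 := by
    refine (hbdc'.intervalIntegrable 0 1).mono_fun hfm.aestronglyMeasurable ?_
    refine (ae_restrict_mem measurableSet_uIoc).mono fun t _ => ?_
    show ‖f t‖ ≤ ‖A * bd t‖
    rw [norm_eq_abs, norm_eq_abs]
    exact (hfb t).trans (le_abs_self _)
  have hf2i : IntervalIntegrable f2 volume 0 1 := hf2c.intervalIntegrable 0 1
  have hFTC := intervalIntegral.integral_eq_sub_of_hasDerivAt (fun t _ => hFd t)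
    (hfi.add hf2i)
  rw [intervalIntegral.integral_add hfi hf2i] at hFTC
  have e01 : F 1 - F 0 = 0 := by
    show W2 P lm l m Q 1 * G (X P (m + 2) 1) - W2 P lm l m Q 0 * G (X P (m + 2) 0) = 0
    rw [hper, sub_self]
  have h2 : ∫ t in (0:ℝ)..1, f2 t = - ∫ t in (0:ℝ)..1, f t := by linarith
  have h4 : |∫ t in (0:ℝ)..1, f t| ≤ ∫ t in (0:ℝ)..1, A * bd t := by
    rw [← norm_eq_abs]
    exact intervalIntegral.norm_integral_le_of_norm_le zero_le_one
      (Filter.Eventually.of_forall fun t _ => hfb t)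
      (hbdc'.intervalIntegrable 0 1)
  rw [intervalIntegral.integral_const_mul] at h4
  rw [h2, abs_neg]
  exact h4

/-! ### periodicity -/

theorem LL_period (hb : P.b = 0) (hc : P.c = 1) (k : ℕ) (t : ℝ) :
    LL P k (t + 1) = LL P k t := by
  unfold LL
  rw [X_period hb hc, L_per_nat]

theorem xi_period (hb : P.b = 0) (hc : P.c = 1) (m : ℕ) (t : ℝ) :
    xi P lm l m (t + 1) = xi P lm l m t := by
  have h1 : ∀ j, psi P lm j (t + 1) = psi P lm j t := by
    intro j
    unfold psi
    rw [LL_period hb hc, LL_period hb hc]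
  have h2 : Pf P lm m (t + 1) = Pf P lm m t := by
    induction m with
    | zero => rfl
    | succ m ih =>
      show Pf P lm m (t + 1) * psi P lm (m + 1) (t + 1) = Pf P lm m t * psi P lm (m + 1) t
      rw [ih, h1]
  unfold xi
  rw [h2]
  unfold phl
  rw [LL_period hb hc]

theorem dec2 {C : ℝ} (hC0 : 0 ≤ C) (hC : ∀ z, |rho' 1 z| ≤ C) (hlm : 16 ≤ lm) (hl : 4 ≤ l)
    (hb : P.b = 0) (hc : P.c = 1) (m : ℕ)
    {Q Q' : ℝ → ℝ} (hQ : ∀ t, HasDerivAt Q (Q' t) t) (hQ'c : Continuous Q')
    (hQ1 : ∀ t, |Q t| ≤ 1) (hper : Q 1 = Q 0) {e : ℝ} (he0 : 0 ≤ e)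
    (he : ∀ t, GQ P lm l m t → |Q' t| ≤ e * |D P (m + 2) t|)
    {Mb Xb : ℝ → ℝ} (hMc : Continuous Mb) (hXc : Continuous Xb)
    (hMb : ∀ t, MM P lm l m t ≤ Mb t) (hXb : ∀ t, 1 - xi P lm l m t ≤ Xb t)
    {u : ℝ → ℝ} (hu : Continuous u) (hup : Periodic u 1) (hu1 : ∀ x, |u x| ≤ 1) :
    |(∫ t in (0:ℝ)..1, Q t * u (X P (m + 2) t)) - (∫ x in (0:ℝ)..1, u x) *
      ∫ t in (0:ℝ)..1, Q t| ≤
      2 * ((1440 * C + 400) * (∫ t in (0:ℝ)..1, Mb t) + e) + 2 * ∫ t in (0:ℝ)..1, Xb t := by
  have hQc : Continuous Q := continuous_iff_continuousAt.2 fun x => (hQ x).continuousAt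
  set ub := ∫ x in (0:ℝ)..1, u x with hub
  have hubM : |ub| ≤ 1 := by
    have q : ‖∫ x in (0:ℝ)..1, u x‖ ≤ 1 * |1 - 0| :=
      intervalIntegral.norm_integral_le_of_norm_le_const fun x _ => by
        rw [norm_eq_abs]
        exact hu1 x
    rw [norm_eq_abs] at q
    simpa using q
  have hg1 : ∀ x, |u x - ub| ≤ 2 := by
    intro x
    have := abs_sub (u x) ub
    linarith [hu1 x]
  have hg0 : ∫ x in (0:ℝ)..1, (u x - ub) = 0 := by
    rw [intervalIntegral.integral_sub (hu.intervalIntegrable _ _) intervalIntegrable_const,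
      ← hub]
    simp
  have hgp : Periodic (fun x => u x - ub) 1 := fun x => by simp only; rw [hup]
  have hgc : Continuous (fun x => u x - ub) := hu.sub continuous_const
  obtain ⟨G, hGd, hGp, hG1⟩ := prim_ctr hgc hgp hg0 hg1
  have hbd := ibp2 hlm hl hb hc m hQ hQ'c (bd := fun t => (1440 * C + 400) * Mb t + e)
    ((continuous_const.mul hMc).add continuous_const) (by
      intro t
      refine (W2'_le hC0 hC hlm hl hb hc (hQ1 t) he0 (he t)).trans ?_
      have := mul_le_mul_of_nonneg_left (hMb t) (by positivity : 0 ≤ 1440 * C + 400)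
      linarith) hGd hgc hG1 (by
      have e1 : xi P lm l m 1 = xi P lm l m 0 := by
        have := xi_period (lm := lm) (l := l) hb hc m 0
        rwa [zero_add] at this
      have e2 : D P (m + 2) 1 = D P (m + 2) 0 := by
        have := D_period hb hc (m + 2) 0
        rwa [zero_add] at this
      have e3 : G (X P (m + 2) 1) = G (X P (m + 2) 0) := by
        have := X_period hb hc (m + 2) 0
        rw [zero_add] at this
        rw [this]
        have h := hGp.nat_mul (m + 2) (X P (m + 2) 0)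
        rwa [mul_one] at h
      unfold W2
      rw [e1, e2, e3, hper])
  have hint : ∫ t in (0:ℝ)..1, ((1440 * C + 400) * Mb t + e) =
      (1440 * C + 400) * (∫ t in (0:ℝ)..1, Mb t) + e := by
    rw [intervalIntegral.integral_add, intervalIntegral.integral_const_mul]
    · simp
    · exact (continuous_const.mul hMc).intervalIntegrable _ _
    · exact intervalIntegrable_const
  rw [hint] at hbd
  have hX : Continuous (fun t => u (X P (m + 2) t)) := hu.comp (X_cont P _)
  have hchi := xi_cont P lm l m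
  have e1 : (∫ t in (0:ℝ)..1, Q t * u (X P (m + 2) t)) - ub * ∫ t in (0:ℝ)..1, Q t =
      (∫ t in (0:ℝ)..1, xi P lm l m t * Q t * (u (X P (m + 2) t) - ub)) +
      ∫ t in (0:ℝ)..1, (1 - xi P lm l m t) * (Q t * (u (X P (m + 2) t) - ub)) := by
    rw [← intervalIntegral.integral_const_mul, ← intervalIntegral.integral_sub,
      ← intervalIntegral.integral_add]
    · apply intervalIntegral.integral_congr
      intro t _
      simp only
      ring
    · exact ((hchi.mul hQc).mul (hX.sub continuous_const)).intervalIntegrable _ _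
    · exact ((continuous_const.sub hchi).mul (hQc.mul (hX.sub continuous_const))).intervalIntegrable
        _ _
    · exact (hQc.mul hX).intervalIntegrable _ _
    · exact (continuous_const.mul hQc).intervalIntegrable _ _
  have e2 : |∫ t in (0:ℝ)..1, (1 - xi P lm l m t) * (Q t * (u (X P (m + 2) t) - ub))| ≤
      2 * ∫ t in (0:ℝ)..1, Xb t := by
    rw [← intervalIntegral.integral_const_mul, ← norm_eq_abs]
    apply intervalIntegral.norm_integral_le_of_norm_le zero_le_one
    · refine Filter.Eventually.of_forall fun t _ => ?_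
      have q2 := (xi_mem P lm l m t).2
      rw [norm_eq_abs, abs_mul, abs_mul, abs_of_nonneg (by linarith : 0 ≤ 1 - xi P lm l m t)]
      have q3 : |Q t| * |u (X P (m + 2) t) - ub| ≤ 1 * 2 :=
        mul_le_mul (hQ1 t) (hg1 _) (abs_nonneg _) zero_le_one
      have q4 := mul_le_mul_of_nonneg_left q3
        (by linarith : 0 ≤ 1 - xi P lm l m t)
      have q5 := hXb t
      linarith
    · exact (continuous_const.mul hXc).intervalIntegrable _ _
  rw [e1]
  have h9 := abs_add_le
    (∫ t in (0:ℝ)..1, xi P lm l m t * Q t * (u (X P (m + 2) t) - ub))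
    (∫ t in (0:ℝ)..1, (1 - xi P lm l m t) * (Q t * (u (X P (m + 2) t) - ub)))
  linarith

end

end Pool.Agent.H52.STD
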