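import Mathlib
import Pool.Agent.H52.STD.Sq1
import Pool.Agent.H52.STD.Sq4

set_option autoImplicit false

/-!
# The weights on the torus and their integrals
-/

namespace Pool.Agent.H52.STD

open Real MeasureTheory Function Filter Topology

/-- two point weight -/
noncomputable def TT2 (α β lm : ℝ) (p : T2) : ℝ :=
  |α| * |LC β p.1| / (LC α p.2 ^ 2 * LC β p.1 ^ 2 + lm ^ 2)

/-- one point weight -/
noncomputable def TT1 (α l : ℝ) (p : T2) : ℝ := |α| / (LC α p.1 ^ 2 + l ^ 2)

/-- two point loss -/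
noncomputable def PP2 (α β lm : ℝ) (p : T2) : ℝ :=
  3 * lm ^ 2 / (LC α p.2 ^ 2 * LC β p.1 ^ 2 + lm ^ 2)

/-- one point loss -/
noncomputable def PP1 (α l : ℝ) (p : T2) : ℝ := 3 * l ^ 2 / (LC α p.1 ^ 2 + l ^ 2)

theorem LC1_cont (α : ℝ) : Continuous (fun p : T2 => LC α p.1) := (LC_cont α).comp continuous_fst

theorem LC2_cont (α : ℝ) : Continuous (fun p : T2 => LC α p.2) := (LC_cont α).comp continuous_snd

theorem TT2_cont (α β : ℝ) {lm : ℝ} (h : 0 < lm) : Continuous (TT2 α β lm) := by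
  have h1 := LC1_cont β
  have h2 := LC2_cont α
  unfold TT2
  exact (continuous_const.mul h1.abs).div (((h2.pow 2).mul (h1.pow 2)).add continuous_const)
    fun p => by positivity

theorem TT1_cont (α : ℝ) {l : ℝ} (h : 0 < l) : Continuous (TT1 α l) := by
  have h1 := LC1_cont α
  unfold TT1
  exact continuous_const.div ((h1.pow 2).add continuous_const) fun p => by positivity

theorem PP2_cont (α β : ℝ) {lm : ℝ} (h : 0 < lm) : Continuous (PP2 α β lm) := by
  have h1 := LC1_cont β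
  have h2 := LC2_cont α
  unfold PP2
  exact continuous_const.div (((h2.pow 2).mul (h1.pow 2)).add continuous_const)
    fun p => by positivity

theorem PP1_cont (α : ℝ) {l : ℝ} (h : 0 < l) : Continuous (PP1 α l) := by
  have h1 := LC1_cont α
  unfold PP1
  exact continuous_const.div ((h1.pow 2).add continuous_const) fun p => by positivity

/-- integrals over the torus, the second coordinate first -/
theorem int_T2' {F : T2 → ℝ} (hF : Continuous F) :
    ∫ p, F p = ∫ x in (0:ℝ)..1, ∫ y in (0:ℝ)..1, F ((x : UnitAddCircle), (y : UnitAddCircle)) := by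
  have h1 : ∫ p, F p = ∫ x : UnitAddCircle, ∫ y : UnitAddCircle, F (x, y) :=
    integral_prod F (Pool.Agent.TH705.SM.integrable_cont hF)
  rw [h1, circle_int]
  apply intervalIntegral.integral_congr
  intro x _
  exact circle_int fun y => F ((x : UnitAddCircle), y)

theorem mono_T2 {F : T2 → ℝ} (hF : Continuous F) {g : ℝ → ℝ} (hg : Continuous g)
    (h : ∀ x : ℝ, ∫ y in (0:ℝ)..1, F ((x : UnitAddCircle), (y : UnitAddCircle)) ≤ g x) :
    ∫ p, F p ≤ ∫ x in (0:ℝ)..1, g x := by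
  rw [int_T2' hF]
  have mkc : Continuous (fun z : ℝ × ℝ => (((z.1 : UnitAddCircle), (z.2 : UnitAddCircle)) : T2)) :=
    ((AddCircle.continuous_mk' 1).comp continuous_fst).prodMk
      ((AddCircle.continuous_mk' 1).comp continuous_snd)
  have c2 : Continuous (fun x : ℝ => ∫ y in (0:ℝ)..1,
      F ((x : UnitAddCircle), (y : UnitAddCircle))) :=
    intervalIntegral.continuous_parametric_intervalIntegral_of_continuous'
      (f := fun x y : ℝ => F ((x : UnitAddCircle), (y : UnitAddCircle))) (hF.comp mkc) 0 1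
  exact intervalIntegral.integral_mono_on zero_le_one (c2.intervalIntegrable _ _)
    (hg.intervalIntegrable _ _) fun x _ => h x

theorem TT1_int {α l : ℝ} (hα : 1 ≤ |α|) (hl : 0 < l) : ∫ p, TT1 α l p ≤ 1 / l := by
  rw [Pool.Agent.TH705.SM.int_T2 _ (Pool.Agent.TH705.SM.integrable_cont (TT1_cont α hl))]
  have h : ∀ s : ℝ, ∫ t in (0:ℝ)..1, TT1 α l ((t : UnitAddCircle), (s : UnitAddCircle)) =
      ∫ x in (0:ℝ)..1, |α| / (L α x ^ 2 + l ^ 2) := by
    intro s
    apply intervalIntegral.integral_congr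
    intro t _
    unfold TT1
    simp only [LC_coe]
  simp_rw [h]
  rw [intervalIntegral.integral_const, sub_zero, one_smul]
  exact int_sq hα hl

theorem PP1_int {α l : ℝ} (hα : 1 ≤ |α|) (hl : 0 < l) : ∫ p, PP1 α l p ≤ 3 * l / |α| := by
  have hα0 : 0 < |α| := by linarith
  have e : ∀ p, PP1 α l p = 3 * l ^ 2 / |α| * TT1 α l p := by
    intro p
    unfold PP1 TT1
    have : 0 < LC α p.1 ^ 2 + l ^ 2 := by positivity
    field_simp
  simp_rw [e]
  rw [integral_const_mul]
  have h := TT1_int hα hl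
  calc 3 * l ^ 2 / |α| * ∫ p, TT1 α l p ≤ 3 * l ^ 2 / |α| * (1 / l) :=
        mul_le_mul_of_nonneg_left h (by positivity)
    _ = _ := by field_simp

/-- the inner integral -/
theorem inner_sq {α lm b : ℝ} (hα : 1 ≤ |α|) (hlm : 0 < lm) (hb : 0 < b) :
    ∫ y in (0:ℝ)..1, |α| / (L α y ^ 2 * b ^ 2 + lm ^ 2) ≤ 1 / (b * lm) := by
  have h := int_sq (a := α) (s := lm / b) hα (by positivity)
  have e : ∀ y, |α| / (L α y ^ 2 * b ^ 2 + lm ^ 2) =
      1 / b ^ 2 * (|α| / (L α y ^ 2 + (lm / b) ^ 2)) := by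
    intro y
    have h1 : 0 < L α y ^ 2 * b ^ 2 + lm ^ 2 := by positivity
    have h2 : 0 < L α y ^ 2 + (lm / b) ^ 2 := by positivity
    have h3 : L α y ^ 2 + (lm / b) ^ 2 = (L α y ^ 2 * b ^ 2 + lm ^ 2) / b ^ 2 := by
      field_simp
    rw [h3]
    field_simp
  simp_rw [e]
  rw [intervalIntegral.integral_const_mul]
  calc 1 / b ^ 2 * ∫ x in (0:ℝ)..1, |α| / (L α x ^ 2 + (lm / b) ^ 2) ≤
        1 / b ^ 2 * (1 / (lm / b)) := mul_le_mul_of_nonneg_left h (by positivity)
    _ = _ := by field_simp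

theorem TT2_int {α β lm : ℝ} (hα : 1 ≤ |α|) (hlm : 0 < lm) : ∫ p, TT2 α β lm p ≤ 1 / lm := by
  have h := mono_T2 (TT2_cont α β hlm) (g := fun _ => 1 / lm) continuous_const (by
    intro x
    have e : ∀ y : ℝ, TT2 α β lm ((x : UnitAddCircle), (y : UnitAddCircle)) =
        |L β x| * (|α| / (L α y ^ 2 * |L β x| ^ 2 + lm ^ 2)) := by
      intro y
      unfold TT2
      simp only [LC_coe]
      rw [sq_abs]
      ring
    simp_rw [e]
    rw [intervalIntegral.integral_const_mul]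
    rcases eq_or_lt_of_le (abs_nonneg (L β x)) with h0 | h0
    · rw [← h0, zero_mul]
      positivity
    · calc |L β x| * ∫ y in (0:ℝ)..1, |α| / (L α y ^ 2 * |L β x| ^ 2 + lm ^ 2) ≤
            |L β x| * (1 / (|L β x| * lm)) :=
              mul_le_mul_of_nonneg_left (inner_sq hα hlm h0) h0.le
        _ = _ := by field_simp)
  refine h.trans ?_
  simp

theorem sqrt_cmp {u b : ℝ} (hu : 0 < u) (hb : 0 ≤ b) :
    (b ≤ u → 1 ≤ 2 * u / √(b ^ 2 + u ^ 2)) ∧ (u ≤ b → u / b ≤ 2 * u / √(b ^ 2 + u ^ 2)) := by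
  have hs : 0 < √(b ^ 2 + u ^ 2) := Real.sqrt_pos.2 (by positivity)
  constructor
  · intro h
    rw [one_le_div hs]
    calc √(b ^ 2 + u ^ 2) ≤ √((2 * u) ^ 2) := Real.sqrt_le_sqrt (by nlinarith)
      _ = 2 * u := Real.sqrt_sq (by positivity)
  · intro h
    have hb0 : 0 < b := by linarith
    rw [div_le_div_iff₀ hb0 hs]
    have : √(b ^ 2 + u ^ 2) ≤ 2 * b := by
      calc √(b ^ 2 + u ^ 2) ≤ √((2 * b) ^ 2) := Real.sqrt_le_sqrt (by nlinarith)
        _ = 2 * b := Real.sqrt_sq (by positivity)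
    nlinarith

/-- the rate -/
noncomputable def kap (α β : ℝ) : ℝ := (1 + log (|α| * |β|)) / (|α| * |β|)

theorem PP2_int {α β lm : ℝ} (hα : 1 ≤ |α|) (hβ : 1 ≤ |β|) (hlm : 16 ≤ lm) :
    ∫ p, PP2 α β lm p ≤ 18 * lm * kap α β := by
  have hlm0 : 0 < lm := by linarith
  have hα0 : 0 < |α| := by linarith
  have hβ0 : 0 < |β| := by linarith
  set u := lm / |α| with hu
  have hu0 : 0 < u := by positivity
  have hsc : Continuous (fun x => √(L β x ^ 2 + u ^ 2)) := by
    have := L_cont β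
    fun_prop
  have hs0 : ∀ x, 0 < √(L β x ^ 2 + u ^ 2) := fun x => Real.sqrt_pos.2 (by positivity)
  have h := mono_T2 (PP2_cont α β hlm0) (g := fun x => 6 * u / |β| * (|β| / √(L β x ^ 2 + u ^ 2)))
    (continuous_const.mul (continuous_const.div hsc fun x => (hs0 x).ne')) (by
    intro x
    have e : ∀ y : ℝ, PP2 α β lm ((x : UnitAddCircle), (y : UnitAddCircle)) =
        3 * lm ^ 2 / |α| * (|α| / (L α y ^ 2 * |L β x| ^ 2 + lm ^ 2)) := by
      intro y
      unfold PP2
      simp only [LC_coe]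
      rw [sq_abs]
      have : 0 < L α y ^ 2 * L β x ^ 2 + lm ^ 2 := by positivity
      field_simp
    have e2 : 6 * u / |β| * (|β| / √(L β x ^ 2 + u ^ 2)) =
        3 * (2 * u / √(|L β x| ^ 2 + u ^ 2)) := by
      rw [sq_abs]
      have := hs0 x
      field_simp
      norm_num
    rw [e2]
    have hcmp := sqrt_cmp hu0 (abs_nonneg (L β x))
    rcases le_total |L β x| u with h1 | h1
    · have h2 := hcmp.1 h1
      have h3 : ∫ y in (0:ℝ)..1, PP2 α β lm ((x : UnitAddCircle), (y : UnitAddCircle)) ≤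
          ∫ y in (0:ℝ)..1, (3:ℝ) := by
        have mkc : Continuous (fun y : ℝ => (((x : UnitAddCircle), (y : UnitAddCircle)) : T2)) :=
          continuous_const.prodMk (AddCircle.continuous_mk' 1)
        apply intervalIntegral.integral_mono_on zero_le_one
          (((PP2_cont α β hlm0).comp mkc).intervalIntegrable _ _) intervalIntegrable_const
        intro y _
        show 3 * lm ^ 2 / (_ + lm ^ 2) ≤ 3
        have hp : 0 ≤ LC α ((y : ℝ) : UnitAddCircle) ^ 2 * LC β ((x : ℝ) : UnitAddCircle) ^ 2 := by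
          positivity
        rw [div_le_iff₀ (by positivity)]
        nlinarith
      refine h3.trans ?_
      simp only [intervalIntegral.integral_const, sub_zero, smul_eq_mul, one_mul]
      linarith
    · have hb : 0 < |L β x| := by linarith
      have h2 := hcmp.2 h1
      simp_rw [e]
      rw [intervalIntegral.integral_const_mul]
      calc 3 * lm ^ 2 / |α| * ∫ y in (0:ℝ)..1, |α| / (L α y ^ 2 * |L β x| ^ 2 + lm ^ 2) ≤
            3 * lm ^ 2 / |α| * (1 / (|L β x| * lm)) :=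
              mul_le_mul_of_nonneg_left (inner_sq hα hlm0 hb) (by positivity)
        _ = 3 * (u / |L β x|) := by
            rw [hu]
            field_simp
        _ ≤ _ := by linarith)
  refine h.trans ?_
  rw [intervalIntegral.integral_const_mul]
  have h2 := int_sqrt (a := β) (u := u) hβ hu0
  have h3 : 1 + log (1 + 18 * |β| / u) ≤ 3 * (1 + log (|α| * |β|)) := by
    have hab : 1 ≤ |α| * |β| := one_le_mul_of_one_le_of_one_le hα hβ
    have e1 : 18 * |β| / u = 18 * (|α| * |β|) / lm := by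
      rw [hu]
      field_simp
    have e2 : 18 * (|α| * |β|) / lm ≤ 18 / 16 * (|α| * |β|) := by
      rw [div_le_iff₀ hlm0]
      nlinarith
    have e3 : 1 + 18 * |β| / u ≤ 3 * (|α| * |β|) := by
      rw [e1]
      linarith
    have e4 : log (1 + 18 * |β| / u) ≤ log (3 * (|α| * |β|)) :=
      log_le_log (by positivity) e3
    rw [log_mul (by norm_num) (by positivity)] at e4
    have e5 : log 3 ≤ 2 := by
      have := log_le_sub_one_of_pos (by norm_num : (0:ℝ) < 3)
      linarith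
    have e6 : 0 ≤ log (|α| * |β|) := log_nonneg hab
    linarith
  calc 6 * u / |β| * ∫ x in (0:ℝ)..1, |β| / √(L β x ^ 2 + u ^ 2) ≤
        6 * u / |β| * (3 * (1 + log (|α| * |β|))) :=
          mul_le_mul_of_nonneg_left (h2.trans h3) (by positivity)
    _ = _ := by
        rw [hu]
        unfold kap
        field_simp
        ring

theorem kap_nonneg {α β : ℝ} (hα : 1 ≤ |α|) (hβ : 1 ≤ |β|) : 0 ≤ kap α β := by
  unfold kap
  have : 0 ≤ log (|α| * |β|) := log_nonneg (one_le_mul_of_one_le_of_one_le hα hβ)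
  positivity

/-! ### the sums -/

/-- the weight on the torus -/
noncomputable def MT (a : ℕ → ℝ) (lm l : ℝ) (m : ℕ) (p : T2) : ℝ :=
  (∑ j ∈ Finset.range m, (1 / 2) ^ (m - (j + 1)) * TT2 (a j) (a (j + 1)) lm (cs a (j + 1) p)) +
    TT1 (a m) l (cs a m p)

/-- the loss on the torus -/
noncomputable def XT (a : ℕ → ℝ) (lm l : ℝ) (m : ℕ) (p : T2) : ℝ :=
  (∑ j ∈ Finset.range m, PP2 (a j) (a (j + 1)) lm (cs a (j + 1) p)) + PP1 (a m) l (cs a m p)

theorem MT_cont (a : ℕ → ℝ) {lm l : ℝ} (hlm : 0 < lm) (hl : 0 < l) (m : ℕ) :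
    Continuous (MT a lm l m) := by
  unfold MT
  exact (continuous_finsetSum _ fun j _ => continuous_const.mul
    ((TT2_cont _ _ hlm).comp (cs_cont a (j + 1)))).add ((TT1_cont _ hl).comp (cs_cont a m))

theorem XT_cont (a : ℕ → ℝ) {lm l : ℝ} (hlm : 0 < lm) (hl : 0 < l) (m : ℕ) :
    Continuous (XT a lm l m) := by
  unfold XT
  exact (continuous_finsetSum _ fun j _ =>
    ((PP2_cont _ _ hlm).comp (cs_cont a (j + 1)))).add ((PP1_cont _ hl).comp (cs_cont a m))

theorem int_cs' (b : ℕ → ℝ) (m : ℕ) {F : T2 → ℝ} (hF : Continuous F) :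
    ∫ p, F (cs b m p) = ∫ p, F p := by
  have hmp := cs_mp b m
  have h1 : ∫ y, F y ∂(Measure.map (cs b m) volume) = ∫ p, F (cs b m p) :=
    integral_map hmp.measurable.aemeasurable (by rw [hmp.map_eq]; exact hF.aestronglyMeasurable)
  rw [← h1, hmp.map_eq]

theorem MT_int (a : ℕ → ℝ) {lm l : ℝ} (hlm : 0 < lm) (hl : 0 < l) (m : ℕ)
    (ha : ∀ k ≤ m, 1 ≤ |a k|) : ∫ p, MT a lm l m p ≤ 2 / lm + 1 / l := by
  unfold MT
  have i1 : ∀ j, Integrable (fun p => (1 / 2 : ℝ) ^ (m - (j + 1)) *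
      TT2 (a j) (a (j + 1)) lm (cs a (j + 1) p)) := fun j =>
    Pool.Agent.TH705.SM.integrable_cont (continuous_const.mul
      ((TT2_cont _ _ hlm).comp (cs_cont a (j + 1))))
  have i2 : Integrable (fun p => TT1 (a m) l (cs a m p)) :=
    Pool.Agent.TH705.SM.integrable_cont ((TT1_cont _ hl).comp (cs_cont a m))
  rw [integral_add (integrable_finsetSum _ fun j _ => i1 j) i2,
    integral_finsetSum _ fun j _ => i1 j, int_cs' a m (TT1_cont _ hl)]
  have h1 := TT1_int (ha m le_rfl) hl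
  have h2 : ∑ j ∈ Finset.range m, ∫ p, (1 / 2 : ℝ) ^ (m - (j + 1)) *
      TT2 (a j) (a (j + 1)) lm (cs a (j + 1) p) ≤
      ∑ j ∈ Finset.range m, (1 / 2 : ℝ) ^ (m - (j + 1)) * (1 / lm) := by
    apply Finset.sum_le_sum
    intro j hj
    have hj' := Finset.mem_range.1 hj
    rw [integral_const_mul, int_cs' a (j + 1) (TT2_cont _ _ hlm)]
    exact mul_le_mul_of_nonneg_left (TT2_int (ha j (by omega)) hlm) (by positivity)
  have h3 : ∑ j ∈ Finset.range m, (1 / 2 : ℝ) ^ (m - (j + 1)) ≤ 2 := by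
    have e : ∑ j ∈ Finset.range m, (1 / 2 : ℝ) ^ (m - (j + 1)) =
        ∑ j ∈ Finset.range m, (1 / 2 : ℝ) ^ j := by
      rw [← Finset.sum_range_reflect]
      apply Finset.sum_congr rfl
      intro j hj
      have := Finset.mem_range.1 hj
      congr 1
      omega
    rw [e]
    have := geom_sum_eq (by norm_num : (1 / 2 : ℝ) ≠ 1) m
    rw [this]
    have : 0 ≤ (1 / 2 : ℝ) ^ m := by positivity
    rw [div_le_iff_of_neg (by norm_num)]
    linarith
  rw [← Finset.sum_mul] at h2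
  have h4 := mul_le_mul_of_nonneg_right h3 (by positivity : 0 ≤ 1 / lm)
  have e5 : 2 / lm = 2 * (1 / lm) := by ring
  rw [e5]
  linarith

theorem XT_int (a : ℕ → ℝ) {lm l : ℝ} (hlm : 16 ≤ lm) (hl : 0 < l) (m : ℕ)
    (ha : ∀ k ≤ m, 1 ≤ |a k|) : ∫ p, XT a lm l m p ≤
      18 * lm * (∑ j ∈ Finset.range m, kap (a j) (a (j + 1))) + 3 * l / |a m| := by
  have hlm0 : 0 < lm := by linarith
  unfold XT
  have i1 : ∀ j, Integrable (fun p => PP2 (a j) (a (j + 1)) lm (cs a (j + 1) p)) := fun j =>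
    Pool.Agent.TH705.SM.integrable_cont ((PP2_cont _ _ hlm0).comp (cs_cont a (j + 1)))
  have i2 : Integrable (fun p => PP1 (a m) l (cs a m p)) :=
    Pool.Agent.TH705.SM.integrable_cont ((PP1_cont _ hl).comp (cs_cont a m))
  rw [integral_add (integrable_finsetSum _ fun j _ => i1 j) i2,
    integral_finsetSum _ fun j _ => i1 j, int_cs' a m (PP1_cont _ hl)]
  have h1 := PP1_int (ha m le_rfl) hl
  have h2 : ∑ j ∈ Finset.range m, ∫ p, PP2 (a j) (a (j + 1)) lm (cs a (j + 1) p) ≤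
      ∑ j ∈ Finset.range m, 18 * lm * kap (a j) (a (j + 1)) := by
    apply Finset.sum_le_sum
    intro j hj
    have hj' := Finset.mem_range.1 hj
    rw [int_cs' a (j + 1) (PP2_cont _ _ hlm0)]
    exact PP2_int (ha j (by omega)) (ha (j + 1) (by omega)) hlm
  rw [← Finset.mul_sum] at h2
  linarith

/-! ### comparison with the chain -/

theorem LLc (a : ℕ → ℝ) (y t : ℝ) (k : ℕ) : LL (PA a y) (k + 1) t =
    LC (a k) (cs a k ((t : UnitAddCircle), (y : UnitAddCircle))).1 := by
  have e := cs_coe a k (t, y)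
  simp only at e
  rw [e, LC_coe, pc_eq]
  rfl

theorem LLc' (a : ℕ → ℝ) (y t : ℝ) (k : ℕ) : LL (PA a y) (k + 1) t =
    LC (a k) (cs a (k + 1) ((t : UnitAddCircle), (y : UnitAddCircle))).2 := by
  have e := cs_coe a (k + 1) (t, y)
  simp only at e
  rw [e, LC_coe, pc_eq]
  rfl

theorem MM_le_MT (a : ℕ → ℝ) (y lm l : ℝ) (m : ℕ) (t : ℝ) : MM (PA a y) lm l m t ≤
    MT a lm l m ((t : UnitAddCircle), (y : UnitAddCircle)) := by
  unfold MM MT
  rw [Finset.sum_range_succ]
  apply add_le_add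
  · apply Finset.sum_le_sum
    intro j hj
    have hj' := Finset.mem_range.1 hj
    unfold ev
    rw [if_pos (by omega)]
    unfold tt TT2
    rw [← LLc' a y t j, ← LLc a y t (j + 1)]
    exact le_rfl
  · unfold ev
    rw [if_neg (by omega)]
    unfold ss TT1
    rw [← LLc a y t m]
    exact le_rfl

theorem one_sub_rho (z : ℝ) : 1 - rho 1 z ≤ 3 / (z ^ 2 + 1) := by
  by_cases h : 2 ≤ z ^ 2
  · rw [rho_one (by linarith)]
    have : 0 ≤ 3 / (z ^ 2 + 1) := by positivity
    linarith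
  · have h1 := rho_nonneg 1 z
    have h2 : 1 ≤ 3 / (z ^ 2 + 1) := by
      rw [le_div_iff₀ (by positivity)]
      linarith [not_le.1 h]
    linarith

theorem XX_le_XT (a : ℕ → ℝ) (y : ℝ) {lm l : ℝ} (hlm : 0 < lm) (hl : 0 < l) (m : ℕ) (t : ℝ) :
    1 - xi (PA a y) lm l m t ≤ XT a lm l m ((t : UnitAddCircle), (y : UnitAddCircle)) := by
  have h1 : 1 - Pf (PA a y) lm m t ≤ ∑ j ∈ Finset.range m, (1 - psi (PA a y) lm (j + 1) t) := by
    induction m with
    | zero => simp [Pf]
    | succ m ih =>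
      rw [Finset.sum_range_succ]
      show 1 - Pf (PA a y) lm m t * psi (PA a y) lm (m + 1) t ≤ _
      have q1 := Pf_mem (PA a y) lm m t
      have q2 := psi_mem (PA a y) lm (m + 1) t
      nlinarith
  have h2 : ∀ j, 1 - psi (PA a y) lm (j + 1) t ≤
      PP2 (a j) (a (j + 1)) lm (cs a (j + 1) ((t : UnitAddCircle), (y : UnitAddCircle))) := by
    intro j
    unfold psi PP2
    refine (one_sub_rho _).trans ?_
    rw [← LLc' a y t j, ← LLc a y t (j + 1)]
    apply le_of_eq
    have hx : 0 < (LL (PA a y) (j + 1) t * LL (PA a y) (j + 1 + 1) t / lm) ^ 2 + 1 := by positivity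
    have hy : 0 < LL (PA a y) (j + 1) t ^ 2 * LL (PA a y) (j + 1 + 1) t ^ 2 + lm ^ 2 := by
      positivity
    rw [div_eq_div_iff hx.ne' hy.ne']
    field_simp
  have h3 : 1 - phl (PA a y) l (m + 1) t ≤
      PP1 (a m) l (cs a m ((t : UnitAddCircle), (y : UnitAddCircle))) := by
    unfold phl PP1
    refine (one_sub_rho _).trans ?_
    rw [← LLc a y t m]
    apply le_of_eq
    have hx : 0 < (LL (PA a y) (m + 1) t / l) ^ 2 + 1 := by positivity
    have hy : 0 < LL (PA a y) (m + 1) t ^ 2 + l ^ 2 := by positivity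
    rw [div_eq_div_iff hx.ne' hy.ne']
    field_simp
  unfold xi XT
  have q1 := Pf_mem (PA a y) lm m t
  have q2 := phl_mem (PA a y) l (m + 1) t
  have q3 : ∑ j ∈ Finset.range m, (1 - psi (PA a y) lm (j + 1) t) ≤
      ∑ j ∈ Finset.range m,
        PP2 (a j) (a (j + 1)) lm (cs a (j + 1) ((t : UnitAddCircle), (y : UnitAddCircle))) :=
    Finset.sum_le_sum fun j _ => h2 j
  nlinarith

end Pool.Agent.H52.STD
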