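import Mathlib
import Pool.Agent.H52.STD.Sq5

set_option autoImplicit false

/-!
# Two decorrelating steps, integrated over the torus
-/

namespace Pool.Agent.H52.STD

open Real MeasureTheory Function Filter Topology

/-- two steps on a line -/
theorem line_sq {C : ℝ} (hC0 : 0 ≤ C) (hC : ∀ z, |rho' 1 z| ≤ C) (a : ℕ → ℝ) {lm l l' : ℝ}
    (hlm : 16 ≤ lm) (hl : 4 ≤ l) (hl' : 4 ≤ l') (y : ℝ) (k : ℕ)
    {u v v' w w' : ℝ → ℝ} {M N : ℝ} (hM : 0 ≤ M) (hN : 0 ≤ N)
    (hu : Continuous u) (hup : Periodic u 1) (hu1 : ∀ x, |u x| ≤ 1)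
    (hv : ∀ x, HasDerivAt v (v' x) x) (hv'c : Continuous v') (hvp : Periodic v 1)
    (hv1 : ∀ x, |v x| ≤ 1) (hvM : ∀ x, |v' x| ≤ M)
    (hw : ∀ x, HasDerivAt w (w' x) x) (hw'c : Continuous w') (hwp : Periodic w 1)
    (hw1 : ∀ x, |w x| ≤ 1) (hwN : ∀ x, |w' x| ≤ N) :
    |(∫ t in (0:ℝ)..1, u (pc a (k + 2) (t, y)).1 * v (pc a (k + 2) (t, y)).2 * w t) -
      (∫ x in (0:ℝ)..1, u x) * (∫ x in (0:ℝ)..1, v x) * ∫ x in (0:ℝ)..1, w x| ≤
      (2 * ((1440 * C + 400) * (∫ t in (0:ℝ)..1, MT a lm l (k + 1) ((t : UnitAddCircle),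
        (y : UnitAddCircle))) + (2 * M / l + 16 * N * (1 / 2) ^ (k + 2) * (1 / l + 1 / lm))) +
        2 * ∫ t in (0:ℝ)..1, XT a lm l (k + 1) ((t : UnitAddCircle), (y : UnitAddCircle))) +
      (2 * ((1440 * C + 400) * (∫ t in (0:ℝ)..1, MT a lm l' k ((t : UnitAddCircle),
        (y : UnitAddCircle))) + 16 * N * (1 / 2) ^ (k + 1) * (1 / l' + 1 / lm)) +
        2 * ∫ t in (0:ℝ)..1, XT a lm l' k ((t : UnitAddCircle), (y : UnitAddCircle))) := by
  have hb : (PA a y).b = 0 := rfl
  have hc : (PA a y).c = 1 := rfl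
  have hlm0 : 0 < lm := by linarith
  have hl0 : 0 < l := by linarith
  have hl'0 : 0 < l' := by linarith
  have mkc : Continuous (fun t : ℝ => (((t : UnitAddCircle), (y : UnitAddCircle)) : T2)) :=
    (AddCircle.continuous_mk' 1).prodMk continuous_const
  have hvc : Continuous v := continuous_iff_continuousAt.2 fun x => (hv x).continuousAt
  have hwc : Continuous w := continuous_iff_continuousAt.2 fun x => (hw x).continuousAt
  set P := PA a y with hP
  -- first step
  have h1 := dec2 (P := P) (lm := lm) (l := l) hC0 hC hlm hl hb hc (k + 1)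
    (Q := fun t => v (X P (k + 2) t) * w t)
    (Q' := fun t => v' (X P (k + 2) t) * D P (k + 2) t * w t + v (X P (k + 2) t) * w' t)
    (fun t => ((hv _).comp t (X_hasDeriv P (k + 2) t)).mul (hw t))
    ((((hv'c.comp (X_cont P _)).mul (D_cont P _)).mul hwc).add
      ((hvc.comp (X_cont P _)).mul hw'c))
    (fun t => by
      rw [abs_mul]
      exact mul_le_one₀ (hv1 _) (abs_nonneg _) (hw1 _))
    (by
      have e1 := X_period hb hc (k + 2) 0
      rw [zero_add] at e1
      have e2 := hvp.nat_mul (k + 2) (X P (k + 2) 0)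
      rw [mul_one] at e2
      have e3 := hwp 0
      rw [zero_add] at e3
      show v (X P (k + 2) 1) * w 1 = v (X P (k + 2) 0) * w 0
      rw [e1, e2, e3])
    (e := 2 * M / l + 16 * N * (1 / 2) ^ (k + 2) * (1 / l + 1 / lm)) (by positivity)
    (fun t hg => by
      have q1 := D_ratio hg hlm hl hb hc
      have q2 := D_large2 hg hlm hl hb hc
      have q3 : |v' (X P (k + 2) t) * D P (k + 2) t * w t| ≤ M * |D P (k + 2) t| := by
        rw [abs_mul, abs_mul]
        have r1 := mul_le_mul_of_nonneg_right (hvM (X P (k + 2) t)) (abs_nonneg (D P (k + 2) t))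
        have r2 := mul_le_of_le_one_right
          (mul_nonneg (abs_nonneg (v' (X P (k + 2) t))) (abs_nonneg (D P (k + 2) t))) (hw1 t)
        linarith
      have q4 : |v (X P (k + 2) t) * w' t| ≤ N := by
        rw [abs_mul]
        have := mul_le_mul (hv1 (X P (k + 2) t)) (hwN t) (abs_nonneg _) zero_le_one
        linarith
      have q5 := mul_le_mul_of_nonneg_left q1 hM
      have q6 := mul_le_mul_of_nonneg_left q2 hN
      refine (abs_add_le _ _).trans ?_
      have e1 : (2 * M / l + 16 * N * (1 / 2) ^ (k + 2) * (1 / l + 1 / lm)) *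
          |D P (k + 1 + 2) t| = M * (2 / l * |D P (k + 1 + 2) t|) +
            N * (16 * (1 / 2) ^ (k + 1 + 1) * (1 / l + 1 / lm) * |D P (k + 1 + 2) t|) := by
        ring
      rw [e1]
      have e2 : D P (k + 1 + 1) t = D P (k + 2) t := rfl
      rw [e2] at q5
      linarith)
    (Mb := fun t => MT a lm l (k + 1) ((t : UnitAddCircle), (y : UnitAddCircle)))
    (Xb := fun t => XT a lm l (k + 1) ((t : UnitAddCircle), (y : UnitAddCircle)))
    ((MT_cont a hlm0 hl0 (k + 1)).comp mkc) ((XT_cont a hlm0 hl0 (k + 1)).comp mkc)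
    (fun t => MM_le_MT a y lm l (k + 1) t) (fun t => XX_le_XT a y hlm0 hl0 (k + 1) t)
    hu hup hu1
  -- second step
  have h2 := dec2 (P := P) (lm := lm) (l := l') hC0 hC hlm hl' hb hc k
    (Q := w) (Q' := w') hw hw'c hw1
    (by
      have e3 := hwp 0
      rwa [zero_add] at e3)
    (e := 16 * N * (1 / 2) ^ (k + 1) * (1 / l' + 1 / lm)) (by positivity)
    (fun t hg => by
      have q2 := D_large2 hg hlm hl' hb hc
      have q6 := mul_le_mul_of_nonneg_left q2 hN
      have q7 := hwN t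
      have e1 : 16 * N * (1 / 2) ^ (k + 1) * (1 / l' + 1 / lm) * |D P (k + 2) t| =
          N * (16 * (1 / 2) ^ (k + 1) * (1 / l' + 1 / lm) * |D P (k + 2) t|) := by
        ring
      rw [e1]
      linarith)
    (Mb := fun t => MT a lm l' k ((t : UnitAddCircle), (y : UnitAddCircle)))
    (Xb := fun t => XT a lm l' k ((t : UnitAddCircle), (y : UnitAddCircle)))
    ((MT_cont a hlm0 hl'0 k).comp mkc) ((XT_cont a hlm0 hl'0 k).comp mkc)
    (fun t => MM_le_MT a y lm l' k t) (fun t => XX_le_XT a y hlm0 hl'0 k t)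
    hvc hvp hv1
  set ub := ∫ x in (0:ℝ)..1, u x with hub
  set vb := ∫ x in (0:ℝ)..1, v x with hvb
  have hub1 : |ub| ≤ 1 := by
    have q : ‖∫ x in (0:ℝ)..1, u x‖ ≤ 1 * |1 - 0| :=
      intervalIntegral.norm_integral_le_of_norm_le_const fun x _ => by
        rw [norm_eq_abs]
        exact hu1 x
    rw [norm_eq_abs] at q
    simpa using q
  have e0 : ∫ t in (0:ℝ)..1, u (pc a (k + 2) (t, y)).1 * v (pc a (k + 2) (t, y)).2 * w t =
      ∫ t in (0:ℝ)..1, (fun t => v (X P (k + 2) t) * w t) t * u (X P (k + 1 + 2) t) := by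
    apply intervalIntegral.integral_congr
    intro t _
    simp only
    rw [pc_eq]
    ring
  have e2 : ∫ t in (0:ℝ)..1, (fun t => v (X P (k + 2) t) * w t) t =
      ∫ t in (0:ℝ)..1, w t * v (X P (k + 2) t) := by
    apply intervalIntegral.integral_congr
    intro t _
    simp only
    ring
  rw [e0]
  rw [e2] at h1
  set I0 := ∫ t in (0:ℝ)..1, (fun t => v (X P (k + 2) t) * w t) t * u (X P (k + 1 + 2) t) with hI0
  set I1 := ∫ t in (0:ℝ)..1, w t * v (X P (k + 2) t) with hI1
  set I2 := ∫ x in (0:ℝ)..1, w x with hI2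
  have e3 : I0 - ub * vb * I2 = (I0 - ub * I1) + ub * (I1 - vb * I2) := by ring
  rw [e3]
  refine (abs_add_le _ _).trans ?_
  rw [abs_mul]
  have h3 : |ub| * |I1 - vb * I2| ≤ |I1 - vb * I2| :=
    mul_le_of_le_one_left (abs_nonneg _) hub1
  exact add_le_add h1 (h3.trans h2)

/-- the error -/
noncomputable def err6 (K : ℝ) (a : ℕ → ℝ) (lm l l' M N : ℝ) (k : ℕ) : ℝ :=
  (2 * (K * (2 / lm + 1 / l) + (2 * M / l + 16 * N * (1 / 2) ^ (k + 2) * (1 / l + 1 / lm))) +
    2 * (18 * lm * (∑ j ∈ Finset.range (k + 1), kap (a j) (a (j + 1))) + 3 * l / |a (k + 1)|)) +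
  (2 * (K * (2 / lm + 1 / l') + 16 * N * (1 / 2) ^ (k + 1) * (1 / l' + 1 / lm)) +
    2 * (18 * lm * (∑ j ∈ Finset.range k, kap (a j) (a (j + 1))) + 3 * l' / |a k|))

theorem torus_sq {C : ℝ} (hC0 : 0 ≤ C) (hC : ∀ z, |rho' 1 z| ≤ C) {a : ℕ → ℝ} {lm l l' : ℝ}
    (hlm : 16 ≤ lm) (hl : 4 ≤ l) (hl' : 4 ≤ l') (k : ℕ) (ha : ∀ j ≤ k + 1, 1 ≤ |a j|)
    {f h : UnitAddCircle → ℝ} (hf : Sm1 f) (hh : Sm1 h) {M N : ℝ} (hM : 0 ≤ M) (hN : 0 ≤ N)
    (hhM : ∀ x, |deriv (fun t : ℝ => h (t : UnitAddCircle)) x| ≤ M)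
    {g : T2 → ℝ} (hg : Smo g) (hg1 : ∀ p, |g p| ≤ 1) (hgN : ∀ y t, |lw g y t| ≤ N) :
    |(∫ p : T2, f (cs a (k + 2) p).1 * h (cs a (k + 2) p).2 * g p) -
      (∫ x, f x) * (∫ x, h x) * ∫ p, g p| ≤ err6 (1440 * C + 400) a lm l l' M N k := by
  have hlm0 : 0 < lm := by linarith
  have hl0 : 0 < l := by linarith
  have hl'0 : 0 < l' := by linarith
  have hcs := cs_cont a (k + 2)
  have c1 : Continuous (fun p : T2 => f (cs a (k + 2) p).1 * h (cs a (k + 2) p).2 * g p) :=
    ((hf.cont.comp (continuous_fst.comp hcs)).mul (hh.cont.comp (continuous_snd.comp hcs))).mul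
      hg.cont
  rw [Pool.Agent.TH705.SM.int_T2 _ (Pool.Agent.TH705.SM.integrable_cont c1),
    Pool.Agent.TH705.SM.int_T2 _ (Pool.Agent.TH705.SM.integrable_cont hg.cont),
    circle_int f, circle_int h]
  set fb := ∫ t in (0:ℝ)..1, f (t : UnitAddCircle) with hfb
  set hb := ∫ t in (0:ℝ)..1, h (t : UnitAddCircle) with hhb
  have mkc : Continuous (fun z : ℝ × ℝ => (((z.2 : UnitAddCircle), (z.1 : UnitAddCircle)) : T2)) :=
    ((AddCircle.continuous_mk' 1).comp continuous_snd).prodMk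
      ((AddCircle.continuous_mk' 1).comp continuous_fst)
  have cpar : ∀ {F : T2 → ℝ}, Continuous F → Continuous (fun s : ℝ => ∫ t in (0:ℝ)..1,
      F ((t : UnitAddCircle), (s : UnitAddCircle))) := by
    intro F hF
    exact intervalIntegral.continuous_parametric_intervalIntegral_of_continuous'
      (f := fun s t : ℝ => F ((t : UnitAddCircle), (s : UnitAddCircle))) (hF.comp mkc) 0 1
  have c2 := cpar c1
  have c3 := cpar hg.cont
  have c4 : Continuous (fun s : ℝ => fb * hb * ∫ t in (0:ℝ)..1,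
      g ((t : UnitAddCircle), (s : UnitAddCircle))) := continuous_const.mul c3
  have cM := cpar (MT_cont a hlm0 hl0 (k + 1))
  have cX := cpar (XT_cont a hlm0 hl0 (k + 1))
  have cM' := cpar (MT_cont a hlm0 hl'0 k)
  have cX' := cpar (XT_cont a hlm0 hl'0 k)
  have e0 : ∫ s in (0:ℝ)..1, ((∫ t in (0:ℝ)..1,
      (fun p : T2 => f (cs a (k + 2) p).1 * h (cs a (k + 2) p).2 * g p)
        ((t : UnitAddCircle), (s : UnitAddCircle))) - fb * hb *
        ∫ t in (0:ℝ)..1, g ((t : UnitAddCircle), (s : UnitAddCircle))) =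
      (∫ s in (0:ℝ)..1, ∫ t in (0:ℝ)..1,
      (fun p : T2 => f (cs a (k + 2) p).1 * h (cs a (k + 2) p).2 * g p)
        ((t : UnitAddCircle), (s : UnitAddCircle))) - fb * hb * ∫ s in (0:ℝ)..1,
        ∫ t in (0:ℝ)..1, g ((t : UnitAddCircle), (s : UnitAddCircle)) := by
    rw [intervalIntegral.integral_sub (c2.intervalIntegrable _ _) (c4.intervalIntegrable _ _),
      intervalIntegral.integral_const_mul]
  set K := 1440 * C + 400 with hK
  set E : ℝ → ℝ := fun s =>
      (2 * (K * (∫ t in (0:ℝ)..1, MT a lm l (k + 1) ((t : UnitAddCircle),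
        (s : UnitAddCircle))) + (2 * M / l + 16 * N * (1 / 2) ^ (k + 2) * (1 / l + 1 / lm))) +
        2 * ∫ t in (0:ℝ)..1, XT a lm l (k + 1) ((t : UnitAddCircle), (s : UnitAddCircle))) +
      (2 * (K * (∫ t in (0:ℝ)..1, MT a lm l' k ((t : UnitAddCircle),
        (s : UnitAddCircle))) + 16 * N * (1 / 2) ^ (k + 1) * (1 / l' + 1 / lm)) +
        2 * ∫ t in (0:ℝ)..1, XT a lm l' k ((t : UnitAddCircle), (s : UnitAddCircle))) with hE
  have cE : Continuous E := by
    rw [hE]
    exact ((continuous_const.mul ((continuous_const.mul cM).add continuous_const)).add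
      (continuous_const.mul cX)).add
      ((continuous_const.mul ((continuous_const.mul cM').add continuous_const)).add
      (continuous_const.mul cX'))
  have key : ∀ s : ℝ, ‖(∫ t in (0:ℝ)..1,
      (fun p : T2 => f (cs a (k + 2) p).1 * h (cs a (k + 2) p).2 * g p)
      ((t : UnitAddCircle), (s : UnitAddCircle))) - fb * hb *
        ∫ t in (0:ℝ)..1, g ((t : UnitAddCircle), (s : UnitAddCircle))‖ ≤ E s := by
    intro s
    rw [norm_eq_abs]
    have h1 := line_sq hC0 hC a hlm hl hl' s k (u := fun t : ℝ => f (t : UnitAddCircle))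
      (v := fun t : ℝ => h (t : UnitAddCircle)) (w := fun t : ℝ => lft g (t, s))
      (w' := lw g s) hM hN
      hf.smooth.continuous (per1 f) (fun x => hf.bound _)
      (fun x => ((hh.smooth.differentiable one_ne_zero) x).hasDerivAt)
      (hh.smooth.continuous_deriv le_rfl) (per1 h) (fun x => hh.bound _) hhM
      (fun x => lw_hasDeriv hg s x)
      ((lw_cont hg).comp (f := fun t : ℝ => ((t, s) : ℝ × ℝ)) (by fun_prop))
      (fun x => by
        have := lft_per g (x, s) 1 0
        simpa using this)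
      (fun x => hg1 _) (fun x => hgN s x)
    have e : ∫ t in (0:ℝ)..1, (fun p : T2 => f (cs a (k + 2) p).1 * h (cs a (k + 2) p).2 * g p)
        ((t : UnitAddCircle), (s : UnitAddCircle)) =
        ∫ t in (0:ℝ)..1, (fun t : ℝ => f (t : UnitAddCircle)) (pc a (k + 2) (t, s)).1 *
          (fun t : ℝ => h (t : UnitAddCircle)) (pc a (k + 2) (t, s)).2 * lft g (t, s) := by
      apply intervalIntegral.integral_congr
      intro t _
      simp only
      rw [cs_coe a (k + 2) (t, s)]
      rfl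
    rw [e]
    exact h1
  have h2 := intervalIntegral.norm_integral_le_of_norm_le (a := 0) (b := 1) zero_le_one
    (f := fun s => (∫ t in (0:ℝ)..1,
      (fun p : T2 => f (cs a (k + 2) p).1 * h (cs a (k + 2) p).2 * g p)
      ((t : UnitAddCircle), (s : UnitAddCircle))) - fb * hb *
        ∫ t in (0:ℝ)..1, g ((t : UnitAddCircle), (s : UnitAddCircle)))
    (Filter.Eventually.of_forall fun s _ => key s)
    (cE.intervalIntegrable (μ := volume) (0:ℝ) 1)
  rw [norm_eq_abs, e0] at h2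
  refine h2.trans ?_
  -- the integral of the bound
  have hmt := MT_int a hlm0 hl0 (k + 1) (fun j hj => ha j (by omega))
  have hmt' := MT_int a hlm0 hl'0 k (fun j hj => ha j (by omega))
  have hxt := XT_int a hlm hl0 (k + 1) (fun j hj => ha j (by omega))
  have hxt' := XT_int a hlm hl'0 k (fun j hj => ha j (by omega))
  rw [Pool.Agent.TH705.SM.int_T2 _ (Pool.Agent.TH705.SM.integrable_cont
    (MT_cont a hlm0 hl0 (k + 1)))] at hmt
  rw [Pool.Agent.TH705.SM.int_T2 _ (Pool.Agent.TH705.SM.integrable_cont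
    (MT_cont a hlm0 hl'0 k))] at hmt'
  rw [Pool.Agent.TH705.SM.int_T2 _ (Pool.Agent.TH705.SM.integrable_cont
    (XT_cont a hlm0 hl0 (k + 1)))] at hxt
  rw [Pool.Agent.TH705.SM.int_T2 _ (Pool.Agent.TH705.SM.integrable_cont
    (XT_cont a hlm0 hl'0 k))] at hxt'
  have eE : ∫ s in (0:ℝ)..1, E s =
      (2 * (K * (∫ s in (0:ℝ)..1, ∫ t in (0:ℝ)..1, MT a lm l (k + 1) ((t : UnitAddCircle),
        (s : UnitAddCircle))) + (2 * M / l + 16 * N * (1 / 2) ^ (k + 2) * (1 / l + 1 / lm))) +
        2 * ∫ s in (0:ℝ)..1, ∫ t in (0:ℝ)..1, XT a lm l (k + 1) ((t : UnitAddCircle),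
          (s : UnitAddCircle))) +
      (2 * (K * (∫ s in (0:ℝ)..1, ∫ t in (0:ℝ)..1, MT a lm l' k ((t : UnitAddCircle),
        (s : UnitAddCircle))) + 16 * N * (1 / 2) ^ (k + 1) * (1 / l' + 1 / lm)) +
        2 * ∫ s in (0:ℝ)..1, ∫ t in (0:ℝ)..1, XT a lm l' k ((t : UnitAddCircle),
          (s : UnitAddCircle))) := by
    have affint : ∀ {A B : ℝ → ℝ} (c : ℝ), Continuous A → Continuous B →
        ∫ s in (0:ℝ)..1, (2 * (K * A s + c) + 2 * B s) =
          2 * (K * (∫ s in (0:ℝ)..1, A s) + c) + 2 * ∫ s in (0:ℝ)..1, B s := by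
      intro A B c hA hB
      have i1 : IntervalIntegrable (fun s => 2 * (K * A s + c)) volume 0 1 :=
        Continuous.intervalIntegrable (by fun_prop) _ _
      have i2 : IntervalIntegrable (fun s => 2 * B s) volume 0 1 :=
        Continuous.intervalIntegrable (by fun_prop) _ _
      have i3 : IntervalIntegrable (fun s => K * A s) volume 0 1 :=
        Continuous.intervalIntegrable (by fun_prop) _ _
      have i4 : IntervalIntegrable (fun _ : ℝ => c) volume 0 1 :=
        Continuous.intervalIntegrable (by fun_prop) _ _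
      rw [intervalIntegral.integral_add i1 i2, intervalIntegral.integral_const_mul,
        intervalIntegral.integral_const_mul, intervalIntegral.integral_add i3 i4,
        intervalIntegral.integral_const_mul]
      simp
    have affint2 : ∀ {A B A' B' : ℝ → ℝ} (c c' : ℝ), Continuous A → Continuous B →
        Continuous A' → Continuous B' →
        ∫ s in (0:ℝ)..1, ((2 * (K * A s + c) + 2 * B s) + (2 * (K * A' s + c') + 2 * B' s)) =
          (2 * (K * (∫ s in (0:ℝ)..1, A s) + c) + 2 * ∫ s in (0:ℝ)..1, B s) +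
          (2 * (K * (∫ s in (0:ℝ)..1, A' s) + c') + 2 * ∫ s in (0:ℝ)..1, B' s) := by
      intro A B A' B' c c' hA hB hA' hB'
      have i1 : IntervalIntegrable (fun s => 2 * (K * A s + c) + 2 * B s) volume 0 1 :=
        Continuous.intervalIntegrable (by fun_prop) _ _
      have i2 : IntervalIntegrable (fun s => 2 * (K * A' s + c') + 2 * B' s) volume 0 1 :=
        Continuous.intervalIntegrable (by fun_prop) _ _
      rw [intervalIntegral.integral_add i1 i2, affint c hA hB, affint c' hA' hB']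
    exact affint2 _ _ cM cX cM' cX'
  rw [eE]
  unfold err6
  have hK0 : 0 ≤ K := by rw [hK]; positivity
  have r1 := mul_le_mul_of_nonneg_left hmt hK0
  have r2 := mul_le_mul_of_nonneg_left hmt' hK0
  linarith

end Pool.Agent.H52.STD
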