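import Mathlib
import Pool.Agent.H52.STD.Sq6
import Pool.Agent.H52.STD.Non5

set_option autoImplicit false

/-!
# The estimate through the critical strip, mixing and the mean ergodic theorem
-/

namespace Pool.Agent.H52.STD

open Real MeasureTheory Function Filter Topology

theorem kap_pos {α β : ℝ} (hα : 1 ≤ |α|) (hβ : 1 ≤ |β|) : 0 < kap α β := by
  unfold kap
  have : 0 ≤ log (|α| * |β|) := log_nonneg (one_le_mul_of_one_le_of_one_le hα hβ)
  positivity

/-- the rate of the composition -/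
noncomputable def rate (a : ℕ → ℝ) (n : ℕ) : ℝ :=
  √(∑ j ∈ Finset.range (n - 1), kap (a j) (a (j + 1))) + 1 / √|a (n - 1)| + 1 / √|a (n - 2)|

theorem rate_nonneg (a : ℕ → ℝ) (n : ℕ) : 0 ≤ rate a n := by
  unfold rate
  positivity

theorem sq_est : ∃ K : ℝ, 0 ≤ K ∧ ∀ (a : ℕ → ℝ) (n : ℕ), 2 ≤ n → (∀ j < n, 1 ≤ |a j|) →
    ∀ f h : UnitAddCircle → ℝ, Sm1 f → Sm1 h → ∀ M N : ℝ, 0 ≤ M → 0 ≤ N →
    (∀ x, |deriv (fun t : ℝ => h (t : UnitAddCircle)) x| ≤ M) →
    ∀ g : T2 → ℝ, Smo g → (∀ p, |g p| ≤ 1) → (∀ y t, |lw g y t| ≤ N) →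
    |(∫ p : T2, f (cs a n p).1 * h (cs a n p).2 * g p) -
      (∫ x, f x) * (∫ x, h x) * ∫ p, g p| ≤ K * (1 + M + N * (1 / 2) ^ n) * rate a n := by
  obtain ⟨C, hC0, hC⟩ := rho'_bdd
  set K₀ := 1440 * C + 400 with hK₀
  have hK₀0 : 0 ≤ K₀ := by rw [hK₀]; positivity
  refine ⟨8 * K₀ + 200, by positivity, ?_⟩
  intro a n hn ha f h hf hh M N hM hN hhM g hg hg1 hgN
  obtain ⟨k, rfl⟩ : ∃ k, n = k + 2 := ⟨n - 2, by omega⟩
  unfold rate
  have en1 : k + 2 - 1 = k + 1 := by omega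
  have en2 : k + 2 - 2 = k := by omega
  rw [en1, en2]
  set Sg := ∑ j ∈ Finset.range (k + 1), kap (a j) (a (j + 1)) with hSg
  have hkap : ∀ j ∈ Finset.range (k + 1), 0 ≤ kap (a j) (a (j + 1)) := by
    intro j hj
    have := Finset.mem_range.1 hj
    exact kap_nonneg (ha j (by omega)) (ha (j + 1) (by omega))
  have hSg0 : 0 < Sg := by
    have h0 : kap (a 0) (a (0 + 1)) ≤ Sg :=
      Finset.single_le_sum hkap (Finset.mem_range.2 (by omega))
    have h1 := kap_pos (ha 0 (by omega)) (ha (0 + 1) (by omega))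
    linarith
  have hSk : ∑ j ∈ Finset.range k, kap (a j) (a (j + 1)) ≤ Sg := by
    rw [hSg, Finset.sum_range_succ]
    have := kap_nonneg (ha k (by omega)) (ha (k + 1) (by omega))
    linarith
  have hα := ha (k + 1) (by omega)
  have hβ := ha k (by omega)
  set S := √Sg with hS
  have hS0 : 0 < S := Real.sqrt_pos.2 hSg0
  have hSS : S * S = Sg := Real.mul_self_sqrt hSg0.le
  set l := √|a (k + 1)| with hl
  set l' := √|a k| with hl'
  have hl0 : 0 < l := Real.sqrt_pos.2 (by linarith)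
  have hl'0 : 0 < l' := Real.sqrt_pos.2 (by linarith)
  have hll : l * l = |a (k + 1)| := Real.mul_self_sqrt (by linarith)
  have hll' : l' * l' = |a k| := Real.mul_self_sqrt (by linarith)
  set A := 1 / l with hA
  set A' := 1 / l' with hA'
  have hA0 : 0 < A := by positivity
  have hA'0 : 0 < A' := by positivity
  -- the trivial bound
  have htriv : |(∫ p : T2, f (cs a (k + 2) p).1 * h (cs a (k + 2) p).2 * g p) -
      (∫ x, f x) * (∫ x, h x) * ∫ p, g p| ≤ 2 := by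
    have b1 : ∀ {F : T2 → ℝ}, (∀ p, |F p| ≤ 1) → |∫ p, F p| ≤ 1 := by
      intro F hF
      have q := norm_integral_le_of_norm_le_const (μ := (volume : Measure T2)) (f := F) (C := 1)
        (Filter.Eventually.of_forall fun p => by rw [norm_eq_abs]; exact hF p)
      rw [norm_eq_abs] at q
      simpa using q
    have b2 : ∀ {F : UnitAddCircle → ℝ}, (∀ p, |F p| ≤ 1) → |∫ p, F p| ≤ 1 := by
      intro F hF
      have q := norm_integral_le_of_norm_le_const (μ := (volume : Measure UnitAddCircle))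
        (f := F) (C := 1)
        (Filter.Eventually.of_forall fun p => by rw [norm_eq_abs]; exact hF p)
      rw [norm_eq_abs] at q
      simpa using q
    have huvw : ∀ x y z : ℝ, |x| ≤ 1 → |y| ≤ 1 → |z| ≤ 1 → |x * y * z| ≤ 1 := by
      intro x y z hx hy hz
      rw [abs_mul, abs_mul]
      exact mul_le_one₀ (mul_le_one₀ hx (abs_nonneg _) hy) (abs_nonneg _) hz
    have q1 := b1 (F := fun p => f (cs a (k + 2) p).1 * h (cs a (k + 2) p).2 * g p)
      fun p => huvw _ _ _ (hf.bound _) (hh.bound _) (hg1 _)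
    have q2 := huvw _ _ _ (b2 hf.bound) (b2 hh.bound) (b1 hg1)
    have q3 := abs_sub (∫ p : T2, f (cs a (k + 2) p).1 * h (cs a (k + 2) p).2 * g p)
      ((∫ x, f x) * (∫ x, h x) * ∫ p, g p)
    linarith
  have hfac : 1 ≤ 1 + M + N * (1 / 2) ^ (k + 2) := by
    have : 0 ≤ N * (1 / 2) ^ (k + 2) := by positivity
    linarith
  have hbigger : ∀ z : ℝ, 0 ≤ z → z ≤ S + A + A' → 2 ≤ 200 * z →
      |(∫ p : T2, f (cs a (k + 2) p).1 * h (cs a (k + 2) p).2 * g p) -
      (∫ x, f x) * (∫ x, h x) * ∫ p, g p| ≤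
      (8 * K₀ + 200) * (1 + M + N * (1 / 2) ^ (k + 2)) * (S + A + A') := by
    intro z hz0 hz1 hz2
    have r1 : (8 * K₀ + 200) * 1 ≤ (8 * K₀ + 200) * (1 + M + N * (1 / 2) ^ (k + 2)) :=
      mul_le_mul_of_nonneg_left hfac (by positivity)
    have r2 : (8 * K₀ + 200) * 1 * z ≤
        (8 * K₀ + 200) * (1 + M + N * (1 / 2) ^ (k + 2)) * (S + A + A') :=
      mul_le_mul r1 hz1 hz0 (by positivity)
    have r3 : 0 ≤ K₀ * z := mul_nonneg hK₀0 hz0
    linarith
  rcases le_or_gt (1 / 16) S with h16 | h16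
  · exact hbigger S hS0.le (by linarith) (by linarith)
  rcases lt_or_ge l 4 with h4 | h4
  · have q1 : 1 / 4 ≤ A := by
      rw [hA]
      exact one_div_le_one_div_of_le hl0 h4.le
    exact hbigger A hA0.le (by linarith) (by linarith)
  rcases lt_or_ge l' 4 with h4' | h4'
  · have q1 : 1 / 4 ≤ A' := by
      rw [hA']
      exact one_div_le_one_div_of_le hl'0 h4'.le
    exact hbigger A' hA'0.le (by linarith) (by linarith)
  have hlm : 16 ≤ 1 / S := by
    rw [le_div_iff₀ hS0]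
    linarith
  have key := torus_sq hC0 hC hlm h4 h4' k (fun j hj => ha j (by omega)) hf hh hM hN hhM hg hg1
    hgN
  refine key.trans ?_
  unfold err6
  rw [← hK₀, ← hSg]
  have e1 : 1 / (1 / S) = S := by rw [one_div_one_div]
  have e2 : 2 / (1 / S) = 2 * S := by rw [div_div_eq_mul_div, div_one]
  have e3 : l / |a (k + 1)| = A := by
    rw [hA, ← hll]
    field_simp
  have e3' : l' / |a k| = A' := by
    rw [hA', ← hll']
    field_simp
  have e4 : 18 * (1 / S) * Sg = 18 * S := by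
    rw [← hSS]
    field_simp
  have e5 : 3 * l / |a (k + 1)| = 3 * A := by rw [mul_div_assoc, e3]
  have e5' : 3 * l' / |a k| = 3 * A' := by rw [mul_div_assoc, e3']
  have e6 : 18 * (1 / S) * (∑ j ∈ Finset.range k, kap (a j) (a (j + 1))) ≤ 18 * S := by
    rw [← e4]
    exact mul_le_mul_of_nonneg_left hSk (by positivity)
  have e7 : 2 * M / l = 2 * M * A := by rw [hA]; ring
  rw [e1, e2, e4, e5, e5', e7, ← hA, ← hA']
  have hN2 : 0 ≤ N * (1 / 2) ^ (k + 2) := by positivity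
  have e8 : 16 * N * (1 / 2) ^ (k + 1) * (A' + S) = 32 * (N * (1 / 2) ^ (k + 2)) * (A' + S) := by
    ring
  have e9 : 16 * N * (1 / 2) ^ (k + 2) * (A + S) = 16 * (N * (1 / 2) ^ (k + 2)) * (A + S) := by
    ring
  rw [e8, e9]
  set Nn := N * (1 / 2) ^ (k + 2) with hNn
  have p1 := mul_nonneg hK₀0 hS0.le
  have p2 := mul_nonneg hK₀0 hA0.le
  have p3 := mul_nonneg hK₀0 hA'0.le
  have p4 := mul_nonneg hM hS0.le
  have p5 := mul_nonneg hM hA0.le
  have p6 := mul_nonneg hM hA'0.le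
  have p7 := mul_nonneg hN2 hS0.le
  have p8 := mul_nonneg hN2 hA0.le
  have p9 := mul_nonneg hN2 hA'0.le
  have p10 : 0 ≤ K₀ * (M + Nn) * (S + A + A') := by positivity
  nlinarith

/-! ### abstract versions of the consequences -/

/-- decorrelation after the time `m₀`, up to `ε` -/
def LA (a : ℕ → ℝ) (f h : UnitAddCircle → ℝ) : Prop :=
  ∀ ε : ℝ, 0 < ε → ∃ (d : ℕ → ℝ) (m₀ : ℕ), Tendsto d atTop (𝓝 0) ∧ ∀ m, m₀ ≤ m →
    ∀ g : T2 → ℝ, Smo g → (∀ p, |g p| ≤ 1) → ∀ N : ℝ, 0 ≤ N → (∀ y t, |lw g y t| ≤ N) →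
    ∀ n, 2 ≤ n → |(∫ p : T2, f (cs (sh a m) n p).1 * h (cs (sh a m) n p).2 * g p) -
        (∫ x, f x) * (∫ x, h x) * ∫ p, g p| ≤ ε + N * d n

theorem d_small {d : ℕ → ℝ} (hd : Tendsto d atTop (𝓝 0)) {N ε : ℝ} (hN : 0 ≤ N) (hε : 0 < ε) :
    ∃ n₀ : ℕ, 2 ≤ n₀ ∧ ∀ n, n₀ ≤ n → N * d n ≤ ε := by
  have h2 : Tendsto (fun n : ℕ => N * d n) atTop (𝓝 (N * 0)) := hd.const_mul _
  rw [mul_zero] at h2
  obtain ⟨n₁, hn₁⟩ := eventually_atTop.1 ((tendsto_order.1 h2).2 ε hε)
  refine ⟨n₁ + 2, by omega, fun n hn => (hn₁ n (by omega)).le⟩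

/-- decorrelation, uniformly in the starting time -/
def LB (a : ℕ → ℝ) (f h : UnitAddCircle → ℝ) : Prop :=
  ∀ g : T2 → ℝ, Smo g → (∀ p, |g p| ≤ 1) → ∀ ε : ℝ, 0 < ε → ∃ N₀ : ℕ, ∀ m n : ℕ, N₀ ≤ n →
      |(∫ p : T2, f (cs (sh a m) n p).1 * h (cs (sh a m) n p).2 * g p) -
        (∫ x, f x) * (∫ x, h x) * ∫ p, g p| ≤ ε

theorem LA.LB {a : ℕ → ℝ} {f h : UnitAddCircle → ℝ} (hA : LA a f h) (hf : Sm1 f) (hh : Sm1 h) :
    LB a f h := by
  intro g hg hg1 ε hε
  obtain ⟨d, m₀, hd, hA⟩ := hA (ε / 2) (by positivity)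
  obtain ⟨N, hN0, hN⟩ := lw_bdd hg
  obtain ⟨n₀, hn₀2, hn₀⟩ := d_small hd hN0 (ε := ε / 2) (by positivity)
  have hB : ∀ m, ∃ N₁ : ℕ, m < m₀ → ∀ n, N₁ ≤ n →
      |(∫ p : T2, f (cs (sh a m) n p).1 * h (cs (sh a m) n p).2 * g p) -
        (∫ x, f x) * (∫ x, h x) * ∫ p, g p| ≤ ε := by
    intro m
    by_cases hm : m < m₀
    · obtain ⟨e, he⟩ : ∃ e, m₀ = m + e := ⟨m₀ - m, by omega⟩
      obtain ⟨g', hg', hg'1, hg'2⟩ := transport (sh a m) hg hg1 e
      obtain ⟨N', hN'0, hN'⟩ := lw_bdd hg'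
      obtain ⟨n₁, hn₁2, hn₁⟩ := d_small hd hN'0 (ε := ε / 2) (by positivity)
      refine ⟨e + n₁, fun _ n hn => ?_⟩
      obtain ⟨k, rfl⟩ : ∃ k, n = e + k := ⟨n - e, by omega⟩
      have hk : n₁ ≤ k := by omega
      have e1 : ∀ p, cs (sh a m) (e + k) p = cs (sh a m₀) k (cs (sh a m) e p) := by
        intro p
        rw [cs_add]
        congr 2
        funext j
        show a (m + (e + j)) = a (m₀ + j)
        rw [he, add_assoc]
      have e2 : ∫ p : T2, f (cs (sh a m) (e + k) p).1 * h (cs (sh a m) (e + k) p).2 * g p =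
          ∫ p : T2, f (cs (sh a m₀) k p).1 * h (cs (sh a m₀) k p).2 * g' p := by
        rw [← int_cs (sh a m) e (F := fun p => f (cs (sh a m₀) k p).1 *
          h (cs (sh a m₀) k p).2 * g' p)]
        · congr 1
          funext p
          rw [e1, hg'2]
        · have hcs := cs_cont (sh a m₀) k
          exact (((hf.cont.comp (continuous_fst.comp hcs)).mul
            (hh.cont.comp (continuous_snd.comp hcs))).mul hg'.cont).aestronglyMeasurable
      have e3 : ∫ p, g p = ∫ p, g' p := by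
        rw [← int_cs (sh a m) e (F := g') hg'.cont.aestronglyMeasurable]
        congr 1
        funext p
        rw [hg'2]
      rw [e2, e3]
      have h1 := hA m₀ le_rfl g' hg' hg'1 N' hN'0 hN' k (by omega)
      have h2 := hn₁ k hk
      linarith
    · exact ⟨0, fun h => absurd h hm⟩
  choose N₁ hN₁ using hB
  refine ⟨max n₀ (∑ m ∈ Finset.range m₀, N₁ m), fun m n hn => ?_⟩
  have hn1 : n₀ ≤ n := (le_max_left _ _).trans hn
  have hn2 : ∑ m ∈ Finset.range m₀, N₁ m ≤ n := (le_max_right _ _).trans hn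
  rcases Nat.lt_or_ge m m₀ with hm | hm
  · exact hN₁ m hm n ((Finset.single_le_sum (f := N₁) (fun i _ => Nat.zero_le _)
      (Finset.mem_range.2 hm)).trans hn2)
  · have h1 := hA m hm g hg hg1 N hN0 hN n (by omega)
    have h2 := hn₀ n hn1
    linarith

/-- mixing of square integrable functions -/
theorem mixing' {a : ℕ → ℝ} (hB : ∀ f h, Sm1 f → Sm1 h → LB a f h) {u v : T2 → ℝ}
    (hu : MemLp u 2 volume) (hv : MemLp v 2 volume) {ε : ℝ} (hε : 0 < ε) :
    ∃ N : ℕ, ∀ m n : ℕ, N ≤ n →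
      |(∫ p : T2, u (cs (sh a m) n p) * v p) - (∫ p, u p) * ∫ p, v p| ≤ ε := by
  have key := corr_all (ι := ℕ × ℕ) (τ := fun i => cs (sh a i.1) i.2)
    (fun i => cs_mp (sh a i.1) i.2) (𝓕 := comap Prod.snd atTop) (by
      rintro f ⟨f1, f2, hf1, hf2, ef⟩ g ⟨g1, g2, hg1, hg2, eg⟩
      rw [Metric.tendsto_nhds]
      intro δ hδ
      have hgs : (g : T2 → ℝ) = fun p : T2 => g1 p.1 * g2 p.2 := funext eg
      have hb : ∀ p : T2, |g1 p.1 * g2 p.2| ≤ 1 := by
        intro p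
        rw [abs_mul]
        exact mul_le_one₀ (hg1.bound _) (abs_nonneg _) (hg2.bound _)
      obtain ⟨N₀, hN₀⟩ := hB f1 f2 hf1 hf2 _ (smo_prod hg1 hg2) hb (δ / 2) (by positivity)
      rw [eventually_comap, eventually_atTop]
      refine ⟨N₀, fun n hn i hi => ?_⟩
      obtain ⟨m, n'⟩ := i
      simp only at hi
      subst hi
      have h1 := hN₀ m n' hn
      rw [Real.dist_eq]
      have e1 : (∫ p : T2, f p) = (∫ x, f1 x) * ∫ x, f2 x := by
        simp_rw [ef]
        exact integral_prod_mul f1 f2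
      rw [e1]
      simp_rw [ef, hgs]
      linarith) hu hv
  rw [Metric.tendsto_nhds] at key
  have h1 := key ε hε
  rw [eventually_comap, eventually_atTop] at h1
  obtain ⟨N, hN⟩ := h1
  refine ⟨N, fun m n hn => ?_⟩
  have h2 := hN n hn (m, n) rfl
  rw [Real.dist_eq] at h2
  exact h2.le

/-- the mean ergodic theorem from mixing -/
theorem lln' {a : ℕ → ℝ} {u : T2 → ℝ} (hu : MemLp u 2 volume)
    (hmix : ∀ ε : ℝ, 0 < ε → ∃ N : ℕ, ∀ m n : ℕ, N ≤ n →
      |(∫ p : T2, u (cs (sh a m) n p) * u p) - (∫ p, u p) * ∫ p, u p| ≤ ε) :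
    Tendsto (fun n : ℕ => ∫ p : T2, ((1 / (n : ℝ)) * ∑ k ∈ Finset.range n, u (cs a k p) -
      ∫ q, u q) ^ 2) atTop (𝓝 0) := by
  obtain ⟨D, hD0, hD⟩ := GG_bound (a := a) hu
  have hsq : ∀ n : ℕ, 1 ≤ n → ∫ p : T2, ((1 / (n : ℝ)) * ∑ k ∈ Finset.range n, u (cs a k p) -
      ∫ q, u q) ^ 2 = (1 / (n : ℝ)) ^ 2 * ∑ i ∈ Finset.range n, ∑ j ∈ Finset.range n,
        ∫ p, GG a u i p * GG a u j p := by
    intro n hn
    have hn0 : (n : ℝ) ≠ 0 := by
      have : (0:ℝ) < n := by exact_mod_cast hn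
      exact this.ne'
    have e1 : ∀ p, ((1 / (n : ℝ)) * ∑ k ∈ Finset.range n, u (cs a k p) - ∫ q, u q) ^ 2 =
        (1 / (n : ℝ)) ^ 2 * ∑ i ∈ Finset.range n, ∑ j ∈ Finset.range n,
          GG a u i p * GG a u j p := by
      intro p
      rw [← Finset.sum_mul_sum, ← sq, ← mul_pow]
      congr 1
      unfold GG
      rw [Finset.sum_sub_distrib, Finset.sum_const, Finset.card_range, nsmul_eq_mul]
      field_simp
    simp_rw [e1]
    have hint : ∀ i j, Integrable (fun p => GG a u i p * GG a u j p) := fun i j =>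
      (GG_memLp hu i).integrable_mul (GG_memLp hu j)
    rw [integral_const_mul, integral_finsetSum _ (fun i _ => integrable_finsetSum _
      fun j _ => hint i j)]
    congr 1
    apply Finset.sum_congr rfl
    intro i _
    rw [integral_finsetSum _ (fun j _ => hint i j)]
  rw [Metric.tendsto_nhds]
  intro ε hε
  obtain ⟨N, hN⟩ := hmix (ε / 2) (by positivity)
  have hfar : ∀ i j, ¬ (i < j + N ∧ j < i + N) → |∫ p, GG a u i p * GG a u j p| ≤ ε / 2 := by
    intro i j hij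
    rcases le_total i j with h | h
    · obtain ⟨d, rfl⟩ := Nat.exists_eq_add_of_le h
      have hd : N ≤ d := by
        by_contra hcon
        apply hij
        omega
      have e : ∫ p, GG a u i p * GG a u (i + d) p = ∫ p, GG a u (i + d) p * GG a u i p := by
        congr 1
        funext p
        ring
      rw [e, GG_corr hu]
      exact hN i d hd
    · obtain ⟨d, rfl⟩ := Nat.exists_eq_add_of_le h
      have hd : N ≤ d := by
        by_contra hcon
        apply hij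
        omega
      rw [GG_corr hu]
      exact hN j d hd
  have hlim : Tendsto (fun n : ℕ => 2 * N * D / (n : ℝ)) atTop (𝓝 0) :=
    tendsto_const_div_atTop_nhds_zero_nat _
  have h3 := (tendsto_order.1 hlim).2 (ε / 2) (by positivity)
  filter_upwards [h3, eventually_ge_atTop 1] with n hn hn1
  have hn0 : (0:ℝ) < n := by exact_mod_cast hn1
  rw [dist_zero_right, norm_eq_abs, abs_of_nonneg (integral_nonneg fun p => sq_nonneg _),
    hsq n hn1]
  have h4 : ∀ i ∈ Finset.range n, ∑ j ∈ Finset.range n, ∫ p, GG a u i p * GG a u j p ≤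
      n * (ε / 2) + 2 * N * D := by
    intro i _
    have h5 : ∀ j ∈ Finset.range n, ∫ p, GG a u i p * GG a u j p ≤
        ε / 2 + (if i < j + N ∧ j < i + N then D else 0) := by
      intro j _
      split_ifs with hc
      · have := (le_abs_self _).trans (hD i j)
        linarith
      · have := (le_abs_self _).trans (hfar i j hc)
        linarith
    refine (Finset.sum_le_sum h5).trans ?_
    rw [Finset.sum_add_distrib, Finset.sum_const, Finset.card_range, nsmul_eq_mul,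
      ← Finset.sum_filter, Finset.sum_const, nsmul_eq_mul]
    have h6 : (((Finset.range n).filter fun j => i < j + N ∧ j < i + N).card : ℝ) ≤ 2 * N := by
      exact_mod_cast near_card n N i
    have h7 := mul_le_mul_of_nonneg_right h6 hD0
    linarith
  have h8 := Finset.sum_le_sum h4
  rw [Finset.sum_const, Finset.card_range, nsmul_eq_mul] at h8
  calc (1 / (n : ℝ)) ^ 2 * ∑ i ∈ Finset.range n, ∑ j ∈ Finset.range n,
        ∫ p, GG a u i p * GG a u j p
      ≤ (1 / (n : ℝ)) ^ 2 * (n * (n * (ε / 2) + 2 * N * D)) :=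
        mul_le_mul_of_nonneg_left h8 (by positivity)
    _ = ε / 2 + 2 * N * D / n := by field_simp
    _ < ε := by linarith

/-! ### the standing assumption -/

/-- the standing assumption -/
structure Inc2 (a : ℕ → ℝ) : Prop where
  s : Summable fun k => kap (a k) (a (k + 1))
  inf : Tendsto (fun k => |a k|) atTop atTop

theorem Inc2.LA {a : ℕ → ℝ} (ha : Inc2 a) {f h : UnitAddCircle → ℝ} (hf : Sm1 f) (hh : Sm1 h) :
    LA a f h := by
  intro ε hε
  obtain ⟨M, hM0, hM⟩ := deriv_bdd hh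
  obtain ⟨K, hK0, hK⟩ := sq_est
  -- a small number
  set δ := ε / (3 * (K + 1) * (1 + M)) with hδ
  have hδ0 : 0 < δ := by positivity
  have h1 : ∀ᶠ m in atTop, ∀ n, ∑ k ∈ Finset.range n, kap (sh a m k) (sh a m (k + 1)) ≤ δ ^ 2 := by
    have h0 := tendsto_sum_nat_add (fun k => kap (a k) (a (k + 1)))
    have h2 := (tendsto_order.1 h0).2 (δ ^ 2) (by positivity)
    have h3 := ha.inf.eventually_ge_atTop 1
    obtain ⟨m₁, hm₁⟩ := eventually_atTop.1 h3
    filter_upwards [h2, eventually_ge_atTop m₁] with m hm hmm n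
    have hs : Summable fun k => kap (a (k + m)) (a (k + m + 1)) :=
      (summable_nat_add_iff m).2 ha.s
    have h4 := hs.sum_le_tsum (Finset.range n)
      (fun i _ => kap_nonneg (hm₁ _ (by omega)) (hm₁ _ (by omega)))
    have e : ∑ k ∈ Finset.range n, kap (sh a m k) (sh a m (k + 1)) =
        ∑ k ∈ Finset.range n, kap (a (k + m)) (a (k + m + 1)) := by
      apply Finset.sum_congr rfl
      intro k _
      unfold sh
      congr 2
      · ring
      · ring
    rw [e]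
    exact h4.trans hm.le
  have h2 : ∀ᶠ m in atTop, ∀ k, max 1 (1 / δ ^ 2) ≤ |sh a m k| := by
    obtain ⟨m₁, hm₁⟩ := eventually_atTop.1 (ha.inf.eventually_ge_atTop (max 1 (1 / δ ^ 2)))
    filter_upwards [eventually_ge_atTop m₁] with m hm k
    exact hm₁ (m + k) (by omega)
  obtain ⟨m₀, hm₀⟩ := eventually_atTop.1 (h1.and h2)
  have hd : Tendsto (fun n : ℕ => K * (3 * δ) * (1 / 2 : ℝ) ^ n) atTop
      (𝓝 (K * (3 * δ) * 0)) :=
    (tendsto_pow_atTop_nhds_zero_of_lt_one (by norm_num) (by norm_num)).const_mul _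
  rw [mul_zero] at hd
  refine ⟨fun n => K * (3 * δ) * (1 / 2 : ℝ) ^ n, m₀, hd, ?_⟩
  intro m hm g hg hg1 N hN0 hN n hn
  obtain ⟨q1, q2⟩ := hm₀ m hm
  have key := hK (sh a m) n hn (fun j _ => (le_max_left _ _).trans (q2 j)) f h hf hh M N hM0 hN0
    hM g hg hg1 hN
  refine key.trans ?_
  have hr : rate (sh a m) n ≤ 3 * δ := by
    unfold rate
    have r1 : √(∑ j ∈ Finset.range (n - 1), kap (sh a m j) (sh a m (j + 1))) ≤ δ := by
      calc _ ≤ √(δ ^ 2) := Real.sqrt_le_sqrt (q1 _)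
        _ = δ := Real.sqrt_sq hδ0.le
    have r2 : ∀ k, 1 / √|sh a m k| ≤ δ := by
      intro k
      have s1 : 1 / δ ^ 2 ≤ |sh a m k| := (le_max_right _ _).trans (q2 k)
      have s2 : 1 / δ ≤ √|sh a m k| := by
        calc 1 / δ = √((1 / δ) ^ 2) := (Real.sqrt_sq (by positivity)).symm
          _ ≤ _ := Real.sqrt_le_sqrt (by rw [div_pow, one_pow]; exact s1)
      have s3 : 0 < √|sh a m k| := lt_of_lt_of_le (by positivity) s2
      rw [div_le_iff₀ s3]
      rw [div_le_iff₀ hδ0] at s2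
      linarith
    have := r2 (n - 1)
    have := r2 (n - 2)
    linarith
  have hfac : 0 ≤ K * (1 + M + N * (1 / 2) ^ n) := by positivity
  have h5 := mul_le_mul_of_nonneg_left hr hfac
  refine h5.trans ?_
  have e1 : K * (1 + M + N * (1 / 2) ^ n) * (3 * δ) =
      K * (1 + M) * (3 * δ) + N * (K * (3 * δ) * (1 / 2) ^ n) := by ring
  rw [e1]
  have e2 : K * (1 + M) * (3 * δ) ≤ ε := by
    have e3 : (K + 1) * (1 + M) * (3 * δ) = ε := by
      rw [hδ]
      field_simp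
    have e4 : 0 ≤ (1 + M) * (3 * δ) := by positivity
    linarith
  linarith

theorem mixing2 {a : ℕ → ℝ} (ha : Inc2 a) {u v : T2 → ℝ}
    (hu : MemLp u 2 volume) (hv : MemLp v 2 volume) {ε : ℝ} (hε : 0 < ε) :
    ∃ N : ℕ, ∀ m n : ℕ, N ≤ n →
      |(∫ p : T2, u (cs (sh a m) n p) * v p) - (∫ p, u p) * ∫ p, v p| ≤ ε :=
  mixing' (fun _ _ hf hh => (ha.LA hf hh).LB hf hh) hu hv hε

theorem lln2 {a : ℕ → ℝ} (ha : Inc2 a) {u : T2 → ℝ} (hu : MemLp u 2 volume) :
    Tendsto (fun n : ℕ => ∫ p : T2, ((1 / (n : ℝ)) * ∑ k ∈ Finset.range n, u (cs a k p) -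
      ∫ q, u q) ^ 2) atTop (𝓝 0) :=
  lln' hu fun _ hε => mixing2 ha hu hu hε

end Pool.Agent.H52.STD
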