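import Mathlib
import Pool.Agent.H52.STD.Sq7

set_option autoImplicit false

/-!
# The exponent at almost every point
-/

namespace Pool.Agent.H52.STD

open Real MeasureTheory Function Filter Topology

/-- a series of nonnegative continuous functions with summable integrals -/
theorem ae_sum {F : ℕ → T2 → ℝ} (hc : ∀ k, Continuous (F k)) (h0 : ∀ k p, 0 ≤ F k p)
    {b : ℕ → ℝ} (hb : ∀ k, ∫ p, F k p ≤ b k) (hs : Summable b) :
    ∀ᵐ p : T2, Summable fun k => F k p := by
  have hi : ∀ k, Integrable (F k) := fun k => Pool.Agent.TH705.SM.integrable_cont (hc k)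
  have hm : ∀ k, Measurable fun p => ENNReal.ofReal (F k p) :=
    fun k => (hc k).measurable.ennreal_ofReal
  have h1 : ∫⁻ p, ∑' k, ENNReal.ofReal (F k p) = ∑' k, ENNReal.ofReal (∫ p, F k p) := by
    rw [lintegral_tsum fun k => (hm k).aemeasurable]
    congr 1
    funext k
    rw [ofReal_integral_eq_lintegral_ofReal (hi k) (Filter.Eventually.of_forall (h0 k))]
  have h2 : ∑' k, ENNReal.ofReal (∫ p, F k p) ≠ ⊤ :=
    ne_top_of_le_ne_top hs.tsum_ofReal_ne_top
      (ENNReal.tsum_le_tsum fun k => ENNReal.ofReal_le_ofReal (hb k))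
  have h3 := ae_lt_top (μ := (volume : Measure T2)) (Measurable.tsum hm)
    (by rw [h1]; exact h2)
  filter_upwards [h3] with p hp
  have h4 : Summable fun k => (ENNReal.ofReal (F k p)).toReal := ENNReal.summable_toReal hp.ne
  exact h4.congr fun k => ENNReal.toReal_ofReal (h0 k p)

/-! ### the size of the sum of the logarithms -/

/-- the sum of the logarithms -/
noncomputable def SL (a : ℕ → ℝ) (n : ℕ) : ℝ := ∑ k ∈ Finset.range n, log |a k|

theorem SL_add (a : ℕ → ℝ) (m n : ℕ) :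
    SL a (m + n) = SL a m + ∑ k ∈ Finset.range n, log |a (m + k)| := by
  unfold SL
  rw [Finset.sum_range_add]

theorem log_ge_sub {z t : ℝ} (hz : 0 < z) (ht : 0 < t) : log t + 1 - t / z ≤ log z := by
  have h1 := log_le_sub_one_of_pos (div_pos ht hz)
  rw [log_div ht.ne' hz.ne'] at h1
  linarith

theorem SL_lower {a : ℕ → ℝ} (ha : Inc2 a) : ∀ᶠ n : ℕ in atTop, (n : ℝ) * log n ≤ 16 * SL a n := by
  obtain ⟨m, hm⟩ := eventually_atTop.1 (ha.inf.eventually_ge_atTop 1)
  have hs : Summable fun k => kap (a (k + m)) (a (k + m + 1)) := (summable_nat_add_iff m).2 ha.s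
  set B := ∑' k, kap (a (k + m)) (a (k + m + 1)) with hB
  have hnn : ∀ k, 0 ≤ kap (a (k + m)) (a (k + m + 1)) := fun k =>
    kap_nonneg (hm _ (by omega)) (hm _ (by omega))
  have hlog : ∀ k, 0 ≤ log |a (m + k)| := fun k => log_nonneg (hm _ (by omega))
  -- the main inequality
  have key : ∀ N : ℕ, 1 ≤ N → (N : ℝ) * log N - N * B ≤
      2 * ∑ k ∈ Finset.range (N + 1), log |a (m + k)| := by
    intro N hN
    have hN0 : (0:ℝ) < N := by exact_mod_cast hN
    have h1 : ∀ k ∈ Finset.range N, log N + 1 - N * kap (a (k + m)) (a (k + m + 1)) ≤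
        log |a (m + k)| + log |a (m + (k + 1))| := by
      intro k _
      have p1 : 1 ≤ |a (m + k)| := hm _ (by omega)
      have p2 : 1 ≤ |a (m + (k + 1))| := hm _ (by omega)
      have p3 : 0 < |a (m + k)| * |a (m + (k + 1))| := by positivity
      have h2 := log_ge_sub p3 hN0
      rw [log_mul (by positivity) (by positivity)] at h2
      have e1 : a (k + m) = a (m + k) := by rw [add_comm]
      have e2 : a (k + m + 1) = a (m + (k + 1)) := by
        congr 1
        ring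
      have h3 : N / (|a (m + k)| * |a (m + (k + 1))|) ≤
          N * kap (a (k + m)) (a (k + m + 1)) := by
        rw [e1, e2]
        unfold kap
        rw [div_eq_mul_one_div]
        apply mul_le_mul_of_nonneg_left _ hN0.le
        apply div_le_div_of_nonneg_right _ p3.le
        have := log_nonneg (one_le_mul_of_one_le_of_one_le p1 p2)
        linarith
      linarith
    have h4 := Finset.sum_le_sum h1
    rw [Finset.sum_sub_distrib, Finset.sum_const, Finset.card_range, nsmul_eq_mul,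
      ← Finset.mul_sum, Finset.sum_add_distrib] at h4
    have h5 : ∑ k ∈ Finset.range N, kap (a (k + m)) (a (k + m + 1)) ≤ B :=
      hs.sum_le_tsum _ fun k _ => hnn k
    have h6 : ∑ k ∈ Finset.range N, log |a (m + k)| ≤
        ∑ k ∈ Finset.range (N + 1), log |a (m + k)| := by
      rw [Finset.sum_range_succ]
      linarith [hlog N]
    have h7 : ∑ k ∈ Finset.range N, log |a (m + (k + 1))| ≤
        ∑ k ∈ Finset.range (N + 1), log |a (m + k)| := by
      rw [Finset.sum_range_succ']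
      linarith [hlog 0]
    have h8 := mul_le_mul_of_nonneg_left h5 hN0.le
    nlinarith
  have hB0 : 0 ≤ B := tsum_nonneg hnn
  -- the asymptotics
  have hlogt : Tendsto (fun n : ℕ => log (n : ℝ)) atTop atTop :=
    tendsto_log_atTop.comp tendsto_natCast_atTop_atTop
  filter_upwards [hlogt.eventually_ge_atTop (16 * (B + 1)),
    eventually_ge_atTop (4 * (m + 1)), eventually_ge_atTop 16,
    (tendsto_natCast_atTop_atTop (R := ℝ)).eventually_ge_atTop (16 * |SL a m|)]
    with n h1 h2 h3 h4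
  obtain ⟨N, rfl⟩ : ∃ N, n = m + (N + 1) := ⟨n - m - 1, by omega⟩
  have hN1 : 1 ≤ N := by omega
  have h5 := key N hN1
  rw [SL_add]
  set T := ∑ k ∈ Finset.range (N + 1), log |a (m + k)| with hT
  set n' : ℝ := ((m + (N + 1) : ℕ) : ℝ) with hn'
  have hN0 : (0:ℝ) < N := by exact_mod_cast hN1
  have hn16 : (16:ℝ) ≤ n' := by rw [hn']; exact_mod_cast h3
  have h6 : n' ≤ 2 * N := by
    rw [hn']
    have : m + (N + 1) ≤ 2 * N := by omega
    exact_mod_cast this
  have h6' : (N : ℝ) ≤ n' := by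
    rw [hn']
    have : N ≤ m + (N + 1) := by omega
    exact_mod_cast this
  have h7 : log n' ≤ 2 * log N := by
    have e : 2 * log (N : ℝ) = log ((N : ℝ) ^ 2) := by
      rw [log_pow]
      norm_num
    rw [e]
    apply log_le_log (by linarith)
    nlinarith
  have h8 : 0 ≤ log n' := log_nonneg (by linarith)
  have h9 : n' * log n' ≤ 4 * (N * log N) := by
    have r1 : n' * log n' ≤ (2 * N) * (2 * log N) := mul_le_mul h6 h7 h8 (by positivity)
    linarith
  have h10 : N * B ≤ n' * B := mul_le_mul_of_nonneg_right h6' hB0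
  have h11 : n' * (16 * (B + 1)) ≤ n' * log n' := mul_le_mul_of_nonneg_left h1 (by linarith)
  have h12 := neg_abs_le (SL a m)
  nlinarith

/-! ### growth -/

theorem growP {a : ℕ → ℝ} {z : ℝ × ℝ} {m : ℕ}
    (h : ∀ k, m ≤ k → 16 ≤ |L (a k) (pc a k z).1| * |L (a (k + 1)) (pc a (k + 1) z).1|)
    {v : ℝ × ℝ} (hv : fderiv ℝ (pc a m) z v = (1, 0)) (n : ℕ) :
    |(fderiv ℝ (pc a (m + n)) z v).2| ≤
      1 / 8 * (|L (a (m + n)) (pc a (m + n) z).1| * |(fderiv ℝ (pc a (m + n)) z v).1|) ∧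
    0 < |(fderiv ℝ (pc a (m + n)) z v).1| ∧
    ∑ k ∈ Finset.range n, (log |L (a (m + k)) (pc a (m + k) z).1| - log 2) ≤
      log |(fderiv ℝ (pc a (m + n)) z v).1| := by
  induction n with
  | zero =>
    rw [add_zero, hv]
    simp
  | succ n ih =>
    obtain ⟨ih1, ih2, ih3⟩ := ih
    set w := fderiv ℝ (pc a (m + n)) z v with hw
    have e : fderiv ℝ (pc a (m + (n + 1))) z v = (L (a (m + n)) (pc a (m + n) z).1 * w.1 - w.2,
        w.1) := by
      rw [← add_assoc, (pc_deriv a z (m + n)).2, ContinuousLinearMap.comp_apply, ← hw, pmD_apply]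
    rw [e]
    simp only
    have h1 := h (m + n) (by omega)
    have ea : m + (n + 1) = m + n + 1 := by omega
    rw [ea]
    set L0 := L (a (m + n)) (pc a (m + n) z).1 with hL0
    set L1 := L (a (m + n + 1)) (pc a (m + n + 1) z).1 with hL1
    have hL0p : 0 < |L0| := by
      rcases eq_or_lt_of_le (abs_nonneg L0) with h0 | h0
      · rw [← h0, zero_mul] at h1
        linarith
      · exact h0
    have h3 : 7 / 8 * (|L0| * |w.1|) ≤ |L0 * w.1 - w.2| := by
      have q1 := abs_sub_abs_le_abs_sub (L0 * w.1) w.2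
      rw [abs_mul] at q1
      linarith
    have h4 : 0 < |L0| * |w.1| := mul_pos hL0p ih2
    refine ⟨?_, by linarith, ?_⟩
    · have q1 : |L1| * (7 / 8 * (|L0| * |w.1|)) ≤ |L1| * |L0 * w.1 - w.2| :=
        mul_le_mul_of_nonneg_left h3 (abs_nonneg _)
      have q2 : 16 * |w.1| ≤ |L0| * |L1| * |w.1| := mul_le_mul_of_nonneg_right h1 ih2.le
      nlinarith
    · rw [Finset.sum_range_succ]
      have q1 : log (|L0| * |w.1| / 2) ≤ log |L0 * w.1 - w.2| := by
        apply log_le_log (by positivity)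
        linarith
      rw [log_div h4.ne' (by norm_num), log_mul hL0p.ne' ih2.ne'] at q1
      linarith

theorem L_abs_le (a x : ℝ) : |L a x| ≤ 2 + 7 * |a| := by
  unfold L
  refine (abs_add_le _ _).trans ?_
  have h1 : |2 * π * a * cos (2 * π * x)| ≤ |a| * 7 := by
    rw [abs_mul, abs_mul, abs_of_pos (by positivity : 0 < 2 * π)]
    have h2 := abs_cos_le_one (2 * π * x)
    have h3 := pi_lt_d2
    have h4 : 2 * π * |a| * |cos (2 * π * x)| ≤ 2 * π * |a| * 1 :=
      mul_le_mul_of_nonneg_left h2 (by positivity)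
    have h5 : |a| * (2 * π) ≤ |a| * 7 := mul_le_mul_of_nonneg_left (by linarith) (abs_nonneg a)
    linarith
  have h2 : |(2:ℝ)| = 2 := abs_of_pos (by norm_num)
  rw [h2]
  linarith

theorem pc_norm_pos (a : ℕ → ℝ) (z : ℝ × ℝ) (n : ℕ) : 0 < ‖fderiv ℝ (pc a n) z‖ := by
  rw [norm_pos_iff]
  intro h
  obtain ⟨v, hv⟩ := pc_surj a z n (1, 0)
  rw [h] at hv
  have := congrArg Prod.fst hv
  simp at this

theorem pc_upper {a : ℕ → ℝ} {m : ℕ} (hm : ∀ k, m ≤ k → 1 ≤ |a k|) (z : ℝ × ℝ) (n : ℕ) :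
    log ‖fderiv ℝ (pc a (m + n)) z‖ ≤ log ‖fderiv ℝ (pc a m) z‖ +
      ∑ k ∈ Finset.range n, (log |a (m + k)| + log 10) := by
  induction n with
  | zero => simp
  | succ n ih =>
    rw [← add_assoc, Finset.sum_range_succ]
    have h1 : ‖fderiv ℝ (pc a (m + n + 1)) z‖ ≤
        (10 * |a (m + n)|) * ‖fderiv ℝ (pc a (m + n)) z‖ := by
      rw [(pc_deriv a z (m + n)).2]
      refine (ContinuousLinearMap.opNorm_comp_le _ _).trans ?_
      apply mul_le_mul_of_nonneg_right _ (norm_nonneg _)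
      have h2 := pmD_norm (a (m + n)) (pc a (m + n) z)
      have h3 := L_abs_le (a (m + n)) (pc a (m + n) z).1
      have h4 := hm (m + n) (by omega)
      linarith
    have h5 := pc_norm_pos a z (m + n)
    have h6 : 0 < |a (m + n)| := by
      have := hm (m + n) (by omega)
      linarith
    have h7 := log_le_log (pc_norm_pos a z (m + n + 1)) h1
    rw [log_mul (by positivity) h5.ne', log_mul (by norm_num) h6.ne'] at h7
    linarith

/-- the regularised ratio -/
noncomputable def WW (α u : ℝ) (p : T2) : ℝ := |α| / √(LC α p.1 ^ 2 + u ^ 2)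

theorem WW_cont (α : ℝ) {u : ℝ} (hu : 0 < u) : Continuous (WW α u) := by
  have h1 := LC1_cont α
  unfold WW
  refine continuous_const.div ((h1.pow 2).add continuous_const).sqrt fun p => ?_
  exact (Real.sqrt_pos.2 (by positivity)).ne'

theorem WW_int {α u : ℝ} (hα : 1 ≤ |α|) (hu : 0 < u) :
    ∫ p, WW α u p ≤ 1 + log (1 + 18 * |α| / u) := by
  rw [Pool.Agent.TH705.SM.int_T2 _ (Pool.Agent.TH705.SM.integrable_cont (WW_cont α hu))]
  have h : ∀ s : ℝ, ∫ t in (0:ℝ)..1, WW α u ((t : UnitAddCircle), (s : UnitAddCircle)) =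
      ∫ x in (0:ℝ)..1, |α| / √(L α x ^ 2 + u ^ 2) := by
    intro s
    apply intervalIntegral.integral_congr
    intro t _
    unfold WW
    simp only [LC_coe]
  simp_rw [h]
  rw [intervalIntegral.integral_const, sub_zero, one_smul]
  exact int_sqrt hα hu

/-- the value of the derivative along the orbit -/
noncomputable def Lk (a : ℕ → ℝ) (z : ℝ × ℝ) (k : ℕ) : ℝ := L (a k) (pc a k z).1

/-- the regularised ratio along the orbit -/
noncomputable def Wk (a : ℕ → ℝ) (z : ℝ × ℝ) (k : ℕ) : ℝ :=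
  |a k| / √(Lk a z k ^ 2 + (|a k| / ((k : ℝ) + 1) ^ 2) ^ 2)

theorem Wk_nonneg (a : ℕ → ℝ) (z : ℝ × ℝ) (k : ℕ) : 0 ≤ Wk a z k := by
  unfold Wk
  positivity

/-- one term -/
theorem term_le {a : ℕ → ℝ} {z : ℝ × ℝ} {k : ℕ} {ν ε : ℝ} (hε0 : 0 < ε)
    (q2 : |a k| / ((k : ℝ) + 1) ^ 2 ≤ |Lk a z k|) (q3 : 1 ≤ |a k|) (hκn : (k : ℝ) + 1 ≤ ν) :
    log |a k| - 2 * log 2 - ε * log ν - ν * (Wk a z k / ((k : ℝ) + 1) ^ (1 + ε)) ≤
      log |Lk a z k| - log 2 := by
  set κ : ℝ := (k : ℝ) + 1 with hκ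
  have hκ1 : 1 ≤ κ := by
    have : (0:ℝ) ≤ (k : ℝ) := Nat.cast_nonneg _
    linarith
  have hα0 : 0 < |a k| := by linarith
  set u := |a k| / κ ^ 2 with hu
  have hu0 : 0 < u := by positivity
  have hLp : 0 < |Lk a z k| := by linarith
  set s := √(Lk a z k ^ 2 + u ^ 2) with hs'
  have hs0 : 0 < s := Real.sqrt_pos.2 (by positivity)
  have hs2 : s ≤ 2 * |Lk a z k| := by
    calc s ≤ √((2 * |Lk a z k|) ^ 2) := by
          apply Real.sqrt_le_sqrt
          rw [← sq_abs (Lk a z k)]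
          nlinarith
      _ = _ := Real.sqrt_sq (by positivity)
  have hW : Wk a z k = |a k| / s := rfl
  have hW0 : 0 < Wk a z k := by
    rw [hW]
    positivity
  have r1 : log s ≤ log 2 + log |Lk a z k| := by
    rw [← log_mul (by norm_num) hLp.ne']
    exact log_le_log hs0 hs2
  have r2 : log (Wk a z k) = log |a k| - log s := by
    rw [hW, log_div hα0.ne' hs0.ne']
  have hκε : 0 < κ ^ ε := Real.rpow_pos_of_pos (by linarith) _
  have r3 : log (Wk a z k) ≤ ε * log κ + Wk a z k / κ ^ ε := by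
    have r4 := log_le_sub_one_of_pos (div_pos hW0 hκε)
    rw [log_div hW0.ne' hκε.ne', Real.log_rpow (by linarith)] at r4
    linarith
  have r5 : ε * log κ ≤ ε * log ν :=
    mul_le_mul_of_nonneg_left (log_le_log (by linarith) hκn) hε0.le
  have r6 : Wk a z k / κ ^ ε ≤ ν * (Wk a z k / κ ^ (1 + ε)) := by
    rw [Real.rpow_add (by linarith), Real.rpow_one]
    have e : ν * (Wk a z k / (κ * κ ^ ε)) = ν / κ * (Wk a z k / κ ^ ε) := by
      field_simp
    rw [e]
    have r7 : 1 ≤ ν / κ := by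
      rw [one_le_div (by linarith)]
      exact hκn
    have r8 : 0 ≤ Wk a z k / κ ^ ε := by positivity
    exact le_mul_of_one_le_left r8 r7
  linarith

/-- the lower bound -/
theorem exp_lower {a : ℕ → ℝ} {z : ℝ × ℝ} {m : ℕ}
    (hm1 : ∀ k, m ≤ k → 16 ≤ |Lk a z k| * |Lk a z (k + 1)|)
    (hm2 : ∀ k : ℕ, m ≤ k → |a k| / ((k : ℝ) + 1) ^ 2 ≤ |Lk a z k|)
    (hm3 : ∀ k, m ≤ k → 1 ≤ |a k|) {ε : ℝ} (hε0 : 0 < ε)
    (hs : Summable fun k : ℕ => Wk a z k / ((k : ℝ) + 1) ^ (1 + ε)) :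
    ∃ T : ℝ, ∀ n : ℕ, 1 ≤ n →
      SL a (m + n) - ε * ((m + n : ℕ) * log (m + n : ℕ)) - (m + n : ℕ) * T - T ≤
        log ‖fderiv ℝ (pc a (m + n)) z‖ := by
  obtain ⟨v, hv⟩ := pc_surj a z m (1, 0)
  have hv0 : 0 < ‖v‖ := by
    rw [norm_pos_iff]
    rintro rfl
    rw [map_zero] at hv
    have := congrArg Prod.fst hv
    simp at this
  set T₀ := ∑' k : ℕ, Wk a z k / ((k : ℝ) + 1) ^ (1 + ε) with hT₀
  have hT₀0 : 0 ≤ T₀ := tsum_nonneg fun k => by
    have := Wk_nonneg a z k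
    positivity
  have hl2 : 0 ≤ log 2 := log_nonneg (by norm_num)
  refine ⟨T₀ + 2 * log 2 + |SL a m| + |log ‖v‖|, fun n hn => ?_⟩
  have hg := (growP hm1 hv n).2
  have hb : log |(fderiv ℝ (pc a (m + n)) z v).1| ≤
      log ‖fderiv ℝ (pc a (m + n)) z‖ + log ‖v‖ := by
    rw [← log_mul (pc_norm_pos a z _).ne' hv0.ne']
    apply log_le_log hg.1
    refine le_trans ?_ ((fderiv ℝ (pc a (m + n)) z).le_opNorm v)
    rw [← norm_eq_abs]
    exact norm_fst_le _
  set ν : ℝ := ((m + n : ℕ) : ℝ) with hν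
  have hnn : 0 < ν := by
    rw [hν]
    have : 0 < m + n := by omega
    exact_mod_cast this
  have hterm : ∀ k ∈ Finset.range n, log |a (m + k)| - 2 * log 2 - ε * log ν -
      ν * (Wk a z (m + k) / (((m + k : ℕ) : ℝ) + 1) ^ (1 + ε)) ≤
      log |L (a (m + k)) (pc a (m + k) z).1| - log 2 := by
    intro k hk
    have hk' := Finset.mem_range.1 hk
    refine term_le hε0 (hm2 (m + k) (by omega)) (hm3 (m + k) (by omega)) ?_
    rw [hν]
    have : m + k + 1 ≤ m + n := by omega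
    exact_mod_cast this
  have hsum := Finset.sum_le_sum hterm
  have e1 : ∑ k ∈ Finset.range n, (log |a (m + k)| - 2 * log 2 - ε * log ν -
      ν * (Wk a z (m + k) / (((m + k : ℕ) : ℝ) + 1) ^ (1 + ε))) =
      (∑ k ∈ Finset.range n, log |a (m + k)|) - n * (2 * log 2) - n * (ε * log ν) -
      ν * ∑ k ∈ Finset.range n, Wk a z (m + k) / (((m + k : ℕ) : ℝ) + 1) ^ (1 + ε) := by
    rw [Finset.sum_sub_distrib, Finset.sum_sub_distrib, Finset.sum_sub_distrib, Finset.mul_sum,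
      Finset.sum_const, Finset.sum_const, Finset.card_range, nsmul_eq_mul, nsmul_eq_mul]
  rw [e1] at hsum
  have hser : ∑ k ∈ Finset.range n, Wk a z (m + k) / (((m + k : ℕ) : ℝ) + 1) ^ (1 + ε) ≤ T₀ := by
    have hs' : Summable fun k => Wk a z (k + m) / (((k + m : ℕ) : ℝ) + 1) ^ (1 + ε) :=
      (summable_nat_add_iff m).2 hs
    have t1 := hs'.sum_le_tsum (Finset.range n) fun k _ => by
      have := Wk_nonneg a z (k + m)
      positivity
    have t2 := hs.sum_add_tsum_nat_add m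
    have t3 : 0 ≤ ∑ k ∈ Finset.range m, Wk a z k / ((k : ℝ) + 1) ^ (1 + ε) :=
      Finset.sum_nonneg fun k _ => by
        have := Wk_nonneg a z k
        positivity
    have t4 : ∑ k ∈ Finset.range n, Wk a z (m + k) / (((m + k : ℕ) : ℝ) + 1) ^ (1 + ε) =
        ∑ k ∈ Finset.range n, Wk a z (k + m) / (((k + m : ℕ) : ℝ) + 1) ^ (1 + ε) := by
      apply Finset.sum_congr rfl
      intro k _
      rw [add_comm m k]
    rw [t4]
    linarith
  have hser2 := mul_le_mul_of_nonneg_left hser hnn.le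
  have hnle : (n : ℝ) ≤ ν := by
    rw [hν]
    have : n ≤ m + n := by omega
    exact_mod_cast this
  have hn1 : (1:ℝ) ≤ n := by exact_mod_cast hn
  have hlogn : 0 ≤ log ν := log_nonneg (by linarith)
  have w1 : (n : ℝ) * (2 * log 2) ≤ ν * (2 * log 2) :=
    mul_le_mul_of_nonneg_right hnle (by positivity)
  have w2 : (n : ℝ) * (ε * log ν) ≤ ν * (ε * log ν) :=
    mul_le_mul_of_nonneg_right hnle (by positivity)
  have w3 := neg_abs_le (SL a m)
  have w3' := le_abs_self (SL a m)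
  have w4 := le_abs_self (log ‖v‖)
  have w5 : 0 ≤ ν * (|SL a m| + |log ‖v‖|) := by positivity
  have w6 := hg.2
  rw [SL_add]
  linarith

/-- the upper bound -/
theorem exp_upper {a : ℕ → ℝ} {m : ℕ} (hm3 : ∀ k, m ≤ k → 1 ≤ |a k|) (z : ℝ × ℝ) :
    ∃ T : ℝ, ∀ n : ℕ, log ‖fderiv ℝ (pc a (m + n)) z‖ ≤ SL a (m + n) + (m + n : ℕ) * T + T := by
  refine ⟨log 10 + (|SL a m| + |log ‖fderiv ℝ (pc a m) z‖|), fun n => ?_⟩
  have h4 := pc_upper hm3 z n
  rw [Finset.sum_add_distrib, Finset.sum_const, Finset.card_range, nsmul_eq_mul] at h4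
  rw [SL_add]
  have w3 := neg_abs_le (SL a m)
  have w4 := le_abs_self (log ‖fderiv ℝ (pc a m) z‖)
  have hl : 0 ≤ log 10 := log_nonneg (by norm_num)
  have hnle : (n : ℝ) ≤ ((m + n : ℕ) : ℝ) := by
    have : n ≤ m + n := by omega
    exact_mod_cast this
  have w5 : (n : ℝ) * log 10 ≤ ((m + n : ℕ) : ℝ) * log 10 :=
    mul_le_mul_of_nonneg_right hnle hl
  have w6 : 0 ≤ ((m + n : ℕ) : ℝ) * (|SL a m| + |log ‖fderiv ℝ (pc a m) z‖|) := by positivity
  linarith

/-- any linear function is negligible -/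
theorem SL_neg {a : ℕ → ℝ} (hS : ∀ᶠ n : ℕ in atTop, (n : ℝ) * log n ≤ 16 * SL a n)
    (T δ : ℝ) (hδ : 0 < δ) : ∀ᶠ n : ℕ in atTop, (n : ℝ) * T + T ≤ δ * SL a n := by
  have hlogt : Tendsto (fun n : ℕ => log (n : ℝ)) atTop atTop :=
    tendsto_log_atTop.comp tendsto_natCast_atTop_atTop
  filter_upwards [hS, hlogt.eventually_ge_atTop (32 * |T| / δ), eventually_ge_atTop 1]
    with n hn1 hn2 hn3
  have hn0 : (1:ℝ) ≤ n := by exact_mod_cast hn3
  have q1 := le_abs_self T
  have q2 : (n : ℝ) * T + T ≤ 2 * (n * |T|) := by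
    have := abs_nonneg T
    nlinarith
  rw [div_le_iff₀ hδ] at hn2
  have q3 : n * (32 * |T|) ≤ n * (log n * δ) := mul_le_mul_of_nonneg_left hn2 (by linarith)
  have q4 : n * log n * δ ≤ 16 * SL a n * δ := mul_le_mul_of_nonneg_right hn1 hδ.le
  linarith

/-- the pointwise statement -/
theorem exp_pt {a : ℕ → ℝ} {z : ℝ × ℝ} (ha : Tendsto (fun k => |a k|) atTop atTop)
    (hS : ∀ᶠ n : ℕ in atTop, (n : ℝ) * log n ≤ 16 * SL a n)
    (h1 : ∀ᶠ k in atTop, 16 ≤ |Lk a z k| * |Lk a z (k + 1)|)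
    (h2 : ∀ᶠ k : ℕ in atTop, |a k| / ((k : ℝ) + 1) ^ 2 ≤ |Lk a z k|)
    (h3 : ∀ j : ℕ, Summable fun k : ℕ =>
      Wk a z k / ((k : ℝ) + 1) ^ (1 + 1 / ((j : ℝ) + 1))) :
    Tendsto (fun n => log ‖fderiv ℝ (pc a n) z‖ / SL a n) atTop (𝓝 1) := by
  obtain ⟨m, hm⟩ := eventually_atTop.1 ((h1.and h2).and (ha.eventually_ge_atTop 1))
  have hlogt : Tendsto (fun n : ℕ => log (n : ℝ)) atTop atTop :=
    tendsto_log_atTop.comp tendsto_natCast_atTop_atTop
  have hSpos : ∀ᶠ n : ℕ in atTop, 0 < SL a n := by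
    filter_upwards [hS, hlogt.eventually_ge_atTop 1, eventually_ge_atTop 1] with n hn1 hn2 hn3
    have hn0 : (1:ℝ) ≤ n := by exact_mod_cast hn3
    nlinarith
  rw [Metric.tendsto_nhds]
  intro δ hδ
  obtain ⟨j, hj⟩ : ∃ j : ℕ, 1 / ((j : ℝ) + 1) < δ / 64 := exists_nat_one_div_lt (by positivity)
  obtain ⟨T, hT⟩ := exp_lower (fun k hk => (hm k hk).1.1) (fun k hk => (hm k hk).1.2)
    (fun k hk => (hm k hk).2) (by positivity : (0:ℝ) < 1 / ((j : ℝ) + 1)) (h3 j)
  obtain ⟨T', hT'⟩ := exp_upper (fun k hk => (hm k hk).2) z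
  filter_upwards [hSpos, hS, SL_neg hS T (δ / 4) (by positivity),
    SL_neg hS T' (δ / 4) (by positivity), eventually_ge_atTop (m + 1)] with n hn0 hn1 hn2 hn3 hn4
  obtain ⟨d, rfl⟩ : ∃ d, n = m + d := ⟨n - m, by omega⟩
  have hd1 : 1 ≤ d := by omega
  have hlo := hT d hd1
  have hup := hT' d
  set ν : ℝ := ((m + d : ℕ) : ℝ) with hν
  set S := SL a (m + d) with hS'
  set D := log ‖fderiv ℝ (pc a (m + d)) z‖ with hD
  have hlogn : 0 ≤ log ν := log_natCast_nonneg _
  have hν0 : 0 ≤ ν := Nat.cast_nonneg _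
  have hprod : 0 ≤ ν * log ν := mul_nonneg hν0 hlogn
  have r1 : 1 / ((j : ℝ) + 1) * (ν * log ν) ≤ δ / 64 * (16 * S) :=
    mul_le_mul hj.le hn1 hprod (by positivity)
  have r2 : 0 < δ * S := mul_pos hδ hn0
  rw [Real.dist_eq, abs_lt]
  constructor
  · rw [lt_sub_iff_add_lt, lt_div_iff₀ hn0]
    linarith
  · rw [sub_lt_iff_lt_add, div_lt_iff₀ hn0]
    linarith

/-! ### almost every point -/

theorem Lk_eq (a : ℕ → ℝ) (x y : ℝ) (k : ℕ) : Lk a (x, y) k =
    LC (a k) (cs a k ((x : UnitAddCircle), (y : UnitAddCircle))).1 := by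
  have e := cs_coe a k (x, y)
  simp only at e
  rw [e, LC_coe]
  rfl

theorem Lk_eq' (a : ℕ → ℝ) (x y : ℝ) (k : ℕ) : Lk a (x, y) k =
    LC (a k) (cs a (k + 1) ((x : UnitAddCircle), (y : UnitAddCircle))).2 := by
  have e := cs_coe a (k + 1) (x, y)
  simp only at e
  rw [e, LC_coe]
  rfl

theorem sum_W {ε : ℝ} (hε : 0 < ε) : Summable fun k : ℕ =>
    (1 + log (1 + 18 * ((k : ℝ) + 1) ^ 2)) / ((k : ℝ) + 1) ^ (1 + ε) := by
  have h0 : Summable fun k : ℕ => (24 + 4 / ε) * (1 / ((k : ℝ) + 1) ^ (1 + ε / 2)) := by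
    apply Summable.mul_left
    have h1 := (Real.summable_one_div_nat_rpow (p := 1 + ε / 2)).2 (by linarith)
    have h2 := (summable_nat_add_iff 1).2 h1
    refine h2.congr fun k => ?_
    push_cast
    rfl
  refine Summable.of_nonneg_of_le (fun k => ?_) (fun k => ?_) h0
  · have : 0 ≤ log (1 + 18 * ((k : ℝ) + 1) ^ 2) := log_nonneg (by nlinarith [sq_nonneg ((k:ℝ) + 1)])
    positivity
  · set κ : ℝ := (k : ℝ) + 1 with hκ
    have hκ1 : 1 ≤ κ := by
      have : (0:ℝ) ≤ (k : ℝ) := Nat.cast_nonneg _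
      linarith
    have hκ0 : 0 < κ := by linarith
    have h1 : log (1 + 18 * κ ^ 2) ≤ 19 + 2 * log κ := by
      have q1 : 1 + 18 * κ ^ 2 ≤ 19 * κ ^ 2 := by nlinarith
      have q2 := log_le_log (by positivity) q1
      rw [log_mul (by norm_num) (by positivity), log_pow] at q2
      have q3 := log_le_sub_one_of_pos (by norm_num : (0:ℝ) < 19)
      push_cast at q2
      linarith
    have h2 : log κ ≤ κ ^ (ε / 2) / (ε / 2) := Real.log_le_rpow_div hκ0.le (by positivity)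
    have h3 : 1 ≤ κ ^ (ε / 2) := Real.one_le_rpow hκ1 (by positivity)
    have h4 : 1 + log (1 + 18 * κ ^ 2) ≤ (24 + 4 / ε) * κ ^ (ε / 2) := by
      have e : κ ^ (ε / 2) / (ε / 2) = 2 / ε * κ ^ (ε / 2) := by
        field_simp
      rw [e] at h2
      have e2 : (24 + 4 / ε) * κ ^ (ε / 2) = 24 * κ ^ (ε / 2) + 2 * (2 / ε * κ ^ (ε / 2)) := by
        ring
      rw [e2]
      linarith
    have h5 : κ ^ (1 + ε) = κ ^ (1 + ε / 2) * κ ^ (ε / 2) := by
      rw [← Real.rpow_add hκ0]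
      congr 1
      ring
    have h6 : 0 < κ ^ (1 + ε / 2) := Real.rpow_pos_of_pos hκ0 _
    have h7 : 0 < κ ^ (ε / 2) := Real.rpow_pos_of_pos hκ0 _
    rw [h5, div_le_iff₀ (by positivity)]
    have e3 : (24 + 4 / ε) * (1 / κ ^ (1 + ε / 2)) * (κ ^ (1 + ε / 2) * κ ^ (ε / 2)) =
        (24 + 4 / ε) * κ ^ (ε / 2) := by
      field_simp
    rw [e3]
    exact h4

/-- **the exponent at almost every point** -/
theorem exp_ae {a : ℕ → ℝ} (ha : Inc2 a) : ∀ᵐ p : T2, ∀ x y : ℝ,
    ((x : UnitAddCircle), (y : UnitAddCircle)) = p →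
    Tendsto (fun n => log ‖fderiv ℝ (pc a n) (x, y)‖ / SL a n) atTop (𝓝 1) := by
  obtain ⟨m, hm⟩ := eventually_atTop.1 (ha.inf.eventually_ge_atTop 1)
  have hm' : ∀ k, 1 ≤ |a (k + m)| := fun k => hm _ (by omega)
  have hm0 : ∀ k, 0 < |a (k + m)| := fun k => by linarith [hm' k]
  -- pairs
  have A1 := ae_sum (F := fun k p => PP2 (a (k + m)) (a (k + m + 1)) 16 (cs a (k + m + 1) p))
    (fun k => (PP2_cont _ _ (by norm_num)).comp (cs_cont a _))
    (fun k p => by unfold PP2; positivity)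
    (b := fun k => 18 * 16 * kap (a (k + m)) (a (k + m + 1)))
    (fun k => by
      rw [int_cs' a (k + m + 1) (PP2_cont _ _ (by norm_num))]
      exact PP2_int (hm _ (by omega)) (hm _ (by omega)) (by norm_num))
    (((summable_nat_add_iff m).2 ha.s).mul_left _)
  -- single values
  have hsq : Summable fun k : ℕ => 3 / (((k + m : ℕ) : ℝ) + 1) ^ 2 := by
    have h1 : Summable fun k : ℕ => 1 / (k : ℝ) ^ 2 := Real.summable_one_div_nat_pow.2 (by norm_num)
    have h2 := ((summable_nat_add_iff (m + 1)).2 h1).mul_left 3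
    refine h2.congr fun k => ?_
    push_cast
    ring
  have A2 := ae_sum (F := fun k p => PP1 (a (k + m)) (|a (k + m)| / (((k + m : ℕ) : ℝ) + 1) ^ 2)
      (cs a (k + m) p))
    (fun k => (PP1_cont _ (by have := hm0 k; positivity)).comp (cs_cont a _))
    (fun k p => by unfold PP1; positivity)
    (b := fun k => 3 / (((k + m : ℕ) : ℝ) + 1) ^ 2)
    (fun k => by
      have h0 := hm0 k
      rw [int_cs' a (k + m) (PP1_cont _ (by positivity))]
      refine (PP1_int (hm' k) (by positivity)).trans (le_of_eq ?_)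
      field_simp) hsq
  -- the ratios
  have A3 : ∀ j : ℕ, ∀ᵐ p : T2, Summable fun k : ℕ =>
      WW (a (k + m)) (|a (k + m)| / (((k + m : ℕ) : ℝ) + 1) ^ 2) (cs a (k + m) p) /
        (((k + m : ℕ) : ℝ) + 1) ^ (1 + 1 / ((j : ℝ) + 1)) := by
    intro j
    refine ae_sum (fun k => ?_) (fun k p => ?_)
      (b := fun k : ℕ => (1 + log (1 + 18 * (((k + m : ℕ) : ℝ) + 1) ^ 2)) /
        (((k + m : ℕ) : ℝ) + 1) ^ (1 + 1 / ((j : ℝ) + 1))) (fun k => ?_) ?_
    · have h0 := hm0 k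
      exact ((WW_cont _ (by positivity)).comp (cs_cont a _)).div_const _
    · unfold WW
      positivity
    · have h0 := hm0 k
      rw [integral_div, int_cs' a (k + m) (WW_cont _ (by positivity))]
      apply div_le_div_of_nonneg_right _ (by positivity)
      refine (WW_int (hm' k) (by positivity)).trans (le_of_eq ?_)
      congr 3
      field_simp
    · exact (summable_nat_add_iff m (f := fun k : ℕ => (1 + log (1 + 18 * ((k : ℝ) + 1) ^ 2)) /
        ((k : ℝ) + 1) ^ (1 + 1 / ((j : ℝ) + 1)))).2 (sum_W (by positivity))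
  have A3' := ae_all_iff.2 A3
  have hS := SL_lower ha
  filter_upwards [A1, A2, A3'] with p p1 p2 p3 x y hxy
  subst hxy
  refine exp_pt ha.inf hS ?_ ?_ ?_
  · have h1 := (tendsto_order.1 p1.tendsto_atTop_zero).2 (3 / 2) (by norm_num)
    obtain ⟨n₀, hn₀⟩ := eventually_atTop.1 h1
    rw [eventually_atTop]
    refine ⟨n₀ + m, fun k hk => ?_⟩
    have h2 := hn₀ (k - m) (by omega)
    rw [Nat.sub_add_cancel (by omega)] at h2
    unfold PP2 at h2
    rw [← Lk_eq', ← Lk_eq] at h2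
    rw [div_lt_iff₀ (by positivity)] at h2
    rw [← abs_mul]
    have h3 : (16:ℝ) ^ 2 ≤ |Lk a (x, y) k * Lk a (x, y) (k + 1)| ^ 2 := by
      rw [sq_abs]
      nlinarith
    exact le_of_sq_le_sq h3 (abs_nonneg _)
  · have h1 := (tendsto_order.1 p2.tendsto_atTop_zero).2 (3 / 2) (by norm_num)
    obtain ⟨n₀, hn₀⟩ := eventually_atTop.1 h1
    rw [eventually_atTop]
    refine ⟨n₀ + m, fun k hk => ?_⟩
    have h2 := hn₀ (k - m) (by omega)
    have hk0 := hm k (by omega)
    rw [Nat.sub_add_cancel (by omega)] at h2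
    unfold PP1 at h2
    rw [← Lk_eq] at h2
    have hu0 : 0 < |a k| / ((k : ℝ) + 1) ^ 2 := by positivity
    rw [div_lt_iff₀ (by positivity)] at h2
    have h3 : (|a k| / ((k : ℝ) + 1) ^ 2) ^ 2 ≤ |Lk a (x, y) k| ^ 2 := by
      rw [sq_abs]
      nlinarith
    exact le_of_sq_le_sq h3 (abs_nonneg _)
  · intro j
    have h1 := p3 j
    rw [← summable_nat_add_iff m]
    refine h1.congr fun k => ?_
    unfold WW Wk
    rw [← Lk_eq]

end Pool.Agent.H52.STD
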