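import Mathlib
import Pool.Agent.H52.STD.Sq8

set_option autoImplicit false

/-!
# Almost every orbit is equidistributed
-/

namespace Pool.Agent.H52.STD

open Real MeasureTheory Function Filter Topology

/-! ### a deterministic lemma -/

theorem slow {x : ℕ → ℝ} {B : ℝ} (hB : 0 < B) (hx : ∀ k, |x k| ≤ B)
    (hs : Summable fun n : ℕ => 1 / ((n : ℝ) + 1) *
      (1 / ((n : ℝ) + 1) * ∑ k ∈ Finset.range (n + 1), x k) ^ 2) :
    Tendsto (fun n : ℕ => 1 / ((n : ℝ) + 1) * ∑ k ∈ Finset.range (n + 1), x k) atTop (𝓝 0) := by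
  set A : ℕ → ℝ := fun n => 1 / ((n : ℝ) + 1) * ∑ k ∈ Finset.range (n + 1), x k with hA
  have hs' : Summable fun n : ℕ => 1 / ((n : ℝ) + 1) * A n ^ 2 := hs
  rw [Metric.tendsto_nhds]
  intro ε hε
  set c : ℝ := min 1 (ε / (4 * B)) with hc
  have hc0 : 0 < c := lt_min one_pos (by positivity)
  have hc1 : c ≤ 1 := min_le_left _ _
  have hcB : B * c ≤ ε / 4 := by
    have h1 : c ≤ ε / (4 * B) := min_le_right _ _
    calc B * c ≤ B * (ε / (4 * B)) := mul_le_mul_of_nonneg_left h1 hB.le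
      _ = ε / 4 := by field_simp
  set η : ℝ := c / 4 * (9 / 64 * ε ^ 2) with hη
  have hη0 : 0 < η := by positivity
  have h0 := tendsto_sum_nat_add (fun n : ℕ => 1 / ((n : ℝ) + 1) * A n ^ 2)
  have h1 := (tendsto_order.1 h0).2 η hη0
  filter_upwards [h1, eventually_ge_atTop 1] with n hn hn1
  rw [dist_zero_right, norm_eq_abs]
  by_contra hcon
  rw [not_lt] at hcon
  have hn0 : (1:ℝ) ≤ n := by exact_mod_cast hn1
  set r : ℕ := ⌊c * n⌋₊ with hr
  have hr1 : (r : ℝ) ≤ c * n := Nat.floor_le (by positivity)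
  have hr2 : c * n < r + 1 := Nat.lt_floor_add_one _
  have hrn : (r : ℝ) ≤ n := by nlinarith
  have hsn : Summable fun i : ℕ => 1 / (((i + n : ℕ) : ℝ) + 1) * A (i + n) ^ 2 :=
    (summable_nat_add_iff n).2 hs'
  have h2 := hsn.sum_le_tsum (Finset.range (r + 1)) (fun i _ => by positivity)
  have h3 : ∀ i ∈ Finset.range (r + 1), 1 / (4 * (n : ℝ)) * (9 / 64 * ε ^ 2) ≤
      1 / (((i + n : ℕ) : ℝ) + 1) * A (i + n) ^ 2 := by
    intro i hi
    have hi' : i ≤ r := by
      have := Finset.mem_range.1 hi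
      omega
    have hir : (i : ℝ) ≤ r := by exact_mod_cast hi'
    have hi0 : (0:ℝ) ≤ i := Nat.cast_nonneg _
    have e1 : ∑ k ∈ Finset.range (i + n + 1), x k = ∑ k ∈ Finset.range (n + 1), x k +
        ∑ k ∈ Finset.range i, x (n + 1 + k) := by
      have : i + n + 1 = n + 1 + i := by omega
      rw [this, Finset.sum_range_add]
    have e2 : |∑ k ∈ Finset.range i, x (n + 1 + k)| ≤ i * B := by
      refine (Finset.abs_sum_le_sum_abs _ _).trans ?_
      refine (Finset.sum_le_sum fun k _ => hx _).trans ?_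
      rw [Finset.sum_const, Finset.card_range, nsmul_eq_mul]
    have e3 : ε * ((n : ℝ) + 1) ≤ |∑ k ∈ Finset.range (n + 1), x k| := by
      have : |A n| = 1 / ((n : ℝ) + 1) * |∑ k ∈ Finset.range (n + 1), x k| := by
        rw [hA]
        simp only
        rw [abs_mul, abs_of_pos (by positivity : (0:ℝ) < 1 / ((n : ℝ) + 1))]
      rw [this, div_mul_eq_mul_div, one_mul, le_div_iff₀ (by positivity)] at hcon
      exact hcon
    have e4 : 3 / 4 * ε * ((n : ℝ) + 1) ≤ |∑ k ∈ Finset.range (i + n + 1), x k| := by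
      rw [e1]
      have q1 := abs_sub_abs_le_abs_sub (∑ k ∈ Finset.range (n + 1), x k)
        (-∑ k ∈ Finset.range i, x (n + 1 + k))
      rw [abs_neg, sub_neg_eq_add] at q1
      have q2 : (i : ℝ) * B ≤ c * n * B := mul_le_mul_of_nonneg_right (hir.trans hr1) hB.le
      have q3 : c * n * B ≤ ε / 4 * n := by nlinarith
      linarith
    have e5 : 3 / 8 * ε ≤ |A (i + n)| := by
      have : |A (i + n)| = 1 / (((i + n : ℕ) : ℝ) + 1) *
          |∑ k ∈ Finset.range (i + n + 1), x k| := by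
        rw [hA]
        simp only
        rw [abs_mul, abs_of_pos (by positivity : (0:ℝ) < 1 / (((i + n : ℕ) : ℝ) + 1))]
      have e' : 1 / (((i + n : ℕ) : ℝ) + 1) * |∑ k ∈ Finset.range (i + n + 1), x k| =
          |∑ k ∈ Finset.range (i + n + 1), x k| / (((i + n : ℕ) : ℝ) + 1) := by ring
      rw [this, e', le_div_iff₀ (by positivity)]
      push_cast
      nlinarith
    have e6 : 9 / 64 * ε ^ 2 ≤ A (i + n) ^ 2 := by
      rw [← sq_abs (A (i + n))]
      nlinarith
    have e7 : 1 / (4 * (n : ℝ)) ≤ 1 / (((i + n : ℕ) : ℝ) + 1) := by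
      apply one_div_le_one_div_of_le (by positivity)
      push_cast
      linarith
    exact mul_le_mul e7 e6 (by positivity) (by positivity)
  have h4 := Finset.sum_le_sum h3
  rw [Finset.sum_const, Finset.card_range, nsmul_eq_mul] at h4
  have h5 : η ≤ ((r + 1 : ℕ) : ℝ) * (1 / (4 * (n : ℝ)) * (9 / 64 * ε ^ 2)) := by
    have q : c / 4 ≤ ((r + 1 : ℕ) : ℝ) * (1 / (4 * (n : ℝ))) := by
      rw [mul_one_div, le_div_iff₀ (by positivity)]
      push_cast
      linarith
    calc η = c / 4 * (9 / 64 * ε ^ 2) := hη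
      _ ≤ ((r + 1 : ℕ) : ℝ) * (1 / (4 * (n : ℝ))) * (9 / 64 * ε ^ 2) :=
          mul_le_mul_of_nonneg_right q (by positivity)
      _ = _ := by ring
  linarith

theorem sum_rpow {η : ℝ} (h0 : 0 < η) (h1 : η ≤ 1 / 2) (n : ℕ) :
    ∑ i ∈ Finset.range n, ((i : ℝ) + 1) ^ (-η) ≤ 2 * (n : ℝ) ^ (1 - η) := by
  induction n with
  | zero =>
    rw [Finset.range_zero, Finset.sum_empty]
    positivity
  | succ n ih =>
    rw [Finset.sum_range_succ]
    push_cast
    set κ : ℝ := (n : ℝ) + 1 with hκ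
    have hn0 : (0:ℝ) ≤ n := Nat.cast_nonneg _
    have hκ0 : 0 < κ := by linarith
    have b1 := rpow_one_add_le_one_add_mul_self (s := -(1 / κ)) (p := 1 - η)
      (by
        have : 1 / κ ≤ 1 := by
          rw [div_le_one hκ0]
          linarith
        linarith) (by linarith) (by linarith)
    have e1 : 1 + -(1 / κ) = (n : ℝ) / κ := by
      rw [hκ]
      field_simp
      ring
    rw [e1, Real.div_rpow hn0 hκ0.le] at b1
    have hκp : 0 < κ ^ (1 - η) := Real.rpow_pos_of_pos hκ0 _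
    rw [div_le_iff₀ hκp] at b1
    have e2 : κ ^ (-η) = κ ^ (1 - η) / κ := by
      rw [← Real.rpow_sub_one hκ0.ne']
      congr 1
      ring
    have e3 : (1 + (1 - η) * -(1 / κ)) * κ ^ (1 - η) = κ ^ (1 - η) - (1 - η) * κ ^ (-η) := by
      rw [e2]
      field_simp
      ring
    rw [e3] at b1
    have e4 : 0 < κ ^ (-η) := Real.rpow_pos_of_pos hκ0 _
    nlinarith

/-! ### polynomial growth -/

/-- growth of the coefficients faster than the square root -/
def Pow (a : ℕ → ℝ) : Prop :=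
  ∃ c δ : ℝ, 0 < c ∧ 0 < δ ∧ ∀ᶠ k : ℕ in atTop, c * (k : ℝ) ^ (1 / 2 + δ) ≤ |a k|

/-- consequences -/
theorem Pow.core {a : ℕ → ℝ} (h : Pow a) : ∃ δ C : ℝ, 0 < δ ∧ δ ≤ 1 / 2 ∧ 0 < C ∧
    ∀ᶠ k : ℕ in atTop, 1 ≤ |a k| ∧ 1 / √|a k| ≤ C * ((k : ℝ) + 1) ^ (-(δ / 4)) ∧
      kap (a k) (a (k + 1)) ≤ C * ((k : ℝ) + 1) ^ (-(1 + δ)) := by
  obtain ⟨c, δ', hc, hδ', hev⟩ := h
  set δ := min δ' (1 / 2) with hδ
  have hδ0 : 0 < δ := lt_min hδ' (by norm_num)
  have hδ1 : δ ≤ 1 / 2 := min_le_right _ _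
  have hδδ : δ ≤ δ' := min_le_left _ _
  set b := c / 4 with hb
  have hb0 : 0 < b := by positivity
  -- lower bound with k + 1
  have hlow : ∀ᶠ k : ℕ in atTop, b * ((k : ℝ) + 1) ^ (1 / 2 + δ) ≤ |a k| := by
    filter_upwards [hev, eventually_ge_atTop 1] with k hk hk1
    have hk0 : (1:ℝ) ≤ k := by exact_mod_cast hk1
    refine le_trans ?_ hk
    have q1 : ((k : ℝ) + 1) ^ (1 / 2 + δ) ≤ (2 * (k : ℝ)) ^ (1 / 2 + δ) :=
      Real.rpow_le_rpow (by positivity) (by linarith) (by linarith)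
    rw [Real.mul_rpow (by norm_num) (by linarith)] at q1
    have q2 : (2:ℝ) ^ (1 / 2 + δ) ≤ 2 ^ (1:ℝ) :=
      Real.rpow_le_rpow_of_exponent_le (by norm_num) (by linarith)
    rw [Real.rpow_one] at q2
    have q3 : (k : ℝ) ^ (1 / 2 + δ) ≤ (k : ℝ) ^ (1 / 2 + δ') :=
      Real.rpow_le_rpow_of_exponent_le hk0 (by linarith)
    have q4 : 0 < (k : ℝ) ^ (1 / 2 + δ) := Real.rpow_pos_of_pos (by linarith) _
    calc b * ((k : ℝ) + 1) ^ (1 / 2 + δ) ≤ b * (2 * (k : ℝ) ^ (1 / 2 + δ')) := by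
          apply mul_le_mul_of_nonneg_left _ hb0.le
          have := mul_le_mul q2 q3 q4.le (by norm_num)
          linarith
      _ ≤ c * (k : ℝ) ^ (1 / 2 + δ') := by
          rw [hb]
          have : 0 ≤ c * (k : ℝ) ^ (1 / 2 + δ') := by positivity
          linarith
  have hinf : Tendsto (fun k => |a k|) atTop atTop := by
    apply tendsto_atTop_mono' _ hlow
    apply Tendsto.const_mul_atTop hb0
    apply (tendsto_rpow_atTop (by linarith : 0 < 1 / 2 + δ)).comp
    exact tendsto_atTop_add_const_right _ _ tendsto_natCast_atTop_atTop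
  set η : ℝ := δ / (1 + 2 * δ) with hη
  have hη0 : 0 < η := by positivity
  have hη1 : η < 1 := by
    rw [hη, div_lt_one (by positivity)]
    linarith
  have hηe : (1 + 2 * δ) * (1 - η) = 1 + δ := by
    rw [hη]
    field_simp
    ring
  set C₁ : ℝ := (1 + 1 / η) * (b ^ 2) ^ (-(1 - η)) with hC₁
  have hC₁0 : 0 < C₁ := by positivity
  set C₂ : ℝ := 1 / √b with hC₂
  have hC₂0 : 0 < C₂ := by positivity
  refine ⟨δ, C₁ + C₂, hδ0, hδ1, by positivity, ?_⟩
  have hlow' : ∀ᶠ k : ℕ in atTop, b * (((k + 1 : ℕ) : ℝ) + 1) ^ (1 / 2 + δ) ≤ |a (k + 1)| :=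
    (tendsto_add_atTop_nat 1).eventually hlow
  have hone := hinf.eventually_ge_atTop 1
  have hone' : ∀ᶠ k : ℕ in atTop, 1 ≤ |a (k + 1)| := (tendsto_add_atTop_nat 1).eventually hone
  filter_upwards [hlow, hlow', hone, hone'] with k h1 h2 h3 h4
  set κ : ℝ := (k : ℝ) + 1 with hκ
  have hκ1 : 1 ≤ κ := by
    have : (0:ℝ) ≤ (k : ℝ) := Nat.cast_nonneg _
    linarith
  have hκ0 : 0 < κ := by linarith
  refine ⟨h3, ?_, ?_⟩
  · have q1 : √(b * κ ^ (1 / 2 + δ)) ≤ √|a k| := Real.sqrt_le_sqrt h1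
    have q2 : √b * κ ^ (δ / 4) ≤ √|a k| := by
      refine le_trans ?_ q1
      rw [Real.sqrt_mul hb0.le]
      apply mul_le_mul_of_nonneg_left _ (Real.sqrt_nonneg b)
      rw [Real.sqrt_eq_rpow, ← Real.rpow_mul hκ0.le]
      apply Real.rpow_le_rpow_of_exponent_le hκ1
      linarith
    have hbs : 0 < √b := Real.sqrt_pos.2 hb0
    have q3 : 0 < κ ^ (δ / 4) := Real.rpow_pos_of_pos hκ0 _
    have q4 : 1 / √|a k| ≤ 1 / (√b * κ ^ (δ / 4)) :=
      one_div_le_one_div_of_le (by positivity) q2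
    have e : 1 / (√b * κ ^ (δ / 4)) = C₂ * κ ^ (-(δ / 4)) := by
      rw [hC₂, Real.rpow_neg hκ0.le]
      field_simp
    rw [e] at q4
    have q5 : 0 ≤ C₁ * κ ^ (-(δ / 4)) := by positivity
    linarith
  · have h2' : b * κ ^ (1 / 2 + δ) ≤ |a (k + 1)| := by
      refine le_trans ?_ h2
      apply mul_le_mul_of_nonneg_left _ hb0.le
      apply Real.rpow_le_rpow hκ0.le _ (by linarith)
      push_cast
      linarith
    set t := |a k| * |a (k + 1)| with ht
    have ht1 : 1 ≤ t := one_le_mul_of_one_le_of_one_le h3 h4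
    have ht0 : 0 < t := by linarith
    have q1 : b ^ 2 * κ ^ (1 + 2 * δ) ≤ t := by
      have := mul_le_mul h1 h2' (by positivity) (abs_nonneg _)
      have e : b * κ ^ (1 / 2 + δ) * (b * κ ^ (1 / 2 + δ)) = b ^ 2 * κ ^ (1 + 2 * δ) := by
        have : κ ^ (1 + 2 * δ) = κ ^ (1 / 2 + δ) * κ ^ (1 / 2 + δ) := by
          rw [← Real.rpow_add hκ0]
          congr 1
          ring
        rw [this]
        ring
      rw [← e]
      exact this
    have q2 : 1 + log t ≤ (1 + 1 / η) * t ^ η := by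
      have r1 : log t ≤ t ^ η / η := Real.log_le_rpow_div ht0.le hη0
      have r2 : 1 ≤ t ^ η := Real.one_le_rpow ht1 hη0.le
      have e : (1 + 1 / η) * t ^ η = t ^ η + t ^ η / η := by
        field_simp
      rw [e]
      linarith
    have q3 : kap (a k) (a (k + 1)) ≤ (1 + 1 / η) * t ^ (-(1 - η)) := by
      unfold kap
      rw [← ht, div_le_iff₀ ht0]
      have e : t ^ (-(1 - η)) * t = t ^ η := by
        have : t ^ (-(1 - η)) * t ^ (1:ℝ) = t ^ η := by
          rw [← Real.rpow_add ht0]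
          congr 1
          ring
        rwa [Real.rpow_one] at this
      rw [mul_assoc, e]
      exact q2
    have q4 : t ^ (-(1 - η)) ≤ (b ^ 2 * κ ^ (1 + 2 * δ)) ^ (-(1 - η)) :=
      Real.rpow_le_rpow_of_nonpos (by positivity) q1 (by linarith)
    have q5 : (b ^ 2 * κ ^ (1 + 2 * δ)) ^ (-(1 - η)) = (b ^ 2) ^ (-(1 - η)) * κ ^ (-(1 + δ)) := by
      rw [Real.mul_rpow (by positivity) (by positivity), ← Real.rpow_mul hκ0.le]
      congr 2
      linarith
    rw [q5] at q4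
    have q6 := mul_le_mul_of_nonneg_left q4 (by positivity : 0 ≤ 1 + 1 / η)
    have q7 : (1 + 1 / η) * ((b ^ 2) ^ (-(1 - η)) * κ ^ (-(1 + δ))) = C₁ * κ ^ (-(1 + δ)) := by
      rw [hC₁]
      ring
    have q8 : 0 ≤ C₂ * κ ^ (-(1 + δ)) := by positivity
    linarith

theorem Pow.inc {a : ℕ → ℝ} (h : Pow a) : Inc2 a := by
  obtain ⟨δ, C, hδ0, hδ1, hC, hev⟩ := h.core
  have hinf : Tendsto (fun k => |a k|) atTop atTop := by
    obtain ⟨c, δ', hc, hδ', hev'⟩ := h
    apply tendsto_atTop_mono' _ hev'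
    apply Tendsto.const_mul_atTop hc
    exact (tendsto_rpow_atTop (by linarith : 0 < 1 / 2 + δ')).comp tendsto_natCast_atTop_atTop
  refine ⟨?_, hinf⟩
  obtain ⟨m, hm⟩ := eventually_atTop.1 hev
  rw [← summable_nat_add_iff m]
  have h0 : Summable fun k : ℕ => C * (1 / ((k : ℝ) + 1) ^ (1 + δ)) := by
    apply Summable.mul_left
    have h1 := (Real.summable_one_div_nat_rpow (p := 1 + δ)).2 (by linarith)
    have h2 := (summable_nat_add_iff 1).2 h1
    refine h2.congr fun k => ?_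
    push_cast
    rfl
  refine Summable.of_nonneg_of_le (fun k => kap_nonneg (hm _ (by omega)).1 (hm _ (by omega)).1)
    (fun k => (hm (k + m) (by omega)).2.2) ?_
  refine ((summable_nat_add_iff m).2 h0).congr fun k => ?_
  rw [Real.rpow_neg (by positivity), one_div]

/-- the rate, uniformly in the number of maps -/
theorem Pow.rate {a : ℕ → ℝ} (h : Pow a) : ∃ η C : ℝ, 0 < η ∧ η ≤ 1 / 2 ∧ 0 < C ∧
    ∃ m₀ : ℕ, ∀ i, m₀ ≤ i → (∀ k, 1 ≤ |sh a i k|) ∧
      ∀ n, rate (sh a i) n ≤ C * ((i : ℝ) + 1) ^ (-η) := by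
  obtain ⟨δ, C, hδ0, hδ1, hC, hev⟩ := h.core
  obtain ⟨m, hm⟩ := eventually_atTop.1 hev
  have hsum : Summable fun k : ℕ => ((k : ℝ) + 1) ^ (-(1 + δ / 2)) := by
    have h1 := (Real.summable_one_div_nat_rpow (p := 1 + δ / 2)).2 (by linarith)
    have h2 := (summable_nat_add_iff 1).2 h1
    refine h2.congr fun k => ?_
    rw [Real.rpow_neg (by positivity), one_div]
    push_cast
    rfl
  set T := ∑' k : ℕ, ((k : ℝ) + 1) ^ (-(1 + δ / 2)) with hT
  have hT0 : 0 ≤ T := tsum_nonneg fun k => by positivity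
  refine ⟨δ / 4, √(C * T) + 2 * C, by linarith, by linarith, by positivity, m, fun i hi => ?_⟩
  refine ⟨fun k => (hm (i + k) (by omega)).1, fun n => ?_⟩
  set κ : ℝ := (i : ℝ) + 1 with hκ
  have hκ1 : 1 ≤ κ := by
    have : (0:ℝ) ≤ (i : ℝ) := Nat.cast_nonneg _
    linarith
  have hκ0 : 0 < κ := by linarith
  have hmono : ∀ k : ℕ, κ ≤ ((i + k : ℕ) : ℝ) + 1 := by
    intro k
    rw [hκ]
    push_cast
    have : (0:ℝ) ≤ (k : ℝ) := Nat.cast_nonneg _
    linarith
  have q1 : ∀ k, 1 / √|sh a i k| ≤ C * κ ^ (-(δ / 4)) := by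
    intro k
    refine ((hm (i + k) (by omega)).2.1).trans ?_
    apply mul_le_mul_of_nonneg_left _ hC.le
    exact Real.rpow_le_rpow_of_nonpos hκ0 (hmono k) (by linarith)
  have q2 : ∑ j ∈ Finset.range (n - 1), kap (sh a i j) (sh a i (j + 1)) ≤
      C * T * κ ^ (-(δ / 2)) := by
    have r1 : ∀ j ∈ Finset.range (n - 1), kap (sh a i j) (sh a i (j + 1)) ≤
        C * κ ^ (-(δ / 2)) * (((j : ℕ) : ℝ) + 1) ^ (-(1 + δ / 2)) := by
      intro j _
      have r2 := (hm (i + j) (by omega)).2.2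
      have e : kap (sh a i j) (sh a i (j + 1)) = kap (a (i + j)) (a (i + j + 1)) := by
        unfold sh
        congr 2
      rw [e]
      refine r2.trans ?_
      rw [mul_assoc]
      apply mul_le_mul_of_nonneg_left _ hC.le
      set μ : ℝ := ((i + j : ℕ) : ℝ) + 1 with hμ
      have hμ0 : 0 < μ := by positivity
      have e2 : μ ^ (-(1 + δ)) = μ ^ (-(δ / 2)) * μ ^ (-(1 + δ / 2)) := by
        rw [← Real.rpow_add hμ0]
        congr 1
        ring
      rw [e2]
      apply mul_le_mul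
      · exact Real.rpow_le_rpow_of_nonpos hκ0 (hmono j) (by linarith)
      · apply Real.rpow_le_rpow_of_nonpos (by positivity) _ (by linarith)
        rw [hμ]
        push_cast
        have : (0:ℝ) ≤ (i : ℝ) := Nat.cast_nonneg _
        linarith
      · positivity
      · positivity
    refine (Finset.sum_le_sum r1).trans ?_
    rw [← Finset.mul_sum]
    have r3 := hsum.sum_le_tsum (Finset.range (n - 1)) (fun k _ => by positivity)
    have r4 := mul_le_mul_of_nonneg_left r3 (by positivity : 0 ≤ C * κ ^ (-(δ / 2)))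
    rw [← hT] at r4
    linarith
  have q3 : √(∑ j ∈ Finset.range (n - 1), kap (sh a i j) (sh a i (j + 1))) ≤
      √(C * T) * κ ^ (-(δ / 4)) := by
    refine (Real.sqrt_le_sqrt q2).trans (le_of_eq ?_)
    rw [Real.sqrt_mul (by positivity)]
    congr 1
    rw [Real.sqrt_eq_rpow, ← Real.rpow_mul hκ0.le]
    congr 1
    ring
  unfold STD.rate
  have := q1 (n - 1)
  have := q1 (n - 2)
  linarith

/-- the covariances -/
theorem Pow.cov {a : ℕ → ℝ} (ha : Pow a) {f h : UnitAddCircle → ℝ} (hf : Sm1 f) (hh : Sm1 h) :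
    ∃ η C : ℝ, 0 < η ∧ η ≤ 1 / 2 ∧ 0 < C ∧ ∀ i d : ℕ, 2 ≤ d →
      |∫ p, GG a (fun p : T2 => f p.1 * h p.2) (i + d) p * GG a (fun p : T2 => f p.1 * h p.2) i p| ≤
        C * ((i : ℝ) + 1) ^ (-η) := by
  obtain ⟨η, C, hη0, hη1, hC, m, hm⟩ := ha.rate
  obtain ⟨K, hK0, hK⟩ := sq_est
  obtain ⟨M, hM0, hM⟩ := deriv_bdd hh
  have hg := smo_prod hf hh
  obtain ⟨N, hN0, hN⟩ := lw_bdd hg
  have hg1 : ∀ p : T2, |f p.1 * h p.2| ≤ 1 := by
    intro p
    rw [abs_mul]
    exact mul_le_one₀ (hf.bound _) (abs_nonneg _) (hh.bound _)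
  have hu : MemLp (fun p : T2 => f p.1 * h p.2) 2 volume :=
    (hg.cont.memLp_top_of_hasCompactSupport (HasCompactSupport.of_compactSpace _) volume).mono_exponent
      le_top
  obtain ⟨D, hD0, hD⟩ := GG_bound (a := a) hu
  refine ⟨η, K * (1 + M + N) * C + (D + 1) * ((m : ℝ) + 1) ^ η, hη0, hη1, by positivity, ?_⟩
  intro i d hd
  have hi0 : (0:ℝ) ≤ (i : ℝ) := Nat.cast_nonneg _
  have hm0 : (0:ℝ) ≤ (m : ℝ) := Nat.cast_nonneg _
  have hpos : 0 < ((i : ℝ) + 1) ^ (-η) := Real.rpow_pos_of_pos (by linarith) _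
  rcases Nat.lt_or_ge i m with him | him
  · have h1 := hD (i + d) i
    have him' : (i : ℝ) + 1 ≤ (m : ℝ) + 1 := by
      have : (i : ℝ) ≤ m := by exact_mod_cast him.le
      linarith
    have h2 : 1 ≤ ((m : ℝ) + 1) ^ η * ((i : ℝ) + 1) ^ (-η) := by
      rw [Real.rpow_neg (by linarith), ← div_eq_mul_inv, one_le_div (by positivity)]
      exact Real.rpow_le_rpow (by linarith) him' hη0.le
    have h3 : D ≤ (D + 1) * (((m : ℝ) + 1) ^ η * ((i : ℝ) + 1) ^ (-η)) := by nlinarith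
    have h4 : 0 ≤ K * (1 + M + N) * C * ((i : ℝ) + 1) ^ (-η) := by positivity
    linarith
  · obtain ⟨q1, q2⟩ := hm i him
    rw [GG_corr hu]
    have h1 := hK (sh a i) d hd (fun j _ => q1 j) f h hf hh M N hM0 hN0 hM _ hg hg1 hN
    have e1 : ∫ p : T2, f p.1 * h p.2 = (∫ x, f x) * ∫ x, h x := integral_prod_mul f h
    have e2 : ∫ p : T2, (fun p : T2 => f p.1 * h p.2) (cs (sh a i) d p) *
        (fun p : T2 => f p.1 * h p.2) p =
        ∫ p : T2, f (cs (sh a i) d p).1 * h (cs (sh a i) d p).2 * (f p.1 * h p.2) := rfl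
    rw [e2, e1]
    rw [e1] at h1
    refine h1.trans ?_
    have h2 : (1 / 2 : ℝ) ^ d ≤ 1 := pow_le_one₀ (by norm_num) (by norm_num)
    have h3 : K * (1 + M + N * (1 / 2) ^ d) ≤ K * (1 + M + N) := by
      apply mul_le_mul_of_nonneg_left _ hK0
      nlinarith
    have h4 := mul_le_mul h3 (q2 d) (rate_nonneg _ _) (by positivity)
    have h5 : 0 ≤ (D + 1) * ((m : ℝ) + 1) ^ η * ((i : ℝ) + 1) ^ (-η) := by positivity
    linarith

/-- second moments of the averages -/
theorem Pow.second {a : ℕ → ℝ} (ha : Pow a) {f h : UnitAddCircle → ℝ} (hf : Sm1 f) (hh : Sm1 h) :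
    ∃ η C : ℝ, 0 < η ∧ 0 < C ∧ ∀ n : ℕ,
      ∫ p, (∑ i ∈ Finset.range n, GG a (fun p : T2 => f p.1 * h p.2) i p) ^ 2 ≤
        C * (n : ℝ) ^ (2 - η) := by
  obtain ⟨η, C, hη0, hη1, hC, hcov⟩ := ha.cov hf hh
  have hg := smo_prod hf hh
  have hu : MemLp (fun p : T2 => f p.1 * h p.2) 2 volume :=
    (hg.cont.memLp_top_of_hasCompactSupport (HasCompactSupport.of_compactSpace _) volume).mono_exponent
      le_top
  obtain ⟨D, hD0, hD⟩ := GG_bound (a := a) hu
  set u : T2 → ℝ := fun p : T2 => f p.1 * h p.2 with hu'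
  refine ⟨η, 4 * C + 4 * D, hη0, by positivity, fun n => ?_⟩
  rcases Nat.eq_zero_or_pos n with hn | hn
  · subst hn
    simp only [Finset.range_zero, Finset.sum_empty]
    simp
    positivity
  have hn1 : (1:ℝ) ≤ n := by exact_mod_cast hn
  have hn0 : (0:ℝ) < n := by linarith
  have e1 : ∀ p, (∑ i ∈ Finset.range n, GG a u i p) ^ 2 =
      ∑ i ∈ Finset.range n, ∑ j ∈ Finset.range n, GG a u i p * GG a u j p := by
    intro p
    rw [← Finset.sum_mul_sum, ← sq]
  simp_rw [e1]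
  have hint : ∀ i j, Integrable (fun p => GG a u i p * GG a u j p) := fun i j =>
    (GG_memLp hu i).integrable_mul (GG_memLp hu j)
  rw [integral_finsetSum _ (fun i _ => integrable_finsetSum _ fun j _ => hint i j)]
  have e2 : ∀ i ∈ Finset.range n, ∫ p, ∑ j ∈ Finset.range n, GG a u i p * GG a u j p =
      ∑ j ∈ Finset.range n, ∫ p, GG a u i p * GG a u j p := fun i _ =>
    integral_finsetSum _ (fun j _ => hint i j)
  rw [Finset.sum_congr rfl e2]
  set r : ℕ → ℝ := fun i => ((i : ℝ) + 1) ^ (-η) with hr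
  have hr0 : ∀ i, 0 < r i := fun i => Real.rpow_pos_of_pos (by positivity) _
  have hfar : ∀ i j, ¬ (i < j + 2 ∧ j < i + 2) →
      |∫ p, GG a u i p * GG a u j p| ≤ C * (r i + r j) := by
    intro i j hij
    have hri := hr0 i
    have hrj := hr0 j
    rcases le_total i j with h | h
    · obtain ⟨d, rfl⟩ := Nat.exists_eq_add_of_le h
      have hd : 2 ≤ d := by
        by_contra hcon
        apply hij
        omega
      have e : ∫ p, GG a u i p * GG a u (i + d) p = ∫ p, GG a u (i + d) p * GG a u i p := by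
        congr 1
        funext p
        ring
      rw [e]
      have h1 := hcov i d hd
      have h2 : 0 ≤ C * r (i + d) := by positivity
      have e3 : C * ((i : ℝ) + 1) ^ (-η) = C * r i := rfl
      rw [e3] at h1
      linarith
    · obtain ⟨d, rfl⟩ := Nat.exists_eq_add_of_le h
      have hd : 2 ≤ d := by
        by_contra hcon
        apply hij
        omega
      have h1 := hcov j d hd
      have h2 : 0 ≤ C * r (j + d) := by positivity
      have e3 : C * ((j : ℝ) + 1) ^ (-η) = C * r j := rfl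
      rw [e3] at h1
      linarith
  have h4 : ∀ i ∈ Finset.range n, ∑ j ∈ Finset.range n, ∫ p, GG a u i p * GG a u j p ≤
      n * (C * r i) + C * (∑ j ∈ Finset.range n, r j) + 4 * D := by
    intro i _
    have h5 : ∀ j ∈ Finset.range n, ∫ p, GG a u i p * GG a u j p ≤
        (C * r i + C * r j) + (if i < j + 2 ∧ j < i + 2 then D else 0) := by
      intro j _
      have hri := hr0 i
      have hrj := hr0 j
      split_ifs with hc
      · have := (le_abs_self _).trans (hD i j)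
        have h6 : 0 ≤ C * r i := by positivity
        have h7 : 0 ≤ C * r j := by positivity
        linarith
      · have := (le_abs_self _).trans (hfar i j hc)
        linarith
    refine (Finset.sum_le_sum h5).trans ?_
    rw [Finset.sum_add_distrib, Finset.sum_add_distrib, Finset.sum_const, Finset.card_range,
      nsmul_eq_mul, ← Finset.sum_filter, Finset.sum_const, nsmul_eq_mul, ← Finset.mul_sum]
    have h6 : (((Finset.range n).filter fun j => i < j + 2 ∧ j < i + 2).card : ℝ) ≤ 4 := by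
      have := near_card n 2 i
      exact_mod_cast this
    have h7 := mul_le_mul_of_nonneg_right h6 hD0
    linarith
  have h8 := Finset.sum_le_sum h4
  rw [Finset.sum_add_distrib, Finset.sum_add_distrib, Finset.sum_const, Finset.sum_const,
    Finset.card_range, nsmul_eq_mul, nsmul_eq_mul, ← Finset.mul_sum, ← Finset.mul_sum] at h8
  refine h8.trans ?_
  have h9 := sum_rpow hη0 hη1 n
  have e3 : ∑ i ∈ Finset.range n, ((i : ℝ) + 1) ^ (-η) = ∑ i ∈ Finset.range n, r i := rfl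
  rw [e3] at h9
  set R := ∑ i ∈ Finset.range n, r i with hR
  have e4 : (n : ℝ) ^ (2 - η) = n * (n : ℝ) ^ (1 - η) := by
    have : (n : ℝ) ^ (2 - η) = (n : ℝ) ^ (1:ℝ) * (n : ℝ) ^ (1 - η) := by
      rw [← Real.rpow_add hn0]
      congr 1
      ring
    rwa [Real.rpow_one] at this
  have h10 : 1 ≤ (n : ℝ) ^ (1 - η) := Real.one_le_rpow hn1 (by linarith)
  rw [e4]
  have h11 : (n : ℝ) * (C * R) ≤ n * (C * (2 * (n : ℝ) ^ (1 - η))) :=
    mul_le_mul_of_nonneg_left (mul_le_mul_of_nonneg_left h9 hC.le) hn0.le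
  have h12 : (n : ℝ) * (4 * D) ≤ n * (4 * D) * (n : ℝ) ^ (1 - η) :=
    le_mul_of_one_le_right (by positivity) h10
  nlinarith

end Pool.Agent.H52.STD
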