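import Mathlib
import Pool.Agent.H52.STD.Sq9

set_option autoImplicit false

/-!
# Almost every orbit is equidistributed: all continuous observables
-/

namespace Pool.Agent.H52.STD

open Real MeasureTheory Function Filter Topology

/-- the averages along the orbit -/
noncomputable def av (a : ℕ → ℝ) (p : T2) (F : T2 → ℝ) (n : ℕ) : ℝ :=
  1 / (n : ℝ) * ∑ k ∈ Finset.range n, F (cs a k p)

/-- products -/
theorem equi_prod {a : ℕ → ℝ} (ha : Pow a) {f h : UnitAddCircle → ℝ} (hf : Sm1 f) (hh : Sm1 h) :
    ∀ᵐ p : T2, Tendsto (av a p fun q : T2 => f q.1 * h q.2) atTop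
      (𝓝 (∫ q : T2, f q.1 * h q.2)) := by
  obtain ⟨η, C, hη0, hC, hsec⟩ := ha.second hf hh
  set u : T2 → ℝ := fun p : T2 => f p.1 * h p.2 with hu
  have huc : Continuous u := (smo_prod hf hh).cont
  have hu1 : ∀ p, |u p| ≤ 1 := by
    intro p
    rw [hu]
    simp only
    rw [abs_mul]
    exact mul_le_one₀ (hf.bound _) (abs_nonneg _) (hh.bound _)
  set ub := ∫ q, u q with hub
  have hub1 : |ub| ≤ 1 := by
    have q := norm_integral_le_of_norm_le_const (μ := (volume : Measure T2)) (f := u) (C := 1)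
      (Filter.Eventually.of_forall fun p => by rw [norm_eq_abs]; exact hu1 p)
    rw [norm_eq_abs] at q
    simpa using q
  have hGc : ∀ k, Continuous (GG a u k) := fun k => (huc.comp (cs_cont a k)).sub continuous_const
  have hG1 : ∀ k p, |GG a u k p| ≤ 2 := by
    intro k p
    unfold GG
    have := abs_sub (u (cs a k p)) (∫ q, u q)
    have := hu1 (cs a k p)
    linarith
  have hs := ae_sum (F := fun n p => 1 / ((n : ℝ) + 1) *
      (1 / ((n : ℝ) + 1) * ∑ k ∈ Finset.range (n + 1), GG a u k p) ^ 2)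
    (fun n => continuous_const.mul ((continuous_const.mul
      (continuous_finsetSum _ fun k _ => hGc k)).pow 2))
    (fun n p => by positivity)
    (b := fun n : ℕ => C * (1 / ((n : ℝ) + 1) ^ (1 + η)))
    (fun n => by
      have h1 := hsec (n + 1)
      have e1 : ∀ p, 1 / ((n : ℝ) + 1) *
          (1 / ((n : ℝ) + 1) * ∑ k ∈ Finset.range (n + 1), GG a u k p) ^ 2 =
          (1 / ((n : ℝ) + 1)) ^ 3 * (∑ k ∈ Finset.range (n + 1), GG a u k p) ^ 2 := by
        intro p
        ring
      simp_rw [e1]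
      rw [integral_const_mul]
      have hκ0 : (0:ℝ) < (n : ℝ) + 1 := by positivity
      push_cast at h1
      refine (mul_le_mul_of_nonneg_left h1 (by positivity)).trans (le_of_eq ?_)
      have e2 : ((n : ℝ) + 1) ^ (2 - η) = ((n : ℝ) + 1) ^ (3:ℕ) / ((n : ℝ) + 1) ^ (1 + η) := by
        rw [← Real.rpow_natCast, ← Real.rpow_sub hκ0]
        congr 1
        push_cast
        ring
      rw [e2]
      field_simp)
    (by
      apply Summable.mul_left
      have h1 := (Real.summable_one_div_nat_rpow (p := 1 + η)).2 (by linarith)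
      have h2 := (summable_nat_add_iff 1).2 h1
      refine h2.congr fun k => ?_
      push_cast
      rfl)
  filter_upwards [hs] with p hp
  have h1 := slow (x := fun k => GG a u k p) (B := 2) (by norm_num) (fun k => hG1 k p) hp
  have h2 : Tendsto (fun n : ℕ => av a p u (n + 1)) atTop (𝓝 ub) := by
    have e : (fun n : ℕ => av a p u (n + 1)) = fun n : ℕ =>
        1 / ((n : ℝ) + 1) * (∑ k ∈ Finset.range (n + 1), GG a u k p) + ub := by
      funext n
      unfold av GG
      rw [Finset.sum_sub_distrib, Finset.sum_const, Finset.card_range, nsmul_eq_mul, ← hub]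
      push_cast
      have : (0:ℝ) < (n : ℝ) + 1 := by positivity
      field_simp
      ring
    rw [e]
    have := h1.add_const ub
    rwa [zero_add] at this
  exact (tendsto_add_atTop_iff_nat 1).1 h2

/-- the averages converge -/
def Cv (a : ℕ → ℝ) (p : T2) (F : C(T2, ℝ)) : Prop :=
  Tendsto (av a p F) atTop (𝓝 (∫ q, F q))

theorem int_C (F : C(T2, ℝ)) : Integrable (fun q => F q) (volume : Measure T2) :=
  Pool.Agent.TH705.SM.integrable_cont F.continuous

theorem Cv.add {a : ℕ → ℝ} {p : T2} {F G : C(T2, ℝ)} (hF : Cv a p F) (hG : Cv a p G) :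
    Cv a p (F + G) := by
  unfold Cv at *
  have e1 : av a p ⇑(F + G) = fun n => av a p F n + av a p G n := by
    funext n
    unfold av
    simp only [ContinuousMap.add_apply]
    rw [Finset.sum_add_distrib]
    ring
  have e2 : ∫ q, (F + G) q = (∫ q, F q) + ∫ q, G q := by
    simp only [ContinuousMap.add_apply]
    exact integral_add (int_C F) (int_C G)
  rw [e1, e2]
  exact hF.add hG

theorem Cv.smul {a : ℕ → ℝ} {p : T2} {F : C(T2, ℝ)} (c : ℝ) (hF : Cv a p F) :
    Cv a p (c • F) := by
  unfold Cv at *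
  have e1 : av a p ⇑(c • F) = fun n => c * av a p F n := by
    funext n
    unfold av
    simp only [ContinuousMap.smul_apply, smul_eq_mul]
    rw [← Finset.mul_sum]
    ring
  have e2 : ∫ q, (c • F) q = c * ∫ q, F q := by
    simp only [ContinuousMap.smul_apply, smul_eq_mul]
    exact integral_const_mul c _
  rw [e1, e2]
  exact hF.const_mul c

theorem Cv.zero (a : ℕ → ℝ) (p : T2) : Cv a p 0 := by
  unfold Cv
  have e1 : av a p ⇑(0 : C(T2, ℝ)) = fun _ => 0 := by
    funext n
    unfold av
    simp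
  have e2 : ∫ q, (0 : C(T2, ℝ)) q = 0 := by simp
  rw [e1, e2]
  exact tendsto_const_nhds

theorem equi_span {a : ℕ → ℝ} (ha : Pow a) {F : C(T2, ℝ)}
    (h : F ∈ Submodule.span ℝ (prods : Set C(T2, ℝ))) : ∀ᵐ p : T2, Cv a p F := by
  induction h using Submodule.span_induction with
  | mem F hF =>
    obtain ⟨f, g, hf, hg, e⟩ := hF
    have h1 := equi_prod ha hf hg
    have e1 : (F : T2 → ℝ) = fun q : T2 => f q.1 * g q.2 := funext e
    filter_upwards [h1] with p hp
    unfold Cv
    rw [e1]
    exact hp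
  | zero => exact Filter.Eventually.of_forall fun p => Cv.zero a p
  | add F G _ _ hF hG =>
    filter_upwards [hF, hG] with p h1 h2
    exact Cv.add h1 h2
  | smul c F _ hF =>
    filter_upwards [hF] with p h1
    exact Cv.smul c h1

theorem equi_alg {a : ℕ → ℝ} (ha : Pow a) {F : C(T2, ℝ)} (hF : F ∈ alg) :
    ∀ᵐ p : T2, Cv a p F := by
  apply equi_span ha
  rw [← alg_eq]
  exact hF

/-- **almost every orbit is equidistributed** -/
theorem equi_ae {a : ℕ → ℝ} (ha : Pow a) : ∀ᵐ p : T2, ∀ F : C(T2, ℝ), Cv a p F := by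
  obtain ⟨s, hs1, hs2, hs3⟩ := alg_dense.exists_countable_dense_subset
  have h1 : ∀ᵐ p : T2, ∀ F ∈ s, Cv a p F :=
    (ae_ball_iff hs2).2 fun F hF => equi_alg ha (hs1 hF)
  filter_upwards [h1] with p hp F
  unfold Cv
  rw [Metric.tendsto_nhds]
  intro ε hε
  obtain ⟨G, hG1, hG2⟩ := Metric.dense_iff.1 hs3 F (ε / 3) (by positivity)
  have h2 := hp G hG2
  unfold Cv at h2
  rw [Metric.tendsto_nhds] at h2
  have hFG : ∀ q, |F q - G q| ≤ ε / 3 := by
    intro q
    have h3 := ContinuousMap.dist_apply_le_dist (f := G) (g := F) q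
    rw [Metric.mem_ball] at hG1
    rw [Real.dist_eq, abs_sub_comm] at h3
    linarith
  filter_upwards [h2 (ε / 3) (by positivity), eventually_ge_atTop 1] with n hn hn1
  rw [Real.dist_eq] at hn ⊢
  have hn0 : (0:ℝ) < n := by exact_mod_cast hn1
  have h4 : |av a p F n - av a p G n| ≤ ε / 3 := by
    unfold av
    rw [← mul_sub, ← Finset.sum_sub_distrib, abs_mul, abs_of_pos (by positivity : 0 < 1 / (n:ℝ))]
    have h5 : |∑ k ∈ Finset.range n, (F (cs a k p) - G (cs a k p))| ≤ n * (ε / 3) := by
      refine (Finset.abs_sum_le_sum_abs _ _).trans ?_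
      refine (Finset.sum_le_sum fun k _ => hFG _).trans ?_
      rw [Finset.sum_const, Finset.card_range, nsmul_eq_mul]
    calc 1 / (n : ℝ) * |∑ k ∈ Finset.range n, (F (cs a k p) - G (cs a k p))| ≤
          1 / (n : ℝ) * (n * (ε / 3)) := mul_le_mul_of_nonneg_left h5 (by positivity)
      _ = ε / 3 := by field_simp
  have h6 : |(∫ q, G q) - ∫ q, F q| ≤ ε / 3 := by
    rw [← integral_sub (int_C G) (int_C F)]
    have q := norm_integral_le_of_norm_le_const (μ := (volume : Measure T2))
      (f := fun q => G q - F q) (C := ε / 3)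
      (Filter.Eventually.of_forall fun p => by
        rw [norm_eq_abs, abs_sub_comm]
        exact hFG p)
    rw [norm_eq_abs] at q
    simpa using q
  have e : av a p F n - ∫ q, F q = (av a p F n - av a p G n) + (av a p G n - ∫ q, G q) +
      ((∫ q, G q) - ∫ q, F q) := by ring
  rw [e]
  have h7 := abs_add_le ((av a p F n - av a p G n) + (av a p G n - ∫ q, G q))
    ((∫ q, G q) - ∫ q, F q)
  have h8 := abs_add_le (av a p F n - av a p G n) (av a p G n - ∫ q, G q)
  linarith

end Pool.Agent.H52.STD
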