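import Mathlib
import Pool.Agent.H52.STD.Sq7

set_option autoImplicit false

/-!
# One standard map: correlations up to times `o(a² / log |a|)`
-/

namespace Pool.Agent.H52.STD

open Real MeasureTheory Function Filter Topology

/-- the rate for one map -/
noncomputable def om (a : ℝ) (n : ℕ) : ℝ := √(n * (1 + log |a|)) / |a| + 1 / √|a|

theorem om_nonneg {a : ℝ} (n : ℕ) : 0 ≤ om a n := by
  unfold om
  positivity

theorem rate_const {a : ℝ} (ha : 1 ≤ |a|) (n : ℕ) : rate (fun _ => a) n ≤ 2 * om a n := by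
  have ha0 : 0 < |a| := by linarith
  have hl : 0 ≤ log |a| := log_nonneg ha
  unfold rate om
  rw [Finset.sum_const, Finset.card_range, nsmul_eq_mul]
  have h1 : ((n - 1 : ℕ) : ℝ) * kap a a ≤ 4 * (n * (1 + log |a|)) / |a| ^ 2 := by
    unfold kap
    rw [log_mul ha0.ne' ha0.ne']
    have q1 : ((n - 1 : ℕ) : ℝ) ≤ n := by
      have : n - 1 ≤ n := Nat.sub_le _ _
      exact_mod_cast this
    have q2 : ((n - 1 : ℕ) : ℝ) * ((1 + (log |a| + log |a|)) / (|a| * |a|)) ≤
        n * ((1 + (log |a| + log |a|)) / (|a| * |a|)) :=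
      mul_le_mul_of_nonneg_right q1 (by positivity)
    refine q2.trans ?_
    rw [sq, ← mul_div_assoc]
    apply div_le_div_of_nonneg_right _ (by positivity)
    have : (0:ℝ) ≤ n := Nat.cast_nonneg _
    nlinarith [mul_nonneg this hl]
  have h2 : √(((n - 1 : ℕ) : ℝ) * kap a a) ≤ 2 * (√(n * (1 + log |a|)) / |a|) := by
    refine (Real.sqrt_le_sqrt h1).trans (le_of_eq ?_)
    rw [Real.sqrt_div' _ (by positivity), Real.sqrt_sq ha0.le, Real.sqrt_mul (by norm_num)]
    have : √(4:ℝ) = 2 := by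
      rw [show (4:ℝ) = 2 ^ 2 by norm_num]
      exact Real.sqrt_sq (by norm_num)
    rw [this]
    ring
  linarith

theorem cs_const (a : ℝ) (n : ℕ) : cs (fun _ => a) n = (Pool.Agent.TH705.SM.S a)^[n] := by
  induction n with
  | zero => rfl
  | succ n ih =>
    funext p
    rw [Function.iterate_succ_apply', ← ih]
    rfl

theorem one_est : ∃ K : ℝ, 0 ≤ K ∧ ∀ (a : ℝ) (n : ℕ), 1 ≤ |a| → 2 ≤ n →
    ∀ f h : UnitAddCircle → ℝ, Sm1 f → Sm1 h → ∀ M N : ℝ, 0 ≤ M → 0 ≤ N →
    (∀ x, |deriv (fun t : ℝ => h (t : UnitAddCircle)) x| ≤ M) →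
    ∀ g : T2 → ℝ, Smo g → (∀ p, |g p| ≤ 1) → (∀ y t, |lw g y t| ≤ N) →
    |(∫ p : T2, f (cs (fun _ => a) n p).1 * h (cs (fun _ => a) n p).2 * g p) -
      (∫ x, f x) * (∫ x, h x) * ∫ p, g p| ≤ K * (1 + M + N) * om a n := by
  obtain ⟨K, hK0, hK⟩ := sq_est
  refine ⟨2 * K, by positivity, ?_⟩
  intro a n ha hn f h hf hh M N hM hN hhM g hg hg1 hgN
  have key := hK (fun _ => a) n hn (fun _ _ => ha) f h hf hh M N hM hN hhM g hg hg1 hgN
  refine key.trans ?_
  have h1 := rate_const ha n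
  have h2 : (1 / 2 : ℝ) ^ n ≤ 1 := pow_le_one₀ (by norm_num) (by norm_num)
  have h3 : K * (1 + M + N * (1 / 2) ^ n) ≤ K * (1 + M + N) := by
    apply mul_le_mul_of_nonneg_left _ hK0
    have := mul_le_mul_of_nonneg_left h2 hN
    linarith
  have h4 := mul_le_mul h3 h1 (rate_nonneg _ _) (by positivity)
  linarith

/-- the filter of the pairs of a parameter and a time for which the rate is small -/
noncomputable def fil : Filter (ℝ × ℕ) :=
  comap (fun i => om i.1 i.2) (𝓝 0) ⊓ 𝓟 {i | 1 ≤ |i.1| ∧ 2 ≤ i.2}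

theorem one_mix {u v : T2 → ℝ} (hu : MemLp u 2 volume) (hv : MemLp v 2 volume) :
    Tendsto (fun i : ℝ × ℕ => ∫ p : T2, u (cs (fun _ => i.1) i.2 p) * v p) fil
      (𝓝 ((∫ p, u p) * ∫ p, v p)) := by
  refine corr_all (ι := ℝ × ℕ) (τ := fun i => cs (fun _ => i.1) i.2)
    (fun i => cs_mp (fun _ => i.1) i.2) (𝓕 := fil) ?_ hu hv
  rintro f ⟨f1, f2, hf1, hf2, ef⟩ g ⟨g1, g2, hg1, hg2, eg⟩
  obtain ⟨K, hK0, hK⟩ := one_est
  obtain ⟨M, hM0, hM⟩ := deriv_bdd hf2
  obtain ⟨N, hN0, hN⟩ := lw_bdd (smo_prod hg1 hg2)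
  have hb : ∀ p : T2, |g1 p.1 * g2 p.2| ≤ 1 := by
    intro p
    rw [abs_mul]
    exact mul_le_one₀ (hg1.bound _) (abs_nonneg _) (hg2.bound _)
  have hom : Tendsto (fun i : ℝ × ℕ => K * (1 + M + N) * om i.1 i.2) fil (𝓝 0) := by
    have h1 : Tendsto (fun i : ℝ × ℕ => om i.1 i.2) fil (𝓝 0) :=
      (tendsto_comap).mono_left inf_le_left
    have h2 := h1.const_mul (K * (1 + M + N))
    rwa [mul_zero] at h2
  have hev : ∀ᶠ i : ℝ × ℕ in fil, 1 ≤ |i.1| ∧ 2 ≤ i.2 :=
    (mem_principal_self _ : {i : ℝ × ℕ | 1 ≤ |i.1| ∧ 2 ≤ i.2} ∈ 𝓟 _) |>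
      fun h => mem_inf_of_right h
  rw [tendsto_iff_norm_sub_tendsto_zero]
  refine squeeze_zero' (Filter.Eventually.of_forall fun i => norm_nonneg _) ?_ hom
  filter_upwards [hev] with i hi
  have h1 := hK i.1 i.2 hi.1 hi.2 f1 f2 hf1 hf2 M N hM0 hN0 hM _ (smo_prod hg1 hg2) hb hN
  rw [norm_eq_abs]
  have e1 : (∫ p : T2, f p) = (∫ x, f1 x) * ∫ x, f2 x := by
    simp_rw [ef]
    exact integral_prod_mul f1 f2
  rw [e1]
  simp_rw [ef, eg]
  exact h1

/-- the region of times is contained in the filter -/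
theorem om_small {κ : ℝ} (hκ : 0 < κ) : ∃ A δ : ℝ, 1 ≤ A ∧ 0 < δ ∧ ∀ (a : ℝ) (n : ℕ), A ≤ |a| →
    (n : ℝ) * log |a| ≤ δ * a ^ 2 → om a n < κ := by
  set δ := (κ / 4) ^ 2 with hδ
  have hδ0 : 0 < δ := by positivity
  set A := max (exp 1) (16 / κ ^ 2 + 1) with hA
  refine ⟨A, δ, ?_, hδ0, ?_⟩
  · have : (1:ℝ) ≤ exp 1 := by
      have := add_one_le_exp (1:ℝ)
      linarith
    exact this.trans (le_max_left _ _)
  · intro a n ha hn
    have h1 : exp 1 ≤ |a| := (le_max_left _ _).trans ha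
    have h2 : 16 / κ ^ 2 + 1 ≤ |a| := (le_max_right _ _).trans ha
    have ha0 : 0 < |a| := lt_of_lt_of_le (exp_pos 1) h1
    have hlog : 1 ≤ log |a| := by
      rw [le_log_iff_exp_le ha0]
      exact h1
    have hn0 : (0:ℝ) ≤ n := Nat.cast_nonneg _
    unfold om
    have q1 : √(n * (1 + log |a|)) / |a| ≤ κ / 2 * (3 / 4) := by
      have r1 : (n : ℝ) * (1 + log |a|) ≤ 2 * (δ * |a| ^ 2) := by
        rw [sq_abs]
        nlinarith
      have r2 : √(n * (1 + log |a|)) ≤ 3 / 2 * (κ / 4 * |a|) := by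
        apply Real.sqrt_le_iff.2
        refine ⟨by positivity, ?_⟩
        refine r1.trans ?_
        rw [hδ]
        have : 0 ≤ (κ / 4) ^ 2 * |a| ^ 2 := by positivity
        nlinarith
      rw [div_le_iff₀ ha0]
      linarith
    have q2 : 1 / √|a| ≤ κ / 4 := by
      have hs : 0 < √|a| := Real.sqrt_pos.2 ha0
      have r1 : 4 / κ ≤ √|a| := by
        apply Real.le_sqrt_of_sq_le
        have : (4 / κ) ^ 2 = 16 / κ ^ 2 := by
          rw [div_pow]
          norm_num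
        rw [this]
        linarith
      rw [div_le_iff₀ hs]
      rw [div_le_iff₀ hκ] at r1
      linarith
    linarith

/-- **mixing up to times `o(a² / log |a|)`** -/
theorem one_mixing {u v : T2 → ℝ} (hu : MemLp u 2 volume) (hv : MemLp v 2 volume) {ε : ℝ}
    (hε : 0 < ε) : ∃ A δ : ℝ, 1 ≤ A ∧ 0 < δ ∧ ∀ (a : ℝ) (n : ℕ), A ≤ |a| → 2 ≤ n →
      (n : ℝ) * log |a| ≤ δ * a ^ 2 →
      |(∫ p : T2, u (cs (fun _ => a) n p) * v p) - (∫ p, u p) * ∫ p, v p| ≤ ε := by
  have h := one_mix hu hv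
  rw [Metric.tendsto_nhds] at h
  have h1 := h ε hε
  unfold fil at h1
  rw [eventually_inf_principal, eventually_comap] at h1
  obtain ⟨κ, hκ, hκ'⟩ := Metric.eventually_nhds_iff.1 h1
  obtain ⟨A, δ, hA, hδ, hAδ⟩ := om_small hκ
  refine ⟨A, δ, hA, hδ, fun a n ha hn hnl => ?_⟩
  have h2 := hAδ a n ha hnl
  have h3 : dist (om a n) 0 < κ := by
    rw [Real.dist_eq, sub_zero, abs_of_nonneg (om_nonneg n)]
    exact h2
  have h4 := hκ' h3 (a, n) rfl ⟨hA.trans ha, hn⟩
  rw [Real.dist_eq] at h4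
  exact h4.le

/-- **the finite time mean ergodic theorem** -/
theorem one_lln {u : T2 → ℝ} (hu : MemLp u 2 volume) {ε : ℝ} (hε : 0 < ε) :
    ∃ (A δ : ℝ) (N : ℕ), 1 ≤ A ∧ 0 < δ ∧ ∀ (a : ℝ) (n : ℕ), A ≤ |a| → N ≤ n →
      (n : ℝ) * log |a| ≤ δ * a ^ 2 →
      ∫ p : T2, ((1 / (n : ℝ)) * ∑ k ∈ Finset.range n, u (cs (fun _ => a) k p) -
        ∫ q, u q) ^ 2 ≤ ε := by
  obtain ⟨A, δ, hA, hδ, hmix⟩ := one_mixing hu hu (ε := ε / 2) (by positivity)
  -- a bound for all covariances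
  set D : ℝ := 2 * ‖hu.toLp u‖ * ‖hu.toLp u‖ with hD
  have hD0 : 0 ≤ D := by positivity
  obtain ⟨N, hN⟩ := exists_nat_gt (8 * D / ε)
  refine ⟨A, δ, N + 1, hA, hδ, fun a n ha hn hnl => ?_⟩
  set b : ℕ → ℝ := fun _ => a with hb
  have hn1 : 1 ≤ n := by omega
  have hn0 : (0:ℝ) < n := by exact_mod_cast hn1
  have ha0 : 0 < |a| := by linarith
  have hlog : 0 ≤ log |a| := log_nonneg (hA.trans ha)
  have hsh : ∀ i, sh b i = b := fun i => rfl
  have key : ∀ i d, |∫ p, GG b u (i + d) p * GG b u i p| ≤ D := by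
    intro i d
    rw [GG_corr hu]
    have h1 := BB_eq (ι := Unit) (τ := fun _ => cs (sh b i) d) (fun _ => cs_mp (sh b i) d) () hu hu
    have h2 := BB_bound (ι := Unit) (τ := fun _ => cs (sh b i) d) (fun _ => cs_mp (sh b i) d) ()
      (hu.toLp u) (hu.toLp u)
    rwa [h1] at h2
  have hDD : ∀ i j, |∫ p, GG b u i p * GG b u j p| ≤ D := by
    intro i j
    rcases le_total i j with h | h
    · obtain ⟨d, rfl⟩ := Nat.exists_eq_add_of_le h
      have e : ∫ p, GG b u i p * GG b u (i + d) p = ∫ p, GG b u (i + d) p * GG b u i p := by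
        congr 1
        funext p
        ring
      rw [e]
      exact key i d
    · obtain ⟨d, rfl⟩ := Nat.exists_eq_add_of_le h
      exact key j d
  have hfar : ∀ i j, i < n → j < n → ¬ (i < j + 2 ∧ j < i + 2) →
      |∫ p, GG b u i p * GG b u j p| ≤ ε / 2 := by
    intro i j hin hjn hij
    have base : ∀ i d, i + d < n → 2 ≤ d → |∫ p, GG b u (i + d) p * GG b u i p| ≤ ε / 2 := by
      intro i d hid hd
      rw [GG_corr hu, hsh]
      apply hmix a d ha hd
      have : (d : ℝ) ≤ n := by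
        have : d ≤ n := by omega
        exact_mod_cast this
      have := mul_le_mul_of_nonneg_right this hlog
      linarith
    rcases le_total i j with h | h
    · obtain ⟨d, rfl⟩ := Nat.exists_eq_add_of_le h
      have hd : 2 ≤ d := by
        by_contra hcon
        apply hij
        omega
      have e : ∫ p, GG b u i p * GG b u (i + d) p = ∫ p, GG b u (i + d) p * GG b u i p := by
        congr 1
        funext p
        ring
      rw [e]
      exact base i d hjn hd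
    · obtain ⟨d, rfl⟩ := Nat.exists_eq_add_of_le h
      have hd : 2 ≤ d := by
        by_contra hcon
        apply hij
        omega
      exact base j d hin hd
  have hsq : ∫ p : T2, ((1 / (n : ℝ)) * ∑ k ∈ Finset.range n, u (cs b k p) -
      ∫ q, u q) ^ 2 = (1 / (n : ℝ)) ^ 2 * ∑ i ∈ Finset.range n, ∑ j ∈ Finset.range n,
        ∫ p, GG b u i p * GG b u j p := by
    have e1 : ∀ p, ((1 / (n : ℝ)) * ∑ k ∈ Finset.range n, u (cs b k p) - ∫ q, u q) ^ 2 =
        (1 / (n : ℝ)) ^ 2 * ∑ i ∈ Finset.range n, ∑ j ∈ Finset.range n,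
          GG b u i p * GG b u j p := by
      intro p
      rw [← Finset.sum_mul_sum, ← sq, ← mul_pow]
      congr 1
      unfold GG
      rw [Finset.sum_sub_distrib, Finset.sum_const, Finset.card_range, nsmul_eq_mul]
      field_simp
    simp_rw [e1]
    have hint : ∀ i j, Integrable (fun p => GG b u i p * GG b u j p) := fun i j =>
      (GG_memLp hu i).integrable_mul (GG_memLp hu j)
    rw [integral_const_mul, integral_finsetSum _ (fun i _ => integrable_finsetSum _
      fun j _ => hint i j)]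
    congr 1
    apply Finset.sum_congr rfl
    intro i _
    rw [integral_finsetSum _ (fun j _ => hint i j)]
  rw [hsq]
  have h4 : ∀ i ∈ Finset.range n, ∑ j ∈ Finset.range n, ∫ p, GG b u i p * GG b u j p ≤
      n * (ε / 2) + 4 * D := by
    intro i hi
    have h5 : ∀ j ∈ Finset.range n, ∫ p, GG b u i p * GG b u j p ≤
        ε / 2 + (if i < j + 2 ∧ j < i + 2 then D else 0) := by
      intro j hj
      split_ifs with hc
      · have := (le_abs_self _).trans (hDD i j)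
        linarith
      · have := (le_abs_self _).trans (hfar i j (Finset.mem_range.1 hi) (Finset.mem_range.1 hj) hc)
        linarith
    refine (Finset.sum_le_sum h5).trans ?_
    rw [Finset.sum_add_distrib, Finset.sum_const, Finset.card_range, nsmul_eq_mul,
      ← Finset.sum_filter, Finset.sum_const, nsmul_eq_mul]
    have h6 : (((Finset.range n).filter fun j => i < j + 2 ∧ j < i + 2).card : ℝ) ≤ 4 := by
      have := near_card n 2 i
      exact_mod_cast this
    have h7 := mul_le_mul_of_nonneg_right h6 hD0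
    linarith
  have h8 := Finset.sum_le_sum h4
  rw [Finset.sum_const, Finset.card_range, nsmul_eq_mul] at h8
  have hnN : (N : ℝ) < n := by exact_mod_cast hn
  have h9 : 4 * D / n ≤ ε / 2 := by
    rw [div_le_iff₀ hn0]
    rw [div_lt_iff₀ hε] at hN
    nlinarith
  calc (1 / (n : ℝ)) ^ 2 * ∑ i ∈ Finset.range n, ∑ j ∈ Finset.range n,
        ∫ p, GG b u i p * GG b u j p
      ≤ (1 / (n : ℝ)) ^ 2 * (n * (n * (ε / 2) + 4 * D)) :=
        mul_le_mul_of_nonneg_left h8 (by positivity)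
    _ = ε / 2 + 4 * D / n := by field_simp
    _ ≤ ε := by linarith

end Pool.Agent.H52.STD
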