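import Mathlib
import Pool.Agent.H52.STD.Sq7

set_option autoImplicit false

/-!
# Functions on the torus with their two derivatives; integration by parts along a chain against
the derivative of a function of the last two positions
-/

namespace Pool.Agent.H52.STD

open Real MeasureTheory Function Filter Topology

/-- a continuously differentiable function on the torus together with its two derivatives -/
structure C1T (H H1 H2 : T2 → ℝ) : Prop where
  c1 : Continuous H1
  c2 : Continuous H2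
  d1 : ∀ x y : ℝ, HasDerivAt (fun t => lft H (t, y)) (lft H1 (x, y)) x
  d2 : ∀ x y : ℝ, HasDerivAt (fun t => lft H (x, t)) (lft H2 (x, y)) y

theorem lft_cont {H : T2 → ℝ} (hH : Continuous H) : Continuous (lft H) := by
  have h : Continuous (fun z : ℝ × ℝ => (((z.1 : UnitAddCircle), (z.2 : UnitAddCircle)) : T2)) :=
    ((AddCircle.continuous_mk' 1).comp continuous_fst).prodMk
      ((AddCircle.continuous_mk' 1).comp continuous_snd)
  exact hH.comp h

theorem cont_of_lft {H : T2 → ℝ} (hH : Continuous (lft H)) : Continuous H := by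
  have h := (QuotientAddGroup.isOpenQuotientMap_mk (G := ℝ)
    (N := AddSubgroup.zmultiples (1:ℝ))).prodMap (QuotientAddGroup.isOpenQuotientMap_mk (G := ℝ)
    (N := AddSubgroup.zmultiples (1:ℝ)))
  exact h.isQuotientMap.continuous_iff.2 hH

theorem C1T.line {H H1 H2 : T2 → ℝ} (h : C1T H H1 H2) {u v : ℝ → ℝ} {u' v' t : ℝ}
    (hu : HasDerivAt u u' t) (hv : HasDerivAt v v' t) :
    HasDerivAt (fun t => lft H (u t, v t))
      (lft H1 (u t, v t) * u' + lft H2 (u t, v t) * v') t := by
  have c : ∀ {G : T2 → ℝ}, Continuous G → Continuous (fun z : ℝ × ℝ =>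
      ContinuousLinearMap.toSpanSingleton ℝ (lft G z)) := fun {G} hG =>
    (ContinuousLinearMap.toSpanSingletonLIE ℝ ℝ).continuous.comp (lft_cont hG)
  have hs := hasStrictFDerivAt_uncurry_coprod (𝕜 := ℝ) (u := (u t, v t))
    (f := fun x y : ℝ => lft H (x, y))
    (f₁ := fun x y : ℝ => ContinuousLinearMap.toSpanSingleton ℝ (lft H1 (x, y)))
    (f₂ := fun x y : ℝ => ContinuousLinearMap.toSpanSingleton ℝ (lft H2 (x, y)))
    (Filter.Eventually.of_forall fun z => (h.d1 z.1 z.2).hasFDerivAt)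
    (Filter.Eventually.of_forall fun z => (h.d2 z.1 z.2).hasFDerivAt)
    (c h.c1).continuousAt (c h.c2).continuousAt
  have h2 := hs.hasFDerivAt.comp_hasDerivAt t (hu.prodMk hv)
  refine HasDerivAt.congr_deriv (f := fun t => lft H (u t, v t)) h2 ?_
  rw [ContinuousLinearMap.coprod_apply]
  show u' • lft H1 (u t, v t) + v' • lft H2 (u t, v t) = _
  rw [smul_eq_mul, smul_eq_mul]
  ring

theorem C1T.cont {H H1 H2 : T2 → ℝ} (h : C1T H H1 H2) : Continuous H := by
  apply cont_of_lft
  have c : ∀ {G : T2 → ℝ}, Continuous G → Continuous (fun z : ℝ × ℝ =>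
      ContinuousLinearMap.toSpanSingleton ℝ (lft G z)) := fun {G} hG =>
    (ContinuousLinearMap.toSpanSingletonLIE ℝ ℝ).continuous.comp (lft_cont hG)
  rw [continuous_iff_continuousAt]
  intro z
  have hs := hasStrictFDerivAt_uncurry_coprod (𝕜 := ℝ) (u := z)
    (f := fun x y : ℝ => lft H (x, y))
    (f₁ := fun x y : ℝ => ContinuousLinearMap.toSpanSingleton ℝ (lft H1 (x, y)))
    (f₂ := fun x y : ℝ => ContinuousLinearMap.toSpanSingleton ℝ (lft H2 (x, y)))
    (Filter.Eventually.of_forall fun z => (h.d1 z.1 z.2).hasFDerivAt)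
    (Filter.Eventually.of_forall fun z => (h.d2 z.1 z.2).hasFDerivAt)
    (c h.c1).continuousAt (c h.c2).continuousAt
  exact hs.hasFDerivAt.continuousAt

/-- exchange of the coordinates -/
def sw (p : T2) : T2 := (p.2, p.1)

theorem sw_cont : Continuous sw := continuous_snd.prodMk continuous_fst

theorem sw_sw (p : T2) : sw (sw p) = p := rfl

theorem sw_mp : MeasurePreserving sw (volume : Measure T2) volume :=
  Measure.measurePreserving_swap (μ := (volume : Measure UnitAddCircle))
    (ν := (volume : Measure UnitAddCircle))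

theorem C1T.sw {H H1 H2 : T2 → ℝ} (h : C1T H H1 H2) :
    C1T (fun p => H (sw p)) (fun p => H2 (sw p)) (fun p => H1 (sw p)) where
  c1 := h.c2.comp sw_cont
  c2 := h.c1.comp sw_cont
  d1 := fun x y => h.d2 y x
  d2 := fun x y => h.d1 y x

/-- the first derivative -/
noncomputable def D1 (H : T2 → ℝ) (p : T2) : ℝ :=
  deriv (fun τ : ℝ => H (p.1 + (τ : UnitAddCircle), p.2)) 0

/-- the second derivative -/
noncomputable def D2 (H : T2 → ℝ) (p : T2) : ℝ :=
  deriv (fun τ : ℝ => H (p.1, p.2 + (τ : UnitAddCircle))) 0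

theorem lft_D1 {H : T2 → ℝ} (hH : Smo H) (x y : ℝ) : lft (D1 H) (x, y) = lw H y x := by
  have h1 := lw_hasDeriv hH y x
  have h2 : HasDerivAt (fun τ : ℝ => lft H (x + τ, y)) (lw H y x) 0 := by
    have h3 : HasDerivAt (fun t => lft H (t, y)) (lw H y x) (x + 0) := by
      rw [add_zero]
      exact h1
    exact h3.comp_const_add x 0
  have e : (fun τ : ℝ => H ((x : UnitAddCircle) + (τ : UnitAddCircle), (y : UnitAddCircle))) =
      fun τ : ℝ => lft H (x + τ, y) := by
    funext τ
    unfold lft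
    rw [AddCircle.coe_add]
  show deriv (fun τ : ℝ => H ((x : UnitAddCircle) + (τ : UnitAddCircle), (y : UnitAddCircle))) 0 = _
  rw [e]
  exact h2.deriv

theorem Smo.sw {H : T2 → ℝ} (hH : Smo H) : Smo fun p => H (sw p) := by
  unfold Smo at hH ⊢
  have e : lft (fun p => H (Pool.Agent.H52.STD.sw p)) = fun z : ℝ × ℝ => lft H (z.2, z.1) := rfl
  rw [e]
  exact hH.comp (by fun_prop)

theorem D2_eq (H : T2 → ℝ) (p : T2) : D2 H p = D1 (fun q => H (sw q)) (sw p) := rfl

theorem Smo.c1t {H : T2 → ℝ} (hH : Smo H) : C1T H (D1 H) (D2 H) := by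
  have hc : ∀ {G : T2 → ℝ}, Smo G → Continuous (D1 G) := by
    intro G hG
    apply cont_of_lft
    have e : lft (D1 G) = fun z : ℝ × ℝ => lw G z.2 z.1 := by
      funext z
      exact lft_D1 hG z.1 z.2
    rw [e]
    exact lw_cont hG
  have e2 : ∀ x y : ℝ, lft (D2 H) (x, y) = lft (D1 (fun q => H (Pool.Agent.H52.STD.sw q))) (y, x) :=
    fun x y => rfl
  refine ⟨hc hH, ?_, ?_, ?_⟩
  · exact (hc hH.sw).comp sw_cont
  · intro x y
    rw [lft_D1 hH]
    exact lw_hasDeriv hH y x
  · intro x y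
    rw [e2, lft_D1 hH.sw]
    exact lw_hasDeriv hH.sw x y

theorem T2_bdd {H : T2 → ℝ} (hH : Continuous H) : ∃ C : ℝ, 0 ≤ C ∧ ∀ p, |H p| ≤ C := by
  obtain ⟨C, hC⟩ := (isCompact_univ (X := T2)).exists_bound_of_continuousOn hH.continuousOn
  refine ⟨max C 0, le_max_right _ _, fun p => ?_⟩
  have := hC p (Set.mem_univ p)
  rw [norm_eq_abs] at this
  exact this.trans (le_max_left _ _)

section

variable {P : Par} {lm l t : ℝ} {m : ℕ}

theorem W2_D1_le (hlm : 16 ≤ lm) (hl : 4 ≤ l) (hb : P.b = 0) (hc : P.c = 1) {Q : ℝ → ℝ}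
    (hQ1 : |Q t| ≤ 1) : |W2 P lm l m Q t * D P (m + 1) t| ≤ 2 / l := by
  by_cases hg : GQ P lm l m t
  · have h1 := D_ratio hg hlm hl hb hc
    have h2 := xi_mem P lm l m t
    have hD : 0 < |D P (m + 2) t| := abs_pos.2 (D_pos hg hlm hl hb hc)
    unfold W2
    rw [abs_mul, abs_div, abs_mul, abs_of_nonneg h2.1, div_mul_eq_mul_div, div_le_iff₀ hD]
    have h3 : xi P lm l m t * |Q t| ≤ 1 := mul_le_one₀ h2.2 (abs_nonneg _) hQ1
    calc xi P lm l m t * |Q t| * |D P (m + 1) t| ≤ 1 * |D P (m + 1) t| :=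
          mul_le_mul_of_nonneg_right h3 (abs_nonneg _)
      _ ≤ _ := by rw [one_mul]; exact h1
  · unfold W2
    rw [(xi_bad (by linarith : 0 < lm) (by linarith : 0 < l) hg).1]
    simp only [zero_mul, zero_div, abs_zero]
    positivity

/-- integration by parts against the derivative of a function of the last two positions -/
theorem ibp3 (hlm : 16 ≤ lm) (hl : 4 ≤ l) (hb : P.b = 0) (hc : P.c = 1) (m : ℕ)
    {Q Q' : ℝ → ℝ} (hQ : ∀ t, HasDerivAt Q (Q' t) t) (hQ'c : Continuous Q')
    (hQ1 : ∀ t, |Q t| ≤ 1) (hQper : Q 1 = Q 0) {bd : ℝ → ℝ}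
    (hbdc : Continuous bd) (hbd : ∀ t, |W2' P lm l m Q Q' t| ≤ bd t)
    {H H1 H2 : T2 → ℝ} (hH : C1T H H1 H2) {A : ℝ} (hA : ∀ p, |H p| ≤ A) :
    |∫ t in (0:ℝ)..1, xi P lm l m t * Q t * lft H1 (X P (m + 2) t, X P (m + 1) t)| ≤
      A * (∫ t in (0:ℝ)..1, bd t) +
        2 / l * ∫ t in (0:ℝ)..1, |lft H2 (X P (m + 2) t, X P (m + 1) t)| := by
  have hA0 : 0 ≤ A := (abs_nonneg _).trans (hA 0)
  set Hx : ℝ → ℝ := fun t => lft H (X P (m + 2) t, X P (m + 1) t) with hHx
  set F : ℝ → ℝ := fun t => W2 P lm l m Q t * Hx t with hF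
  set f : ℝ → ℝ := fun t => W2' P lm l m Q Q' t * Hx t with hf
  set f2 : ℝ → ℝ := fun t => xi P lm l m t * Q t * lft H1 (X P (m + 2) t, X P (m + 1) t) with hf2
  set f3 : ℝ → ℝ := fun t => W2 P lm l m Q t * D P (m + 1) t *
    lft H2 (X P (m + 2) t, X P (m + 1) t) with hf3
  have hQc : Continuous Q := continuous_iff_continuousAt.2 fun t => (hQ t).continuousAt
  have hXc : Continuous (fun t => (X P (m + 2) t, X P (m + 1) t)) :=
    (X_cont P (m + 2)).prodMk (X_cont P (m + 1))
  have hHxd : ∀ t, HasDerivAt Hx (lft H1 (X P (m + 2) t, X P (m + 1) t) * D P (m + 2) t +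
      lft H2 (X P (m + 2) t, X P (m + 1) t) * D P (m + 1) t) t := fun t =>
    hH.line (X_hasDeriv P (m + 2) t) (X_hasDeriv P (m + 1) t)
  have hHxc : Continuous Hx := continuous_iff_continuousAt.2 fun t => (hHxd t).continuousAt
  have hWd : ∀ t, HasDerivAt (W2 P lm l m Q) (W2' P lm l m Q Q' t) t := fun t =>
    W2_hasDeriv (m := m) hlm hl hb hc (hQ t)
  have hWc : Continuous (W2 P lm l m Q) :=
    continuous_iff_continuousAt.2 fun t => (hWd t).continuousAt
  have hFd : ∀ t, HasDerivAt F (f t + f2 t + f3 t) t := by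
    intro t
    have h1 := (hWd t).mul (hHxd t)
    refine HasDerivAt.congr_deriv (f := F) h1 ?_
    have e : W2 P lm l m Q t * D P (m + 2) t = xi P lm l m t * Q t := by
      unfold W2
      by_cases hgd : GQ P lm l m t
      · exact div_mul_cancel₀ _ (D_pos hgd hlm hl hb hc)
      · rw [(xi_bad (by linarith : 0 < lm) (by linarith : 0 < l) hgd).1]
        simp
    rw [hf, hf2, hf3]
    simp only
    rw [← e]
    ring
  have hW'm : Measurable (W2' P lm l m Q Q') := by
    have c1 := (xi'_cont P lm l m).measurable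
    have c2 := (xi_cont P lm l m).measurable
    have c3 := hQc.measurable
    have c4 := hQ'c.measurable
    have c5 := (D_cont P (m + 2)).measurable
    have c6 := (B_cont P (m + 2)).measurable
    unfold W2'
    exact (((c1.mul c3).add (c2.mul c4)).div c5).sub (((c2.mul c3).mul c6).div (c5.pow_const 2))
  have hfm : Measurable f := hW'm.mul hHxc.measurable
  have hf2c : Continuous f2 := ((xi_cont P lm l m).mul hQc).mul ((lft_cont hH.c1).comp hXc)
  have hf3c : Continuous f3 := (hWc.mul (D_cont P (m + 1))).mul ((lft_cont hH.c2).comp hXc)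
  have hf3b : Continuous (fun t => 2 / l * |lft H2 (X P (m + 2) t, X P (m + 1) t)|) :=
    continuous_const.mul ((lft_cont hH.c2).comp hXc).abs
  have hbdc' : Continuous (fun t => A * bd t) := continuous_const.mul hbdc
  have hfb : ∀ t, |f t| ≤ A * bd t := by
    intro t
    rw [hf]
    simp only
    rw [abs_mul, mul_comm A]
    exact mul_le_mul (hbd t) (hA _) (abs_nonneg _) ((abs_nonneg _).trans (hbd t))
  have hf3le : ∀ t, |f3 t| ≤ 2 / l * |lft H2 (X P (m + 2) t, X P (m + 1) t)| := by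
    intro t
    rw [hf3]
    simp only
    rw [abs_mul]
    exact mul_le_mul_of_nonneg_right (W2_D1_le hlm hl hb hc (hQ1 t)) (abs_nonneg _)
  have hfi : IntervalIntegrable f volume 0 1 := by
    refine (hbdc'.intervalIntegrable 0 1).mono_fun hfm.aestronglyMeasurable ?_
    refine (ae_restrict_mem measurableSet_uIoc).mono fun t _ => ?_
    show ‖f t‖ ≤ ‖A * bd t‖
    rw [norm_eq_abs, norm_eq_abs]
    exact (hfb t).trans (le_abs_self _)
  have hf2i : IntervalIntegrable f2 volume 0 1 := hf2c.intervalIntegrable 0 1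
  have hf3i : IntervalIntegrable f3 volume 0 1 := hf3c.intervalIntegrable 0 1
  have hFTC := intervalIntegral.integral_eq_sub_of_hasDerivAt (fun t _ => hFd t)
    ((hfi.add hf2i).add hf3i)
  rw [intervalIntegral.integral_add (hfi.add hf2i) hf3i,
    intervalIntegral.integral_add hfi hf2i] at hFTC
  have e01 : F 1 - F 0 = 0 := by
    have e1 : xi P lm l m 1 = xi P lm l m 0 := by
      have := xi_period (lm := lm) (l := l) hb hc m 0
      rwa [zero_add] at this
    have e2 : D P (m + 2) 1 = D P (m + 2) 0 := by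
      have := D_period hb hc (m + 2) 0
      rwa [zero_add] at this
    have e3 : Hx 1 = Hx 0 := by
      have q1 := X_period hb hc (m + 2) 0
      have q2 := X_period hb hc (m + 1) 0
      rw [zero_add] at q1 q2
      rw [hHx]
      simp only
      rw [q1, q2]
      have h := lft_per H (X P (m + 2) 0, X P (m + 1) 0) ((m + 2 : ℕ) : ℤ) ((m + 1 : ℕ) : ℤ)
      simpa using h
    show W2 P lm l m Q 1 * Hx 1 - W2 P lm l m Q 0 * Hx 0 = 0
    rw [e3]
    unfold W2
    rw [e1, e2, hQper, sub_self]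
  have h2 : ∫ t in (0:ℝ)..1, f2 t = - (∫ t in (0:ℝ)..1, f t) - ∫ t in (0:ℝ)..1, f3 t := by
    linarith
  have h4 : |∫ t in (0:ℝ)..1, f t| ≤ ∫ t in (0:ℝ)..1, A * bd t := by
    rw [← norm_eq_abs]
    exact intervalIntegral.norm_integral_le_of_norm_le zero_le_one
      (Filter.Eventually.of_forall fun t _ => hfb t)
      (hbdc'.intervalIntegrable 0 1)
  have h5 : |∫ t in (0:ℝ)..1, f3 t| ≤
      ∫ t in (0:ℝ)..1, 2 / l * |lft H2 (X P (m + 2) t, X P (m + 1) t)| := by
    rw [← norm_eq_abs]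
    exact intervalIntegral.norm_integral_le_of_norm_le zero_le_one
      (Filter.Eventually.of_forall fun t _ => hf3le t)
      (hf3b.intervalIntegrable 0 1)
  rw [intervalIntegral.integral_const_mul] at h4 h5
  rw [h2]
  have h6 := abs_sub (-(∫ t in (0:ℝ)..1, f t)) (∫ t in (0:ℝ)..1, f3 t)
  rw [abs_neg] at h6
  linarith

end

end Pool.Agent.H52.STD
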