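import Mathlib
import Pool.Agent.H52.STD.Sq12

set_option autoImplicit false

/-!
# The cutoff as a function on the torus, integration by parts on the torus
-/

namespace Pool.Agent.H52.STD

open Real MeasureTheory Function Filter Topology

theorem pc_smooth (a : ℕ → ℝ) (k : ℕ) : ContDiff ℝ 1 (pc a k) := by
  induction k with
  | zero => exact contDiff_id
  | succ k ih =>
    have e : pc a (k + 1) = fun z => (2 * (pc a k z).1 - (pc a k z).2 +
        a k * sin (2 * π * (pc a k z).1), (pc a k z).1) := by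
      funext z
      rfl
    rw [e]
    fun_prop

theorem rho_smooth : ContDiff ℝ 1 (rho 1) := by
  have h : ContDiff ℝ 1 smoothTransition := smoothTransition.contDiff
  unfold rho
  exact h.comp (by fun_prop)

theorem L_smooth (α : ℝ) : ContDiff ℝ 1 (L α) := by
  unfold L
  fun_prop

theorem Smo.mul {f g : T2 → ℝ} (hf : Smo f) (hg : Smo g) : Smo fun p => f p * g p := by
  unfold Smo at *
  exact hf.mul hg

theorem Smo.div_const {f : T2 → ℝ} (hf : Smo f) (c : ℝ) : Smo fun p => f p / c := by
  unfold Smo at *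
  exact hf.div_const c

theorem Smo.post {f : T2 → ℝ} (hf : Smo f) {r : ℝ → ℝ} (hr : ContDiff ℝ 1 r) :
    Smo fun p => r (f p) := by
  unfold Smo at *
  exact hr.comp hf

theorem Smo.comp_cs {f : T2 → ℝ} (hf : Smo f) (a : ℕ → ℝ) (k : ℕ) : Smo fun p => f (cs a k p) := by
  unfold Smo at *
  have e : lft (fun p => f (cs a k p)) = fun z => lft f (pc a k z) := by
    funext z
    show f (cs a k ((z.1 : UnitAddCircle), (z.2 : UnitAddCircle))) = _
    rw [cs_coe a k z]
    rfl
  rw [e]
  exact hf.comp (pc_smooth a k)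

theorem smo_LC (α : ℝ) : Smo fun p : T2 => LC α p.1 := by
  unfold Smo
  have e : lft (fun p : T2 => LC α p.1) = fun z : ℝ × ℝ => L α z.1 := by
    funext z
    exact LC_coe α z.1
  rw [e]
  exact (L_smooth α).comp contDiff_fst

/-- the product of the cutoffs on the torus -/
noncomputable def PfT (a : ℕ → ℝ) (lm : ℝ) : ℕ → T2 → ℝ
  | 0, _ => 1
  | m + 1, p => PfT a lm m p * rho 1 (LC (a m) (cs a m p).1 * LC (a (m + 1)) (cs a (m + 1) p).1 / lm)

/-- the cutoff on the torus -/
noncomputable def XiT (a : ℕ → ℝ) (lm l : ℝ) (m : ℕ) (p : T2) : ℝ :=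
  PfT a lm m p * rho 1 (LC (a m) (cs a m p).1 / l)

theorem PfT_smo (a : ℕ → ℝ) (lm : ℝ) (m : ℕ) : Smo (PfT a lm m) := by
  induction m with
  | zero => exact contDiff_const
  | succ m ih =>
    exact ih.mul ((((smo_LC (a m)).comp_cs a m).mul
      ((smo_LC (a (m + 1))).comp_cs a (m + 1))).div_const lm |>.post rho_smooth)

theorem XiT_smo (a : ℕ → ℝ) (lm l : ℝ) (m : ℕ) : Smo (XiT a lm l m) :=
  (PfT_smo a lm m).mul ((((smo_LC (a m)).comp_cs a m).div_const l).post rho_smooth)

theorem PfT_eq (a : ℕ → ℝ) (lm : ℝ) (m : ℕ) (y t : ℝ) :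
    PfT a lm m ((t : UnitAddCircle), (y : UnitAddCircle)) = Pf (PA a y) lm m t := by
  induction m with
  | zero => rfl
  | succ m ih =>
    show PfT a lm m _ * rho 1 _ = Pf (PA a y) lm m t * psi (PA a y) lm (m + 1) t
    rw [ih, ← LLc a y t m, ← LLc a y t (m + 1)]
    rfl

theorem XiT_eq (a : ℕ → ℝ) (lm l : ℝ) (m : ℕ) (y t : ℝ) :
    XiT a lm l m ((t : UnitAddCircle), (y : UnitAddCircle)) = xi (PA a y) lm l m t := by
  unfold XiT xi
  rw [PfT_eq, ← LLc a y t m]
  rfl

theorem T2_ind {p : T2 → Prop} (h : ∀ x y : ℝ, p ((x : UnitAddCircle), (y : UnitAddCircle)))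
    (z : T2) : p z := by
  obtain ⟨x, y⟩ := z
  induction x using QuotientAddGroup.induction_on with
  | H x =>
    induction y using QuotientAddGroup.induction_on with
    | H y => exact h x y

theorem XiT_mem (a : ℕ → ℝ) (lm l : ℝ) (m : ℕ) (p : T2) :
    0 ≤ XiT a lm l m p ∧ XiT a lm l m p ≤ 1 := by
  refine T2_ind (p := fun p => 0 ≤ XiT a lm l m p ∧ XiT a lm l m p ≤ 1) ?_ p
  intro x y
  rw [XiT_eq]
  exact xi_mem _ _ _ _ _

theorem one_sub_XiT (a : ℕ → ℝ) {lm l : ℝ} (hlm : 0 < lm) (hl : 0 < l) (m : ℕ) (p : T2) :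
    1 - XiT a lm l m p ≤ XT a lm l m p := by
  refine T2_ind (p := fun p => 1 - XiT a lm l m p ≤ XT a lm l m p) ?_ p
  intro x y
  rw [XiT_eq]
  exact XX_le_XT a y hlm hl m x

/-- parametric integrals are continuous -/
theorem cpar {F : T2 → ℝ} (hF : Continuous F) : Continuous (fun s : ℝ => ∫ t in (0:ℝ)..1,
      F ((t : UnitAddCircle), (s : UnitAddCircle))) := by
  have mkc : Continuous (fun z : ℝ × ℝ => (((z.2 : UnitAddCircle), (z.1 : UnitAddCircle)) : T2)) :=
    ((AddCircle.continuous_mk' 1).comp continuous_snd).prodMk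
      ((AddCircle.continuous_mk' 1).comp continuous_fst)
  exact intervalIntegral.continuous_parametric_intervalIntegral_of_continuous'
      (f := fun s t : ℝ => F ((t : UnitAddCircle), (s : UnitAddCircle))) (hF.comp mkc) 0 1

/-- integration by parts on the torus -/
theorem star {C : ℝ} (hC0 : 0 ≤ C) (hC : ∀ z, |rho' 1 z| ≤ C) (a : ℕ → ℝ) {lm l : ℝ}
    (hlm : 16 ≤ lm) (hl : 4 ≤ l) (m : ℕ) (ha : ∀ j ≤ m, 1 ≤ |a j|)
    {g g1 g2 : T2 → ℝ} (hg : C1T g g1 g2) (hgb : ∀ p, |g p| ≤ 1)
    {H H1 H2 : T2 → ℝ} (hH : C1T H H1 H2) {A : ℝ} (hA : ∀ p, |H p| ≤ A) :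
    |∫ p, XiT a lm l m p * g p * H1 (cs a (m + 1) p)| ≤
      A * ((1440 * C + 400) * (2 / lm + 1 / l) +
        16 * (1 / 2) ^ (m + 1) * (1 / l + 1 / lm) * ∫ p, |g1 p|) + 2 / l * ∫ p, |H2 p| := by
  have hA0 : 0 ≤ A := (abs_nonneg _).trans (hA 0)
  have hlm0 : 0 < lm := by linarith
  have hl0 : 0 < l := by linarith
  have hcs := cs_cont a (m + 1)
  set K := 1440 * C + 400 with hK
  have hK0 : 0 ≤ K := by rw [hK]; positivity
  set e := 16 * (1 / 2) ^ (m + 1) * (1 / l + 1 / lm) with he
  have he0 : 0 ≤ e := by rw [he]; positivity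
  have c1 : Continuous (fun p : T2 => XiT a lm l m p * g p * H1 (cs a (m + 1) p)) :=
    ((XiT_smo a lm l m).cont.mul hg.cont).mul (hH.c1.comp hcs)
  have c2 : Continuous (fun p : T2 => |H2 (cs a (m + 1) p)|) := (hH.c2.comp hcs).abs
  have c3 : Continuous (fun p : T2 => |g1 p|) := hg.c1.abs
  have cM := MT_cont a hlm0 hl0 m
  have mkc : ∀ s : ℝ, Continuous (fun t : ℝ => (((t : UnitAddCircle), (s : UnitAddCircle)) : T2)) :=
    fun s => (AddCircle.continuous_mk' 1).prodMk continuous_const
  set E : ℝ → ℝ := fun s => A * (K * (∫ t in (0:ℝ)..1, MT a lm l m ((t : UnitAddCircle),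
      (s : UnitAddCircle))) + e * ∫ t in (0:ℝ)..1, (fun p : T2 => |g1 p|)
        ((t : UnitAddCircle), (s : UnitAddCircle))) + 2 / l * ∫ t in (0:ℝ)..1,
        (fun p : T2 => |H2 (cs a (m + 1) p)|) ((t : UnitAddCircle), (s : UnitAddCircle)) with hE
  have cE : Continuous E := (continuous_const.mul ((continuous_const.mul (cpar cM)).add
    (continuous_const.mul (cpar c3)))).add (continuous_const.mul (cpar c2))
  have key : ∀ s : ℝ, ‖∫ t in (0:ℝ)..1,
      (fun p : T2 => XiT a lm l m p * g p * H1 (cs a (m + 1) p))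
      ((t : UnitAddCircle), (s : UnitAddCircle))‖ ≤ E s := by
    intro s
    rw [norm_eq_abs]
    have hb : (PA a s).b = 0 := rfl
    have hc : (PA a s).c = 1 := rfl
    have h1 := ibp3 (P := PA a s) (lm := lm) (l := l) hlm hl hb hc m
      (Q := fun t : ℝ => lft g (t, s)) (Q' := fun t : ℝ => lft g1 (t, s))
      (fun x => hg.d1 x s) (hg.c1.comp (mkc s)) (fun x => hgb _)
      (by
        have := lft_per g (0, s) 1 0
        simpa using this)
      (bd := fun t => K * MT a lm l m ((t : UnitAddCircle), (s : UnitAddCircle)) +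
        e * |g1 ((t : UnitAddCircle), (s : UnitAddCircle))|)
      ((continuous_const.mul (cM.comp (mkc s))).add (continuous_const.mul (c3.comp (mkc s))))
      (by
        intro t
        refine (W2'_le hC0 hC hlm hl hb hc (hgb _)
          (e := e * |g1 ((t : UnitAddCircle), (s : UnitAddCircle))|) (by positivity) ?_).trans ?_
        · intro hgq
          have q2 := D_large2 hgq hlm hl hb hc
          have q6 := mul_le_mul_of_nonneg_left q2
            (abs_nonneg (g1 ((t : UnitAddCircle), (s : UnitAddCircle))))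
          have e1 : e * |g1 ((t : UnitAddCircle), (s : UnitAddCircle))| *
              |D (PA a s) (m + 2) t| = |g1 ((t : UnitAddCircle), (s : UnitAddCircle))| *
              (16 * (1 / 2) ^ (m + 1) * (1 / l + 1 / lm) * |D (PA a s) (m + 2) t|) := by
            rw [he]
            ring
          rw [e1, mul_one] at *
          exact q6
        · have := mul_le_mul_of_nonneg_left (MM_le_MT a s lm l m t) hK0
          linarith) hH hA
    have e1 : ∫ t in (0:ℝ)..1, (fun p : T2 => XiT a lm l m p * g p * H1 (cs a (m + 1) p))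
        ((t : UnitAddCircle), (s : UnitAddCircle)) =
        ∫ t in (0:ℝ)..1, xi (PA a s) lm l m t * lft g (t, s) *
          lft H1 (X (PA a s) (m + 2) t, X (PA a s) (m + 1) t) := by
      apply intervalIntegral.integral_congr
      intro t _
      simp only
      rw [XiT_eq, cs_coe a (m + 1) (t, s), pc_eq]
      rfl
    have e2 : ∫ t in (0:ℝ)..1, (fun p : T2 => |H2 (cs a (m + 1) p)|)
        ((t : UnitAddCircle), (s : UnitAddCircle)) =
        ∫ t in (0:ℝ)..1, |lft H2 (X (PA a s) (m + 2) t, X (PA a s) (m + 1) t)| := by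
      apply intervalIntegral.integral_congr
      intro t _
      simp only
      rw [cs_coe a (m + 1) (t, s), pc_eq]
      rfl
    have e3 : ∫ t in (0:ℝ)..1, (K * MT a lm l m ((t : UnitAddCircle), (s : UnitAddCircle)) +
        e * |g1 ((t : UnitAddCircle), (s : UnitAddCircle))|) =
        K * (∫ t in (0:ℝ)..1, MT a lm l m ((t : UnitAddCircle), (s : UnitAddCircle))) +
          e * ∫ t in (0:ℝ)..1, (fun p : T2 => |g1 p|)
            ((t : UnitAddCircle), (s : UnitAddCircle)) := by
      rw [intervalIntegral.integral_add, intervalIntegral.integral_const_mul,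
        intervalIntegral.integral_const_mul]
      · exact (continuous_const.mul (cM.comp (mkc s))).intervalIntegrable _ _
      · exact (continuous_const.mul (c3.comp (mkc s))).intervalIntegrable _ _
    rw [e1, hE]
    simp only
    rw [e2, ← e3]
    exact h1
  have h2 := intervalIntegral.norm_integral_le_of_norm_le (a := 0) (b := 1) zero_le_one
    (Filter.Eventually.of_forall fun s _ => key s)
    (cE.intervalIntegrable (μ := volume) (0:ℝ) 1)
  rw [norm_eq_abs] at h2
  rw [Pool.Agent.TH705.SM.int_T2 _ (Pool.Agent.TH705.SM.integrable_cont c1),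
    Pool.Agent.TH705.SM.int_T2 _ (Pool.Agent.TH705.SM.integrable_cont c3)]
  refine h2.trans ?_
  have hmt := MT_int a hlm0 hl0 m ha
  rw [Pool.Agent.TH705.SM.int_T2 _ (Pool.Agent.TH705.SM.integrable_cont cM)] at hmt
  have hH2 := int_cs' a (m + 1) (F := fun p => |H2 p|) hH.c2.abs
  rw [Pool.Agent.TH705.SM.int_T2 _ (Pool.Agent.TH705.SM.integrable_cont c2)] at hH2
  have eE : ∫ s in (0:ℝ)..1, E s =
      A * (K * (∫ s in (0:ℝ)..1, ∫ t in (0:ℝ)..1, MT a lm l m ((t : UnitAddCircle),
      (s : UnitAddCircle))) + e * ∫ s in (0:ℝ)..1, ∫ t in (0:ℝ)..1, (fun p : T2 => |g1 p|)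
        ((t : UnitAddCircle), (s : UnitAddCircle))) +
      2 / l * ∫ s in (0:ℝ)..1, ∫ t in (0:ℝ)..1,
        (fun p : T2 => |H2 (cs a (m + 1) p)|) ((t : UnitAddCircle), (s : UnitAddCircle)) := by
    rw [hE]
    have i1 := cpar cM
    have i2 := cpar c2
    have i4 := cpar c3
    have i3 : Continuous (fun s : ℝ => K * (∫ t in (0:ℝ)..1, MT a lm l m ((t : UnitAddCircle),
      (s : UnitAddCircle)))) := continuous_const.mul i1
    have i5 : Continuous (fun s : ℝ => e * ∫ t in (0:ℝ)..1, (fun p : T2 => |g1 p|)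
        ((t : UnitAddCircle), (s : UnitAddCircle))) := continuous_const.mul i4
    rw [intervalIntegral.integral_add, intervalIntegral.integral_const_mul,
      intervalIntegral.integral_const_mul, intervalIntegral.integral_add,
      intervalIntegral.integral_const_mul, intervalIntegral.integral_const_mul]
    · exact i3.intervalIntegrable _ _
    · exact i5.intervalIntegrable _ _
    · exact (continuous_const.mul (i3.add i5)).intervalIntegrable _ _
    · exact (continuous_const.mul i2).intervalIntegrable _ _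
  rw [eE, hH2]
  have r1 := mul_le_mul_of_nonneg_left hmt hK0
  have r2 := mul_le_mul_of_nonneg_left (add_le_add r1 (le_refl
    (e * ∫ s in (0:ℝ)..1, ∫ t in (0:ℝ)..1, (fun p : T2 => |g1 p|)
        ((t : UnitAddCircle), (s : UnitAddCircle))))) hA0
  linarith

end Pool.Agent.H52.STD
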