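import Mathlib
import Pool.Agent.H52.STD.Sq12

set_option autoImplicit false

/-!
# The primitive in the first coordinate, as an antisymmetric operator commuting with the
derivative in the second coordinate
-/

namespace Pool.Agent.H52.STD

open Real MeasureTheory Function Filter Topology

/-- the primitive in the first coordinate with mean zero -/
noncomputable def KP (F : T2 → ℝ) (p : T2) : ℝ :=
  ∫ τ in (0:ℝ)..1, (τ - 1 / 2) * F (p.1 + (τ : UnitAddCircle), p.2)

/-- the mean in the first coordinate -/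
noncomputable def M1 (F : T2 → ℝ) (y : UnitAddCircle) : ℝ :=
  ∫ τ in (0:ℝ)..1, F ((τ : UnitAddCircle), y)

theorem shift_cont {F : T2 → ℝ} (hF : Continuous F) :
    Continuous (fun z : T2 × ℝ => F (z.1.1 + (z.2 : UnitAddCircle), z.1.2)) := by
  have h : Continuous (fun z : T2 × ℝ => ((z.1.1 + (z.2 : UnitAddCircle), z.1.2) : T2)) := by
    have h1 : Continuous (fun z : T2 × ℝ => (z.2 : UnitAddCircle)) :=
      (AddCircle.continuous_mk' 1).comp continuous_snd
    exact ((continuous_fst.comp continuous_fst).add h1).prodMk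
      (continuous_snd.comp continuous_fst)
  exact hF.comp h

theorem KP_cont {F : T2 → ℝ} (hF : Continuous F) : Continuous (KP F) := by
  have h : Continuous (uncurry fun (p : T2) (τ : ℝ) =>
      (τ - 1 / 2) * F (p.1 + (τ : UnitAddCircle), p.2)) :=
    (continuous_snd.sub continuous_const).mul (shift_cont hF)
  exact intervalIntegral.continuous_parametric_intervalIntegral_of_continuous' h 0 1

theorem KP_bdd {F : T2 → ℝ} {A : ℝ} (hA : ∀ p, |F p| ≤ A) (p : T2) : |KP F p| ≤ A / 2 := by
  have hA0 : 0 ≤ A := (abs_nonneg _).trans (hA p)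
  have q : ‖KP F p‖ ≤ A / 2 * |1 - 0| := by
    apply intervalIntegral.norm_integral_le_of_norm_le_const
    intro τ hτ
    rw [Set.uIoc_of_le zero_le_one] at hτ
    rw [norm_eq_abs, abs_mul]
    have h1 : |τ - 1 / 2| ≤ 1 / 2 := by
      rw [abs_le]
      constructor
      · linarith [hτ.1]
      · linarith [hτ.2]
    calc |τ - 1 / 2| * |F (p.1 + (τ : UnitAddCircle), p.2)| ≤ 1 / 2 * A :=
          mul_le_mul h1 (hA _) (abs_nonneg _) (by norm_num)
      _ = A / 2 := by ring
  rw [norm_eq_abs] at q
  simpa using q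

theorem M1_bdd {F : T2 → ℝ} {A : ℝ} (hA : ∀ p, |F p| ≤ A) (y : UnitAddCircle) : |M1 F y| ≤ A := by
  have q : ‖M1 F y‖ ≤ A * |1 - 0| := by
    apply intervalIntegral.norm_integral_le_of_norm_le_const
    intro τ _
    rw [norm_eq_abs]
    exact hA _
  rw [norm_eq_abs] at q
  simpa using q

theorem M1_cont {F : T2 → ℝ} (hF : Continuous F) : Continuous (M1 F) := by
  have h : Continuous (uncurry fun (y : UnitAddCircle) (τ : ℝ) =>
      F ((τ : UnitAddCircle), y)) := by
    have h1 : Continuous (fun z : UnitAddCircle × ℝ => (((z.2 : UnitAddCircle), z.1) : T2)) :=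
      ((AddCircle.continuous_mk' 1).comp continuous_snd).prodMk continuous_fst
    exact hF.comp h1
  exact intervalIntegral.continuous_parametric_intervalIntegral_of_continuous' h 0 1

theorem M1_shift (F : T2 → ℝ) (x : ℝ) (y : UnitAddCircle) :
    ∫ τ in (0:ℝ)..1, F ((x : UnitAddCircle) + (τ : UnitAddCircle), y) = M1 F y := by
  have e : ∀ τ : ℝ, F ((x : UnitAddCircle) + (τ : UnitAddCircle), y) =
      (fun τ : ℝ => F ((τ : UnitAddCircle), y)) (x + τ) := by
    intro τ
    simp only
    rw [AddCircle.coe_add]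
  simp_rw [e]
  rw [intervalIntegral.integral_comp_add_left (fun τ : ℝ => F ((τ : UnitAddCircle), y)) x]
  have hp : Periodic (fun τ : ℝ => F ((τ : UnitAddCircle), y)) 1 := by
    intro τ
    simp only
    rw [AddCircle.coe_add, AddCircle.coe_period, add_zero]
  have h := hp.intervalIntegral_add_eq x 0
  rw [zero_add] at h
  rw [add_zero, h]
  rfl

/-- differentiation under the integral sign -/
theorem par_deriv {f f' : ℝ → ℝ → ℝ} (hf : Continuous (uncurry f)) (hf' : Continuous (uncurry f'))
    {C : ℝ} (hC : ∀ x τ, |f' x τ| ≤ C) (hd : ∀ x τ, HasDerivAt (fun x => f x τ) (f' x τ) x)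
    {w : ℝ → ℝ} (hw : Continuous w) (x : ℝ) :
    HasDerivAt (fun x => ∫ τ in (0:ℝ)..1, w τ * f x τ) (∫ τ in (0:ℝ)..1, w τ * f' x τ) x := by
  have c1 : ∀ x, Continuous (fun τ => w τ * f x τ) := fun x =>
    hw.mul (hf.comp (f := fun τ : ℝ => (x, τ)) (by fun_prop))
  have c2 : ∀ x, Continuous (fun τ => w τ * f' x τ) := fun x =>
    hw.mul (hf'.comp (f := fun τ : ℝ => (x, τ)) (by fun_prop))
  refine (intervalIntegral.hasDerivAt_integral_of_dominated_loc_of_deriv_le (s := Set.univ)
    (F := fun x τ => w τ * f x τ) (F' := fun x τ => w τ * f' x τ)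
    (bound := fun τ => |w τ| * C) Filter.univ_mem
    (Filter.Eventually.of_forall fun x => (c1 x).aestronglyMeasurable)
    ((c1 x).intervalIntegrable _ _) (c2 x).aestronglyMeasurable
    (Filter.Eventually.of_forall fun τ _ x _ => ?_)
    ((hw.abs.mul continuous_const).intervalIntegrable _ _)
    (Filter.Eventually.of_forall fun τ _ x _ => ?_)).2
  · rw [norm_eq_abs, abs_mul]
    exact mul_le_mul_of_nonneg_left (hC x τ) (abs_nonneg _)
  · exact (hd x τ).const_mul (w τ)

theorem KP_c1t {F F1 F2 : T2 → ℝ} (h : C1T F F1 F2) :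
    C1T (KP F) (fun p => F p - M1 F p.2) (KP F2) := by
  have hFc := h.cont
  obtain ⟨C1, _, hC1⟩ := T2_bdd h.c1
  obtain ⟨C2, _, hC2⟩ := T2_bdd h.c2
  have hw : Continuous (fun τ : ℝ => τ - 1 / 2) := by fun_prop
  have eK : ∀ (G : T2 → ℝ) (x y : ℝ), lft (KP G) (x, y) =
      ∫ τ in (0:ℝ)..1, (τ - 1 / 2) * lft G (x + τ, y) := by
    intro G x y
    unfold lft KP
    apply intervalIntegral.integral_congr
    intro τ _
    simp only
    rw [AddCircle.coe_add]
  refine ⟨hFc.sub ((M1_cont hFc).comp continuous_snd), KP_cont h.c2, ?_, ?_⟩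
  · intro x y
    have h1 := par_deriv (f := fun x τ => lft F (x + τ, y)) (f' := fun x τ => lft F1 (x + τ, y))
      ((lft_cont hFc).comp (f := fun z : ℝ × ℝ => (z.1 + z.2, y)) (by fun_prop))
      ((lft_cont h.c1).comp (f := fun z : ℝ × ℝ => (z.1 + z.2, y)) (by fun_prop))
      (C := C1) (fun x τ => hC1 _)
      (fun x τ => (h.d1 (x + τ) y).comp_add_const x τ) hw x
    have e1 : (fun t => lft (KP F) (t, y)) =
        fun x => ∫ τ in (0:ℝ)..1, (τ - 1 / 2) * lft F (x + τ, y) := by
      funext t
      exact eK F t y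
    rw [e1]
    refine HasDerivAt.congr_deriv h1 ?_
    -- integration by parts
    have hd : ∀ τ : ℝ, HasDerivAt (fun τ => (τ - 1 / 2) * lft F (x + τ, y))
        (lft F (x + τ, y) + (τ - 1 / 2) * lft F1 (x + τ, y)) τ := by
      intro τ
      have q1 : HasDerivAt (fun τ : ℝ => τ - 1 / 2) 1 τ := (hasDerivAt_id τ).sub_const _
      have q2 : HasDerivAt (fun τ : ℝ => lft F (x + τ, y)) (lft F1 (x + τ, y)) τ :=
        (h.d1 (x + τ) y).comp_const_add x τ
      refine HasDerivAt.congr_deriv (q1.mul q2) ?_
      ring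
    have i1 : Continuous (fun τ : ℝ => lft F (x + τ, y)) :=
      (lft_cont hFc).comp (f := fun z : ℝ => (x + z, y)) (by fun_prop)
    have i2 : Continuous (fun τ : ℝ => (τ - 1 / 2) * lft F1 (x + τ, y)) :=
      hw.mul ((lft_cont h.c1).comp (f := fun z : ℝ => (x + z, y)) (by fun_prop))
    have hFTC := intervalIntegral.integral_eq_sub_of_hasDerivAt (a := 0) (b := 1)
      (fun τ _ => hd τ) ((i1.add i2).intervalIntegrable _ _)
    rw [intervalIntegral.integral_add (i1.intervalIntegrable _ _) (i2.intervalIntegrable _ _)]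
      at hFTC
    have e2 : ∫ τ in (0:ℝ)..1, lft F (x + τ, y) = M1 F (y : UnitAddCircle) := by
      rw [← M1_shift F x]
      apply intervalIntegral.integral_congr
      intro τ _
      unfold lft
      simp only
      rw [AddCircle.coe_add]
    have e3 : lft F (x + 1, y) = lft F (x, y) := by
      have := lft_per F (x, y) 1 0
      simpa using this
    rw [e2, e3, add_zero] at hFTC
    show ∫ τ in (0:ℝ)..1, (τ - 1 / 2) * lft F1 (x + τ, y) = lft F (x, y) - M1 F (y : UnitAddCircle)
    linarith
  · intro x y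
    have h1 := par_deriv (f := fun y τ => lft F (x + τ, y)) (f' := fun y τ => lft F2 (x + τ, y))
      ((lft_cont hFc).comp (f := fun z : ℝ × ℝ => (x + z.2, z.1)) (by fun_prop))
      ((lft_cont h.c2).comp (f := fun z : ℝ × ℝ => (x + z.2, z.1)) (by fun_prop))
      (C := C2) (fun x τ => hC2 _)
      (fun y τ => h.d2 (x + τ) y) hw y
    have e1 : (fun t => lft (KP F) (x, t)) =
        fun y => ∫ τ in (0:ℝ)..1, (τ - 1 / 2) * lft F (x + τ, y) := by
      funext t
      exact eK F x t
    rw [e1, eK]
    exact h1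

/-- the correlation along a translation of the first coordinate -/
noncomputable def Phi (F G : T2 → ℝ) (τ : ℝ) : ℝ :=
  ∫ p : T2, F p * G (p.1 + (τ : UnitAddCircle), p.2)

theorem Phi_KP {F G : T2 → ℝ} (hF : Continuous F) (hG : Continuous G) :
    ∫ p, F p * KP G p = ∫ τ in (0:ℝ)..1, (τ - 1 / 2) * Phi F G τ := by
  set f : ℝ → T2 → ℝ := fun τ p => (τ - 1 / 2) * (F p * G (p.1 + (τ : UnitAddCircle), p.2)) with hf
  have hc : Continuous (uncurry f) := by
    have h1 := (shift_cont hG).comp (f := fun z : ℝ × T2 => (z.2, z.1)) (by fun_prop)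
    exact (continuous_fst.sub continuous_const).mul ((hF.comp continuous_snd).mul h1)
  have e : (volume.restrict (Set.uIoc (0:ℝ) 1)).prod (volume : Measure T2) =
      ((volume : Measure ℝ).prod (volume : Measure T2)).restrict (Set.uIoc (0:ℝ) 1 ×ˢ Set.univ) := by
    rw [← Measure.prod_restrict, Measure.restrict_univ]
  have hi : Integrable (uncurry f) ((volume.restrict (Set.uIoc (0:ℝ) 1)).prod volume) := by
    rw [e]
    have h1 : IntegrableOn (uncurry f) (Set.Icc (0:ℝ) 1 ×ˢ (Set.univ : Set T2))
        ((volume : Measure ℝ).prod (volume : Measure T2)) :=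
      hc.continuousOn.integrableOn_compact (isCompact_Icc.prod isCompact_univ)
    refine h1.mono_set ?_
    rw [Set.uIoc_of_le zero_le_one]
    exact Set.prod_mono Set.Ioc_subset_Icc_self le_rfl
  have h := intervalIntegral_integral_swap hi
  have e1 : ∀ τ, ∫ p, f τ p = (τ - 1 / 2) * Phi F G τ := by
    intro τ
    rw [hf]
    simp only
    rw [integral_const_mul]
    rfl
  have e2 : ∀ p, ∫ τ in (0:ℝ)..1, f τ p = F p * KP G p := by
    intro p
    unfold KP
    rw [← intervalIntegral.integral_const_mul]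
    apply intervalIntegral.integral_congr
    intro τ _
    rw [hf]
    simp only
    ring
  simp_rw [e1, e2] at h
  exact h.symm

instance instInvT2 : (volume : Measure T2).IsAddLeftInvariant :=
  inferInstanceAs (((volume : Measure UnitAddCircle).prod
    (volume : Measure UnitAddCircle)).IsAddLeftInvariant)

theorem Phi_swap (F G : T2 → ℝ) (τ : ℝ) : Phi F G τ = Phi G F (1 - τ) := by
  unfold Phi
  have h := integral_add_left_eq_self (μ := (volume : Measure T2))
    (fun p : T2 => G p * F (p.1 + ((1 - τ : ℝ) : UnitAddCircle), p.2))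
    (((τ : UnitAddCircle), (0 : UnitAddCircle)) : T2)
  rw [← h]
  congr 1
  funext p
  have e1 : ((((τ : UnitAddCircle), (0 : UnitAddCircle)) : T2) + p) =
      (p.1 + (τ : UnitAddCircle), p.2) := by
    ext
    · exact add_comm _ _
    · exact zero_add _
  rw [e1]
  simp only
  have e2 : p.1 + (τ : UnitAddCircle) + ((1 - τ : ℝ) : UnitAddCircle) = p.1 := by
    rw [add_assoc, ← AddCircle.coe_add]
    have : τ + (1 - τ) = 1 := by ring
    rw [this, AddCircle.coe_period, add_zero]
  rw [e2]
  ring

/-- antisymmetry -/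
theorem KP_anti {F G : T2 → ℝ} (hF : Continuous F) (hG : Continuous G) :
    ∫ p, F p * KP G p = - ∫ p, G p * KP F p := by
  rw [Phi_KP hF hG, Phi_KP hG hF, ← intervalIntegral.integral_neg]
  have h := intervalIntegral.integral_comp_sub_left (a := 0) (b := 1)
    (fun τ : ℝ => -((τ - 1 / 2) * Phi G F τ)) 1
  rw [sub_self, sub_zero] at h
  rw [← h]
  apply intervalIntegral.integral_congr
  intro τ _
  simp only
  rw [Phi_swap F G τ]
  ring

/-- integration by parts in the second coordinate -/
theorem ibpT {F F1 F2 G G1 G2 : T2 → ℝ} (hF : C1T F F1 F2) (hG : C1T G G1 G2) :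
    ∫ p, F2 p * G p = - ∫ p, F p * G2 p := by
  have c1 : Continuous (fun p => F2 p * G p) := hF.c2.mul hG.cont
  have c2 : Continuous (fun p => F p * G2 p) := hF.cont.mul hG.c2
  have h : ∫ p, (F2 p * G p + F p * G2 p) = 0 := by
    have cc : Continuous (fun p => F2 p * G p + F p * G2 p) := c1.add c2
    rw [int_T2' cc]
    have : ∀ x : ℝ, ∫ y in (0:ℝ)..1, (F2 ((x : UnitAddCircle), (y : UnitAddCircle)) *
        G ((x : UnitAddCircle), (y : UnitAddCircle)) +
        F ((x : UnitAddCircle), (y : UnitAddCircle)) *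
        G2 ((x : UnitAddCircle), (y : UnitAddCircle))) = 0 := by
      intro x
      have hd : ∀ y : ℝ, HasDerivAt (fun y => lft F (x, y) * lft G (x, y))
          (F2 ((x : UnitAddCircle), (y : UnitAddCircle)) *
        G ((x : UnitAddCircle), (y : UnitAddCircle)) +
        F ((x : UnitAddCircle), (y : UnitAddCircle)) *
        G2 ((x : UnitAddCircle), (y : UnitAddCircle))) y := fun y =>
        (hF.d2 x y).mul (hG.d2 x y)
      have mkc : Continuous (fun y : ℝ => (((x : UnitAddCircle), (y : UnitAddCircle)) : T2)) :=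
        continuous_const.prodMk (AddCircle.continuous_mk' 1)
      have hFTC := intervalIntegral.integral_eq_sub_of_hasDerivAt (a := 0) (b := 1)
        (fun y _ => hd y) ((cc.comp mkc).intervalIntegrable _ _)
      rw [hFTC]
      have e1 : lft F (x, 1) = lft F (x, 0) := by
        have := lft_per F (x, 0) 0 1
        simpa using this
      have e2 : lft G (x, 1) = lft G (x, 0) := by
        have := lft_per G (x, 0) 0 1
        simpa using this
      rw [e1, e2, sub_self]
    simp_rw [this]
    simp
  rw [integral_add (Pool.Agent.TH705.SM.integrable_cont c1)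
    (Pool.Agent.TH705.SM.integrable_cont c2)] at h
  linarith

/-- the operator is moved to the other side together with the derivative -/
theorem KP_move {F F1 F2 G G1 G2 : T2 → ℝ} (hF : C1T F F1 F2) (hG : C1T G G1 G2) :
    ∫ p, G p * KP F2 p = ∫ p, F p * KP G2 p := by
  rw [KP_anti hG.cont hF.c2, ibpT hF (KP_c1t hG), neg_neg]

end Pool.Agent.H52.STD
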