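import Mathlib
import Pool.Agent.H52.STD.Sq13
import Pool.Agent.H52.STD.Sq14

set_option autoImplicit false

/-!
# Decorrelation of rough observables of both coordinates
-/

namespace Pool.Agent.H52.STD

open Real MeasureTheory Function Filter Topology

/-! ### time reversal -/

theorem S_rev (α : ℝ) (z : T2) :
    Pool.Agent.TH705.SM.S α (sw (Pool.Agent.TH705.SM.S α z)) = sw z := by
  unfold Pool.Agent.TH705.SM.S sw
  simp

theorem cs_succ' (α : ℝ) (n : ℕ) (p : T2) :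
    cs (fun _ => α) (n + 1) p = cs (fun _ => α) n (Pool.Agent.TH705.SM.S α p) := by
  have h := cs_add (fun _ => α) 1 n p
  rw [add_comm] at h
  exact h

theorem cs_rev (α : ℝ) (n : ℕ) (q : T2) :
    cs (fun _ => α) n (sw (cs (fun _ => α) n q)) = sw q := by
  induction n with
  | zero => rfl
  | succ n ih =>
    rw [cs_succ']
    have e : cs (fun _ => α) (n + 1) q = Pool.Agent.TH705.SM.S α (cs (fun _ => α) n q) := rfl
    rw [e, S_rev, ih]

/-- the reversed orbit -/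
noncomputable def sg (α : ℝ) (n : ℕ) (p : T2) : T2 := sw (cs (fun _ => α) n p)

theorem sg_sg (α : ℝ) (n : ℕ) (p : T2) : sg α n (sg α n p) = p := by
  unfold sg
  rw [cs_rev, sw_sw]

theorem cs_sg (α : ℝ) (n : ℕ) (p : T2) : cs (fun _ => α) n (sg α n p) = sw p := cs_rev α n p

theorem sg_cont (α : ℝ) (n : ℕ) : Continuous (sg α n) := sw_cont.comp (cs_cont _ n)

theorem mp_int {τ : T2 → T2} (hmp : MeasurePreserving τ (volume : Measure T2) volume)
    {F : T2 → ℝ} (hF : Continuous F) : ∫ p, F (τ p) = ∫ p, F p := by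
  have h1 : ∫ y, F y ∂(Measure.map τ volume) = ∫ p, F (τ p) :=
    integral_map hmp.measurable.aemeasurable (by rw [hmp.map_eq]; exact hF.aestronglyMeasurable)
  rw [← h1, hmp.map_eq]

theorem sg_mp (α : ℝ) (n : ℕ) : MeasurePreserving (sg α n) (volume : Measure T2) volume :=
  sw_mp.comp (cs_mp _ n)

/-! ### the observable cut off -/

/-- the observable of the future, cut off -/
noncomputable def Fo (α lm l : ℝ) (m : ℕ) (f : T2 → ℝ) (p : T2) : ℝ :=
  XiT (fun _ => α) lm l m (sg α (m + 1) p) * f (cs (fun _ => α) (m + 1) p)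

theorem Fo_smo (α lm l : ℝ) (m : ℕ) {f : T2 → ℝ} (hf : Smo f) : Smo (Fo α lm l m f) :=
  ((XiT_smo (fun _ => α) lm l m).sw.comp_cs (fun _ => α) (m + 1)).mul (hf.comp_cs _ (m + 1))

theorem Fo_bdd (α lm l : ℝ) (m : ℕ) {f : T2 → ℝ} (hf : ∀ p, |f p| ≤ 1) (p : T2) :
    |Fo α lm l m f p| ≤ 1 := by
  unfold Fo
  have h := XiT_mem (fun _ => α) lm l m (sg α (m + 1) p)
  rw [abs_mul, abs_of_nonneg h.1]
  exact mul_le_one₀ h.2 (abs_nonneg _) (hf _)

theorem Fo_sub (α lm l : ℝ) (m : ℕ) {f : T2 → ℝ} (hf : ∀ p, |f p| ≤ 1) (p : T2) :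
    |f (cs (fun _ => α) (m + 1) p) - Fo α lm l m f p| ≤
      1 - XiT (fun _ => α) lm l m (sg α (m + 1) p) := by
  unfold Fo
  have h := XiT_mem (fun _ => α) lm l m (sg α (m + 1) p)
  have e : f (cs (fun _ => α) (m + 1) p) - XiT (fun _ => α) lm l m (sg α (m + 1) p) *
      f (cs (fun _ => α) (m + 1) p) = (1 - XiT (fun _ => α) lm l m (sg α (m + 1) p)) *
        f (cs (fun _ => α) (m + 1) p) := by ring
  rw [e, abs_mul, abs_of_nonneg (by linarith)]
  exact mul_le_of_le_one_right (by linarith) (hf _)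

/-- the error of one chain -/
noncomputable def Er (K lm l : ℝ) (m : ℕ) (N : ℝ) : ℝ :=
  K * (2 / lm + 1 / l) + 16 * (1 / 2) ^ (m + 1) * (1 / l + 1 / lm) * N

/-- integration by parts for the reversed chain -/
theorem star2 {C : ℝ} (hC0 : 0 ≤ C) (hC : ∀ z, |rho' 1 z| ≤ C) {α lm l : ℝ} (hα : 1 ≤ |α|)
    (hlm : 16 ≤ lm) (hl : 4 ≤ l) (m : ℕ)
    {f f1 f2 : T2 → ℝ} (hf : C1T f f1 f2) (hfb : ∀ p, |f p| ≤ 1)
    {H H1 H2 : T2 → ℝ} (hH : C1T H H1 H2) {A : ℝ} (hA : ∀ p, |H p| ≤ A) :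
    |∫ p, Fo α lm l m f p * H2 p| ≤
      A * Er (1440 * C + 400) lm l m (∫ p, |f2 p|) + 2 / l * ∫ p, |H1 p| := by
  have hFc : Continuous (Fo α lm l m f) :=
    ((XiT_smo (fun _ => α) lm l m).cont.comp (sg_cont α (m + 1))).mul
      (hf.cont.comp (cs_cont _ (m + 1)))
  have h := star hC0 hC (fun _ => α) hlm hl m (fun _ _ => hα) hf.sw (fun p => hfb _) hH.sw
    (A := A) (fun p => hA _)
  have e1 : ∫ p, Fo α lm l m f p * H2 p = ∫ p, XiT (fun _ => α) lm l m p * f (sw p) *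
      H2 (sw (cs (fun _ => α) (m + 1) p)) := by
    rw [← mp_int (sg_mp α (m + 1)) (F := fun p => Fo α lm l m f p * H2 p) (hFc.mul hH.c2)]
    congr 1
    funext p
    show Fo α lm l m f (sg α (m + 1) p) * H2 (sg α (m + 1) p) = _
    unfold Fo
    rw [sg_sg, cs_sg]
    rfl
  have e2 : ∫ p, |f2 (sw p)| = ∫ p, |f2 p| := mp_int sw_mp (F := fun p => |f2 p|) hf.c2.abs
  have e3 : ∫ p, |H1 (sw p)| = ∫ p, |H1 p| := mp_int sw_mp (F := fun p => |H1 p|) hH.c1.abs
  rw [e1]
  rw [e2, e3] at h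
  exact h

/-! ### test functions -/

theorem alg_smo {g : C(T2, ℝ)} (hg : g ∈ alg) : Smo g := by
  have hg1 : g ∈ Submodule.span ℝ (prods : Set C(T2, ℝ)) := by rw [← alg_eq]; exact hg
  induction hg1 using Submodule.span_induction with
  | mem f hf =>
    obtain ⟨u, v, hu, hv, e⟩ := hf
    have e1 : (f : T2 → ℝ) = fun p : T2 => u p.1 * v p.2 := funext e
    rw [e1]
    exact smo_prod hu hv
  | zero => exact contDiff_const
  | add x y _ _ i1 i2 =>
    have h1 : ContDiff ℝ 1 (lft x) := i1 (by rw [← Subalgebra.mem_toSubmodule, alg_eq]; assumption)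
    have h2 : ContDiff ℝ 1 (lft y) := i2 (by rw [← Subalgebra.mem_toSubmodule, alg_eq]; assumption)
    exact h1.add h2
  | smul c x _ i1 =>
    have h1 : ContDiff ℝ 1 (lft x) := i1 (by rw [← Subalgebra.mem_toSubmodule, alg_eq]; assumption)
    exact contDiff_const.mul h1

/-- the integral of the absolute value by duality -/
theorem L1_test {k : T2 → ℝ} (hk : Continuous k) {B : ℝ}
    (h : ∀ g : T2 → ℝ, Smo g → (∀ p, |g p| ≤ 3 / 2) → |∫ p, g p * k p| ≤ B) :
    ∫ p, |k p| ≤ 2 + 2 * B := by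
  have hden : ∀ p, 0 < |k p| + 1 := fun p => by positivity
  set h0 : C(T2, ℝ) := ⟨fun p => k p / (|k p| + 1),
    hk.div (hk.abs.add continuous_const) fun p => (hden p).ne'⟩ with hh0
  have h0e : ∀ p, h0 p = k p / (|k p| + 1) := fun p => rfl
  obtain ⟨g, hg, hd⟩ := alg_dense.exists_dist_lt h0 (show (0:ℝ) < 1 / 2 by norm_num)
  have hgd : ∀ p, |h0 p - g p| ≤ 1 / 2 := by
    intro p
    have := ContinuousMap.dist_apply_le_dist (f := h0) (g := g) p
    rw [Real.dist_eq] at this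
    linarith
  have hh1 : ∀ p, |h0 p| ≤ 1 := by
    intro p
    rw [h0e, abs_div, abs_of_pos (hden p), div_le_one (hden p)]
    linarith
  have hgb : ∀ p, |g p| ≤ 3 / 2 := by
    intro p
    have q1 := hgd p
    have q2 := hh1 p
    rw [abs_le] at q1 q2 ⊢
    constructor
    · linarith [q1.1, q1.2, q2.1, q2.2]
    · linarith [q1.1, q1.2, q2.1, q2.2]
  have hB := h g (alg_smo hg) hgb
  have hgc : Continuous (g : T2 → ℝ) := g.continuous
  have hpt : ∀ p, |k p| ≤ 1 + g p * k p + 1 / 2 * |k p| := by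
    intro p
    have q1 := hgd p
    have q2 : |k p| - 1 ≤ h0 p * k p := by
      rw [h0e, div_mul_eq_mul_div, le_div_iff₀ (hden p)]
      have e : k p * k p = |k p| * |k p| := (abs_mul_abs_self (k p)).symm
      rw [e]
      nlinarith [abs_nonneg (k p)]
    have q3 : (h0 p - g p) * k p ≤ 1 / 2 * |k p| := by
      calc (h0 p - g p) * k p ≤ |(h0 p - g p) * k p| := le_abs_self _
        _ = |h0 p - g p| * |k p| := abs_mul _ _
        _ ≤ _ := mul_le_mul_of_nonneg_right q1 (abs_nonneg _)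
    linarith
  have i1 : Integrable (fun p => |k p|) := Pool.Agent.TH705.SM.integrable_cont hk.abs
  have i2 : Integrable (fun p => g p * k p) := Pool.Agent.TH705.SM.integrable_cont (hgc.mul hk)
  have i3 : Integrable (fun p => 1 + g p * k p) := (integrable_const _).add i2
  have i4 : Integrable (fun p => 1 / 2 * |k p|) := i1.const_mul _
  have h1 : ∫ p, |k p| ≤ ∫ p, (1 + g p * k p + 1 / 2 * |k p|) :=
    integral_mono i1 (i3.add i4) hpt
  rw [integral_add i3 i4, integral_add (integrable_const _) i2, integral_const_mul] at h1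
  simp only [integral_const, probReal_univ, one_smul] at h1
  have h2 := le_abs_self (∫ p, g p * k p)
  linarith

/-! ### the mean in the first coordinate as an observable -/

theorem M1_sm1 {F F1 F2 : T2 → ℝ} (h : C1T F F1 F2) (y : ℝ) :
    HasDerivAt (fun y : ℝ => M1 F (y : UnitAddCircle)) (M1 F2 (y : UnitAddCircle)) y := by
  obtain ⟨C2, _, hC2⟩ := T2_bdd h.c2
  have h1 := par_deriv (f := fun y τ => lft F (τ, y)) (f' := fun y τ => lft F2 (τ, y))
      ((lft_cont h.cont).comp (f := fun z : ℝ × ℝ => (z.2, z.1)) (by fun_prop))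
      ((lft_cont h.c2).comp (f := fun z : ℝ × ℝ => (z.2, z.1)) (by fun_prop))
      (C := C2) (fun x τ => hC2 _)
      (fun y τ => h.d2 τ y) (w := fun _ => 1) continuous_const y
  simp only [one_mul] at h1
  exact h1

/-- the mean in the first coordinate, as a function of the first coordinate -/
noncomputable def MG (F : T2 → ℝ) (p : T2) : ℝ := M1 F p.1

theorem MG_c1t {F F1 F2 : T2 → ℝ} (h : C1T F F1 F2) : C1T (MG F) (MG F2) (fun _ => 0) where
  c1 := (M1_cont h.c2).comp continuous_fst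
  c2 := continuous_const
  d1 := fun x y => M1_sm1 h x
  d2 := fun x y => by
    show HasDerivAt (fun _ : ℝ => M1 F (x : UnitAddCircle)) 0 y
    exact hasDerivAt_const _ _

theorem M1_int {F : T2 → ℝ} (hF : Continuous F) : ∫ y : UnitAddCircle, M1 F y = ∫ p, F p := by
  rw [circle_int, Pool.Agent.TH705.SM.int_T2 _ (Pool.Agent.TH705.SM.integrable_cont hF)]
  rfl

theorem M1_MG {F : T2 → ℝ} (hF : Continuous F) (y : UnitAddCircle) :
    M1 (MG F) y = ∫ p, F p := by
  rw [← M1_int hF, circle_int]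
  rfl

theorem KP_zero (p : T2) : KP (fun _ => 0) p = 0 := by
  unfold KP
  simp

/-! ### bounds of integrals -/

theorem cint_le {f b : T2 → ℝ} (hb : Continuous b) (h : ∀ p, |f p| ≤ b p) :
    |∫ p, f p| ≤ ∫ p, b p := by
  rw [← norm_eq_abs]
  exact norm_integral_le_of_norm_le (Pool.Agent.TH705.SM.integrable_cont hb)
    (Filter.Eventually.of_forall fun p => by rw [norm_eq_abs]; exact h p)

theorem cint_one {f : T2 → ℝ} (h : ∀ p, |f p| ≤ 1) : |∫ p, f p| ≤ 1 := by
  have := cint_le (f := f) (b := fun _ => 1) continuous_const h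
  simpa using this

theorem cint_add {f g : T2 → ℝ} (hf : Continuous f) (hg : Continuous g) :
    ∫ p, (f p + g p) = (∫ p, f p) + ∫ p, g p :=
  integral_add (Pool.Agent.TH705.SM.integrable_cont hf) (Pool.Agent.TH705.SM.integrable_cont hg)

theorem cint_add7 {t1 t2 t3 t4 t5 t6 t7 : T2 → ℝ} (h1 : Continuous t1) (h2 : Continuous t2)
    (h3 : Continuous t3) (h4 : Continuous t4) (h5 : Continuous t5) (h6 : Continuous t6)
    (h7 : Continuous t7) :
    ∫ p, (t1 p + (t2 p + (t3 p + (t4 p + (t5 p + (t6 p + t7 p)))))) =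
      (∫ p, t1 p) + ((∫ p, t2 p) + ((∫ p, t3 p) + ((∫ p, t4 p) + ((∫ p, t5 p) +
        ((∫ p, t6 p) + ∫ p, t7 p))))) := by
  rw [cint_add h1 (g := fun p => t2 p + (t3 p + (t4 p + (t5 p + (t6 p + t7 p))))) (by fun_prop),
    cint_add h2 (g := fun p => t3 p + (t4 p + (t5 p + (t6 p + t7 p)))) (by fun_prop),
    cint_add h3 (g := fun p => t4 p + (t5 p + (t6 p + t7 p))) (by fun_prop),
    cint_add h4 (g := fun p => t5 p + (t6 p + t7 p)) (by fun_prop),
    cint_add h5 (g := fun p => t6 p + t7 p) (by fun_prop), cint_add h6 h7]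

/-- the loss -/
noncomputable def Xr (α lm l : ℝ) (m : ℕ) : ℝ := 18 * lm * (m * kap α α) + 3 * l / |α|

theorem loss_le {α lm l : ℝ} (hα : 1 ≤ |α|) (hlm : 16 ≤ lm) (hl : 4 ≤ l) (m : ℕ) :
    ∫ p, (1 - XiT (fun _ => α) lm l m p) ≤ Xr α lm l m := by
  have hlm0 : 0 < lm := by linarith
  have hl0 : 0 < l := by linarith
  have c1 : Continuous (fun p => 1 - XiT (fun _ => α) lm l m p) :=
    continuous_const.sub (XiT_smo (fun _ => α) lm l m).cont
  have h1 : ∫ p, (1 - XiT (fun _ => α) lm l m p) ≤ ∫ p, XT (fun _ => α) lm l m p :=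
    integral_mono (Pool.Agent.TH705.SM.integrable_cont c1)
      (Pool.Agent.TH705.SM.integrable_cont (XT_cont (fun _ => α) hlm0 hl0 m))
      fun p => one_sub_XiT _ hlm0 hl0 m p
  refine h1.trans ((XT_int (fun _ => α) hlm hl0 m fun _ _ => hα).trans ?_)
  unfold Xr
  rw [Finset.sum_const, Finset.card_range, nsmul_eq_mul]

theorem S_snd (α : ℝ) (p : T2) : (Pool.Agent.TH705.SM.S α p).2 = p.1 := rfl

/-- the two sided estimate -/
theorem two_sided {C : ℝ} (hC0 : 0 ≤ C) (hC : ∀ z, |rho' 1 z| ≤ C) {α lm l : ℝ} (hα : 1 ≤ |α|)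
    (hlm : 16 ≤ lm) (hl : 4 ≤ l) (m k : ℕ) {φ φ1 φ2 ψ ψ1 ψ2 : T2 → ℝ} (hφ : C1T φ φ1 φ2)
    (hφs : Smo φ) (hφ1 : ∀ p, |φ p| ≤ 1) (hψ : C1T ψ ψ1 ψ2) (hψ1 : ∀ p, |ψ p| ≤ 1) :
    |(∫ p, φ (cs (fun _ => α) (k + 2 + (m + 1)) p) * ψ p) - (∫ p, φ p) * ∫ p, ψ p| ≤
      2 * (Xr α lm l m + Xr α lm l (k + 1) + Xr α lm l k) +
      (Er (1440 * C + 400) lm l m (∫ p, |φ2 p|) + Er (1440 * C + 400) lm l (k + 1) (∫ p, |ψ1 p|) +
        Er (1440 * C + 400) lm l k (∫ p, |ψ1 p|)) + 10 / l := by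
  set K := 1440 * C + 400 with hK
  have hK0 : 0 ≤ K := by rw [hK]; positivity
  have hl0 : 0 < l := by linarith
  have hlm0 : 0 < lm := by linarith
  set U : T2 → T2 := cs (fun _ => α) (k + 2) with hU
  have hUc : Continuous U := cs_cont _ _
  have hUmp : MeasurePreserving U (volume : Measure T2) volume := cs_mp _ _
  set F : T2 → ℝ := fun p => φ (cs (fun _ => α) (m + 1) p) with hF
  have hFc : Continuous F := hφ.cont.comp (cs_cont _ _)
  set G := Fo α lm l m φ with hG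
  have hGs : Smo G := Fo_smo α lm l m hφs
  have hGc := hGs.c1t
  have hGct : Continuous G := hGs.cont
  have hG1 : ∀ p, |G p| ≤ 1 := Fo_bdd α lm l m hφ1
  set X1 : T2 → ℝ := XiT (fun _ => α) lm l m with hX1
  set X2 : T2 → ℝ := XiT (fun _ => α) lm l (k + 1) with hX2
  set X3 : T2 → ℝ := XiT (fun _ => α) lm l k with hX3
  have cX1 : Continuous X1 := (XiT_smo _ _ _ _).cont
  have cX2 : Continuous X2 := (XiT_smo _ _ _ _).cont
  have cX3 : Continuous X3 := (XiT_smo _ _ _ _).cont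
  have mX1 : ∀ p, 0 ≤ X1 p ∧ X1 p ≤ 1 := XiT_mem _ _ _ _
  have mX2 : ∀ p, 0 ≤ X2 p ∧ X2 p ≤ 1 := XiT_mem _ _ _ _
  have mX3 : ∀ p, 0 ≤ X3 p ∧ X3 p ≤ 1 := XiT_mem _ _ _ _
  have l1 : ∫ p, (1 - X1 p) ≤ Xr α lm l m := loss_le hα hlm hl m
  have l2 : ∫ p, (1 - X2 p) ≤ Xr α lm l (k + 1) := loss_le hα hlm hl (k + 1)
  have l3 : ∫ p, (1 - X3 p) ≤ Xr α lm l k := loss_le hα hlm hl k
  have c1X1 : Continuous (fun p => 1 - X1 p) := continuous_const.sub cX1
  have c1X2 : Continuous (fun p => 1 - X2 p) := continuous_const.sub cX2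
  have c1X3 : Continuous (fun p => 1 - X3 p) := continuous_const.sub cX3
  set c : ℝ := ∫ p, G p with hc
  have hc1 : |c| ≤ 1 := cint_one hG1
  have cψ := hψ.cont
  have cM : Continuous (M1 G) := M1_cont hGct
  have cM1 : Continuous (fun p : T2 => M1 G (U p).2) := cM.comp (continuous_snd.comp hUc)
  have bM : ∀ y, |M1 G y| ≤ 1 := M1_bdd hG1
  -- the losses
  have T1 : |∫ p, (F (U p) - G (U p)) * ψ p| ≤ Xr α lm l m := by
    have cs1 : Continuous (fun p => 1 - X1 (sg α (m + 1) p)) := c1X1.comp (sg_cont α (m + 1))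
    have q1 := cint_le (f := fun p => (F (U p) - G (U p)) * ψ p)
      (b := fun p => 1 - X1 (sg α (m + 1) (U p))) (cs1.comp hUc) (by
        intro p
        rw [abs_mul]
        have r1 := Fo_sub α lm l m hφ1 (U p)
        have r2 := mul_le_of_le_one_right (abs_nonneg (F (U p) - G (U p))) (hψ1 p)
        exact r2.trans r1)
    rw [mp_int hUmp cs1, mp_int (sg_mp α (m + 1)) c1X1] at q1
    linarith
  have T2b : |∫ p, G (U p) * (1 - X2 p) * ψ p| ≤ Xr α lm l (k + 1) := by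
    have q1 := cint_le (f := fun p => G (U p) * (1 - X2 p) * ψ p) c1X2 (by
      intro p
      have r0 := mX2 p
      rw [abs_mul, abs_mul, abs_of_nonneg (by linarith : 0 ≤ 1 - X2 p)]
      have r1 : |G (U p)| * (1 - X2 p) ≤ 1 - X2 p :=
        mul_le_of_le_one_left (by linarith) (hG1 _)
      exact (mul_le_of_le_one_right (mul_nonneg (abs_nonneg _) (by linarith)) (hψ1 p)).trans r1)
    linarith
  have T4 : |∫ p, M1 G (U p).2 * (1 - X2 p) * ψ p| ≤ Xr α lm l (k + 1) := by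
    have q1 := cint_le (f := fun p => M1 G (U p).2 * (1 - X2 p) * ψ p) c1X2 (by
      intro p
      have r0 := mX2 p
      rw [abs_mul, abs_mul, abs_of_nonneg (by linarith : 0 ≤ 1 - X2 p)]
      have r1 : |M1 G (U p).2| * (1 - X2 p) ≤ 1 - X2 p :=
        mul_le_of_le_one_left (by linarith) (bM _)
      exact (mul_le_of_le_one_right (mul_nonneg (abs_nonneg _) (by linarith)) (hψ1 p)).trans r1)
    linarith
  have T5b : |∫ p, (M1 G (U p).2 - c) * (1 - X3 p) * ψ p| ≤ 2 * Xr α lm l k := by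
    have q1 := cint_le (f := fun p => (M1 G (U p).2 - c) * (1 - X3 p) * ψ p)
      (b := fun p => 2 * (1 - X3 p)) (continuous_const.mul c1X3) (by
      intro p
      have r0 := mX3 p
      rw [abs_mul, abs_mul, abs_of_nonneg (by linarith : 0 ≤ 1 - X3 p)]
      have r2 : |M1 G (U p).2 - c| ≤ 2 := by
        have := abs_sub (M1 G (U p).2) c
        linarith [bM (U p).2]
      have r1 : |M1 G (U p).2 - c| * (1 - X3 p) ≤ 2 * (1 - X3 p) :=
        mul_le_mul_of_nonneg_right r2 (by linarith)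
      exact (mul_le_of_le_one_right (mul_nonneg (abs_nonneg _) (by linarith)) (hψ1 p)).trans r1)
    rw [integral_const_mul] at q1
    linarith
  -- the second derivative of the primitive
  have e2int : 0 ≤ ∫ p, |φ2 p| := integral_nonneg fun p => abs_nonneg _
  have T3' : ∫ p, |KP (D2 G) p| ≤ 2 + 2 * (Er K lm l m (∫ p, |φ2 p|) + 2 / l * 3) := by
    apply L1_test (KP_cont hGc.c2)
    intro g hg hgb
    rw [KP_move hGc hg.c1t]
    have h1 := star2 hC0 hC hα hlm hl m hφ hφ1 (KP_c1t hg.c1t) (A := 1) (fun p => by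
      have := KP_bdd hgb p
      linarith)
    have h2 : ∫ p, |g p - M1 g p.2| ≤ 3 := by
      have q := cint_le (f := fun p => |g p - M1 g p.2|) (b := fun _ => 3) continuous_const (by
        intro p
        rw [abs_abs]
        have := abs_sub (g p) (M1 g p.2)
        linarith [hgb p, M1_bdd hgb p.2])
      simp only [integral_const, probReal_univ, one_smul] at q
      exact (le_abs_self _).trans q
    have h3 := mul_le_mul_of_nonneg_left h2 (by positivity : 0 ≤ 2 / l)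
    rw [one_mul, ← hK] at h1
    exact h1.trans (by linarith)
  have T3 : |∫ p, X2 p * ψ p * (G (U p) - M1 G (U p).2)| ≤
      Er K lm l (k + 1) (∫ p, |ψ1 p|) + 2 / l * ∫ p, |KP (D2 G) p| := by
    have h1 := star hC0 hC (fun _ => α) hlm hl (k + 1) (fun _ _ => hα) hψ hψ1 (KP_c1t hGc)
      (A := 1) (fun p => by
        have := KP_bdd hG1 p
        linarith)
    rw [one_mul] at h1
    exact h1
  have T5 : |∫ p, X3 p * ψ p * (M1 G (U p).2 - c)| ≤ Er K lm l k (∫ p, |ψ1 p|) := by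
    have bMG : ∀ p, |MG G p| ≤ 1 := fun p => bM p.1
    have h1 := star hC0 hC (fun _ => α) hlm hl k (fun _ _ => hα) hψ hψ1 (KP_c1t (MG_c1t hGc))
      (A := 1) (fun p => by
        have := KP_bdd bMG p
        linarith)
    simp_rw [KP_zero, M1_MG hGct] at h1
    rw [one_mul] at h1
    simp only [abs_zero, integral_zero, mul_zero, add_zero] at h1
    exact h1
  -- the limit
  have T6 : |c - ∫ p, φ p| ≤ Xr α lm l m := by
    have e1 : ∫ p, φ p = ∫ p, F p := (mp_int (cs_mp (fun _ => α) (m + 1)) hφ.cont).symm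
    have e2 : (∫ p, F p) - c = ∫ p, (F p - G p) := by
      rw [hc, ← integral_sub (Pool.Agent.TH705.SM.integrable_cont hFc)
        (Pool.Agent.TH705.SM.integrable_cont hGct)]
    rw [e1, abs_sub_comm, e2]
    have cs1 : Continuous (fun p => 1 - X1 (sg α (m + 1) p)) := c1X1.comp (sg_cont α (m + 1))
    have q1 := cint_le (f := fun p => F p - G p) cs1 (fun p => Fo_sub α lm l m hφ1 p)
    rw [mp_int (sg_mp α (m + 1)) c1X1] at q1
    linarith
  have hψi : |∫ p, ψ p| ≤ 1 := cint_one hψ1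
  -- the identity
  have ct1 : Continuous (fun p => (F (U p) - G (U p)) * ψ p) :=
    ((hFc.comp hUc).sub (hGct.comp hUc)).mul cψ
  have ct2 : Continuous (fun p => G (U p) * (1 - X2 p) * ψ p) :=
    ((hGct.comp hUc).mul c1X2).mul cψ
  have ct3 : Continuous (fun p => X2 p * ψ p * (G (U p) - M1 G (U p).2)) :=
    (cX2.mul cψ).mul ((hGct.comp hUc).sub cM1)
  have ct4 : Continuous (fun p => M1 G (U p).2 * (1 - X2 p) * ψ p) := (cM1.mul c1X2).mul cψ
  have ct5 : Continuous (fun p => X3 p * ψ p * (M1 G (U p).2 - c)) :=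
    (cX3.mul cψ).mul (cM1.sub continuous_const)
  have ct6 : Continuous (fun p => (M1 G (U p).2 - c) * (1 - X3 p) * ψ p) :=
    ((cM1.sub continuous_const).mul c1X3).mul cψ
  have ct7 : Continuous (fun p => c * ψ p) := continuous_const.mul cψ
  have eI : ∫ p, φ (cs (fun _ => α) (k + 2 + (m + 1)) p) * ψ p =
      (∫ p, (F (U p) - G (U p)) * ψ p) + ((∫ p, G (U p) * (1 - X2 p) * ψ p) +
      ((∫ p, X2 p * ψ p * (G (U p) - M1 G (U p).2)) +
      (-(∫ p, M1 G (U p).2 * (1 - X2 p) * ψ p) +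
      ((∫ p, X3 p * ψ p * (M1 G (U p).2 - c)) +
      ((∫ p, (M1 G (U p).2 - c) * (1 - X3 p) * ψ p) + c * ∫ p, ψ p))))) := by
    have ct4' : Continuous (fun p => -(M1 G (U p).2 * (1 - X2 p) * ψ p)) := ct4.neg
    rw [← integral_neg, ← integral_const_mul, ← cint_add7 ct1 ct2 ct3 ct4' ct5 ct6 ct7]
    congr 1
    funext p
    have e1 : cs (fun _ => α) (k + 2 + (m + 1)) p = cs (fun _ => α) (m + 1) (U p) :=
      cs_add (fun _ => α) (k + 2) (m + 1) p
    rw [e1]
    show F (U p) * ψ p = _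
    ring
  rw [eI]
  set I1 := ∫ p, (F (U p) - G (U p)) * ψ p with hI1
  set I2 := ∫ p, G (U p) * (1 - X2 p) * ψ p with hI2
  set I3 := ∫ p, X2 p * ψ p * (G (U p) - M1 G (U p).2) with hI3
  set I4 := ∫ p, M1 G (U p).2 * (1 - X2 p) * ψ p with hI4
  set I5 := ∫ p, X3 p * ψ p * (M1 G (U p).2 - c) with hI5
  set I6 := ∫ p, (M1 G (U p).2 - c) * (1 - X3 p) * ψ p with hI6
  set ci := c - ∫ p, φ p with hci
  have e9 : I1 + (I2 + (I3 + (-I4 + (I5 + (I6 + c * ∫ p, ψ p))))) - (∫ p, φ p) * ∫ p, ψ p =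
      I1 + I2 + I3 + (-I4) + I5 + I6 + ci * ∫ p, ψ p := by
    rw [hci]
    ring
  rw [e9]
  have T7 : |ci * ∫ p, ψ p| ≤ Xr α lm l m := by
    rw [abs_mul]
    exact (mul_le_of_le_one_right (abs_nonneg _) hψi).trans T6
  have b1 := abs_add_le (I1 + I2 + I3 + (-I4) + I5 + I6) (ci * ∫ p, ψ p)
  have b2 := abs_add_le (I1 + I2 + I3 + (-I4) + I5) I6
  have b3 := abs_add_le (I1 + I2 + I3 + (-I4)) I5
  have b4 := abs_add_le (I1 + I2 + I3) (-I4)
  have b5 := abs_add_le (I1 + I2) I3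
  have b6 := abs_add_le I1 I2
  rw [abs_neg] at b4
  have hE1 : 0 ≤ Er K lm l m (∫ p, |φ2 p|) := by
    unfold Er
    positivity
  have r1 := mul_le_mul_of_nonneg_left T3' (by positivity : 0 ≤ 2 / l)
  have hl4 : 1 / l ≤ 1 / 4 := one_div_le_one_div_of_le (by norm_num) hl
  have hl1 : 0 < 1 / l := by positivity
  have e10 : 2 / l * (2 + 2 * (Er K lm l m (∫ p, |φ2 p|) + 2 / l * 3)) =
      4 * (1 / l) + 4 * (1 / l) * Er K lm l m (∫ p, |φ2 p|) + 24 * ((1 / l) * (1 / l)) := by ring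
  have e11 : 10 / l = 10 * (1 / l) := by ring
  rw [e10] at r1
  rw [e11]
  have r2 : 4 * (1 / l) * Er K lm l m (∫ p, |φ2 p|) ≤ 1 * Er K lm l m (∫ p, |φ2 p|) :=
    mul_le_mul_of_nonneg_right (by linarith) hE1
  have r3 : (1 / l) * (1 / l) ≤ 1 / 4 * (1 / l) := mul_le_mul_of_nonneg_right hl4 hl1.le
  linarith

end Pool.Agent.H52.STD
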