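import Mathlib
import Pool.Agent.H52.STD.Sq12

set_option autoImplicit false

/-!
# Cutoffs with variable thresholds and a bound of the growth: weights
-/

namespace Pool.Agent.H52.STD

open Real MeasureTheory Function Filter Topology

/-- the products of consecutive derivatives exceed variable thresholds -/
structure GV (P : Par) (lm : ℕ → ℝ) (l : ℝ) (m : ℕ) (t : ℝ) : Prop where
  pair : ∀ j, 1 ≤ j → j ≤ m → lm j ≤ |LL P j t| * |LL P (j + 1) t|
  last : l ≤ |LL P (m + 1) t|

/-- the weights -/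
noncomputable def evV (P : Par) (lm : ℕ → ℝ) (l : ℝ) (m j : ℕ) (t : ℝ) : ℝ :=
  if j ≤ m then (1 / 2) ^ (m - j) * tt P (lm j) j t else ss P l (m + 1) t

/-- their sum -/
noncomputable def MMV (P : Par) (lm : ℕ → ℝ) (l : ℝ) (m : ℕ) (t : ℝ) : ℝ :=
  ∑ j ∈ Finset.range (m + 1), evV P lm l m (j + 1) t

section

variable {P : Par} {lm : ℕ → ℝ} {l t : ℝ} {m : ℕ}

theorem GV.q (h : GV P lm l m t) (hlm : ∀ j, 16 ≤ lm j) : GQ P 16 l m t :=
  ⟨fun j h1 h2 => (hlm j).trans (h.pair j h1 h2), h.last⟩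

theorem evV_nonneg (j : ℕ) (t : ℝ) : 0 ≤ evV P lm l m j t := by
  unfold evV
  split_ifs
  · have := tt_nonneg (P := P) (lm := lm j) j t
    positivity
  · exact ss_nonneg _ _

theorem MMV_nonneg (t : ℝ) : 0 ≤ MMV P lm l m t := Finset.sum_nonneg fun j _ => evV_nonneg _ _

theorem evV_le_MMV {j : ℕ} (h1 : 1 ≤ j) (h2 : j ≤ m + 1) (t : ℝ) :
    evV P lm l m j t ≤ MMV P lm l m t := by
  obtain ⟨i, rfl⟩ : ∃ i, j = i + 1 := ⟨j - 1, by omega⟩
  exact Finset.single_le_sum (f := fun j => evV P lm l m (j + 1) t) (fun i _ => evV_nonneg _ _)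
    (Finset.mem_range.2 (by omega))

/-- one source -/
theorem evV_bd (h : GV P lm l m t) (hlm : ∀ j, 16 ≤ lm j) (hl : 4 ≤ l) {j : ℕ} (h1 : 1 ≤ j)
    (h2 : j ≤ m + 1) : |P.a j| / LL P j t ^ 2 * RR P m t (j + 1) ≤ 4 * evV P lm l m j t := by
  have hq := h.q hlm
  have p1 := hq.ne le_rfl hl h1 h2
  have pL : 0 < LL P j t ^ 2 := by
    rw [← sq_abs]
    positivity
  unfold evV
  split_ifs with hj
  · have p2 := hq.ne le_rfl hl (k := j + 1) (by omega) (by omega)
    have hp := h.pair j h1 hj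
    have hlm' := hlm j
    rw [RR_succ (by omega)]
    have h3 := RR_le hq le_rfl hl (m - j) (j + 2) (by omega) (by omega)
    set x := |LL P j t| with hx
    set y := |LL P (j + 1) t| with hy
    have key : |P.a j| / LL P j t ^ 2 * (2 / y) ≤ 4 * tt P (lm j) j t := by
      unfold tt
      rw [← hy, ← sq_abs (LL P j t), ← sq_abs (LL P (j + 1) t), ← hx, ← hy]
      have e1 : |P.a j| / x ^ 2 * (2 / y) = |P.a j| * y * (2 / (x ^ 2 * y ^ 2)) := by
        field_simp
      have e2 : 4 * (|P.a j| * y / (x ^ 2 * y ^ 2 + lm j ^ 2)) =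
        |P.a j| * y * (4 / (x ^ 2 * y ^ 2 + lm j ^ 2)) := by ring
      rw [e1, e2]
      apply mul_le_mul_of_nonneg_left _ (by positivity)
      rw [div_le_div_iff₀ (by positivity) (by positivity)]
      have h4 : lm j ^ 2 ≤ x ^ 2 * y ^ 2 := by
        have := mul_self_le_mul_self (by linarith) hp
        nlinarith
      nlinarith
    have h5 : 0 ≤ |P.a j| / LL P j t ^ 2 * (2 / y) := by positivity
    calc |P.a j| / LL P j t ^ 2 * (2 / y * RR P m t (j + 1 + 1)) =
        |P.a j| / LL P j t ^ 2 * (2 / y) * RR P m t (j + 2) := by ring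
      _ ≤ |P.a j| / LL P j t ^ 2 * (2 / y) * (1 / 2) ^ (m - j) :=
          mul_le_mul_of_nonneg_left h3 h5
      _ ≤ 4 * tt P (lm j) j t * (1 / 2) ^ (m - j) :=
          mul_le_mul_of_nonneg_right key (by positivity)
      _ = _ := by ring
  · have : j = m + 1 := by omega
    subst this
    rw [RR_last, mul_one]
    unfold ss
    have hl' := h.last
    have h4 : l ^ 2 ≤ LL P (m + 1) t ^ 2 := by
      rw [← sq_abs (LL P (m + 1) t)]
      have := mul_self_le_mul_self (by linarith) hl'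
      nlinarith
    have e2 : 4 * (|P.a (m + 1)| / (LL P (m + 1) t ^ 2 + l ^ 2)) =
      |P.a (m + 1)| * (4 / (LL P (m + 1) t ^ 2 + l ^ 2)) := by ring
    have e1 : |P.a (m + 1)| / LL P (m + 1) t ^ 2 = |P.a (m + 1)| * (1 / LL P (m + 1) t ^ 2) := by
      ring
    rw [e1, e2]
    apply mul_le_mul_of_nonneg_left _ (abs_nonneg _)
    rw [div_le_div_iff₀ pL (by positivity)]
    nlinarith

/-- one derivative -/
theorem dlV (h : GV P lm l m t) (hlm : ∀ j, 16 ≤ lm j) (hl : 4 ≤ l) (hb : P.b = 0)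
    (hc : P.c = 1) {j : ℕ} (h1 : 1 ≤ j) (h2 : j ≤ m + 1) :
    |P.a j| * |D P j t| / |LL P j t| ≤ 8 * evV P lm l m j t * |D P (m + 2) t| := by
  have hq := h.q hlm
  have p1 := hq.ne le_rfl hl h1 h2
  obtain ⟨k, rfl⟩ : ∃ k, j = k + 1 := ⟨j - 1, by omega⟩
  have q1 := growQ hq le_rfl hl hb hc k (by omega)
  have q2 := DR hq le_rfl hl hb hc (m - k) (k + 2) (by omega) (by omega)
  have q3 := evV_bd h hlm hl h1 h2
  set x := |LL P (k + 1) t| with hx
  have q4 : |D P (k + 1) t| ≤ 8 / 7 * |D P (k + 2) t| / x := by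
    rw [le_div_iff₀ p1]
    linarith
  have hev := evV_nonneg (P := P) (lm := lm) (l := l) (m := m) (k + 1) t
  calc |P.a (k + 1)| * |D P (k + 1) t| / x ≤
      |P.a (k + 1)| * (8 / 7 * |D P (k + 2) t| / x) / x := by gcongr
    _ ≤ |P.a (k + 1)| * (8 / 7 * (RR P m t (k + 2) * |D P (m + 2) t|) / x) / x := by gcongr
    _ = 8 / 7 * (|P.a (k + 1)| / x ^ 2 * RR P m t (k + 1 + 1)) * |D P (m + 2) t| := by
        field_simp
    _ ≤ 8 / 7 * (4 * evV P lm l m (k + 1) t) * |D P (m + 2) t| := by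
        rw [hx, sq_abs]
        gcongr
    _ ≤ _ := by
        apply mul_le_mul_of_nonneg_right _ (abs_nonneg _)
        linarith

/-- the second derivative at the end -/
theorem B_MMV (h : GV P lm l m t) (hlm : ∀ j, 16 ≤ lm j) (hl : 4 ≤ l) (hb : P.b = 0)
    (hc : P.c = 1) : |B P (m + 2) t| ≤ 400 * MMV P lm l m t * D P (m + 2) t ^ 2 := by
  have h1 := BR (h.q hlm) le_rfl hl hb hc (m + 1) le_rfl
  rw [show m + 1 + 1 = m + 2 from rfl, RR_last, mul_one] at h1
  have h2 : sB P m t (m + 1) ≤ 400 * MMV P lm l m t := by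
    unfold sB MMV
    rw [Finset.mul_sum]
    apply Finset.sum_le_sum
    intro j hj
    have hj' := Finset.mem_range.1 hj
    have h3 := evV_bd h hlm hl (j := j + 1) (by omega) (by omega)
    calc 100 * |P.a (j + 1)| / LL P (j + 1) t ^ 2 * RR P m t (j + 2) =
        100 * (|P.a (j + 1)| / LL P (j + 1) t ^ 2 * RR P m t (j + 1 + 1)) := by ring
      _ ≤ 100 * (4 * evV P lm l m (j + 1) t) := by linarith
      _ = _ := by ring
  have h4 := mul_le_mul_of_nonneg_left h2 (sq_nonneg (D P (m + 2) t))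
  linarith

/-- the derivative of a cutoff of a product with an arbitrary threshold -/
theorem psi'_leV {C : ℝ} (hC0 : 0 ≤ C) (hC : ∀ z, |rho' 1 z| ≤ C) (h : GV P lm l m t)
    (hlm : ∀ j, 16 ≤ lm j) (hl : 4 ≤ l) (hb : P.b = 0) (hc : P.c = 1) {b : ℝ} (hb0 : 0 < b)
    {j : ℕ} (h1 : 1 ≤ j) (h2 : j ≤ m) : |psi' P b j t| ≤
      480 * C * (evV P lm l m j t + evV P lm l m (j + 1) t) * |D P (m + 2) t| := by
  have e0 := evV_nonneg (P := P) (lm := lm) (l := l) (m := m) j t
  have e1 := evV_nonneg (P := P) (lm := lm) (l := l) (m := m) (j + 1) t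
  by_cases hz : rho' 1 (LL P j t * LL P (j + 1) t / b) = 0
  · unfold psi'
    rw [hz, zero_mul, abs_zero]
    positivity
  · have hs := (rho'_supp hz).2
    have hq := h.q hlm
    have p1 := hq.ne le_rfl hl h1 (by omega)
    have p2 := hq.ne le_rfl hl (k := j + 1) (by omega) (by omega)
    rw [abs_div, abs_of_pos hb0, abs_mul, div_le_iff₀ hb0] at hs
    have d1 := dlV h hlm hl hb hc h1 (by omega : j ≤ m + 1)
    have d2 := dlV h hlm hl hb hc (j := j + 1) (by omega) (by omega)
    have l1 := LL'_le P j t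
    have l2 := LL'_le P (j + 1) t
    set x := |LL P j t| with hx
    set y := |LL P (j + 1) t| with hy
    set a0 := |P.a j| * |D P j t| with ha0
    set a1 := |P.a (j + 1)| * |D P (j + 1) t| with ha1
    have hxy : 0 < x * y := mul_pos p1 p2
    have hlm' : 1 / b ≤ 3 / 2 / (x * y) := by
      rw [div_le_div_iff₀ hb0 hxy]
      linarith
    have q1 : |LL' P j t * LL P (j + 1) t + LL P j t * LL' P (j + 1) t| ≤
        40 * a0 * y + 40 * a1 * x := by
      refine (abs_add_le _ _).trans ?_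
      rw [abs_mul, abs_mul]
      have r1 : |LL' P j t| * y ≤ 40 * |P.a j| * |D P j t| * y :=
        mul_le_mul_of_nonneg_right l1 p2.le
      have r2 : x * |LL' P (j + 1) t| ≤ x * (40 * |P.a (j + 1)| * |D P (j + 1) t|) :=
        mul_le_mul_of_nonneg_left l2 p1.le
      rw [ha0, ha1]
      linarith
    have a00 : 0 ≤ a0 := by positivity
    have a10 : 0 ≤ a1 := by positivity
    unfold psi'
    rw [abs_mul, abs_div, abs_of_pos hb0]
    calc |rho' 1 (LL P j t * LL P (j + 1) t / b)| *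
          (|LL' P j t * LL P (j + 1) t + LL P j t * LL' P (j + 1) t| / b)
        ≤ C * ((40 * a0 * y + 40 * a1 * x) * (1 / b)) := by
          apply mul_le_mul (hC _) _ (by positivity) hC0
          rw [div_eq_mul_one_div]
          exact mul_le_mul_of_nonneg_right q1 (by positivity)
      _ ≤ C * ((40 * a0 * y + 40 * a1 * x) * (3 / 2 / (x * y))) := by gcongr
      _ = C * (60 * (a0 / x) + 60 * (a1 / y)) := by
          field_simp
          ring
      _ ≤ C * (60 * (8 * evV P lm l m j t * |D P (m + 2) t|) +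
            60 * (8 * evV P lm l m (j + 1) t * |D P (m + 2) t|)) := by gcongr
      _ = _ := by ring

theorem phl'_leV {C : ℝ} (hC0 : 0 ≤ C) (hC : ∀ z, |rho' 1 z| ≤ C) (h : GV P lm l m t)
    (hlm : ∀ j, 16 ≤ lm j) (hl : 4 ≤ l) (hb : P.b = 0) (hc : P.c = 1) : |phl' P l (m + 1) t| ≤
      480 * C * evV P lm l m (m + 1) t * |D P (m + 2) t| := by
  have e0 := evV_nonneg (P := P) (lm := lm) (l := l) (m := m) (m + 1) t
  by_cases hz : rho' 1 (LL P (m + 1) t / l) = 0
  · unfold phl'
    rw [hz, zero_mul, abs_zero]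
    positivity
  · have hs := (rho'_supp hz).2
    have p1 := (h.q hlm).ne le_rfl hl (k := m + 1) (by omega) le_rfl
    have hl0 : 0 < l := by linarith
    rw [abs_div, abs_of_pos hl0, div_le_iff₀ hl0] at hs
    have d1 := dlV h hlm hl hb hc (j := m + 1) (by omega) le_rfl
    have l1 := LL'_le P (m + 1) t
    set x := |LL P (m + 1) t| with hx
    set a0 := |P.a (m + 1)| * |D P (m + 1) t| with ha0
    have hl' : 1 / l ≤ 3 / 2 / x := by
      rw [div_le_div_iff₀ hl0 p1]
      linarith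
    have a00 : 0 ≤ a0 := by positivity
    unfold phl'
    rw [abs_mul, abs_div, abs_of_pos hl0]
    calc |rho' 1 (LL P (m + 1) t / l)| * (|LL' P (m + 1) t| / l)
        ≤ C * ((40 * a0) * (1 / l)) := by
          apply mul_le_mul (hC _) _ (by positivity) hC0
          rw [div_eq_mul_one_div]
          apply mul_le_mul_of_nonneg_right _ (by positivity)
          rw [ha0]
          linarith
      _ ≤ C * ((40 * a0) * (3 / 2 / x)) := by gcongr
      _ = C * (60 * (a0 / x)) := by
          field_simp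
          ring
      _ ≤ C * (60 * (8 * evV P lm l m (m + 1) t * |D P (m + 2) t|)) := by gcongr
      _ = _ := by ring

end

/-! ### the cutoff of the pairs and of the last derivative -/

/-- the product of the cutoffs -/
noncomputable def PfV (P : Par) (lm : ℕ → ℝ) : ℕ → ℝ → ℝ
  | 0, _ => 1
  | m + 1, t => PfV P lm m t * psi P (lm (m + 1)) (m + 1) t

/-- its derivative -/
noncomputable def PfV' (P : Par) (lm : ℕ → ℝ) : ℕ → ℝ → ℝ
  | 0, _ => 0
  | m + 1, t => PfV' P lm m t * psi P (lm (m + 1)) (m + 1) t +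
      PfV P lm m t * psi' P (lm (m + 1)) (m + 1) t

theorem PfV_hasDeriv (P : Par) (lm : ℕ → ℝ) (m : ℕ) (t : ℝ) :
    HasDerivAt (PfV P lm m) (PfV' P lm m t) t := by
  induction m with
  | zero => exact hasDerivAt_const t 1
  | succ m ih => exact ih.mul (psi_hasDeriv P (lm (m + 1)) (m + 1) t)

theorem PfV_cont (P : Par) (lm : ℕ → ℝ) (m : ℕ) : Continuous (PfV P lm m) :=
  continuous_iff_continuousAt.2 fun t => (PfV_hasDeriv P lm m t).continuousAt

theorem PfV'_cont (P : Par) (lm : ℕ → ℝ) (m : ℕ) : Continuous (PfV' P lm m) := by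
  induction m with
  | zero => exact continuous_const
  | succ m ih => exact (ih.mul (psi_cont P _ (m + 1))).add ((PfV_cont P lm m).mul
      (psi'_cont P _ (m + 1)))

theorem PfV_mem (P : Par) (lm : ℕ → ℝ) (m : ℕ) (t : ℝ) :
    0 ≤ PfV P lm m t ∧ PfV P lm m t ≤ 1 := by
  induction m with
  | zero => exact ⟨zero_le_one, le_rfl⟩
  | succ m ih =>
    have h := psi_mem P (lm (m + 1)) (m + 1) t
    exact ⟨mul_nonneg ih.1 h.1, mul_le_one₀ ih.2 h.1 h.2⟩

/-- the number of small products, smoothed -/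
noncomputable def cnt (P : Par) (b : ℝ) (m : ℕ) (t : ℝ) : ℝ :=
  ∑ j ∈ Finset.range m, (1 - psi P b (j + 1) t)

/-- its derivative -/
noncomputable def cnt' (P : Par) (b : ℝ) (m : ℕ) (t : ℝ) : ℝ :=
  ∑ j ∈ Finset.range m, -psi' P b (j + 1) t

theorem cnt_hasDeriv (P : Par) (b : ℝ) (m : ℕ) (t : ℝ) :
    HasDerivAt (cnt P b m) (cnt' P b m t) t := by
  have h := HasDerivAt.fun_sum (u := Finset.range m) (A := fun j t => 1 - psi P b (j + 1) t)
    (A' := fun j => -psi' P b (j + 1) t) (x := t)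
    fun j _ => (psi_hasDeriv P b (j + 1) t).const_sub 1
  exact h

theorem cnt'_cont (P : Par) (b : ℝ) (m : ℕ) : Continuous (cnt' P b m) := by
  unfold cnt'
  exact continuous_finsetSum _ fun j _ => (psi'_cont P b (j + 1)).neg

theorem cnt_nonneg (P : Par) (b : ℝ) (m : ℕ) (t : ℝ) : 0 ≤ cnt P b m t :=
  Finset.sum_nonneg fun j _ => by
    have := (psi_mem P b (j + 1) t).2
    linarith

/-- the cutoff of the orbits with too many small products -/
noncomputable def tht (P : Par) (b : ℝ) (m : ℕ) (t : ℝ) : ℝ :=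
  smoothTransition (2 - 8 / m * cnt P b m t)

/-- its derivative -/
noncomputable def tht' (P : Par) (b : ℝ) (m : ℕ) (t : ℝ) : ℝ :=
  deriv smoothTransition (2 - 8 / m * cnt P b m t) * (-(8 / m * cnt' P b m t))

theorem sT_hasDeriv (x : ℝ) : HasDerivAt smoothTransition (deriv smoothTransition x) x :=
  ((smoothTransition.contDiff (n := 1)).differentiable one_ne_zero x).hasDerivAt

theorem sT_cont : Continuous (deriv smoothTransition) :=
  (smoothTransition.contDiff (n := 1)).continuous_deriv le_rfl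

theorem tht_hasDeriv (P : Par) (b : ℝ) (m : ℕ) (t : ℝ) :
    HasDerivAt (tht P b m) (tht' P b m t) t :=
  (sT_hasDeriv _).comp t (((cnt_hasDeriv P b m t).const_mul (8 / (m : ℝ))).const_sub 2)

theorem tht_mem (P : Par) (b : ℝ) (m : ℕ) (t : ℝ) : 0 ≤ tht P b m t ∧ tht P b m t ≤ 1 :=
  ⟨smoothTransition.nonneg _, smoothTransition.le_one _⟩

theorem cnt_cont (P : Par) (b : ℝ) (m : ℕ) : Continuous (cnt P b m) :=
  continuous_iff_continuousAt.2 fun t => (cnt_hasDeriv P b m t).continuousAt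

theorem tht_cont (P : Par) (b : ℝ) (m : ℕ) : Continuous (tht P b m) :=
  continuous_iff_continuousAt.2 fun t => (tht_hasDeriv P b m t).continuousAt

theorem tht'_cont (P : Par) (b : ℝ) (m : ℕ) : Continuous (tht' P b m) := by
  have h1 : Continuous (fun t => 2 - 8 / (m : ℝ) * cnt P b m t) :=
    continuous_const.sub (continuous_const.mul (cnt_cont P b m))
  exact (sT_cont.comp h1).mul (continuous_const.mul (cnt'_cont P b m)).neg

/-- few small products where the cutoff does not vanish -/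
theorem cnt_lt {P : Par} {b : ℝ} {m : ℕ} {t : ℝ} (h : tht P b m t ≠ 0) :
    cnt P b m t ≤ m / 4 := by
  rcases Nat.eq_zero_or_pos m with hm | hm
  · subst hm
    simp [cnt]
  · by_contra hcon
    apply h
    unfold tht
    apply smoothTransition.zero_of_nonpos
    have hm0 : (0:ℝ) < m := by exact_mod_cast hm
    have h1 : (m : ℝ) / 4 < cnt P b m t := not_le.1 hcon
    have h2 : 8 / (m : ℝ) * (m / 4) ≤ 8 / (m : ℝ) * cnt P b m t :=
      mul_le_mul_of_nonneg_left h1.le (by positivity)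
    have h3 : 8 / (m : ℝ) * (m / 4) = 2 := by
      field_simp
      norm_num
    linarith

/-- the loss -/
theorem tht_loss (P : Par) (b : ℝ) (m : ℕ) (t : ℝ) : 1 - tht P b m t ≤ 8 / m * cnt P b m t := by
  have h0 := cnt_nonneg P b m t
  have h1 : 0 ≤ 8 / (m : ℝ) * cnt P b m t := by positivity
  rcases le_or_gt (8 / (m : ℝ) * cnt P b m t) 1 with h | h
  · have : tht P b m t = 1 := smoothTransition.one_of_one_le (by linarith)
    rw [this]
    linarith
  · have := (tht_mem P b m t).1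
    linarith

theorem sT'_bdd : ∃ C : ℝ, 0 ≤ C ∧ ∀ z, |deriv smoothTransition z| ≤ C := by
  obtain ⟨C, hC⟩ := (isCompact_Icc (a := (0:ℝ)) (b := 1)).exists_bound_of_continuousOn
    sT_cont.continuousOn
  refine ⟨max C 0, le_max_right _ _, fun z => ?_⟩
  by_cases hz : z ∈ Set.Icc (0:ℝ) 1
  · have := hC z hz
    rw [norm_eq_abs] at this
    exact this.trans (le_max_left _ _)
  · rw [Set.mem_Icc, not_and_or, not_le, not_le] at hz
    rw [sT_deriv_zero hz, abs_zero]
    exact le_max_right _ _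

end Pool.Agent.H52.STD
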