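import Mathlib
import Pool.Agent.H52.STD.Va1

set_option autoImplicit false

/-!
# The full cutoff, growth of the derivative, integration by parts
-/

namespace Pool.Agent.H52.STD

open Real MeasureTheory Function Filter Topology

section

variable {P : Par} {lm : ℕ → ℝ} {l b t : ℝ} {m : ℕ}

theorem PfV_zero (hlm : ∀ j, 0 < lm j) {j : ℕ} (h1 : 1 ≤ j) (h2 : j ≤ m)
    (h : |LL P j t| * |LL P (j + 1) t| < lm j) : PfV P lm m t = 0 := by
  have h0 : psi P (lm j) j t = 0 := by
    unfold psi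
    apply rho_zero zero_le_one
    rw [abs_div, abs_of_pos (hlm j), div_le_one (hlm j), abs_mul]
    exact h.le
  induction m, h2 using Nat.le_induction with
  | base =>
    obtain ⟨i, rfl⟩ : ∃ i, j = i + 1 := ⟨j - 1, by omega⟩
    show PfV P lm i t * psi P (lm (i + 1)) (i + 1) t = 0
    rw [h0, mul_zero]
  | succ m hm ih =>
    show PfV P lm m t * psi P (lm (m + 1)) (m + 1) t = 0
    rw [ih, zero_mul]

/-- the full cutoff -/
noncomputable def xiV (P : Par) (lm : ℕ → ℝ) (l b : ℝ) (m : ℕ) (t : ℝ) : ℝ :=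
  PfV P lm m t * phl P l (m + 1) t * tht P b m t

/-- its derivative -/
noncomputable def xiV' (P : Par) (lm : ℕ → ℝ) (l b : ℝ) (m : ℕ) (t : ℝ) : ℝ :=
  (PfV' P lm m t * phl P l (m + 1) t + PfV P lm m t * phl' P l (m + 1) t) * tht P b m t +
    PfV P lm m t * phl P l (m + 1) t * tht' P b m t

theorem xiV_hasDeriv (P : Par) (lm : ℕ → ℝ) (l b : ℝ) (m : ℕ) (t : ℝ) :
    HasDerivAt (xiV P lm l b m) (xiV' P lm l b m t) t :=
  ((PfV_hasDeriv P lm m t).mul (phl_hasDeriv P l (m + 1) t)).mul (tht_hasDeriv P b m t)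

theorem xiV_cont (P : Par) (lm : ℕ → ℝ) (l b : ℝ) (m : ℕ) : Continuous (xiV P lm l b m) :=
  continuous_iff_continuousAt.2 fun t => (xiV_hasDeriv P lm l b m t).continuousAt

theorem xiV'_cont (P : Par) (lm : ℕ → ℝ) (l b : ℝ) (m : ℕ) : Continuous (xiV' P lm l b m) :=
  ((((PfV'_cont P lm m).mul (phl_cont P l (m + 1))).add ((PfV_cont P lm m).mul
    (phl'_cont P l (m + 1)))).mul (tht_cont P b m)).add
    (((PfV_cont P lm m).mul (phl_cont P l (m + 1))).mul (tht'_cont P b m))

theorem xiV_mem (P : Par) (lm : ℕ → ℝ) (l b : ℝ) (m : ℕ) (t : ℝ) :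
    0 ≤ xiV P lm l b m t ∧ xiV P lm l b m t ≤ 1 := by
  have h1 := PfV_mem P lm m t
  have h2 := phl_mem P l (m + 1) t
  have h3 := tht_mem P b m t
  exact ⟨mul_nonneg (mul_nonneg h1.1 h2.1) h3.1,
    mul_le_one₀ (mul_le_one₀ h1.2 h2.1 h2.2) h3.1 h3.2⟩

theorem xiV_near (hlm : ∀ j, 0 < lm j) (hl : 0 < l) (h : ¬ GV P lm l m t) :
    xiV P lm l b m =ᶠ[𝓝 t] fun _ => 0 := by
  have h1 : (∃ j, 1 ≤ j ∧ j ≤ m ∧ |LL P j t| * |LL P (j + 1) t| < lm j) ∨
      |LL P (m + 1) t| < l := by
    by_contra hcon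
    rw [not_or] at hcon
    obtain ⟨h2, h3⟩ := hcon
    push Not at h2
    exact h ⟨h2, not_lt.1 h3⟩
  rcases h1 with ⟨j, hj1, hj2, hj⟩ | h1
  · have hc : Continuous (fun t => |LL P j t| * |LL P (j + 1) t|) :=
      (LL_cont P j).abs.mul (LL_cont P (j + 1)).abs
    have h2 : ∀ᶠ u in 𝓝 t, |LL P j u| * |LL P (j + 1) u| < lm j :=
      hc.continuousAt.eventually_lt_const hj
    filter_upwards [h2] with u hu
    unfold xiV
    rw [PfV_zero hlm hj1 hj2 hu, zero_mul, zero_mul]
  · have hc : Continuous (fun t => |LL P (m + 1) t|) := (LL_cont P (m + 1)).abs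
    have h2 : ∀ᶠ u in 𝓝 t, |LL P (m + 1) u| < l := hc.continuousAt.eventually_lt_const h1
    filter_upwards [h2] with u hu
    unfold xiV
    rw [phl_zero hl hu, mul_zero, zero_mul]

theorem xiV_bad (hlm : ∀ j, 0 < lm j) (hl : 0 < l) (h : ¬ GV P lm l m t) :
    xiV P lm l b m t = 0 ∧ xiV' P lm l b m t = 0 := by
  have h1 := xiV_near (b := b) hlm hl h
  refine ⟨h1.eq_of_nhds, ?_⟩
  have h2 : HasDerivAt (xiV P lm l b m) 0 t :=
    (hasDerivAt_const t (0:ℝ)).congr_of_eventuallyEq h1
  exact (xiV_hasDeriv P lm l b m t).unique h2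

theorem PfV'_le (m : ℕ) : |PfV' P lm m t| ≤
    ∑ j ∈ Finset.range m, |psi' P (lm (j + 1)) (j + 1) t| := by
  induction m with
  | zero => simp [PfV']
  | succ m ih =>
    rw [Finset.sum_range_succ]
    show |PfV' P lm m t * psi P (lm (m + 1)) (m + 1) t +
      PfV P lm m t * psi' P (lm (m + 1)) (m + 1) t| ≤ _
    have h1 := psi_mem P (lm (m + 1)) (m + 1) t
    have h2 := PfV_mem P lm m t
    refine (abs_add_le _ _).trans ?_
    rw [abs_mul, abs_mul, abs_of_nonneg h1.1, abs_of_nonneg h2.1]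
    have h3 : |PfV' P lm m t| * psi P (lm (m + 1)) (m + 1) t ≤ |PfV' P lm m t| :=
      mul_le_of_le_one_right (abs_nonneg _) h1.2
    have h4 : PfV P lm m t * |psi' P (lm (m + 1)) (m + 1) t| ≤
        |psi' P (lm (m + 1)) (m + 1) t| := mul_le_of_le_one_left (abs_nonneg _) h2.2
    linarith

/-- sums of derivatives of cutoffs of pairs -/
theorem sum_psi'_le {C : ℝ} (hC0 : 0 ≤ C) (hC : ∀ z, |rho' 1 z| ≤ C) (h : GV P lm l m t)
    (hlm : ∀ j, 16 ≤ lm j) (hl : 4 ≤ l) (hb : P.b = 0) (hc : P.c = 1) {β : ℕ → ℝ}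
    (hβ : ∀ j, 0 < β j) : ∑ j ∈ Finset.range m, |psi' P (β (j + 1)) (j + 1) t| ≤
      960 * C * MMV P lm l m t * |D P (m + 2) t| := by
  have h6 : ∑ j ∈ Finset.range m, |psi' P (β (j + 1)) (j + 1) t| ≤
      ∑ j ∈ Finset.range m, 480 * C * (evV P lm l m (j + 1) t + evV P lm l m (j + 1 + 1) t) *
        |D P (m + 2) t| := by
    apply Finset.sum_le_sum
    intro j hj
    have := Finset.mem_range.1 hj
    exact psi'_leV hC0 hC h hlm hl hb hc (hβ _) (by omega) (by omega)
  have h7 : ∑ j ∈ Finset.range m, 480 * C * (evV P lm l m (j + 1) t +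
      evV P lm l m (j + 1 + 1) t) * |D P (m + 2) t| =
      480 * C * |D P (m + 2) t| * ((∑ j ∈ Finset.range m, evV P lm l m (j + 1) t) +
        ∑ j ∈ Finset.range m, evV P lm l m (j + 1 + 1) t) := by
    rw [← Finset.sum_add_distrib, Finset.mul_sum]
    apply Finset.sum_congr rfl
    intro j _
    ring
  have h8 : ∑ j ∈ Finset.range m, evV P lm l m (j + 1) t ≤ MMV P lm l m t := by
    unfold MMV
    rw [Finset.sum_range_succ]
    have := evV_nonneg (P := P) (lm := lm) (l := l) (m := m) (m + 1) t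
    linarith
  have h9 : ∑ j ∈ Finset.range m, evV P lm l m (j + 1 + 1) t ≤ MMV P lm l m t := by
    unfold MMV
    rw [Finset.sum_range_succ']
    have := evV_nonneg (P := P) (lm := lm) (l := l) (m := m) (0 + 1) t
    linarith
  have h11 : 0 ≤ 480 * C * |D P (m + 2) t| := by positivity
  have h12 := mul_le_mul_of_nonneg_left (add_le_add h8 h9) h11
  rw [h7] at h6
  nlinarith

/-- the derivative of the cutoff -/
theorem xiV'_le {C C2 : ℝ} (hC0 : 0 ≤ C) (hC : ∀ z, |rho' 1 z| ≤ C) (hC20 : 0 ≤ C2)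
    (hC2 : ∀ z, |deriv smoothTransition z| ≤ C2) (h : GV P lm l m t)
    (hlm : ∀ j, 16 ≤ lm j) (hl : 4 ≤ l) (hb : P.b = 0) (hc : P.c = 1) (hb0 : 0 < b) :
    |xiV' P lm l b m t| ≤ (1440 * C + 7680 * C2 * C) * MMV P lm l m t * |D P (m + 2) t| := by
  have hlm0 : ∀ j, 0 < lm j := fun j => by have := hlm j; linarith
  have h1 := PfV'_le (P := P) (lm := lm) (t := t) m
  have h1' := sum_psi'_le hC0 hC h hlm hl hb hc (β := lm) hlm0
  have h1'' := sum_psi'_le hC0 hC h hlm hl hb hc (β := fun _ => b) (fun _ => hb0)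
  have h2 := phl'_leV hC0 hC h hlm hl hb hc
  have h10 := evV_le_MMV (P := P) (lm := lm) (l := l) (m := m) (j := m + 1) (by omega) le_rfl t
  have h3 := phl_mem P l (m + 1) t
  have h4 := PfV_mem P lm m t
  have h5 := tht_mem P b m t
  have hD := abs_nonneg (D P (m + 2) t)
  have hM := MMV_nonneg (P := P) (lm := lm) (l := l) (m := m) t
  have hthl : |tht' P b m t| ≤ 8 * C2 * (960 * C * MMV P lm l m t * |D P (m + 2) t|) := by
    have q0 : |8 / (m : ℝ)| ≤ 8 := by
      rcases Nat.eq_zero_or_pos m with hm | hm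
      · subst hm
        simp
      · have hm0 : (1:ℝ) ≤ m := by exact_mod_cast hm
        rw [abs_of_nonneg (by positivity), div_le_iff₀ (by linarith)]
        linarith
    have q1 : |cnt' P b m t| ≤ 960 * C * MMV P lm l m t * |D P (m + 2) t| := by
      unfold cnt'
      refine (Finset.abs_sum_le_sum_abs _ _).trans ?_
      simp_rw [abs_neg]
      exact h1''
    unfold tht'
    rw [abs_mul, abs_neg, abs_mul]
    calc |deriv smoothTransition (2 - 8 / m * cnt P b m t)| * (|8 / (m : ℝ)| * |cnt' P b m t|)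
        ≤ C2 * (8 * (960 * C * MMV P lm l m t * |D P (m + 2) t|)) := by
          apply mul_le_mul (hC2 _) _ (by positivity) hC20
          exact mul_le_mul q0 q1 (abs_nonneg _) (by norm_num)
      _ = _ := by ring
  have h6 : |xiV' P lm l b m t| ≤ |PfV' P lm m t| + |phl' P l (m + 1) t| + |tht' P b m t| := by
    unfold xiV'
    refine (abs_add_le _ _).trans ?_
    rw [abs_mul, abs_mul, abs_mul, abs_of_nonneg h3.1, abs_of_nonneg h4.1, abs_of_nonneg h5.1]
    have q0 : |PfV' P lm m t * phl P l (m + 1) t + PfV P lm m t * phl' P l (m + 1) t| ≤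
        |PfV' P lm m t| + |phl' P l (m + 1) t| := by
      refine (abs_add_le _ _).trans ?_
      rw [abs_mul, abs_mul, abs_of_nonneg h3.1, abs_of_nonneg h4.1]
      have q1 : |PfV' P lm m t| * phl P l (m + 1) t ≤ |PfV' P lm m t| :=
        mul_le_of_le_one_right (abs_nonneg _) h3.2
      have q2 : PfV P lm m t * |phl' P l (m + 1) t| ≤ |phl' P l (m + 1) t| :=
        mul_le_of_le_one_left (abs_nonneg _) h4.2
      linarith
    have q3 : |PfV' P lm m t * phl P l (m + 1) t + PfV P lm m t * phl' P l (m + 1) t| *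
        tht P b m t ≤ |PfV' P lm m t * phl P l (m + 1) t + PfV P lm m t * phl' P l (m + 1) t| :=
      mul_le_of_le_one_right (abs_nonneg _) h5.2
    have q4 : PfV P lm m t * phl P l (m + 1) t * |tht' P b m t| ≤ |tht' P b m t| :=
      mul_le_of_le_one_left (abs_nonneg _) (mul_le_one₀ h4.2 h3.1 h3.2)
    linarith
  have h13 := mul_le_mul_of_nonneg_left h10 (by positivity : 0 ≤ 480 * C * |D P (m + 2) t|)
  nlinarith

/-- growth on the orbits with few small products -/
theorem RR_cnt (h : GQ P 16 l m t) (hl : 4 ≤ l) (hb : 4 ≤ b) (n : ℕ) :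
    ∀ i, 1 ≤ i → i + n = m + 2 → RR P m t i ≤
      (4 / b) ^ (((n / 2 : ℕ) : ℝ) - ∑ j ∈ Finset.Ico i (m + 1), (1 - psi P b j t)) := by
  have hb0 : 0 < b := by linarith
  have hq0 : 0 < 4 / b := by positivity
  have hq1 : 4 / b ≤ 1 := by
    rw [div_le_one hb0]
    exact hb
  induction n using Nat.strong_induction_on with
  | _ n ih =>
    intro i hi hn
    match n, ih, hn with
    | 0, _, hn =>
      have : i = m + 2 := by omega
      rw [this, RR_last, Finset.Ico_eq_empty (by omega)]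
      simp
    | 1, _, hn =>
      have : i = m + 1 := by omega
      rw [this, RR_succ le_rfl, RR_last, mul_one, Finset.Ico_eq_empty (by omega)]
      have h1 := h.last
      have h2 : 0 < |LL P (m + 1) t| := by linarith
      simp only [Nat.reduceDiv, CharP.cast_eq_zero, Finset.sum_empty, sub_zero, rpow_zero]
      rw [div_le_one h2]
      linarith
    | n + 2, ih, hn =>
      have h1 := ih n (by omega) (i + 2) (by omega) (by omega)
      have h2 := h.pair i hi (by omega)
      have p1 := h.ne le_rfl hl hi (by omega)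
      have p2 := h.ne le_rfl hl (k := i + 1) (by omega) (by omega)
      rw [RR_succ (by omega), RR_succ (by omega)]
      have h3 := RR_nonneg (P := P) (m := m) (t := t) (i + 1 + 1)
      have e : 2 / |LL P i t| * (2 / |LL P (i + 1) t| * RR P m t (i + 1 + 1)) =
          4 / (|LL P i t| * |LL P (i + 1) t|) * RR P m t (i + 1 + 1) := by
        field_simp
        ring
      rw [e]
      have hpsi := psi_mem P b i t
      have h4 : 4 / (|LL P i t| * |LL P (i + 1) t|) ≤ (4 / b) ^ (psi P b i t) := by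
        rcases le_or_gt (|LL P i t| * |LL P (i + 1) t|) b with hle | hlt
        · have e0 : psi P b i t = 0 := by
            unfold psi
            apply rho_zero zero_le_one
            rw [abs_div, abs_of_pos hb0, div_le_one hb0, abs_mul]
            exact hle
          rw [e0, rpow_zero, div_le_one (by positivity)]
          linarith
        · calc 4 / (|LL P i t| * |LL P (i + 1) t|) ≤ 4 / b :=
                div_le_div_of_nonneg_left (by norm_num) hb0 hlt.le
            _ = (4 / b) ^ (1:ℝ) := (rpow_one _).symm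
            _ ≤ (4 / b) ^ (psi P b i t) := rpow_le_rpow_of_exponent_ge hq0 hq1 hpsi.2
      have h5 : 4 / (|LL P i t| * |LL P (i + 1) t|) * RR P m t (i + 1 + 1) ≤
          (4 / b) ^ (psi P b i t) *
          (4 / b) ^ (((n / 2 : ℕ) : ℝ) - ∑ j ∈ Finset.Ico (i + 2) (m + 1), (1 - psi P b j t)) :=
        mul_le_mul h4 h1 h3 (by positivity)
      refine h5.trans ?_
      rw [← rpow_add hq0]
      apply rpow_le_rpow_of_exponent_ge hq0 hq1
      have e2 : (n + 2) / 2 = n / 2 + 1 := by omega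
      rw [e2]
      push_cast
      have hpsi' := psi_mem P b (i + 1) t
      rw [Finset.sum_eq_sum_Ico_succ_bot (show i < m + 1 by omega)]
      rcases Nat.lt_or_ge (i + 1) (m + 1) with hi2 | hi2
      · rw [Finset.sum_eq_sum_Ico_succ_bot (show i + 1 < m + 1 by omega)]
        linarith
      · rw [Finset.Ico_eq_empty (show ¬ (i + 1 < m + 1) by omega),
          Finset.Ico_eq_empty (show ¬ (i + 2 < m + 1) by omega)]
        simp only [Finset.sum_empty]
        linarith

/-- the derivative at the end is large -/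
theorem D_largeV (h : GV P lm l m t) (hlm : ∀ j, 16 ≤ lm j) (hl : 4 ≤ l) (hb : P.b = 0)
    (hc : P.c = 1) (hb4 : 4 ≤ b) (ht : tht P b m t ≠ 0) :
    1 ≤ (4 / b) ^ ((m : ℝ) / 4) * |D P (m + 2) t| := by
  have hb0 : 0 < b := by linarith
  have hq0 : 0 < 4 / b := by positivity
  have hq1 : 4 / b ≤ 1 := by
    rw [div_le_one hb0]
    exact hb4
  have hq := h.q hlm
  have h1 := DR hq le_rfl hl hb hc (m + 1) 1 le_rfl (by omega)
  have e1 : D P 1 t = 1 := by simp only [D, hc]
  rw [e1, abs_one] at h1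
  have h2 := RR_cnt hq hl hb4 (m + 1) 1 le_rfl (by omega)
  have h3 := cnt_lt ht
  have e2 : ∑ j ∈ Finset.Ico 1 (m + 1), (1 - psi P b j t) = cnt P b m t := by
    rw [Finset.sum_Ico_eq_sum_range]
    unfold cnt
    apply Finset.sum_congr rfl
    intro j _
    rw [add_comm 1 j]
  rw [e2] at h2
  have h4 : (m : ℝ) / 4 ≤ (((m + 1) / 2 : ℕ) : ℝ) - cnt P b m t := by
    have h5 : (m : ℝ) ≤ 2 * (((m + 1) / 2 : ℕ) : ℝ) := by
      have : m ≤ 2 * ((m + 1) / 2) := by omega
      exact_mod_cast this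
    linarith
  have h6 := rpow_le_rpow_of_exponent_ge hq0 hq1 h4
  exact h1.trans (mul_le_mul_of_nonneg_right (h2.trans h6) (abs_nonneg _))

theorem RR_le3 (h : GV P lm l m t) (hlm : ∀ j, 16 ≤ lm j) (hl : 4 ≤ l) (n : ℕ) :
    ∀ i, 1 ≤ i → i + n = m + 2 → 1 ≤ n →
      RR P m t i ≤ 16 * (1 / 2) ^ n * (1 / l + 1 / lm m) := by
  have hlmm : 0 < lm m := by have := hlm m; linarith
  have hl0 : 0 < 1 / l := by positivity
  have hlm0 : 0 < 1 / lm m := by positivity
  have hq := h.q hlm
  induction n using Nat.strong_induction_on with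
  | _ n ih =>
    intro i hi hn h0
    match n, ih, hn, h0 with
    | 1, _, hn, _ =>
      have : i = m + 1 := by omega
      rw [this, RR_succ le_rfl, RR_last, mul_one]
      have h1 := h.last
      have h2 : 0 < |LL P (m + 1) t| := by linarith
      have h3 : 2 / |LL P (m + 1) t| ≤ 2 * (1 / l) := by
        rw [mul_one_div]
        exact div_le_div_of_nonneg_left (by norm_num) (by linarith) h1
      rw [pow_one]
      nlinarith
    | 2, _, hn, _ =>
      have : i = m := by omega
      subst this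
      have h2 := h.pair i hi le_rfl
      have p1 := hq.ne le_rfl hl hi (by omega)
      have p2 := hq.ne le_rfl hl (k := i + 1) (by omega) (by omega)
      rw [RR_succ (by omega), RR_succ (by omega), RR_last, mul_one]
      have e : 2 / |LL P i t| * (2 / |LL P (i + 1) t|) =
          4 / (|LL P i t| * |LL P (i + 1) t|) := by
        field_simp
        norm_num
      rw [e]
      have h4 : 4 / (|LL P i t| * |LL P (i + 1) t|) ≤ 4 * (1 / lm i) := by
        rw [mul_one_div]
        exact div_le_div_of_nonneg_left (by norm_num) hlmm h2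
      nlinarith
    | n + 3, ih, hn, _ =>
      have h1 := ih (n + 1) (by omega) (i + 2) (by omega) (by omega) (by omega)
      have h2 := hq.pair i hi (by omega)
      have p1 := hq.ne le_rfl hl hi (by omega)
      have p2 := hq.ne le_rfl hl (k := i + 1) (by omega) (by omega)
      rw [RR_succ (by omega), RR_succ (by omega)]
      have h3 := RR_nonneg (P := P) (m := m) (t := t) (i + 1 + 1)
      have e : 2 / |LL P i t| * (2 / |LL P (i + 1) t| * RR P m t (i + 1 + 1)) =
          4 / (|LL P i t| * |LL P (i + 1) t|) * RR P m t (i + 1 + 1) := by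
        field_simp
        ring
      rw [e]
      have h4 : 4 / (|LL P i t| * |LL P (i + 1) t|) ≤ 1 / 4 := by
        rw [div_le_div_iff₀ (by positivity) (by norm_num)]
        linarith
      calc _ ≤ 1 / 4 * RR P m t (i + 1 + 1) := mul_le_mul_of_nonneg_right h4 h3
        _ ≤ 1 / 4 * (16 * (1 / 2) ^ (n + 1) * (1 / l + 1 / lm m)) :=
            mul_le_mul_of_nonneg_left h1 (by norm_num)
        _ = _ := by ring

/-- the derivative at the end is large, second version -/
theorem D_large3 (h : GV P lm l m t) (hlm : ∀ j, 16 ≤ lm j) (hl : 4 ≤ l) (hb : P.b = 0)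
    (hc : P.c = 1) : 1 ≤ 16 * (1 / 2) ^ (m + 1) * (1 / l + 1 / lm m) * |D P (m + 2) t| := by
  have h1 := DR (h.q hlm) le_rfl hl hb hc (m + 1) 1 le_rfl (by omega)
  have e1 : D P 1 t = 1 := by simp only [D, hc]
  rw [e1, abs_one] at h1
  have h2 := RR_le3 h hlm hl (m + 1) 1 le_rfl (by omega) (by omega)
  exact h1.trans (mul_le_mul_of_nonneg_right h2 (abs_nonneg _))

/-- the weight -/
noncomputable def W3 (P : Par) (lm : ℕ → ℝ) (l b : ℝ) (m : ℕ) (Q : ℝ → ℝ) (t : ℝ) : ℝ :=
  xiV P lm l b m t * Q t / D P (m + 2) t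

/-- its derivative -/
noncomputable def W3' (P : Par) (lm : ℕ → ℝ) (l b : ℝ) (m : ℕ) (Q Q' : ℝ → ℝ) (t : ℝ) : ℝ :=
  (xiV' P lm l b m t * Q t + xiV P lm l b m t * Q' t) / D P (m + 2) t -
    xiV P lm l b m t * Q t * B P (m + 2) t / D P (m + 2) t ^ 2

theorem W3_hasDeriv (hlm : ∀ j, 16 ≤ lm j) (hl : 4 ≤ l) (hb : P.b = 0) (hc : P.c = 1)
    {Q Q' : ℝ → ℝ} (hQ : HasDerivAt Q (Q' t) t) :
    HasDerivAt (W3 P lm l b m Q) (W3' P lm l b m Q Q' t) t := by
  have hlm0 : ∀ j, 0 < lm j := fun j => by have := hlm j; linarith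
  by_cases hg : GV P lm l m t
  · have hD := D_pos (hg.q hlm) le_rfl hl hb hc
    have h1 := ((xiV_hasDeriv P lm l b m t).mul hQ).div (D_hasDeriv P (m + 2) t) hD
    refine HasDerivAt.congr_deriv (f := W3 P lm l b m Q) h1 ?_
    unfold W3'
    simp only [Pi.mul_apply]
    field_simp
  · have h1 := xiV_near (b := b) hlm0 (by linarith) hg
    have h2 : W3 P lm l b m Q =ᶠ[𝓝 t] fun _ => 0 := by
      filter_upwards [h1] with u hu
      unfold W3
      rw [hu]
      simp
    have h3 := xiV_bad (b := b) hlm0 (by linarith : 0 < l) hg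
    have e : W3' P lm l b m Q Q' t = 0 := by
      unfold W3'
      rw [h3.1, h3.2]
      simp
    rw [e]
    exact (hasDerivAt_const t (0:ℝ)).congr_of_eventuallyEq h2

theorem W3'_le {C C2 : ℝ} (hC0 : 0 ≤ C) (hC : ∀ z, |rho' 1 z| ≤ C) (hC20 : 0 ≤ C2)
    (hC2 : ∀ z, |deriv smoothTransition z| ≤ C2) (hlm : ∀ j, 16 ≤ lm j) (hl : 4 ≤ l)
    (hb : P.b = 0) (hc : P.c = 1) (hb4 : 4 ≤ b) {e : ℝ} (he0 : 0 ≤ e)
    (he : GV P lm l m t → tht P b m t ≠ 0 → 1 ≤ e * |D P (m + 2) t|)
    {Q Q' : ℝ → ℝ} (hQ1 : |Q t| ≤ 1) :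
    |W3' P lm l b m Q Q' t| ≤ (1440 * C + 7680 * C2 * C + 400) * MMV P lm l m t +
      e * |Q' t| := by
  have hlm0 : ∀ j, 0 < lm j := fun j => by have := hlm j; linarith
  have hM := MMV_nonneg (P := P) (lm := lm) (l := l) (m := m) t
  have hb0 : 0 < b := by linarith
  by_cases hg : GV P lm l m t
  · have hD := D_pos (hg.q hlm) le_rfl hl hb hc
    have hD0 : 0 < |D P (m + 2) t| := abs_pos.2 hD
    have h1 := xiV'_le hC0 hC hC20 hC2 hg hlm hl hb hc hb0
    have h2 := B_MMV hg hlm hl hb hc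
    have h3 := xiV_mem P lm l b m t
    set d := |D P (m + 2) t| with hd
    have h4 : xiV P lm l b m t * |Q' t| ≤ e * |Q' t| * d := by
      by_cases ht : tht P b m t = 0
      · have e0 : xiV P lm l b m t = 0 := by
          unfold xiV
          rw [ht, mul_zero]
        rw [e0, zero_mul]
        positivity
      · have q1 := he hg ht
        have q2 : xiV P lm l b m t * |Q' t| ≤ |Q' t| := mul_le_of_le_one_left (abs_nonneg _) h3.2
        have q3 := mul_le_mul_of_nonneg_left q1 (abs_nonneg (Q' t))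
        linarith
    unfold W3'
    refine (abs_sub _ _).trans ?_
    have q1 : |(xiV' P lm l b m t * Q t + xiV P lm l b m t * Q' t) / D P (m + 2) t| ≤
        (1440 * C + 7680 * C2 * C) * MMV P lm l m t + e * |Q' t| := by
      rw [abs_div, ← hd, div_le_iff₀ hD0]
      refine (abs_add_le _ _).trans ?_
      rw [abs_mul, abs_mul, abs_of_nonneg h3.1]
      have r1 : |xiV' P lm l b m t| * |Q t| ≤ |xiV' P lm l b m t| :=
        mul_le_of_le_one_right (abs_nonneg _) hQ1
      linarith
    have q2 : |xiV P lm l b m t * Q t * B P (m + 2) t / D P (m + 2) t ^ 2| ≤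
        400 * MMV P lm l m t := by
      rw [abs_div, abs_of_nonneg (sq_nonneg (D P (m + 2) t)), div_le_iff₀ (by positivity),
        abs_mul, abs_mul, abs_of_nonneg h3.1]
      have r1 : xiV P lm l b m t * |Q t| ≤ 1 := mul_le_one₀ h3.2 (abs_nonneg _) hQ1
      have r2 : xiV P lm l b m t * |Q t| * |B P (m + 2) t| ≤ |B P (m + 2) t| :=
        mul_le_of_le_one_left (abs_nonneg _) r1
      linarith
    linarith
  · have h3 := xiV_bad (b := b) hlm0 (by linarith : 0 < l) hg
    have e1 : W3' P lm l b m Q Q' t = 0 := by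
      unfold W3'
      rw [h3.1, h3.2]
      simp
    rw [e1, abs_zero]
    positivity

theorem W3_D1_le (hlm : ∀ j, 16 ≤ lm j) (hl : 4 ≤ l) (hb : P.b = 0) (hc : P.c = 1)
    {Q : ℝ → ℝ} (hQ1 : |Q t| ≤ 1) : |W3 P lm l b m Q t * D P (m + 1) t| ≤ 2 / l := by
  have hlm0 : ∀ j, 0 < lm j := fun j => by have := hlm j; linarith
  by_cases hg : GV P lm l m t
  · have h1 := D_ratio (hg.q hlm) le_rfl hl hb hc
    have h2 := xiV_mem P lm l b m t
    have hD : 0 < |D P (m + 2) t| := abs_pos.2 (D_pos (hg.q hlm) le_rfl hl hb hc)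
    unfold W3
    rw [abs_mul, abs_div, abs_mul, abs_of_nonneg h2.1, div_mul_eq_mul_div, div_le_iff₀ hD]
    have h3 : xiV P lm l b m t * |Q t| ≤ 1 := mul_le_one₀ h2.2 (abs_nonneg _) hQ1
    calc xiV P lm l b m t * |Q t| * |D P (m + 1) t| ≤ 1 * |D P (m + 1) t| :=
          mul_le_mul_of_nonneg_right h3 (abs_nonneg _)
      _ ≤ _ := by rw [one_mul]; exact h1
  · unfold W3
    rw [(xiV_bad (b := b) hlm0 (by linarith : 0 < l) hg).1]
    simp only [zero_mul, zero_div, abs_zero]
    positivity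

theorem xiV_period (hb : P.b = 0) (hc : P.c = 1) (m : ℕ) (t : ℝ) :
    xiV P lm l b m (t + 1) = xiV P lm l b m t := by
  have h1 : ∀ β j, psi P β j (t + 1) = psi P β j t := by
    intro β j
    unfold psi
    rw [LL_period hb hc, LL_period hb hc]
  have h2 : PfV P lm m (t + 1) = PfV P lm m t := by
    induction m with
    | zero => rfl
    | succ m ih =>
      show PfV P lm m (t + 1) * psi P (lm (m + 1)) (m + 1) (t + 1) =
        PfV P lm m t * psi P (lm (m + 1)) (m + 1) t
      rw [ih, h1]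
  unfold xiV
  rw [h2]
  unfold phl tht cnt
  rw [LL_period hb hc]
  simp_rw [h1]

/-- integration by parts against the derivative of a function of the last two positions -/
theorem ibp4 (hlm : ∀ j, 16 ≤ lm j) (hl : 4 ≤ l) (hb : P.b = 0) (hc : P.c = 1) (m : ℕ)
    {Q Q' : ℝ → ℝ} (hQ : ∀ t, HasDerivAt Q (Q' t) t) (hQ'c : Continuous Q')
    (hQ1 : ∀ t, |Q t| ≤ 1) (hQper : Q 1 = Q 0) {bd : ℝ → ℝ}
    (hbdc : Continuous bd) (hbd : ∀ t, |W3' P lm l b m Q Q' t| ≤ bd t)
    {H H1 H2 : T2 → ℝ} (hH : C1T H H1 H2) {A : ℝ} (hA : ∀ p, |H p| ≤ A) :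
    |∫ t in (0:ℝ)..1, xiV P lm l b m t * Q t * lft H1 (X P (m + 2) t, X P (m + 1) t)| ≤
      A * (∫ t in (0:ℝ)..1, bd t) +
        2 / l * ∫ t in (0:ℝ)..1, |lft H2 (X P (m + 2) t, X P (m + 1) t)| := by
  have hlm0 : ∀ j, 0 < lm j := fun j => by have := hlm j; linarith
  have hA0 : 0 ≤ A := (abs_nonneg _).trans (hA 0)
  set Hx : ℝ → ℝ := fun t => lft H (X P (m + 2) t, X P (m + 1) t) with hHx
  set F : ℝ → ℝ := fun t => W3 P lm l b m Q t * Hx t with hF
  set f : ℝ → ℝ := fun t => W3' P lm l b m Q Q' t * Hx t with hf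
  set f2 : ℝ → ℝ := fun t => xiV P lm l b m t * Q t *
    lft H1 (X P (m + 2) t, X P (m + 1) t) with hf2
  set f3 : ℝ → ℝ := fun t => W3 P lm l b m Q t * D P (m + 1) t *
    lft H2 (X P (m + 2) t, X P (m + 1) t) with hf3
  have hQc : Continuous Q := continuous_iff_continuousAt.2 fun t => (hQ t).continuousAt
  have hXc : Continuous (fun t => (X P (m + 2) t, X P (m + 1) t)) :=
    (X_cont P (m + 2)).prodMk (X_cont P (m + 1))
  have hHxd : ∀ t, HasDerivAt Hx (lft H1 (X P (m + 2) t, X P (m + 1) t) * D P (m + 2) t +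
      lft H2 (X P (m + 2) t, X P (m + 1) t) * D P (m + 1) t) t := fun t =>
    hH.line (X_hasDeriv P (m + 2) t) (X_hasDeriv P (m + 1) t)
  have hHxc : Continuous Hx := continuous_iff_continuousAt.2 fun t => (hHxd t).continuousAt
  have hWd : ∀ t, HasDerivAt (W3 P lm l b m Q) (W3' P lm l b m Q Q' t) t := fun t =>
    W3_hasDeriv (m := m) hlm hl hb hc (hQ t)
  have hWc : Continuous (W3 P lm l b m Q) :=
    continuous_iff_continuousAt.2 fun t => (hWd t).continuousAt
  have hFd : ∀ t, HasDerivAt F (f t + f2 t + f3 t) t := by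
    intro t
    have h1 := (hWd t).mul (hHxd t)
    refine HasDerivAt.congr_deriv (f := F) h1 ?_
    have e : W3 P lm l b m Q t * D P (m + 2) t = xiV P lm l b m t * Q t := by
      unfold W3
      by_cases hgd : GV P lm l m t
      · exact div_mul_cancel₀ _ (D_pos (hgd.q hlm) le_rfl hl hb hc)
      · rw [(xiV_bad (b := b) hlm0 (by linarith : 0 < l) hgd).1]
        simp
    rw [hf, hf2, hf3]
    simp only
    rw [← e]
    ring
  have hW'm : Measurable (W3' P lm l b m Q Q') := by
    have c1 := (xiV'_cont P lm l b m).measurable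
    have c2 := (xiV_cont P lm l b m).measurable
    have c3 := hQc.measurable
    have c4 := hQ'c.measurable
    have c5 := (D_cont P (m + 2)).measurable
    have c6 := (B_cont P (m + 2)).measurable
    unfold W3'
    exact (((c1.mul c3).add (c2.mul c4)).div c5).sub (((c2.mul c3).mul c6).div (c5.pow_const 2))
  have hfm : Measurable f := hW'm.mul hHxc.measurable
  have hf2c : Continuous f2 := ((xiV_cont P lm l b m).mul hQc).mul ((lft_cont hH.c1).comp hXc)
  have hf3c : Continuous f3 := (hWc.mul (D_cont P (m + 1))).mul ((lft_cont hH.c2).comp hXc)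
  have hf3b : Continuous (fun t => 2 / l * |lft H2 (X P (m + 2) t, X P (m + 1) t)|) :=
    continuous_const.mul ((lft_cont hH.c2).comp hXc).abs
  have hbdc' : Continuous (fun t => A * bd t) := continuous_const.mul hbdc
  have hfb : ∀ t, |f t| ≤ A * bd t := by
    intro t
    rw [hf]
    simp only
    rw [abs_mul, mul_comm A]
    exact mul_le_mul (hbd t) (hA _) (abs_nonneg _) ((abs_nonneg _).trans (hbd t))
  have hf3le : ∀ t, |f3 t| ≤ 2 / l * |lft H2 (X P (m + 2) t, X P (m + 1) t)| := by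
    intro t
    rw [hf3]
    simp only
    rw [abs_mul]
    exact mul_le_mul_of_nonneg_right (W3_D1_le hlm hl hb hc (hQ1 t)) (abs_nonneg _)
  have hfi : IntervalIntegrable f volume 0 1 := by
    refine (hbdc'.intervalIntegrable 0 1).mono_fun hfm.aestronglyMeasurable ?_
    refine (ae_restrict_mem measurableSet_uIoc).mono fun t _ => ?_
    show ‖f t‖ ≤ ‖A * bd t‖
    rw [norm_eq_abs, norm_eq_abs]
    exact (hfb t).trans (le_abs_self _)
  have hf2i : IntervalIntegrable f2 volume 0 1 := hf2c.intervalIntegrable 0 1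
  have hf3i : IntervalIntegrable f3 volume 0 1 := hf3c.intervalIntegrable 0 1
  have hFTC := intervalIntegral.integral_eq_sub_of_hasDerivAt (fun t _ => hFd t)
    ((hfi.add hf2i).add hf3i)
  rw [intervalIntegral.integral_add (hfi.add hf2i) hf3i,
    intervalIntegral.integral_add hfi hf2i] at hFTC
  have e01 : F 1 - F 0 = 0 := by
    have e1 : xiV P lm l b m 1 = xiV P lm l b m 0 := by
      have := xiV_period (lm := lm) (l := l) (b := b) hb hc m 0
      rwa [zero_add] at this
    have e2 : D P (m + 2) 1 = D P (m + 2) 0 := by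
      have := D_period hb hc (m + 2) 0
      rwa [zero_add] at this
    have e3 : Hx 1 = Hx 0 := by
      have q1 := X_period hb hc (m + 2) 0
      have q2 := X_period hb hc (m + 1) 0
      rw [zero_add] at q1 q2
      rw [hHx]
      simp only
      rw [q1, q2]
      have h := lft_per H (X P (m + 2) 0, X P (m + 1) 0) ((m + 2 : ℕ) : ℤ) ((m + 1 : ℕ) : ℤ)
      simpa using h
    show W3 P lm l b m Q 1 * Hx 1 - W3 P lm l b m Q 0 * Hx 0 = 0
    rw [e3]
    unfold W3
    rw [e1, e2, hQper, sub_self]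
  have h2 : ∫ t in (0:ℝ)..1, f2 t = - (∫ t in (0:ℝ)..1, f t) - ∫ t in (0:ℝ)..1, f3 t := by
    linarith
  have h4 : |∫ t in (0:ℝ)..1, f t| ≤ ∫ t in (0:ℝ)..1, A * bd t := by
    rw [← norm_eq_abs]
    exact intervalIntegral.norm_integral_le_of_norm_le zero_le_one
      (Filter.Eventually.of_forall fun t _ => hfb t)
      (hbdc'.intervalIntegrable 0 1)
  have h5 : |∫ t in (0:ℝ)..1, f3 t| ≤
      ∫ t in (0:ℝ)..1, 2 / l * |lft H2 (X P (m + 2) t, X P (m + 1) t)| := by
    rw [← norm_eq_abs]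
    exact intervalIntegral.norm_integral_le_of_norm_le zero_le_one
      (Filter.Eventually.of_forall fun t _ => hf3le t)
      (hf3b.intervalIntegrable 0 1)
  rw [intervalIntegral.integral_const_mul] at h4 h5
  rw [h2]
  have h6 := abs_sub (-(∫ t in (0:ℝ)..1, f t)) (∫ t in (0:ℝ)..1, f3 t)
  rw [abs_neg] at h6
  linarith

end

end Pool.Agent.H52.STD
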