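import Mathlib
import Pool.Agent.H52.STD.Va2
import Pool.Agent.H52.STD.Sq15

set_option autoImplicit false

/-!
# The improved cutoff on the torus
-/

namespace Pool.Agent.H52.STD

open Real MeasureTheory Function Filter Topology

/-- the weight on the torus -/
noncomputable def MTV (α : ℝ) (lm : ℕ → ℝ) (l : ℝ) (m : ℕ) (p : T2) : ℝ :=
  (∑ j ∈ Finset.range m, (1 / 2) ^ (m - (j + 1)) *
    TT2 α α (lm (j + 1)) (cs (fun _ => α) (j + 1) p)) + TT1 α l (cs (fun _ => α) m p)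

theorem MTV_cont (α : ℝ) {lm : ℕ → ℝ} {l : ℝ} (hlm : ∀ j, 0 < lm j) (hl : 0 < l) (m : ℕ) :
    Continuous (MTV α lm l m) := by
  unfold MTV
  exact (continuous_finsetSum _ fun j _ => continuous_const.mul
    ((TT2_cont _ _ (hlm _)).comp (cs_cont _ (j + 1)))).add ((TT1_cont _ hl).comp (cs_cont _ m))

theorem MTV_int {α : ℝ} {lm : ℕ → ℝ} {l : ℝ} (hα : 1 ≤ |α|) (hlm : ∀ j, 0 < lm j) (hl : 0 < l)
    (m : ℕ) : ∫ p, MTV α lm l m p ≤
      (∑ j ∈ Finset.range m, (1 / 2) ^ (m - (j + 1)) / lm (j + 1)) + 1 / l := by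
  unfold MTV
  have i1 : ∀ j, Integrable (fun p => (1 / 2 : ℝ) ^ (m - (j + 1)) *
      TT2 α α (lm (j + 1)) (cs (fun _ => α) (j + 1) p)) := fun j =>
    Pool.Agent.TH705.SM.integrable_cont (continuous_const.mul
      ((TT2_cont _ _ (hlm _)).comp (cs_cont _ (j + 1))))
  have i2 : Integrable (fun p => TT1 α l (cs (fun _ => α) m p)) :=
    Pool.Agent.TH705.SM.integrable_cont ((TT1_cont _ hl).comp (cs_cont _ m))
  rw [integral_add (integrable_finsetSum _ fun j _ => i1 j) i2,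
    integral_finsetSum _ fun j _ => i1 j, int_cs' _ m (TT1_cont _ hl)]
  have h1 := TT1_int hα hl
  have h2 : ∑ j ∈ Finset.range m, ∫ p, (1 / 2 : ℝ) ^ (m - (j + 1)) *
      TT2 α α (lm (j + 1)) (cs (fun _ => α) (j + 1) p) ≤
      ∑ j ∈ Finset.range m, (1 / 2 : ℝ) ^ (m - (j + 1)) / lm (j + 1) := by
    apply Finset.sum_le_sum
    intro j _
    rw [integral_const_mul, int_cs' _ (j + 1) (TT2_cont _ _ (hlm _))]
    have q := mul_le_mul_of_nonneg_left (TT2_int (α := α) (β := α) hα (hlm (j + 1)))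
      (by positivity : (0:ℝ) ≤ (1 / 2) ^ (m - (j + 1)))
    refine q.trans (le_of_eq ?_)
    ring
  linarith

theorem MMV_le (α : ℝ) (lm : ℕ → ℝ) (l : ℝ) (m : ℕ) (y t : ℝ) :
    MMV (PA (fun _ => α) y) lm l m t ≤
      MTV α lm l m ((t : UnitAddCircle), (y : UnitAddCircle)) := by
  unfold MMV MTV
  rw [Finset.sum_range_succ]
  apply add_le_add
  · apply Finset.sum_le_sum
    intro j hj
    have hj' := Finset.mem_range.1 hj
    unfold evV
    rw [if_pos (by omega)]
    unfold tt TT2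
    rw [← LLc' (fun _ => α) y t j, ← LLc (fun _ => α) y t (j + 1)]
    exact le_rfl
  · unfold evV
    rw [if_neg (by omega)]
    unfold ss TT1
    rw [← LLc (fun _ => α) y t m]
    exact le_rfl

/-- the cutoff of one pair -/
noncomputable def rp (α b : ℝ) (j : ℕ) (p : T2) : ℝ :=
  rho 1 (LC α (cs (fun _ => α) j p).1 * LC α (cs (fun _ => α) (j + 1) p).1 / b)

theorem rp_smo (α b : ℝ) (j : ℕ) : Smo (rp α b j) :=
  (((((smo_LC α).comp_cs (fun _ => α) j).mul
      ((smo_LC α).comp_cs (fun _ => α) (j + 1))).div_const b).post rho_smooth)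

theorem rp_eq (α b : ℝ) (j : ℕ) (y t : ℝ) :
    rp α b j ((t : UnitAddCircle), (y : UnitAddCircle)) = psi (PA (fun _ => α) y) b (j + 1) t := by
  unfold rp psi
  rw [← LLc (fun _ => α) y t j, ← LLc (fun _ => α) y t (j + 1)]

theorem rp_mem (α b : ℝ) (j : ℕ) (p : T2) : 0 ≤ rp α b j p ∧ rp α b j p ≤ 1 :=
  ⟨rho_nonneg _ _, rho_le_one _ _⟩

/-- the loss of one pair -/
theorem rp_loss {α b : ℝ} (hα : 1 ≤ |α|) (hb : 16 ≤ b) (j : ℕ) :
    ∫ p, (1 - rp α b j p) ≤ 18 * b * kap α α := by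
  have hb0 : 0 < b := by linarith
  have c1 : Continuous (fun p => 1 - rp α b j p) := continuous_const.sub (rp_smo α b j).cont
  have c2 : Continuous (fun p => PP2 α α b (cs (fun _ => α) (j + 1) p)) :=
    (PP2_cont _ _ hb0).comp (cs_cont _ (j + 1))
  have h1 : ∫ p, (1 - rp α b j p) ≤ ∫ p, PP2 α α b (cs (fun _ => α) (j + 1) p) := by
    apply integral_mono (Pool.Agent.TH705.SM.integrable_cont c1)
      (Pool.Agent.TH705.SM.integrable_cont c2)
    intro p
    show 1 - rp α b j p ≤ PP2 α α b (cs (fun _ => α) (j + 1) p)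
    unfold rp PP2
    refine (one_sub_rho _).trans ?_
    have e : (cs (fun _ => α) (j + 1) p).2 = (cs (fun _ => α) j p).1 := rfl
    rw [e]
    apply le_of_eq
    have hx : 0 < (LC α (cs (fun _ => α) j p).1 * LC α (cs (fun _ => α) (j + 1) p).1 / b) ^ 2 + 1 :=
      by positivity
    have hy : 0 < LC α (cs (fun _ => α) j p).1 ^ 2 * LC α (cs (fun _ => α) (j + 1) p).1 ^ 2 +
      b ^ 2 := by positivity
    rw [div_eq_div_iff hx.ne' hy.ne']
    field_simp
  rw [int_cs' _ (j + 1) (PP2_cont _ _ hb0)] at h1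
  exact h1.trans (PP2_int hα hα hb)

/-- the product of the cutoffs on the torus -/
noncomputable def PfVT (α : ℝ) (lm : ℕ → ℝ) : ℕ → T2 → ℝ
  | 0, _ => 1
  | m + 1, p => PfVT α lm m p * rp α (lm (m + 1)) m p

/-- the number of small products -/
noncomputable def cntT (α b : ℝ) (m : ℕ) (p : T2) : ℝ :=
  ∑ j ∈ Finset.range m, (1 - rp α b j p)

/-- the cutoff of the orbits with too many small products -/
noncomputable def thtT (α b : ℝ) (m : ℕ) (p : T2) : ℝ :=
  smoothTransition (2 - 8 / m * cntT α b m p)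

/-- the cutoff of the last derivative -/
noncomputable def r1T (α l : ℝ) (m : ℕ) (p : T2) : ℝ := rho 1 (LC α (cs (fun _ => α) m p).1 / l)

/-- the full cutoff on the torus -/
noncomputable def XiV (α : ℝ) (lm : ℕ → ℝ) (l b : ℝ) (m : ℕ) (p : T2) : ℝ :=
  PfVT α lm m p * r1T α l m p * thtT α b m p

theorem PfVT_smo (α : ℝ) (lm : ℕ → ℝ) (m : ℕ) : Smo (PfVT α lm m) := by
  induction m with
  | zero => exact contDiff_const
  | succ m ih => exact ih.mul (rp_smo α _ m)

theorem r1T_smo (α l : ℝ) (m : ℕ) : Smo (r1T α l m) :=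
  (((smo_LC α).comp_cs (fun _ => α) m).div_const l).post rho_smooth

theorem thtT_smo (α b : ℝ) (m : ℕ) : Smo (thtT α b m) := by
  have h1 : Smo (cntT α b m) := by
    unfold Smo
    have e : lft (cntT α b m) = fun z => ∑ j ∈ Finset.range m, (1 - lft (rp α b j) z) := rfl
    rw [e]
    apply ContDiff.sum
    intro j _
    have : ContDiff ℝ 1 (lft (rp α b j)) := rp_smo α b j
    exact contDiff_const.sub this
  have h2 : ContDiff ℝ 1 (fun x : ℝ => smoothTransition (2 - 8 / (m : ℝ) * x)) :=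
    smoothTransition.contDiff.comp (by fun_prop)
  exact h1.post h2

theorem XiV_smo (α : ℝ) (lm : ℕ → ℝ) (l b : ℝ) (m : ℕ) : Smo (XiV α lm l b m) :=
  ((PfVT_smo α lm m).mul (r1T_smo α l m)).mul (thtT_smo α b m)

theorem PfVT_eq (α : ℝ) (lm : ℕ → ℝ) (m : ℕ) (y t : ℝ) :
    PfVT α lm m ((t : UnitAddCircle), (y : UnitAddCircle)) =
      PfV (PA (fun _ => α) y) lm m t := by
  induction m with
  | zero => rfl
  | succ m ih =>
    show PfVT α lm m _ * rp α (lm (m + 1)) m _ =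
      PfV (PA (fun _ => α) y) lm m t * psi (PA (fun _ => α) y) (lm (m + 1)) (m + 1) t
    rw [ih, rp_eq]

theorem XiV_eq (α : ℝ) (lm : ℕ → ℝ) (l b : ℝ) (m : ℕ) (y t : ℝ) :
    XiV α lm l b m ((t : UnitAddCircle), (y : UnitAddCircle)) =
      xiV (PA (fun _ => α) y) lm l b m t := by
  unfold XiV xiV
  rw [PfVT_eq]
  have e1 : r1T α l m ((t : UnitAddCircle), (y : UnitAddCircle)) =
      phl (PA (fun _ => α) y) l (m + 1) t := by
    unfold r1T phl
    rw [← LLc (fun _ => α) y t m]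
  have e2 : thtT α b m ((t : UnitAddCircle), (y : UnitAddCircle)) =
      tht (PA (fun _ => α) y) b m t := by
    unfold thtT tht cntT cnt
    simp_rw [rp_eq]
  rw [e1, e2]

theorem PfVT_mem (α : ℝ) (lm : ℕ → ℝ) (m : ℕ) (p : T2) :
    0 ≤ PfVT α lm m p ∧ PfVT α lm m p ≤ 1 := by
  induction m with
  | zero => exact ⟨zero_le_one, le_rfl⟩
  | succ m ih =>
    have h := rp_mem α (lm (m + 1)) m p
    exact ⟨mul_nonneg ih.1 h.1, mul_le_one₀ ih.2 h.1 h.2⟩

theorem r1T_mem (α l : ℝ) (m : ℕ) (p : T2) : 0 ≤ r1T α l m p ∧ r1T α l m p ≤ 1 :=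
  ⟨rho_nonneg _ _, rho_le_one _ _⟩

theorem thtT_mem (α b : ℝ) (m : ℕ) (p : T2) : 0 ≤ thtT α b m p ∧ thtT α b m p ≤ 1 :=
  ⟨smoothTransition.nonneg _, smoothTransition.le_one _⟩

theorem XiV_mem (α : ℝ) (lm : ℕ → ℝ) (l b : ℝ) (m : ℕ) (p : T2) :
    0 ≤ XiV α lm l b m p ∧ XiV α lm l b m p ≤ 1 := by
  have h1 := PfVT_mem α lm m p
  have h2 := r1T_mem α l m p
  have h3 := thtT_mem α b m p
  exact ⟨mul_nonneg (mul_nonneg h1.1 h2.1) h3.1,
    mul_le_one₀ (mul_le_one₀ h1.2 h2.1 h2.2) h3.1 h3.2⟩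

theorem cntT_nonneg (α b : ℝ) (m : ℕ) (p : T2) : 0 ≤ cntT α b m p :=
  Finset.sum_nonneg fun j _ => by
    have := (rp_mem α b j p).2
    linarith

theorem thtT_loss (α b : ℝ) (m : ℕ) (p : T2) : 1 - thtT α b m p ≤ 8 / m * cntT α b m p := by
  have h0 := cntT_nonneg α b m p
  have h1 : 0 ≤ 8 / (m : ℝ) * cntT α b m p := by positivity
  rcases le_or_gt (8 / (m : ℝ) * cntT α b m p) 1 with h | h
  · have : thtT α b m p = 1 := smoothTransition.one_of_one_le (by linarith)
    rw [this]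
    linarith
  · have := (thtT_mem α b m p).1
    linarith

theorem PfVT_loss (α : ℝ) (lm : ℕ → ℝ) (m : ℕ) (p : T2) :
    1 - PfVT α lm m p ≤ ∑ j ∈ Finset.range m, (1 - rp α (lm (j + 1)) j p) := by
  induction m with
  | zero => simp [PfVT]
  | succ m ih =>
    rw [Finset.sum_range_succ]
    show 1 - PfVT α lm m p * rp α (lm (m + 1)) m p ≤ _
    have q1 := PfVT_mem α lm m p
    have q2 := rp_mem α (lm (m + 1)) m p
    nlinarith

/-- the loss -/
noncomputable def XrV (α : ℝ) (lm : ℕ → ℝ) (l b : ℝ) (m : ℕ) : ℝ :=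
  18 * kap α α * (∑ j ∈ Finset.range m, lm (j + 1)) + 3 * l / |α| + 144 * b * kap α α

theorem cint_mono {f g : T2 → ℝ} (hf : Continuous f) (hg : Continuous g) (h : ∀ p, f p ≤ g p) :
    ∫ p, f p ≤ ∫ p, g p :=
  integral_mono (Pool.Agent.TH705.SM.integrable_cont hf)
    (Pool.Agent.TH705.SM.integrable_cont hg) h

theorem cint_sum {f : ℕ → T2 → ℝ} (hf : ∀ j, Continuous (f j)) (m : ℕ) :
    ∫ p, ∑ j ∈ Finset.range m, f j p = ∑ j ∈ Finset.range m, ∫ p, f j p :=
  integral_finsetSum _ fun j _ => Pool.Agent.TH705.SM.integrable_cont (hf j)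

theorem lossV {α l b : ℝ} {lm : ℕ → ℝ} (hα : 1 ≤ |α|) (hlm : ∀ j, 16 ≤ lm j) (hl : 4 ≤ l)
    (hb : 16 ≤ b) (m : ℕ) : ∫ p, (1 - XiV α lm l b m p) ≤ XrV α lm l b m := by
  have hl0 : 0 < l := by linarith
  have hκ := kap_nonneg hα hα
  have cP : ∀ β j, Continuous (fun p => 1 - rp α β j p) := fun β j =>
    continuous_const.sub (rp_smo α β j).cont
  have c0 : Continuous (fun p => 1 - XiV α lm l b m p) :=
    continuous_const.sub (XiV_smo α lm l b m).cont
  have c1 : Continuous (fun p => ∑ j ∈ Finset.range m, (1 - rp α (lm (j + 1)) j p)) :=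
    continuous_finsetSum _ fun j _ => cP _ j
  have c2 : Continuous (fun p => 1 - r1T α l m p) := continuous_const.sub (r1T_smo α l m).cont
  have c3 : Continuous (fun p => 8 / (m : ℝ) * cntT α b m p) :=
    continuous_const.mul (continuous_finsetSum _ fun j _ => cP _ j)
  have hpt : ∀ p, 1 - XiV α lm l b m p ≤ (∑ j ∈ Finset.range m, (1 - rp α (lm (j + 1)) j p)) +
      ((1 - r1T α l m p) + 8 / m * cntT α b m p) := by
    intro p
    have h1 := PfVT_loss α lm m p
    have h2 := PfVT_mem α lm m p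
    have h3 := r1T_mem α l m p
    have h4 := thtT_mem α b m p
    have h5 := thtT_loss α b m p
    unfold XiV
    have h6 : 1 - PfVT α lm m p * r1T α l m p ≤ (1 - PfVT α lm m p) + (1 - r1T α l m p) := by
      nlinarith
    have h7 : PfVT α lm m p * r1T α l m p ≤ 1 := mul_le_one₀ h2.2 h3.1 h3.2
    have h8 : 0 ≤ PfVT α lm m p * r1T α l m p := mul_nonneg h2.1 h3.1
    nlinarith
  have h1 := cint_mono c0 (c1.add (c2.add c3)) hpt
  have h2 : ∫ p, ((∑ j ∈ Finset.range m, (1 - rp α (lm (j + 1)) j p)) +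
      ((1 - r1T α l m p) + 8 / m * cntT α b m p)) =
      (∫ p, ∑ j ∈ Finset.range m, (1 - rp α (lm (j + 1)) j p)) +
      ((∫ p, (1 - r1T α l m p)) + ∫ p, 8 / m * cntT α b m p) := by
    rw [cint_add c1 (g := fun p => (1 - r1T α l m p) + 8 / m * cntT α b m p) (c2.add c3),
      cint_add c2 c3]
  have h3 : ∫ p, ∑ j ∈ Finset.range m, (1 - rp α (lm (j + 1)) j p) ≤
      18 * kap α α * ∑ j ∈ Finset.range m, lm (j + 1) := by
    rw [cint_sum (f := fun j p => 1 - rp α (lm (j + 1)) j p) (fun j => cP _ j), Finset.mul_sum]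
    apply Finset.sum_le_sum
    intro j _
    have := rp_loss hα (hlm (j + 1)) j
    linarith
  have h4 : ∫ p, (1 - r1T α l m p) ≤ 3 * l / |α| := by
    have q1 : ∫ p, (1 - r1T α l m p) ≤ ∫ p, PP1 α l (cs (fun _ => α) m p) := by
      apply cint_mono c2 ((PP1_cont _ hl0).comp (cs_cont _ m))
      intro p
      show 1 - r1T α l m p ≤ PP1 α l (cs (fun _ => α) m p)
      unfold r1T PP1
      refine (one_sub_rho _).trans ?_
      apply le_of_eq
      have hx : 0 < (LC α (cs (fun _ => α) m p).1 / l) ^ 2 + 1 := by positivity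
      have hy : 0 < LC α (cs (fun _ => α) m p).1 ^ 2 + l ^ 2 := by positivity
      rw [div_eq_div_iff hx.ne' hy.ne']
      field_simp
    rw [int_cs' _ m (PP1_cont _ hl0)] at q1
    exact q1.trans (PP1_int hα hl0)
  have h5 : ∫ p, 8 / m * cntT α b m p ≤ 144 * b * kap α α := by
    rw [integral_const_mul]
    unfold cntT
    rw [cint_sum (f := fun j p => 1 - rp α b j p) (fun j => cP _ j)]
    have q1 : ∑ j ∈ Finset.range m, ∫ p, (1 - rp α b j p) ≤
        ∑ j ∈ Finset.range m, 18 * b * kap α α :=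
      Finset.sum_le_sum fun j _ => rp_loss hα hb j
    rw [Finset.sum_const, Finset.card_range, nsmul_eq_mul] at q1
    have q2 := mul_le_mul_of_nonneg_left q1 (by positivity : 0 ≤ 8 / (m : ℝ))
    refine q2.trans ?_
    rcases Nat.eq_zero_or_pos m with hm | hm
    · subst hm
      simp
      positivity
    · have hm0 : (0:ℝ) < m := by exact_mod_cast hm
      apply le_of_eq
      field_simp
      ring
  unfold XrV
  have h6 : ∫ p, (1 - XiV α lm l b m p) ≤ (∫ p, ∑ j ∈ Finset.range m, (1 - rp α (lm (j + 1)) j p)) +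
      ((∫ p, (1 - r1T α l m p)) + ∫ p, 8 / m * cntT α b m p) := by
    rw [← h2]
    exact h1
  linarith

end Pool.Agent.H52.STD
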