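import Mathlib
import Pool.Agent.H52.STD.Va3

set_option autoImplicit false

/-!
# Decorrelation of rough observables of both coordinates, the improved version
-/

namespace Pool.Agent.H52.STD

open Real MeasureTheory Function Filter Topology

/-- the error of one chain -/
noncomputable def EV (K : ℝ) (lm : ℕ → ℝ) (l : ℝ) (m : ℕ) (e N : ℝ) : ℝ :=
  K * ((∑ j ∈ Finset.range m, (1 / 2) ^ (m - (j + 1)) / lm (j + 1)) + 1 / l) + e * N

/-- the expansion along the horizontal direction is at least `1 / e` where the cutoff does not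
vanish -/
def Exp (α : ℝ) (lm : ℕ → ℝ) (l b : ℝ) (m : ℕ) (e : ℝ) : Prop :=
  ∀ s t : ℝ, GV (PA (fun _ => α) s) lm l m t → tht (PA (fun _ => α) s) b m t ≠ 0 →
    1 ≤ e * |D (PA (fun _ => α) s) (m + 2) t|

/-- integration by parts on the torus -/
theorem starV {C C2 : ℝ} (hC0 : 0 ≤ C) (hC : ∀ z, |rho' 1 z| ≤ C) (hC20 : 0 ≤ C2)
    (hC2 : ∀ z, |deriv smoothTransition z| ≤ C2) {α l b : ℝ} {lm : ℕ → ℝ} (hα : 1 ≤ |α|)
    (hlm : ∀ j, 16 ≤ lm j) (hl : 4 ≤ l) (hb4 : 4 ≤ b) (m : ℕ)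
    {e : ℝ} (he0 : 0 ≤ e) (he : Exp α lm l b m e)
    {g g1 g2 : T2 → ℝ} (hg : C1T g g1 g2) (hgb : ∀ p, |g p| ≤ 1)
    {H H1 H2 : T2 → ℝ} (hH : C1T H H1 H2) {A : ℝ} (hA : ∀ p, |H p| ≤ A) :
    |∫ p, XiV α lm l b m p * g p * H1 (cs (fun _ => α) (m + 1) p)| ≤
      A * EV (1440 * C + 7680 * C2 * C + 400) lm l m e (∫ p, |g1 p|) + 2 / l * ∫ p, |H2 p| := by
  have hA0 : 0 ≤ A := (abs_nonneg _).trans (hA 0)
  have hlm0 : ∀ j, 0 < lm j := fun j => by have := hlm j; linarith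
  have hb0 : 0 < b := by linarith
  have hl0 : 0 < l := by linarith
  have hcs := cs_cont (fun _ => α) (m + 1)
  set K := 1440 * C + 7680 * C2 * C + 400 with hK
  have hK0 : 0 ≤ K := by rw [hK]; positivity
  have c1 : Continuous (fun p : T2 => XiV α lm l b m p * g p * H1 (cs (fun _ => α) (m + 1) p)) :=
    ((XiV_smo α lm l b m).cont.mul hg.cont).mul (hH.c1.comp hcs)
  have c2 : Continuous (fun p : T2 => |H2 (cs (fun _ => α) (m + 1) p)|) := (hH.c2.comp hcs).abs
  have c3 : Continuous (fun p : T2 => |g1 p|) := hg.c1.abs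
  have cM := MTV_cont α hlm0 hl0 m
  have mkc : ∀ s : ℝ, Continuous (fun t : ℝ => (((t : UnitAddCircle), (s : UnitAddCircle)) : T2)) :=
    fun s => (AddCircle.continuous_mk' 1).prodMk continuous_const
  set E : ℝ → ℝ := fun s => A * (K * (∫ t in (0:ℝ)..1, MTV α lm l m ((t : UnitAddCircle),
      (s : UnitAddCircle))) + e * ∫ t in (0:ℝ)..1, (fun p : T2 => |g1 p|)
        ((t : UnitAddCircle), (s : UnitAddCircle))) + 2 / l * ∫ t in (0:ℝ)..1,
        (fun p : T2 => |H2 (cs (fun _ => α) (m + 1) p)|) ((t : UnitAddCircle), (s : UnitAddCircle)) with hE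
  have cE : Continuous E := (continuous_const.mul ((continuous_const.mul (cpar cM)).add
    (continuous_const.mul (cpar c3)))).add (continuous_const.mul (cpar c2))
  have key : ∀ s : ℝ, ‖∫ t in (0:ℝ)..1,
      (fun p : T2 => XiV α lm l b m p * g p * H1 (cs (fun _ => α) (m + 1) p))
      ((t : UnitAddCircle), (s : UnitAddCircle))‖ ≤ E s := by
    intro s
    rw [norm_eq_abs]
    have hb : (PA (fun _ => α) s).b = 0 := rfl
    have hc : (PA (fun _ => α) s).c = 1 := rfl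
    have h1 := ibp4 (P := PA (fun _ => α) s) (lm := lm) (l := l) (b := b) hlm hl hb hc m
      (Q := fun t : ℝ => lft g (t, s)) (Q' := fun t : ℝ => lft g1 (t, s))
      (fun x => hg.d1 x s) (hg.c1.comp (mkc s)) (fun x => hgb _)
      (by
        have := lft_per g (0, s) 1 0
        simpa using this)
      (bd := fun t => K * MTV α lm l m ((t : UnitAddCircle), (s : UnitAddCircle)) +
        e * |g1 ((t : UnitAddCircle), (s : UnitAddCircle))|)
      ((continuous_const.mul (cM.comp (mkc s))).add (continuous_const.mul (c3.comp (mkc s))))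
      (by
        intro t
        refine (W3'_le hC0 hC hC20 hC2 hlm hl hb hc hb4 he0 (he s t) (hgb _)).trans ?_
        have := mul_le_mul_of_nonneg_left (MMV_le α lm l m s t) hK0
        show _ ≤ K * MTV α lm l m ((t : UnitAddCircle), (s : UnitAddCircle)) +
          e * |g1 ((t : UnitAddCircle), (s : UnitAddCircle))|
        have e5 : |lft g1 (t, s)| = |g1 ((t : UnitAddCircle), (s : UnitAddCircle))| := rfl
        rw [e5]
        linarith) hH hA
    have e1 : ∫ t in (0:ℝ)..1, (fun p : T2 => XiV α lm l b m p * g p * H1 (cs (fun _ => α) (m + 1) p))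
        ((t : UnitAddCircle), (s : UnitAddCircle)) =
        ∫ t in (0:ℝ)..1, xiV (PA (fun _ => α) s) lm l b m t * lft g (t, s) *
          lft H1 (X (PA (fun _ => α) s) (m + 2) t, X (PA (fun _ => α) s) (m + 1) t) := by
      apply intervalIntegral.integral_congr
      intro t _
      simp only
      rw [XiV_eq, cs_coe (fun _ => α) (m + 1) (t, s), pc_eq]
      rfl
    have e2 : ∫ t in (0:ℝ)..1, (fun p : T2 => |H2 (cs (fun _ => α) (m + 1) p)|)
        ((t : UnitAddCircle), (s : UnitAddCircle)) =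
        ∫ t in (0:ℝ)..1, |lft H2 (X (PA (fun _ => α) s) (m + 2) t, X (PA (fun _ => α) s) (m + 1) t)| := by
      apply intervalIntegral.integral_congr
      intro t _
      simp only
      rw [cs_coe (fun _ => α) (m + 1) (t, s), pc_eq]
      rfl
    have e3 : ∫ t in (0:ℝ)..1, (K * MTV α lm l m ((t : UnitAddCircle), (s : UnitAddCircle)) +
        e * |g1 ((t : UnitAddCircle), (s : UnitAddCircle))|) =
        K * (∫ t in (0:ℝ)..1, MTV α lm l m ((t : UnitAddCircle), (s : UnitAddCircle))) +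
          e * ∫ t in (0:ℝ)..1, (fun p : T2 => |g1 p|)
            ((t : UnitAddCircle), (s : UnitAddCircle)) := by
      rw [intervalIntegral.integral_add, intervalIntegral.integral_const_mul,
        intervalIntegral.integral_const_mul]
      · exact (continuous_const.mul (cM.comp (mkc s))).intervalIntegrable _ _
      · exact (continuous_const.mul (c3.comp (mkc s))).intervalIntegrable _ _
    rw [e1, hE]
    simp only
    rw [e2, ← e3]
    exact h1
  have h2 := intervalIntegral.norm_integral_le_of_norm_le (a := 0) (b := 1) zero_le_one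
    (Filter.Eventually.of_forall fun s _ => key s)
    (cE.intervalIntegrable (μ := volume) (0:ℝ) 1)
  rw [norm_eq_abs] at h2
  rw [Pool.Agent.TH705.SM.int_T2 _ (Pool.Agent.TH705.SM.integrable_cont c1),
    Pool.Agent.TH705.SM.int_T2 _ (Pool.Agent.TH705.SM.integrable_cont c3)]
  refine h2.trans ?_
  have hmt := MTV_int hα hlm0 hl0 m
  rw [Pool.Agent.TH705.SM.int_T2 _ (Pool.Agent.TH705.SM.integrable_cont cM)] at hmt
  have hH2 := int_cs' (fun _ => α) (m + 1) (F := fun p => |H2 p|) hH.c2.abs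
  rw [Pool.Agent.TH705.SM.int_T2 _ (Pool.Agent.TH705.SM.integrable_cont c2)] at hH2
  have eE : ∫ s in (0:ℝ)..1, E s =
      A * (K * (∫ s in (0:ℝ)..1, ∫ t in (0:ℝ)..1, MTV α lm l m ((t : UnitAddCircle),
      (s : UnitAddCircle))) + e * ∫ s in (0:ℝ)..1, ∫ t in (0:ℝ)..1, (fun p : T2 => |g1 p|)
        ((t : UnitAddCircle), (s : UnitAddCircle))) +
      2 / l * ∫ s in (0:ℝ)..1, ∫ t in (0:ℝ)..1,
        (fun p : T2 => |H2 (cs (fun _ => α) (m + 1) p)|) ((t : UnitAddCircle), (s : UnitAddCircle)) := by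
    rw [hE]
    have i1 := cpar cM
    have i2 := cpar c2
    have i4 := cpar c3
    have i3 : Continuous (fun s : ℝ => K * (∫ t in (0:ℝ)..1, MTV α lm l m ((t : UnitAddCircle),
      (s : UnitAddCircle)))) := continuous_const.mul i1
    have i5 : Continuous (fun s : ℝ => e * ∫ t in (0:ℝ)..1, (fun p : T2 => |g1 p|)
        ((t : UnitAddCircle), (s : UnitAddCircle))) := continuous_const.mul i4
    rw [intervalIntegral.integral_add, intervalIntegral.integral_const_mul,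
      intervalIntegral.integral_const_mul, intervalIntegral.integral_add,
      intervalIntegral.integral_const_mul, intervalIntegral.integral_const_mul]
    · exact i3.intervalIntegrable _ _
    · exact i5.intervalIntegrable _ _
    · exact (continuous_const.mul (i3.add i5)).intervalIntegrable _ _
    · exact (continuous_const.mul i2).intervalIntegrable _ _
  rw [eE, hH2]
  have r1 := mul_le_mul_of_nonneg_left hmt hK0
  have r2 := mul_le_mul_of_nonneg_left (add_le_add r1 (le_refl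
    (e * ∫ s in (0:ℝ)..1, ∫ t in (0:ℝ)..1, (fun p : T2 => |g1 p|)
        ((t : UnitAddCircle), (s : UnitAddCircle))))) hA0
  unfold EV
  linarith

/-! ### the observable cut off -/

/-- the observable of the future, cut off -/
noncomputable def FV (α : ℝ) (lm : ℕ → ℝ) (l b : ℝ) (m : ℕ) (f : T2 → ℝ) (p : T2) : ℝ :=
  XiV α lm l b m (sg α (m + 1) p) * f (cs (fun _ => α) (m + 1) p)

theorem FV_smo (α : ℝ) (lm : ℕ → ℝ) (l b : ℝ) (m : ℕ) {f : T2 → ℝ} (hf : Smo f) : Smo (FV α lm l b m f) :=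
  ((XiV_smo α lm l b m).sw.comp_cs (fun _ => α) (m + 1)).mul (hf.comp_cs _ (m + 1))

theorem FV_bdd (α : ℝ) (lm : ℕ → ℝ) (l b : ℝ) (m : ℕ) {f : T2 → ℝ} (hf : ∀ p, |f p| ≤ 1) (p : T2) :
    |FV α lm l b m f p| ≤ 1 := by
  unfold FV
  have h := XiV_mem α lm l b m (sg α (m + 1) p)
  rw [abs_mul, abs_of_nonneg h.1]
  exact mul_le_one₀ h.2 (abs_nonneg _) (hf _)

theorem FV_sub (α : ℝ) (lm : ℕ → ℝ) (l b : ℝ) (m : ℕ) {f : T2 → ℝ} (hf : ∀ p, |f p| ≤ 1) (p : T2) :
    |f (cs (fun _ => α) (m + 1) p) - FV α lm l b m f p| ≤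
      1 - XiV α lm l b m (sg α (m + 1) p) := by
  unfold FV
  have h := XiV_mem α lm l b m (sg α (m + 1) p)
  have e : f (cs (fun _ => α) (m + 1) p) - XiV α lm l b m (sg α (m + 1) p) *
      f (cs (fun _ => α) (m + 1) p) = (1 - XiV α lm l b m (sg α (m + 1) p)) *
        f (cs (fun _ => α) (m + 1) p) := by ring
  rw [e, abs_mul, abs_of_nonneg (by linarith)]
  exact mul_le_of_le_one_right (by linarith) (hf _)

/-- integration by parts for the reversed chain -/
theorem star2V {C C2 : ℝ} (hC0 : 0 ≤ C) (hC : ∀ z, |rho' 1 z| ≤ C) (hC20 : 0 ≤ C2)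
    (hC2 : ∀ z, |deriv smoothTransition z| ≤ C2) {α l b : ℝ} {lm : ℕ → ℝ} (hα : 1 ≤ |α|)
    (hlm : ∀ j, 16 ≤ lm j) (hl : 4 ≤ l) (hb4 : 4 ≤ b) (m : ℕ)
    {e : ℝ} (he0 : 0 ≤ e) (he : Exp α lm l b m e)
    {f f1 f2 : T2 → ℝ} (hf : C1T f f1 f2) (hfb : ∀ p, |f p| ≤ 1)
    {H H1 H2 : T2 → ℝ} (hH : C1T H H1 H2) {A : ℝ} (hA : ∀ p, |H p| ≤ A) :
    |∫ p, FV α lm l b m f p * H2 p| ≤
      A * EV (1440 * C + 7680 * C2 * C + 400) lm l m e (∫ p, |f2 p|) + 2 / l * ∫ p, |H1 p| := by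
  have hFc : Continuous (FV α lm l b m f) :=
    ((XiV_smo α lm l b m).cont.comp (sg_cont α (m + 1))).mul
      (hf.cont.comp (cs_cont _ (m + 1)))
  have h := starV hC0 hC hC20 hC2 hα hlm hl hb4 m he0 he hf.sw (fun p => hfb _) hH.sw
    (A := A) (fun p => hA _)
  have e1 : ∫ p, FV α lm l b m f p * H2 p = ∫ p, XiV α lm l b m p * f (sw p) *
      H2 (sw (cs (fun _ => α) (m + 1) p)) := by
    rw [← mp_int (sg_mp α (m + 1)) (F := fun p => FV α lm l b m f p * H2 p) (hFc.mul hH.c2)]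
    congr 1
    funext p
    show FV α lm l b m f (sg α (m + 1) p) * H2 (sg α (m + 1) p) = _
    unfold FV
    rw [sg_sg, cs_sg]
    rfl
  have e2 : ∫ p, |f2 (sw p)| = ∫ p, |f2 p| := mp_int sw_mp (F := fun p => |f2 p|) hf.c2.abs
  have e3 : ∫ p, |H1 (sw p)| = ∫ p, |H1 p| := mp_int sw_mp (F := fun p => |H1 p|) hH.c1.abs
  rw [e1]
  rw [e2, e3] at h
  exact h

/-- the two sided estimate -/
theorem two_sidedV {C C2 : ℝ} (hC0 : 0 ≤ C) (hC : ∀ z, |rho' 1 z| ≤ C) (hC20 : 0 ≤ C2)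
    (hC2 : ∀ z, |deriv smoothTransition z| ≤ C2) {α l b : ℝ} {lm lm2 lm3 : ℕ → ℝ}
    (hα : 1 ≤ |α|) (hlm : ∀ j, 16 ≤ lm j) (hlm2 : ∀ j, 16 ≤ lm2 j) (hlm3 : ∀ j, 16 ≤ lm3 j)
    (hl : 4 ≤ l) (hb16 : 16 ≤ b) (m k : ℕ)
    {e1 e2 e3 : ℝ} (he10 : 0 ≤ e1) (he1 : Exp α lm l b m e1) (he20 : 0 ≤ e2)
    (he2 : Exp α lm2 l b (k + 1) e2) (he30 : 0 ≤ e3) (he3 : Exp α lm3 l b k e3) {φ φ1 φ2 ψ ψ1 ψ2 : T2 → ℝ} (hφ : C1T φ φ1 φ2)
    (hφs : Smo φ) (hφ1 : ∀ p, |φ p| ≤ 1) (hψ : C1T ψ ψ1 ψ2) (hψ1 : ∀ p, |ψ p| ≤ 1) :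
    |(∫ p, φ (cs (fun _ => α) (k + 2 + (m + 1)) p) * ψ p) - (∫ p, φ p) * ∫ p, ψ p| ≤
      2 * (XrV α lm l b m + XrV α lm2 l b (k + 1) + XrV α lm3 l b k) +
      (EV (1440 * C + 7680 * C2 * C + 400) lm l m e1 (∫ p, |φ2 p|) +
        EV (1440 * C + 7680 * C2 * C + 400) lm2 l (k + 1) e2 (∫ p, |ψ1 p|) +
        EV (1440 * C + 7680 * C2 * C + 400) lm3 l k e3 (∫ p, |ψ1 p|)) + 10 / l := by
  have hb4 : 4 ≤ b := by linarith
  have hb0 : 0 < b := by linarith
  set K := 1440 * C + 7680 * C2 * C + 400 with hK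
  have hK0 : 0 ≤ K := by rw [hK]; positivity
  have hl0 : 0 < l := by linarith
  set U : T2 → T2 := cs (fun _ => α) (k + 2) with hU
  have hUc : Continuous U := cs_cont _ _
  have hUmp : MeasurePreserving U (volume : Measure T2) volume := cs_mp _ _
  set F : T2 → ℝ := fun p => φ (cs (fun _ => α) (m + 1) p) with hF
  have hFc : Continuous F := hφ.cont.comp (cs_cont _ _)
  set G := FV α lm l b m φ with hG
  have hGs : Smo G := FV_smo α lm l b m hφs
  have hGc := hGs.c1t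
  have hGct : Continuous G := hGs.cont
  have hG1 : ∀ p, |G p| ≤ 1 := FV_bdd α lm l b m hφ1
  set X1 : T2 → ℝ := XiV α lm l b m with hX1
  set X2 : T2 → ℝ := XiV α lm2 l b (k + 1) with hX2
  set X3 : T2 → ℝ := XiV α lm3 l b k with hX3
  have cX1 : Continuous X1 := (XiV_smo _ _ _ _ _).cont
  have cX2 : Continuous X2 := (XiV_smo _ _ _ _ _).cont
  have cX3 : Continuous X3 := (XiV_smo _ _ _ _ _).cont
  have mX1 : ∀ p, 0 ≤ X1 p ∧ X1 p ≤ 1 := XiV_mem _ _ _ _ _
  have mX2 : ∀ p, 0 ≤ X2 p ∧ X2 p ≤ 1 := XiV_mem _ _ _ _ _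
  have mX3 : ∀ p, 0 ≤ X3 p ∧ X3 p ≤ 1 := XiV_mem _ _ _ _ _
  have l1 : ∫ p, (1 - X1 p) ≤ XrV α lm l b m := lossV hα hlm hl hb16 m
  have l2 : ∫ p, (1 - X2 p) ≤ XrV α lm2 l b (k + 1) := lossV hα hlm2 hl hb16 (k + 1)
  have l3 : ∫ p, (1 - X3 p) ≤ XrV α lm3 l b k := lossV hα hlm3 hl hb16 k
  have c1X1 : Continuous (fun p => 1 - X1 p) := continuous_const.sub cX1
  have c1X2 : Continuous (fun p => 1 - X2 p) := continuous_const.sub cX2
  have c1X3 : Continuous (fun p => 1 - X3 p) := continuous_const.sub cX3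
  set c : ℝ := ∫ p, G p with hc
  have hc1 : |c| ≤ 1 := cint_one hG1
  have cψ := hψ.cont
  have cM : Continuous (M1 G) := M1_cont hGct
  have cM1 : Continuous (fun p : T2 => M1 G (U p).2) := cM.comp (continuous_snd.comp hUc)
  have bM : ∀ y, |M1 G y| ≤ 1 := M1_bdd hG1
  -- the losses
  have T1 : |∫ p, (F (U p) - G (U p)) * ψ p| ≤ XrV α lm l b m := by
    have cs1 : Continuous (fun p => 1 - X1 (sg α (m + 1) p)) := c1X1.comp (sg_cont α (m + 1))
    have q1 := cint_le (f := fun p => (F (U p) - G (U p)) * ψ p)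
      (b := fun p => 1 - X1 (sg α (m + 1) (U p))) (cs1.comp hUc) (by
        intro p
        rw [abs_mul]
        have r1 := FV_sub α lm l b m hφ1 (U p)
        have r2 := mul_le_of_le_one_right (abs_nonneg (F (U p) - G (U p))) (hψ1 p)
        exact r2.trans r1)
    rw [mp_int hUmp cs1, mp_int (sg_mp α (m + 1)) c1X1] at q1
    linarith
  have T2b : |∫ p, G (U p) * (1 - X2 p) * ψ p| ≤ XrV α lm2 l b (k + 1) := by
    have q1 := cint_le (f := fun p => G (U p) * (1 - X2 p) * ψ p) c1X2 (by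
      intro p
      have r0 := mX2 p
      rw [abs_mul, abs_mul, abs_of_nonneg (by linarith : 0 ≤ 1 - X2 p)]
      have r1 : |G (U p)| * (1 - X2 p) ≤ 1 - X2 p :=
        mul_le_of_le_one_left (by linarith) (hG1 _)
      exact (mul_le_of_le_one_right (mul_nonneg (abs_nonneg _) (by linarith)) (hψ1 p)).trans r1)
    linarith
  have T4 : |∫ p, M1 G (U p).2 * (1 - X2 p) * ψ p| ≤ XrV α lm2 l b (k + 1) := by
    have q1 := cint_le (f := fun p => M1 G (U p).2 * (1 - X2 p) * ψ p) c1X2 (by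
      intro p
      have r0 := mX2 p
      rw [abs_mul, abs_mul, abs_of_nonneg (by linarith : 0 ≤ 1 - X2 p)]
      have r1 : |M1 G (U p).2| * (1 - X2 p) ≤ 1 - X2 p :=
        mul_le_of_le_one_left (by linarith) (bM _)
      exact (mul_le_of_le_one_right (mul_nonneg (abs_nonneg _) (by linarith)) (hψ1 p)).trans r1)
    linarith
  have T5b : |∫ p, (M1 G (U p).2 - c) * (1 - X3 p) * ψ p| ≤ 2 * XrV α lm3 l b k := by
    have q1 := cint_le (f := fun p => (M1 G (U p).2 - c) * (1 - X3 p) * ψ p)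
      (b := fun p => 2 * (1 - X3 p)) (continuous_const.mul c1X3) (by
      intro p
      have r0 := mX3 p
      rw [abs_mul, abs_mul, abs_of_nonneg (by linarith : 0 ≤ 1 - X3 p)]
      have r2 : |M1 G (U p).2 - c| ≤ 2 := by
        have := abs_sub (M1 G (U p).2) c
        linarith [bM (U p).2]
      have r1 : |M1 G (U p).2 - c| * (1 - X3 p) ≤ 2 * (1 - X3 p) :=
        mul_le_mul_of_nonneg_right r2 (by linarith)
      exact (mul_le_of_le_one_right (mul_nonneg (abs_nonneg _) (by linarith)) (hψ1 p)).trans r1)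
    rw [integral_const_mul] at q1
    linarith
  -- the second derivative of the primitive
  have z2int : 0 ≤ ∫ p, |φ2 p| := integral_nonneg fun p => abs_nonneg _
  have T3' : ∫ p, |KP (D2 G) p| ≤ 2 + 2 * (EV K lm l m e1 (∫ p, |φ2 p|) + 2 / l * 3) := by
    apply L1_test (KP_cont hGc.c2)
    intro g hg hgb
    rw [KP_move hGc hg.c1t]
    have h1 := star2V hC0 hC hC20 hC2 hα hlm hl hb4 m he10 he1 hφ hφ1 (KP_c1t hg.c1t) (A := 1) (fun p => by
      have := KP_bdd hgb p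
      linarith)
    have h2 : ∫ p, |g p - M1 g p.2| ≤ 3 := by
      have q := cint_le (f := fun p => |g p - M1 g p.2|) (b := fun _ => 3) continuous_const (by
        intro p
        rw [abs_abs]
        have := abs_sub (g p) (M1 g p.2)
        linarith [hgb p, M1_bdd hgb p.2])
      simp only [integral_const, probReal_univ, one_smul] at q
      exact (le_abs_self _).trans q
    have h3 := mul_le_mul_of_nonneg_left h2 (by positivity : 0 ≤ 2 / l)
    rw [one_mul, ← hK] at h1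
    exact h1.trans (by linarith)
  have T3 : |∫ p, X2 p * ψ p * (G (U p) - M1 G (U p).2)| ≤
      EV K lm2 l (k + 1) e2 (∫ p, |ψ1 p|) + 2 / l * ∫ p, |KP (D2 G) p| := by
    have h1 := starV hC0 hC hC20 hC2 hα hlm2 hl hb4 (k + 1) he20 he2 hψ hψ1 (KP_c1t hGc)
      (A := 1) (fun p => by
        have := KP_bdd hG1 p
        linarith)
    rw [one_mul] at h1
    exact h1
  have T5 : |∫ p, X3 p * ψ p * (M1 G (U p).2 - c)| ≤ EV K lm3 l k e3 (∫ p, |ψ1 p|) := by
    have bMG : ∀ p, |MG G p| ≤ 1 := fun p => bM p.1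
    have h1 := starV hC0 hC hC20 hC2 hα hlm3 hl hb4 k he30 he3 hψ hψ1 (KP_c1t (MG_c1t hGc))
      (A := 1) (fun p => by
        have := KP_bdd bMG p
        linarith)
    simp_rw [KP_zero, M1_MG hGct] at h1
    rw [one_mul] at h1
    simp only [abs_zero, integral_zero, mul_zero, add_zero] at h1
    exact h1
  -- the limit
  have T6 : |c - ∫ p, φ p| ≤ XrV α lm l b m := by
    have z1 : ∫ p, φ p = ∫ p, F p := (mp_int (cs_mp (fun _ => α) (m + 1)) hφ.cont).symm
    have z2 : (∫ p, F p) - c = ∫ p, (F p - G p) := by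
      rw [hc, ← integral_sub (Pool.Agent.TH705.SM.integrable_cont hFc)
        (Pool.Agent.TH705.SM.integrable_cont hGct)]
    rw [z1, abs_sub_comm, z2]
    have cs1 : Continuous (fun p => 1 - X1 (sg α (m + 1) p)) := c1X1.comp (sg_cont α (m + 1))
    have q1 := cint_le (f := fun p => F p - G p) cs1 (fun p => FV_sub α lm l b m hφ1 p)
    rw [mp_int (sg_mp α (m + 1)) c1X1] at q1
    linarith
  have hψi : |∫ p, ψ p| ≤ 1 := cint_one hψ1
  -- the identity
  have ct1 : Continuous (fun p => (F (U p) - G (U p)) * ψ p) :=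
    ((hFc.comp hUc).sub (hGct.comp hUc)).mul cψ
  have ct2 : Continuous (fun p => G (U p) * (1 - X2 p) * ψ p) :=
    ((hGct.comp hUc).mul c1X2).mul cψ
  have ct3 : Continuous (fun p => X2 p * ψ p * (G (U p) - M1 G (U p).2)) :=
    (cX2.mul cψ).mul ((hGct.comp hUc).sub cM1)
  have ct4 : Continuous (fun p => M1 G (U p).2 * (1 - X2 p) * ψ p) := (cM1.mul c1X2).mul cψ
  have ct5 : Continuous (fun p => X3 p * ψ p * (M1 G (U p).2 - c)) :=
    (cX3.mul cψ).mul (cM1.sub continuous_const)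
  have ct6 : Continuous (fun p => (M1 G (U p).2 - c) * (1 - X3 p) * ψ p) :=
    ((cM1.sub continuous_const).mul c1X3).mul cψ
  have ct7 : Continuous (fun p => c * ψ p) := continuous_const.mul cψ
  have eI : ∫ p, φ (cs (fun _ => α) (k + 2 + (m + 1)) p) * ψ p =
      (∫ p, (F (U p) - G (U p)) * ψ p) + ((∫ p, G (U p) * (1 - X2 p) * ψ p) +
      ((∫ p, X2 p * ψ p * (G (U p) - M1 G (U p).2)) +
      (-(∫ p, M1 G (U p).2 * (1 - X2 p) * ψ p) +
      ((∫ p, X3 p * ψ p * (M1 G (U p).2 - c)) +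
      ((∫ p, (M1 G (U p).2 - c) * (1 - X3 p) * ψ p) + c * ∫ p, ψ p))))) := by
    have ct4' : Continuous (fun p => -(M1 G (U p).2 * (1 - X2 p) * ψ p)) := ct4.neg
    rw [← integral_neg, ← integral_const_mul, ← cint_add7 ct1 ct2 ct3 ct4' ct5 ct6 ct7]
    congr 1
    funext p
    have z1 : cs (fun _ => α) (k + 2 + (m + 1)) p = cs (fun _ => α) (m + 1) (U p) :=
      cs_add (fun _ => α) (k + 2) (m + 1) p
    rw [z1]
    show F (U p) * ψ p = _
    ring
  rw [eI]
  set I1 := ∫ p, (F (U p) - G (U p)) * ψ p with hI1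
  set I2 := ∫ p, G (U p) * (1 - X2 p) * ψ p with hI2
  set I3 := ∫ p, X2 p * ψ p * (G (U p) - M1 G (U p).2) with hI3
  set I4 := ∫ p, M1 G (U p).2 * (1 - X2 p) * ψ p with hI4
  set I5 := ∫ p, X3 p * ψ p * (M1 G (U p).2 - c) with hI5
  set I6 := ∫ p, (M1 G (U p).2 - c) * (1 - X3 p) * ψ p with hI6
  set ci := c - ∫ p, φ p with hci
  have e9 : I1 + (I2 + (I3 + (-I4 + (I5 + (I6 + c * ∫ p, ψ p))))) - (∫ p, φ p) * ∫ p, ψ p =
      I1 + I2 + I3 + (-I4) + I5 + I6 + ci * ∫ p, ψ p := by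
    rw [hci]
    ring
  rw [e9]
  have T7 : |ci * ∫ p, ψ p| ≤ XrV α lm l b m := by
    rw [abs_mul]
    exact (mul_le_of_le_one_right (abs_nonneg _) hψi).trans T6
  have b1 := abs_add_le (I1 + I2 + I3 + (-I4) + I5 + I6) (ci * ∫ p, ψ p)
  have b2 := abs_add_le (I1 + I2 + I3 + (-I4) + I5) I6
  have b3 := abs_add_le (I1 + I2 + I3 + (-I4)) I5
  have b4 := abs_add_le (I1 + I2 + I3) (-I4)
  have b5 := abs_add_le (I1 + I2) I3
  have b6 := abs_add_le I1 I2
  rw [abs_neg] at b4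
  have hE1 : 0 ≤ EV K lm l m e1 (∫ p, |φ2 p|) := by
    unfold EV
    have : 0 ≤ ∑ j ∈ Finset.range m, (1 / 2 : ℝ) ^ (m - (j + 1)) / lm (j + 1) :=
      Finset.sum_nonneg fun j _ => by
        have := hlm (j + 1)
        have : 0 < lm (j + 1) := by linarith
        positivity
    positivity
  have r1 := mul_le_mul_of_nonneg_left T3' (by positivity : 0 ≤ 2 / l)
  have hl4 : 1 / l ≤ 1 / 4 := one_div_le_one_div_of_le (by norm_num) hl
  have hl1 : 0 < 1 / l := by positivity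
  have z10 : 2 / l * (2 + 2 * (EV K lm l m e1 (∫ p, |φ2 p|) + 2 / l * 3)) =
      4 * (1 / l) + 4 * (1 / l) * EV K lm l m e1 (∫ p, |φ2 p|) + 24 * ((1 / l) * (1 / l)) := by ring
  have z11 : 10 / l = 10 * (1 / l) := by ring
  rw [z10] at r1
  rw [z11]
  have r2 : 4 * (1 / l) * EV K lm l m e1 (∫ p, |φ2 p|) ≤ 1 * EV K lm l m e1 (∫ p, |φ2 p|) :=
    mul_le_mul_of_nonneg_right (by linarith) hE1
  have r3 : (1 / l) * (1 / l) ≤ 1 / 4 * (1 / l) := mul_le_mul_of_nonneg_right hl4 hl1.le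
  linarith

end Pool.Agent.H52.STD
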