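import Mathlib
import Pool.Agent.H52.STD.Va4

set_option autoImplicit false

/-!
# The rates
-/

namespace Pool.Agent.H52.STD

open Real MeasureTheory Function Filter Topology

/-- the thresholds -/
noncomputable def lmz (Λ : ℝ) (m j : ℕ) : ℝ := 16 + Λ * (3 / 4) ^ (m - j)

theorem lmz_ge {Λ : ℝ} (hΛ : 0 ≤ Λ) (m j : ℕ) : 16 ≤ lmz Λ m j := by
  unfold lmz
  have : 0 ≤ Λ * (3 / 4) ^ (m - j) := by positivity
  linarith

theorem geom_le {x : ℝ} (hx0 : 0 ≤ x) (hx1 : x < 1) (m : ℕ) :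
    ∑ i ∈ Finset.range m, x ^ i ≤ 1 / (1 - x) := by
  rw [geom_sum_eq hx1.ne, ← neg_div_neg_eq, neg_sub, neg_sub]
  have : 0 ≤ x ^ m := by positivity
  exact div_le_div_of_nonneg_right (by linarith) (by linarith)

theorem refl_sum (f : ℕ → ℝ) (m : ℕ) :
    ∑ j ∈ Finset.range m, f (m - (j + 1)) = ∑ i ∈ Finset.range m, f i := by
  rw [← Finset.sum_range_reflect]
  apply Finset.sum_congr rfl
  intro j hj
  have := Finset.mem_range.1 hj
  congr 1
  omega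

theorem lmz_sum1 {Λ : ℝ} (hΛ : 0 < Λ) (m : ℕ) :
    ∑ j ∈ Finset.range m, (1 / 2) ^ (m - (j + 1)) / lmz Λ m (j + 1) ≤ 3 / Λ := by
  have h1 : ∑ j ∈ Finset.range m, (1 / 2) ^ (m - (j + 1)) / lmz Λ m (j + 1) ≤
      ∑ j ∈ Finset.range m, (fun i : ℕ => (2 / 3 : ℝ) ^ i / Λ) (m - (j + 1)) := by
    apply Finset.sum_le_sum
    intro j _
    simp only
    unfold lmz
    set i := m - (j + 1) with hi
    have e : (2 / 3 : ℝ) ^ i / Λ = (1 / 2) ^ i / (Λ * (3 / 4) ^ i) := by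
      have : (2 / 3 : ℝ) ^ i = (1 / 2) ^ i / (3 / 4) ^ i := by
        rw [← div_pow]
        norm_num
      rw [this]
      field_simp
    rw [e]
    apply div_le_div_of_nonneg_left (by positivity) (by positivity)
    linarith
  rw [refl_sum (fun i : ℕ => (2 / 3 : ℝ) ^ i / Λ) m] at h1
  refine h1.trans ?_
  rw [← Finset.sum_div]
  have h2 := geom_le (x := 2 / 3) (by norm_num) (by norm_num) m
  have h3 : (1:ℝ) / (1 - 2 / 3) = 3 := by norm_num
  rw [h3] at h2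
  exact div_le_div_of_nonneg_right h2 hΛ.le

theorem lmz_sum2 {Λ : ℝ} (hΛ : 0 ≤ Λ) (m : ℕ) :
    ∑ j ∈ Finset.range m, lmz Λ m (j + 1) ≤ 16 * m + 4 * Λ := by
  have h1 : ∑ j ∈ Finset.range m, lmz Λ m (j + 1) =
      ∑ j ∈ Finset.range m, (fun i : ℕ => 16 + Λ * (3 / 4 : ℝ) ^ i) (m - (j + 1)) := rfl
  rw [h1, refl_sum (fun i : ℕ => 16 + Λ * (3 / 4 : ℝ) ^ i) m]
  rw [Finset.sum_add_distrib, Finset.sum_const, Finset.card_range, nsmul_eq_mul,
    ← Finset.mul_sum]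
  have h2 := geom_le (x := 3 / 4) (by norm_num) (by norm_num) m
  have h3 : (1:ℝ) / (1 - 3 / 4) = 4 := by norm_num
  rw [h3] at h2
  have := mul_le_mul_of_nonneg_left h2 hΛ
  linarith

/-- the size of the error -/
noncomputable def wz (α : ℝ) (n : ℕ) : ℝ := n * (1 + log |α|) / α ^ 2 + 1 / √|α|

theorem wz_nonneg {α : ℝ} (hα : 1 ≤ |α|) (n : ℕ) : 0 ≤ wz α n := by
  unfold wz
  have := log_nonneg hα
  positivity

theorem kap_le {α : ℝ} (hα : 1 ≤ |α|) : kap α α ≤ 2 * (1 + log |α|) / α ^ 2 := by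
  unfold kap
  have h0 : 0 < |α| := by linarith
  rw [log_mul h0.ne' h0.ne', ← sq, sq_abs]
  have hl := log_nonneg hα
  have : 0 < α ^ 2 := by
    rw [← sq_abs]
    positivity
  exact div_le_div_of_nonneg_right (by linarith) this.le

theorem sqrt_kap {α : ℝ} (hα : 1 ≤ |α|) : √|α| * kap α α ≤ 2 * (1 / √|α|) := by
  have h0 : 0 < |α| := by linarith
  have hs : 0 < √|α| := Real.sqrt_pos.2 h0
  have hss : √|α| * √|α| = |α| := Real.mul_self_sqrt h0.le
  have h1 := kap_le hα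
  have h2 := log_le_sub_one_of_pos h0
  have h3 : 2 * (1 + log |α|) / α ^ 2 ≤ 2 / |α| := by
    have e : α ^ 2 = |α| * |α| := by rw [← sq, sq_abs]
    rw [e, div_le_div_iff₀ (by positivity) h0]
    nlinarith
  have h4 := mul_le_mul_of_nonneg_left (h1.trans h3) hs.le
  refine h4.trans (le_of_eq ?_)
  have h5 : √|α| / |α| = 1 / √|α| := Real.sqrt_div_self'
  rw [← h5]
  ring

/-- the loss with the choice of the parameters -/
theorem XrV_le {α : ℝ} (hα : 1 ≤ |α|) (m : ℕ) :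
    XrV α (lmz (√|α|) m) (√|α|) (√|α|) m ≤
      576 * (m * (1 + log |α|) / α ^ 2) + 435 * (1 / √|α|) := by
  have h0 : 0 < |α| := by linarith
  have hs : 0 < √|α| := Real.sqrt_pos.2 h0
  have hss : √|α| * √|α| = |α| := Real.mul_self_sqrt h0.le
  have hκ := kap_nonneg hα hα
  have h1 := mul_le_mul_of_nonneg_left (lmz_sum2 hs.le m) (by positivity : 0 ≤ 18 * kap α α)
  have h2 := sqrt_kap hα
  have h3 := kap_le hα
  have h4 : 3 * √|α| / |α| = 3 * (1 / √|α|) := by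
    have h5 : √|α| / |α| = 1 / √|α| := Real.sqrt_div_self'
    rw [← h5]
    ring
  have h5 := mul_le_mul_of_nonneg_left h3 (by positivity : (0:ℝ) ≤ 288 * m)
  have e5 : 288 * (m:ℝ) * (2 * (1 + log |α|) / α ^ 2) = 576 * (m * (1 + log |α|) / α ^ 2) := by
    ring
  rw [e5] at h5
  unfold XrV
  rw [h4]
  have e6 : 18 * kap α α * (16 * m + 4 * √|α|) = 288 * m * kap α α + 72 * (√|α| * kap α α) := by
    ring
  rw [e6] at h1
  have e7 : 144 * √|α| * kap α α = 144 * (√|α| * kap α α) := by ring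
  rw [e7]
  linarith

theorem EV_le {α K : ℝ} (hα : 1 ≤ |α|) (hK : 0 ≤ K) (m : ℕ) (e N : ℝ) :
    EV K (lmz (√|α|) m) (√|α|) m e N ≤ 4 * K * (1 / √|α|) + e * N := by
  have h0 : 0 < |α| := by linarith
  have hs : 0 < √|α| := Real.sqrt_pos.2 h0
  have h1 := lmz_sum1 hs m
  have h2 : 3 / √|α| = 3 * (1 / √|α|) := by ring
  rw [h2] at h1
  have h3 := mul_le_mul_of_nonneg_left (add_le_add_left h1 (1 / √|α|)) hK
  unfold EV
  linarith

/-- the estimate for arbitrary lower bounds of the expansion -/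
theorem est_e : ∃ K : ℝ, 0 ≤ K ∧ ∀ (α : ℝ) (m k : ℕ), 256 ≤ |α| → ∀ e1 e2 e3 : ℝ,
    0 ≤ e1 → 0 ≤ e2 → 0 ≤ e3 → Exp α (lmz (√|α|) m) (√|α|) (√|α|) m e1 →
    Exp α (lmz (√|α|) (k + 1)) (√|α|) (√|α|) (k + 1) e2 →
    Exp α (lmz (√|α|) k) (√|α|) (√|α|) k e3 →
    ∀ φ ψ : T2 → ℝ, Smo φ → Smo ψ → (∀ p, |φ p| ≤ 1) → (∀ p, |ψ p| ≤ 1) → ∀ N : ℝ,
    ∫ p, |D2 φ p| ≤ N → ∫ p, |D1 ψ p| ≤ N →
    |(∫ p, φ (cs (fun _ => α) (k + m + 3) p) * ψ p) - (∫ p, φ p) * ∫ p, ψ p| ≤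
      K * wz α (k + m + 3) + (e1 + e2 + e3) * N := by
  obtain ⟨C, hC0, hC⟩ := rho'_bdd
  obtain ⟨C2, hC20, hC2⟩ := sT'_bdd
  set K₀ := 1440 * C + 7680 * C2 * C + 400 with hK₀
  have hK₀0 : 0 ≤ K₀ := by rw [hK₀]; positivity
  refine ⟨2620 + 12 * K₀, by positivity, ?_⟩
  intro α m k hα e1 e2 e3 he1 he2 he3 hE1 hE2 hE3 φ ψ hφ hψ hφ1 hψ1 N hN1 hN2
  have hα1 : 1 ≤ |α| := by linarith
  have h0 : 0 < |α| := by linarith
  have hs : 0 < √|α| := Real.sqrt_pos.2 h0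
  have hss : √|α| * √|α| = |α| := Real.mul_self_sqrt h0.le
  have hs16 : 16 ≤ √|α| := by
    rw [show (16:ℝ) = √(16 ^ 2) by rw [Real.sqrt_sq (by norm_num)]]
    exact Real.sqrt_le_sqrt (by norm_num; exact hα)
  have key := two_sidedV hC0 hC hC20 hC2 (α := α) (l := √|α|) (b := √|α|)
    (lm := lmz (√|α|) m) (lm2 := lmz (√|α|) (k + 1)) (lm3 := lmz (√|α|) k) hα1
    (lmz_ge hs.le m) (lmz_ge hs.le (k + 1)) (lmz_ge hs.le k) (by linarith) hs16 m k
    he1 hE1 he2 hE2 he3 hE3 hφ.c1t hφ hφ1 hψ.c1t hψ1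
  have en : k + 2 + (m + 1) = k + m + 3 := by omega
  rw [en] at key
  refine key.trans ?_
  rw [← hK₀]
  have x1 := XrV_le hα1 m
  have x2 := XrV_le hα1 (k + 1)
  have x3 := XrV_le hα1 k
  have v1 := EV_le hα1 hK₀0 m e1 (∫ p, |D2 φ p|)
  have v2 := EV_le hα1 hK₀0 (k + 1) e2 (∫ p, |D1 ψ p|)
  have v3 := EV_le hα1 hK₀0 k e3 (∫ p, |D1 ψ p|)
  have w1 := mul_le_mul_of_nonneg_left hN1 he1
  have w2 := mul_le_mul_of_nonneg_left hN2 he2
  have w3 := mul_le_mul_of_nonneg_left hN2 he3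
  have hl := log_nonneg hα1
  set A := 1 / √|α| with hA
  have hA0 : 0 < A := by positivity
  have e10 : 10 / √|α| = 10 * A := by rw [hA]; ring
  rw [e10]
  set L := (1 + log |α|) / α ^ 2 with hL
  have hL0 : 0 ≤ L := by positivity
  have f1 : ∀ j : ℕ, (j : ℝ) * (1 + log |α|) / α ^ 2 = j * L := fun j => by rw [hL]; ring
  rw [f1] at x1 x2 x3
  unfold wz
  rw [f1, ← hA]
  push_cast at x2 ⊢
  have hk0 : (0:ℝ) ≤ k := Nat.cast_nonneg k
  have hm0 : (0:ℝ) ≤ m := Nat.cast_nonneg m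
  have g1 := mul_nonneg hk0 hL0
  have g2 := mul_nonneg hm0 hL0
  have g3 : 0 ≤ K₀ * ((k + m + 3) * L) := by positivity
  nlinarith

/-- the trivial bound -/
theorem est_triv {φ ψ : T2 → ℝ} (hφ1 : ∀ p, |φ p| ≤ 1) (hψ1 : ∀ p, |ψ p| ≤ 1) (τ : T2 → T2) :
    |(∫ p, φ (τ p) * ψ p) - (∫ p, φ p) * ∫ p, ψ p| ≤ 2 := by
  have q1 := cint_one (f := fun p => φ (τ p) * ψ p) fun p => by
    rw [abs_mul]
    exact mul_le_one₀ (hφ1 _) (abs_nonneg _) (hψ1 _)
  have q2 : |(∫ p, φ p) * ∫ p, ψ p| ≤ 1 := by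
    rw [abs_mul]
    exact mul_le_one₀ (cint_one hφ1) (abs_nonneg _) (cint_one hψ1)
  have := abs_sub (∫ p, φ (τ p) * ψ p) ((∫ p, φ p) * ∫ p, ψ p)
  linarith

theorem wz_small {α : ℝ} (hα1 : 1 ≤ |α|) (hα : |α| < 256) (n : ℕ) : 2 ≤ 32 * wz α n := by
  have h0 : 0 < |α| := by linarith
  have hs : 0 < √|α| := Real.sqrt_pos.2 h0
  have hs16 : √|α| ≤ 16 := by
    rw [show (16:ℝ) = √(16 ^ 2) by rw [Real.sqrt_sq (by norm_num)]]
    exact Real.sqrt_le_sqrt (by norm_num; exact hα.le)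
  have h1 : 1 / 16 ≤ 1 / √|α| := one_div_le_one_div_of_le hs hs16
  have h2 : 0 ≤ (n : ℝ) * (1 + log |α|) / α ^ 2 := by
    have := log_nonneg hα1
    positivity
  unfold wz
  linarith

theorem expA (α : ℝ) (hα : 256 ≤ |α|) (m : ℕ) :
    Exp α (lmz (√|α|) m) (√|α|) (√|α|) m (16 * (1 / 2) ^ m * (1 / √|α|)) := by
  intro s t hg _
  have h0 : 0 < |α| := by linarith
  have hs : 0 < √|α| := Real.sqrt_pos.2 h0
  have hs16 : 16 ≤ √|α| := by
    rw [show (16:ℝ) = √(16 ^ 2) by rw [Real.sqrt_sq (by norm_num)]]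
    exact Real.sqrt_le_sqrt (by norm_num; exact hα)
  have h1 := D_large3 hg (lmz_ge hs.le m) (by linarith) rfl rfl
  have h2 : 1 / lmz (√|α|) m m ≤ 1 / √|α| := by
    apply one_div_le_one_div_of_le hs
    unfold lmz
    simp
  have h3 : 16 * (1 / 2) ^ (m + 1) * (1 / √|α| + 1 / lmz (√|α|) m m) ≤
      16 * (1 / 2) ^ m * (1 / √|α|) := by
    rw [pow_succ]
    have : 0 ≤ (1 / 2 : ℝ) ^ m := by positivity
    nlinarith
  exact h1.trans (mul_le_mul_of_nonneg_right h3 (abs_nonneg _))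

theorem expB (α : ℝ) (hα : 256 ≤ |α|) (m : ℕ) :
    Exp α (lmz (√|α|) m) (√|α|) (√|α|) m (|α| ^ (-((m : ℝ) / 16))) := by
  intro s t hg ht
  have h0 : 0 < |α| := by linarith
  have hs : 0 < √|α| := Real.sqrt_pos.2 h0
  have hs16 : 16 ≤ √|α| := by
    rw [show (16:ℝ) = √(16 ^ 2) by rw [Real.sqrt_sq (by norm_num)]]
    exact Real.sqrt_le_sqrt (by norm_num; exact hα)
  have h1 := D_largeV hg (lmz_ge hs.le m) (by linarith) rfl rfl (by linarith) ht
  have h2 : 4 / √|α| ≤ |α| ^ (-(1 / 4 : ℝ)) := by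
    have e1 : √|α| = |α| ^ (1 / 2 : ℝ) := Real.sqrt_eq_rpow _
    have e2 : |α| ^ (1 / 2 : ℝ) = |α| ^ (1 / 4 : ℝ) * |α| ^ (1 / 4 : ℝ) := by
      rw [← rpow_add h0]
      norm_num
    have e3 : (4:ℝ) ≤ |α| ^ (1 / 4 : ℝ) := by
      calc (4:ℝ) = (256:ℝ) ^ (1 / 4 : ℝ) := by
            rw [show (256:ℝ) = 4 ^ (4:ℝ) by norm_num, ← rpow_mul (by norm_num)]
            norm_num
        _ ≤ _ := rpow_le_rpow (by norm_num) hα (by norm_num)
    rw [e1, e2, rpow_neg h0.le]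
    set u := |α| ^ (1 / 4 : ℝ) with hu
    have hu0 : 0 < u := by positivity
    rw [div_le_iff₀ (by positivity)]
    calc (4:ℝ) ≤ u := e3
      _ = u⁻¹ * (u * u) := by field_simp
  have h3 : (4 / √|α|) ^ ((m : ℝ) / 4) ≤ |α| ^ (-((m : ℝ) / 16)) := by
    calc (4 / √|α|) ^ ((m : ℝ) / 4) ≤ (|α| ^ (-(1 / 4 : ℝ))) ^ ((m : ℝ) / 4) :=
          rpow_le_rpow (by positivity) h2 (by positivity)
      _ = |α| ^ (-((m : ℝ) / 16)) := by
          rw [← rpow_mul h0.le]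
          congr 1
          ring
  exact h1.trans (mul_le_mul_of_nonneg_right h3 (abs_nonneg _))

/-- decorrelation of smooth functions -/
theorem est_two : ∃ K : ℝ, 0 ≤ K ∧ ∀ (α : ℝ) (n : ℕ), 1 ≤ |α| → 3 ≤ n →
    ∀ φ ψ : T2 → ℝ, Smo φ → Smo ψ → (∀ p, |φ p| ≤ 1) → (∀ p, |ψ p| ≤ 1) → ∀ N : ℝ,
    ∫ p, |D2 φ p| ≤ N → ∫ p, |D1 ψ p| ≤ N →
    |(∫ p, φ (cs (fun _ => α) n p) * ψ p) - (∫ p, φ p) * ∫ p, ψ p| ≤
      K * (1 + N * (1 / 2) ^ (n / 2)) * wz α n ∧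
    (40 ≤ n → |(∫ p, φ (cs (fun _ => α) n p) * ψ p) - (∫ p, φ p) * ∫ p, ψ p| ≤
      K * (1 + N * |α| ^ (-((n : ℝ) / 64))) * wz α n) := by
  obtain ⟨K, hK0, hK⟩ := est_e
  refine ⟨K + 192, by positivity, ?_⟩
  intro α n hα hn φ ψ hφ hψ hφ1 hψ1 N hN1 hN2
  have hN0 : 0 ≤ N := (integral_nonneg fun p => abs_nonneg _).trans hN1
  have hw := wz_nonneg hα n
  have h0 : 0 < |α| := by linarith
  have hs : 0 < √|α| := Real.sqrt_pos.2 h0
  rcases lt_or_ge |α| 256 with hsmall | hbig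
  · have h1 := est_triv hφ1 hψ1 (cs (fun _ => α) n)
    have h2 := wz_small hα hsmall n
    have h3 : ∀ z : ℝ, 0 ≤ z → 32 * wz α n ≤ (K + 192) * (1 + N * z) * wz α n := by
      intro z hz
      apply mul_le_mul_of_nonneg_right _ hw
      have q1 : 0 ≤ N * z := by positivity
      have q2 : 0 ≤ (K + 192) * (N * z) := by positivity
      linarith
    exact ⟨h1.trans (h2.trans (h3 _ (by positivity))),
      fun _ => h1.trans (h2.trans (h3 _ (by positivity)))⟩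
  · obtain ⟨m, hm⟩ : ∃ m, m = (n - 3) / 2 := ⟨_, rfl⟩
    obtain ⟨k, hk⟩ : ∃ k, k = n - 3 - m := ⟨_, rfl⟩
    have hmk : m ≤ k := by omega
    have en : k + m + 3 = n := by omega
    have hA : 1 / √|α| ≤ wz α n := by
      unfold wz
      have := log_nonneg hα
      have : 0 ≤ (n : ℝ) * (1 + log |α|) / α ^ 2 := by positivity
      linarith
    have hA0 : 0 < 1 / √|α| := by positivity
    constructor
    · have key := hK α m k hbig _ _ _ (by positivity) (by positivity) (by positivity)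
        (expA α hbig m) (expA α hbig (k + 1)) (expA α hbig k) φ ψ hφ hψ hφ1 hψ1 N hN1 hN2
      rw [en] at key
      refine key.trans ?_
      have q : ∀ j, m ≤ j → (1 / 2 : ℝ) ^ j ≤ 4 * (1 / 2) ^ (n / 2) := by
        intro j hj
        have r1 : (1 / 2 : ℝ) ^ (j + 2) ≤ (1 / 2) ^ (n / 2) :=
          pow_le_pow_of_le_one (by norm_num) (by norm_num) (by omega)
        have r2 : (1 / 2 : ℝ) ^ (j + 2) = (1 / 2) ^ j * (1 / 4) := by
          rw [pow_add]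
          norm_num
        linarith
      have q1 := q m le_rfl
      have q2 := q (k + 1) (by omega)
      have q3 := q k hmk
      set z := (1 / 2 : ℝ) ^ (n / 2) with hz
      have hz0 : 0 ≤ z := by positivity
      have r1 : (16 * (1 / 2) ^ m * (1 / √|α|) + 16 * (1 / 2) ^ (k + 1) * (1 / √|α|) +
          16 * (1 / 2) ^ k * (1 / √|α|)) ≤ 192 * z * (1 / √|α|) := by
        have := mul_le_mul_of_nonneg_right (add_le_add (add_le_add q1 q2) q3) hA0.le
        linarith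
      have r2 := mul_le_mul_of_nonneg_right r1 hN0
      have r3 : 192 * z * (1 / √|α|) * N ≤ 192 * z * wz α n * N := by gcongr
      have r4 : 0 ≤ K * (N * z) * wz α n := by positivity
      have e1 : (K + 192) * (1 + N * z) * wz α n = K * wz α n + K * (N * z) * wz α n +
        192 * wz α n + 192 * z * wz α n * N := by ring
      rw [e1]
      linarith
    · intro hn40
      have key := hK α m k hbig _ _ _ (by positivity) (by positivity) (by positivity)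
        (expB α hbig m) (expB α hbig (k + 1)) (expB α hbig k) φ ψ hφ hψ hφ1 hψ1 N hN1 hN2
      rw [en] at key
      refine key.trans ?_
      have hn4 : (n : ℝ) - 4 ≤ 2 * m := by
        have : n ≤ 2 * m + 4 := by omega
        have : (n : ℝ) ≤ 2 * m + 4 := by exact_mod_cast this
        linarith
      have hn40' : (40:ℝ) ≤ n := by exact_mod_cast hn40
      set z := |α| ^ (-((n : ℝ) / 64)) with hz
      have hz0 : 0 ≤ z := by positivity
      have eA : 1 / √|α| = |α| ^ (-(1 / 2 : ℝ)) := by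
        rw [rpow_neg h0.le, Real.sqrt_eq_rpow, one_div]
      have q : ∀ j : ℕ, m ≤ j → |α| ^ (-((j : ℝ) / 16)) ≤ z * (1 / √|α|) := by
        intro j hj
        have hj' : (m : ℝ) ≤ j := by exact_mod_cast hj
        rw [eA, hz, ← rpow_add h0]
        apply rpow_le_rpow_of_exponent_le hα
        linarith
      have q1 := q m le_rfl
      have q2 := q (k + 1) (by omega)
      have q3 := q k hmk
      have r2 := mul_le_mul_of_nonneg_right (add_le_add (add_le_add q1 q2) q3) hN0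
      have r3 : 3 * (z * (1 / √|α|)) * N ≤ 3 * (z * wz α n) * N := by gcongr
      have r4 : 0 ≤ K * (N * z) * wz α n := by positivity
      have r5 : 0 ≤ z * wz α n * N := by positivity
      have e1 : (K + 192) * (1 + N * z) * wz α n = K * wz α n + K * (N * z) * wz α n +
        192 * wz α n + 192 * (z * wz α n * N) := by ring
      rw [e1]
      linarith

end Pool.Agent.H52.STD
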