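import Mathlib
import Pool.Agent.H52.STD.Va5

set_option autoImplicit false

/-!
# Functions of bounded variation, eigenfunctions, invariant sets
-/

namespace Pool.Agent.H52.STD

open Real MeasureTheory Function Filter Topology

/-- continuously differentiable functions bounded by one whose derivatives have a bounded
integral -/
structure SV (V : ℝ) (φ : T2 → ℝ) : Prop where
  smooth : ContDiff ℝ 1 fun z : ℝ × ℝ => φ ((z.1 : UnitAddCircle), (z.2 : UnitAddCircle))
  bound : ∀ p, |φ p| ≤ 1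
  v1 : ∫ y in (0:ℝ)..1, ∫ x in (0:ℝ)..1,
    |deriv (fun s : ℝ => φ ((s : UnitAddCircle), (y : UnitAddCircle))) x| ≤ V
  v2 : ∫ x in (0:ℝ)..1, ∫ y in (0:ℝ)..1,
    |deriv (fun s : ℝ => φ ((x : UnitAddCircle), (s : UnitAddCircle))) y| ≤ V

/-- limits of such functions -/
structure BVf (V : ℝ) (f : T2 → ℝ) : Prop where
  meas : Measurable f
  bound : ∀ p, |f p| ≤ 1
  approx : ∀ ε : ℝ, 0 < ε → ∃ φ : T2 → ℝ, SV V φ ∧ ∫ p, |f p - φ p| ≤ ε

theorem SV.d1 {V : ℝ} {φ : T2 → ℝ} (h : SV V φ) : ∫ p, |D1 φ p| ≤ V := by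
  have hs : Smo φ := h.smooth
  have hc := hs.c1t
  rw [Pool.Agent.TH705.SM.int_T2 _ (Pool.Agent.TH705.SM.integrable_cont hc.c1.abs)]
  refine le_trans (le_of_eq ?_) h.v1
  apply intervalIntegral.integral_congr
  intro y _
  apply intervalIntegral.integral_congr
  intro x _
  simp only
  congr 1
  exact (hc.d1 x y).deriv.symm

theorem SV.d2 {V : ℝ} {φ : T2 → ℝ} (h : SV V φ) : ∫ p, |D2 φ p| ≤ V := by
  have hs : Smo φ := h.smooth
  have hc := hs.c1t
  rw [int_T2' hc.c2.abs]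
  refine le_trans (le_of_eq ?_) h.v2
  apply intervalIntegral.integral_congr
  intro x _
  apply intervalIntegral.integral_congr
  intro y _
  simp only
  congr 1
  exact (hc.d2 x y).deriv.symm

theorem int_bdd {f : T2 → ℝ} (hf : Measurable f) {C : ℝ} (hC : ∀ p, |f p| ≤ C) :
    Integrable f (volume : Measure T2) :=
  Integrable.of_bound hf.aestronglyMeasurable C (Filter.Eventually.of_forall fun p => by
    rw [norm_eq_abs]
    exact hC p)

theorem bint_one {f : T2 → ℝ} (h : ∀ p, |f p| ≤ 1) : |∫ p, f p| ≤ 1 := cint_one h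

theorem mp_int' {τ : T2 → T2} (hmp : MeasurePreserving τ (volume : Measure T2) volume)
    {F : T2 → ℝ} (hF : Measurable F) : ∫ p, F (τ p) = ∫ p, F p := by
  have h1 : ∫ y, F y ∂(Measure.map τ volume) = ∫ p, F (τ p) :=
    integral_map hmp.measurable.aemeasurable hF.aestronglyMeasurable
  rw [← h1, hmp.map_eq]

/-- passing to the limit in a correlation -/
theorem corr_approx {τ : T2 → T2} (hmp : MeasurePreserving τ (volume : Measure T2) volume)
    {f g φ ψ : T2 → ℝ} (hf : Measurable f) (hg : Measurable g) (hφ : Measurable φ)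
    (hψ : Measurable ψ) (hf1 : ∀ p, |f p| ≤ 1) (hg1 : ∀ p, |g p| ≤ 1) (hφ1 : ∀ p, |φ p| ≤ 1)
    (hψ1 : ∀ p, |ψ p| ≤ 1) {ε : ℝ} (h1 : ∫ p, |f p - φ p| ≤ ε) (h2 : ∫ p, |g p - ψ p| ≤ ε) :
    |((∫ p, f (τ p) * g p) - (∫ p, f p) * ∫ p, g p) -
      ((∫ p, φ (τ p) * ψ p) - (∫ p, φ p) * ∫ p, ψ p)| ≤ 4 * ε := by
  have hτ := hmp.measurable
  have b1 : ∀ {u v : T2 → ℝ}, (∀ p, |u p| ≤ 1) → (∀ p, |v p| ≤ 1) → ∀ p, |u (τ p) * v p| ≤ 1 := by
    intro u v hu hv p
    rw [abs_mul]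
    exact mul_le_one₀ (hu _) (abs_nonneg _) (hv _)
  have b2 : ∀ {u v : T2 → ℝ}, (∀ p, |u p| ≤ 1) → (∀ p, |v p| ≤ 1) → ∀ p, |u p - v p| ≤ 2 := by
    intro u v hu hv p
    have := abs_sub (u p) (v p)
    linarith [hu p, hv p]
  have i1 := int_bdd ((hf.comp hτ).mul hg) (b1 hf1 hg1)
  have i2 := int_bdd ((hφ.comp hτ).mul hψ) (b1 hφ1 hψ1)
  have j1 : Integrable (fun p => |f p - φ p|) := (int_bdd (hf.sub hφ) (b2 hf1 hφ1)).abs
  have j2 : Integrable (fun p => |g p - ψ p|) := (int_bdd (hg.sub hψ) (b2 hg1 hψ1)).abs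
  have j3 : Integrable (fun p => |f (τ p) - φ (τ p)|) :=
    (int_bdd (f := fun p => f (τ p) - φ (τ p)) ((hf.comp hτ).sub (hφ.comp hτ))
      (fun p => b2 hf1 hφ1 (τ p))).abs
  have q1 : |(∫ p, f (τ p) * g p) - ∫ p, φ (τ p) * ψ p| ≤ 2 * ε := by
    have e1 : (∫ p, f (τ p) * g p) - ∫ p, φ (τ p) * ψ p =
        ∫ p, (f (τ p) * g p - φ (τ p) * ψ p) := (integral_sub i1 i2).symm
    rw [e1, ← norm_eq_abs]
    refine (norm_integral_le_of_norm_le (j3.add j2) (Filter.Eventually.of_forall fun p => ?_)).trans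
      ?_
    · rw [norm_eq_abs]
      have e2 : f (τ p) * g p - φ (τ p) * ψ p = (f (τ p) - φ (τ p)) * g p +
        φ (τ p) * (g p - ψ p) := by ring
      rw [e2]
      refine (abs_add_le _ _).trans ?_
      rw [abs_mul, abs_mul]
      have r1 := mul_le_of_le_one_right (abs_nonneg (f (τ p) - φ (τ p))) (hg1 p)
      have r2 := mul_le_of_le_one_left (abs_nonneg (g p - ψ p)) (hφ1 (τ p))
      exact add_le_add r1 r2
    · have e3 : ∫ p, (fun p => |f (τ p) - φ (τ p)|) p + (fun p => |g p - ψ p|) p =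
          (∫ p, |f (τ p) - φ (τ p)|) + ∫ p, |g p - ψ p| := integral_add j3 j2
      have e4 : ∫ p, |f (τ p) - φ (τ p)| = ∫ p, |f p - φ p| :=
        mp_int' hmp (F := fun p => |f p - φ p|) (hf.sub hφ).abs
      show ∫ p, (fun p => |f (τ p) - φ (τ p)|) p + (fun p => |g p - ψ p|) p ≤ 2 * ε
      rw [e3, e4]
      linarith
  have q2 : |(∫ p, f p) - ∫ p, φ p| ≤ ε := by
    rw [← integral_sub (int_bdd hf hf1) (int_bdd hφ hφ1), ← norm_eq_abs]
    exact (norm_integral_le_integral_norm _).trans h1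
  have q3 : |(∫ p, g p) - ∫ p, ψ p| ≤ ε := by
    rw [← integral_sub (int_bdd hg hg1) (int_bdd hψ hψ1), ← norm_eq_abs]
    exact (norm_integral_le_integral_norm _).trans h2
  have e5 : ((∫ p, f (τ p) * g p) - (∫ p, f p) * ∫ p, g p) -
      ((∫ p, φ (τ p) * ψ p) - (∫ p, φ p) * ∫ p, ψ p) =
      ((∫ p, f (τ p) * g p) - ∫ p, φ (τ p) * ψ p) -
      (((∫ p, f p) - ∫ p, φ p) * (∫ p, g p) + (∫ p, φ p) * ((∫ p, g p) - ∫ p, ψ p)) := by ring
  rw [e5]
  have r1 := abs_sub ((∫ p, f (τ p) * g p) - ∫ p, φ (τ p) * ψ p)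
    (((∫ p, f p) - ∫ p, φ p) * (∫ p, g p) + (∫ p, φ p) * ((∫ p, g p) - ∫ p, ψ p))
  have r2 := abs_add_le (((∫ p, f p) - ∫ p, φ p) * (∫ p, g p))
    ((∫ p, φ p) * ((∫ p, g p) - ∫ p, ψ p))
  rw [abs_mul, abs_mul] at r2
  have r3 := mul_le_of_le_one_right (abs_nonneg ((∫ p, f p) - ∫ p, φ p)) (bint_one hg1)
  have r4 := mul_le_of_le_one_left (abs_nonneg ((∫ p, g p) - ∫ p, ψ p)) (bint_one hφ1)
  linarith

/-- decorrelation of functions of bounded variation -/
theorem bv_est : ∃ K : ℝ, 0 ≤ K ∧ ∀ (α : ℝ) (n : ℕ), 1 ≤ |α| → 3 ≤ n →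
    ∀ (V : ℝ) (f g : T2 → ℝ), BVf V f → BVf V g →
    |(∫ p, f (cs (fun _ => α) n p) * g p) - (∫ p, f p) * ∫ p, g p| ≤
      K * (1 + V * (1 / 2) ^ (n / 2)) * wz α n ∧
    (40 ≤ n → |(∫ p, f (cs (fun _ => α) n p) * g p) - (∫ p, f p) * ∫ p, g p| ≤
      K * (1 + V * |α| ^ (-((n : ℝ) / 64))) * wz α n) := by
  obtain ⟨K, hK0, hK⟩ := est_two
  refine ⟨K, hK0, ?_⟩
  intro α n hα hn V f g hf hg
  have main : ∀ R : ℝ, (∀ φ ψ : T2 → ℝ, SV V φ → SV V ψ →
      |(∫ p, φ (cs (fun _ => α) n p) * ψ p) - (∫ p, φ p) * ∫ p, ψ p| ≤ R) →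
      |(∫ p, f (cs (fun _ => α) n p) * g p) - (∫ p, f p) * ∫ p, g p| ≤ R := by
    intro R hR
    apply le_of_forall_pos_le_add
    intro ε hε
    obtain ⟨φ, hφ, hφε⟩ := hf.approx (ε / 4) (by positivity)
    obtain ⟨ψ, hψ, hψε⟩ := hg.approx (ε / 4) (by positivity)
    have sφ : Smo φ := hφ.smooth
    have sψ : Smo ψ := hψ.smooth
    have h1 := corr_approx (cs_mp (fun _ => α) n) hf.meas hg.meas sφ.cont.measurable
      sψ.cont.measurable hf.bound hg.bound hφ.bound hψ.bound hφε hψε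
    have h2 := hR φ ψ hφ hψ
    set a1 := (∫ p, f (cs (fun _ => α) n p) * g p) - (∫ p, f p) * ∫ p, g p with ha1
    set a2 := (∫ p, φ (cs (fun _ => α) n p) * ψ p) - (∫ p, φ p) * ∫ p, ψ p with ha2
    have h3 := abs_sub_abs_le_abs_sub a1 a2
    linarith
  constructor
  · apply main
    intro φ ψ hφ hψ
    exact (hK α n hα hn φ ψ hφ.smooth hψ.smooth hφ.bound hψ.bound V hφ.d2 hψ.d1).1
  · intro h40
    apply main
    intro φ ψ hφ hψ
    exact (hK α n hα hn φ ψ hφ.smooth hψ.smooth hφ.bound hψ.bound V hφ.d2 hψ.d1).2 h40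

theorem SV.nonneg {V : ℝ} {φ : T2 → ℝ} (h : SV V φ) : 0 ≤ V :=
  (integral_nonneg fun p => abs_nonneg _).trans h.d1

theorem BVf.nonneg {V : ℝ} {f : T2 → ℝ} (h : BVf V f) : 0 ≤ V := by
  obtain ⟨φ, hφ, _⟩ := h.approx 1 one_pos
  exact hφ.nonneg

/-- the size of the error for functions with a given variation -/
noncomputable def wv (α : ℝ) (k : ℕ) (V : ℝ) : ℝ :=
  (k * (1 + log |α|) + log (2 + V)) / α ^ 2 + 1 / √|α|

/-- a multiple of a given time at which functions of bounded variation are decorrelated -/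
theorem mult_est : ∃ K : ℝ, 1 ≤ K ∧ ∀ (α : ℝ) (k : ℕ), 1 ≤ |α| → 1 ≤ k → ∀ V : ℝ, 0 ≤ V →
    ∃ j : ℕ, ∀ f g : T2 → ℝ, BVf V f → BVf V g →
    |(∫ p, f (cs (fun _ => α) (k * j) p) * g p) - (∫ p, f p) * ∫ p, g p| ≤ K * wv α k V := by
  obtain ⟨K, hK0, hK⟩ := bv_est
  refine ⟨256 * K + 32, by linarith, ?_⟩
  intro α k hα hk V hV
  have h0 : 0 < |α| := by linarith
  have hl := log_nonneg hα
  have hlV : 0 ≤ log (2 + V) := log_nonneg (by linarith)
  have hα2 : 0 < α ^ 2 := by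
    rw [← sq_abs]
    positivity
  have hs : 0 < √|α| := Real.sqrt_pos.2 h0
  have hfr : 0 ≤ ((k : ℝ) * (1 + log |α|) + log (2 + V)) / α ^ 2 := by positivity
  rcases lt_or_ge |α| 256 with hsmall | hbig
  · refine ⟨0, fun f g hf hg => ?_⟩
    have h1 := est_triv hf.bound hg.bound (cs (fun _ => α) (k * 0))
    have hs16 : √|α| ≤ 16 := by
      rw [show (16:ℝ) = √(16 ^ 2) by rw [Real.sqrt_sq (by norm_num)]]
      exact Real.sqrt_le_sqrt (by norm_num; exact hsmall.le)
    have h2 : 1 / 16 ≤ 1 / √|α| := one_div_le_one_div_of_le hs hs16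
    have h3 : 1 / 16 ≤ wv α k V := by
      unfold wv
      linarith
    have h4 : 32 * (1 / 16) ≤ (256 * K + 32) * wv α k V :=
      mul_le_mul (by linarith) h3 (by norm_num) (by positivity)
    linarith
  · have hlog : 1 ≤ log |α| := by
      rw [le_log_iff_exp_le h0]
      have := exp_one_lt_d9
      linarith
    set c := ⌈40 + 64 * log (2 + V) / log |α|⌉₊ with hc
    have hc1 : 40 + 64 * log (2 + V) / log |α| ≤ c := Nat.le_ceil _
    have hc2 : (c : ℝ) ≤ 41 + 64 * log (2 + V) / log |α| := by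
      have := Nat.ceil_lt_add_one (a := 40 + 64 * log (2 + V) / log |α|) (by positivity)
      linarith
    have hdiv : 0 ≤ 64 * log (2 + V) / log |α| := by positivity
    obtain ⟨n, hn⟩ : ∃ n, n = k * (c / k + 1) := ⟨_, rfl⟩
    have hn1 : c ≤ n := by
      rw [hn, mul_add, mul_one]
      have h1 := Nat.div_add_mod c k
      have h2 := Nat.mod_lt c (by omega : 0 < k)
      omega
    have hn2 : n ≤ c + k := by
      rw [hn, mul_add, mul_one]
      have := Nat.mul_div_le c k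
      omega
    refine ⟨c / k + 1, fun f g hf hg => ?_⟩
    rw [← hn]
    have hn1' : (c : ℝ) ≤ n := by exact_mod_cast hn1
    have hn2' : (n : ℝ) ≤ c + k := by exact_mod_cast hn2
    have h40 : 40 ≤ n := by
      have : (40:ℝ) ≤ n := by linarith
      exact_mod_cast this
    have key := (hK α n hα (by omega) V f g hf hg).2 h40
    refine key.trans ?_
    have h1 : V * |α| ^ (-((n : ℝ) / 64)) ≤ 1 := by
      have h2 : log (2 + V) ≤ n / 64 * log |α| := by
        have h3 : 64 * log (2 + V) / log |α| ≤ n := by linarith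
        rw [div_le_iff₀ (by linarith)] at h3
        linarith
      have h3 : 2 + V ≤ |α| ^ ((n : ℝ) / 64) := by
        rw [rpow_def_of_pos h0]
        calc 2 + V = exp (log (2 + V)) := (exp_log (by linarith)).symm
          _ ≤ _ := exp_le_exp.2 (by linarith)
      rw [rpow_neg h0.le, ← div_eq_mul_inv, div_le_one (by positivity)]
      linarith
    have h2 : wz α n ≤ 128 * wv α k V := by
      have e1 : (n : ℝ) * (1 + log |α|) ≤ 41 * (1 + log |α|) +
          128 * (k * (1 + log |α|) + log (2 + V)) := by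
        have q1 : (n : ℝ) * (1 + log |α|) ≤
            (41 + 64 * log (2 + V) / log |α| + k) * (1 + log |α|) :=
          mul_le_mul_of_nonneg_right (by linarith) (by linarith)
        have q2 : 64 * log (2 + V) / log |α| * (1 + log |α|) ≤ 128 * log (2 + V) := by
          rw [div_mul_eq_mul_div, div_le_iff₀ (by linarith)]
          nlinarith
        have q3 : 0 ≤ (k : ℝ) * (1 + log |α|) := by positivity
        nlinarith
      have e2 : (1 + log |α|) / α ^ 2 ≤ 1 / √|α| := by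
        have q1 := log_le_sub_one_of_pos h0
        have q2 : (1 + log |α|) / α ^ 2 ≤ 1 / |α| := by
          have e : α ^ 2 = |α| * |α| := by rw [← sq, sq_abs]
          rw [e, div_le_div_iff₀ (by positivity) h0]
          nlinarith
        have q3 : 1 / |α| ≤ 1 / √|α| := by
          apply one_div_le_one_div_of_le hs
          have q4 : √|α| * √|α| = |α| := Real.mul_self_sqrt h0.le
          have q5 : 1 ≤ √|α| := by
            rw [show (1:ℝ) = √1 by rw [Real.sqrt_one]]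
            exact Real.sqrt_le_sqrt hα
          nlinarith
        linarith
      unfold wz wv
      have e3 : (n : ℝ) * (1 + log |α|) / α ^ 2 ≤ (41 * (1 + log |α|) +
          128 * (k * (1 + log |α|) + log (2 + V))) / α ^ 2 :=
        div_le_div_of_nonneg_right e1 hα2.le
      have e4 : (41 * (1 + log |α|) + 128 * (k * (1 + log |α|) + log (2 + V))) / α ^ 2 =
          41 * ((1 + log |α|) / α ^ 2) +
          128 * ((k * (1 + log |α|) + log (2 + V)) / α ^ 2) := by ring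
      rw [e4] at e3
      have hA0 : 0 ≤ 1 / √|α| := by positivity
      linarith
    have hw := wz_nonneg hα n
    have h3 : K * (1 + V * |α| ^ (-((n : ℝ) / 64))) * wz α n ≤ K * 2 * wz α n :=
      mul_le_mul_of_nonneg_right (mul_le_mul_of_nonneg_left (by linarith) hK0) hw
    have h4 : K * 2 * wz α n ≤ K * 2 * (128 * wv α k V) :=
      mul_le_mul_of_nonneg_left h2 (by positivity)
    have h5 : 0 ≤ wv α k V := by
      unfold wv
      positivity
    linarith

end Pool.Agent.H52.STD
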