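import Mathlib
import Pool.Agent.H52.STD.Va6
import Pool.Agent.H52.STD.Sq11

set_option autoImplicit false

/-!
# Eigenfunctions and invariant sets
-/

namespace Pool.Agent.H52.STD

open Real MeasureTheory Function Filter Topology

theorem eig_iter {τ : T2 → T2} (hτ : MeasurePreserving τ (volume : Measure T2) volume)
    {f : T2 → ℂ} {l : ℂ} (h : ∀ᵐ p : T2, f (τ p) = l * f p) (j : ℕ) :
    ∀ᵐ p : T2, f (τ^[j] p) = l ^ j * f p := by
  induction j with
  | zero => exact Filter.Eventually.of_forall fun p => by simp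
  | succ j ih =>
    have h1 : ∀ᵐ p : T2, f (τ^[j] (τ p)) = l ^ j * f (τ p) :=
      hτ.quasiMeasurePreserving.ae ih
    filter_upwards [h1, h] with p h2 h3
    rw [iterate_succ_apply, h2, h3]
    ring

theorem cint_re_im {f : T2 → ℂ} (hf : Integrable f (volume : Measure T2)) :
    (∫ p, f p) = ((∫ p, (f p).re : ℝ) : ℂ) + ((∫ p, (f p).im : ℝ) : ℂ) * Complex.I := by
  apply Complex.ext
  · simp only [Complex.add_re, Complex.ofReal_re, Complex.mul_re, Complex.I_re, Complex.ofReal_im,
      Complex.I_im]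
    have := Complex.reCLM.integral_comp_comm hf
    simp only [Complex.reCLM_apply] at this
    rw [this]
    ring
  · simp only [Complex.add_im, Complex.ofReal_im, Complex.mul_im, Complex.I_re, Complex.ofReal_re,
      Complex.I_im]
    have := Complex.imCLM.integral_comp_comm hf
    simp only [Complex.imCLM_apply] at this
    rw [this]
    ring

theorem one_le_abs_add {x y : ℝ} (h : x ^ 2 + y ^ 2 = 1) : 1 ≤ |x| + |y| := by
  have h1 : 1 ≤ (|x| + |y|) ^ 2 := by
    have h2 := mul_nonneg (abs_nonneg x) (abs_nonneg y)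
    have h3 := sq_abs x
    have h4 := sq_abs y
    nlinarith
  by_contra h5
  push Not at h5
  have h6 : 0 ≤ |x| + |y| := by positivity
  nlinarith

/-- eigenfunctions of bounded variation are almost constant -/
theorem eig_est : ∃ K : ℝ, 1 ≤ K ∧ ∀ (α : ℝ) (k : ℕ), 1 ≤ |α| → 1 ≤ k → ∀ (V : ℝ) (l : ℂ)
    (f : T2 → ℂ), ‖l‖ = 1 → BVf V (fun p => (f p).re) → BVf V (fun p => (f p).im) →
    (∀ᵐ p : T2, f (cs (fun _ => α) k p) = l * f p) →
    ∫ p : T2, ‖f p - ∫ q, f q‖ ^ 2 ≤ K * wv α k V := by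
  obtain ⟨K, hK1, hK⟩ := mult_est
  refine ⟨4 * K, by linarith, ?_⟩
  intro α k hα hk V l f hl hu hv hinv
  obtain ⟨j, hj⟩ := hK α k hα hk V hu.nonneg
  have hit : ∀ᵐ p : T2, f (cs (fun _ => α) (k * j) p) = l ^ j * f p := by
    have h1 := eig_iter (cs_mp (fun _ => α) k) hinv j
    rw [cs_const, iterate_mul, ← cs_const]
    exact h1
  set τ := cs (fun _ => α) (k * j) with hτ
  have hmp : MeasurePreserving τ (volume : Measure T2) volume := cs_mp (fun _ => α) (k * j)
  set u : T2 → ℝ := fun p => (f p).re with hu'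
  set v : T2 → ℝ := fun p => (f p).im with hv'
  have huu := hj u u hu hu
  have huv := hj u v hu hv
  have hvu := hj v u hv hu
  have hvv := hj v v hv hv
  set W := K * wv α k V with hW
  have hmu : Measurable u := hu.meas
  have hmv : Measurable v := hv.meas
  have b1 : ∀ {a b : T2 → ℝ}, (∀ p, |a p| ≤ 1) → (∀ p, |b p| ≤ 1) → ∀ p, |a (τ p) * b p| ≤ 1 := by
    intro a b ha hb p
    rw [abs_mul]
    exact mul_le_one₀ (ha _) (abs_nonneg _) (hb _)
  have b0 : ∀ {a b : T2 → ℝ}, (∀ p, |a p| ≤ 1) → (∀ p, |b p| ≤ 1) → ∀ p, |a p * b p| ≤ 1 := by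
    intro a b ha hb p
    rw [abs_mul]
    exact mul_le_one₀ (ha _) (abs_nonneg _) (hb _)
  have ium : Measurable fun p => u (τ p) := hmu.comp hmp.measurable
  have ivm : Measurable fun p => v (τ p) := hmv.comp hmp.measurable
  have i_uu : Integrable (fun p => u (τ p) * u p) (volume : Measure T2) :=
    int_bdd (ium.mul hmu) (b1 hu.bound hu.bound)
  have i_uv : Integrable (fun p => u (τ p) * v p) (volume : Measure T2) :=
    int_bdd (ium.mul hmv) (b1 hu.bound hv.bound)
  have i_vu : Integrable (fun p => v (τ p) * u p) (volume : Measure T2) :=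
    int_bdd (ivm.mul hmu) (b1 hv.bound hu.bound)
  have i_vv : Integrable (fun p => v (τ p) * v p) (volume : Measure T2) :=
    int_bdd (ivm.mul hmv) (b1 hv.bound hv.bound)
  have j_uu : Integrable (fun p => u p * u p) (volume : Measure T2) :=
    int_bdd (hmu.mul hmu) (b0 hu.bound hu.bound)
  have j_vv : Integrable (fun p => v p * v p) (volume : Measure T2) :=
    int_bdd (hmv.mul hmv) (b0 hv.bound hv.bound)
  have j_u : Integrable u (volume : Measure T2) := int_bdd hmu hu.bound
  have j_v : Integrable v (volume : Measure T2) := int_bdd hmv hv.bound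
  -- the second moment
  set Q := (∫ p, u p * u p) + ∫ p, v p * v p with hQ
  have hQ0 : 0 ≤ Q := by
    have q1 : 0 ≤ ∫ p, u p * u p := integral_nonneg fun p => mul_self_nonneg _
    have q2 : 0 ≤ ∫ p, v p * v p := integral_nonneg fun p => mul_self_nonneg _
    linarith
  set c := l ^ j with hc
  have hcn : ‖c‖ = 1 := by rw [hc, norm_pow, hl, one_pow]
  have hcn2 : c.re ^ 2 + c.im ^ 2 = 1 := by
    have h1 := Complex.sq_norm c
    rw [hcn, Complex.normSq_apply] at h1
    linarith
  -- real and imaginary part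
  have e1 : (∫ p, u (τ p) * u p) + ∫ p, v (τ p) * v p = c.re * Q := by
    rw [← integral_add i_uu i_vv, hQ, ← integral_add j_uu j_vv, ← integral_const_mul]
    apply integral_congr_ae
    filter_upwards [hit] with p hp
    have h1 : u (τ p) = c.re * u p - c.im * v p := by
      show (f (τ p)).re = _
      rw [hp, Complex.mul_re]
    have h2 : v (τ p) = c.re * v p + c.im * u p := by
      show (f (τ p)).im = _
      rw [hp, Complex.mul_im]
    rw [h1, h2]
    ring
  have e2 : (∫ p, v (τ p) * u p) - ∫ p, u (τ p) * v p = c.im * Q := by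
    rw [← integral_sub i_vu i_uv, hQ, ← integral_add j_uu j_vv, ← integral_const_mul]
    apply integral_congr_ae
    filter_upwards [hit] with p hp
    have h1 : u (τ p) = c.re * u p - c.im * v p := by
      show (f (τ p)).re = _
      rw [hp, Complex.mul_re]
    have h2 : v (τ p) = c.re * v p + c.im * u p := by
      show (f (τ p)).im = _
      rw [hp, Complex.mul_im]
    rw [h1, h2]
    ring
  set m1 := ∫ p, u p with hm1
  set m2 := ∫ p, v p with hm2
  -- the variance
  have e3 : ∫ p : T2, ‖f p - ∫ q, f q‖ ^ 2 = Q - (m1 ^ 2 + m2 ^ 2) := by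
    have hfi : Integrable f (volume : Measure T2) := by
      have h1 : f = fun p => ((u p : ℝ) : ℂ) + ((v p : ℝ) : ℂ) * Complex.I := by
        funext p
        exact (Complex.re_add_im (f p)).symm
      rw [h1]
      exact j_u.ofReal.add (j_v.ofReal.mul_const Complex.I)
    rw [cint_re_im hfi]
    have h2 : ∀ p, ‖f p - (((∫ p, (f p).re : ℝ) : ℂ) + ((∫ p, (f p).im : ℝ) : ℂ) * Complex.I)‖ ^ 2
        = (u p * u p + v p * v p) - (2 * m1 * u p + 2 * m2 * v p) + (m1 ^ 2 + m2 ^ 2) := by
      intro p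
      rw [Complex.sq_norm, Complex.normSq_apply]
      simp only [Complex.sub_re, Complex.add_re, Complex.ofReal_re, Complex.mul_re, Complex.I_re,
        Complex.ofReal_im, Complex.I_im, Complex.sub_im, Complex.add_im, Complex.mul_im]
      show ((f p).re - ((∫ p, u p) + ((∫ p, v p) * 0 - 0 * 1))) *
        ((f p).re - ((∫ p, u p) + ((∫ p, v p) * 0 - 0 * 1))) +
        ((f p).im - (0 + ((∫ p, v p) * 1 + 0 * 0))) *
        ((f p).im - (0 + ((∫ p, v p) * 1 + 0 * 0))) = _
      rw [← hm1, ← hm2]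
      show (u p - _) * (u p - _) + (v p - _) * (v p - _) = _
      ring
    rw [integral_congr_ae (Filter.Eventually.of_forall h2)]
    have k1 : Integrable (fun p => u p * u p + v p * v p) (volume : Measure T2) :=
      j_uu.add j_vv
    have k2 : Integrable (fun p => 2 * m1 * u p + 2 * m2 * v p) (volume : Measure T2) :=
      (j_u.const_mul _).add (j_v.const_mul _)
    have k3 : Integrable (fun p => (u p * u p + v p * v p) - (2 * m1 * u p + 2 * m2 * v p))
      (volume : Measure T2) := k1.sub k2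
    rw [integral_add k3 (integrable_const _), integral_sub k1 k2,
      integral_add j_uu j_vv, integral_add (j_u.const_mul _) (j_v.const_mul _),
      integral_const_mul, integral_const_mul, integral_const]
    simp only [probReal_univ, smul_eq_mul, one_mul]
    rw [← hm1, ← hm2]
    have h3 : (∫ p, u p * u p) + (∫ p, v p * v p) = Q := rfl
    linarith
  rw [e3]
  -- comparison
  have hA : |c.re * Q - (m1 ^ 2 + m2 ^ 2)| ≤ 2 * W := by
    rw [← e1]
    have h1 : (∫ p, u (τ p) * u p) + (∫ p, v (τ p) * v p) - (m1 ^ 2 + m2 ^ 2) =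
        ((∫ p, u (τ p) * u p) - m1 * m1) + ((∫ p, v (τ p) * v p) - m2 * m2) := by ring
    rw [h1]
    refine (abs_add_le _ _).trans ?_
    linarith
  have hB : |c.im * Q| ≤ 2 * W := by
    rw [← e2]
    have h1 : (∫ p, v (τ p) * u p) - (∫ p, u (τ p) * v p) =
        ((∫ p, v (τ p) * u p) - m2 * m1) - ((∫ p, u (τ p) * v p) - m1 * m2) := by ring
    rw [h1]
    refine (abs_sub _ _).trans ?_
    linarith
  have hR : 0 ≤ m1 ^ 2 + m2 ^ 2 := by positivity
  have hre := one_le_abs_add hcn2
  have hA1 : |c.re| * Q ≤ 2 * W + (m1 ^ 2 + m2 ^ 2) := by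
    have h1 : |c.re * Q| = |c.re| * Q := by rw [abs_mul, abs_of_nonneg hQ0]
    have h2 := abs_sub_abs_le_abs_sub (c.re * Q) (m1 ^ 2 + m2 ^ 2)
    rw [abs_of_nonneg hR] at h2
    linarith
  have hB1 : |c.im| * Q ≤ 2 * W := by
    have h1 : |c.im * Q| = |c.im| * Q := by rw [abs_mul, abs_of_nonneg hQ0]
    linarith
  have hfin : Q ≤ (|c.re| + |c.im|) * Q := le_mul_of_one_le_left hQ0 hre
  have hfin2 : (|c.re| + |c.im|) * Q = |c.re| * Q + |c.im| * Q := add_mul _ _ _
  linarith

/-- invariant sets with bounded perimeter -/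
theorem inv_est : ∃ K : ℝ, 1 ≤ K ∧ ∀ (α : ℝ) (k : ℕ), 1 ≤ |α| → 1 ≤ k → ∀ (V : ℝ) (B : Set T2),
    BVf V (B.indicator fun _ => 1) → (∀ᵐ p : T2, cs (fun _ => α) k p ∈ B ↔ p ∈ B) →
    volume.real B * (1 - volume.real B) ≤ K * wv α k V := by
  obtain ⟨K, hK1, hK⟩ := mult_est
  refine ⟨K, hK1, ?_⟩
  intro α k hα hk V B hB hinv
  obtain ⟨j, hj⟩ := hK α k hα hk V hB.nonneg
  have hmB : MeasurableSet B := by
    have h1 : B = (B.indicator fun _ => (1:ℝ)) ⁻¹' {1} := by
      ext p
      by_cases h : p ∈ B <;> simp [h]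
    rw [h1]
    exact hB.meas (measurableSet_singleton 1)
  have h0 : ∀ᵐ p : T2, ((B.indicator (fun _ => (1:ℝ)) (cs (fun _ => α) k p) : ℝ) : ℂ) =
      1 * ((B.indicator (fun _ => (1:ℝ)) p : ℝ) : ℂ) := by
    filter_upwards [hinv] with p hp
    rw [one_mul]
    congr 1
    by_cases h : p ∈ B
    · rw [Set.indicator_of_mem h, Set.indicator_of_mem (hp.2 h)]
    · rw [Set.indicator_of_notMem h, Set.indicator_of_notMem (fun h' => h (hp.1 h'))]
  have hit := eig_iter (f := fun p => ((B.indicator (fun _ => (1:ℝ)) p : ℝ) : ℂ))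
    (cs_mp (fun _ => α) k) h0 j
  have h2 : ∀ᵐ p : T2, (B.indicator (fun _ => (1:ℝ)) (cs (fun _ => α) (k * j) p) : ℝ) =
      B.indicator (fun _ => (1:ℝ)) p := by
    have e : (cs (fun _ => α) k)^[j] = cs (fun _ => α) (k * j) := by
      rw [cs_const, cs_const, iterate_mul]
    rw [e] at hit
    filter_upwards [hit] with p hp
    rw [one_pow, one_mul] at hp
    exact_mod_cast hp
  have h3 := hj _ _ hB hB
  have h4 : ∫ p, (B.indicator (fun _ => (1:ℝ)) p) = volume.real B := by
    rw [integral_indicator hmB, setIntegral_const, smul_eq_mul, mul_one]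
  have h5 : ∫ p, (B.indicator (fun _ => (1:ℝ)) (cs (fun _ => α) (k * j) p)) *
      (B.indicator (fun _ => (1:ℝ)) p) = volume.real B := by
    rw [← h4]
    apply integral_congr_ae
    filter_upwards [h2] with p hp
    rw [hp]
    by_cases h : p ∈ B <;> simp [h]
  rw [h5, h4] at h3
  have h6 := le_abs_self (volume.real B - volume.real B * volume.real B)
  linarith

/-- invariant sets which are neither small nor almost everything have exponentially large
perimeter -/
theorem inv_exp : ∃ K : ℝ, 1 ≤ K ∧ ∀ (α : ℝ) (k : ℕ) (δ : ℝ), 0 < δ → (K / δ) ^ 2 ≤ |α| →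
    1 ≤ k → K * (k * (1 + log |α|)) ≤ δ * α ^ 2 → ∀ (V : ℝ) (B : Set T2),
    BVf V (B.indicator fun _ => 1) → (∀ᵐ p : T2, cs (fun _ => α) k p ∈ B ↔ p ∈ B) →
    δ ≤ volume.real B → volume.real B ≤ 1 - δ → exp (δ * α ^ 2 / K) ≤ V := by
  obtain ⟨K, hK1, hK⟩ := inv_est
  refine ⟨16 * K, by linarith, ?_⟩
  intro α k δ hδ hbig hk hkl V B hB hinv hm1 hm2
  have hδ1 : δ ≤ 1 / 2 := by linarith
  have h16 : 32 ≤ 16 * K / δ := by
    rw [le_div_iff₀ hδ]
    nlinarith
  have hα : 1 ≤ |α| := by nlinarith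
  have h0 : 0 < |α| := by linarith
  have hα2 : 0 < α ^ 2 := by
    rw [← sq_abs]
    positivity
  have hV := hB.nonneg
  have key := hK α k hα hk V B hB hinv
  have h1 : δ / 2 ≤ volume.real B * (1 - volume.real B) := by nlinarith
  have h2 : K * (1 / √|α|) ≤ δ / 16 := by
    have q1 : 16 * K / δ ≤ √|α| := Real.le_sqrt_of_sq_le hbig
    have q2 : 0 < √|α| := by linarith
    rw [mul_one_div, div_le_div_iff₀ q2 (by norm_num)]
    rw [div_le_iff₀ hδ] at q1
    linarith
  have h3 : K * ((k * (1 + log |α|)) / α ^ 2) ≤ δ / 16 := by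
    rw [← mul_div_assoc, div_le_div_iff₀ hα2 (by norm_num)]
    linarith
  have h4 : 3 * δ / 8 ≤ K * (log (2 + V) / α ^ 2) := by
    unfold wv at key
    have e : K * (((k : ℝ) * (1 + log |α|) + log (2 + V)) / α ^ 2 + 1 / √|α|) =
      K * ((k * (1 + log |α|)) / α ^ 2) + K * (log (2 + V) / α ^ 2) + K * (1 / √|α|) := by ring
    rw [e] at key
    linarith
  have h5 : 4 * (δ * α ^ 2 / (16 * K)) ≤ log (2 + V) := by
    rw [← mul_div_assoc, le_div_iff₀ hα2] at h4
    rw [← mul_div_assoc, div_le_iff₀ (by positivity)]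
    nlinarith [log_nonneg (show (1:ℝ) ≤ 2 + V by linarith)]
  set x := δ * α ^ 2 / (16 * K) with hx
  have h6 : exp (4 * x) ≤ 2 + V := by
    rw [← exp_log (show (0:ℝ) < 2 + V by linarith)]
    exact exp_le_exp.2 h5
  have h7 : 1 ≤ x := by
    rw [hx, le_div_iff₀ (by positivity), one_mul]
    have q1 : 16 * K ≤ 16 * K / δ * δ := by rw [div_mul_cancel₀ _ hδ.ne']
    have q2 : 16 * K / δ ≤ α ^ 2 := by
      have e : α ^ 2 = |α| * |α| := by rw [← sq, sq_abs]
      rw [e]
      nlinarith
    calc 16 * K ≤ 16 * K / δ * δ := q1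
      _ ≤ α ^ 2 * δ := mul_le_mul_of_nonneg_right q2 hδ.le
      _ = δ * α ^ 2 := mul_comm _ _
  have h8 : 2 ≤ exp x := by
    have := add_one_le_exp x
    linarith
  have h9 : exp (4 * x) = exp x ^ 4 := by
    rw [← exp_nat_mul]
    norm_num
  rw [h9] at h6
  have h10 : exp x + 2 ≤ exp x ^ 4 := by
    have q1 : exp x ^ 2 ≥ 2 * exp x := by nlinarith
    have q2 : exp x ^ 4 = exp x ^ 2 * exp x ^ 2 := by ring
    nlinarith
  linarith

end Pool.Agent.H52.STD
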