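import Mathlib
import Pool.Agent.H52.STD.Va7

set_option autoImplicit false

/-!
# Time averages at all times
-/

namespace Pool.Agent.H52.STD

open Real MeasureTheory Function Filter Topology

/-- centred sums along an orbit -/
noncomputable def Sm (a : ℝ) (u : T2 → ℝ) (n : ℕ) (p : T2) : ℝ :=
  ∑ k ∈ Finset.range n, GG (fun _ => a) u k p

/-- their second moment, divided by the number of terms -/
noncomputable def Dv (a : ℝ) (u : T2 → ℝ) (n : ℕ) : ℝ := (∫ p, Sm a u n p ^ 2) / n

variable {a : ℝ} {u : T2 → ℝ}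

theorem cs_shift (a : ℝ) (m k : ℕ) (p : T2) :
    cs (fun _ => a) (m + k) p = cs (fun _ => a) k (cs (fun _ => a) m p) := by
  rw [cs_const, cs_const, cs_const, add_comm, iterate_add_apply]

theorem Sm_add (m n : ℕ) (p : T2) :
    Sm a u (m + n) p = Sm a u m p + Sm a u n (cs (fun _ => a) m p) := by
  unfold Sm
  rw [Finset.sum_range_add]
  congr 1
  apply Finset.sum_congr rfl
  intro k _
  unfold GG
  rw [cs_shift]

theorem Sm_memLp (hu : MemLp u 2 volume) (n : ℕ) : MemLp (Sm a u n) 2 volume := by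
  have : Sm a u n = fun p => ∑ k ∈ Finset.range n, GG (fun _ => a) u k p := rfl
  rw [this]
  exact memLp_finsetSum _ fun k _ => GG_memLp hu k

theorem Sm_int (hu : MemLp u 2 volume) (n : ℕ) : Integrable (fun p => Sm a u n p ^ 2)
    (volume : Measure T2) := (Sm_memLp hu n).integrable_sq

theorem Dv_nonneg (n : ℕ) : 0 ≤ Dv a u n :=
  div_nonneg (integral_nonneg fun p => sq_nonneg _) (Nat.cast_nonneg n)

theorem Dv_zero : Dv a u 0 = 0 := by
  unfold Dv
  simp

/-- subadditivity -/
theorem Dv_add (hu : MemLp u 2 volume) (m n : ℕ) : Dv a u (m + n) ≤ Dv a u m + Dv a u n := by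
  rcases Nat.eq_zero_or_pos m with rfl | hm
  · rw [zero_add, Dv_zero, zero_add]
  rcases Nat.eq_zero_or_pos n with rfl | hn
  · rw [add_zero, Dv_zero, add_zero]
  have hm' : (0:ℝ) < m := by exact_mod_cast hm
  have hn' : (0:ℝ) < n := by exact_mod_cast hn
  have i1 := Sm_int (a := a) hu m
  have i2 : Integrable (fun p => Sm a u n (cs (fun _ => a) m p) ^ 2) (volume : Measure T2) :=
    ((Sm_memLp (a := a) hu n).comp_measurePreserving (cs_mp (fun _ => a) m)).integrable_sq
  have e2 : ∫ p, Sm a u n (cs (fun _ => a) m p) ^ 2 = ∫ p, Sm a u n p ^ 2 :=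
    int_cs (fun _ => a) m (F := fun p => Sm a u n p ^ 2) (Sm_int hu n).1
  have e3 : Dv a u m + Dv a u n =
      ∫ p, (Sm a u m p ^ 2 / m + Sm a u n (cs (fun _ => a) m p) ^ 2 / n) := by
    rw [integral_add (i1.div_const _) (i2.div_const _), integral_div, integral_div, e2]
    rfl
  rw [e3]
  unfold Dv
  rw [← integral_div]
  apply integral_mono
  · exact (Sm_int hu _).div_const _
  · exact (i1.div_const _).add (i2.div_const _)
  · intro p
    show Sm a u (m + n) p ^ 2 / ((m + n : ℕ) : ℝ) ≤
      Sm a u m p ^ 2 / m + Sm a u n (cs (fun _ => a) m p) ^ 2 / n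
    rw [Sm_add]
    set x := Sm a u m p
    set y := Sm a u n (cs (fun _ => a) m p)
    push_cast
    rw [div_add_div _ _ hm'.ne' hn'.ne', div_le_div_iff₀ (by positivity) (by positivity)]
    nlinarith [sq_nonneg (n * x - m * y)]

theorem Dv_mul (hu : MemLp u 2 volume) (N q : ℕ) : Dv a u (N * q) ≤ q * Dv a u N := by
  induction q with
  | zero => simp [Dv_zero]
  | succ q ih =>
    rw [mul_add, mul_one]
    have := Dv_add (a := a) hu (N * q) N
    push_cast
    linarith

/-- the mean square of the deviation of the time average -/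
theorem dev_eq {n : ℕ} (hn : 1 ≤ n) :
    ∫ p : T2, ((1 / (n : ℝ)) * ∑ k ∈ Finset.range n, u (cs (fun _ => a) k p) -
      ∫ q, u q) ^ 2 = Dv a u n / n := by
  have hn0 : (0:ℝ) < n := by exact_mod_cast hn
  unfold Dv
  rw [div_div, ← integral_div]
  congr 1
  funext p
  unfold Sm GG
  rw [Finset.sum_sub_distrib, Finset.sum_const, Finset.card_range, nsmul_eq_mul]
  field_simp

theorem Dv_corr (hu : MemLp u 2 volume) {n : ℕ} (c : ℕ) {D κ : ℝ} (hD0 : 0 ≤ D) (hκ0 : 0 ≤ κ)
    (hD : ∀ d, |(∫ p : T2, u (cs (fun _ => a) d p) * u p) - (∫ p, u p) * ∫ p, u p| ≤ D)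
    (hκ : ∀ d, c ≤ d → d < n →
      |(∫ p : T2, u (cs (fun _ => a) d p) * u p) - (∫ p, u p) * ∫ p, u p| ≤ κ) :
    Dv a u n ≤ 2 * c * D + n * κ := by
  rcases Nat.eq_zero_or_pos n with rfl | hn
  · rw [Dv_zero]
    positivity
  have hn0 : (0:ℝ) < n := by exact_mod_cast hn
  set b : ℕ → ℝ := fun _ => a with hb
  have hsh : ∀ i, sh b i = b := fun i => rfl
  have hDD : ∀ i j, |∫ p, GG b u i p * GG b u j p| ≤ D := by
    intro i j
    rcases le_total i j with h | h
    · obtain ⟨d, rfl⟩ := Nat.exists_eq_add_of_le h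
      have e : ∫ p, GG b u i p * GG b u (i + d) p = ∫ p, GG b u (i + d) p * GG b u i p := by
        congr 1
        funext p
        ring
      rw [e, GG_corr hu, hsh]
      exact hD d
    · obtain ⟨d, rfl⟩ := Nat.exists_eq_add_of_le h
      rw [GG_corr hu, hsh]
      exact hD d
  have hfar : ∀ i j, i < n → j < n → ¬ (i < j + c ∧ j < i + c) →
      |∫ p, GG b u i p * GG b u j p| ≤ κ := by
    intro i j hin hjn hij
    rcases le_total i j with h | h
    · obtain ⟨d, rfl⟩ := Nat.exists_eq_add_of_le h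
      have e : ∫ p, GG b u i p * GG b u (i + d) p = ∫ p, GG b u (i + d) p * GG b u i p := by
        congr 1
        funext p
        ring
      have hd : c ≤ d := by
        by_contra hcon
        apply hij
        omega
      rw [e, GG_corr hu, hsh]
      exact hκ d hd (by omega)
    · obtain ⟨d, rfl⟩ := Nat.exists_eq_add_of_le h
      have hd : c ≤ d := by
        by_contra hcon
        apply hij
        omega
      rw [GG_corr hu, hsh]
      exact hκ d hd (by omega)
  have hsq : ∫ p : T2, Sm a u n p ^ 2 = ∑ i ∈ Finset.range n, ∑ j ∈ Finset.range n,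
        ∫ p, GG b u i p * GG b u j p := by
    have e1 : ∀ p, Sm a u n p ^ 2 = ∑ i ∈ Finset.range n, ∑ j ∈ Finset.range n,
          GG b u i p * GG b u j p := by
      intro p
      rw [← Finset.sum_mul_sum, ← sq]
      rfl
    simp_rw [e1]
    have hint : ∀ i j, Integrable (fun p => GG b u i p * GG b u j p) := fun i j =>
      (GG_memLp hu i).integrable_mul (GG_memLp hu j)
    rw [integral_finsetSum _ (fun i _ => integrable_finsetSum _
      fun j _ => hint i j)]
    apply Finset.sum_congr rfl
    intro i _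
    rw [integral_finsetSum _ (fun j _ => hint i j)]
  unfold Dv
  rw [hsq, div_le_iff₀ hn0]
  have h4 : ∀ i ∈ Finset.range n, ∑ j ∈ Finset.range n, ∫ p, GG b u i p * GG b u j p ≤
      n * κ + 2 * c * D := by
    intro i hi
    have h5 : ∀ j ∈ Finset.range n, ∫ p, GG b u i p * GG b u j p ≤
        κ + (if i < j + c ∧ j < i + c then D else 0) := by
      intro j hj
      split_ifs with hc
      · have := (le_abs_self _).trans (hDD i j)
        linarith
      · have := (le_abs_self _).trans (hfar i j (Finset.mem_range.1 hi) (Finset.mem_range.1 hj) hc)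
        linarith
    refine (Finset.sum_le_sum h5).trans ?_
    rw [Finset.sum_add_distrib, Finset.sum_const, Finset.card_range, nsmul_eq_mul,
      ← Finset.sum_filter, Finset.sum_const, nsmul_eq_mul]
    have h6 : (((Finset.range n).filter fun j => i < j + c ∧ j < i + c).card : ℝ) ≤ 2 * c := by
      have := near_card n c i
      exact_mod_cast this
    have h7 := mul_le_mul_of_nonneg_right h6 hD0
    linarith
  have h8 := Finset.sum_le_sum h4
  rw [Finset.sum_const, Finset.card_range, nsmul_eq_mul] at h8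
  linarith

/-- from one time to all times -/
theorem dev_all (hu : MemLp u 2 volume) {N n : ℕ} (hN : 1 ≤ N) (hn : 1 ≤ n) {R κ : ℝ}
    (hκ0 : 0 ≤ κ) (hR : ∀ r, r ≤ N → Dv a u r ≤ R + r * κ) :
    ∫ p : T2, ((1 / (n : ℝ)) * ∑ k ∈ Finset.range n, u (cs (fun _ => a) k p) -
      ∫ q, u q) ^ 2 ≤ R / n + R / N + 2 * κ := by
  have hn0 : (0:ℝ) < n := by exact_mod_cast hn
  have hN0 : (0:ℝ) < N := by exact_mod_cast hN
  have hR0 : 0 ≤ R := by
    have := hR 0 (Nat.zero_le _)
    rw [Dv_zero] at this
    simpa using this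
  rw [dev_eq hn]
  have h1 := Nat.div_add_mod n N
  have h2 : n % N < N := Nat.mod_lt n (by omega)
  set q := n / N with hq
  set r := n % N with hr
  have h3 := Dv_add (a := a) hu (N * q) r
  rw [h1] at h3
  have h4 := Dv_mul (a := a) hu N q
  have h5 := hR N le_rfl
  have h6 := hR r h2.le
  have h7 : (N : ℝ) * q ≤ n := by
    have : N * q ≤ n := by omega
    exact_mod_cast this
  have h8 : (r : ℝ) ≤ n := by
    have : r ≤ n := by omega
    exact_mod_cast this
  have hq0 : (0:ℝ) ≤ q := Nat.cast_nonneg q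
  have h9 : (q : ℝ) * Dv a u N ≤ q * (R + N * κ) := mul_le_mul_of_nonneg_left h5 hq0
  have h10 : Dv a u n ≤ q * (R + N * κ) + (R + r * κ) := by linarith
  have h11 : (q : ℝ) * (R + N * κ) ≤ n * (R / N + κ) := by
    have e : (q : ℝ) * (R + N * κ) = (N * q) * (R / N + κ) := by
      field_simp
    rw [e]
    exact mul_le_mul_of_nonneg_right h7 (by positivity)
  have h12 : (r : ℝ) * κ ≤ n * κ := mul_le_mul_of_nonneg_right h8 hκ0
  rw [div_le_iff₀ hn0]
  have e : (R / n + R / N + 2 * κ) * n = R + n * (R / N + κ) + n * κ := by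
    field_simp
    ring
  rw [e]
  linarith

end Pool.Agent.H52.STD
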