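import Mathlib
import Pool.Agent.H52.STD.Va8

set_option autoImplicit false

/-!
# Time averages at all times: the estimates
-/

namespace Pool.Agent.H52.STD

open Real MeasureTheory Function Filter Topology

theorem bdd_memLp {f : T2 → ℝ} (hf : Measurable f) (h : ∀ p, |f p| ≤ 1) :
    MemLp f 2 (volume : Measure T2) :=
  MemLp.of_bound hf.aestronglyMeasurable 1 (Filter.Eventually.of_forall fun p => by
    rw [norm_eq_abs]
    exact h p)

theorem wz_mono {α : ℝ} (hα : 1 ≤ |α|) {d n : ℕ} (h : d ≤ n) : wz α d ≤ wz α n := by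
  unfold wz
  have h0 : (d : ℝ) ≤ n := by exact_mod_cast h
  have hl := log_nonneg hα
  have h1 : (d : ℝ) * (1 + log |α|) / α ^ 2 ≤ n * (1 + log |α|) / α ^ 2 :=
    div_le_div_of_nonneg_right (mul_le_mul_of_nonneg_right h0 (by linarith)) (sq_nonneg α)
  linarith

theorem small_log {α : ℝ} (hα : 1 ≤ |α|) : (1 + log |α|) / α ^ 2 ≤ 1 / √|α| := by
  have h0 : 0 < |α| := by linarith
  have hs : 0 < √|α| := Real.sqrt_pos.2 h0
  have q1 := log_le_sub_one_of_pos h0
  have q2 : (1 + log |α|) / α ^ 2 ≤ 1 / |α| := by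
    have e : α ^ 2 = |α| * |α| := by rw [← sq, sq_abs]
    rw [e, div_le_div_iff₀ (by positivity) h0]
    nlinarith
  have q3 : 1 / |α| ≤ 1 / √|α| := by
    apply one_div_le_one_div_of_le hs
    have q4 : √|α| * √|α| = |α| := Real.mul_self_sqrt h0.le
    have q5 : 1 ≤ √|α| := by
      rw [show (1:ℝ) = √1 by rw [Real.sqrt_one]]
      exact Real.sqrt_le_sqrt hα
    nlinarith
  linarith

/-- the bound for the deviation of the time averages -/
noncomputable def wa (α V : ℝ) (n : ℕ) : ℝ :=
  (1 + log (2 + V) / (1 + log |α|)) / n + √(log (2 + V)) / |α| + 1 / √|α|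

/-- **time averages of functions of bounded variation at all times** -/
theorem avg_est : ∃ K : ℝ, 1 ≤ K ∧ ∀ (α : ℝ), 1 ≤ |α| → ∀ (V : ℝ) (f : T2 → ℝ), BVf V f →
    ∀ n : ℕ, 1 ≤ n →
    ∫ p : T2, ((1 / (n : ℝ)) * ∑ k ∈ Finset.range n, f (cs (fun _ => α) k p) -
      ∫ q, f q) ^ 2 ≤ K * wa α V n := by
  obtain ⟨K, hK0, hK⟩ := bv_est
  refine ⟨600 + 60 * K, by linarith, ?_⟩
  intro α hα V f hf n hn
  have hn0 : (0:ℝ) < n := by exact_mod_cast hn
  have hu := bdd_memLp hf.meas hf.bound
  have hV := hf.nonneg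
  have h0 : 0 < |α| := by linarith
  have hl := log_nonneg hα
  have hL : 0 ≤ log (2 + V) := log_nonneg (by linarith)
  have hα2 : 0 < α ^ 2 := by
    rw [← sq_abs]
    positivity
  have hs : 0 < √|α| := Real.sqrt_pos.2 h0
  have hfr1 : 0 ≤ (1 + log (2 + V) / (1 + log |α|)) / n := by positivity
  have hfr2 : 0 ≤ √(log (2 + V)) / |α| := by positivity
  have htriv : ∀ d, |(∫ p : T2, f (cs (fun _ => α) d p) * f p) - (∫ p, f p) * ∫ p, f p| ≤ 2 :=
    fun d => est_triv hf.bound hf.bound _
  rcases lt_or_ge |α| 256 with hsmall | hbig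
  · have h1 := Dv_corr (a := α) (n := n) hu 0 (D := 2) (κ := 2) (by norm_num) (by norm_num) htriv
      fun d _ _ => htriv d
    rw [dev_eq hn]
    have h2 : Dv α f n / n ≤ 2 := by
      rw [div_le_iff₀ hn0]
      push_cast at h1
      linarith
    have hs16 : √|α| ≤ 16 := by
      rw [show (16:ℝ) = √(16 ^ 2) by rw [Real.sqrt_sq (by norm_num)]]
      exact Real.sqrt_le_sqrt (by norm_num; exact hsmall.le)
    have h3 : 1 / 16 ≤ 1 / √|α| := one_div_le_one_div_of_le hs hs16
    have h4 : 1 / 16 ≤ wa α V n := by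
      unfold wa
      linarith
    have h5 : 32 * (1 / 16) ≤ (600 + 60 * K) * wa α V n :=
      mul_le_mul (by linarith) h4 (by norm_num) (by positivity)
    linarith
  · have hlog : 1 ≤ log |α| := by
      rw [le_log_iff_exp_le h0]
      have := exp_one_lt_d9
      linarith
    set L := log (2 + V) with hLdef
    set l := log |α| with hldef
    set c := ⌈40 + 64 * L / l⌉₊ with hc
    have hc1 : 40 + 64 * L / l ≤ c := Nat.le_ceil _
    have hc2 : (c : ℝ) ≤ 41 + 64 * L / l := by
      have := Nat.ceil_lt_add_one (a := 40 + 64 * L / l) (by positivity)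
      linarith
    have hdiv : 0 ≤ 64 * L / l := by positivity
    have hc0 : (0:ℝ) < c := by linarith
    -- correlations
    have hcorr : ∀ d, c ≤ d →
        |(∫ p : T2, f (cs (fun _ => α) d p) * f p) - (∫ p, f p) * ∫ p, f p| ≤ 2 * K * wz α d := by
      intro d hd
      have hd' : (c : ℝ) ≤ d := by exact_mod_cast hd
      have h40 : 40 ≤ d := by
        have : (40:ℝ) ≤ d := by linarith
        exact_mod_cast this
      have key := (hK α d hα (by omega) V f f hf hf).2 h40
      have h1 : V * |α| ^ (-((d : ℝ) / 64)) ≤ 1 := by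
        have h2 : L ≤ d / 64 * l := by
          have h3 : 64 * L / l ≤ d := by linarith
          rw [div_le_iff₀ (by linarith)] at h3
          linarith
        have h3 : 2 + V ≤ |α| ^ ((d : ℝ) / 64) := by
          rw [rpow_def_of_pos h0]
          calc 2 + V = exp (log (2 + V)) := (exp_log (by linarith)).symm
            _ ≤ _ := exp_le_exp.2 (by rw [← hLdef, ← hldef]; linarith)
        rw [rpow_neg h0.le, ← div_eq_mul_inv, div_le_one (by positivity)]
        linarith
      refine key.trans ?_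
      have hw := wz_nonneg hα d
      calc K * (1 + V * |α| ^ (-((d : ℝ) / 64))) * wz α d ≤ K * 2 * wz α d :=
            mul_le_mul_of_nonneg_right (mul_le_mul_of_nonneg_left (by linarith) hK0) hw
        _ = 2 * K * wz α d := by ring
    -- the time
    set s := √(c * (1 + l)) with hs'
    have hs0 : 0 < s := Real.sqrt_pos.2 (by positivity)
    have hss : s * s = c * (1 + l) := Real.mul_self_sqrt (by positivity)
    set N := ⌈|α| * s / (1 + l)⌉₊ with hN
    have hN1 : |α| * s / (1 + l) ≤ N := Nat.le_ceil _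
    have hpos : 0 < |α| * s / (1 + l) := by positivity
    have hN2 : (N : ℝ) ≤ |α| * s / (1 + l) + 1 := (Nat.ceil_lt_add_one hpos.le).le
    have hN3 : 1 ≤ N := Nat.one_le_iff_ne_zero.2 (Nat.pos_iff_ne_zero.1 (Nat.ceil_pos.2 hpos))
    have hN0 : (0:ℝ) < N := by exact_mod_cast hN3
    have hκ0 : 0 ≤ 2 * K * wz α N := mul_nonneg (by linarith) (wz_nonneg hα N)
    have hR : ∀ r, r ≤ N → Dv α f r ≤ 4 * c + r * (2 * K * wz α N) := by
      intro r hr
      have h1 := Dv_corr (a := α) (n := r) hu c (D := 2) (κ := 2 * K * wz α N) (by norm_num) hκ0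
        htriv fun d hd hdr => (hcorr d hd).trans (mul_le_mul_of_nonneg_left
          (wz_mono hα (by omega)) (by linarith))
      linarith
    have key := dev_all (a := α) hu hN3 hn hκ0 hR
    refine key.trans ?_
    -- arithmetic
    have e1 : (4 * c : ℝ) / N ≤ 4 * s / |α| := by
      rw [div_le_div_iff₀ hN0 h0]
      have h1 : |α| * s ≤ N * (1 + l) := by
        rw [div_le_iff₀ (by linarith)] at hN1
        exact hN1
      have h2 : 4 * c * |α| * (s * (1 + l)) ≤ 4 * s * N * (s * (1 + l)) := by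
        have h3 : 4 * (c * (1 + l)) * (|α| * s) ≤ 4 * (s * s) * (N * (1 + l)) := by
          rw [hss]
          exact mul_le_mul_of_nonneg_left h1 (by positivity)
        linarith
      exact le_of_mul_le_mul_right h2 (by positivity)
    have e2 : wz α N ≤ s / |α| + 2 * (1 / √|α|) := by
      unfold wz
      rw [← hldef]
      have h1 : (N : ℝ) * (1 + l) / α ^ 2 ≤ s / |α| + (1 + l) / α ^ 2 := by
        have h2 : (N : ℝ) * (1 + l) ≤ |α| * s + (1 + l) := by
          have h3 := mul_le_mul_of_nonneg_right hN2 (by linarith : 0 ≤ 1 + l)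
          rw [add_mul, div_mul_cancel₀ _ (by linarith : (1 + l) ≠ 0), one_mul] at h3
          exact h3
        have h3 : s / |α| = |α| * s / α ^ 2 := by
          have e : α ^ 2 = |α| * |α| := by rw [← sq, sq_abs]
          rw [e]
          field_simp
        rw [h3, ← add_div]
        exact div_le_div_of_nonneg_right h2 hα2.le
      have h2 := small_log hα
      rw [← hldef] at h2
      linarith
    have e3 : s / |α| ≤ 7 * (1 / √|α|) + 12 * (√L / |α|) := by
      have h1 : s ≤ 7 * √|α| + 12 * √L := by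
        have h2 : c * (1 + l) ≤ (7 * √|α| + 12 * √L) ^ 2 := by
          have h3 : c * (1 + l) ≤ 41 * (1 + l) + 128 * L := by
            have q1 : c * (1 + l) ≤ (41 + 64 * L / l) * (1 + l) :=
              mul_le_mul_of_nonneg_right hc2 (by linarith)
            have q2 : 64 * L / l * (1 + l) ≤ 128 * L := by
              rw [div_mul_eq_mul_div, div_le_iff₀ (by linarith)]
              nlinarith
            linarith
          have h4 : 1 + l ≤ |α| := by
            have := log_le_sub_one_of_pos h0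
            linarith
          have h5 : (7 * √|α| + 12 * √L) ^ 2 = 49 * (√|α| * √|α|) + 144 * (√L * √L) +
              168 * (√|α| * √L) := by ring
          rw [h5, Real.mul_self_sqrt h0.le, Real.mul_self_sqrt hL]
          have h6 : 0 ≤ √|α| * √L := by positivity
          linarith
        calc s ≤ √((7 * √|α| + 12 * √L) ^ 2) := Real.sqrt_le_sqrt h2
          _ = _ := Real.sqrt_sq (by positivity)
      have h2 : √|α| / |α| = 1 / √|α| := by
        rw [div_eq_div_iff h0.ne' hs.ne', one_mul, Real.mul_self_sqrt h0.le]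
      calc s / |α| ≤ (7 * √|α| + 12 * √L) / |α| := div_le_div_of_nonneg_right h1 h0.le
        _ = 7 * (√|α| / |α|) + 12 * (√L / |α|) := by ring
        _ = _ := by rw [h2]
    have e4 : (4 * c : ℝ) / n ≤ 512 * ((1 + L / (1 + l)) / n) := by
      rw [← mul_div_assoc]
      apply div_le_div_of_nonneg_right _ hn0.le
      have h1 : L / l ≤ 2 * (L / (1 + l)) := by
        rw [← mul_div_assoc, div_le_div_iff₀ (by linarith) (by linarith)]
        nlinarith
      have h2 : 64 * L / l = 64 * (L / l) := by ring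
      have h3 : 0 ≤ L / (1 + l) := by positivity
      rw [h2] at hc2
      linarith
    unfold wa
    rw [← hLdef, ← hldef]
    have hA : 0 ≤ 1 / √|α| := by positivity
    have e5 : 4 * s / |α| = 4 * (s / |α|) := by ring
    rw [e5] at e1
    set P := (1 + L / (1 + l)) / (n : ℝ)
    set Q := √L / |α|
    set R := 1 / √|α|
    set S := s / |α|
    have e6 : 2 * (2 * K * wz α N) ≤ 4 * K * (9 * R + 12 * Q) := by
      have : wz α N ≤ 9 * R + 12 * Q := by linarith
      have := mul_le_mul_of_nonneg_left this (by linarith : 0 ≤ 4 * K)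
      linarith
    have e7 : 4 * K * (9 * R + 12 * Q) = 36 * (K * R) + 48 * (K * Q) := by ring
    have k1 : 0 ≤ K * R := mul_nonneg hK0 hA
    have k2 : 0 ≤ K * Q := mul_nonneg hK0 hfr2
    have k3 : 0 ≤ K * P := mul_nonneg hK0 hfr1
    have e8 : (600 + 60 * K) * (P + Q + R) = 600 * P + 600 * Q + 600 * R + 60 * (K * P) +
      60 * (K * Q) + 60 * (K * R) := by ring
    rw [e8]
    linarith

/-- **the mean ergodic theorem, uniformly in large times** -/
theorem all_lln {u : T2 → ℝ} (hu : MemLp u 2 volume) {ε : ℝ} (hε : 0 < ε) :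
    ∃ (A : ℝ) (N : ℕ), 1 ≤ A ∧ ∀ (a : ℝ) (n : ℕ), A ≤ |a| → N ≤ n →
      ∫ p : T2, ((1 / (n : ℝ)) * ∑ k ∈ Finset.range n, u (cs (fun _ => a) k p) -
        ∫ q, u q) ^ 2 ≤ ε := by
  obtain ⟨A, δ, N₀, hA, hδ, h⟩ := one_lln hu (ε := ε / 2) (by positivity)
  set N₁ := N₀ + 1 with hN₁
  set C := ∫ p, (u p - ∫ q, u q) ^ 2 with hC
  have hC0 : 0 ≤ C := integral_nonneg fun p => sq_nonneg _
  obtain ⟨M, hM⟩ := exists_nat_gt (2 * (N₁ * C) / ε)
  refine ⟨max A (N₁ / δ), M + 1, le_max_of_le_left hA, fun a n ha hn => ?_⟩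
  have ha1 : A ≤ |a| := (le_max_left _ _).trans ha
  have ha2 : N₁ / δ ≤ |a| := (le_max_right _ _).trans ha
  have h0 : 0 < |a| := by linarith
  have hn1 : 1 ≤ n := by omega
  have hn0 : (0:ℝ) < n := by exact_mod_cast hn1
  have hN0 : (0:ℝ) < N₁ := by
    rw [hN₁]
    positivity
  have hl : (N₁ : ℝ) * log |a| ≤ δ * a ^ 2 := by
    have q1 := log_le_sub_one_of_pos h0
    rw [div_le_iff₀ hδ] at ha2
    have e : a ^ 2 = |a| * |a| := by rw [← sq, sq_abs]
    rw [e]
    nlinarith
  have h1 := h a N₁ ha1 (by omega) hl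
  rw [dev_eq (by omega : 1 ≤ N₁), div_le_iff₀ hN0] at h1
  rw [dev_eq hn1, div_le_iff₀ hn0]
  have hD1 : Dv a u 1 = C := by
    unfold Dv Sm GG
    simp only [Finset.range_one, Finset.sum_singleton, Nat.cast_one, div_one]
    rfl
  have k1 := Nat.div_add_mod n N₁
  have k2 : n % N₁ < N₁ := Nat.mod_lt n (by omega)
  set q := n / N₁ with hq
  set r := n % N₁ with hr
  have k3 := Dv_add (a := a) hu (N₁ * q) r
  rw [k1] at k3
  have k4 := Dv_mul (a := a) hu N₁ q
  have k5 := Dv_mul (a := a) hu 1 r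
  rw [one_mul, hD1] at k5
  have k6 : (r : ℝ) * C ≤ N₁ * C := by
    apply mul_le_mul_of_nonneg_right _ hC0
    exact_mod_cast k2.le
  have k7 : (N₁ : ℝ) * q ≤ n := by
    have : N₁ * q ≤ n := by omega
    exact_mod_cast this
  have k8 : (q : ℝ) * Dv a u N₁ ≤ q * (ε / 2 * N₁) :=
    mul_le_mul_of_nonneg_left h1 (Nat.cast_nonneg q)
  have k9 : (q : ℝ) * (ε / 2 * N₁) ≤ ε / 2 * n := by
    have := mul_le_mul_of_nonneg_left k7 (by positivity : 0 ≤ ε / 2)
    linarith
  have k10 : N₁ * C ≤ ε / 2 * n := by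
    have q1 : (M : ℝ) < n := by exact_mod_cast hn
    rw [div_lt_iff₀ hε] at hM
    have q2 : (M : ℝ) * ε ≤ n * ε := mul_le_mul_of_nonneg_right q1.le hε.le
    linarith
  linarith

end Pool.Agent.H52.STD
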