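import Mathlib
import Pool.Agent.H52.STD.Esc

set_option autoImplicit false

/-!
# Visits to a strip: exponential moments on a line, conditioned to avoid a thin strip
-/

namespace Pool.Agent.H52.STD

open Real MeasureTheory Function Filter Topology

/-- cutoffs which count the visits to the strip `|L| ≤ lam` -/
noncomputable def rv (P : Par) (l lam : ℝ) (k : ℕ) (x : ℝ) : ℝ :=
  rr P l 1 k x * (1 + 1 / 10 * (1 - rr P lam 1 k x)) / (11 / 10)

/-- their derivatives -/
noncomputable def rv' (P : Par) (l lam : ℝ) (k : ℕ) (x : ℝ) : ℝ :=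
  (rr' P l 1 k x * (1 + 1 / 10 * (1 - rr P lam 1 k x)) +
    rr P l 1 k x * (1 / 10 * (-rr' P lam 1 k x))) / (11 / 10)

theorem rv_cut (P : Par) {l lam : ℝ} (hl : 0 < l) (hlam : 0 < lam) :
    Cut P l 5 (rv P l lam) (rv' P l lam) where
  d := by
    intro k x
    have h1 := (rr_cut P hl one_pos).d k x
    have h2 := (rr_cut P hlam one_pos).d k x
    have h3 := (h1.mul (((h2.const_sub 1).const_mul (1 / 10)).const_add 1)).div_const (11 / 10)
    exact h3
  c := by
    intro k
    have h1 := (rr_cut P hl one_pos).c k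
    have h2 := (rr_cut P hlam one_pos).c k
    have h3 := (rr_cut P hl one_pos).rc k
    have h4 := (rr_cut P hlam one_pos).rc k
    unfold rv'
    fun_prop
  p := by
    intro k x
    unfold rv
    rw [(rr_cut P hl one_pos).p k x, (rr_cut P hlam one_pos).p k x]
  p' := by
    intro k x
    unfold rv'
    rw [(rr_cut P hl one_pos).p k x, (rr_cut P hlam one_pos).p k x,
      (rr_cut P hl one_pos).p' k x, (rr_cut P hlam one_pos).p' k x]
  m0 := by
    intro k x
    have h1 := (rr_cut P hl one_pos).m0 k x
    have h2 := (rr_cut P hlam one_pos).m1 k x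
    unfold rv
    have : 0 ≤ 1 + 1 / 10 * (1 - rr P lam 1 k x) := by linarith
    positivity
  m1 := by
    intro k x
    have h0 := (rr_cut P hl one_pos).m0 k x
    have h1 := (rr_cut P hl one_pos).m1 k x
    have h2 := (rr_cut P hlam one_pos).m0 k x
    have h3 := (rr_cut P hlam one_pos).m1 k x
    unfold rv
    rw [div_le_one (by norm_num)]
    have h4 : rr P l 1 k x * (1 + 1 / 10 * (1 - rr P lam 1 k x)) ≤ 1 * (11 / 10) :=
      mul_le_mul h1 (by linarith) (by linarith) zero_le_one
    linarith
  z := by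
    intro k x h
    unfold rv
    rw [(rr_cut P hl one_pos).z k x h, zero_mul, zero_div]
  z' := by
    intro k x h
    unfold rv'
    rw [(rr_cut P hl one_pos).z k x h, (rr_cut P hl one_pos).z' k x h]
    simp
  v := by
    intro k hk
    have h1 := (rr_cut P hl one_pos).c k
    have h2 := (rr_cut P hlam one_pos).c k
    have v1 := (rr_cut P hl one_pos).v k hk
    have v2 := (rr_cut P hlam one_pos).v k hk
    have hle : ∀ x, |rv' P l lam k x| ≤ |rr' P l 1 k x| + 1 / 11 * |rr' P lam 1 k x| := by
      intro x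
      have q0 := (rr_cut P hl one_pos).m0 k x
      have q1 := (rr_cut P hl one_pos).m1 k x
      have q2 := (rr_cut P hlam one_pos).m0 k x
      have q3 := (rr_cut P hlam one_pos).m1 k x
      unfold rv'
      rw [abs_div, abs_of_pos (by norm_num : (0:ℝ) < 11 / 10), div_le_iff₀ (by norm_num)]
      refine (abs_add_le _ _).trans ?_
      rw [abs_mul, abs_mul, abs_mul, abs_neg, abs_of_nonneg q0,
        abs_of_nonneg (by linarith : 0 ≤ 1 + 1 / 10 * (1 - rr P lam 1 k x)),
        abs_of_pos (by norm_num : (0:ℝ) < 1 / 10)]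
      have e1 : |rr' P l 1 k x| * (1 + 1 / 10 * (1 - rr P lam 1 k x)) ≤
          |rr' P l 1 k x| * (11 / 10) :=
        mul_le_mul_of_nonneg_left (by linarith) (abs_nonneg _)
      have e2 : rr P l 1 k x * (1 / 10 * |rr' P lam 1 k x|) ≤
          1 * (1 / 10 * |rr' P lam 1 k x|) :=
        mul_le_mul_of_nonneg_right q1 (by positivity)
      linarith
    have c3 : Continuous (rv' P l lam k) := by
      have h3 := (rr_cut P hl one_pos).rc k
      have h4 := (rr_cut P hlam one_pos).rc k
      unfold rv'
      fun_prop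
    have h5 := intervalIntegral.integral_mono_on (μ := volume) zero_le_one
      (c3.abs.intervalIntegrable 0 1)
      ((h1.abs.add (continuous_const.mul h2.abs)).intervalIntegrable 0 1)
      (f := fun x => |rv' P l lam k x|)
      (g := fun x => |rr' P l 1 k x| + 1 / 11 * |rr' P lam 1 k x|) (fun x _ => hle x)
    rw [intervalIntegral.integral_add (f := fun x => |rr' P l 1 k x|)
      (g := fun x => 1 / 11 * |rr' P lam 1 k x|) (h1.abs.intervalIntegrable 0 1)
      ((continuous_const.mul h2.abs).intervalIntegrable 0 1),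
      intervalIntegral.integral_const_mul] at h5
    linarith

/-- standing assumptions for a line -/
structure Ln (P : Par) (l : ℝ) : Prop where
  ok : OK P l
  b : P.b = 0
  c : P.c = 1
  big : 1760 ≤ l
  hole : ∀ k, 1 ≤ k → 24 * l ≤ |P.a k|

theorem Ln.rel {P : Par} {l : ℝ} (H : Ln P l) {lam : ℝ} (hlam : 0 < lam) :
    Rel P l 5 (rv P l lam) (rv' P l lam) (fun _ => 0) 0 where
  ok := H.ok
  cut := rv_cut P H.ok.l_pos hlam
  bd := bdry_per H.b H.c (rv_cut P H.ok.l_pos hlam).p
  v0 := by norm_num
  big := by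
    have := H.big
    unfold Cw
    linarith
  hole := by
    intro k hk
    have hl0 := H.ok.l_pos
    have h1 := rr_hole (P := P) (θ := 1) H.ok.l_ge le_rfl (H.ok.la k hk)
    have c1 := (rr_cut P hl0 one_pos).rc k
    have c2 := (rv_cut P hl0 hlam).rc k
    have hle : ∀ x, 1 - rv P l lam k x ≤ (1 - rr P l 1 k x) + 1 / 11 := by
      intro x
      have q0 := (rr_cut P hl0 one_pos).m0 k x
      have q1 := (rr_cut P hl0 one_pos).m1 k x
      have q3 := (rr_cut P hlam one_pos).m1 k x
      unfold rv
      have e1 : rr P l 1 k x * 1 ≤ rr P l 1 k x * (1 + 1 / 10 * (1 - rr P lam 1 k x)) :=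
        mul_le_mul_of_nonneg_left (by linarith) q0
      have e2 : rr P l 1 k x * 1 / (11 / 10) ≤
          rr P l 1 k x * (1 + 1 / 10 * (1 - rr P lam 1 k x)) / (11 / 10) :=
        div_le_div_of_nonneg_right e1 (by norm_num)
      have e3 : rr P l 1 k x * 1 / (11 / 10) = rr P l 1 k x - 1 / 11 * rr P l 1 k x := by ring
      linarith
    have h5 := intervalIntegral.integral_mono_on (μ := volume) zero_le_one
      ((continuous_const.sub c2).intervalIntegrable 0 1)
      (((continuous_const.sub c1).add continuous_const).intervalIntegrable 0 1)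
      (f := fun x => 1 - rv P l lam k x)
      (g := fun x => (1 - rr P l 1 k x) + 1 / 11) (fun x _ => hle x)
    rw [intervalIntegral.integral_add (f := fun x => 1 - rr P l 1 k x) (g := fun _ => 1 / 11)
      ((continuous_const.sub c1).intervalIntegrable 0 1)
      (continuous_const.intervalIntegrable 0 1), intervalIntegral.integral_const] at h5
    have h6 := H.hole k hk
    have h7 : 0 < |P.a k| := by linarith
    have h8 : l / |P.a k| ≤ 1 / 24 := by
      rw [div_le_div_iff₀ h7 (by norm_num)]
      linarith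
    simp only [sub_zero, one_smul] at h5
    have h9 : (∫ x in (0:ℝ)..1, (1 - rv P l lam k x)) * (2 + 0) ≤
      (3 / 4 * (1 / 24) + 1 / 11) * (2 + 0) := by
      apply mul_le_mul_of_nonneg_right _ (by norm_num)
      linarith
    refine h9.trans ?_
    norm_num

/-- the law of the next position is at most twice Lebesgue measure -/
theorem Ln.next {P : Par} {l : ℝ} (H : Ln P l) {lam : ℝ} (hlam : 0 < lam) (m : ℕ) {f : ℝ → ℝ}
    (hf : Continuous f) (hp : Periodic f 1) (h0 : ∀ x, 0 ≤ f x) :
    (∫ t in (0:ℝ)..1, chi P (rv P l lam) m t * f (X P (m + 1) t)) ≤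
      2 * (∫ x in (0:ℝ)..1, f x) * cc P (rv P l lam) m := by
  have h := rel_equi (H.rel hlam) m hf hp h0
  have h1 := (abs_le.1 h).2
  have hl0 := H.ok.l_pos
  have h2 : 8 * Cw 5 * (2 + 0) / l + 0 * (1 / 6) ^ m ≤ 1 := by
    rw [zero_mul, add_zero, div_le_one hl0]
    have := H.big
    unfold Cw
    linarith
  have h3 : 0 ≤ ∫ x in (0:ℝ)..1, f x :=
    intervalIntegral.integral_nonneg zero_le_one fun x _ => h0 x
  have h4 := cc_nonneg (rv_cut P hl0 hlam) m
  have h5 : (∫ x in (0:ℝ)..1, f x) *
      ((8 * Cw 5 * (2 + 0) / l + 0 * (1 / 6) ^ m) * cc P (rv P l lam) m) ≤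
      (∫ x in (0:ℝ)..1, f x) * (1 * cc P (rv P l lam) m) :=
    mul_le_mul_of_nonneg_left (mul_le_mul_of_nonneg_right h2 h4) h3
  linarith

/-- the exponential moment -/
theorem Ln.moment {P : Par} {l : ℝ} (H : Ln P l) {lam α : ℝ} (hlam : 16 ≤ lam)
    (hP : ∀ k, 1 ≤ k → |P.a k| = α) (hla : lam ≤ α) (m : ℕ) :
    (11 / 10) ^ m * cc P (rv P l lam) m ≤ (1 + 3 / 20 * (lam / α)) ^ m := by
  have hl0 := H.ok.l_pos
  have hlam0 : 0 < lam := by linarith
  have hα : 0 < α := by linarith
  have hr := rv_cut P hl0 hlam0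
  induction m with
  | zero =>
    have e : cc P (rv P l lam) 0 = 1 := by
      unfold cc
      simp [chi]
    rw [e]
    simp
  | succ m ih =>
    have h1 := chi_cont hr m
    have c1 := (rr_cut P hl0 one_pos).rc (m + 1)
    have c2 := (rr_cut P hlam0 one_pos).rc (m + 1)
    have cX := X_cont P (m + 1)
    have hn := H.next hlam0 m (f := fun x => 1 - rr P lam 1 (m + 1) x)
      (continuous_const.sub c2) (fun x => by
        simp only
        rw [(rr_cut P hlam0 one_pos).p]) (fun x => by
        have := (rr_cut P hlam0 one_pos).m1 (m + 1) x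
        linarith)
    have hh := rr_hole (P := P) (θ := 1) (l := lam) hlam le_rfl (k := m + 1)
      (by rw [hP (m + 1) (by omega)]; exact hla)
    rw [hP (m + 1) (by omega)] at hh
    have h4 := cc_nonneg hr m
    have h5 : (∫ t in (0:ℝ)..1, chi P (rv P l lam) m t *
        (1 - rr P lam 1 (m + 1) (X P (m + 1) t))) ≤ 3 / 2 * (lam / α) * cc P (rv P l lam) m := by
      refine hn.trans (mul_le_mul_of_nonneg_right ?_ h4)
      linarith
    have h6 : cc P (rv P l lam) (m + 1) ≤ (cc P (rv P l lam) m + 1 / 10 *
        ∫ t in (0:ℝ)..1, chi P (rv P l lam) m t *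
        (1 - rr P lam 1 (m + 1) (X P (m + 1) t))) / (11 / 10) := by
      have e1 : (cc P (rv P l lam) m + 1 / 10 *
        ∫ t in (0:ℝ)..1, chi P (rv P l lam) m t *
        (1 - rr P lam 1 (m + 1) (X P (m + 1) t))) / (11 / 10) = ∫ t in (0:ℝ)..1,
          (chi P (rv P l lam) m t + 1 / 10 * (chi P (rv P l lam) m t *
          (1 - rr P lam 1 (m + 1) (X P (m + 1) t)))) / (11 / 10) := by
        unfold cc
        rw [intervalIntegral.integral_div, intervalIntegral.integral_add,
          intervalIntegral.integral_const_mul]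
        · exact h1.intervalIntegrable _ _
        · exact (continuous_const.mul (h1.mul (continuous_const.sub
            (c2.comp cX)))).intervalIntegrable _ _
      rw [e1]
      apply intervalIntegral.integral_mono_on zero_le_one
      · exact (chi_cont hr (m + 1)).intervalIntegrable _ _
      · exact ((h1.add (continuous_const.mul (h1.mul (continuous_const.sub
            (c2.comp cX))))).div_const _).intervalIntegrable _ _
      · intro t _
        show chi P (rv P l lam) m t * rv P l lam (m + 1) (X P (m + 1) t) ≤ _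
        have q0 := (chi_mem hr m t).1
        have q1 := (rr_cut P hl0 one_pos).m1 (m + 1) (X P (m + 1) t)
        have q2 := (rr_cut P hlam0 one_pos).m1 (m + 1) (X P (m + 1) t)
        have q3 : rv P l lam (m + 1) (X P (m + 1) t) ≤
            1 * (1 + 1 / 10 * (1 - rr P lam 1 (m + 1) (X P (m + 1) t))) / (11 / 10) := by
          unfold rv
          apply div_le_div_of_nonneg_right _ (by norm_num)
          exact mul_le_mul_of_nonneg_right q1 (by linarith)
        have q4 := mul_le_mul_of_nonneg_left q3 q0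
        refine q4.trans (le_of_eq ?_)
        ring
    have h7 : (11 / 10) * cc P (rv P l lam) (m + 1) ≤
        (1 + 3 / 20 * (lam / α)) * cc P (rv P l lam) m := by
      rw [le_div_iff₀ (by norm_num)] at h6
      linarith
    have h8 : 0 ≤ lam / α := by positivity
    calc (11 / 10 : ℝ) ^ (m + 1) * cc P (rv P l lam) (m + 1) =
        (11 / 10) ^ m * ((11 / 10) * cc P (rv P l lam) (m + 1)) := by ring
      _ ≤ (11 / 10) ^ m * ((1 + 3 / 20 * (lam / α)) * cc P (rv P l lam) m) :=
          mul_le_mul_of_nonneg_left h7 (by positivity)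
      _ = (1 + 3 / 20 * (lam / α)) * ((11 / 10) ^ m * cc P (rv P l lam) m) := by ring
      _ ≤ (1 + 3 / 20 * (lam / α)) * (1 + 3 / 20 * (lam / α)) ^ m :=
          mul_le_mul_of_nonneg_left ih (by positivity)
      _ = _ := by ring

/-- the number of visits -/
noncomputable def vis (P : Par) (lam : ℝ) (m : ℕ) (t : ℝ) : ℕ :=
  ((Finset.Icc 1 m).filter fun k => |L (P.a k) (X P k t)| ≤ lam).card

theorem vis_succ (P : Par) (lam : ℝ) (m : ℕ) (t : ℝ) : vis P lam (m + 1) t = vis P lam m t +
    if |L (P.a (m + 1)) (X P (m + 1) t)| ≤ lam then 1 else 0 := by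
  unfold vis
  rw [← Finset.insert_Icc_right_eq_Icc_add_one (by omega), Finset.filter_insert]
  split_ifs with h
  · rw [Finset.card_insert_of_notMem]
    simp
  · simp

/-- the product of the cutoffs on the surviving set -/
theorem chi_vis {P : Par} {l lam : ℝ} (hl : 0 < l) (hlam : 0 < lam) (m : ℕ) {t : ℝ}
    (ht : t ∈ Surv P (2 * l) m) :
    (11 / 10) ^ (vis P lam m t) ≤ (11 / 10) ^ m * chi P (rv P l lam) m t := by
  induction m with
  | zero => simp [vis, chi]
  | succ m ih =>
    have ih := ih fun k h1 h2 => ht k h1 (by omega)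
    have h1 := ht (m + 1) (by omega) le_rfl
    have e1 : rr P l 1 (m + 1) (X P (m + 1) t) = 1 := by
      apply rho_one
      have h2 : 2 ≤ |L (P.a (m + 1)) (X P (m + 1) t) / l| := by
        rw [abs_div, abs_of_pos hl, le_div_iff₀ hl]
        exact h1.le
      have h3 : (L (P.a (m + 1)) (X P (m + 1) t) / l) ^ 2 =
        |L (P.a (m + 1)) (X P (m + 1) t) / l| ^ 2 := (sq_abs _).symm
      rw [h3]
      nlinarith
    have q0 := (chi_mem (rv_cut P hl hlam) m t).1
    have e2 : (11 / 10 : ℝ) ^ (m + 1) * chi P (rv P l lam) (m + 1) t =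
        ((11 / 10) ^ m * chi P (rv P l lam) m t) *
          (1 + 1 / 10 * (1 - rr P lam 1 (m + 1) (X P (m + 1) t))) := by
      have : chi P (rv P l lam) (m + 1) t = chi P (rv P l lam) m t *
        rv P l lam (m + 1) (X P (m + 1) t) := rfl
      rw [this]
      unfold rv
      rw [e1]
      ring
    rw [e2, vis_succ, pow_add]
    have q1 := (rr_cut P hlam one_pos).m1 (m + 1) (X P (m + 1) t)
    apply mul_le_mul ih _ (by positivity) (by positivity)
    split_ifs with hv
    · have e3 : rr P lam 1 (m + 1) (X P (m + 1) t) = 0 := by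
        apply rho_zero zero_le_one
        rw [abs_div, abs_of_pos hlam, div_le_one hlam]
        exact hv
      rw [e3]
      norm_num
    · rw [pow_zero]
      linarith

end Pool.Agent.H52.STD
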