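import Mathlib
import Pool.Agent.H52.STD.Wb1
import Pool.Agent.H52.STD.EscMain

set_option autoImplicit false

/-!
# Windows with many visits to the strip
-/

namespace Pool.Agent.H52.STD

open Real MeasureTheory Function Filter Topology
open scoped ENNReal

/-- the number of visits of the first coordinate to the strip, at the times `0 ≤ k < n` -/
noncomputable def nv (T : T2 → T2) (a lam : ℝ) (n : ℕ) (p : T2) : ℕ :=
  ((Finset.range n).filter fun k => |LC a (T^[k] p).1| ≤ lam).card

theorem nv_succ (T : T2 → T2) (a lam : ℝ) (n : ℕ) (p : T2) : nv T a lam (n + 1) p =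
    nv T a lam n p + if |LC a (T^[n] p).1| ≤ lam then 1 else 0 := by
  unfold nv
  rw [Finset.range_add_one, Finset.filter_insert]
  split_ifs with h
  · rw [Finset.card_insert_of_notMem]
    simp
  · simp

theorem nv_add (T : T2 → T2) (a lam : ℝ) (m n : ℕ) (p : T2) : nv T a lam (m + n) p =
    nv T a lam m p + nv T a lam n (T^[m] p) := by
  induction n with
  | zero => simp [nv]
  | succ n ih =>
    rw [← add_assoc, nv_succ, nv_succ, ih, ← iterate_add_apply, add_comm n m, add_assoc]

theorem nv_meas {a : ℝ} {T : T2 → T2} (hT : IsStd a T) (lam : ℝ) (n : ℕ) :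
    Measurable (nv T a lam n) := by
  have e : nv T a lam n = fun p => ∑ k ∈ Finset.range n,
      if |LC a (T^[k] p).1| ≤ lam then 1 else 0 := by
    funext p
    unfold nv
    rw [Finset.card_filter]
  rw [e]
  refine Finset.measurable_fun_sum _ fun k _ => Measurable.ite ?_ measurable_const measurable_const
  have hc : Continuous fun p : T2 => |LC a (T^[k] p).1| :=
    ((LC_cont a).comp (continuous_fst.comp ((std_cont hT).iterate k))).abs
  exact (isClosed_le hc continuous_const).measurableSet

theorem nv_vis {a : ℝ} {T : T2 → T2} (hT : IsStd a T) (lam : ℝ) (n : ℕ) (x y : ℝ) :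
    nv T a lam n ((x : UnitAddCircle), (y : UnitAddCircle)) = vis (PS a y) lam n x := by
  induction n with
  | zero => simp [nv, vis]
  | succ n ih =>
    rw [nv_succ, vis_succ, ih, orbit_torus hT]
    have e : LC a (XC (PS a y) (n + 1) x, XC (PS a y) n x).1 =
        L ((PS a y).a (n + 1)) (X (PS a y) (n + 1) x) := by
      show LC a (XC (PS a y) (n + 1) x) = _
      unfold XC
      rw [LC_coe]
      rfl
    rw [e]

/-- no visit to the thin strip and many visits to the strip -/
def A2 (T : T2 → T2) (a l lam : ℝ) (n J : ℕ) : Set T2 :=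
  {p | p ∈ Sv T a (2 * l) n ∧ J ≤ nv T a lam n p}

theorem A2_meas {a : ℝ} {T : T2 → T2} (hT : IsStd a T) (l lam : ℝ) (n J : ℕ) :
    MeasurableSet (A2 T a l lam n J) :=
  (Sv_open hT (2 * l) n).measurableSet.inter (nv_meas hT lam n measurableSet_Ici)

theorem PS_ln {a l : ℝ} (y : ℝ) (hl : 1760 ≤ l) (ha : 24 * l ≤ |a|) : Ln (PS a y) l where
  ok :=
    { c0 := by simp [PS]
      c1 := by simp [PS]
      b1 := by simp [PS]
      l16 := by simp [PS]; linarith
      la := by
        intro k _
        show l ≤ |a|
        linarith }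
  b := rfl
  c := rfl
  big := hl
  hole := fun k _ => ha

theorem A2_line {a l lam : ℝ} {T : T2 → T2} (hT : IsStd a T) (hl : 1760 ≤ l) (ha : 24 * l ≤ |a|)
    (hlam : 16 ≤ lam) (hla : lam ≤ |a|) (n J : ℕ) (y : UnitAddCircle) :
    (volume : Measure UnitAddCircle).real {x | (x, y) ∈ A2 T a l lam n J} ≤
      (10 / 11) ^ J * (1 + 3 / 20 * (lam / |a|)) ^ n := by
  induction y using QuotientAddGroup.induction_on with
  | _ y =>
    have hline : Measurable fun x : UnitAddCircle => (x, (y : UnitAddCircle)) := by fun_prop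
    have hm : MeasurableSet {x : UnitAddCircle | (x, (y : UnitAddCircle)) ∈ A2 T a l lam n J} :=
      hline (A2_meas hT l lam n J)
    have H := PS_ln y hl ha
    have hl0 : 0 < l := by linarith
    have hlam0 : 0 < lam := by linarith
    rw [measureReal_def]
    change ((volume : Measure UnitAddCircle)
      {x : UnitAddCircle | (x, (y : UnitAddCircle)) ∈ A2 T a l lam n J}).toReal ≤ _
    rw [circle_vol hm, ← measureReal_def]
    set A : Set ℝ := Set.Ioc (0:ℝ) 1 ∩ (fun x : ℝ => (x : UnitAddCircle)) ⁻¹'
      {x : UnitAddCircle | (x, (y : UnitAddCircle)) ∈ A2 T a l lam n J} with hA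
    have hAm : MeasurableSet A :=
      measurableSet_Ioc.inter ((AddCircle.measurable_mk').comp measurable_id hm)
    have hr := rv_cut (PS a y) hl0 hlam0
    have hc := chi_cont hr n
    have e : volume.real A = ∫ x in (0:ℝ)..1, A.indicator (fun _ => (1:ℝ)) x := by
      rw [intervalIntegral.integral_of_le zero_le_one, setIntegral_indicator hAm]
      have : Set.Ioc (0:ℝ) 1 ∩ A = A := by
        rw [hA]
        ext x
        simp
      rw [this]
      simp
    have hAi : IntervalIntegrable (A.indicator (fun _ => (1:ℝ))) volume 0 1 := by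
      rw [intervalIntegrable_iff_integrableOn_Ioc_of_le zero_le_one]
      exact (integrable_const (1:ℝ)).indicator hAm
    have h1 : volume.real A ≤ ∫ x in (0:ℝ)..1, (10 / 11) ^ J * ((11 / 10) ^ n *
        chi (PS a y) (rv (PS a y) l lam) n x) := by
      rw [e]
      apply intervalIntegral.integral_mono_on zero_le_one hAi
        ((continuous_const.mul (continuous_const.mul hc)).intervalIntegrable _ _)
      intro x _
      by_cases hx : x ∈ A
      · rw [Set.indicator_of_mem hx]
        have hx2 : ((x : UnitAddCircle), (y : UnitAddCircle)) ∈ A2 T a l lam n J := hx.2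
        have hs : x ∈ Surv (PS a y) (2 * l) n := by
          have h3 : x ∈ SS (PS a y) (2 * l) n := by
            rw [← Sv_line hT]
            exact ⟨hx.1, hx2.1⟩
          exact h3.2
        have h4 := chi_vis hl0 hlam0 n hs
        have h5 := hx2.2
        rw [nv_vis hT] at h5
        have h6 : (11 / 10 : ℝ) ^ J ≤ (11 / 10) ^ (vis (PS a y) lam n x) :=
          pow_le_pow_right₀ (by norm_num) h5
        have h7 : (10 / 11 : ℝ) ^ J * (11 / 10) ^ J = 1 := by
          rw [← mul_pow]
          norm_num
        calc (1:ℝ) = (10 / 11 : ℝ) ^ J * (11 / 10) ^ J := h7.symm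
          _ ≤ _ := mul_le_mul_of_nonneg_left (h6.trans h4) (by positivity)
      · rw [Set.indicator_of_notMem hx]
        have h3 := (chi_mem hr n x).1
        exact mul_nonneg (by positivity) (mul_nonneg (by positivity) h3)
    refine h1.trans ?_
    rw [intervalIntegral.integral_const_mul, intervalIntegral.integral_const_mul]
    apply mul_le_mul_of_nonneg_left _ (by positivity)
    exact H.moment (lam := lam) (α := |a|) hlam (fun k _ => rfl) hla n

theorem A2_area {a l lam : ℝ} {T : T2 → T2} (hT : IsStd a T) (hl : 1760 ≤ l) (ha : 24 * l ≤ |a|)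
    (hlam : 16 ≤ lam) (hla : lam ≤ |a|) (n J : ℕ) :
    (volume : Measure T2).real (A2 T a l lam n J) ≤
      (10 / 11) ^ J * (1 + 3 / 20 * (lam / |a|)) ^ n := by
  rw [area_eq (A2_meas hT l lam n J)]
  have h := integral_mono (μ := (volume : Measure UnitAddCircle))
    (area_int (A2_meas hT l lam n J)) (integrable_const _)
    (fun y => A2_line hT hl ha hlam hla n J y)
  simpa using h

/-- two consecutive visits to the thin strip -/
def A1 (T : T2 → T2) (a K : ℝ) (n : ℕ) : Set T2 :=
  {p | p.2 ∈ SC a K ∧ p ∈ Sv T a K n ∧ (T^[n] p).1 ∈ SC a K}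

theorem A1_meas {a : ℝ} {T : T2 → T2} (hT : IsStd a T) (K : ℝ) (n : ℕ) :
    MeasurableSet (A1 T a K n) :=
  (measurable_snd (SC_meas a K)).inter ((Sv_open hT K n).measurableSet.inter
    ((continuous_fst.comp ((std_cont hT).iterate n)).measurable (SC_meas a K)))

theorem A1_area {a K : ℝ} {T : T2 → T2} (hT : IsStd a T) (hK : 1728 ≤ K) (ha : 6 * K ≤ |a|)
    (n : ℕ) : (volume : Measure T2).real (A1 T a K n) ≤ 9 / 8 * (K / |a|) ^ 2 := by
  rw [area_eq (A1_meas hT K n)]
  set h := (volume : Measure UnitAddCircle).real (SC a K) with hh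
  have hK0 : 0 < K := by linarith
  have h0 : 0 ≤ h := measureReal_nonneg
  have hle := SC_le (a := a) (K := K) (by linarith) (by linarith)
  have key : ∀ y : UnitAddCircle, (volume : Measure UnitAddCircle).real {x | (x, y) ∈ A1 T a K n} ≤
      (SC a K).indicator (fun _ => 2 * h) y := by
    intro y
    by_cases hy : y ∈ SC a K
    · rw [Set.indicator_of_mem hy]
      have h1 := (abs_le.1 (line_equi hT hK ha y n (SC_meas a K))).2
      have h2 : (volume : Measure UnitAddCircle).real {x | (x, y) ∈ Sv T a K n} ≤ 1 :=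
        measureReal_le_one
      have h3 : 0 ≤ (volume : Measure UnitAddCircle).real {x | (x, y) ∈ Sv T a K n} :=
        measureReal_nonneg
      have h4 : 1728 / K ≤ 1 := by
        rw [div_le_one hK0]
        exact hK
      have h5 : 1728 / K * (h * (volume : Measure UnitAddCircle).real {x | (x, y) ∈ Sv T a K n}) ≤
          1 * (h * (volume : Measure UnitAddCircle).real {x | (x, y) ∈ Sv T a K n}) :=
        mul_le_mul_of_nonneg_right h4 (by positivity)
      have h6 : h * (volume : Measure UnitAddCircle).real {x | (x, y) ∈ Sv T a K n} ≤ h * 1 :=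
        mul_le_mul_of_nonneg_left h2 h0
      have h7 : {x | (x, y) ∈ A1 T a K n} ⊆ {x | (x, y) ∈ Sv T a K n ∧
          (T^[n] (x, y)).1 ∈ SC a K} := fun x hx => hx.2
      refine (measureReal_mono h7).trans ?_
      linarith
    · rw [Set.indicator_of_notMem hy]
      have : {x | (x, y) ∈ A1 T a K n} = ∅ := by
        ext x
        simp only [Set.mem_ofPred_eq, Set.mem_empty_iff_false, iff_false]
        exact fun hx => hy hx.1
      rw [this]
      simp
  have hint := integral_mono (μ := (volume : Measure UnitAddCircle))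
    (area_int (A1_meas hT K n)) ((integrable_const (2 * h)).indicator (SC_meas a K)) key
  refine hint.trans ?_
  rw [integral_indicator (SC_meas a K), setIntegral_const, smul_eq_mul, ← hh]
  have h8 : h * (2 * h) ≤ (3 / 4 * (K / |a|)) * (2 * (3 / 4 * (K / |a|))) := by
    apply mul_le_mul hle _ (by positivity) (h0.trans hle)
    linarith
  refine h8.trans (le_of_eq ?_)
  ring

/-- windows with many visits -/
def Wd (T : T2 → T2) (a lam : ℝ) (w N : ℕ) : Set T2 := {p | 2 * N + 1 ≤ nv T a lam w p}

theorem snd_iter {a : ℝ} {T : T2 → T2} (hT : IsStd a T) (k : ℕ) (p : T2) :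
    (T^[k + 1] p).2 = (T^[k] p).1 := by
  rw [iterate_succ_apply', std_eq hT]
  rfl

theorem Wd_sub {a l lam : ℝ} {T : T2 → T2} (hT : IsStd a T) (w N : ℕ) :
    Wd T a lam w N ⊆ (⋃ i ∈ Finset.range w, ⋃ n ∈ Finset.range w,
      (T^[i + 1]) ⁻¹' A1 T a (2 * l) n) ∪ ⋃ i ∈ Finset.range (w + 1), ⋃ n ∈ Finset.range (w + 1),
      (T^[i]) ⁻¹' A2 T a l lam n N := by
  intro p hp
  have hp' : 2 * N + 1 ≤ nv T a lam w p := hp
  by_contra hcon
  rw [Set.mem_union, not_or] at hcon
  obtain ⟨h1, h2⟩ := hcon
  simp only [Set.mem_iUnion, Finset.mem_range, Set.mem_preimage, not_exists] at h1 h2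
  by_cases hev : ∃ i, i < w ∧ (T^[i] p).1 ∈ SC a (2 * l)
  · -- the first event
    classical
    obtain ⟨hi1, hi2⟩ := Nat.find_spec hev
    have hmin := fun m => Nat.find_min hev (m := m)
    set i := Nat.find hev with hi
    have hS1 : p ∈ Sv T a (2 * l) i := by
      intro k hk hk2
      exact hmin k hk ⟨by omega, hk2⟩
    have hn1 : nv T a lam i p < N := by
      by_contra hcon
      refine h2 0 (by omega) i (by omega) ⟨?_, ?_⟩
      · exact hS1
      · exact not_lt.1 hcon
    have hS2 : T^[i + 1] p ∈ Sv T a (2 * l) (w - (i + 1)) := by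
      by_contra hcon
      have hev2 : ∃ j, j < w - (i + 1) ∧ (T^[j] (T^[i + 1] p)).1 ∈ SC a (2 * l) := by
        unfold Sv at hcon
        rw [Set.mem_ofPred_eq] at hcon
        push Not at hcon
        exact hcon
      obtain ⟨hj1, hj2⟩ := Nat.find_spec hev2
      have hmin2 := fun m => Nat.find_min hev2 (m := m)
      set j := Nat.find hev2 with hj
      refine h1 i hi1 j (by omega) ⟨?_, ?_, hj2⟩
      · rw [snd_iter hT]
        exact hi2
      · intro k hk hk2
        exact hmin2 k hk ⟨by omega, hk2⟩
    have hn2 : nv T a lam (w - (i + 1)) (T^[i + 1] p) < N := by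
      by_contra hcon
      exact h2 (i + 1) (by omega) (w - (i + 1)) (by omega) ⟨hS2, not_lt.1 hcon⟩
    have e : nv T a lam w p = nv T a lam i p + (if |LC a (T^[i] p).1| ≤ lam then 1 else 0) +
        nv T a lam (w - (i + 1)) (T^[i + 1] p) := by
      rw [← nv_succ, ← nv_add]
      congr 1
      omega
    have : (if |LC a (T^[i] p).1| ≤ lam then 1 else 0) ≤ 1 := by
      split_ifs <;> omega
    omega
  · push Not at hev
    refine h2 0 (by omega) w (by omega) ⟨?_, ?_⟩
    · exact fun k hk => hev k hk
    · show N ≤ nv T a lam w p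
      omega

theorem iter_mp' {a : ℝ} {T : T2 → T2} (hT : IsStd a T) (k : ℕ) :
    MeasurePreserving (T^[k]) volume volume := by
  rw [std_eq hT]
  exact (Pool.Agent.TH705.SM.S_mp a).iterate k

/-- **the area of the windows with many visits** -/
theorem Wd_area {a l lam : ℝ} {T : T2 → T2} (hT : IsStd a T) (hl : 1760 ≤ l) (ha : 24 * l ≤ |a|)
    (hlam : 16 ≤ lam) (hla : lam ≤ |a|) (w N : ℕ) :
    (volume : Measure T2).real (Wd T a lam w N) ≤ w ^ 2 * (9 / 8 * (2 * l / |a|) ^ 2) +
      (w + 1) ^ 2 * ((10 / 11) ^ N * (1 + 3 / 20 * (lam / |a|)) ^ w) := by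
  have ha0 : 0 < |a| := by linarith
  have hl0 : 0 < l := by linarith
  have hq : 0 ≤ 3 / 20 * (lam / |a|) := by positivity
  refine (measureReal_mono (Wd_sub (l := l) hT w N)).trans ((measureReal_union_le _ _).trans
    (add_le_add ?_ ?_))
  · refine (measureReal_biUnion_finset_le _ _).trans ?_
    have h1 : ∀ i ∈ Finset.range w, (volume : Measure T2).real (⋃ n ∈ Finset.range w,
        (T^[i + 1]) ⁻¹' A1 T a (2 * l) n) ≤ w * (9 / 8 * (2 * l / |a|) ^ 2) := by
      intro i _
      refine (measureReal_biUnion_finset_le _ _).trans ?_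
      have h2 : ∀ n ∈ Finset.range w, (volume : Measure T2).real
          ((T^[i + 1]) ⁻¹' A1 T a (2 * l) n) ≤ 9 / 8 * (2 * l / |a|) ^ 2 := by
        intro n _
        rw [measureReal_def, (iter_mp' hT (i + 1)).measure_preimage
          (A1_meas hT (2 * l) n).nullMeasurableSet, ← measureReal_def]
        exact A1_area hT (by linarith) (by linarith) n
      refine (Finset.sum_le_sum h2).trans (le_of_eq ?_)
      rw [Finset.sum_const, Finset.card_range, nsmul_eq_mul]
    refine (Finset.sum_le_sum h1).trans (le_of_eq ?_)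
    rw [Finset.sum_const, Finset.card_range, nsmul_eq_mul]
    ring
  · refine (measureReal_biUnion_finset_le _ _).trans ?_
    have h1 : ∀ i ∈ Finset.range (w + 1), (volume : Measure T2).real
        (⋃ n ∈ Finset.range (w + 1), (T^[i]) ⁻¹' A2 T a l lam n N) ≤
        (w + 1) * ((10 / 11) ^ N * (1 + 3 / 20 * (lam / |a|)) ^ w) := by
      intro i _
      refine (measureReal_biUnion_finset_le _ _).trans ?_
      have h2 : ∀ n ∈ Finset.range (w + 1), (volume : Measure T2).real
          ((T^[i]) ⁻¹' A2 T a l lam n N) ≤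
          (10 / 11) ^ N * (1 + 3 / 20 * (lam / |a|)) ^ w := by
        intro n hn
        rw [Finset.mem_range] at hn
        rw [measureReal_def, (iter_mp' hT i).measure_preimage
          (A2_meas hT l lam n N).nullMeasurableSet, ← measureReal_def]
        refine (A2_area hT hl ha hlam hla n N).trans ?_
        apply mul_le_mul_of_nonneg_left _ (by positivity)
        exact pow_le_pow_right₀ (by linarith) (by omega)
      refine (Finset.sum_le_sum h2).trans (le_of_eq ?_)
      rw [Finset.sum_const, Finset.card_range, nsmul_eq_mul]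
      push_cast
      ring
    refine (Finset.sum_le_sum h1).trans (le_of_eq ?_)
    rw [Finset.sum_const, Finset.card_range, nsmul_eq_mul]
    push_cast
    ring

end Pool.Agent.H52.STD
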