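import Mathlib
import Pool.Agent.H52.STD.Wb2
import Pool.Graph.R_pool_sql_team_seeded_35f281b4.K7.H81.SLC

set_option autoImplicit false

/-!
# The points without a good time
-/

namespace Pool.Agent.H52.STD

open Real MeasureTheory Function Filter Topology
open Pool.Agent.K7.H81.SL
open scoped ENNReal

theorem isStd_S (a : ℝ) : IsStd a (Pool.Agent.TH705.SM.S a) := Pool.Agent.TH705.SM.S_coe a

theorem LC_Lc (a : ℝ) (x : UnitAddCircle) : LC a x = Pool.Agent.Y332.SM.Lc a x := by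
  induction x using QuotientAddGroup.induction_on with
  | H x =>
    have h1 : LC a (x : UnitAddCircle) = L a x := LC_coe a x
    have h2 : Pool.Agent.Y332.SM.Lc a (x : UnitAddCircle) = Pool.Agent.TH705.SM.L a x :=
      Pool.Agent.Y332.SM.Lc_coe a x
    exact h1.trans h2.symm

/-- no good time between `n` and `n + W` -/
def BadS (a M : ℝ) (n W : ℕ) : Set T2 := {p | ∀ m, 1 ≤ m → n ≤ m → m ≤ n + W → p ∈ bd a M m}

theorem nv_mono (T : T2 → T2) (a lam : ℝ) {m n : ℕ} (h : m ≤ n) (p : T2) :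
    nv T a lam m p ≤ nv T a lam n p := by
  unfold nv
  exact Finset.card_le_card (Finset.filter_subset_filter _ (Finset.range_mono h))

theorem nv_windows (T : T2 → T2) (a lam : ℝ) (w N : ℕ) (p : T2) (q : ℕ)
    (h : ∀ j < q, T^[j * w] p ∉ Wd T a lam w N) : nv T a lam (q * w) p ≤ 2 * N * q := by
  induction q with
  | zero => simp [nv]
  | succ q ih =>
    have ih := ih fun j hj => h j (by omega)
    have h1 : ¬ 2 * N + 1 ≤ nv T a lam w (T^[q * w] p) := h q (by omega)
    rw [Nat.succ_mul, nv_add, Nat.mul_succ]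
    omega

theorem nv_blocks (T : T2 → T2) (a lam : ℝ) (p : T2) (r : ℕ)
    (h : ∀ i < r, 1 ≤ nv T a lam 5 (T^[i * 5] p)) : r ≤ nv T a lam (r * 5) p := by
  induction r with
  | zero => simp
  | succ r ih =>
    have ih := ih fun j hj => h j (by omega)
    have h1 := h r (by omega)
    rw [Nat.succ_mul, nv_add]
    omega

theorem sum_shift (F : ℕ → ℝ≥0∞) (m : ℕ) :
    ∑ k ∈ Finset.Icc 1 m, F k = ∑ k ∈ Finset.range m, F (k + 1) := by
  induction m with
  | zero => simp
  | succ m ih =>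
    rw [Finset.sum_range_succ, ← ih, Finset.sum_Icc_succ_top (by omega)]

theorem nv_zero {T : T2 → T2} {a lam : ℝ} {n : ℕ} {p : T2} (h : nv T a lam n p = 0) (k : ℕ)
    (hk : k < n) : lam < |LC a (T^[k] p).1| := by
  unfold nv at h
  rw [Finset.card_eq_zero, Finset.filter_eq_empty_iff] at h
  exact not_le.1 (h (Finset.mem_range.2 hk))

/-- the existence of a good time -/
theorem good_time {a M : ℝ} (hM : 0 ≤ M) {N q : ℕ} (hq : 2 ≤ q) {p : T2}
    (h1 : p ∉ b1 a (q * (40 * N + 20)))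
    (h2 : ∀ j < q, (Pool.Agent.TH705.SM.S a)^[j * (40 * N + 20)] p ∉
      Wd (Pool.Agent.TH705.SM.S a) a (15 * M) (40 * N + 20) N) :
    ∃ m, 1 ≤ m ∧ (q - 1) * (40 * N + 20) ≤ m ∧ m ≤ q * (40 * N + 20) ∧ p ∉ bd a M m := by
  set T := Pool.Agent.TH705.SM.S a with hT
  set w := 40 * N + 20 with hw
  obtain ⟨r, rfl⟩ : ∃ r, q = r + 1 := ⟨q - 1, by omega⟩
  have htot := nv_windows T a (15 * M) w N p (r + 1) h2
  have hlast : ¬ 2 * N + 1 ≤ nv T a (15 * M) w (T^[r * w] p) := h2 r (by omega)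
  obtain ⟨i, hi, hi0⟩ : ∃ i < 8 * N + 4, nv T a (15 * M) 5 (T^[i * 5] (T^[r * w] p)) = 0 := by
    by_contra hcon
    push Not at hcon
    have h3 := nv_blocks T a (15 * M) (T^[r * w] p) (8 * N + 4)
      (fun i hi => Nat.one_le_iff_ne_zero.2 (hcon i hi))
    have e : (8 * N + 4) * 5 = w := by omega
    rw [e] at h3
    omega
  have hmle : r * w + i * 5 + 5 ≤ (r + 1) * w := by
    rw [Nat.succ_mul]
    omega
  refine ⟨r * w + i * 5 + 5, by omega, by simp only [Nat.add_sub_cancel]; omega, hmle, ?_⟩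
  unfold bd
  rw [Set.mem_union, Set.mem_union, not_or, not_or]
  refine ⟨?_, ?_, ?_⟩
  · rintro ⟨k, hk1, hk2, hk3⟩
    exact h1 ⟨k, hk1, hk2.trans hmle, hk3⟩
  · rintro ⟨k, hk1, hk2, hk3, hk4⟩
    have h5 := nv_zero hi0 (k - 1 - (r * w + i * 5)) (by omega)
    rw [← iterate_add_apply, ← iterate_add_apply] at h5
    have e : k - 1 - (r * w + i * 5) + i * 5 + r * w = k - 1 := by omega
    rw [e, LC_Lc] at h5
    linarith
  · intro h3
    have h3' : ((r * w + i * 5 + 5 : ℕ) : ℝ≥0∞) / 8 ≤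
      ∑ k ∈ Finset.Icc 1 (r * w + i * 5 + 5), (Pool.Agent.Y332.SM.low a M).indicator 1
        ((Pool.Agent.TH705.SM.S a)^[k - 1] p) := h3
    set m := r * w + i * 5 + 5 with hm
    have h4 : ∑ k ∈ Finset.Icc 1 m, (Pool.Agent.Y332.SM.low a M).indicator (1 : T2 → ℝ≥0∞)
        ((Pool.Agent.TH705.SM.S a)^[k - 1] p) ≤ ((nv T a (15 * M) m p : ℕ) : ℝ≥0∞) := by
      unfold nv
      rw [Finset.card_filter, Nat.cast_sum, sum_shift]
      refine Finset.sum_le_sum fun k hk => ?_
      by_cases hL : |LC a (T^[k] p).1| ≤ 15 * M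
      · rw [if_pos hL]
        refine (Set.indicator_le_self' (fun _ _ => zero_le) _).trans ?_
        simp
      · rw [if_neg hL, Set.indicator_of_notMem]
        · simp
        · intro hlow
          apply hL
          have h6 : |Pool.Agent.Y332.SM.Lc a (T^[k + 1 - 1] p).1| ≤ 2 * M := hlow
          rw [Nat.add_sub_cancel, ← LC_Lc] at h6
          linarith
    have h5 : nv T a (15 * M) m p ≤ 2 * N * (r + 1) :=
      (nv_mono T a (15 * M) hmle p).trans htot
    have h6 : (m : ℝ≥0∞) / 8 ≤ ((2 * N * (r + 1) : ℕ) : ℝ≥0∞) :=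
      h3'.trans (h4.trans (by exact_mod_cast h5))
    rw [ENNReal.div_le_iff (by norm_num) (by norm_num)] at h6
    have h7 : m ≤ 2 * N * (r + 1) * 8 := by exact_mod_cast h6
    have h8 : 2 * N * (r + 1) * 8 = 16 * (N * r) + 16 * N := by ring
    have h9 : m = 40 * (N * r) + 20 * r + i * 5 + 5 := by
      rw [hm, hw]
      ring
    have h10 : N ≤ N * r := Nat.le_mul_of_pos_right N (by omega)
    omega

end Pool.Agent.H52.STD
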