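import Mathlib
import Pool.Agent.H52.STD.Wb3

set_option autoImplicit false

/-!
# The area of the set of points without a good time
-/

namespace Pool.Agent.H52.STD

open Real MeasureTheory Function Filter Topology
open Pool.Agent.K7.H81.SL
open scoped ENNReal

theorem BadS_sub {a M : ℝ} (hM : 0 ≤ M) {N q n W : ℕ} (hq : 2 ≤ q)
    (hn : n ≤ (q - 1) * (40 * N + 20)) (hW : q * (40 * N + 20) ≤ n + W) :
    BadS a M n W ⊆ b1 a (q * (40 * N + 20)) ∪ ⋃ j ∈ Finset.range q,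
      ((Pool.Agent.TH705.SM.S a)^[j * (40 * N + 20)]) ⁻¹'
        Wd (Pool.Agent.TH705.SM.S a) a (15 * M) (40 * N + 20) N := by
  intro p hp
  by_contra hcon
  rw [Set.mem_union, not_or] at hcon
  obtain ⟨h1, h2⟩ := hcon
  simp only [Set.mem_iUnion, Finset.mem_range, Set.mem_preimage, not_exists] at h2
  obtain ⟨m, hm1, hm2, hm3, hm4⟩ := good_time hM hq h1 fun j hj => h2 j hj
  exact hm4 (hp m hm1 (hn.trans hm2) (hm3.trans hW))

theorem Wd_meas {a : ℝ} {T : T2 → T2} (hT : IsStd a T) (lam : ℝ) (w N : ℕ) :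
    MeasurableSet (Wd T a lam w N) :=
  nv_meas hT lam w measurableSet_Ici

/-- facts on the sizes -/
theorem sizes {a M R L : ℝ} (ha : 10 ^ 16 ≤ |a|) (hM : M = √|a|) (hR : R = √M) (hL : L = log |a|) :
    M ^ 2 = |a| ∧ R ^ 2 = M ∧ 10 ^ 8 ≤ M ∧ 10 ^ 4 ≤ R ∧ L ≤ 4 * R ∧ 3 ≤ L := by
  have ha0 : 0 < |a| := lt_of_lt_of_le (by norm_num) ha
  have hMsq : M ^ 2 = |a| := by rw [hM]; exact Real.sq_sqrt ha0.le
  have hM0 : 0 < M := by rw [hM]; exact Real.sqrt_pos.2 ha0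
  have hM8 : 10 ^ 8 ≤ M := by
    rw [hM]
    apply Real.le_sqrt_of_sq_le
    refine le_trans (le_of_eq ?_) ha
    norm_num
  have hRsq : R ^ 2 = M := by rw [hR]; exact Real.sq_sqrt hM0.le
  have hR0 : 0 < R := by rw [hR]; exact Real.sqrt_pos.2 hM0
  have hR4 : 10 ^ 4 ≤ R := by
    rw [hR]
    apply Real.le_sqrt_of_sq_le
    refine le_trans (le_of_eq ?_) hM8
    norm_num
  refine ⟨hMsq, hRsq, hM8, hR4, ?_, ?_⟩
  · have h1 : log R ≤ R := (Real.log_le_sub_one_of_pos hR0).trans (by linarith)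
    have h2 : L = 4 * log R := by
      rw [hL, ← hMsq, ← hRsq, ← pow_mul, Real.log_pow]
      norm_num
    linarith
  · have h1 : log (2 ^ 6 : ℝ) ≤ log |a| :=
      Real.log_le_log (by norm_num) (le_trans (by norm_num) ha)
    rw [Real.log_pow] at h1
    have := Real.log_two_gt_d9
    push_cast at h1
    linarith

theorem Wd_vol {a M R L : ℝ} (ha : 10 ^ 16 ≤ |a|) (hM : M = √|a|) (hR : R = √M) (hL : L = log |a|)
    {N w : ℕ} (hN1 : 22 * L ≤ N) (hw9 : (w : ℝ) ≤ 900 * L) (hw0 : (20 : ℝ) ≤ w) :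
    (volume : Measure T2).real (Wd (Pool.Agent.TH705.SM.S a) a (15 * M) w N) ≤
      15000000 * w ^ 2 / |a| ^ 2 := by
  have ha0 : 0 < |a| := lt_of_lt_of_le (by norm_num) ha
  obtain ⟨hMsq, hRsq, hM8, hR4, hL4, hL3⟩ := sizes ha hM hR hL
  have hM0 : 0 < M := lt_of_lt_of_le (by norm_num) hM8
  have hR0 : 0 < R := lt_of_lt_of_le (by norm_num) hR4
  have hT := isStd_S a
  have hM16 : 16 ≤ M := le_trans (by norm_num) hM8
  have hlam : (16:ℝ) ≤ 15 * M := by linarith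
  have hla : 15 * M ≤ |a| := by
    rw [← hMsq]
    nlinarith
  have h1 := Wd_area (l := 1760) hT le_rfl (le_trans (by norm_num) ha) hlam hla w N
  refine h1.trans ?_
  have h2 : (10 / 11 : ℝ) ^ N ≤ 1 / |a| ^ 2 := by
    have h3 : (10 / 11 : ℝ) ≤ exp (-(1 / 11)) := by
      have := Real.add_one_le_exp (-(1 / 11) : ℝ)
      linarith
    calc (10 / 11 : ℝ) ^ N ≤ (exp (-(1 / 11))) ^ N := pow_le_pow_left₀ (by norm_num) h3 N
      _ = exp (-(N / 11)) := by
          rw [← Real.exp_nat_mul]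
          congr 1
          ring
      _ ≤ exp (-(2 * L)) := by
          apply Real.exp_le_exp.2
          linarith
      _ = 1 / |a| ^ 2 := by
          rw [Real.exp_neg, one_div]
          congr 1
          rw [hL, show 2 * log |a| = log |a| + log |a| by ring, Real.exp_add,
            Real.exp_log ha0]
          ring
  have h4 : (1 + 3 / 20 * (15 * M / |a|)) ^ w ≤ 3 := by
    have e : 3 / 20 * (15 * M / |a|) = 9 / 4 / M := by
      rw [← hMsq]
      field_simp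
      norm_num
    rw [e]
    have h5 : (1:ℝ) + 9 / 4 / M ≤ exp (9 / 4 / M) := by
      have := Real.add_one_le_exp (9 / 4 / M)
      linarith
    calc (1 + 9 / 4 / M) ^ w ≤ (exp (9 / 4 / M)) ^ w := pow_le_pow_left₀ (by positivity) h5 w
      _ = exp (w * (9 / 4 / M)) := by rw [← Real.exp_nat_mul]
      _ ≤ exp 1 := by
          apply Real.exp_le_exp.2
          rw [← mul_div_assoc, div_le_one hM0, ← hRsq]
          have h6 : (w:ℝ) * (9 / 4) ≤ 8100 * R := by linarith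
          have h7 : 8100 * R ≤ R ^ 2 := by
            rw [pow_two]
            apply mul_le_mul_of_nonneg_right _ hR0.le
            exact le_trans (by norm_num) hR4
          linarith
      _ ≤ 3 := by
          have := Real.exp_one_lt_d9
          linarith
  have h6 : (10 / 11 : ℝ) ^ N * (1 + 3 / 20 * (15 * M / |a|)) ^ w ≤ 1 / |a| ^ 2 * 3 :=
    mul_le_mul h2 h4 (by positivity) (by positivity)
  have h7 : ((w:ℝ) + 1) ^ 2 ≤ 2 * w ^ 2 := by nlinarith
  have h8 : ((w:ℝ) + 1) ^ 2 * ((10 / 11 : ℝ) ^ N * (1 + 3 / 20 * (15 * M / |a|)) ^ w) ≤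
      2 * w ^ 2 * (1 / |a| ^ 2 * 3) := mul_le_mul h7 h6 (by positivity) (by positivity)
  have h9 : (w:ℝ) ^ 2 * (9 / 8 * (2 * 1760 / |a|) ^ 2) + 2 * w ^ 2 * (1 / |a| ^ 2 * 3) =
      13939206 * w ^ 2 / |a| ^ 2 := by
    field_simp
    norm_num
  have h10 : 13939206 * (w:ℝ) ^ 2 / |a| ^ 2 ≤ 15000000 * w ^ 2 / |a| ^ 2 := by
    apply div_le_div_of_nonneg_right _ (by positivity)
    apply mul_le_mul_of_nonneg_right (by norm_num) (by positivity)
  linarith

theorem wins_vol {a M : ℝ} {N w q : ℕ} {c : ℝ}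
    (h : (volume : Measure T2).real (Wd (Pool.Agent.TH705.SM.S a) a (15 * M) w N) ≤ c) :
    volume (⋃ j ∈ Finset.range q, ((Pool.Agent.TH705.SM.S a)^[j * w]) ⁻¹'
      Wd (Pool.Agent.TH705.SM.S a) a (15 * M) w N) ≤ ENNReal.ofReal (q * c) := by
  have hT := isStd_S a
  refine (measure_biUnion_finset_le _ _).trans ?_
  have h1 : ∀ j ∈ Finset.range q, volume (((Pool.Agent.TH705.SM.S a)^[j * w]) ⁻¹'
    Wd (Pool.Agent.TH705.SM.S a) a (15 * M) w N) ≤ ENNReal.ofReal c := by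
    intro j _
    rw [(iter_mp' hT (j * w)).measure_preimage (Wd_meas hT (15 * M) w N).nullMeasurableSet,
      ← ofReal_measureReal (measure_ne_top _ _)]
    exact ENNReal.ofReal_le_ofReal h
  refine (Finset.sum_le_sum h1).trans ?_
  rw [Finset.sum_const, Finset.card_range, nsmul_eq_mul]
  have e : (q:ℝ≥0∞) = ENNReal.ofReal q := by simp
  rw [e, ← ENNReal.ofReal_mul (Nat.cast_nonneg q)]

/-- the length of the time interval in which a good time is looked for -/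
noncomputable def W0 (a : ℝ) : ℕ := 2 * (40 * ⌈22 * log |a|⌉₊ + 20)

theorem BadS_vol0 {a : ℝ} (ha : 10 ^ 16 ≤ |a|) (n : ℕ) : volume (BadS a (√|a|) n (W0 a)) ≤
    ENNReal.ofReal (10 ^ 14 * ((n + log |a|) * log |a| / |a| ^ 2)) := by
  obtain ⟨M, hM⟩ : ∃ M, M = √|a| := ⟨_, rfl⟩
  obtain ⟨R, hR⟩ : ∃ R, R = √M := ⟨_, rfl⟩
  obtain ⟨L, hL⟩ : ∃ L, L = log |a| := ⟨_, rfl⟩
  obtain ⟨A, hA⟩ : ∃ A, A = |a| := ⟨_, rfl⟩
  obtain ⟨hMsq, hRsq, hM8, hR4, hL4, hL3⟩ := sizes ha hM hR hL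
  have hM0 : 0 < M := lt_of_lt_of_le (by norm_num) hM8
  have ha0 : 0 < |a| := lt_of_lt_of_le (by norm_num) ha
  obtain ⟨N, hN⟩ : ∃ N : ℕ, N = ⌈22 * L⌉₊ := ⟨_, rfl⟩
  have hN1 : 22 * L ≤ N := by rw [hN]; exact Nat.le_ceil _
  have hN2 : (N : ℝ) < 22 * L + 1 := by
    rw [hN]
    exact Nat.ceil_lt_add_one (by positivity)
  obtain ⟨w, hw⟩ : ∃ w : ℕ, w = 40 * N + 20 := ⟨_, rfl⟩
  have hwR : (w : ℝ) = 40 * N + 20 := by rw [hw]; push_cast; ring
  have hw9 : (w : ℝ) ≤ 900 * L := by linarith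
  have hw0 : (20 : ℝ) ≤ w := by
    have : (0:ℝ) ≤ N := Nat.cast_nonneg N
    linarith
  have hwpos : 0 < w := by omega
  obtain ⟨d, hd⟩ : ∃ d : ℕ, d = n / w := ⟨_, rfl⟩
  have hqn : n ≤ (d + 2 - 1) * w := by
    have h1 : n < w * (n / w + 1) := Nat.lt_mul_div_succ n hwpos
    have h2 : d + 2 - 1 = d + 1 := by omega
    rw [h2, mul_comm, hd]
    exact h1.le
  have hqwn : (d + 2) * w ≤ n + 2 * w := by
    rw [hd, add_mul]
    have := Nat.div_mul_le_self n w
    omega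
  have hqw : ((d + 2 : ℕ) : ℝ) * w ≤ n + 2 * w := by
    exact_mod_cast hqwn
  have hW0 : W0 a = 2 * w := by
    unfold W0
    rw [hw, hN, hL]
  have hwd := Wd_vol ha hM hR hL hN1 hw9 hw0
  -- the union
  rw [← hM, ← hL]
  have hsub := BadS_sub (a := a) hM0.le (N := N) (q := d + 2) (n := n) (W := W0 a) (by omega)
    (by rw [← hw]; exact hqn) (by rw [← hw, hW0]; exact hqwn)
  refine (measure_mono hsub).trans ((measure_union_le _ _).trans ?_)
  have hb1 := vol_b1 (a := a) (le_trans (by norm_num) ha) ((d + 2) * (40 * N + 20))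
  have hwins := wins_vol (q := d + 2) hwd
  rw [← hw] at hb1 ⊢
  refine (add_le_add hb1 hwins).trans ?_
  rw [← hL]
  rw [← ENNReal.ofReal_add (by positivity) (by positivity)]
  apply ENNReal.ofReal_le_ofReal
  obtain ⟨u, hu⟩ : ∃ u : ℝ, u = ((d + 2 : ℕ) : ℝ) := ⟨_, rfl⟩
  have hcast : (((d + 2) * w : ℕ) : ℝ) = u * w := by
    rw [hu]
    push_cast
    ring
  have hu0 : 0 ≤ u := by rw [hu]; positivity
  rw [hcast, ← hu]
  rw [← hu] at hqw
  have hnn : (0:ℝ) ≤ n := Nat.cast_nonneg n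
  have hqw2 : u * w ≤ 1800 * (n + L) := by linarith
  have hqw0 : (0:ℝ) ≤ u * w := by positivity
  have e1 : 480 * (u * w) * L / |a| ^ 2 + u * (15000000 * w ^ 2 / |a| ^ 2) =
      (u * w) * (480 * L + 15000000 * w) / |a| ^ 2 := by
    ring
  have e2 : 10 ^ 14 * ((n + L) * L / |a| ^ 2) = (n + L) * (10 ^ 14 * L) / |a| ^ 2 := by
    ring
  rw [e1, e2]
  apply div_le_div_of_nonneg_right _ (by positivity)
  have h5 : 480 * L + 15000000 * w ≤ 13600000000 * L := by linarith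
  calc (u * w) * (480 * L + 15000000 * w) ≤ (1800 * (n + L)) * (13600000000 * L) :=
        mul_le_mul hqw2 h5 (by positivity) (by positivity)
    _ = 24480000000000 * ((n + L) * L) := by ring
    _ ≤ 10 ^ 14 * ((n + L) * L) := by
        apply mul_le_mul_of_nonneg_right (by norm_num) (by positivity)
    _ = (n + L) * (10 ^ 14 * L) := by ring

/-- **the area of the points without a good time** -/
theorem BadS_vol {a : ℝ} (ha : 256 ≤ |a|) (n : ℕ) : volume (BadS a (√|a|) n (W0 a)) ≤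
    ENNReal.ofReal (10 ^ 32 * ((n + log |a|) * log |a| / |a| ^ 2)) := by
  have ha0 : 0 < |a| := by linarith
  have hL3 : 1 ≤ log |a| := by
    have h1 : log (2 ^ 8 : ℝ) ≤ log |a| := Real.log_le_log (by norm_num) (by linarith)
    rw [Real.log_pow] at h1
    have := Real.log_two_gt_d9
    push_cast at h1
    linarith
  have hnn : (0:ℝ) ≤ n := Nat.cast_nonneg n
  rcases le_or_gt (10 ^ 16) |a| with h | h
  · refine (BadS_vol0 h n).trans (ENNReal.ofReal_le_ofReal ?_)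
    apply mul_le_mul_of_nonneg_right (by norm_num)
    positivity
  · refine prob_le_one.trans ?_
    rw [show (1:ℝ≥0∞) = ENNReal.ofReal 1 by simp]
    apply ENNReal.ofReal_le_ofReal
    rw [← mul_div_assoc, le_div_iff₀ (by positivity), one_mul]
    have h1 : |a| ^ 2 ≤ (10 ^ 16) ^ 2 := pow_le_pow_left₀ ha0.le h.le 2
    have h2 : 1 ≤ (n + log |a|) * log |a| := by nlinarith
    have h3 : (10:ℝ) ^ 32 * 1 ≤ 10 ^ 32 * ((n + log |a|) * log |a|) :=
      mul_le_mul_of_nonneg_left h2 (by norm_num)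
    have h4 : ((10:ℝ) ^ 16) ^ 2 = 10 ^ 32 := by norm_num
    linarith

end Pool.Agent.H52.STD
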