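import Mathlib
import Pool.Agent.H52.STD.Wb4
import Pool.Graph.R_pool_sql_team_seeded_63374d34.N317.SM.Struct

set_option autoImplicit false

/-!
# Geometric consequences: transitivity at small scales, invariant sets, islands
-/

namespace Pool.Agent.H52.GEO

open Real MeasureTheory Function Set Filter Topology
open Pool.Agent.TH705.SM Pool.Agent.Y332.SM Pool.Agent.N317.SM
open Pool.Agent.H52.STD (BadS)
open scoped ENNReal

/-- the radius -/
noncomputable def rd (M : ℝ) (n : ℕ) : ℝ := (1 / √M) ^ n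

theorem rd_nonneg (M : ℝ) (n : ℕ) : 0 ≤ rd M n := by
  unfold rd
  positivity

theorem rd_pos {M : ℝ} (hM : 16 ≤ M) (n : ℕ) : 0 < rd M n := by
  have hs0 : 0 < √M := Real.sqrt_pos.2 (by linarith)
  unfold rd
  positivity

theorem rd_anti {M : ℝ} (hM : 16 ≤ M) {m n : ℕ} (h : n ≤ m) : rd M m ≤ rd M n := by
  have hs0 : 0 < √M := Real.sqrt_pos.2 (by linarith)
  have hs1 : 1 ≤ √M := by
    apply Real.le_sqrt_of_sq_le
    linarith
  unfold rd
  apply pow_le_pow_of_le_one (by positivity) _ h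
  rw [div_le_one hs0]
  exact hs1

theorem seg_mono {r r' t s : ℝ} (h : r ≤ r') : seg r t s ⊆ seg r' t s := by
  rintro q ⟨u, hu, rfl⟩
  exact ⟨u, hu.trans h, rfl⟩

theorem hasCurve_later {a : ℝ} (ha : 256 ≤ |a|) {B : Set T2} (h : HasCurve B) (j : ℕ) :
    HasCurve ((S a)^[j] '' B) := by
  induction j with
  | zero => simpa using h
  | succ j ih =>
    rw [iterate_succ', image_comp]
    exact (long_S ha ih).hasCurve

variable {a M : ℝ} {n W : ℕ}

theorem a_ge (hM : 16 ≤ M) (haM : |a| = M ^ 2) : 256 ≤ |a| := by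
  rw [haM]
  nlinarith

theorem good_seg (hM : 16 ≤ M) (haM : |a| = M ^ 2) {t s : ℝ}
    (hb : ((t : UnitAddCircle), (s : UnitAddCircle)) ∉ BadS a M n W) {N : ℕ} (hN : n + W ≤ N) :
    HasCurve ((S a)^[N] '' seg (rd M n) t s) := by
  unfold BadS at hb
  rw [Set.mem_ofPred_eq] at hb
  push Not at hb
  obtain ⟨m, hm1, hm2, hm3, hm4⟩ := hb
  have h1 := Pool.Agent.K7.H81.SL.curveG hM haM hm1 (Pool.Agent.K7.H81.SL.good_pt hm4)
  have h2 := hasCurve_later (a_ge hM haM) h1 (N - m)
  rw [← image_comp, ← iterate_add, Nat.sub_add_cancel (hm3.trans hN)] at h2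
  exact h2.mono (image_mono (seg_mono (rd_anti hM hm2)))

/-- around a good point of a set the image of the set contains a crossing curve -/
theorem good_comp (hM : 16 ≤ M) (haM : |a| = M ^ 2) {B : Set T2}
    {p : T2} (hb : p ∉ BadS a M n W) (hp : p ∈ B) (hf : p ∉ hnbd (rd M n) (frontier B))
    {N : ℕ} (hN : n + W ≤ N) : HasCurve ((S a)^[N] '' connectedComponentIn B p) := by
  obtain ⟨p1, p2⟩ := p
  induction p1 using QuotientAddGroup.induction_on with
  | H t =>
    induction p2 using QuotientAddGroup.induction_on with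
    | H s =>
      have h5 := seg_sub (rd_nonneg M n) hp hf
      have h7 : seg (rd M n) t s ⊆
          connectedComponentIn B ((t : UnitAddCircle), (s : UnitAddCircle)) :=
        (seg_preconn _ _ _).subset_connectedComponentIn
          ⟨t, by simpa using rd_nonneg M n, rfl⟩ h5
      exact (good_seg hM haM hb hN).mono (image_mono h7)

theorem swap_image (a : ℝ) (N : ℕ) (C : Set T2) :
    (S a)^[N] '' (Prod.swap ⁻¹' C) ⊆ Prod.swap ⁻¹' ((Si a)^[N] '' C) := by
  rintro _ ⟨x, hx, rfl⟩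
  refine ⟨Prod.swap x, hx, ?_⟩
  rw [swap_S_iter]

theorem good_comp_v (hM : 16 ≤ M) (haM : |a| = M ^ 2) {B : Set T2}
    {q : T2} (hb : Prod.swap q ∉ BadS a M n W) (hq : q ∈ B)
    (hf : Prod.swap q ∉ hnbd (rd M n) (Prod.swap ⁻¹' frontier B))
    {N : ℕ} (hN : n + W ≤ N) :
    HasCurve (Prod.swap ⁻¹' ((Si a)^[N] '' connectedComponentIn B q)) := by
  rw [← front_swap'] at hf
  have h := good_comp hM haM hb (B := Prod.swap ⁻¹' B) (by rwa [mem_preimage, Prod.swap_swap])
    hf hN
  rw [comp_swap hq] at h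
  exact h.mono (swap_image a N _)

/-- transitivity at small scales, at all large times -/
theorem trans_pts (hM : 16 ≤ M) (haM : |a| = M ^ 2) {p q : T2} (hp : p ∉ BadS a M n W)
    (hq : Prod.swap q ∉ BadS a M n W) {N : ℕ} (hN : 2 * (n + W) ≤ N) :
    ∃ p' q' : T2, dist p p' ≤ rd M n ∧ dist q q' ≤ rd M n ∧ (S a)^[N] p' = q' := by
  have hseg : ∀ {r t s : ℝ} {x : T2}, x ∈ seg r t s →
      dist ((t : UnitAddCircle), (s : UnitAddCircle)) x ≤ r := by
    rintro r t s x ⟨u, hu, rfl⟩
    rw [Prod.dist_eq]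
    simp only [dist_self]
    have h1 : dist (t : UnitAddCircle) (u : UnitAddCircle) ≤ r := by
      rw [dist_eq_norm, ← AddCircle.coe_sub]
      refine (norm_coe_le _).trans ?_
      rw [abs_sub_comm]
      exact hu
    exact max_le h1 (dist_nonneg.trans h1)
  obtain ⟨p1, p2⟩ := p
  obtain ⟨q1, q2⟩ := q
  induction p1 using QuotientAddGroup.induction_on with
  | H t =>
    induction p2 using QuotientAddGroup.induction_on with
    | H s =>
      induction q1 using QuotientAddGroup.induction_on with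
      | H s' =>
        induction q2 using QuotientAddGroup.induction_on with
        | H t' =>
          have c1 := good_seg hM haM hp (N := N - (n + W)) (by omega)
          have c2 := good_seg hM haM (t := t') (s := s') hq (N := n + W) le_rfl
          have c3 : HasCurve (Prod.swap ⁻¹' ((Si a)^[n + W] '' (Prod.swap ''
              seg (rd M n) t' s'))) := by
            refine c2.mono ?_
            rintro _ ⟨x, hx, rfl⟩
            refine ⟨Prod.swap x, ⟨x, hx, rfl⟩, ?_⟩
            rw [swap_S_iter]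
          obtain ⟨z, ⟨x, hx, hxz⟩, ⟨_, ⟨y, hy, rfl⟩, hyz⟩⟩ := meet c1 c3
          refine ⟨x, Prod.swap y, hseg hx, ?_, ?_⟩
          · have h5 := hseg hy
            rw [Prod.dist_eq] at h5 ⊢
            rw [max_comm]
            exact h5
          · have e : N = (n + W) + (N - (n + W)) := by omega
            rw [e, iterate_add_apply, hxz, ← hyz, S_iter_Si]

/-! ### sets invariant under a power -/

theorem S_iter_surj (a : ℝ) (N : ℕ) : Surjective ((S a)^[N]) := fun p => ⟨_, S_iter_Si a N p⟩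

theorem inv_mul {k : ℕ} {B : Set T2} (hB : (S a)^[k] ⁻¹' B = B) (j : ℕ) :
    (S a)^[k * j] ⁻¹' B = B := by
  induction j with
  | zero => simp
  | succ j ih =>
    rw [Nat.mul_succ, iterate_add, preimage_comp, ih, hB]

theorem img_of_pre {N : ℕ} {B : Set T2} (hB : (S a)^[N] ⁻¹' B = B) : (S a)^[N] '' B = B := by
  conv_lhs => rw [← hB]
  exact image_preimage_eq _ (S_iter_surj a N)

theorem swap_pre {k : ℕ} {B : Set T2} (hB : (S a)^[k] ⁻¹' B = B) :
    (S a)^[k] ⁻¹' (Prod.swap ⁻¹' B) = Prod.swap ⁻¹' B := by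
  ext x
  rw [mem_preimage, mem_preimage, mem_preimage, swap_S_iter]
  have h : ∀ y : T2, (Si a)^[k] y ∈ B ↔ y ∈ B := by
    intro y
    conv_lhs => rw [← hB]
    rw [mem_preimage, S_iter_Si]
  exact h _

theorem sub_of_no {k : ℕ} (hM : 16 ≤ M) (haM : |a| = M ^ 2) (hk : 1 ≤ k) {B : Set T2}
    (hB : (S a)^[k] ⁻¹' B = B) (hno : ¬ HasCurve B) :
    B ⊆ BadS a M n W ∪ hnbd (rd M n) (frontier B) := by
  intro p hp
  by_contra hcon
  rw [mem_union, not_or] at hcon
  have h1 := good_comp hM haM hcon.1 hp hcon.2 (N := k * (n + W)) (Nat.le_mul_of_pos_left _ hk)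
  have h2 := img_of_pre (inv_mul hB (n + W))
  apply hno
  rw [← h2]
  exact h1.mono (image_mono (connectedComponentIn_subset _ _))

/-- the alternative for open sets -/
theorem alt_open {k : ℕ} (hM : 16 ≤ M) (haM : |a| = M ^ 2) (hk : 1 ≤ k) {U : Set T2}
    (hU : (S a)^[k] ⁻¹' U = U) :
    U ⊆ BadS a M n W ∪ hnbd (rd M n) (frontier U) ∨
    Prod.swap ⁻¹' Uᶜ ⊆ BadS a M n W ∪ hnbd (rd M n) (Prod.swap ⁻¹' frontier U) := by
  by_cases h1 : HasCurve U
  · right
    have h2 : ¬ HasCurve (Prod.swap ⁻¹' Uᶜ) := by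
      intro h2
      obtain ⟨p, hp1, hp2⟩ := meet h1 h2
      exact hp2 hp1
    have hUc : (S a)^[k] ⁻¹' Uᶜ = Uᶜ := by rw [preimage_compl, hU]
    have h3 := sub_of_no (n := n) (W := W) hM haM hk (swap_pre hUc) h2
    rw [front_swap] at h3
    exact h3
  · left
    exact sub_of_no hM haM hk hU h1

/-- the essential interior -/
def essInt (A : Set T2) : Set T2 := {p | ∃ V, IsOpen V ∧ p ∈ V ∧ volume (V \ A) = 0}

theorem essInt_open (A : Set T2) : IsOpen (essInt A) := by
  rw [isOpen_iff_forall_mem_open]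
  rintro p ⟨V, hV, hp, h0⟩
  exact ⟨V, fun q hq => ⟨V, hV, hq, h0⟩, hV, hp⟩

theorem essInt_disj (A : Set T2) : Disjoint (essInt A) (essInt Aᶜ) := by
  rw [Set.disjoint_left]
  rintro p ⟨V, hV, hp, h0⟩ ⟨V', hV', hp', h0'⟩
  have h1 : volume (V ∩ V') ≤ volume (V \ A) + volume (V' \ Aᶜ) := by
    refine (measure_mono ?_).trans (measure_union_le _ _)
    rintro q ⟨hq, hq'⟩
    by_cases hqA : q ∈ A
    · exact Or.inr ⟨hq', fun h => h hqA⟩
    · exact Or.inl ⟨hq, hqA⟩
  rw [h0, h0', add_zero] at h1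
  have h2 := (hV.inter hV').measure_pos volume ⟨p, hp, hp'⟩
  exact absurd h1 (not_le.2 h2)

theorem sub_essInt (A : Set T2) : A ⊆ essInt A ∪ frontier A := by
  intro p hp
  by_cases hf : p ∈ frontier A
  · exact Or.inr hf
  · left
    have h1 : p ∈ interior A := by
      rw [← self_sdiff_frontier]
      exact ⟨hp, hf⟩
    refine ⟨interior A, isOpen_interior, h1, ?_⟩
    have : interior A \ A = ∅ := Set.sdiff_eq_empty.2 interior_subset
    rw [this, measure_empty]

theorem front_essInt (A : Set T2) : frontier (essInt A) ⊆ frontier A := by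
  intro p hp
  by_contra hf
  have hpU : p ∉ essInt A := by
    intro h
    have := disjoint_interior_frontier (s := essInt A)
    rw [(essInt_open A).interior_eq] at this
    exact Set.disjoint_left.1 this h hp
  have hpA : p ∉ A := by
    intro h
    rcases sub_essInt A h with h1 | h1
    · exact hpU h1
    · exact hf h1
  have h1 : p ∈ interior Aᶜ := by
    rw [← self_sdiff_frontier]
    refine ⟨hpA, ?_⟩
    rw [frontier_compl]
    exact hf
  have h2 : p ∈ closure (essInt A) := frontier_subset_closure hp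
  rw [_root_.mem_closure_iff] at h2
  obtain ⟨q, hq1, V', hV', hq', h0'⟩ := h2 _ isOpen_interior h1
  have h3 : interior Aᶜ ∩ V' ⊆ V' \ A := fun x hx => ⟨hx.2, interior_subset hx.1⟩
  have h4 := (isOpen_interior.inter hV').measure_pos volume ⟨q, hq1, hq'⟩
  have h5 := measure_mono (μ := (volume : Measure T2)) h3
  rw [h0'] at h5
  exact absurd h5 (not_le.2 h4)

theorem essInt_inv {k : ℕ} {A : Set T2} (hAm : MeasurableSet A)
    (hA : (S a)^[k] ⁻¹' A =ᵐ[volume] A) : (S a)^[k] ⁻¹' essInt A = essInt A := by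
  have hmp : MeasurePreserving ((S a)^[k]) (volume : Measure T2) volume := (S_mp a).iterate k
  have hc : Continuous ((S a)^[k]) := (S_cont a).iterate k
  have hop : ∀ V : Set T2, IsOpen V → IsOpen ((S a)^[k] '' V) := by
    intro V hV
    have e : (S a)^[k] '' V = (Si a)^[k] ⁻¹' V := by
      ext x
      constructor
      · rintro ⟨y, hy, rfl⟩
        rw [mem_preimage, S_iter_Si']
        exact hy
      · intro hx
        exact ⟨_, hx, S_iter_Si a k x⟩
    rw [e]
    exact hV.preimage ((Si_cont a).iterate k)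
  have hd1 : volume ((S a)^[k] ⁻¹' A \ A) = 0 := (ae_le_set.1 hA.le)
  have hd2 : volume (A \ (S a)^[k] ⁻¹' A) = 0 := (ae_le_set.1 hA.symm.le)
  ext p
  constructor
  · rintro ⟨V, hV, hp, h0⟩
    refine ⟨(S a)^[k] ⁻¹' V, hV.preimage hc, hp, ?_⟩
    have h1 : (S a)^[k] ⁻¹' V \ A ⊆ (S a)^[k] ⁻¹' (V \ A) ∪ ((S a)^[k] ⁻¹' A \ A) := by
      rintro x ⟨hx1, hx2⟩
      by_cases h : x ∈ (S a)^[k] ⁻¹' A
      · exact Or.inr ⟨h, hx2⟩
      · exact Or.inl ⟨hx1, h⟩
    have h2 : volume ((S a)^[k] ⁻¹' (V \ A)) = 0 := by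
      rw [hmp.measure_preimage (MeasurableSet.diff hV.measurableSet hAm).nullMeasurableSet, h0]
    refine le_antisymm ((measure_mono h1).trans ((measure_union_le _ _).trans ?_)) zero_le
    rw [h2, hd1, add_zero]
  · rintro ⟨V, hV, hp, h0⟩
    refine ⟨(S a)^[k] '' V, hop V hV, ⟨p, hp, rfl⟩, ?_⟩
    have h1 : (S a)^[k] ⁻¹' ((S a)^[k] '' V \ A) ⊆ (V \ A) ∪ (A \ (S a)^[k] ⁻¹' A) := by
      rintro x ⟨⟨y, hy, hyx⟩, hx2⟩
      have hxy : y = x := by
        have := congrArg ((Si a)^[k]) hyx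
        rwa [S_iter_Si', S_iter_Si'] at this
      rw [hxy] at hy
      by_cases h : x ∈ A
      · exact Or.inr ⟨h, hx2⟩
      · exact Or.inl ⟨hy, h⟩
    rw [← hmp.measure_preimage (MeasurableSet.diff (hop V hV).measurableSet hAm).nullMeasurableSet]
    refine le_antisymm ((measure_mono h1).trans ((measure_union_le _ _).trans ?_)) zero_le
    rw [h0, hd2, add_zero]

theorem sub_hnbd {r : ℝ} (hr : 0 ≤ r) (F : Set T2) : F ⊆ hnbd r F := by
  intro p hp
  refine ⟨0, by simpa using hr, ?_⟩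
  simpa using hp

/-- the alternative for measurable sets invariant up to null sets -/
theorem alt_ae {k : ℕ} (hM : 16 ≤ M) (haM : |a| = M ^ 2) (hk : 1 ≤ k) {A : Set T2}
    (hAm : MeasurableSet A) (hA : (S a)^[k] ⁻¹' A =ᵐ[volume] A) :
    A ⊆ BadS a M n W ∪ hnbd (rd M n) (frontier A) ∨
    Prod.swap ⁻¹' Aᶜ ⊆ BadS a M n W ∪ hnbd (rd M n) (Prod.swap ⁻¹' frontier A) := by
  have hmono : ∀ {F F' : Set T2}, F ⊆ F' → hnbd (rd M n) F ⊆ hnbd (rd M n) F' := by
    rintro F F' h p ⟨b, hb, hb'⟩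
    exact ⟨b, hb, h hb'⟩
  have hfr := front_essInt A
  rcases alt_open (n := n) (W := W) hM haM hk (essInt_inv hAm hA) with h | h
  · left
    intro p hp
    rcases sub_essInt A hp with h1 | h1
    · rcases h h1 with h2 | h2
      · exact Or.inl h2
      · exact Or.inr (hmono hfr h2)
    · exact Or.inr (sub_hnbd (rd_nonneg M n) _ h1)
  · right
    intro p hp
    rcases sub_essInt Aᶜ hp with h1 | h1
    · have h3 : p ∈ Prod.swap ⁻¹' (essInt A)ᶜ := by
        intro h4
        exact Set.disjoint_left.1 (essInt_disj A) h4 h1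
      rcases h h3 with h2 | h2
      · exact Or.inl h2
      · exact Or.inr (hmono (preimage_mono hfr) h2)
    · rw [frontier_compl] at h1
      exact Or.inr (sub_hnbd (rd_nonneg M n) _ h1)

end Pool.Agent.H52.GEO
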