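import Mathlib
import Pool.Agent.H52.STD.Wc1

set_option autoImplicit false

/-!
# Returning domains, the components of invariant open sets
-/

namespace Pool.Agent.H52.GEO

open Real MeasureTheory Function Set Filter Topology
open Pool.Agent.TH705.SM Pool.Agent.Y332.SM Pool.Agent.N317.SM
open Pool.Agent.H52.STD (BadS)
open scoped ENNReal

variable {a M : ℝ} {n W : ℕ}

/-- a set with a vertical crossing curve comes close to every good point -/
theorem near' (hM : 16 ≤ M) (haM : |a| = M ^ 2) {B : Set T2}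
    (hB : S a ⁻¹' B = B) (hv : HasCurve (Prod.swap ⁻¹' B)) {p : T2} (hb : p ∉ BadS a M n W) :
    ∃ q ∈ B, dist q p ≤ rd M n := by
  obtain ⟨p1, p2⟩ := p
  induction p1 using QuotientAddGroup.induction_on with
  | H t =>
    induction p2 using QuotientAddGroup.induction_on with
    | H s =>
      obtain ⟨z, ⟨x, ⟨u, hu, rfl⟩, hxz⟩, hz⟩ := meet (good_seg hM haM hb (N := n + W) le_rfl) hv
      refine ⟨((u : UnitAddCircle), (s : UnitAddCircle)), of_iter_mem hB (n + W) (by rwa [hxz]), ?_⟩
      rw [Prod.dist_eq]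
      simp only [dist_self]
      have h1 : dist (u : UnitAddCircle) (t : UnitAddCircle) ≤ rd M n := by
        rw [dist_eq_norm, ← AddCircle.coe_sub]
        exact (norm_coe_le _).trans hu
      exact max_le h1 (rd_nonneg M n)

/-- a domain which returns to itself or avoids itself, and is not thin -/
theorem returning' (hM : 16 ≤ M) (haM : |a| = M ^ 2) {D : Set T2} (hDo : IsOpen D)
    (hDc : IsPreconnected D) (hD : ∀ k, (S a)^[k] '' D = D ∨ Disjoint ((S a)^[k] '' D) D)
    {p : T2} (hp : Metric.closedBall p (rd M n) ⊆ D)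
    (hb : p ∉ BadS a M n W) (hb' : Prod.swap p ∉ BadS a M n W) :
    S a ⁻¹' D = D ∧ HasCurve D ∧ HasCurve (Prod.swap ⁻¹' D) ∧ IsConnected (pr ⁻¹' D) := by
  have ha := a_ge hM haM
  obtain ⟨hf, hf'⟩ := deep hDo hp
  have hpD : p ∈ D := hp (Metric.mem_closedBall_self (rd_nonneg M n))
  have h1 : ∀ N, n + W ≤ N → HasCurve ((S a)^[N] '' D) := fun N hN =>
    (good_comp hM haM hb hpD hf hN).mono (image_mono (connectedComponentIn_subset _ _))
  have h2 : HasCurve (Prod.swap ⁻¹' ((Si a)^[n + W] '' D)) :=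
    (good_comp_v hM haM hb' hpD hf' le_rfl).mono
      (preimage_mono (image_mono (connectedComponentIn_subset _ _)))
  -- all late images are equal to `D`
  have h3 : ∀ N, 2 * (n + W) ≤ N → (S a)^[N] '' D = D := by
    intro N hN
    rcases hD N with h | h
    · exact h
    · exfalso
      obtain ⟨z, ⟨x, hx, hxz⟩, ⟨y, hy, hyz⟩⟩ := meet (h1 (N - (n + W)) (by omega)) h2
      refine Set.disjoint_left.1 h ⟨x, hx, ?_⟩ hy
      have e : N = (n + W) + (N - (n + W)) := by omega
      rw [e, iterate_add_apply, hxz, ← hyz, S_iter_Si]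
  -- invariance
  have h5 : S a '' D = D := by
    have e1 := h3 (2 * (n + W)) le_rfl
    have e2 := h3 (2 * (n + W) + 1) (by omega)
    rw [iterate_succ', image_comp, e1] at e2
    exact e2
  have h6 : ∀ k, (S a)^[k] '' D = D := by
    intro k
    induction k with
    | zero => simp
    | succ k ih => rw [iterate_succ', image_comp, ih, h5]
  have h7 : Si a '' D = D := by
    conv_lhs => rw [← h5, ← image_comp]
    have : Si a ∘ S a = id := funext (Si_S a)
    rw [this, image_id]
  have h8 : ∀ k, (Si a)^[k] '' D = D := by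
    intro k
    induction k with
    | zero => simp
    | succ k ih => rw [iterate_succ', image_comp, ih, h7]
  have c1 := h1 (n + W) le_rfl
  rw [h6] at c1
  rw [h8] at h2
  have hL1 : Long D := by
    have := long_S ha c1
    rwa [h5] at this
  have hL2 : Long (Prod.swap ⁻¹' D) := by
    have := long_Si ha h2
    rwa [h7] at this
  exact ⟨pre_S h5, c1, h2, conn_of_long hDo hDc hL1 hL2⟩

theorem good_curve_comp' (hM : 16 ≤ M) (haM : |a| = M ^ 2)
    {V : Set T2} (hV : S a ⁻¹' V = V)
    {p : T2} (hb : p ∉ BadS a M n W) (hp : p ∈ V) (hf : p ∉ hnbd (rd M n) (frontier V)) :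
    HasCurve (connectedComponentIn V ((S a)^[n + W] p)) := by
  rw [← comp_iter hV hp]
  exact good_comp hM haM hb hp hf le_rfl

theorem good_curve_comp_v' (hM : 16 ≤ M) (haM : |a| = M ^ 2)
    {V : Set T2} (hV : S a ⁻¹' V = V)
    {p : T2} (hb : Prod.swap p ∉ BadS a M n W) (hp : p ∈ V)
    (hf : Prod.swap p ∉ hnbd (rd M n) (Prod.swap ⁻¹' frontier V)) :
    HasCurve (Prod.swap ⁻¹' connectedComponentIn V ((Si a)^[n + W] p)) := by
  rw [← front_swap'] at hf
  have h := good_curve_comp' hM haM (swap_inv' hV) hb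
    (by rwa [mem_preimage, Prod.swap_swap]) hf
  rw [S_swap_iter, comp_swap (mem_Si_iter hV hp (n + W))] at h
  exact h

/-- the structure of an invariant open set -/
theorem structure_open' (hM : 16 ≤ M) (haM : |a| = M ^ 2) {V : Set T2} (hVo : IsOpen V)
    (hV : S a ⁻¹' V = V) (W : ℕ) :
    ∃ V₀ : Set T2, V₀ ⊆ V ∧
      (V₀ = ∅ ∨ (S a ⁻¹' V₀ = V₀ ∧ (∃ p ∈ V, V₀ = connectedComponentIn V p) ∧
        HasCurve V₀ ∧ HasCurve (Prod.swap ⁻¹' V₀) ∧ IsConnected (pr ⁻¹' V₀))) ∧
      ((∀ n, V \ V₀ ⊆ BadS a M n W ∪ hnbd (rd M n) (frontier V)) ∨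
        (∀ n, V \ V₀ ⊆ Prod.swap ⁻¹'
          (BadS a M n W ∪ hnbd (rd M n) (Prod.swap ⁻¹' frontier V)))) := by
  have ha := a_ge hM haM
  by_cases hH : ∃ p ∈ V, HasCurve (connectedComponentIn V p)
  · by_cases hVt : ∃ q ∈ V, HasCurve (Prod.swap ⁻¹' connectedComponentIn V q)
    · obtain ⟨p, hp, hpc⟩ := hH
      obtain ⟨q, hq, hqc⟩ := hVt
      set V₀ := connectedComponentIn V p with hV₀
      have e1 : connectedComponentIn V q = V₀ := by
        obtain ⟨z, hz1, hz2⟩ := meet hpc hqc
        exact comp_eq hz2 hz1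
      rw [e1] at hqc
      have hall : ∀ x ∈ V, HasCurve (connectedComponentIn V x) → x ∈ V₀ := by
        intro x hx hxc
        obtain ⟨z, hz1, hz2⟩ := meet hxc hqc
        have e2 : connectedComponentIn V x = V₀ := comp_eq hz1 hz2
        rw [← e2]
        exact mem_connectedComponentIn hx
      have hinv' : S a '' V₀ = V₀ := by
        have h1 : HasCurve (S a '' V₀) := (long_S ha hpc).hasCurve
        rw [hV₀, comp_S hV hp] at h1
        have h2 := hall _ (mem_S hV hp) h1
        rw [hV₀, comp_S hV hp]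
        rw [hV₀] at h2
        exact (connectedComponentIn_eq h2).symm
      have hinv : S a ⁻¹' V₀ = V₀ := pre_S hinv'
      have hSi : Si a '' V₀ = V₀ := by
        conv_lhs => rw [← hinv', ← image_comp]
        have : Si a ∘ S a = id := funext (Si_S a)
        rw [this, image_id]
      have hL1 : Long V₀ := by
        have := long_S ha hpc
        rwa [hinv'] at this
      have hL2 : Long (Prod.swap ⁻¹' V₀) := by
        have := long_Si ha hqc
        rwa [hSi] at this
      refine ⟨V₀, connectedComponentIn_subset _ _, Or.inr ⟨hinv, ⟨p, hp, rfl⟩, hpc, hqc,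
        conn_of_long hVo.connectedComponentIn isPreconnected_connectedComponentIn hL1 hL2⟩,
        Or.inl ?_⟩
      intro n x hx
      by_contra hcon
      rw [mem_union, not_or] at hcon
      have h1 := good_curve_comp' hM haM hV hcon.1 hx.1 hcon.2
      exact hx.2 (of_iter_mem hinv (n + W) (hall _ (iter_mem hV hx.1 (n + W)) h1))
    · refine ⟨∅, empty_subset _, Or.inl rfl, Or.inr ?_⟩
      intro n x hx
      by_contra hcon
      rw [mem_preimage, mem_union, not_or] at hcon
      exact hVt ⟨_, mem_Si_iter hV hx.1 (n + W), good_curve_comp_v' hM haM hV hcon.1 hx.1 hcon.2⟩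
  · refine ⟨∅, empty_subset _, Or.inl rfl, Or.inl ?_⟩
    intro n x hx
    by_contra hcon
    rw [mem_union, not_or] at hcon
    exact hH ⟨_, iter_mem hV hx.1 (n + W), good_curve_comp' hM haM hV hcon.1 hx.1 hcon.2⟩

end Pool.Agent.H52.GEO
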