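import Mathlib
import Pool.Agent.H52.STD.Wc2

set_option autoImplicit false

/-!
# Areas and lengths
-/

namespace Pool.Agent.H52.GEO

open Real MeasureTheory Function Set Filter Topology
open Pool.Agent.TH705.SM Pool.Agent.Y332.SM Pool.Agent.N317.SM
open Pool.Agent.H52.STD (BadS W0 BadS_vol)
open scoped ENNReal

/-- the basic area -/
noncomputable def ar (a : ℝ) (n : ℕ) : ℝ := (n + log |a|) * log |a| / |a| ^ 2

/-- points without a good time in the future, a measurable hull -/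
noncomputable def B1 (a : ℝ) (n : ℕ) : Set T2 := toMeasurable volume (BadS a (√|a|) n (W0 a))

/-- the exceptional set -/
noncomputable def BB (a : ℝ) (n : ℕ) : Set T2 := B1 a n ∪ Prod.swap ⁻¹' B1 a n

theorem log_ge {a : ℝ} (ha : 256 ≤ |a|) : 5.5 ≤ log |a| := by
  have h1 : log (2 ^ 8 : ℝ) ≤ log |a| := Real.log_le_log (by norm_num) (by linarith)
  rw [Real.log_pow] at h1
  have := Real.log_two_gt_d9
  push_cast at h1
  linarith

theorem ar_nonneg {a : ℝ} (ha : 256 ≤ |a|) (n : ℕ) : 0 ≤ ar a n := by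
  have := log_ge ha
  unfold ar
  positivity

theorem B1_vol {a : ℝ} (ha : 256 ≤ |a|) (n : ℕ) :
    volume (B1 a n) ≤ ENNReal.ofReal (10 ^ 32 * ar a n) := by
  unfold B1
  rw [measure_toMeasurable]
  exact BadS_vol ha n

theorem BB_meas (a : ℝ) (n : ℕ) : MeasurableSet (BB a n) := by
  have hm : MeasurableSet (B1 a n) := measurableSet_toMeasurable _ _
  exact hm.union (hm.preimage measurable_swap)

theorem BB_vol {a : ℝ} (ha : 256 ≤ |a|) (n : ℕ) :
    volume (BB a n) ≤ ENNReal.ofReal (2 * 10 ^ 32 * ar a n) := by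
  have h0 := ar_nonneg ha n
  have h1 := B1_vol ha n
  refine (measure_union_le _ _).trans ?_
  rw [vol_swap]
  refine (add_le_add h1 h1).trans ?_
  rw [← ENNReal.ofReal_add (by positivity) (by positivity)]
  apply ENNReal.ofReal_le_ofReal
  linarith

theorem BB_not {a : ℝ} {n : ℕ} {p : T2} (hp : p ∉ BB a n) : p ∉ BadS a (√|a|) n (W0 a) ∧
    Prod.swap p ∉ BadS a (√|a|) n (W0 a) := by
  constructor
  · exact fun h => hp (Or.inl (subset_toMeasurable _ _ h))
  · exact fun h => hp (Or.inr (subset_toMeasurable volume _ h))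

theorem sq_ge {a : ℝ} (ha : 256 ≤ |a|) : 16 ≤ √|a| := by
  apply Real.le_sqrt_of_sq_le
  norm_num
  exact ha

theorem sq_eq (a : ℝ) : |a| = √|a| ^ 2 := (Real.sq_sqrt (abs_nonneg a)).symm

/-- the times -/
theorem W0_le {a : ℝ} (ha : 256 ≤ |a|) {n N : ℕ} (hN : 3600 * (n + log |a|) ≤ N) :
    2 * (n + W0 a) ≤ N := by
  have hL := log_ge ha
  have h1 : ((⌈22 * log |a|⌉₊ : ℕ) : ℝ) < 22 * log |a| + 1 := Nat.ceil_lt_add_one (by positivity)
  have h2 : ((2 * (n + W0 a) : ℕ) : ℝ) = 2 * n + 160 * ((⌈22 * log |a|⌉₊ : ℕ) : ℝ) + 80 := by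
    unfold W0
    push_cast
    ring
  have h3 : (0:ℝ) ≤ n := Nat.cast_nonneg n
  have h4 : ((2 * (n + W0 a) : ℕ) : ℝ) ≤ (N : ℝ) := by
    rw [h2]
    linarith
  exact_mod_cast h4

theorem trans_BB {a : ℝ} (ha : 256 ≤ |a|) {n : ℕ} {p q : T2} (hp : p ∉ BB a n) (hq : q ∉ BB a n)
    {N : ℕ} (hN : 3600 * (n + log |a|) ≤ N) :
    ∃ p' q' : T2, dist p p' ≤ rd (√|a|) n ∧ dist q q' ≤ rd (√|a|) n ∧ (S a)^[N] p' = q' :=
  trans_pts (sq_ge ha) (sq_eq a) (BB_not hp).1 (BB_not hq).2 (W0_le ha hN)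

/-- points on the same side of the boundary -/
theorem side {a : ℝ} (ha : 256 ≤ |a|) {k n : ℕ} (hk : 1 ≤ k) {A : Set T2}
    (hAm : MeasurableSet A) (hA : (S a)^[k] ⁻¹' A =ᵐ[volume] A) {p q : T2}
    (hp : p ∉ BB a n) (hq : q ∉ BB a n)
    (hp' : p ∉ Metric.cthickening (rd (√|a|) n) (frontier A))
    (hq' : q ∉ Metric.cthickening (rd (√|a|) n) (frontier A)) (hpA : p ∈ A) : q ∈ A := by
  by_contra hqA
  have hsw : ∀ x : T2, Prod.swap x ∈ hnbd (rd (√|a|) n) (Prod.swap ⁻¹' frontier A) →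
      x ∈ Metric.cthickening (rd (√|a|) n) (frontier A) := by
    rintro x ⟨b, hb, hb'⟩
    have h1 : dist x (x.1, x.2 + (b : UnitAddCircle)) ≤ rd (√|a|) n := by
      rw [Prod.dist_eq, dist_self]
      have : dist x.2 (x.2 + (b : UnitAddCircle)) = ‖(b : UnitAddCircle)‖ := by
        rw [dist_eq_norm, sub_add_cancel_left, norm_neg]
      simp only
      rw [this]
      exact max_le ((abs_nonneg b).trans hb) ((norm_coe_le b).trans hb)
    exact Metric.mem_cthickening_of_dist_le x (x.1, x.2 + (b : UnitAddCircle)) _ _ hb' h1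
  rcases alt_ae (n := n) (W := W0 a) (sq_ge ha) (sq_eq a) hk hAm hA with h | h
  · rcases h hpA with h1 | h1
    · exact (BB_not hp).1 h1
    · exact hp' (hnbd_sub _ _ h1)
  · have h2 : Prod.swap q ∈ Prod.swap ⁻¹' Aᶜ := by
      rw [mem_preimage, Prod.swap_swap]
      exact hqA
    rcases h h2 with h1 | h1
    · exact (BB_not hq).2 h1
    · exact hq' (hsw q h1)

theorem min_thick {a : ℝ} (ha : 256 ≤ |a|) {k : ℕ} (hk : 1 ≤ k) {A : Set T2}
    (hAm : MeasurableSet A) (hA : (S a)^[k] ⁻¹' A =ᵐ[volume] A) (n : ℕ) :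
    min (volume A) (volume Aᶜ) ≤ ENNReal.ofReal (10 ^ 32 * ar a n) +
      volume (Metric.cthickening (rd (√|a|) n) (frontier A)) := by
  have hv := BadS_vol ha n
  rcases alt_ae (n := n) (W := W0 a) (sq_ge ha) (sq_eq a) hk hAm hA with h | h
  · refine (min_le_left _ _).trans ((measure_mono h).trans ((measure_union_le _ _).trans ?_))
    exact add_le_add hv (vol_hnbd_thick _ _).1
  · refine (min_le_right _ _).trans ?_
    rw [← vol_swap Aᶜ]
    exact ((measure_mono h).trans ((measure_union_le _ _).trans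
      (add_le_add hv (vol_hnbd_thick _ _).2)))

theorem min_len0 {a : ℝ} (ha : 256 ≤ |a|) {k : ℕ} (hk : 1 ≤ k) {A : Set T2}
    (hAm : MeasurableSet A) (hA : (S a)^[k] ⁻¹' A =ᵐ[volume] A) (n : ℕ) :
    min (volume A) (volume Aᶜ) ≤ ENNReal.ofReal (10 ^ 32 * ar a n) +
      ENNReal.ofReal (4 * rd (√|a|) n) * Measure.hausdorffMeasure 1 (frontier A) := by
  have hv := BadS_vol ha n
  have hr := rd_pos (sq_ge ha) n
  rcases alt_ae (n := n) (W := W0 a) (sq_ge ha) (sq_eq a) hk hAm hA with h | h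
  · refine (min_le_left _ _).trans ((measure_mono h).trans ((measure_union_le _ _).trans ?_))
    exact add_le_add hv (vol_hnbd hr _)
  · refine (min_le_right _ _).trans ?_
    rw [← vol_swap Aᶜ]
    refine ((measure_mono h).trans ((measure_union_le _ _).trans (add_le_add hv ?_)))
    exact (vol_hnbd hr _).trans (mul_le_mul_right (haus_swap _) _)

/-- the choice of the scale -/
theorem choose_scale {a : ℝ} (ha : 256 ≤ |a|) {ℓ : ℝ} (hℓ : 0 ≤ ℓ) : ∃ n : ℕ,
    10 ^ 32 * ar a n + 4 * rd (√|a|) n * ℓ ≤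
      10 ^ 33 * (log |a| ^ 2 + log (2 + ℓ)) / |a| ^ 2 := by
  have ha0 : 0 < |a| := by linarith
  have hL := log_ge ha
  obtain ⟨L, hLd⟩ : ∃ L, L = log |a| := ⟨_, rfl⟩
  rw [← hLd] at hL
  obtain ⟨g, hg⟩ : ∃ g, g = log (2 + ℓ) := ⟨_, rfl⟩
  have hg0 : 0 ≤ g := by rw [hg]; exact Real.log_nonneg (by linarith)
  have hL0 : 0 < L := by linarith
  obtain ⟨n, hn⟩ : ∃ n : ℕ, n = ⌈8 + 4 * g / L⌉₊ := ⟨_, rfl⟩
  have hn1 : 8 + 4 * g / L ≤ n := by rw [hn]; exact Nat.le_ceil _
  have hn2 : (n:ℝ) < 8 + 4 * g / L + 1 := by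
    rw [hn]
    exact Nat.ceil_lt_add_one (by positivity)
  refine ⟨n, ?_⟩
  have h1 : (n:ℝ) * L ≤ 9 * L + 4 * g := by
    have := mul_le_mul_of_nonneg_right hn2.le hL0.le
    have e : (8 + 4 * g / L + 1) * L = 9 * L + 4 * g := by
      field_simp
      ring
    linarith
  have h2 : 8 * L + 4 * g ≤ n * L := by
    have := mul_le_mul_of_nonneg_right hn1 hL0.le
    have e : (8 + 4 * g / L) * L = 8 * L + 4 * g := by
      field_simp
    linarith
  -- the radius
  have h3 : rd (√|a|) n * (2 + ℓ) ≤ 1 / |a| ^ 2 := by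
    have hs : 0 < √√|a| := Real.sqrt_pos.2 (Real.sqrt_pos.2 ha0)
    have e1 : rd (√|a|) n = exp (-(n * L / 4)) := by
      unfold rd
      have e2 : log (√√|a|) = L / 4 := by
        rw [Real.log_sqrt (Real.sqrt_nonneg _), Real.log_sqrt (abs_nonneg a), hLd]
        ring
      rw [one_div, inv_pow, ← Real.exp_log (pow_pos hs n), Real.log_pow, e2, ← Real.exp_neg]
      congr 1
      ring
    have e3 : 2 + ℓ = exp g := by
      rw [hg, Real.exp_log (by linarith)]
    have e4 : 1 / |a| ^ 2 = exp (-(2 * L)) := by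
      rw [Real.exp_neg, one_div]
      congr 1
      rw [show 2 * L = L + L by ring, Real.exp_add, hLd, Real.exp_log ha0]
      ring
    rw [e1, e3, e4, ← Real.exp_add]
    apply Real.exp_le_exp.2
    linarith
  have h4 : 4 * rd (√|a|) n * ℓ ≤ 4 / |a| ^ 2 := by
    have h5 : rd (√|a|) n * ℓ ≤ rd (√|a|) n * (2 + ℓ) :=
      mul_le_mul_of_nonneg_left (by linarith) (rd_nonneg _ _)
    have e : 4 / |a| ^ 2 = 4 * (1 / |a| ^ 2) := by ring
    rw [e]
    linarith
  rw [← hLd, ← hg]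
  have e5 : 10 ^ 32 * ar a n + 4 / |a| ^ 2 = (10 ^ 32 * ((n + L) * L) + 4) / |a| ^ 2 := by
    unfold ar
    rw [← hLd]
    ring
  refine (add_le_add le_rfl h4).trans ?_
  rw [e5]
  apply div_le_div_of_nonneg_right _ (by positivity)
  have h6 : (n + L) * L ≤ 9 * L + 4 * g + L ^ 2 := by nlinarith
  have h7 : 9 * L ≤ 2 * L ^ 2 := by nlinarith
  have h8 : (n + L) * L ≤ 4 * (L ^ 2 + g) := by nlinarith
  have h9 : (1:ℝ) ≤ L ^ 2 + g := by nlinarith
  linarith

theorem min_len {a : ℝ} (ha : 256 ≤ |a|) {k : ℕ} (hk : 1 ≤ k) {A : Set T2}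
    (hAm : MeasurableSet A) (hA : (S a)^[k] ⁻¹' A =ᵐ[volume] A) {ℓ : ℝ} (hℓ : 0 ≤ ℓ)
    (hF : Measure.hausdorffMeasure 1 (frontier A) ≤ ENNReal.ofReal ℓ) :
    min (volume A) (volume Aᶜ) ≤
      ENNReal.ofReal (10 ^ 33 * (log |a| ^ 2 + log (2 + ℓ)) / |a| ^ 2) := by
  obtain ⟨n, hn⟩ := choose_scale ha hℓ
  have h1 := min_len0 ha hk hAm hA n
  have h0 := ar_nonneg ha n
  have hr := rd_nonneg (√|a|) n
  refine h1.trans ?_
  have h2 : ENNReal.ofReal (4 * rd (√|a|) n) * Measure.hausdorffMeasure 1 (frontier A) ≤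
      ENNReal.ofReal (4 * rd (√|a|) n * ℓ) := by
    rw [ENNReal.ofReal_mul (p := 4 * rd (√|a|) n) (by positivity)]
    exact mul_le_mul_right hF _
  refine (add_le_add le_rfl h2).trans ?_
  rw [← ENNReal.ofReal_add (by positivity) (by positivity)]
  exact ENNReal.ofReal_le_ofReal hn

/-- the area of the small components against the length of the boundary -/
theorem small_len {a : ℝ} (ha : 256 ≤ |a|) {V R : Set T2}
    (h : (∀ n, R ⊆ BadS a (√|a|) n (W0 a) ∪ hnbd (rd (√|a|) n) (frontier V)) ∨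
        (∀ n, R ⊆ Prod.swap ⁻¹' (BadS a (√|a|) n (W0 a) ∪
          hnbd (rd (√|a|) n) (Prod.swap ⁻¹' frontier V)))) {ℓ : ℝ} (hℓ : 0 ≤ ℓ)
    (hF : Measure.hausdorffMeasure 1 (frontier V) ≤ ENNReal.ofReal ℓ) :
    volume R ≤ ENNReal.ofReal (10 ^ 33 * (log |a| ^ 2 + log (2 + ℓ)) / |a| ^ 2) := by
  obtain ⟨n, hn⟩ := choose_scale ha hℓ
  have h0 := ar_nonneg ha n
  have hr := rd_pos (sq_ge ha) n
  have hv := BadS_vol ha n
  have h1 : volume R ≤ ENNReal.ofReal (10 ^ 32 * ar a n) +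
      ENNReal.ofReal (4 * rd (√|a|) n) * Measure.hausdorffMeasure 1 (frontier V) := by
    rcases h with h | h
    · exact (measure_mono (h n)).trans ((measure_union_le _ _).trans
        (add_le_add hv (vol_hnbd hr _)))
    · refine (measure_mono (h n)).trans ?_
      rw [vol_swap]
      refine (measure_union_le _ _).trans (add_le_add hv ?_)
      exact (vol_hnbd hr _).trans (mul_le_mul_right (haus_swap _) _)
  refine h1.trans ?_
  have h2 : ENNReal.ofReal (4 * rd (√|a|) n) * Measure.hausdorffMeasure 1 (frontier V) ≤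
      ENNReal.ofReal (4 * rd (√|a|) n * ℓ) := by
    rw [ENNReal.ofReal_mul (p := 4 * rd (√|a|) n) (by positivity)]
    exact mul_le_mul_right hF _
  refine (add_le_add le_rfl h2).trans ?_
  rw [← ENNReal.ofReal_add (by positivity) (by positivity)]
  exact ENNReal.ofReal_le_ofReal hn

theorem small_thick {a : ℝ} (ha : 256 ≤ |a|) {V R : Set T2}
    (h : (∀ n, R ⊆ BadS a (√|a|) n (W0 a) ∪ hnbd (rd (√|a|) n) (frontier V)) ∨
        (∀ n, R ⊆ Prod.swap ⁻¹' (BadS a (√|a|) n (W0 a) ∪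
          hnbd (rd (√|a|) n) (Prod.swap ⁻¹' frontier V)))) (n : ℕ) :
    volume R ≤ ENNReal.ofReal (10 ^ 32 * ar a n) +
      volume (Metric.cthickening (rd (√|a|) n) (frontier V)) := by
  have hv := BadS_vol ha n
  rcases h with h | h
  · exact (measure_mono (h n)).trans ((measure_union_le _ _).trans
      (add_le_add hv (vol_hnbd_thick _ _).1))
  · refine (measure_mono (h n)).trans ?_
    rw [vol_swap]
    exact (measure_union_le _ _).trans (add_le_add hv (vol_hnbd_thick _ _).2)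

/-! ### no exception at the scale `log |a| / |a|` -/

theorem ball_vol (p : T2) {r : ℝ} (hr0 : 0 ≤ r) (hr : r ≤ 1 / 2) :
    volume (Metric.closedBall p r) = ENNReal.ofReal ((2 * r) ^ 2) := by
  obtain ⟨x, y⟩ := p
  rw [← closedBall_prod_same, Measure.volume_eq_prod, Measure.prod_prod,
    AddCircle.volume_closedBall, AddCircle.volume_closedBall, min_eq_right (by linarith),
    ← ENNReal.ofReal_mul (by positivity)]
  congr 1
  ring

theorem dist_half (p q : T2) : dist p q ≤ 1 / 2 := by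
  rw [Prod.dist_eq]
  have h : ∀ x y : UnitAddCircle, dist x y ≤ 1 / 2 := by
    intro x y
    rw [dist_eq_norm]
    have := AddCircle.norm_le_half_period 1 (x := x - y) one_ne_zero
    simpa using this
  exact max_le (h _ _) (h _ _)

/-- **mixing at the scale `log |a| / |a|`, without exceptional set** -/
theorem trans_all {a : ℝ} (ha : 256 ≤ |a|) {N : ℕ} (hN : 3600 * (8 + log |a|) ≤ N) (p q : T2) :
    ∃ p' q' : T2, dist p p' ≤ 10 ^ 17 * log |a| / |a| ∧ dist q q' ≤ 10 ^ 17 * log |a| / |a| ∧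
      (S a)^[N] p' = q' := by
  have ha0 : 0 < |a| := by linarith
  have hL := log_ge ha
  obtain ⟨ρ, hρ⟩ : ∃ ρ, ρ = 10 ^ 17 * log |a| / |a| := ⟨_, rfl⟩
  have hρ0 : 0 < ρ := by rw [hρ]; positivity
  rw [← hρ]
  rcases le_or_gt (1 / 2) ρ with h | h
  · exact ⟨p, (S a)^[N] p, by rw [dist_self]; exact hρ0.le, (dist_half _ _).trans h, rfl⟩
  · -- the small balls
    have hrad : rd (√|a|) 8 ≤ ρ / 2 := by
      have e : rd (√|a|) 8 = 1 / |a| ^ 2 := by
        unfold rd
        rw [div_pow, one_pow]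
        congr 1
        have e1 : √√|a| ^ 2 = √|a| := Real.sq_sqrt (Real.sqrt_nonneg _)
        have e2 : √|a| ^ 2 = |a| := Real.sq_sqrt (abs_nonneg a)
        calc √√|a| ^ 8 = ((√√|a| ^ 2) ^ 2) ^ 2 := by ring
          _ = |a| ^ 2 := by rw [e1, e2]
      rw [e, hρ, div_div, div_le_div_iff₀ (by positivity) (by positivity), one_mul]
      nlinarith
    have key : ∀ x : T2, ∃ y, dist x y ≤ ρ / 2 ∧ y ∉ BB a 8 := by
      intro x
      by_contra hcon
      push Not at hcon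
      have hsub : Metric.closedBall x (ρ / 2) ⊆ BB a 8 := by
        intro y hy
        rw [Metric.mem_closedBall, dist_comm] at hy
        exact hcon y hy
      have h1 := (measure_mono (μ := (volume : Measure T2)) hsub).trans (BB_vol ha 8)
      have h0 := ar_nonneg ha 8
      rw [ball_vol x (by positivity) (by linarith), ENNReal.ofReal_le_ofReal_iff (by positivity),
        hρ] at h1
      unfold ar at h1
      have e1 : (2 * (10 ^ 17 * log |a| / |a| / 2)) ^ 2 = 10 ^ 34 * log |a| ^ 2 / |a| ^ 2 := by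
        ring
      have e2 : 2 * 10 ^ 32 * ((((8 : ℕ) : ℝ) + log |a|) * log |a| / |a| ^ 2) =
          2 * 10 ^ 32 * ((8 + log |a|) * log |a|) / |a| ^ 2 := by
        push_cast
        ring
      rw [e1, e2, div_le_div_iff_of_pos_right (by positivity)] at h1
      nlinarith
    obtain ⟨p1, hp1, hp2⟩ := key p
    obtain ⟨q1, hq1, hq2⟩ := key q
    obtain ⟨p', q', h1, h2, h3⟩ := trans_BB ha (n := 8) hp2 hq2 (N := N) (by push_cast; exact hN)
    refine ⟨p', q', ?_, ?_, h3⟩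
    · exact (dist_triangle _ p1 _).trans (by linarith)
    · exact (dist_triangle _ q1 _).trans (by linarith)

end Pool.Agent.H52.GEO
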