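import Mathlib
import Pool.Agent.H52.STD.Wc3

set_option autoImplicit false

/-!
# Connecting orbit segments without small products of consecutive slopes
-/

namespace Pool.Agent.H52.GEO

open Real MeasureTheory Function Set Filter Topology
open Pool.Agent.TH705.SM Pool.Agent.Y332.SM Pool.Agent.N317.SM
open Pool.Agent.H52.STD (BadS)
open scoped ENNReal

/-- no small product of consecutive slopes at the times `0, …, N - 1` -/
def NoSmall (a : ℝ) (N : ℕ) (x : T2) : Prop :=
  ∀ k, k + 2 ≤ N → 15 ≤ |Lc a ((S a)^[k] x).1 * Lc a ((S a)^[k + 1] x).1|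

/-- the images at time `N` of points of the segment with good orbits -/
def Fw (a M r t s : ℝ) (N : ℕ) : Set T2 :=
  {z | ∃ x ∈ seg r t s, (S a)^[N] x = z ∧ NoSmall a N x ∧ 10 * M ≤ |Lc a z.2|}

theorem curveG' {a M s t : ℝ} (hM : 16 ≤ M) (haM : |a| = M ^ 2) {n : ℕ} (hn : 1 ≤ n)
    (hs : Pool.Agent.K7.H81.SL.Sp a M s n t) : HasCurve (Fw a M ((1 / √M) ^ n) t s n) := by
  obtain ⟨c, hc1, hc2, hc3, hc4⟩ := Pool.Agent.K7.H81.SL.leftG hM haM hn hs
  obtain ⟨d, hd1, hd2, hd3, hd4⟩ := Pool.Agent.K7.H81.SL.rightG hM haM hn hs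
  have hcd : c ≤ d := hc2.trans hd1
  have hgood : ∀ v ∈ Icc c d, Pool.Agent.K7.H81.SL.Gp a M s n t v := by
    intro v hv
    rcases le_total v t with h | h
    · exact hc3 v ⟨hv.1, h⟩
    · exact hd3 v ⟨h, hv.2⟩
  set Y : ℝ → ℝ := X a s (n + 1) with hY
  have hne : Y c ≠ Y d := by
    intro he
    have h1 := Pool.Agent.K7.H81.SL.time_incrG hM hn hcd hgood hs.count
    rw [← hY, he, sub_self, abs_zero, mul_zero] at h1
    have h2 : d = c := by
      have := abs_nonneg (d - c)
      have h3 : |d - c| = 0 := le_antisymm h1 this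
      rw [abs_eq_zero] at h3
      linarith
    have h3 : t = c := by linarith
    rw [h3, sub_self, abs_zero] at hc4
    norm_num at hc4
  have hsub : Icc (Y t - 1) (Y t + 1) ⊆ Y '' Icc c d := by
    have h1 := intermediate_value_uIcc (a := c) (b := d) (f := Y)
      (Xt_cont a s (n + 1)).continuousOn
    rw [uIcc_of_le hcd] at h1
    refine subset_trans ?_ h1
    have hc5 : Y c - Y t = 1 ∨ Y c - Y t = -1 := (abs_eq zero_le_one).1 hc4
    have hd5 : Y d - Y t = 1 ∨ Y d - Y t = -1 := (abs_eq zero_le_one).1 hd4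
    rcases hc5 with h5 | h5 <;> rcases hd5 with h6 | h6
    · exact absurd (by linarith) hne
    · have e1 : Y c = Y t + 1 := by linarith
      have e2 : Y d = Y t - 1 := by linarith
      rw [e1, e2, uIcc_of_ge (by linarith)]
    · have e1 : Y c = Y t - 1 := by linarith
      have e2 : Y d = Y t + 1 := by linarith
      rw [e1, e2, uIcc_of_le (by linarith)]
    · exact absurd (by linarith) hne
  have hsub' : ∀ x ∈ Icc (Y t - 1) (Y t + 1), ∃ u, u ∈ Icc c d ∧ Y u = x :=
    fun x hx => hsub hx
  choose! τ hτ using hsub'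
  refine ⟨Y t, fun x => X a s n (τ x), ?_, ?_⟩
  · intro x hx
    have h1 := (hτ x hx).1
    have h2 : ((τ x : UnitAddCircle), (s : UnitAddCircle)) ∈ seg ((1 / √M) ^ n) t s := by
      refine ⟨τ x, ?_, rfl⟩
      rw [abs_le]
      constructor <;> linarith [h1.1, h1.2]
    have hg := hgood _ h1
    have h4 : X a s (n + 1) (τ x) = x := (hτ x hx).2
    refine ⟨_, h2, ?_, ?_, ?_⟩
    · rw [iter_coe, h4]
    · intro k hk
      rw [iter_coe, iter_coe]
      show 15 ≤ |Lc a (X a s (k + 1) (τ x) : UnitAddCircle) *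
        Lc a (X a s (k + 1 + 1) (τ x) : UnitAddCircle)|
      rw [Lc_coe, Lc_coe]
      exact hg.prod (k + 1) (by omega) (by omega)
    · show 10 * M ≤ |Lc a (X a s n (τ x) : UnitAddCircle)|
      rw [Lc_coe]
      exact hg.late n hn le_rfl (by omega)
  · have key : ∀ x ∈ Icc (Y t - 1) (Y t + 1), ∀ y ∈ Icc (Y t - 1) (Y t + 1), τ x ≤ τ y →
        |X a s n (τ y) - X a s n (τ x)| ≤ 1 / 8 * |y - x| := by
      intro x hx y hy hxy
      have h1 := Pool.Agent.K7.H81.SL.X_incrG hM hn hxy (fun v hv => hgood v
        ⟨(hτ x hx).1.1.trans hv.1, hv.2.trans (hτ y hy).1.2⟩) (k := n) (by omega)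
      have h4 : X a s (n + 1) (τ x) = x := (hτ x hx).2
      have h5 : X a s (n + 1) (τ y) = y := (hτ y hy).2
      rw [h4, h5] at h1
      refine h1.trans (mul_le_mul_of_nonneg_right ?_ (abs_nonneg _))
      unfold Pool.Agent.K7.H81.SL.rr
      rw [show min 4 (n + 1 - n) = 1 by omega, pow_one]
      apply one_div_le_one_div_of_le (by norm_num)
      linarith
    intro x hx y hy
    rcases le_total (τ x) (τ y) with h | h
    · rw [abs_sub_comm, abs_sub_comm x y]
      exact key x hx y hy h
    · exact key y hy x hx h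

theorem L_big {a : ℝ} (ha : 256 ≤ |a|) {c : ℤ} {x : ℝ} (hx : |x - c| ≤ 1 / 8) :
    4 * |a| ≤ |L a x| := by
  have hpi := pi_pos
  have hpi3 := pi_gt_d2
  rw [abs_le] at hx
  have e : cos (2 * π * x) = cos (2 * π * (x - c)) := by
    have : 2 * π * (x - c) = 2 * π * x - c * (2 * π) := by ring
    rw [this, cos_sub_int_mul_two_pi]
  have h2 : 0.7 ≤ cos (2 * π * x) := by
    rw [e]
    have h3 : cos (π / 4) ≤ cos |2 * π * (x - c)| := by
      apply cos_le_cos_of_nonneg_of_le_pi (abs_nonneg _) (by linarith)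
      rw [abs_le]
      constructor <;> nlinarith
    rw [cos_abs, cos_pi_div_four] at h3
    have h4 : (1.4:ℝ) ≤ √2 := by
      apply Real.le_sqrt_of_sq_le
      norm_num
    linarith
  unfold L
  have h5 : |2 * π * a * cos (2 * π * x)| = 2 * π * |a| * cos (2 * π * x) := by
    rw [abs_mul, abs_mul, abs_of_pos (by positivity : (0:ℝ) < 2 * π),
      abs_of_pos (by linarith : 0 < cos (2 * π * x))]
  have h6 := abs_sub_abs_le_abs_sub (2 * π * a * cos (2 * π * x)) (-2)
  rw [sub_neg_eq_add, abs_neg, abs_of_pos (by norm_num : (0:ℝ) < 2), h5, add_comm _ (2:ℝ)] at h6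
  have h7 : 2 * 3.14 * |a| * 0.7 ≤ 2 * π * |a| * cos (2 * π * x) := by
    apply mul_le_mul _ h2 (by norm_num) (by positivity)
    nlinarith
  linarith

/-- one more step -/
theorem Fw_succ {a M r t s : ℝ} (hM : 16 ≤ M) (haM : |a| = M ^ 2) {N : ℕ}
    (h : HasCurve (Fw a M r t s N)) : HasCurve (Fw a M r t s (N + 1)) := by
  have ha := a_ge hM haM
  obtain ⟨α, w, hw1, hw2⟩ := h
  set c : ℤ := round α with hc
  have hc1 : |α - c| ≤ 1 / 2 := abs_sub_round α
  rw [abs_le] at hc1
  set g : ℝ → ℝ := fun x => 2 * x - w x + a * sin (2 * π * x) with hg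
  set l : ℝ := c - 1 / 8 with hl
  set r' : ℝ := c + 1 / 8 with hr
  have hlr : l ≤ r' := by linarith
  have hsub : ∀ x ∈ Icc l r', x ∈ Icc (α - 1) (α + 1) := fun x hx =>
    ⟨by linarith [hx.1], by linarith [hx.2]⟩
  have hexp : ∀ x ∈ Icc l r', ∀ y ∈ Icc l r', 16 * |x - y| ≤ |g x - g y| := by
    intro x hx y hy
    have h1 := sin_exp (c := c) (x := x) (y := y)
      (by rw [abs_le]; constructor <;> linarith [hx.1, hx.2])
      (by rw [abs_le]; constructor <;> linarith [hy.1, hy.2])
    have h2 := hw2 x (hsub x hx) y (hsub y hy)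
    have e : g x - g y = a * (sin (2 * π * x) - sin (2 * π * y)) -
        ((w x - w y) - 2 * (x - y)) := by
      simp only [hg]; ring
    have h3 := abs_sub_abs_le_abs_sub (a * (sin (2 * π * x) - sin (2 * π * y)))
      ((w x - w y) - 2 * (x - y))
    rw [← e, abs_mul] at h3
    have h4 := abs_sub (w x - w y) (2 * (x - y))
    rw [abs_mul 2, abs_of_pos (by norm_num : (0:ℝ) < 2)] at h4
    have h5 := abs_nonneg (x - y)
    have h6 : 256 * (2.8 * |x - y|) ≤ |a| * |sin (2 * π * x) - sin (2 * π * y)| :=
      mul_le_mul ha h1 (by positivity) (by positivity)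
    linarith
  have hgc : ContinuousOn g (Icc l r') := by
    have hw : ContinuousOn w (Icc l r') := by
      have hlip : LipschitzOnWith 1 w (Icc l r') := by
        apply LipschitzOnWith.of_dist_le_mul
        intro x hx y hy
        rw [Real.dist_eq, Real.dist_eq]
        have h3 := hw2 x (hsub x hx) y (hsub y hy)
        have h4 := abs_nonneg (x - y)
        rw [NNReal.coe_one]
        linarith
      exact hlip.continuousOn
    have h2 : Continuous (fun x : ℝ => 2 * x) := by fun_prop
    have h3 : Continuous (fun x : ℝ => a * sin (2 * π * x)) := by fun_prop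
    exact (h2.continuousOn.sub hw).add h3.continuousOn
  have hdiff : 2 ≤ |g r' - g l| := by
    have h1 := hexp r' (right_mem_Icc.2 hlr) l (left_mem_Icc.2 hlr)
    have e : r' - l = 1 / 4 := by rw [hl, hr]; ring
    rw [e, abs_of_pos (by norm_num : (0:ℝ) < 1 / 4)] at h1
    linarith
  set β : ℝ := (g l + g r') / 2 with hβ
  have hsub' : Icc (β - 1) (β + 1) ⊆ g '' Icc l r' := by
    have h1 := intermediate_value_uIcc (a := l) (b := r') (f := g)
      (by rw [uIcc_of_le hlr]; exact hgc)
    rw [uIcc_of_le hlr] at h1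
    refine subset_trans ?_ h1
    rcases le_total (g l) (g r') with h | h
    · rw [uIcc_of_le h]
      rw [abs_of_nonneg (by linarith)] at hdiff
      exact Icc_subset_Icc (by linarith) (by linarith)
    · rw [uIcc_of_ge h]
      rw [abs_of_nonpos (by linarith)] at hdiff
      exact Icc_subset_Icc (by linarith) (by linarith)
  have hsub'' : ∀ y ∈ Icc (β - 1) (β + 1), ∃ x, x ∈ Icc l r' ∧ g x = y := fun y hy => hsub' hy
  choose! τ hτ using hsub''
  refine ⟨β, τ, ?_, ?_⟩
  · intro y hy
    obtain ⟨h1, h2⟩ := hτ y hy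
    obtain ⟨x, hx, hxz, hns, hlate⟩ := hw1 (τ y) (hsub _ h1)
    have hbig : 4 * |a| ≤ |Lc a (τ y : UnitAddCircle)| := by
      rw [Lc_coe]
      apply L_big ha (c := c)
      rw [abs_le]
      constructor <;> linarith [h1.1, h1.2]
    have hbig2 : 10 * M ≤ |Lc a (τ y : UnitAddCircle)| := by
      refine le_trans ?_ hbig
      rw [haM]
      nlinarith
    refine ⟨x, hx, ?_, ?_, hbig2⟩
    · rw [iterate_succ_apply', hxz, S_coe]
      have h3 : 2 * τ y - w (τ y) + a * sin (2 * π * τ y) = y := h2
      rw [h3]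
    · intro k hk
      rcases Nat.lt_or_ge (k + 1) N with h3 | h3
      · exact hns k (by omega)
      · have e1 : k + 1 = N := by omega
        rw [e1]
        have e2 : ((S a)^[k] x).1 = ((S a)^[N] x).2 := by
          rw [← e1, iterate_succ_apply']
          rfl
        rw [e2, hxz, abs_mul]
        have q1 : 10 * M ≤ |Lc a (w (τ y) : UnitAddCircle)| := hlate
        show 15 ≤ |Lc a (w (τ y) : UnitAddCircle)| * |Lc a (τ y : UnitAddCircle)|
        have q2 : (10 * M) * (10 * M) ≤ |Lc a (w (τ y) : UnitAddCircle)| *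
            |Lc a (τ y : UnitAddCircle)| := mul_le_mul q1 hbig2 (by positivity) (abs_nonneg _)
        nlinarith
  · intro x hx y hy
    have h1 := hexp (τ x) (hτ x hx).1 (τ y) (hτ y hy).1
    rw [(hτ x hx).2, (hτ y hy).2] at h1
    have h2 := abs_nonneg (x - y)
    linarith

theorem Fw_mono {a M r r' t s : ℝ} (h : r ≤ r') (N : ℕ) : Fw a M r t s N ⊆ Fw a M r' t s N := by
  rintro z ⟨x, hx, h1, h2, h3⟩
  exact ⟨x, seg_mono h hx, h1, h2, h3⟩

theorem Fw_curve {a M : ℝ} {n W : ℕ} (hM : 16 ≤ M) (haM : |a| = M ^ 2) {t s : ℝ}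
    (hb : ((t : UnitAddCircle), (s : UnitAddCircle)) ∉ BadS a M n W) {N : ℕ} (hN : n + W ≤ N) :
    HasCurve (Fw a M (rd M n) t s N) := by
  unfold BadS at hb
  rw [Set.mem_ofPred_eq] at hb
  push Not at hb
  obtain ⟨m, hm1, hm2, hm3, hm4⟩ := hb
  have h1 := curveG' hM haM hm1 (Pool.Agent.K7.H81.SL.good_pt hm4)
  have h2 : ∀ j, HasCurve (Fw a M ((1 / √M) ^ m) t s (m + j)) := by
    intro j
    induction j with
    | zero => exact h1
    | succ j ih => exact Fw_succ hM haM ih
  have h3 := h2 (N - m)
  rw [Nat.add_sub_cancel' (hm3.trans hN)] at h3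
  exact h3.mono (Fw_mono (rd_anti hM hm2) N)

/-- connecting orbit segments -/
theorem connect {a M : ℝ} {n n' W : ℕ} (hM : 16 ≤ M) (haM : |a| = M ^ 2) {p q : T2}
    (hp : p ∉ BadS a M n W) (hq : Prod.swap q ∉ BadS a M n' W) {N : ℕ}
    (hN : (n + W) + (n' + W) ≤ N) (hn : 1 ≤ n + W) :
    ∃ (x : T2) (u u' : ℝ), |u| ≤ rd M n ∧ |u'| ≤ rd M n' ∧
      x = (p.1 + (u : UnitAddCircle), p.2) ∧ (S a)^[N] x = (q.1, q.2 + (u' : UnitAddCircle)) ∧
      NoSmall a N x := by
  obtain ⟨p1, p2⟩ := p
  obtain ⟨q1, q2⟩ := q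
  induction p1 using QuotientAddGroup.induction_on with
  | H t =>
    induction p2 using QuotientAddGroup.induction_on with
    | H s =>
      induction q1 using QuotientAddGroup.induction_on with
      | H s' =>
        induction q2 using QuotientAddGroup.induction_on with
        | H t' =>
          set N2 := n' + W with hN2
          set N1 := N - N2 with hN1
          have c1 := Fw_curve hM haM hp (N := N1) (by omega)
          have c2 : HasCurve (Fw a M (rd M n') t' s' N2) := Fw_curve hM haM hq le_rfl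
          have c3 : HasCurve (Prod.swap ⁻¹' (Prod.swap ⁻¹' Fw a M (rd M n') t' s' N2)) := c2
          obtain ⟨z, ⟨x, ⟨v, hv, rfl⟩, hxz, hns, hlate⟩, ⟨y, ⟨v', hv', rfl⟩, hyz, hns', hlate'⟩⟩ :=
            meet c1 c3
          refine ⟨((v : UnitAddCircle), (s : UnitAddCircle)), v - t, v' - t', hv, hv', ?_, ?_, ?_⟩
          · rw [AddCircle.coe_sub]
            simp only
            congr 1
            abel
          · have e : N = N2 + N1 := by omega
            have h1 : z = (Si a)^[N2] (Prod.swap ((v' : UnitAddCircle), (s' : UnitAddCircle))) := by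
              rw [← swap_S_iter, hyz, Prod.swap_swap]
            rw [e, iterate_add_apply, hxz, h1, S_iter_Si, AddCircle.coe_sub]
            show ((s' : UnitAddCircle), (v' : UnitAddCircle)) = _
            congr 1
            abel
          · intro k hk
            set x := (((v : UnitAddCircle), (s : UnitAddCircle)) : T2) with hx
            -- the orbit after the meeting point
            have hback : ∀ j, j + 1 ≤ N2 → ((S a)^[N1 + j] x).1 =
                ((S a)^[N2 - 1 - j] ((v' : UnitAddCircle), (s' : UnitAddCircle))).1 := by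
              intro j hj
              have h1 : (S a)^[j + 1] z = Prod.swap ((S a)^[N2 - 1 - j]
                  ((v' : UnitAddCircle), (s' : UnitAddCircle))) := by
                have h2 : z = (Si a)^[j + 1] ((Si a)^[N2 - 1 - j]
                    (Prod.swap ((v' : UnitAddCircle), (s' : UnitAddCircle)))) := by
                  rw [← iterate_add_apply, show j + 1 + (N2 - 1 - j) = N2 by omega,
                    ← swap_S_iter, hyz, Prod.swap_swap]
                rw [h2, S_iter_Si, ← swap_S_iter]
              have h3 : ((S a)^[N1 + j] x).1 = ((S a)^[j + 1] z).2 := by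
                rw [iterate_succ_apply', add_comm N1 j, iterate_add_apply, hxz]
                rfl
              rw [h3, h1]
              rfl
            rcases Nat.lt_or_ge (k + 1) N1 with h3 | h3
            · exact hns k (by omega)
            · rcases Nat.eq_or_lt_of_le h3 with h4 | h4
              · -- the meeting point
                have e2 : ((S a)^[k] x).1 = ((S a)^[N1] x).2 := by
                  rw [h4, iterate_succ_apply']
                  rfl
                rw [e2, ← h4, hxz, abs_mul]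
                have q2 : 10 * M ≤ |Lc a z.1| := hlate'
                have q3 : (10 * M) * (10 * M) ≤ |Lc a z.2| * |Lc a z.1| :=
                  mul_le_mul hlate q2 (by positivity) (abs_nonneg _)
                nlinarith
              · obtain ⟨j, hj⟩ : ∃ j, k = N1 + j := ⟨k - N1, by omega⟩
                rw [hj, hback j (by omega), show N1 + j + 1 = N1 + (j + 1) by omega,
                  hback (j + 1) (by omega)]
                have h5 := hns' (N2 - 1 - (j + 1)) (by omega)
                rw [show N2 - 1 - (j + 1) + 1 = N2 - 1 - j by omega] at h5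
                rw [mul_comm]
                exact h5

end Pool.Agent.H52.GEO
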