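import Mathlib
import Pool.Graph.R_seed8.TH705.SM.Chain

set_option autoImplicit false

/-!
# A shadowing lemma
-/

namespace Pool.Agent.H52.GEO

open Real MeasureTheory Function Set Filter Topology
open Pool.Agent.TH705.SM

/-- the nonlinear part -/
noncomputable def Rn (a t x : ℝ) : ℝ :=
  a * (sin (2 * π * (t + x)) - sin (2 * π * t)) - 2 * π * a * cos (2 * π * t) * x

theorem Rn_zero (a t : ℝ) : Rn a t 0 = 0 := by
  unfold Rn
  simp

theorem Rn_cont (a t : ℝ) : Continuous (Rn a t) := by
  unfold Rn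
  fun_prop

theorem Rn_lip {a t G x y : ℝ} (hx : |x| ≤ G) (hy : |y| ≤ G) :
    |Rn a t x - Rn a t y| ≤ 4 * π ^ 2 * |a| * G * |x - y| := by
  have hpi := pi_pos
  have hG : 0 ≤ G := (abs_nonneg _).trans hx
  have hd : ∀ z : ℝ, HasDerivAt (Rn a t) (2 * π * a * (cos (2 * π * (t + z)) -
      cos (2 * π * t))) z := by
    intro z
    have h1 : HasDerivAt (fun z => 2 * π * (t + z)) (2 * π) z := by
      simpa using ((hasDerivAt_id z).const_add t).const_mul (2 * π)
    have h2 := ((h1.sin.sub_const (sin (2 * π * t))).const_mul a).sub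
      ((hasDerivAt_id z).const_mul (2 * π * a * cos (2 * π * t)))
    refine HasDerivAt.congr_deriv (f := Rn a t) h2 ?_
    ring
  have hb : ∀ z ∈ Icc (-G) G, ‖2 * π * a * (cos (2 * π * (t + z)) - cos (2 * π * t))‖ ≤
      4 * π ^ 2 * |a| * G := by
    intro z hz
    have hz' : |z| ≤ G := abs_le.2 hz
    rw [norm_eq_abs, abs_mul, abs_mul, abs_of_pos (by positivity : (0:ℝ) < 2 * π)]
    have h1 : |cos (2 * π * (t + z)) - cos (2 * π * t)| ≤ 2 * π * G := by
      have h2 := abs_cos_sub_cos_le (2 * π * (t + z)) (2 * π * t)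
      have e : 2 * π * (t + z) - 2 * π * t = 2 * π * z := by ring
      rw [e, abs_mul, abs_of_pos (by positivity : (0:ℝ) < 2 * π)] at h2
      exact h2.trans (mul_le_mul_of_nonneg_left hz' (by positivity))
    calc 2 * π * |a| * |cos (2 * π * (t + z)) - cos (2 * π * t)| ≤ 2 * π * |a| * (2 * π * G) :=
          mul_le_mul_of_nonneg_left h1 (by positivity)
      _ = _ := by ring
  have h := (convex_Icc (-G) G).norm_image_sub_le_of_norm_hasDerivWithin_le
    (fun z _ => (hd z).hasDerivWithinAt) hb (abs_le.1 hy) (abs_le.1 hx)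
  rw [norm_eq_abs, norm_eq_abs] at h
  exact h

section

variable {ι : Type*} (σ τ : ι → ι) (c ε g t : ι → ℝ) (a : ℝ) (I : Set ι)

open Classical in
/-- the approximations -/
noncomputable def VV : ℕ → ι → ℝ
  | 0, _ => 0
  | j + 1, i => if i ∈ I then (VV j (σ i) + c i * VV j (τ i) + ε i - Rn a (t i) (VV j i)) /
      L a (t i) else 0

variable {σ τ c ε g t a I}

theorem VV_succ {i : ι} (hi : i ∈ I) (j : ℕ) : VV σ τ c ε t a I (j + 1) i =
    (VV σ τ c ε t a I j (σ i) + c i * VV σ τ c ε t a I j (τ i) + ε i -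
      Rn a (t i) (VV σ τ c ε t a I j i)) / L a (t i) := by
  conv_lhs => unfold VV
  rw [if_pos hi]

theorem shadow (hg : ∀ i ∈ I, 0 < g i) (hσ : ∀ i ∈ I, σ i ∈ I)
    (hτ : ∀ i ∈ I, τ i ∈ I ∨ c i = 0)
    (h1 : ∀ i ∈ I, g (σ i) + |c i| * g (τ i) ≤ 3 / 4 * (|L a (t i)| * g i))
    (h2 : ∀ i ∈ I, |ε i| ≤ 1 / 8 * (|L a (t i)| * g i))
    (h3 : ∀ i ∈ I, 4 * π ^ 2 * |a| * g i ≤ 1 / 16 * |L a (t i)|)
    (hL : ∀ i ∈ I, L a (t i) ≠ 0) :
    ∃ v : ι → ℝ, (∀ i ∈ I, |v i| ≤ g i) ∧ (∀ i ∈ I,
      2 * v i + a * (sin (2 * π * (t i + v i)) - sin (2 * π * t i)) =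
        v (σ i) + c i * v (τ i) + ε i) ∧
      ∀ i ∈ I, ∀ l, |VV σ τ c ε t a I l i - v i| ≤ g i * (13 / 16) ^ l / (1 - 13 / 16) := by
  set V := VV σ τ c ε t a I with hV
  have hA : ∀ j, ∀ i ∈ I, |V j i| ≤ g i := by
    intro j
    induction j with
    | zero =>
      intro i hi
      show |(0:ℝ)| ≤ g i
      rw [abs_zero]
      exact (hg i hi).le
    | succ j ih =>
      intro i hi
      have hgi := hg i hi
      have hLi : 0 < |L a (t i)| := abs_pos.2 (hL i hi)
      rw [hV, VV_succ hi, ← hV, abs_div, div_le_iff₀ hLi]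
      have e1 := ih _ (hσ i hi)
      have e2 : |c i * V j (τ i)| ≤ |c i| * g (τ i) := by
        rw [abs_mul]
        rcases hτ i hi with h | h
        · exact mul_le_mul_of_nonneg_left (ih _ h) (abs_nonneg _)
        · rw [h, abs_zero, zero_mul, zero_mul]
      have e3 : |Rn a (t i) (V j i)| ≤ 1 / 16 * |L a (t i)| * g i := by
        have q := Rn_lip (a := a) (t := t i) (ih i hi) (by rw [abs_zero]; exact hgi.le)
        rw [Rn_zero, sub_zero, sub_zero] at q
        refine q.trans (mul_le_mul (h3 i hi) (ih i hi) (abs_nonneg _) (by positivity))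
      have e4 := h1 i hi
      have e5 := h2 i hi
      have e6 : |V j (σ i) + c i * V j (τ i) + ε i - Rn a (t i) (V j i)| ≤
          |V j (σ i)| + |c i * V j (τ i)| + |ε i| + |Rn a (t i) (V j i)| := by
        refine (abs_sub _ _).trans ?_
        have := abs_add_three (V j (σ i)) (c i * V j (τ i)) (ε i)
        linarith
      have e7 : 0 < |L a (t i)| * g i := by positivity
      refine e6.trans ?_
      linarith
  have hB : ∀ j, ∀ i ∈ I, |V (j + 1) i - V j i| ≤ (13 / 16) ^ j * g i := by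
    intro j
    induction j with
    | zero =>
      intro i hi
      have h := hA 1 i hi
      show |V (0 + 1) i - 0| ≤ _
      rw [sub_zero, pow_zero, one_mul]
      exact h
    | succ j ih =>
      intro i hi
      have hgi := hg i hi
      have hLi : 0 < |L a (t i)| := abs_pos.2 (hL i hi)
      have hd : (0:ℝ) ≤ (13 / 16) ^ j := by positivity
      have s1 : V (j + 1 + 1) i = (V (j + 1) (σ i) + c i * V (j + 1) (τ i) + ε i -
          Rn a (t i) (V (j + 1) i)) / L a (t i) := VV_succ hi (j + 1)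
      have s2 : V (j + 1) i = (V j (σ i) + c i * V j (τ i) + ε i - Rn a (t i) (V j i)) /
          L a (t i) := VV_succ hi j
      have s3 : V (j + 1 + 1) i - V (j + 1) i = (V (j + 1) (σ i) + c i * V (j + 1) (τ i) + ε i -
          Rn a (t i) (V (j + 1) i) - (V j (σ i) + c i * V j (τ i) + ε i - Rn a (t i) (V j i))) /
          L a (t i) := by
        rw [sub_div, ← s1, ← s2]
      rw [s3, abs_div, div_le_iff₀ hLi]
      have e0 : V (j + 1) (σ i) + c i * V (j + 1) (τ i) + ε i - Rn a (t i) (V (j + 1) i) -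
          (V j (σ i) + c i * V j (τ i) + ε i - Rn a (t i) (V j i)) =
          (V (j + 1) (σ i) - V j (σ i)) + c i * (V (j + 1) (τ i) - V j (τ i)) -
            (Rn a (t i) (V (j + 1) i) - Rn a (t i) (V j i)) := by ring
      have e1 := ih _ (hσ i hi)
      have e2 : |c i * (V (j + 1) (τ i) - V j (τ i))| ≤ |c i| * ((13 / 16) ^ j * g (τ i)) := by
        rw [abs_mul]
        rcases hτ i hi with h | h
        · exact mul_le_mul_of_nonneg_left (ih _ h) (abs_nonneg _)
        · rw [h, abs_zero, zero_mul, zero_mul]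
      have e3 : |Rn a (t i) (V (j + 1) i) - Rn a (t i) (V j i)| ≤
          1 / 16 * |L a (t i)| * ((13 / 16) ^ j * g i) := by
        refine (Rn_lip (a := a) (t := t i) (hA _ i hi) (hA _ i hi)).trans ?_
        exact mul_le_mul (h3 i hi) (ih i hi) (abs_nonneg _) (by positivity)
      have e4 := mul_le_mul_of_nonneg_left (h1 i hi) hd
      rw [e0]
      refine (abs_sub _ _).trans ?_
      have e6 := abs_add_le (V (j + 1) (σ i) - V j (σ i)) (c i * (V (j + 1) (τ i) - V j (τ i)))
      rw [pow_succ]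
      nlinarith
  have hC : ∀ i, ∃ l : ℝ, i ∈ I → Tendsto (fun j => V j i) atTop (𝓝 l) := by
    intro i
    by_cases hi : i ∈ I
    · have hc : CauchySeq (fun j => V j i) := by
        apply cauchySeq_of_le_geometric (13 / 16) (g i) (by norm_num)
        intro j
        rw [dist_comm, Real.dist_eq, mul_comm]
        exact hB j i hi
      obtain ⟨l, hl⟩ := cauchySeq_tendsto_of_complete hc
      exact ⟨l, fun _ => hl⟩
    · exact ⟨0, fun h => absurd h hi⟩
  choose v hv using hC
  refine ⟨v, ?_, ?_, ?_⟩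
  · intro i hi
    exact le_of_tendsto (hv i hi).abs (Eventually.of_forall fun j => hA j i hi)
  · intro i hi
    have t1 : Tendsto (fun j => V (j + 1) i * L a (t i)) atTop (𝓝 (v i * L a (t i))) :=
      ((tendsto_add_atTop_iff_nat 1).2 (hv i hi)).mul_const _
    have t2 : Tendsto (fun j => V j (σ i) + c i * V j (τ i) + ε i - Rn a (t i) (V j i)) atTop
        (𝓝 (v (σ i) + c i * v (τ i) + ε i - Rn a (t i) (v i))) := by
      have q1 := hv _ (hσ i hi)
      have q2 : Tendsto (fun j => c i * V j (τ i)) atTop (𝓝 (c i * v (τ i))) := by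
        rcases hτ i hi with h | h
        · exact (hv _ h).const_mul _
        · rw [h]
          simp
      have q3 := ((Rn_cont a (t i)).tendsto (v i)).comp (hv i hi)
      exact ((q1.add q2).add_const _).sub q3
    have e : (fun j => V (j + 1) i * L a (t i)) =
        fun j => V j (σ i) + c i * V j (τ i) + ε i - Rn a (t i) (V j i) := by
      funext j
      rw [hV, VV_succ hi, ← hV]
      field_simp [hL i hi]
    rw [e] at t1
    have h5 := tendsto_nhds_unique t1 t2
    unfold Rn L at h5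
    linarith
  · intro i hi l
    rw [← Real.dist_eq]
    apply dist_le_of_le_geometric_of_tendsto (13 / 16) (g i) (by norm_num) _ (hv i hi) l
    intro j
    rw [dist_comm, Real.dist_eq, mul_comm]
    exact hB j i hi

end

end Pool.Agent.H52.GEO
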