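import Mathlib
import Pool.Agent.H52.STD.Wd1
import Pool.Agent.H52.STD.Wd2

set_option autoImplicit false

/-!
# Shadowing a chain of connecting orbit segments
-/

namespace Pool.Agent.H52.GEO

open Real MeasureTheory Function Set Filter Topology
open Pool.Agent.TH705.SM Pool.Agent.Y332.SM Pool.Agent.N317.SM
open scoped ENNReal

/-- a chain of connecting orbit segments -/
structure Dat (a : ℝ) (J : Type*) where
  s : J → J
  q : J → J
  c : J → ℝ
  N : J → ℕ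
  p : J → T2
  x : J → T2
  u : J → ℝ
  u' : J → ℝ
  r : J → ℝ
  ha : 256 ≤ |a|
  hs1 : ∀ j, q (s j) = j
  hs2 : ∀ j, c (s j) = 1
  hc : ∀ j, c j = 0 ∨ (c j = 1 ∧ s (q j) = j)
  hN : ∀ j, 2 ≤ N j
  hr0 : ∀ j, 0 < r j
  hr : ∀ j, r j ≤ 1 / |a| ^ 5
  hu : ∀ j, |u j| ≤ r j
  hu' : ∀ j, |u' j| ≤ r (s j)
  hx : ∀ j, x j = ((p j).1 + (u j : UnitAddCircle), (p j).2)
  hxe : ∀ j, (S a)^[N j] (x j) = ((p (s j)).1, (p (s j)).2 + (u' j : UnitAddCircle))
  hns : ∀ j, NoSmall a (N j) (x j)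
  hpp : ∀ j, 16 ≤ |Lc a (p j).1 * Lc a (p j).2|
  hg1 : ∀ j, r j * (7 / 10) ^ (N j) ≤ r (s j)
  hg2 : ∀ j, r (s j) * (7 / 10) ^ (N j) ≤ r j

theorem rep_ex : ∃ rep : UnitAddCircle → ℝ, ∀ z, (rep z : UnitAddCircle) = z := by
  have h : ∀ z : UnitAddCircle, ∃ x : ℝ, (x : UnitAddCircle) = z := fun z =>
    QuotientAddGroup.mk_surjective z
  choose rep hrep using h
  exact ⟨rep, hrep⟩

/-- representatives -/
noncomputable def rep : UnitAddCircle → ℝ := rep_ex.choose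

theorem rep_coe (z : UnitAddCircle) : (rep z : UnitAddCircle) = z := rep_ex.choose_spec z

theorem Lc_rep (a : ℝ) (z : UnitAddCircle) : L a (rep z) = Lc a z := by
  rw [← Lc_coe, rep_coe]

theorem Lc_le {a : ℝ} (ha : 256 ≤ |a|) (z : UnitAddCircle) : |Lc a z| ≤ 7 * |a| := by
  rw [← Lc_rep]
  have := Pool.Agent.K7.H81.SL.L_le a (rep z)
  have h2 := pi_lt_d2
  nlinarith

theorem Lc_pert (a : ℝ) (z : UnitAddCircle) (w : ℝ) :
    |Lc a (z + (w : UnitAddCircle)) - Lc a z| ≤ 40 * |a| * |w| := by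
  have e : z + (w : UnitAddCircle) = ((rep z + w : ℝ) : UnitAddCircle) := by
    rw [AddCircle.coe_add, rep_coe]
  rw [e, Lc_coe, ← Lc_rep a z]
  have h := L_lip a (rep z + w) (rep z)
  have e2 : rep z + w - rep z = w := by ring
  rw [e2] at h
  refine h.trans ?_
  have hpi : π ^ 2 ≤ 10 := by
    have := pi_lt_d2
    have := pi_pos
    nlinarith
  have h3 : 0 ≤ |a| * |w| := by positivity
  nlinarith

theorem pair_pert {a : ℝ} (ha : 256 ≤ |a|) {y z : UnitAddCircle} {w w' : ℝ}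
    (h : 16 ≤ |Lc a y * Lc a z|) (hw : |w| ≤ 1 / |a| ^ 5) (hw' : |w'| ≤ 1 / |a| ^ 5) :
    15 ≤ |Lc a (y + (w : UnitAddCircle)) * Lc a (z + (w' : UnitAddCircle))| := by
  have ha0 : 0 < |a| := by linarith
  have h1 := Lc_pert a y w
  have h2 := Lc_pert a z w'
  have h3 := Lc_le ha (y + (w : UnitAddCircle))
  have h4 := Lc_le ha z
  set P := Lc a y
  set Q := Lc a z
  set P' := Lc a (y + (w : UnitAddCircle))
  set Q' := Lc a (z + (w' : UnitAddCircle))
  have e : P * Q - P' * Q' = -((P' - P) * Q + P' * (Q' - Q)) := by ring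
  have h5 : |P * Q - P' * Q'| ≤ 1 := by
    rw [e, abs_neg]
    refine (abs_add_le _ _).trans ?_
    rw [abs_mul, abs_mul]
    have q1 : |P' - P| ≤ 40 * |a| * (1 / |a| ^ 5) :=
      h1.trans (mul_le_mul_of_nonneg_left hw (by positivity))
    have q2 : |Q' - Q| ≤ 40 * |a| * (1 / |a| ^ 5) :=
      h2.trans (mul_le_mul_of_nonneg_left hw' (by positivity))
    have q3 : |P' - P| * |Q| ≤ 40 * |a| * (1 / |a| ^ 5) * (7 * |a|) :=
      mul_le_mul q1 h4 (abs_nonneg _) (by positivity)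
    have q4 : |P'| * |Q' - Q| ≤ 7 * |a| * (40 * |a| * (1 / |a| ^ 5)) :=
      mul_le_mul h3 q2 (abs_nonneg _) (by positivity)
    have q5 : 40 * |a| * (1 / |a| ^ 5) * (7 * |a|) + 7 * |a| * (40 * |a| * (1 / |a| ^ 5)) =
        560 / |a| ^ 3 := by
      field_simp
      norm_num
    have q6 : 560 / |a| ^ 3 ≤ 1 := by
      rw [div_le_one (by positivity)]
      have : (256:ℝ) ^ 3 ≤ |a| ^ 3 := pow_le_pow_left₀ (by norm_num) ha 3
      linarith
    linarith
  have h6 := abs_sub_abs_le_abs_sub (P * Q) (P' * Q')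
  linarith

namespace Dat

variable {a : ℝ} {J : Type*} (D : Dat a J)

/-- the admissible indices -/
def I : Set (J × ℕ) := {i | 1 ≤ i.2 ∧ i.2 ≤ D.N i.1}

/-- next index -/
def σ (i : J × ℕ) : J × ℕ := if i.2 < D.N i.1 then (i.1, i.2 + 1) else (D.s i.1, 1)

/-- previous index -/
def τ (i : J × ℕ) : J × ℕ := if i.2 = 1 then (D.q i.1, D.N (D.q i.1)) else (i.1, i.2 - 1)

/-- coefficient of the previous index -/
def cc (i : J × ℕ) : ℝ := if i.2 = 1 then D.c i.1 else 1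

/-- points of the pseudo-orbit -/
noncomputable def t (i : J × ℕ) : ℝ := rep ((S a)^[i.2 - 1] (D.x i.1)).1

/-- errors -/
def ε (i : J × ℕ) : ℝ := (if i.2 = D.N i.1 then D.u (D.s i.1) else 0) +
  (if i.2 = 1 then D.c i.1 * D.u' (D.q i.1) else 0)

/-- profile -/
noncomputable def δ (i : J × ℕ) : ℝ :=
  max (D.r i.1 * (7 / 10) ^ i.2) (D.r (D.s i.1) * (7 / 10) ^ (D.N i.1 - i.2))

/-- slopes -/
noncomputable def ℓ (i : J × ℕ) : ℝ := |L a (D.t i)|

theorem ℓ_eq (i : J × ℕ) : D.ℓ i = |Lc a ((S a)^[i.2 - 1] (D.x i.1)).1| := by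
  unfold ℓ t
  rw [Lc_rep]

theorem σ_mem {i : J × ℕ} (hi : i ∈ D.I) : D.σ i ∈ D.I := by
  unfold σ
  split_ifs with h
  · exact ⟨by simp, h⟩
  · have := D.hN (D.s i.1)
    exact ⟨le_rfl, by show 1 ≤ D.N (D.s i.1); omega⟩

theorem τ_mem {i : J × ℕ} (hi : i ∈ D.I) : D.τ i ∈ D.I := by
  obtain ⟨h1, h2⟩ := hi
  unfold τ
  split_ifs with h
  · have := D.hN (D.q i.1)
    exact ⟨by show 1 ≤ D.N (D.q i.1); omega, le_rfl⟩
  · exact ⟨by show 1 ≤ i.2 - 1; omega, by show i.2 - 1 ≤ D.N i.1; omega⟩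

theorem cc_or (i : J × ℕ) : D.cc i = 0 ∨ D.cc i = 1 := by
  unfold cc
  split_ifs with h
  · rcases D.hc i.1 with h1 | h1
    · exact Or.inl h1
    · exact Or.inr h1.1
  · exact Or.inr rfl

/-- the predecessor is a predecessor -/
theorem σ_τ {i : J × ℕ} (hi : i ∈ D.I) (hc : D.cc i = 1) : D.σ (D.τ i) = i := by
  obtain ⟨j, k⟩ := i
  obtain ⟨h1, h2⟩ := hi
  simp only at h1 h2
  unfold cc at hc
  simp only at hc
  unfold τ
  by_cases hk : k = 1
  · subst hk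
    rw [if_pos rfl] at hc
    rw [if_pos rfl]
    unfold σ
    simp only [lt_irrefl, if_false]
    rcases D.hc j with h3 | h3
    · rw [h3] at hc
      norm_num at hc
    · rw [h3.2]
  · rw [if_neg hk]
    unfold σ
    simp only
    rw [if_pos (by omega), Nat.sub_add_cancel h1]

theorem x_next (j : J) : ((S a)^[D.N j - 1] (D.x j)).1 =
    (D.p (D.s j)).2 + (D.u' j : UnitAddCircle) := by
  have hN := D.hN j
  have e : ((S a)^[D.N j - 1] (D.x j)).1 = ((S a)^[D.N j] (D.x j)).2 := by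
    conv_rhs => rw [show D.N j = D.N j - 1 + 1 by omega, iterate_succ_apply']
    rfl
  rw [e, D.hxe]

theorem pair {i : J × ℕ} (hi : i ∈ D.I) : 15 ≤ D.ℓ i * D.ℓ (D.σ i) := by
  obtain ⟨j, k⟩ := i
  obtain ⟨h1, h2⟩ := hi
  simp only at h1 h2
  rw [ℓ_eq, ℓ_eq, ← abs_mul]
  unfold σ
  simp only
  by_cases hk : k < D.N j
  · rw [if_pos hk]
    have h := D.hns j (k - 1) (by omega)
    rw [Nat.sub_add_cancel h1] at h
    simpa using h
  · rw [if_neg hk]
    have e : k = D.N j := by omega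
    subst e
    simp only [le_refl, Nat.sub_self, iterate_zero, id]
    rw [D.x_next, D.hx (D.s j), mul_comm]
    exact pair_pert D.ha (D.hpp (D.s j)) ((D.hu (D.s j)).trans (D.hr _))
      ((D.hu' j).trans (D.hr _))

theorem ℓ_le (i : J × ℕ) : D.ℓ i ≤ 7 * |a| := by
  rw [ℓ_eq]
  exact Lc_le D.ha _

theorem ℓ_ge {i : J × ℕ} (hi : i ∈ D.I) : 2 / |a| ≤ D.ℓ i := by
  have ha := D.ha
  have ha0 : 0 < |a| := by linarith
  have h1 := D.pair hi
  have h2 := D.ℓ_le (D.σ i)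
  have h3 : 0 ≤ D.ℓ i := abs_nonneg _
  rw [div_le_iff₀ ha0]
  have h4 : D.ℓ i * D.ℓ (D.σ i) ≤ D.ℓ i * (7 * |a|) := mul_le_mul_of_nonneg_left h2 h3
  linarith

theorem ℓ_pos {i : J × ℕ} (hi : i ∈ D.I) : 0 < D.ℓ i := by
  have ha := D.ha
  have ha0 : 0 < |a| := by linarith
  exact lt_of_lt_of_le (by positivity) (D.ℓ_ge hi)

theorem δ_pos (i : J × ℕ) : 0 < D.δ i := by
  unfold δ
  have := D.hr0 i.1
  exact lt_max_of_lt_left (by positivity)

theorem δ_le (i : J × ℕ) : D.δ i ≤ 1 / |a| ^ 5 := by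
  unfold δ
  have h1 := D.hr0 i.1
  have h2 := D.hr i.1
  have h3 := D.hr0 (D.s i.1)
  have h4 := D.hr (D.s i.1)
  apply max_le
  · refine le_trans ?_ h2
    exact mul_le_of_le_one_right h1.le (pow_le_one₀ (by norm_num) (by norm_num))
  · refine le_trans ?_ h4
    exact mul_le_of_le_one_right h3.le (pow_le_one₀ (by norm_num) (by norm_num))

theorem δ_σ {i : J × ℕ} (hi : i ∈ D.I) : D.δ (D.σ i) ≤ D.δ i * (10 / 7) := by
  obtain ⟨j, k⟩ := i
  obtain ⟨h1, h2⟩ := hi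
  simp only at h1 h2
  have r0 := D.hr0 j
  have r1 := D.hr0 (D.s j)
  unfold σ
  simp only
  by_cases hk : k < D.N j
  · rw [if_pos hk]
    unfold δ
    simp only
    apply max_le
    · have h3 : D.r j * (7 / 10) ^ k ≤
        max (D.r j * (7 / 10) ^ k) (D.r (D.s j) * (7 / 10) ^ (D.N j - k)) := le_max_left _ _
      rw [pow_succ]
      have h4 : 0 < D.r j * (7 / 10) ^ k := by positivity
      linarith
    · have h3 : D.r (D.s j) * (7 / 10) ^ (D.N j - k) ≤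
        max (D.r j * (7 / 10) ^ k) (D.r (D.s j) * (7 / 10) ^ (D.N j - k)) := le_max_right _ _
      have e : D.N j - k = (D.N j - (k + 1)) + 1 := by omega
      rw [e, pow_succ] at h3 ⊢
      linarith
  · rw [if_neg hk]
    have e : k = D.N j := by omega
    subst e
    unfold δ
    simp only
    have h3 : D.r (D.s j) ≤ max (D.r j * (7 / 10) ^ (D.N j))
        (D.r (D.s j) * (7 / 10) ^ (D.N j - D.N j)) := by
      refine le_trans ?_ (le_max_right _ _)
      rw [Nat.sub_self, pow_zero, mul_one]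
    apply max_le
    · rw [pow_one]
      linarith
    · have h4 := D.hg2 (D.s j)
      have hN := D.hN (D.s j)
      have e : D.N (D.s j) = (D.N (D.s j) - 1) + 1 := by omega
      rw [e, pow_succ] at h4
      linarith

theorem δ_τ {i : J × ℕ} (hi : i ∈ D.I) (hc : D.cc i = 1) : D.δ (D.τ i) ≤ D.δ i * (10 / 7) := by
  obtain ⟨j, k⟩ := i
  obtain ⟨h1, h2⟩ := hi
  simp only at h1 h2
  have r0 := D.hr0 j
  have r1 := D.hr0 (D.s j)
  unfold cc at hc
  simp only at hc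
  unfold τ
  simp only
  by_cases hk : k = 1
  · subst hk
    rw [if_pos rfl] at hc
    rw [if_pos rfl]
    rcases D.hc j with h3 | h3
    · rw [h3] at hc
      norm_num at hc
    · unfold δ
      simp only
      have h5 := D.hg1 (D.q j)
      rw [h3.2] at h5 ⊢
      have h6 : D.r j * (7 / 10) ^ 1 ≤ max (D.r j * (7 / 10) ^ 1)
        (D.r (D.s j) * (7 / 10) ^ (D.N j - 1)) := le_max_left _ _
      rw [pow_one] at h6
      apply max_le
      · rw [pow_one]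
        linarith
      · rw [Nat.sub_self, pow_zero, mul_one, pow_one]
        linarith
  · rw [if_neg hk]
    unfold δ
    simp only
    apply max_le
    · have h3 : D.r j * (7 / 10) ^ k ≤
        max (D.r j * (7 / 10) ^ k) (D.r (D.s j) * (7 / 10) ^ (D.N j - k)) := le_max_left _ _
      have e : k = (k - 1) + 1 := by omega
      have e2 : (7 / 10 : ℝ) ^ k = (7 / 10) ^ (k - 1) * (7 / 10) := by
        conv_lhs => rw [e, pow_succ]
      rw [e2] at h3 ⊢
      linarith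
    · have h3 : D.r (D.s j) * (7 / 10) ^ (D.N j - k) ≤
        max (D.r j * (7 / 10) ^ k) (D.r (D.s j) * (7 / 10) ^ (D.N j - k)) := le_max_right _ _
      have e : D.N j - (k - 1) = (D.N j - k) + 1 := by omega
      rw [e, pow_succ]
      have h4 : 0 < D.r (D.s j) * (7 / 10) ^ (D.N j - k) := by positivity
      linarith

theorem ε_le {i : J × ℕ} (hi : i ∈ D.I) : |D.ε i| ≤ D.δ i * (10 / 7) := by
  obtain ⟨j, k⟩ := i
  obtain ⟨h1, h2⟩ := hi
  simp only at h1 h2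
  have hN := D.hN j
  have r0 := D.hr0 j
  have r1 := D.hr0 (D.s j)
  unfold ε
  simp only
  by_cases hk : k = 1
  · subst hk
    rw [if_neg (by omega), if_pos rfl, zero_add]
    have h6 : D.r j * (7 / 10) ^ 1 ≤ D.δ (j, 1) := le_max_left _ _
    rw [pow_one] at h6
    rcases D.hc j with h3 | h3
    · rw [h3, zero_mul, abs_zero]
      have := D.δ_pos (j, 1)
      positivity
    · have h5 := D.hu' (D.q j)
      rw [h3.2] at h5
      rw [h3.1, one_mul]
      linarith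
  · rw [if_neg hk, add_zero]
    have hp := D.δ_pos (j, k)
    split_ifs with h
    · subst h
      have h3 : D.r (D.s j) ≤ D.δ (j, D.N j) := by
        refine le_trans ?_ (le_max_right _ _)
        simp only
        rw [Nat.sub_self, pow_zero, mul_one]
      have h5 := D.hu (D.s j)
      linarith
    · rw [abs_zero]
      positivity

/-- square roots of the slopes -/
noncomputable def m (i : J × ℕ) : ℝ := √(D.ℓ i)

theorem m_sq (i : J × ℕ) : D.m i ^ 2 = D.ℓ i := Real.sq_sqrt (abs_nonneg _)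

theorem m_pos {i : J × ℕ} (hi : i ∈ D.I) : 0 < D.m i := Real.sqrt_pos.2 (D.ℓ_pos hi)

theorem m_mul {i : J × ℕ} (hi : i ∈ D.I) : 387 / 100 ≤ D.m i * D.m (D.σ i) := by
  have h1 := D.m_pos hi
  have h2 := D.m_pos (D.σ_mem hi)
  have h3 := D.pair hi
  rw [← m_sq, ← m_sq, ← mul_pow] at h3
  by_contra hcon
  rw [not_le] at hcon
  have h4 : 0 < D.m i * D.m (D.σ i) := by positivity
  nlinarith

theorem m_ge {i : J × ℕ} (hi : i ∈ D.I) : 7 / 5 ≤ √|a| * D.m i := by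
  have ha := D.ha
  have ha0 : 0 < |a| := by linarith
  have h1 := D.m_pos hi
  have h2 := D.ℓ_ge hi
  have h3 : 0 < √|a| := Real.sqrt_pos.2 ha0
  have h4 : √|a| ^ 2 = |a| := Real.sq_sqrt ha0.le
  rw [div_le_iff₀ ha0, ← m_sq, ← h4] at h2
  by_contra hcon
  rw [not_le] at hcon
  have h5 : 0 < √|a| * D.m i := by positivity
  nlinarith

/-- the size of the corrections -/
noncomputable def g (i : J × ℕ) : ℝ := 9 * √|a| * D.δ i / D.m i

theorem g_pos {i : J × ℕ} (hi : i ∈ D.I) : 0 < D.g i := by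
  have ha := D.ha
  have ha0 : 0 < |a| := by linarith
  have h1 := D.m_pos hi
  have h2 := D.δ_pos i
  have h3 : 0 < √|a| := Real.sqrt_pos.2 ha0
  unfold g
  positivity

theorem ℓ_g {i : J × ℕ} (hi : i ∈ D.I) : D.ℓ i * D.g i = 9 * √|a| * D.δ i * D.m i := by
  have h1 := D.m_pos hi
  rw [← m_sq]
  unfold g
  field_simp

theorem g_next {i i' : J × ℕ} (hi : i ∈ D.I) (hi' : i' ∈ D.I) (hδ : D.δ i' ≤ D.δ i * (10 / 7))
    (hm : 387 / 100 ≤ D.m i * D.m i') : D.g i' ≤ 3 / 8 * (D.ℓ i * D.g i) := by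
  have ha := D.ha
  have ha0 : 0 < |a| := by linarith
  have h1 := D.m_pos hi
  have h1' := D.m_pos hi'
  have h2 := D.δ_pos i
  have h3 : 0 < √|a| := Real.sqrt_pos.2 ha0
  rw [ℓ_g _ hi]
  unfold g
  rw [div_le_iff₀ h1']
  have e : 3 / 8 * (9 * √|a| * D.δ i * D.m i) * D.m i' =
      9 * √|a| * D.δ i * (3 / 8 * (D.m i * D.m i')) := by ring
  rw [e]
  have h4 : 9 * √|a| * D.δ i' ≤ 9 * √|a| * (D.δ i * (10 / 7)) :=
    mul_le_mul_of_nonneg_left hδ (by positivity)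
  have h5 : 9 * √|a| * D.δ i * (10 / 7) ≤ 9 * √|a| * D.δ i * (3 / 8 * (D.m i * D.m i')) :=
    mul_le_mul_of_nonneg_left (by linarith) (by positivity)
  linarith

theorem H1 {i : J × ℕ} (hi : i ∈ D.I) :
    D.g (D.σ i) + |D.cc i| * D.g (D.τ i) ≤ 3 / 4 * (|L a (D.t i)| * D.g i) := by
  have h1 := D.g_next hi (D.σ_mem hi) (D.δ_σ hi) (D.m_mul hi)
  have e : |L a (D.t i)| = D.ℓ i := rfl
  rw [e]
  have h0 : 0 ≤ D.ℓ i * D.g i := mul_nonneg (D.ℓ_pos hi).le (D.g_pos hi).le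
  have h2 : |D.cc i| * D.g (D.τ i) ≤ 3 / 8 * (D.ℓ i * D.g i) := by
    rcases D.cc_or i with h | h
    · rw [h, abs_zero, zero_mul]
      linarith
    · rw [h, abs_one, one_mul]
      apply D.g_next hi (D.τ_mem hi) (D.δ_τ hi h)
      have h3 := D.m_mul (D.τ_mem hi)
      rw [D.σ_τ hi h, mul_comm] at h3
      exact h3
  linarith

theorem H2 {i : J × ℕ} (hi : i ∈ D.I) : |D.ε i| ≤ 1 / 8 * (|L a (D.t i)| * D.g i) := by
  have e : |L a (D.t i)| = D.ℓ i := rfl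
  rw [e, D.ℓ_g hi]
  have h1 := D.ε_le hi
  have h2 := D.m_ge hi
  have h3 := D.δ_pos i
  have h4 : D.δ i * (7 / 5) ≤ D.δ i * (√|a| * D.m i) := mul_le_mul_of_nonneg_left h2 h3.le
  have e2 : 1 / 8 * (9 * √|a| * D.δ i * D.m i) = 9 / 8 * (D.δ i * (√|a| * D.m i)) := by ring
  rw [e2]
  linarith

theorem H3 {i : J × ℕ} (hi : i ∈ D.I) : 4 * π ^ 2 * |a| * D.g i ≤ 1 / 16 * |L a (D.t i)| := by
  have e : |L a (D.t i)| = D.ℓ i := rfl
  rw [e, ← m_sq]
  have ha := D.ha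
  have ha0 : 0 < |a| := by linarith
  obtain ⟨b, hb⟩ : ∃ b, b = √|a| := ⟨_, rfl⟩
  have hb0 : 0 < b := by rw [hb]; exact Real.sqrt_pos.2 ha0
  have hb2 : |a| = b ^ 2 := by rw [hb]; exact (Real.sq_sqrt ha0.le).symm
  have hb16 : 16 ≤ b := by
    rw [hb]
    apply Real.le_sqrt_of_sq_le
    linarith
  have h1 := D.m_pos hi
  have h2 := D.m_ge hi
  rw [← hb] at h2
  have h3 := D.δ_le i
  have h30 := D.δ_pos i
  unfold g
  rw [← hb]
  rw [hb2] at h3 ⊢
  set m := D.m i with hm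
  set d := D.δ i with hd
  have hpi : π ^ 2 ≤ 10 := by
    have := pi_lt_d2
    have := pi_pos
    nlinarith
  rw [← mul_div_assoc, div_le_iff₀ h1]
  -- `m^3 ≥ (7/5)^3 / b^3`
  have h4 : (7 / 5 : ℝ) ^ 3 ≤ (b * m) ^ 3 := pow_le_pow_left₀ (by norm_num) h2 3
  have h5 : d * b ^ 10 ≤ 1 := by
    have e1 : (b ^ 2) ^ 5 = b ^ 10 := by ring
    rw [e1, le_div_iff₀ (by positivity)] at h3
    exact h3
  have h6 : 4 * π ^ 2 * b ^ 2 * (9 * b * d) ≤ 360 * (b ^ 3 * d) := by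
    have : 0 ≤ b ^ 3 * d := by positivity
    nlinarith
  have h7 : 360 * (b ^ 3 * d) * b ^ 3 ≤ 1 / 16 * m ^ 2 * m * b ^ 3 := by
    have e2 : 1 / 16 * m ^ 2 * m * b ^ 3 = 1 / 16 * (b * m) ^ 3 := by ring
    rw [e2]
    have e3 : 360 * (b ^ 3 * d) * b ^ 3 * b ^ 4 = 360 * (d * b ^ 10) := by ring
    have hb4 : (16:ℝ) ^ 4 ≤ b ^ 4 := pow_le_pow_left₀ (by norm_num) hb16 4
    have h8 : 360 * (b ^ 3 * d) * b ^ 3 ≤ 360 / b ^ 4 := by
      rw [le_div_iff₀ (by positivity), e3]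
      linarith
    have h9 : 360 / b ^ 4 ≤ 1 / 16 * (7 / 5 : ℝ) ^ 3 := by
      rw [div_le_iff₀ (by positivity)]
      norm_num at hb4 ⊢
      nlinarith
    linarith
  have h8 : 360 * (b ^ 3 * d) ≤ 1 / 16 * m ^ 2 * m := le_of_mul_le_mul_right h7 (by positivity)
  linarith

end Dat

end Pool.Agent.H52.GEO
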