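import Mathlib
import Pool.Agent.H52.STD.Wd3

set_option autoImplicit false

/-!
# The shadowing orbit
-/

namespace Pool.Agent.H52.GEO

open Real MeasureTheory Function Set Filter Topology
open Pool.Agent.TH705.SM Pool.Agent.Y332.SM Pool.Agent.N317.SM
open scoped ENNReal

namespace Dat

variable {a : ℝ} {J : Type*} (D : Dat a J)

theorem τ_σ {i : J × ℕ} (hi : i ∈ D.I) : D.τ (D.σ i) = i ∧ D.cc (D.σ i) = 1 := by
  obtain ⟨j, k⟩ := i
  obtain ⟨h1, h2⟩ := hi
  simp only at h1 h2
  unfold σ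
  simp only
  by_cases hk : k < D.N j
  · rw [if_pos hk]
    unfold τ cc
    simp only
    rw [if_neg (by omega), if_neg (by omega), Nat.add_sub_cancel]
    exact ⟨rfl, rfl⟩
  · rw [if_neg hk]
    have e : k = D.N j := by omega
    subst e
    unfold τ cc
    simp only [if_true]
    rw [D.hs1, D.hs2]
    exact ⟨rfl, rfl⟩

theorem t_coe (i : J × ℕ) : (D.t i : UnitAddCircle) = ((S a)^[i.2 - 1] (D.x i.1)).1 :=
  rep_coe _

open Classical in
/-- the previous point of the pseudo-orbit -/
noncomputable def P0 (i : J × ℕ) : ℝ := if D.cc i = 1 then D.t (D.τ i) else rep (D.p i.1).2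

theorem pseudo {i : J × ℕ} (hi : i ∈ D.I) :
    ((2 * D.t i - D.P0 i + a * sin (2 * π * D.t i) + D.ε i : ℝ) : UnitAddCircle) =
      (D.t (D.σ i) : UnitAddCircle) := by
  obtain ⟨j, k⟩ := i
  obtain ⟨h1, h2⟩ := hi
  simp only at h1 h2
  have hN := D.hN j
  obtain ⟨y, hy⟩ : ∃ y, y = (S a)^[k - 1] (D.x j) := ⟨_, rfl⟩
  have ht : (D.t (j, k) : UnitAddCircle) = y.1 := by rw [t_coe, hy]
  have hSy : S a y = (S a)^[k] (D.x j) := by
    rw [hy]
    conv_rhs => rw [show k = k - 1 + 1 by omega, iterate_succ_apply']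
  have hS1 : ((2 * D.t (j, k) - rep y.2 + a * sin (2 * π * D.t (j, k)) : ℝ) : UnitAddCircle) =
      ((S a)^[k] (D.x j)).1 := by
    rw [← hSy]
    have e : y = ((D.t (j, k) : UnitAddCircle), (rep y.2 : UnitAddCircle)) := by
      rw [ht, rep_coe]
    conv_rhs => rw [e, S_coe]
  -- the left error
  have hleft : ((rep y.2 - D.P0 (j, k) : ℝ) : UnitAddCircle) =
      -((if k = 1 then D.c j * D.u' (D.q j) else 0 : ℝ) : UnitAddCircle) := by
    rw [AddCircle.coe_sub, rep_coe]
    unfold P0 cc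
    simp only
    by_cases hk : k = 1
    · subst hk
      rw [if_pos rfl, if_pos rfl]
      have hy2 : y.2 = (D.p j).2 := by
        rw [hy]
        simp only [Nat.sub_self, iterate_zero, id]
        rw [D.hx j]
      rcases D.hc j with h3 | h3
      · rw [if_neg (by rw [h3]; norm_num), rep_coe, hy2, h3]
        simp
      · rw [if_pos h3.1, h3.1, one_mul, t_coe]
        unfold τ
        simp only [if_true]
        rw [D.x_next, h3.2, hy2]
        abel
    · rw [if_neg hk, if_neg hk, if_pos rfl, t_coe]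
      unfold τ
      rw [if_neg hk]
      simp only
      have e : y.2 = ((S a)^[k - 1 - 1] (D.x j)).1 := by
        rw [hy]
        conv_lhs => rw [show k - 1 = k - 1 - 1 + 1 by omega, iterate_succ_apply']
        rfl
      rw [e, sub_self]
      simp
  -- the right error
  have hright : ((S a)^[k] (D.x j)).1 + ((if k = D.N j then D.u (D.s j) else 0 : ℝ) :
      UnitAddCircle) = (D.t (D.σ (j, k)) : UnitAddCircle) := by
    rw [t_coe]
    unfold σ
    simp only
    by_cases hk : k < D.N j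
    · rw [if_neg (by omega), if_pos hk]
      simp
    · have e : k = D.N j := by omega
      subst e
      rw [if_pos rfl, if_neg hk]
      simp only [Nat.sub_self, iterate_zero, id]
      rw [D.hxe j, D.hx (D.s j)]
  rw [← hright, ← hS1]
  have e : (2 * D.t (j, k) - D.P0 (j, k) + a * sin (2 * π * D.t (j, k)) + D.ε (j, k) : ℝ) =
      (2 * D.t (j, k) - rep y.2 + a * sin (2 * π * D.t (j, k))) + (rep y.2 - D.P0 (j, k)) +
        ((if k = D.N j then D.u (D.s j) else 0) + (if k = 1 then D.c j * D.u' (D.q j) else 0)) := by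
    unfold ε
    simp only
    ring
  have key : ∀ A B C1 C2 : ℝ, ((A + B + (C1 + C2) : ℝ) : UnitAddCircle) =
      (A : UnitAddCircle) + (B : UnitAddCircle) + ((C1 : UnitAddCircle) + (C2 : UnitAddCircle)) := by
    intro A B C1 C2
    rfl
  rw [e, key, hleft]
  abel

theorem g_le {i : J × ℕ} (hi : i ∈ D.I) : D.g i ≤ 45 / 7 * |a| * D.δ i := by
  have ha := D.ha
  have ha0 : 0 < |a| := by linarith
  have h1 := D.m_pos hi
  have h2 := D.m_ge hi
  have h3 := D.δ_pos i
  have h4 : 0 < √|a| := Real.sqrt_pos.2 ha0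
  have h5 : √|a| ^ 2 = |a| := Real.sq_sqrt ha0.le
  unfold g
  rw [div_le_iff₀ h1]
  have e : 45 / 7 * |a| * D.δ i * D.m i = 45 / 7 * (√|a| * D.δ i) * (√|a| * D.m i) := by
    rw [← h5]
    rw [h5]
    have : 45 / 7 * (√|a| * D.δ i) * (√|a| * D.m i) = 45 / 7 * √|a| ^ 2 * D.δ i * D.m i := by ring
    rw [this, h5]
  rw [e]
  have h6 : 45 / 7 * (√|a| * D.δ i) * (7 / 5) ≤ 45 / 7 * (√|a| * D.δ i) * (√|a| * D.m i) :=
    mul_le_mul_of_nonneg_left h2 (by positivity)
  linarith

theorem g_one {i : J × ℕ} (hi : i ∈ D.I) : D.g i ≤ 1 := by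
  have ha := D.ha
  have ha0 : 0 < |a| := by linarith
  refine (D.g_le hi).trans ((mul_le_mul_of_nonneg_left (D.δ_le i) (by positivity)).trans ?_)
  have h5 : |a| ^ 5 = |a| ^ 4 * |a| := by ring
  have : (256:ℝ) ^ 4 ≤ |a| ^ 4 := pow_le_pow_left₀ (by norm_num) ha 4
  have h6 : 256 ^ 4 * |a| ≤ |a| ^ 4 * |a| := mul_le_mul_of_nonneg_right this ha0.le
  rw [mul_one_div, div_le_one (by positivity), h5]
  linarith

/-- the approximations of the shadowing orbit -/
noncomputable def ap (l : ℕ) (j : J) : T2 :=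
  (((D.t (j, 1) + VV D.σ D.τ D.cc D.ε D.t a D.I l (j, 1) : ℝ) : UnitAddCircle),
    ((D.P0 (j, 1) + D.cc (j, 1) * VV D.σ D.τ D.cc D.ε D.t a D.I l (D.τ (j, 1)) : ℝ) :
      UnitAddCircle))

/-- **the shadowing orbit** -/
theorem main : ∃ Z : J → T2, (∀ j, (S a)^[D.N j] (Z j) = Z (D.s j)) ∧
    (∀ j, dist (Z j) (D.p j) ≤ 11 * |a| * D.r j) ∧
    (∀ j k, k + 1 ≤ D.N j → 13 ≤ |Lc a ((S a)^[k] (Z j)).1 * Lc a ((S a)^[k + 1] (Z j)).1|) ∧
    ∀ j l, dist (Z j) (D.ap l j) ≤ 6 * (13 / 16) ^ l := by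
  have ha := D.ha
  have ha0 : 0 < |a| := by linarith
  obtain ⟨v, hv1, hv2, hv3⟩ := shadow (σ := D.σ) (τ := D.τ) (c := D.cc) (ε := D.ε) (g := D.g)
    (t := D.t) (a := a) (I := D.I) (fun i hi => D.g_pos hi) (fun i hi => D.σ_mem hi)
    (fun i hi => Or.inl (D.τ_mem hi)) (fun i hi => D.H1 hi) (fun i hi => D.H2 hi)
    (fun i hi => D.H3 hi) (fun i hi => abs_pos.1 (D.ℓ_pos hi))
  set Tp : J × ℕ → ℝ := fun i => D.t i + v i with hTp
  set Pr : J × ℕ → ℝ := fun i => D.P0 i + D.cc i * v (D.τ i) with hPr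
  set W : J × ℕ → T2 := fun i => ((Tp i : UnitAddCircle), (Pr i : UnitAddCircle)) with hW
  have hstep : ∀ i ∈ D.I, S a (W i) = W (D.σ i) := by
    intro i hi
    obtain ⟨e1, e2⟩ := D.τ_σ hi
    have e3 : Pr (D.σ i) = Tp i := by
      simp only [hPr, hTp]
      unfold P0
      rw [if_pos e2, e1, e2, one_mul]
    simp only [hW]
    rw [S_coe, e3]
    have e4 : 2 * Tp i - Pr i + a * sin (2 * π * Tp i) =
        (2 * D.t i - D.P0 i + a * sin (2 * π * D.t i) + D.ε i) + v (D.σ i) := by
      have h := hv2 i hi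
      simp only [hTp, hPr]
      linarith
    have e5 : (Tp (D.σ i) : UnitAddCircle) = (D.t (D.σ i) : UnitAddCircle) +
        (v (D.σ i) : UnitAddCircle) := by
      simp only [hTp]
      rw [AddCircle.coe_add]
    rw [e4, AddCircle.coe_add, D.pseudo hi, e5]
  have hmem : ∀ j k, 1 ≤ k → k ≤ D.N j → (j, k) ∈ D.I := fun j k h1 h2 => ⟨h1, h2⟩
  have hiter : ∀ j k, k + 1 ≤ D.N j → (S a)^[k] (W (j, 1)) = W (j, k + 1) := by
    intro j k
    induction k with
    | zero => intro _; rfl
    | succ k ih =>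
      intro hk
      rw [iterate_succ_apply', ih (by omega), hstep _ (hmem j (k + 1) (by omega) (by omega))]
      have : D.σ (j, k + 1) = (j, k + 1 + 1) := by
        unfold σ
        rw [if_pos (by simp only; omega)]
      rw [this]
  have hiter2 : ∀ j k, k + 1 ≤ D.N j → (S a)^[k + 1] (W (j, 1)) = W (D.σ (j, k + 1)) := by
    intro j k hk
    rw [iterate_succ_apply', hiter j k hk, hstep _ (hmem j (k + 1) (by omega) hk)]
  refine ⟨fun j => W (j, 1), ?_, ?_, ?_, ?_⟩
  · intro j
    have hN := D.hN j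
    have h := hiter2 j (D.N j - 1) (by omega)
    rw [Nat.sub_add_cancel (by omega)] at h
    rw [h]
    have : D.σ (j, D.N j) = (D.s j, 1) := by
      unfold σ
      rw [if_neg (by simp)]
    rw [this]
  · intro j
    have hN := D.hN j
    have hr := D.hr0 j
    have hj := hmem j 1 le_rfl (by omega)
    have hcirc : ∀ (z : UnitAddCircle) (w : ℝ), dist (z + (w : UnitAddCircle)) z ≤ |w| := by
      intro z w
      rw [dist_eq_norm, add_sub_cancel_left]
      exact norm_coe_le w
    have har : D.r j ≤ |a| * D.r j := by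
      have := mul_le_mul_of_nonneg_right (show (1:ℝ) ≤ |a| by linarith) hr.le
      linarith
    have hv := (hv1 _ hj).trans (D.g_le hj)
    have hδ : D.δ (j, 1) ≤ 10 / 7 * D.r j := by
      unfold δ
      simp only
      apply max_le
      · rw [pow_one]
        linarith
      · have h4 := D.hg2 j
        have e : D.N j = (D.N j - 1) + 1 := by omega
        rw [e, pow_succ] at h4
        linarith
    rw [Prod.dist_eq]
    apply max_le
    · show dist ((D.t (j, 1) + v (j, 1) : ℝ) : UnitAddCircle) (D.p j).1 ≤ _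
      have e : ((D.t (j, 1) + v (j, 1) : ℝ) : UnitAddCircle) =
          (D.p j).1 + ((D.u j + v (j, 1) : ℝ) : UnitAddCircle) := by
        rw [AddCircle.coe_add, D.t_coe, AddCircle.coe_add]
        simp only [Nat.sub_self, iterate_zero, id]
        rw [D.hx j]
        simp only
        rw [add_assoc]
      rw [e]
      refine (hcirc _ _).trans ((abs_add_le _ _).trans ?_)
      have h5 := D.hu j
      have h6 : 45 / 7 * |a| * D.δ (j, 1) ≤ 45 / 7 * |a| * (10 / 7 * D.r j) :=
        mul_le_mul_of_nonneg_left hδ (by positivity)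
      have h7 : 45 / 7 * |a| * (10 / 7 * D.r j) = 450 / 49 * (|a| * D.r j) := by ring
      linarith
    · show dist ((D.P0 (j, 1) + D.cc (j, 1) * v (D.τ (j, 1)) : ℝ) : UnitAddCircle) (D.p j).2 ≤ _
      unfold P0 cc
      simp only [if_true]
      rcases D.hc j with h3 | h3
      · rw [if_neg (by rw [h3]; norm_num), h3, zero_mul, add_zero, rep_coe, dist_self]
        positivity
      · rw [if_pos h3.1, h3.1, one_mul]
        have hτ : D.τ (j, 1) = (D.q j, D.N (D.q j)) := by
          unfold τ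
          rw [if_pos rfl]
        rw [hτ, AddCircle.coe_add, D.t_coe]
        simp only
        rw [D.x_next, h3.2, add_assoc, ← AddCircle.coe_add]
        refine (hcirc _ _).trans ((abs_add_le _ _).trans ?_)
        have h5 := D.hu' (D.q j)
        rw [h3.2] at h5
        have hqm := hmem (D.q j) (D.N (D.q j)) (by have := D.hN (D.q j); omega) le_rfl
        have hvq := (hv1 _ hqm).trans (D.g_le hqm)
        have hδq : D.δ (D.q j, D.N (D.q j)) ≤ D.r j := by
          unfold δ
          simp only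
          rw [h3.2, Nat.sub_self, pow_zero, mul_one]
          apply max_le _ le_rfl
          have := D.hg1 (D.q j)
          rwa [h3.2] at this
        have h6 : 45 / 7 * |a| * D.δ (D.q j, D.N (D.q j)) ≤ 45 / 7 * |a| * D.r j :=
          mul_le_mul_of_nonneg_left hδq (by positivity)
        have h7 : 45 / 7 * |a| * D.r j = 45 / 7 * (|a| * D.r j) := by ring
        linarith
  · intro j k hk
    have hi := hmem j (k + 1) (by omega) hk
    rw [hiter j k hk, hiter2 j k hk]
    show 13 ≤ |Lc a (Tp (j, k + 1) : UnitAddCircle) * Lc a (Tp (D.σ (j, k + 1)) : UnitAddCircle)|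
    rw [Lc_coe, Lc_coe, abs_mul]
    have hlow : ∀ i ∈ D.I, 15 / 16 * D.ℓ i ≤ |L a (Tp i)| := by
      intro i hi
      have h1 := L_lip a (Tp i) (D.t i)
      have e : Tp i - D.t i = v i := by simp only [hTp]; ring
      rw [e] at h1
      have h2 : 4 * π ^ 2 * |a| * |v i| ≤ 4 * π ^ 2 * |a| * D.g i :=
        mul_le_mul_of_nonneg_left (hv1 i hi) (by positivity)
      have h3 := D.H3 hi
      have h4 : |L a (D.t i)| = D.ℓ i := rfl
      rw [h4] at h3
      have h5 := abs_sub_abs_le_abs_sub (L a (D.t i)) (L a (Tp i))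
      rw [abs_sub_comm (L a (D.t i)), h4] at h5
      linarith
    have h1 := hlow _ hi
    have h2 := hlow _ (D.σ_mem hi)
    have h3 := D.pair hi
    have h4 := D.ℓ_pos hi
    have h5 := D.ℓ_pos (D.σ_mem hi)
    have h6 : (15 / 16 * D.ℓ (j, k + 1)) * (15 / 16 * D.ℓ (D.σ (j, k + 1))) ≤
        |L a (Tp (j, k + 1))| * |L a (Tp (D.σ (j, k + 1)))| :=
      mul_le_mul h1 h2 (by positivity) (abs_nonneg _)
    nlinarith
  · intro j l
    have hN := D.hN j
    have hj := hmem j 1 le_rfl (by omega)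
    have hd : (0:ℝ) ≤ (13 / 16) ^ l := by positivity
    have hdist : ∀ x y : ℝ, dist (x : UnitAddCircle) (y : UnitAddCircle) ≤ |x - y| := by
      intro x y
      rw [dist_eq_norm, ← AddCircle.coe_sub]
      exact norm_coe_le _
    have hb : ∀ i ∈ D.I, |v i - VV D.σ D.τ D.cc D.ε D.t a D.I l i| ≤ 6 * (13 / 16) ^ l := by
      intro i hi
      rw [abs_sub_comm]
      refine (hv3 i hi l).trans ?_
      have h1 := D.g_one hi
      have h2 : D.g i * (13 / 16) ^ l ≤ 1 * (13 / 16) ^ l := mul_le_mul_of_nonneg_right h1 hd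
      rw [div_le_iff₀ (by norm_num)]
      linarith
    rw [Prod.dist_eq]
    apply max_le
    · refine (hdist _ _).trans ?_
      simp only [hTp]
      rw [add_sub_add_left_eq_sub]
      exact hb _ hj
    · refine (hdist _ _).trans ?_
      simp only [hPr]
      rw [add_sub_add_left_eq_sub, ← mul_sub, abs_mul]
      have h1 := hb _ (D.τ_mem hj)
      have h2 : |D.cc (j, 1)| ≤ 1 := by
        rcases D.cc_or (j, 1) with h | h
        · rw [h, abs_zero]
          exact zero_le_one
        · rw [h, abs_one]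
      calc |D.cc (j, 1)| * |v (D.τ (j, 1)) - VV D.σ D.τ D.cc D.ε D.t a D.I l (D.τ (j, 1))| ≤
          1 * (6 * (13 / 16) ^ l) := mul_le_mul h2 h1 (abs_nonneg _) (by norm_num)
        _ = _ := one_mul _

end Dat

end Pool.Agent.H52.GEO
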