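import Mathlib
import Pool.Agent.H52.STD.Wd4

set_option autoImplicit false

/-!
# Specification off the exceptional sets
-/

namespace Pool.Agent.H52.GEO

open Real MeasureTheory Function Set Filter Topology
open Pool.Agent.TH705.SM Pool.Agent.Y332.SM Pool.Agent.N317.SM Pool.Agent.V1152.SMI
open Pool.Agent.H52.STD (BadS W0)
open scoped ENNReal

/-- points with a small product of consecutive slopes -/
def Pb (a : ℝ) : Set T2 := {p | |Lc a p.1 * Lc a p.2| < 16}

theorem Pb_eq (a : ℝ) : Pb a = {p : T2 | |cc a p.1 * cc a p.2| < 16} := by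
  ext p
  unfold Pb
  simp only [Set.mem_ofPred_eq, Pool.Agent.K7.H81.SL.Lc_cc]

/-- the exceptional sets for the specification property -/
def BC (a : ℝ) (n : ℕ) : Set T2 := BB a (n + 20) ∪ Pb a

theorem BC_meas (a : ℝ) (n : ℕ) : MeasurableSet (BC a n) := by
  refine (BB_meas a _).union ?_
  rw [Pb_eq]
  exact Pool.Agent.K7.H81.SM.prod_meas a 16

theorem BC_vol {a : ℝ} (ha : 256 ≤ |a|) (n : ℕ) :
    volume (BC a n) ≤ ENNReal.ofReal (2 * 10 ^ 33 * ar a n) := by
  have h0 := ar_nonneg ha n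
  have ha0 : 0 < |a| := by linarith
  have hL := log_ge ha
  have hn : (0:ℝ) ≤ n := Nat.cast_nonneg n
  have h1 : ar a (n + 20) ≤ 5 * ar a n := by
    unfold ar
    rw [← mul_div_assoc]
    apply div_le_div_of_nonneg_right _ (by positivity)
    push_cast
    have : (n + 20 + log |a|) ≤ 5 * (n + log |a|) := by linarith
    have h2 := mul_le_mul_of_nonneg_right this (by linarith : 0 ≤ log |a|)
    linarith
  have h2 : volume (Pb a) ≤ ENNReal.ofReal (480 * ar a n) := by
    rw [Pb_eq, ← ofReal_measureReal (measure_ne_top _ _)]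
    apply ENNReal.ofReal_le_ofReal
    have h4 := Pool.Agent.K7.H81.SM.prod_strip (a := a) (by linarith) (M := 16) (by norm_num)
    refine h4.trans ?_
    unfold ar
    rw [← mul_div_assoc]
    apply div_le_div_of_nonneg_right _ (by positivity)
    have h5 : log |a| ≤ (n + log |a|) * log |a| := by nlinarith
    linarith
  unfold BC
  refine (measure_union_le _ _).trans ((add_le_add (BB_vol ha (n + 20)) h2).trans ?_)
  have h3 := ar_nonneg ha (n + 20)
  rw [← ENNReal.ofReal_add (by positivity) (by positivity)]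
  apply ENNReal.ofReal_le_ofReal
  linarith

theorem rd_add (M : ℝ) (m n : ℕ) : rd M (m + n) = rd M m * rd M n := by
  unfold rd
  rw [pow_add]

theorem rd_four {a : ℝ} : rd (√|a|) 4 = 1 / |a| := by
  unfold rd
  rw [div_pow, one_pow]
  congr 1
  have e1 : √√|a| ^ 2 = √|a| := Real.sq_sqrt (Real.sqrt_nonneg _)
  have e2 : √|a| ^ 2 = |a| := Real.sq_sqrt (abs_nonneg a)
  calc √√|a| ^ 4 = (√√|a| ^ 2) ^ 2 := by ring
    _ = |a| := by rw [e1, e2]

theorem rd_twenty {a : ℝ} : rd (√|a|) 20 = 1 / |a| ^ 5 := by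
  have : rd (√|a|) 20 = rd (√|a|) 4 ^ 5 := by
    unfold rd
    rw [← pow_mul]
  rw [this, rd_four, div_pow, one_pow]

theorem rd_exp {a : ℝ} (ha : 256 ≤ |a|) (n : ℕ) : rd (√|a|) n = exp (-(n * log |a| / 4)) := by
  have ha0 : 0 < |a| := by linarith
  have hs : 0 < √√|a| := Real.sqrt_pos.2 (Real.sqrt_pos.2 ha0)
  unfold rd
  have e2 : log (√√|a|) = log |a| / 4 := by
    rw [Real.log_sqrt (Real.sqrt_nonneg _), Real.log_sqrt (abs_nonneg a)]
    ring
  rw [one_div, inv_pow, ← Real.exp_log (pow_pos hs n), Real.log_pow, e2, ← Real.exp_neg]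
  congr 1
  ring

theorem rd_theta {a : ℝ} (ha : 256 ≤ |a|) {m n N : ℕ} (h : ((n:ℝ) - m) * log |a| ≤ N) :
    rd (√|a|) m * (7 / 10) ^ N ≤ rd (√|a|) n := by
  have h1 : ((7:ℝ) / 10) ^ N ≤ exp (-(N / 4)) := by
    have h2 : (7:ℝ) / 10 ≤ exp (-(1 / 4)) := by
      have := Real.add_one_le_exp (-(1 / 4 : ℝ))
      linarith
    calc ((7:ℝ) / 10) ^ N ≤ (exp (-(1 / 4))) ^ N := pow_le_pow_left₀ (by norm_num) h2 N
      _ = exp (-(N / 4)) := by
        rw [← Real.exp_nat_mul]
        congr 1
        ring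
  rw [rd_exp ha, rd_exp ha]
  refine (mul_le_mul_of_nonneg_left h1 (Real.exp_pos _).le).trans ?_
  rw [← Real.exp_add]
  apply Real.exp_le_exp.2
  linarith

/-- **specification** -/
theorem spec {a : ℝ} (ha : 256 ≤ |a|) {J : Type*} (s : Equiv.Perm J) (p : J → T2)
    (n N : J → ℕ) (hp : ∀ j, p j ∉ BC a (n j))
    (hN : ∀ j, 3600 * (n j + n (s j) + log |a|) ≤ N j)
    (hg : ∀ j, |(n j : ℝ) - n (s j)| * log |a| ≤ N j) :
    ∃ Z : J → T2, (∀ j, (S a)^[N j] (Z j) = Z (s j)) ∧
      (∀ j, dist (Z j) (p j) ≤ rd (√|a|) (n j) / 2) ∧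
      ∀ j k, k + 1 ≤ N j → 13 ≤ |Lc a ((S a)^[k] (Z j)).1 * Lc a ((S a)^[k + 1] (Z j)).1| := by
  have hM := sq_ge ha
  have haM := sq_eq a
  have ha0 : 0 < |a| := by linarith
  have hL := log_ge ha
  have hb : ∀ j, p j ∉ BB a (n j + 20) := fun j h => hp j (Or.inl h)
  have hpp : ∀ j, 16 ≤ |Lc a (p j).1 * Lc a (p j).2| := fun j => by
    by_contra h
    exact hp j (Or.inr (not_le.1 h))
  have hN' : ∀ j, (n j + 20 + W0 a) + (n (s j) + 20 + W0 a) ≤ N j := by
    intro j
    have h1 : ((⌈22 * log |a|⌉₊ : ℕ) : ℝ) < 22 * log |a| + 1 := Nat.ceil_lt_add_one (by positivity)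
    have h2 : (((n j + 20 + W0 a) + (n (s j) + 20 + W0 a) : ℕ) : ℝ) =
        n j + n (s j) + 40 + 160 * ((⌈22 * log |a|⌉₊ : ℕ) : ℝ) + 80 := by
      unfold W0
      push_cast
      ring
    have h3 : (0:ℝ) ≤ n j := Nat.cast_nonneg _
    have h5 : (0:ℝ) ≤ n (s j) := Nat.cast_nonneg _
    have h4 : (((n j + 20 + W0 a) + (n (s j) + 20 + W0 a) : ℕ) : ℝ) ≤ (N j : ℝ) := by
      rw [h2]
      linarith [hN j]
    exact_mod_cast h4
  have hcon := fun j => connect (a := a) (M := √|a|) (n := n j + 20) (n' := n (s j) + 20)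
    (W := W0 a) hM haM (BB_not (hb j)).1 (BB_not (hb (s j))).2 (hN' j) (by omega)
  choose x u u' hu hu' hx hxe hns using hcon
  let D : Dat a J :=
    { s := s
      q := s.symm
      c := fun _ => 1
      N := N
      p := p
      x := x
      u := u
      u' := u'
      r := fun j => rd (√|a|) (n j + 20)
      ha := ha
      hs1 := fun j => s.symm_apply_apply j
      hs2 := fun j => rfl
      hc := fun j => Or.inr ⟨rfl, s.apply_symm_apply j⟩
      hN := fun j => by have := hN' j; omega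
      hr0 := fun j => rd_pos hM _
      hr := fun j => by
        rw [← rd_twenty]
        exact rd_anti hM (by omega)
      hu := hu
      hu' := hu'
      hx := hx
      hxe := hxe
      hns := hns
      hpp := hpp
      hg1 := fun j => by
        apply rd_theta ha
        refine le_trans ?_ (hg j)
        apply mul_le_mul_of_nonneg_right _ (by linarith)
        push_cast
        rw [abs_sub_comm]
        refine le_trans ?_ (le_abs_self _)
        linarith
      hg2 := fun j => by
        apply rd_theta ha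
        refine le_trans ?_ (hg j)
        apply mul_le_mul_of_nonneg_right _ (by linarith)
        push_cast
        refine le_trans ?_ (le_abs_self _)
        linarith }
  obtain ⟨Z, h1, h2, h3, _⟩ := D.main
  refine ⟨Z, h1, fun j => (h2 j).trans ?_, h3⟩
  show 11 * |a| * rd (√|a|) (n j + 20) ≤ rd (√|a|) (n j) / 2
  rw [rd_add, rd_twenty]
  have h4 : 11 * |a| * (1 / |a| ^ 5) ≤ 1 / 2 := by
    rw [mul_one_div, div_le_div_iff₀ (by positivity) (by norm_num)]
    have h5 : |a| ^ 5 = |a| ^ 4 * |a| := by ring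
    have : (256:ℝ) ^ 4 ≤ |a| ^ 4 := pow_le_pow_left₀ (by norm_num) ha 4
    have h6 : 256 ^ 4 * |a| ≤ |a| ^ 4 * |a| := mul_le_mul_of_nonneg_right this ha0.le
    rw [h5]
    linarith
  have h6 := rd_nonneg (√|a|) (n j)
  calc 11 * |a| * (rd (√|a|) (n j) * (1 / |a| ^ 5)) =
      (11 * |a| * (1 / |a| ^ 5)) * rd (√|a|) (n j) := by ring
    _ ≤ 1 / 2 * rd (√|a|) (n j) := mul_le_mul_of_nonneg_right h4 h6
    _ = _ := by ring

/-! ### the uniformly hyperbolic set -/

/-- no small product of consecutive slopes in the future -/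
def Hs (a : ℝ) : Set T2 :=
  {z | ∀ k, 13 ≤ |Lc a ((S a)^[k] z).1 * Lc a ((S a)^[k + 1] z).1|}

/-- no small product of consecutive slopes -/
def Lam (a : ℝ) : Set T2 := {z | ∀ m, (Si a)^[m] z ∈ Hs a}

theorem Hs_S {a : ℝ} {z : T2} (hz : z ∈ Hs a) : S a z ∈ Hs a := by
  intro k
  rw [← iterate_succ_apply, ← iterate_succ_apply]
  exact hz (k + 1)

theorem Hs_iter {a : ℝ} {z : T2} (hz : z ∈ Hs a) (k : ℕ) : (S a)^[k] z ∈ Hs a := by
  induction k with
  | zero => exact hz
  | succ k ih =>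
    rw [iterate_succ_apply']
    exact Hs_S ih

theorem Lam_Hs {a : ℝ} {z : T2} (hz : z ∈ Lam a) : z ∈ Hs a := hz 0

theorem Lam_Si {a : ℝ} {z : T2} (hz : z ∈ Lam a) : Si a z ∈ Lam a := by
  intro m
  rw [← iterate_succ_apply]
  exact hz (m + 1)

theorem Lam_S {a : ℝ} {z : T2} (hz : z ∈ Lam a) : S a z ∈ Lam a := by
  intro m
  cases m with
  | zero => exact Hs_S (Lam_Hs hz)
  | succ m =>
    rw [iterate_succ_apply, Si_S]
    exact hz m

theorem swap_Si (a : ℝ) (p : T2) : Prod.swap (Si a p) = S a (Prod.swap p) := (S_swap a p).symm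

/-- the past of a point of the hyperbolic set -/
theorem Lam_swap {a : ℝ} {z : T2} (hz : z ∈ Lam a) : Prod.swap z ∈ Hs a := by
  intro k
  rw [S_swap_iter, S_swap_iter]
  show 13 ≤ |Lc a ((Si a)^[k] z).2 * Lc a ((Si a)^[k + 1] z).2|
  have e1 : ∀ m, ((Si a)^[m] z).2 = ((Si a)^[m + 1] z).1 := by
    intro m
    rw [iterate_succ_apply']
    rfl
  have h := hz (k + 2) 0
  have e2 : S a ((Si a)^[k + 2] z) = (Si a)^[k + 1] z := by
    rw [iterate_succ_apply' (Si a) (k + 1)]
    exact S_Si a _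
  rw [e1, e1, mul_comm]
  simp only [iterate_zero, id_eq, zero_add, iterate_one] at h
  rw [e2] at h
  exact h

theorem Lam_prod {a : ℝ} {z : T2} (hz : z ∈ Lam a) : 13 ≤ |Lc a z.1 * Lc a z.2| := by
  have h := hz 1 0
  simp only [iterate_zero, id_eq, zero_add, iterate_one] at h
  rw [S_Si, mul_comm] at h
  exact h

theorem Lam_image (a : ℝ) : S a '' Lam a = Lam a := by
  apply Subset.antisymm
  · rintro _ ⟨z, hz, rfl⟩
    exact Lam_S hz
  · intro z hz
    exact ⟨Si a z, Lam_Si hz, S_Si a z⟩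

theorem Hs_closed (a : ℝ) : IsClosed (Hs a) := by
  have : Hs a = ⋂ k : ℕ, {z | 13 ≤ |Lc a ((S a)^[k] z).1 * Lc a ((S a)^[k + 1] z).1|} := by
    ext z
    simp only [mem_iInter]
    rfl
  rw [this]
  apply isClosed_iInter
  intro k
  apply isClosed_le continuous_const
  have h1 : Continuous (S a)^[k] := (S_cont a).iterate k
  have h2 : Continuous (S a)^[k + 1] := (S_cont a).iterate (k + 1)
  exact (((Lc_cont a).comp (continuous_fst.comp h1)).mul
    ((Lc_cont a).comp (continuous_fst.comp h2))).abs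

theorem Lam_compact (a : ℝ) : IsCompact (Lam a) := by
  apply IsClosed.isCompact
  have : Lam a = ⋂ m : ℕ, (Si a)^[m] ⁻¹' Hs a := by
    ext z
    simp only [mem_iInter]
    rfl
  rw [this]
  exact isClosed_iInter fun m => (Hs_closed a).preimage ((Si_cont a).iterate m)

/-- the orbits of the specification property are in the hyperbolic set -/
theorem Z_Lam {a : ℝ} {J : Type*} (s : Equiv.Perm J) {N : J → ℕ} {Z : J → T2}
    (hN : ∀ j, 1 ≤ N j) (h1 : ∀ j, (S a)^[N j] (Z j) = Z (s j))
    (h2 : ∀ j k, k + 1 ≤ N j → 13 ≤ |Lc a ((S a)^[k] (Z j)).1 * Lc a ((S a)^[k + 1] (Z j)).1|)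
    (j : J) : Z j ∈ Lam a := by
  have f1 : ∀ k j, 13 ≤ |Lc a ((S a)^[k] (Z j)).1 * Lc a ((S a)^[k + 1] (Z j)).1| := by
    intro k
    induction k using Nat.strong_induction_on with
    | _ k ih =>
      intro j
      rcases Nat.lt_or_ge k (N j) with h | h
      · exact h2 j k h
      · have e1 : (S a)^[k] (Z j) = (S a)^[k - N j] (Z (s j)) := by
          rw [← h1, ← iterate_add_apply]
          congr 1
          omega
        have e2 : (S a)^[k + 1] (Z j) = (S a)^[k - N j + 1] (Z (s j)) := by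
          rw [← h1, ← iterate_add_apply]
          congr 1
          omega
        rw [e1, e2]
        exact ih (k - N j) (by have := hN j; omega) (s j)
  have f2 : ∀ m j, ∃ i t, (Si a)^[m] (Z j) = (S a)^[t] (Z i) := by
    intro m
    induction m using Nat.strong_induction_on with
    | _ m ih =>
      intro j
      have h3 := h1 (s.symm j)
      rw [Equiv.apply_symm_apply] at h3
      rcases Nat.lt_or_ge m (N (s.symm j)) with h | h
      · refine ⟨s.symm j, N (s.symm j) - m, ?_⟩
        have e : (S a)^[N (s.symm j)] (Z (s.symm j)) =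
            (S a)^[m] ((S a)^[N (s.symm j) - m] (Z (s.symm j))) := by
          rw [← iterate_add_apply]
          congr 1
          omega
        rw [← h3, e, S_iter_Si']
      · obtain ⟨i, t, hi⟩ := ih (m - N (s.symm j)) (by have := hN (s.symm j); omega) (s.symm j)
        refine ⟨i, t, ?_⟩
        rw [← hi, ← h3]
        have e : (Si a)^[m] ((S a)^[N (s.symm j)] (Z (s.symm j))) =
            (Si a)^[m - N (s.symm j)] ((Si a)^[N (s.symm j)]
              ((S a)^[N (s.symm j)] (Z (s.symm j)))) := by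
          rw [← iterate_add_apply]
          congr 1
          omega
        rw [e, S_iter_Si']
  intro m
  obtain ⟨i, t, hi⟩ := f2 m j
  rw [hi]
  exact Hs_iter (fun k => f1 k i) t

end Pool.Agent.H52.GEO
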