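import Mathlib
import Pool.Agent.H52.STD.Wd5

set_option autoImplicit false

/-!
# Dependence of the shadowing orbit on the chain
-/

namespace Pool.Agent.H52.GEO

open Real MeasureTheory Function Set Filter Topology
open Pool.Agent.TH705.SM Pool.Agent.Y332.SM Pool.Agent.N317.SM
open Pool.Agent.H52.STD (BadS W0)
open scoped ENNReal

/-- chains indexed by the integers -/
structure StdD {a : ℝ} (D : Dat a ℤ) : Prop where
  s : ∀ j, D.s j = j + 1
  q : ∀ j, D.q j = j - 1
  c : ∀ j, D.c j = 1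

/-- equal data near two indices -/
structure Agree {a : ℝ} (D' D : Dat a ℤ) (P j : ℤ) : Prop where
  N : D'.N j = D.N (j + P)
  p : D'.p j = D.p (j + P)
  x : D'.x j = D.x (j + P)
  u : D'.u j = D.u (j + P)
  u' : D'.u' j = D.u' (j + P)

variable {a : ℝ} {D D' : Dat a ℤ}

theorem σ_loc (h : StdD D) (h' : StdD D') {P j : ℤ} {k : ℕ} (hd : Agree D' D P j) :
    D.σ (j + P, k) = ((D'.σ (j, k)).1 + P, (D'.σ (j, k)).2) := by
  unfold Dat.σ
  simp only
  rw [← hd.N]
  by_cases hk : k < D'.N j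
  · rw [if_pos hk, if_pos hk]
  · rw [if_neg hk, if_neg hk]
    simp only [Prod.mk.injEq, and_true]
    rw [h.s, h'.s]
    ring

theorem τ_loc (h : StdD D) (h' : StdD D') {P j : ℤ} {k : ℕ} (hd : Agree D' D P (j - 1)) :
    D.τ (j + P, k) = ((D'.τ (j, k)).1 + P, (D'.τ (j, k)).2) := by
  unfold Dat.τ
  simp only
  by_cases hk : k = 1
  · rw [if_pos hk, if_pos hk]
    simp only [Prod.mk.injEq]
    rw [h.q, h'.q, hd.N]
    constructor
    · ring
    · congr 1
      ring
  · rw [if_neg hk, if_neg hk]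

theorem cc_loc (h : StdD D) (i : ℤ × ℕ) : D.cc i = 1 := by
  unfold Dat.cc
  split_ifs
  · exact h.c _
  · rfl

theorem t_loc {P j : ℤ} {k : ℕ} (hd : Agree D' D P j) : D'.t (j, k) = D.t (j + P, k) := by
  unfold Dat.t
  simp only
  rw [hd.x]

theorem ε_loc (h : StdD D) (h' : StdD D') {P j : ℤ} {k : ℕ} (hd : Agree D' D P j)
    (hd1 : Agree D' D P (j + 1)) (hd2 : Agree D' D P (j - 1)) :
    D'.ε (j, k) = D.ε (j + P, k) := by
  unfold Dat.ε
  simp only
  rw [hd.N, h.s, h'.s, h.q, h'.q, h.c, h'.c, hd1.u, hd2.u', show j + 1 + P = j + P + 1 by ring,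
    show j - 1 + P = j + P - 1 by ring]

theorem I_loc {P j : ℤ} {k : ℕ} (hd : Agree D' D P j) : (j, k) ∈ D'.I ↔ (j + P, k) ∈ D.I := by
  unfold Dat.I
  simp only [Set.mem_ofPred_eq]
  rw [hd.N]

theorem VV_loc (h : StdD D) (h' : StdD D') {P : ℤ} {m : ℕ}
    (hd : ∀ j : ℤ, |j| ≤ m → Agree D' D P j) : ∀ (l : ℕ) (j : ℤ) (k : ℕ), |j| + l + 1 ≤ m →
    VV D'.σ D'.τ D'.cc D'.ε D'.t a D'.I l (j, k) =
      VV D.σ D.τ D.cc D.ε D.t a D.I l (j + P, k) := by
  intro l
  induction l with
  | zero => intro j k _; rfl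
  | succ l ih =>
    intro j k hj
    push_cast at hj
    have hj0 : Agree D' D P j := hd j (by omega)
    have hj1 : Agree D' D P (j + 1) := hd (j + 1) (by
      have := abs_add_le j 1
      rw [abs_one] at this
      omega)
    have hj2 : Agree D' D P (j - 1) := hd (j - 1) (by
      have := abs_sub j 1
      rw [abs_one] at this
      omega)
    by_cases hi : (j, k) ∈ D'.I
    · have hi' : (j + P, k) ∈ D.I := (I_loc hj0).1 hi
      rw [VV_succ hi, VV_succ hi', σ_loc h h' hj0, τ_loc h h' hj2, ← t_loc hj0,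
        ← ε_loc h h' hj0 hj1 hj2, cc_loc h, cc_loc h']
      have e1 : VV D'.σ D'.τ D'.cc D'.ε D'.t a D'.I l (D'.σ (j, k)) =
          VV D.σ D.τ D.cc D.ε D.t a D.I l ((D'.σ (j, k)).1 + P, (D'.σ (j, k)).2) := by
        have e : D'.σ (j, k) = ((D'.σ (j, k)).1, (D'.σ (j, k)).2) := rfl
        conv_lhs => rw [e]
        apply ih
        have e2 : (D'.σ (j, k)).1 = j ∨ (D'.σ (j, k)).1 = j + 1 := by
          unfold Dat.σ
          split_ifs
          · exact Or.inl rfl
          · exact Or.inr (h'.s j)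
        rcases e2 with e2 | e2
        · rw [e2]
          omega
        · rw [e2]
          have := abs_add_le j 1
          rw [abs_one] at this
          omega
      have e3 : VV D'.σ D'.τ D'.cc D'.ε D'.t a D'.I l (D'.τ (j, k)) =
          VV D.σ D.τ D.cc D.ε D.t a D.I l ((D'.τ (j, k)).1 + P, (D'.τ (j, k)).2) := by
        have e : D'.τ (j, k) = ((D'.τ (j, k)).1, (D'.τ (j, k)).2) := rfl
        conv_lhs => rw [e]
        apply ih
        have e2 : (D'.τ (j, k)).1 = j ∨ (D'.τ (j, k)).1 = j - 1 := by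
          unfold Dat.τ
          split_ifs
          · exact Or.inr (h'.q j)
          · exact Or.inl rfl
        rcases e2 with e2 | e2
        · rw [e2]
          omega
        · rw [e2]
          have := abs_sub j 1
          rw [abs_one] at this
          omega
      rw [e1, e3, ih j k (by omega)]
    · have hi' : (j + P, k) ∉ D.I := fun h2 => hi ((I_loc hj0).2 h2)
      unfold VV
      rw [if_neg hi, if_neg hi']

theorem ap_loc (h : StdD D) (h' : StdD D') {P : ℤ} {m : ℕ}
    (hd : ∀ j : ℤ, |j| ≤ m → Agree D' D P j) {l : ℕ} {j : ℤ} (hj : |j| + l + 2 ≤ m) :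
    D'.ap l j = D.ap l (j + P) := by
  have hj0 : Agree D' D P j := hd j (by omega)
  have hj2 : Agree D' D P (j - 1) := hd (j - 1) (by
    have := abs_sub j 1
    rw [abs_one] at this
    omega)
  have e0 : D'.τ (j, 1) = (j - 1, D'.N (j - 1)) := by
    unfold Dat.τ
    rw [if_pos rfl]
    simp only
    rw [h'.q]
  have e1 : D.τ (j + P, 1) = (j - 1 + P, D'.N (j - 1)) := by
    rw [τ_loc h h' hj2, e0]
  have hP0 : D'.P0 (j, 1) = D.P0 (j + P, 1) := by
    unfold Dat.P0
    rw [if_pos (cc_loc h' _), if_pos (cc_loc h _), e0, e1]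
    exact t_loc hj2
  unfold Dat.ap
  rw [cc_loc h, cc_loc h', hP0, t_loc hj0, VV_loc h h' hd l j 1 (by omega), e0, e1,
    VV_loc h h' hd l (j - 1) (D'.N (j - 1)) (by
      have := abs_sub j 1
      rw [abs_one] at this
      omega)]

end Pool.Agent.H52.GEO
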