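import Mathlib
import Pool.Agent.H52.STD.Wd9

set_option autoImplicit false

/-!
# The coding by sequences of targets
-/

namespace Pool.Agent.H52.GEO

open Real MeasureTheory Function Set Filter Topology
open Pool.Agent.TH705.SM Pool.Agent.Y332.SM Pool.Agent.N317.SM
open Pool.Agent.H52.STD (BadS W0)
open scoped ENNReal

/-- admissible sequences of targets (a point, a scale, a time) -/
structure Adm (a : ℝ) (ω : ℤ → T2 × ℕ × ℕ) : Prop where
  bad : ∀ j, (ω j).1 ∉ BC a (ω j).2.1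
  time : ∀ j, 3600 * ((ω j).2.1 + (ω (j + 1)).2.1 + log |a|) +
    |((ω j).2.1 : ℝ) - (ω (j + 1)).2.1| * log |a| ≤ (ω j).2.2

theorem link_ex {a : ℝ} (ha : 256 ≤ |a|) :
    ∃ (X : T2 → T2 → ℕ → ℕ → ℕ → T2) (U U' : T2 → T2 → ℕ → ℕ → ℕ → ℝ),
      ∀ p q n n' N, p ∉ BB a (n + 20) → q ∉ BB a (n' + 20) →
        (n + 20 + W0 a) + (n' + 20 + W0 a) ≤ N →
        |U p q n n' N| ≤ rd (√|a|) (n + 20) ∧ |U' p q n n' N| ≤ rd (√|a|) (n' + 20) ∧
        X p q n n' N = (p.1 + (U p q n n' N : UnitAddCircle), p.2) ∧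
        (S a)^[N] (X p q n n' N) = (q.1, q.2 + (U' p q n n' N : UnitAddCircle)) ∧
        NoSmall a N (X p q n n' N) := by
  have h : ∀ (p q : T2) (n n' N : ℕ), ∃ (x : T2) (u u' : ℝ), p ∉ BB a (n + 20) →
      q ∉ BB a (n' + 20) → (n + 20 + W0 a) + (n' + 20 + W0 a) ≤ N →
      |u| ≤ rd (√|a|) (n + 20) ∧ |u'| ≤ rd (√|a|) (n' + 20) ∧
      x = (p.1 + (u : UnitAddCircle), p.2) ∧
      (S a)^[N] x = (q.1, q.2 + (u' : UnitAddCircle)) ∧ NoSmall a N x := by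
    intro p q n n' N
    by_cases hh : p ∉ BB a (n + 20) ∧ q ∉ BB a (n' + 20) ∧
        (n + 20 + W0 a) + (n' + 20 + W0 a) ≤ N
    · obtain ⟨h1, h2, h3⟩ := hh
      obtain ⟨x, u, u', h4⟩ := connect (a := a) (M := √|a|) (n := n + 20) (n' := n' + 20)
        (W := W0 a) (sq_ge ha) (sq_eq a) (BB_not h1).1 (BB_not h2).2 h3 (by omega)
      exact ⟨x, u, u', fun _ _ _ => h4⟩
    · exact ⟨p, 0, 0, fun h1 h2 h3 => absurd ⟨h1, h2, h3⟩ hh⟩
  choose X U U' h using h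
  exact ⟨X, U, U', h⟩

theorem Adm_N {a : ℝ} (ha : 256 ≤ |a|) {ω : ℤ → T2 × ℕ × ℕ} (hω : Adm a ω) (j : ℤ) :
    ((ω j).2.1 + 20 + W0 a) + ((ω (j + 1)).2.1 + 20 + W0 a) ≤ (ω j).2.2 := by
  have hL := log_ge ha
  have h1 : ((⌈22 * log |a|⌉₊ : ℕ) : ℝ) < 22 * log |a| + 1 := Nat.ceil_lt_add_one (by positivity)
  have h2 : ((((ω j).2.1 + 20 + W0 a) + ((ω (j + 1)).2.1 + 20 + W0 a) : ℕ) : ℝ) =
      (ω j).2.1 + (ω (j + 1)).2.1 + 40 + 160 * ((⌈22 * log |a|⌉₊ : ℕ) : ℝ) + 80 := by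
    unfold W0
    push_cast
    ring
  have h3 : (0:ℝ) ≤ (ω j).2.1 := Nat.cast_nonneg _
  have h5 : (0:ℝ) ≤ (ω (j + 1)).2.1 := Nat.cast_nonneg _
  have h6 : 0 ≤ |((ω j).2.1 : ℝ) - (ω (j + 1)).2.1| * log |a| := by positivity
  have h4 : ((((ω j).2.1 + 20 + W0 a) + ((ω (j + 1)).2.1 + 20 + W0 a) : ℕ) : ℝ) ≤
      ((ω j).2.2 : ℝ) := by
    rw [h2]
    linarith [hω.time j]
  exact_mod_cast h4

theorem dat_ex {a : ℝ} (ha : 256 ≤ |a|) :
    ∃ (X : T2 → T2 → ℕ → ℕ → ℕ → T2) (U U' : T2 → T2 → ℕ → ℕ → ℕ → ℝ),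
      ∀ ω : ℤ → T2 × ℕ × ℕ, Adm a ω → ∃ D : Dat a ℤ, StdD D ∧
        (∀ j, D.r j = rd (√|a|) ((ω j).2.1 + 20)) ∧
        ∀ j, D.N j = (ω j).2.2 ∧ D.p j = (ω j).1 ∧
          D.x j = X (ω j).1 (ω (j + 1)).1 (ω j).2.1 (ω (j + 1)).2.1 (ω j).2.2 ∧
          D.u j = U (ω j).1 (ω (j + 1)).1 (ω j).2.1 (ω (j + 1)).2.1 (ω j).2.2 ∧
          D.u' j = U' (ω j).1 (ω (j + 1)).1 (ω j).2.1 (ω (j + 1)).2.1 (ω j).2.2 := by
  obtain ⟨X, U, U', h⟩ := link_ex ha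
  have hM := sq_ge ha
  have hL := log_ge ha
  refine ⟨X, U, U', fun ω hω => ?_⟩
  have hpp : ∀ j, 16 ≤ |Lc a (ω j).1.1 * Lc a (ω j).1.2| := fun j => by
    by_contra h
    exact hω.bad j (Or.inr (not_le.1 h))
  have hh := fun j => h (ω j).1 (ω (j + 1)).1 (ω j).2.1 (ω (j + 1)).2.1 (ω j).2.2
    (fun h1 => hω.bad j (Or.inl h1)) (fun h1 => hω.bad (j + 1) (Or.inl h1)) (Adm_N ha hω j)
  have h2 : ∀ j, 0 ≤ 3600 * (((ω j).2.1 : ℝ) + (ω (j + 1)).2.1 + log |a|) :=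
    fun j => by positivity
  let D : Dat a ℤ :=
    { s := fun j => j + 1
      q := fun j => j - 1
      c := fun _ => 1
      N := fun j => (ω j).2.2
      p := fun j => (ω j).1
      x := fun j => X (ω j).1 (ω (j + 1)).1 (ω j).2.1 (ω (j + 1)).2.1 (ω j).2.2
      u := fun j => U (ω j).1 (ω (j + 1)).1 (ω j).2.1 (ω (j + 1)).2.1 (ω j).2.2
      u' := fun j => U' (ω j).1 (ω (j + 1)).1 (ω j).2.1 (ω (j + 1)).2.1 (ω j).2.2
      r := fun j => rd (√|a|) ((ω j).2.1 + 20)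
      ha := ha
      hs1 := fun j => by ring
      hs2 := fun j => rfl
      hc := fun j => Or.inr ⟨rfl, by ring⟩
      hN := fun j => by have := Adm_N ha hω j; omega
      hr0 := fun j => rd_pos hM _
      hr := fun j => by
        rw [← rd_twenty]
        exact rd_anti hM (by omega)
      hu := fun j => (hh j).1
      hu' := fun j => (hh j).2.1
      hx := fun j => (hh j).2.2.1
      hxe := fun j => (hh j).2.2.2.1
      hns := fun j => (hh j).2.2.2.2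
      hpp := hpp
      hg1 := fun j => by
        apply rd_theta ha
        refine le_trans ?_ (le_trans (le_add_of_nonneg_left (h2 j)) (hω.time j))
        apply mul_le_mul_of_nonneg_right _ (by linarith)
        push_cast
        rw [abs_sub_comm]
        refine le_trans ?_ (le_abs_self _)
        linarith
      hg2 := fun j => by
        apply rd_theta ha
        refine le_trans ?_ (le_trans (le_add_of_nonneg_left (h2 j)) (hω.time j))
        apply mul_le_mul_of_nonneg_right _ (by linarith)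
        push_cast
        refine le_trans ?_ (le_abs_self _)
        linarith }
  exact ⟨D, ⟨fun j => rfl, fun j => rfl, fun j => rfl⟩, fun j => rfl,
    fun j => ⟨rfl, rfl, rfl, rfl, rfl⟩⟩

theorem Adm_shift {a : ℝ} {ω : ℤ → T2 × ℕ × ℕ} (hω : Adm a ω) (P : ℤ) :
    Adm a (fun j => ω (j + P)) := by
  refine ⟨fun j => hω.bad _, fun j => ?_⟩
  have h := hω.time (j + P)
  rw [show j + P + 1 = j + 1 + P by ring] at h
  exact h

/-- **the coding** -/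
theorem Zf_ex {a : ℝ} (ha : 256 ≤ |a|) : ∃ Zf : (ℤ → T2 × ℕ × ℕ) → T2,
    (∀ ω, Adm a ω → (S a)^[(ω 0).2.2] (Zf ω) = Zf (fun j => ω (j + 1))) ∧
    (∀ ω, Adm a ω → dist (Zf ω) (ω 0).1 ≤ rd (√|a|) (ω 0).2.1 / 2) ∧
    (∀ ω, Adm a ω → Zf ω ∈ Lam a) ∧
    (∀ (m : ℕ) ω ω', Adm a ω → Adm a ω' → (∀ j : ℤ, |j| ≤ m + 3 → ω' j = ω j) →
      dist (Zf ω') (Zf ω) ≤ 12 * (13 / 16) ^ m) := by
  classical
  have ha0 : 0 < |a| := by linarith
  obtain ⟨X, U, U', h⟩ := dat_ex ha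
  choose D hD1 hD2 hD3 using h
  have hm := fun ω hω => (D ω hω).main
  choose Z h1 h2 h3 h4 using hm
  have hagree : ∀ (P : ℤ) (m : ℕ) ω ω' (hω : Adm a ω) (hω' : Adm a ω'),
      (∀ j : ℤ, |j| ≤ m + 3 → ω' j = ω (j + P)) → ∀ j : ℤ, |j| ≤ ((m + 2 : ℕ) : ℤ) →
      Agree (D ω' hω') (D ω hω) P j := by
    intro P m ω ω' hω hω' he j hj
    push_cast at hj
    have e1 : ω' j = ω (j + P) := he j (by omega)
    have e2 : ω' (j + 1) = ω (j + P + 1) := by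
      rw [he (j + 1) (by
        have := abs_add_le j 1
        rw [abs_one] at this
        omega), show j + 1 + P = j + P + 1 by ring]
    obtain ⟨a1, a2, a3, a4, a5⟩ := hD3 ω' hω' j
    obtain ⟨b1, b2, b3, b4, b5⟩ := hD3 ω hω (j + P)
    exact ⟨by rw [a1, b1, e1], by rw [a2, b2, e1], by rw [a3, b3, e1, e2],
      by rw [a4, b4, e1, e2], by rw [a5, b5, e1, e2]⟩
  have hloc : ∀ (P : ℤ) (m : ℕ) ω ω' (hω : Adm a ω) (hω' : Adm a ω'),
      (∀ j : ℤ, |j| ≤ m + 3 → ω' j = ω (j + P)) →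
      dist (Z ω' hω' 0) (Z ω hω P) ≤ 12 * (13 / 16) ^ m := by
    intro P m ω ω' hω hω' he
    have hap := ap_loc (hD1 ω hω) (hD1 ω' hω') (hagree P m ω ω' hω hω' he) (l := m) (j := 0)
      (by rw [abs_zero]; push_cast; omega)
    rw [zero_add] at hap
    have g1 := h4 ω' hω' 0 m
    have g2 := h4 ω hω P m
    rw [← hap] at g2
    calc dist (Z ω' hω' 0) (Z ω hω P) ≤ dist (Z ω' hω' 0) ((D ω' hω').ap m 0) +
          dist ((D ω' hω').ap m 0) (Z ω hω P) := dist_triangle _ _ _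
      _ ≤ 12 * (13 / 16) ^ m := by
        rw [dist_comm ((D ω' hω').ap m 0)]
        linarith
  refine ⟨fun ω => if hω : Adm a ω then Z ω hω 0 else 0, ?_, ?_, ?_, ?_⟩
  · intro ω hω
    have hω' := Adm_shift hω 1
    simp only
    rw [dif_pos hω, dif_pos hω']
    have e1 := h1 ω hω 0
    rw [(hD3 ω hω 0).1, (hD1 ω hω).s, zero_add] at e1
    rw [e1]
    have hlim : Tendsto (fun m : ℕ => 12 * ((13:ℝ) / 16) ^ m) atTop (𝓝 (12 * 0)) :=
      (tendsto_pow_atTop_nhds_zero_of_lt_one (by norm_num) (by norm_num)).const_mul 12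
    rw [mul_zero] at hlim
    have hle : dist (Z (fun j => ω (j + 1)) hω' 0) (Z ω hω 1) ≤ 0 :=
      ge_of_tendsto' hlim fun m => hloc 1 m ω _ hω hω' (fun j _ => rfl)
    exact (dist_le_zero.1 hle).symm
  · intro ω hω
    simp only
    rw [dif_pos hω]
    have e := h2 ω hω 0
    rw [(hD3 ω hω 0).2.1, hD2] at e
    refine e.trans ?_
    rw [rd_add, rd_twenty]
    have h4 : 11 * |a| * (1 / |a| ^ 5) ≤ 1 / 2 := by
      rw [mul_one_div, div_le_div_iff₀ (by positivity) (by norm_num)]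
      have h5 : |a| ^ 5 = |a| ^ 4 * |a| := by ring
      have : (256:ℝ) ^ 4 ≤ |a| ^ 4 := pow_le_pow_left₀ (by norm_num) ha 4
      have h6 : 256 ^ 4 * |a| ≤ |a| ^ 4 * |a| := mul_le_mul_of_nonneg_right this ha0.le
      rw [h5]
      linarith
    have h6 := rd_nonneg (√|a|) (ω 0).2.1
    calc 11 * |a| * (rd (√|a|) (ω 0).2.1 * (1 / |a| ^ 5)) =
        (11 * |a| * (1 / |a| ^ 5)) * rd (√|a|) (ω 0).2.1 := by ring
      _ ≤ 1 / 2 * rd (√|a|) (ω 0).2.1 := mul_le_mul_of_nonneg_right h4 h6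
      _ = _ := by ring
  · intro ω hω
    simp only
    rw [dif_pos hω]
    refine Z_Lam (Equiv.addRight (1:ℤ)) (fun j => ?_) (fun j => ?_) (h3 ω hω) 0
    · have := (D ω hω).hN j
      omega
    · have e := h1 ω hω j
      rw [(hD1 ω hω).s] at e
      exact e
  · intro m ω ω' hω hω' he
    simp only
    rw [dif_pos hω, dif_pos hω']
    exact hloc 0 m ω ω' hω hω' (fun j hj => by rw [add_zero]; exact he j hj)

end Pool.Agent.H52.GEO
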