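import Mathlib
import Pool.Agent.H52.STD.Wd10

set_option autoImplicit false

/-!
# Mixing and periodic points
-/

namespace Pool.Agent.H52.GEO

open Real MeasureTheory Function Set Filter Topology
open Pool.Agent.TH705.SM Pool.Agent.Y332.SM Pool.Agent.N317.SM
open Pool.Agent.H52.STD (BadS W0)
open scoped ENNReal

/-- the properties of the coding -/
structure Coding (a : ℝ) (Zf : (ℤ → T2 × ℕ × ℕ) → T2) : Prop where
  step : ∀ ω, Adm a ω → (S a)^[(ω 0).2.2] (Zf ω) = Zf (fun j => ω (j + 1))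
  near : ∀ ω, Adm a ω → dist (Zf ω) (ω 0).1 ≤ rd (√|a|) (ω 0).2.1 / 2
  mem : ∀ ω, Adm a ω → Zf ω ∈ Lam a
  loc : ∀ (m : ℕ) ω ω', Adm a ω → Adm a ω' → (∀ j : ℤ, |j| ≤ m + 3 → ω' j = ω j) →
    dist (Zf ω') (Zf ω) ≤ 12 * (13 / 16) ^ m

/-- the sum of the times -/
def tm (ω : ℤ → T2 × ℕ × ℕ) (j : ℕ) : ℕ := ∑ i ∈ Finset.range j, (ω (i : ℤ)).2.2

variable {a : ℝ} {Zf : (ℤ → T2 × ℕ × ℕ) → T2}

theorem Coding.shift (h : Coding a Zf) {ω : ℤ → T2 × ℕ × ℕ} (hω : Adm a ω) (j : ℕ) :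
    (S a)^[tm ω j] (Zf ω) = Zf (fun i => ω (i + (j : ℤ))) := by
  induction j with
  | zero => simp [tm]
  | succ j ih =>
    have e1 : tm ω (j + 1) = (ω (j : ℤ)).2.2 + tm ω j := by
      unfold tm
      rw [Finset.sum_range_succ, add_comm]
    have h1 := h.step _ (Adm_shift hω (j : ℤ))
    simp only [zero_add] at h1
    rw [e1, iterate_add_apply, ih, h1]
    congr 1
    funext i
    congr 1
    push_cast
    ring

/-- the dense part of the set -/
def L0 (a : ℝ) (Zf : (ℤ → T2 × ℕ × ℕ) → T2) : Set T2 :=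
  {z | ∃ ω, Adm a ω ∧ ∃ k : ℕ, z = (S a)^[k] (Zf ω)}

theorem L0_image (ha : 256 ≤ |a|) (h : Coding a Zf) : S a '' L0 a Zf = L0 a Zf := by
  apply Subset.antisymm
  · rintro _ ⟨_, ⟨ω, hω, k, rfl⟩, rfl⟩
    exact ⟨ω, hω, k + 1, by rw [iterate_succ_apply']⟩
  · rintro _ ⟨ω, hω, k, rfl⟩
    have hω' := Adm_shift hω (-1)
    have h1 := h.step _ hω'
    have h2 := Adm_N ha hω' 0
    have e : (fun j : ℤ => ω (j + 1 + -1)) = ω := by
      funext j
      congr 1
      ring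
    rw [e] at h1
    refine ⟨(S a)^[k + ((ω (0 + -1)).2.2 - 1)] (Zf fun j => ω (j + -1)), ⟨_, hω', _, rfl⟩, ?_⟩
    rw [← iterate_succ_apply' (S a), ← h1, ← iterate_add_apply]
    congr 1
    omega

theorem Lam_iter0 {z : T2} (hz : z ∈ Lam a) (k : ℕ) : (S a)^[k] z ∈ Lam a := by
  induction k with
  | zero => exact hz
  | succ k ih =>
    rw [iterate_succ_apply']
    exact Lam_S ih

theorem L0_sub (h : Coding a Zf) : L0 a Zf ⊆ Lam a := by
  rintro _ ⟨ω, hω, k, rfl⟩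
  exact Lam_iter0 (h.mem ω hω) k

theorem clL_image (ha : 256 ≤ |a|) (h : Coding a Zf) :
    S a '' closure (L0 a Zf) = closure (L0 a Zf) := by
  have h1 : IsClosedMap (S a) := (S_cont a).isClosedMap
  rw [← h1.closure_image_eq_of_continuous (S_cont a), L0_image ha h]

/-- glueing two sequences -/
theorem glue (ha : 256 ≤ |a|) (h : Coding a Zf) {ω ω' : ℤ → T2 × ℕ × ℕ} (hω : Adm a ω)
    (hω' : Adm a ω') (m : ℕ) : ∃ N0 : ℕ, ∀ N, N0 ≤ N → ∃ Ω Ω', Adm a Ω ∧ Adm a Ω' ∧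
      (∀ j : ℤ, |j| ≤ m → Ω j = ω j) ∧ (∀ j : ℤ, |j| ≤ m → Ω' j = ω' j) ∧
      (S a)^[N] (Zf Ω) = Zf Ω' := by
  obtain ⟨Om, hOm⟩ : ∃ Om : ℕ → ℤ → T2 × ℕ × ℕ, Om = fun (K : ℕ) (j : ℤ) =>
      if j ≤ (m : ℤ) then ω j else if j = (m : ℤ) + 1 then ((ω (m + 1)).1, (ω (m + 1)).2.1, K)
      else ω' (j - (2 * (m : ℤ) + 2)) := ⟨_, rfl⟩
  have o1 : ∀ (K : ℕ) (j : ℤ), j ≤ (m : ℤ) → Om K j = ω j := by
    intro K j hj
    rw [hOm]
    simp only
    rw [if_pos hj]
  have o2 : ∀ K : ℕ, Om K ((m : ℤ) + 1) = ((ω (m + 1)).1, (ω (m + 1)).2.1, K) := by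
    intro K
    rw [hOm]
    simp only
    rw [if_neg (by omega), if_pos trivial]
  have o3 : ∀ (K : ℕ) (j : ℤ), (m : ℤ) + 2 ≤ j → Om K j = ω' (j - (2 * (m : ℤ) + 2)) := by
    intro K j hj
    rw [hOm]
    simp only
    rw [if_neg (by omega), if_neg (by omega)]
  obtain ⟨Ns, hNs⟩ := exists_nat_ge (3600 * (((ω (m + 1)).2.1 : ℝ) + (ω' (-m)).2.1 + log |a|) +
    |((ω (m + 1)).2.1 : ℝ) - (ω' (-m)).2.1| * log |a|)
  have hadm : ∀ K, Ns ≤ K → Adm a (Om K) := by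
    intro K hK
    refine ⟨fun j => ?_, fun j => ?_⟩
    · rcases lt_trichotomy j (m + 1) with h1 | h1 | h1
      · rw [o1 K j (by omega)]
        exact hω.bad j
      · rw [h1, o2]
        exact hω.bad (m + 1)
      · rw [o3 K j (by omega)]
        exact hω'.bad _
    · rcases lt_trichotomy j (m + 1) with h1 | h1 | h1
      · have e : (Om K (j + 1)).2.1 = (ω (j + 1)).2.1 := by
          rcases lt_or_ge j (m : ℤ) with h2 | h2
          · rw [o1 K (j + 1) (by omega)]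
          · have h3 : j = m := by omega
            rw [h3, o2]
        rw [e, o1 K j (by omega)]
        exact hω.time j
      · rw [h1, o2, o3 K ((m : ℤ) + 1 + 1) (by omega), show (m:ℤ) + 1 + 1 - (2 * m + 2) = -m by ring]
        exact hNs.trans (by exact_mod_cast hK)
      · rw [o3 K j (by omega), o3 K (j + 1) (by omega),
          show j + 1 - (2 * (m:ℤ) + 2) = j - (2 * m + 2) + 1 by ring]
        exact hω'.time _
  have htm : ∀ K, tm (Om K) (2 * m + 2) = tm (Om 0) (2 * m + 2) + K := by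
    intro K
    unfold tm
    have e : ∀ i ∈ Finset.range (2 * m + 2), (Om K (i : ℤ)).2.2 =
        (Om 0 (i : ℤ)).2.2 + if i = m + 1 then K else 0 := by
      intro i _
      rcases lt_trichotomy i (m + 1) with h1 | h1 | h1
      · rw [o1 K i (by omega), o1 0 i (by omega), if_neg (by omega), add_zero]
      · have e1 : ((i : ℕ) : ℤ) = m + 1 := by omega
        rw [e1, o2, o2, if_pos h1, zero_add]
      · rw [o3 K i (by omega), o3 0 i (by omega), if_neg (by omega), add_zero]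
    rw [Finset.sum_congr rfl e, Finset.sum_add_distrib, Finset.sum_ite_eq' ,
      if_pos (Finset.mem_range.2 (by omega))]
  refine ⟨tm (Om 0) (2 * m + 2) + Ns, fun N hN => ?_⟩
  set K := N - tm (Om 0) (2 * m + 2) with hK
  have hKs : Ns ≤ K := by omega
  have hA := hadm K hKs
  refine ⟨Om K, fun i => Om K (i + ((2 * m + 2 : ℕ) : ℤ)), hA, Adm_shift hA _, ?_, ?_, ?_⟩
  · intro j hj
    exact o1 K j (le_trans (le_abs_self j) hj)
  · intro j hj
    have h1 := neg_abs_le j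
    show Om K (j + ((2 * m + 2 : ℕ) : ℤ)) = ω' j
    rw [o3 K _ (by push_cast; omega)]
    congr 1
    push_cast
    ring
  · rw [← h.shift hA, htm]
    congr 1
    omega

end Pool.Agent.H52.GEO
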