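import Mathlib
import Pool.Agent.H52.STD.Wd11

set_option autoImplicit false

/-!
# The mixing hyperbolic set
-/

namespace Pool.Agent.H52.GEO

open Real MeasureTheory Function Set Filter Topology
open Pool.Agent.TH705.SM Pool.Agent.Y332.SM Pool.Agent.N317.SM
open scoped ENNReal

variable {a : ℝ} {Zf : (ℤ → T2 × ℕ × ℕ) → T2}

theorem exists_m {ε : ℝ} (hε : 0 < ε) : ∃ m : ℕ, 12 * ((13:ℝ) / 16) ^ m < ε := by
  obtain ⟨m, hm⟩ := exists_pow_lt_of_lt_one (by positivity : 0 < ε / 12)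
    (by norm_num : (13:ℝ) / 16 < 1)
  refine ⟨m, ?_⟩
  rw [lt_div_iff₀ (by norm_num)] at hm
  linarith

/-- open sets contain images of all close codes -/
theorem open_code (h : Coding a Zf) {U : Set T2} (hU : IsOpen U)
    (hne : (U ∩ closure (L0 a Zf)).Nonempty) : ∃ ω, Adm a ω ∧ ∃ k m : ℕ, ∀ Ω, Adm a Ω →
      (∀ j : ℤ, |j| ≤ m → Ω j = ω j) → (S a)^[k] (Zf Ω) ∈ U := by
  obtain ⟨x, hxU, hx⟩ := hne
  obtain ⟨y, hyU, ω, hω, k, rfl⟩ := mem_closure_iff.1 hx U hU hxU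
  have hc : Continuous (S a)^[k] := (S_cont a).iterate k
  obtain ⟨ε, hε, hb⟩ := Metric.isOpen_iff.1 (hU.preimage hc) (Zf ω) hyU
  obtain ⟨m, hm⟩ := exists_m hε
  refine ⟨ω, hω, k, m + 3, fun Ω hΩ he => hb ?_⟩
  rw [Metric.mem_ball]
  refine lt_of_le_of_lt (h.loc m ω Ω hω hΩ fun j hj => he j ?_) hm
  push_cast
  exact hj

/-- **mixing** -/
theorem mixing (ha : 256 ≤ |a|) (h : Coding a Zf) {U V : Set T2} (hU : IsOpen U)
    (hV : IsOpen V) (hUn : (U ∩ closure (L0 a Zf)).Nonempty)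
    (hVn : (V ∩ closure (L0 a Zf)).Nonempty) :
    ∃ N0 : ℕ, ∀ N, N0 ≤ N → ∃ z ∈ closure (L0 a Zf), z ∈ U ∧ (S a)^[N] z ∈ V := by
  obtain ⟨ω, hω, k, m, h1⟩ := open_code h hU hUn
  obtain ⟨ω', hω', k', m', h2⟩ := open_code h hV hVn
  obtain ⟨N0, hN0⟩ := glue ha h hω hω' (max m m')
  refine ⟨N0 + k', fun N hN => ?_⟩
  obtain ⟨Ω, Ω', g1, g2, g3, g4, g5⟩ := hN0 (N + k - k') (by omega)
  have hm : ((max m m' : ℕ) : ℤ) = max (m:ℤ) (m':ℤ) := by push_cast; rfl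
  refine ⟨(S a)^[k] (Zf Ω), subset_closure ⟨Ω, g1, k, rfl⟩, h1 Ω g1 fun j hj => g3 j ?_, ?_⟩
  · rw [hm]
    exact hj.trans (le_max_left _ _)
  · have e : (S a)^[N] ((S a)^[k] (Zf Ω)) = (S a)^[k'] ((S a)^[N + k - k'] (Zf Ω)) := by
      rw [← iterate_add_apply, ← iterate_add_apply]
      congr 1
      omega
    rw [e, g5]
    refine h2 Ω' g2 fun j hj => g4 j ?_
    rw [hm]
    exact hj.trans (le_max_right _ _)

/-- periodic codes -/
theorem per_code (ha : 256 ≤ |a|) (h : Coding a Zf) {ω : ℤ → T2 × ℕ × ℕ} (hω : Adm a ω)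
    (m : ℕ) : ∃ Ω, Adm a Ω ∧ (∀ j : ℤ, |j| ≤ m → Ω j = ω j) ∧
      ∃ P : ℕ, 1 ≤ P ∧ (S a)^[P] (Zf Ω) = Zf Ω := by
  obtain ⟨Ns, hNs⟩ := exists_nat_ge (3600 * (((ω (m + 1)).2.1 : ℝ) + (ω (-m)).2.1 + log |a|) +
    |((ω (m + 1)).2.1 : ℝ) - (ω (-m)).2.1| * log |a|)
  obtain ⟨q, hq⟩ : ∃ q : ℤ, q = 2 * (m : ℤ) + 2 := ⟨_, rfl⟩
  obtain ⟨w, hw⟩ : ∃ w : ℤ → T2 × ℕ × ℕ, w = fun i : ℤ => if i ≤ 2 * (m : ℤ) then ω (i - m) else
      ((ω (m + 1)).1, (ω (m + 1)).2.1, Ns) := ⟨_, rfl⟩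
  have w1 : ∀ i : ℤ, i ≤ 2 * (m : ℤ) → w i = ω (i - m) := by
    intro i hi
    rw [hw]
    simp only
    rw [if_pos hi]
  have w2 : w (2 * (m : ℤ) + 1) = ((ω (m + 1)).1, (ω (m + 1)).2.1, Ns) := by
    rw [hw]
    simp only
    rw [if_neg (by omega)]
  obtain ⟨Ω, hΩ⟩ : ∃ Ω : ℤ → T2 × ℕ × ℕ, Ω = fun j : ℤ => w ((j + m) % q) := ⟨_, rfl⟩
  have hq0 : 0 < q := by omega
  have hA : Adm a Ω := by
    refine ⟨fun j => ?_, fun j => ?_⟩
    · rw [hΩ]
      simp only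
      have b1 := Int.emod_nonneg (j + m) hq0.ne'
      have b2 := Int.emod_lt_of_pos (j + m) hq0
      rcases lt_or_ge ((j + m) % q) (2 * (m : ℤ) + 1) with h1 | h1
      · rw [w1 _ (by omega)]
        exact hω.bad _
      · have e : (j + m) % q = 2 * (m : ℤ) + 1 := by omega
        rw [e, w2]
        exact hω.bad (m + 1)
    · rw [hΩ]
      simp only
      have b1 := Int.emod_nonneg (j + m) hq0.ne'
      have b2 := Int.emod_lt_of_pos (j + m) hq0
      rcases lt_or_ge ((j + m) % q) (2 * (m : ℤ) + 1) with h1 | h1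
      · have e1 : (j + 1 + m) % q = (j + m) % q + 1 := by
          have : j + 1 + m = (j + m) + 1 := by ring
          rw [this, Int.add_emod, Int.emod_eq_of_lt (a := 1) (by norm_num) (by omega)]
          exact Int.emod_eq_of_lt (by omega) (by omega)
        rw [e1, w1 _ (by omega)]
        have e2 : (w ((j + m) % q + 1)).2.1 = (ω ((j + m) % q - m + 1)).2.1 := by
          rcases lt_or_ge ((j + m) % q) (2 * (m : ℤ)) with h2 | h2
          · rw [w1 _ (by omega)]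
            congr 3
            ring
          · have e : (j + m) % q = 2 * (m : ℤ) := by omega
            rw [e, w2]
            simp only
            congr 3
            ring
        rw [e2]
        exact hω.time _
      · have e : (j + m) % q = 2 * (m : ℤ) + 1 := by omega
        have e1 : (j + 1 + m) % q = 0 := by
          have h3 : j + 1 + m = (j + m) + 1 := by ring
          rw [h3, Int.add_emod, Int.emod_eq_of_lt (a := 1) (by norm_num) (by omega), e,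
            show 2 * (m : ℤ) + 1 + 1 = q by omega, Int.emod_self]
        rw [e1, e, w2, w1 0 (by omega), zero_sub]
        exact hNs
  refine ⟨Ω, hA, ?_, tm Ω (2 * m + 2), ?_, ?_⟩
  · intro j hj
    rw [abs_le] at hj
    rw [hΩ]
    simp only
    rw [Int.emod_eq_of_lt (by omega) (by omega), w1 _ (by omega)]
    congr 1
    ring
  · unfold tm
    have h1 := Adm_N ha hA 0
    have h2 : (Ω ((0 : ℕ) : ℤ)).2.2 ≤ ∑ i ∈ Finset.range (2 * m + 2), (Ω (i : ℤ)).2.2 :=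
      Finset.single_le_sum (f := fun i : ℕ => (Ω (i : ℤ)).2.2) (fun _ _ => Nat.zero_le _)
        (Finset.mem_range.2 (by omega))
    have h3 : ((0 : ℕ) : ℤ) = 0 := rfl
    rw [h3] at h2
    omega
  · rw [h.shift hA]
    congr 1
    funext j
    rw [hΩ]
    simp only
    congr 1
    have : j + ((2 * m + 2 : ℕ) : ℤ) + m = (j + m) + q := by
      push_cast
      omega
    rw [this, Int.add_emod_right]

/-- **periodic points are dense** -/
theorem per_dense (ha : 256 ≤ |a|) (h : Coding a Zf) {U : Set T2} (hU : IsOpen U)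
    (hUn : (U ∩ closure (L0 a Zf)).Nonempty) :
    ∃ z ∈ closure (L0 a Zf), z ∈ U ∧ ∃ P : ℕ, 1 ≤ P ∧ (S a)^[P] z = z := by
  obtain ⟨ω, hω, k, m, h1⟩ := open_code h hU hUn
  obtain ⟨Ω, g1, g2, P, g3, g4⟩ := per_code ha h hω m
  refine ⟨(S a)^[k] (Zf Ω), subset_closure ⟨Ω, g1, k, rfl⟩, h1 Ω g1 g2, P, g3, ?_⟩
  rw [← iterate_add_apply, add_comm, iterate_add_apply, g4]

/-- **specification** -/
theorem spec2 (h : Coding a Zf) {J : Type*} (s : Equiv.Perm J) (p : J → T2)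
    (n N : J → ℕ) (hp : ∀ j, p j ∉ BC a (n j))
    (hN : ∀ j, 3600 * (n j + n (s j) + log |a|) + |(n j : ℝ) - n (s j)| * log |a| ≤ N j) :
    ∃ Z : J → T2, ∀ j, Z j ∈ closure (L0 a Zf) ∧ dist (Z j) (p j) ≤ rd (√|a|) (n j) / 2 ∧
      (S a)^[N j] (Z j) = Z (s j) := by
  obtain ⟨w, hw⟩ : ∃ w : J → ℤ → T2 × ℕ × ℕ, w = fun j i =>
      (p ((s ^ i) j), n ((s ^ i) j), N ((s ^ i) j)) := ⟨_, rfl⟩
  have hs : ∀ (i : ℤ) j, (s ^ (i + 1)) j = s ((s ^ i) j) := by
    intro i j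
    rw [add_comm, zpow_add, zpow_one, Equiv.Perm.mul_apply]
  have hs' : ∀ (i : ℤ) j, (s ^ (i + 1)) j = (s ^ i) (s j) := by
    intro i j
    rw [zpow_add, zpow_one, Equiv.Perm.mul_apply]
  have hA : ∀ j, Adm a (w j) := by
    intro j
    refine ⟨fun i => ?_, fun i => ?_⟩
    · rw [hw]
      exact hp _
    · rw [hw]
      simp only
      rw [hs]
      exact hN _
  have hw0 : ∀ j, w j 0 = (p j, n j, N j) := by
    intro j
    rw [hw]
    rfl
  refine ⟨fun j => Zf (w j), fun j => ⟨subset_closure ⟨_, hA j, 0, rfl⟩, ?_, ?_⟩⟩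
  · have := h.near _ (hA j)
    rw [hw0] at this
    exact this
  · have := h.step _ (hA j)
    rw [hw0] at this
    simp only at this ⊢
    rw [this]
    congr 1
    funext i
    rw [hw]
    simp only
    rw [hs']

end Pool.Agent.H52.GEO
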