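import Mathlib
import Pool.Agent.H52.STD.Wd5

set_option autoImplicit false

/-!
# The hyperbolic splitting
-/

namespace Pool.Agent.H52.GEO

open Real MeasureTheory Function Set Filter Topology
open Pool.Agent.TH705.SM Pool.Agent.Y332.SM Pool.Agent.N317.SM
open scoped ENNReal

/-- the product of two consecutive slopes -/
noncomputable def pr (a : ℝ) (w : T2) : ℝ := Lc a w.1 * Lc a (S a w).1

/-- approximations of the slope of the stable direction -/
noncomputable def Gn (a : ℝ) : ℕ → T2 → ℝ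
  | 0, _ => 1
  | n + 1, w => 1 / (1 - Gn a n (S a w) / pr a w)

theorem Hs_pr {a : ℝ} {w : T2} (hw : w ∈ Hs a) : 13 ≤ |pr a w| := hw 0

theorem quot_le {g q : ℝ} (hg : |g| ≤ 8 / 7) (hq : 13 ≤ |q|) : |g / q| ≤ 8 / 91 := by
  rw [abs_div, div_le_div_iff₀ (by linarith) (by norm_num)]
  nlinarith

theorem inv_bounds {x : ℝ} (hx : |x| ≤ 8 / 91) : 7 / 8 ≤ 1 / (1 - x) ∧ 1 / (1 - x) ≤ 8 / 7 := by
  rw [abs_le] at hx
  have h : 0 < 1 - x := by linarith
  constructor
  · rw [div_le_div_iff₀ (by norm_num) h]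
    linarith
  · rw [div_le_div_iff₀ h (by norm_num)]
    linarith

theorem Gn_bounds {a : ℝ} (n : ℕ) : ∀ w ∈ Hs a, 7 / 8 ≤ Gn a n w ∧ Gn a n w ≤ 8 / 7 := by
  induction n with
  | zero => intro w _; unfold Gn; constructor <;> norm_num
  | succ n ih =>
    intro w hw
    obtain ⟨h1, h2⟩ := ih (S a w) (Hs_S hw)
    exact inv_bounds (quot_le (by rw [abs_of_nonneg (by linarith)]; exact h2) (Hs_pr hw))

theorem Gn_diff {a : ℝ} (n : ℕ) : ∀ w ∈ Hs a, |Gn a n w - Gn a (n + 1) w| ≤ 1 * (1 / 8) ^ n := by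
  induction n with
  | zero =>
    intro w hw
    have h1 := Gn_bounds 1 w hw
    have h2 : Gn a 0 w = 1 := rfl
    rw [h2, abs_le]
    norm_num
    constructor <;> linarith [h1.1, h1.2]
  | succ n ih =>
    intro w hw
    have h := ih (S a w) (Hs_S hw)
    obtain ⟨b1, b2⟩ := Gn_bounds n (S a w) (Hs_S hw)
    obtain ⟨b3, b4⟩ := Gn_bounds (n + 1) (S a w) (Hs_S hw)
    have hq := Hs_pr hw
    have q1 := quot_le (g := Gn a n (S a w)) (by rw [abs_of_nonneg (by linarith)]; exact b2) hq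
    have q2 := quot_le (g := Gn a (n + 1) (S a w))
      (by rw [abs_of_nonneg (by linarith)]; exact b4) hq
    show |1 / (1 - Gn a n (S a w) / pr a w) - 1 / (1 - Gn a (n + 1) (S a w) / pr a w)| ≤ _
    set x := Gn a n (S a w) / pr a w with hx
    set y := Gn a (n + 1) (S a w) / pr a w with hy
    have i1 := inv_bounds q1
    have i2 := inv_bounds q2
    have hx1 : 0 < 1 - x := by rw [abs_le] at q1; linarith
    have hy1 : 0 < 1 - y := by rw [abs_le] at q2; linarith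
    have e : 1 / (1 - x) - 1 / (1 - y) = (1 / (1 - x)) * (1 / (1 - y)) * (x - y) := by
      field_simp
      ring
    have e2 : x - y = (Gn a n (S a w) - Gn a (n + 1) (S a w)) / pr a w := by
      rw [hx, hy]
      ring
    rw [e, abs_mul, abs_mul, abs_of_pos (by positivity : 0 < 1 / (1 - x)),
      abs_of_pos (by positivity : 0 < 1 / (1 - y)), e2, abs_div]
    have h3 : |Gn a n (S a w) - Gn a (n + 1) (S a w)| / |pr a w| ≤ 1 * (1 / 8) ^ n / 13 := by
      apply div_le_div₀ (by positivity) h (by norm_num) hq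
    have h4 : (1 / (1 - x)) * (1 / (1 - y)) ≤ 8 / 7 * (8 / 7) :=
      mul_le_mul i1.2 i2.2 (by linarith [i2.1]) (by norm_num)
    have h5 : (1 / (1 - x)) * (1 / (1 - y)) * (|Gn a n (S a w) - Gn a (n + 1) (S a w)| /
        |pr a w|) ≤ 8 / 7 * (8 / 7) * (1 * (1 / 8) ^ n / 13) :=
      mul_le_mul h4 h3 (by positivity) (by norm_num)
    refine h5.trans ?_
    rw [pow_succ]
    have h6 : (0:ℝ) < (1 / 8) ^ n := by positivity
    linarith

/-- the limit -/
noncomputable def Uu (a : ℝ) (w : T2) : ℝ := limUnder atTop (fun n => Gn a n w)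

theorem Uu_tendsto {a : ℝ} {w : T2} (hw : w ∈ Hs a) :
    Tendsto (fun n => Gn a n w) atTop (𝓝 (Uu a w)) := by
  have h : CauchySeq (fun n => Gn a n w) := by
    apply cauchySeq_of_le_geometric (1 / 8) 1 (by norm_num)
    intro n
    rw [Real.dist_eq]
    exact Gn_diff n w hw
  exact h.tendsto_limUnder

theorem Uu_bounds {a : ℝ} {w : T2} (hw : w ∈ Hs a) : 7 / 8 ≤ Uu a w ∧ Uu a w ≤ 8 / 7 :=
  ⟨ge_of_tendsto' (Uu_tendsto hw) fun n => (Gn_bounds n w hw).1,
    le_of_tendsto' (Uu_tendsto hw) fun n => (Gn_bounds n w hw).2⟩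

theorem Uu_quot {a : ℝ} {w : T2} (hw : w ∈ Hs a) : |Uu a (S a w) / pr a w| ≤ 8 / 91 := by
  obtain ⟨h1, h2⟩ := Uu_bounds (Hs_S hw)
  exact quot_le (by rw [abs_of_nonneg (by linarith)]; exact h2) (Hs_pr hw)

theorem Uu_eq {a : ℝ} {w : T2} (hw : w ∈ Hs a) : Uu a w = 1 / (1 - Uu a (S a w) / pr a w) := by
  have h1 := (tendsto_add_atTop_iff_nat 1).2 (Uu_tendsto hw)
  have hne : 1 - Uu a (S a w) / pr a w ≠ 0 := by
    have := Uu_quot hw
    rw [abs_le] at this
    linarith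
  have h2 : Tendsto (fun n => Gn a (n + 1) w) atTop (𝓝 (1 / (1 - Uu a (S a w) / pr a w))) := by
    show Tendsto (fun n => 1 / (1 - Gn a n (S a w) / pr a w)) atTop _
    exact (tendsto_const_nhds (x := (1:ℝ))).div
      (tendsto_const_nhds.sub ((Uu_tendsto (Hs_S hw)).div_const _)) hne
  exact tendsto_nhds_unique h1 h2

/-- the slope of the stable direction -/
noncomputable def mm (a : ℝ) (w : T2) : ℝ := Uu a w / Lc a w.1

theorem Lc_ne {a : ℝ} {w : T2} (hw : w ∈ Hs a) : Lc a w.1 ≠ 0 := by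
  intro h
  have := Hs_pr hw
  unfold pr at this
  rw [h, zero_mul, abs_zero] at this
  linarith

theorem mm_ne {a : ℝ} {w : T2} (hw : w ∈ Hs a) : mm a w ≠ 0 := by
  have := (Uu_bounds hw).1
  exact div_ne_zero (by linarith) (Lc_ne hw)

theorem mm_eq {a : ℝ} {w : T2} (hw : w ∈ Hs a) :
    Lc a w.1 * mm a w - 1 = mm a w * mm a (S a w) := by
  have h1 := Lc_ne hw
  have h2 := Lc_ne (Hs_S hw)
  have h3 := Uu_eq hw
  have hne : 1 - Uu a (S a w) / pr a w ≠ 0 := by
    have := Uu_quot hw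
    rw [abs_le] at this
    linarith
  rw [eq_div_iff hne] at h3
  unfold mm
  rw [mul_div_cancel₀ _ h1]
  unfold pr at h3
  have e : Uu a w / Lc a w.1 * (Uu a (S a w) / Lc a (S a w).1) =
      Uu a w * (Uu a (S a w) / (Lc a w.1 * Lc a (S a w).1)) := by
    field_simp
  rw [e]
  linarith

theorem mm_mul {a : ℝ} {w : T2} (hw : w ∈ Hs a) : |mm a w * mm a (S a w)| ≤ 1 / 9 := by
  obtain ⟨h1, h2⟩ := Uu_bounds hw
  have h3 := Uu_quot hw
  have e : mm a w * mm a (S a w) = Uu a w * (Uu a (S a w) / pr a w) := by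
    unfold mm pr
    have := Lc_ne hw
    have := Lc_ne (Hs_S hw)
    field_simp
  rw [e, abs_mul, abs_of_nonneg (by linarith)]
  calc Uu a w * |Uu a (S a w) / pr a w| ≤ 8 / 7 * (8 / 91) :=
        mul_le_mul h2 h3 (abs_nonneg _) (by norm_num)
    _ ≤ 1 / 9 := by norm_num

theorem mm_swap {a : ℝ} {z : T2} (hz : z ∈ Lam a) : |mm a z * mm a (Prod.swap z)| < 1 := by
  obtain ⟨h1, h2⟩ := Uu_bounds (Lam_Hs hz)
  obtain ⟨h3, h4⟩ := Uu_bounds (Lam_swap hz)
  have h5 := Lam_prod hz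
  have e : mm a z * mm a (Prod.swap z) = Uu a z * Uu a (Prod.swap z) / (Lc a z.1 * Lc a z.2) := by
    unfold mm
    rw [Prod.fst_swap, div_mul_div_comm]
  rw [e, abs_div, div_lt_one (by linarith), abs_of_nonneg (by positivity)]
  have : Uu a z * Uu a (Prod.swap z) ≤ 8 / 7 * (8 / 7) := mul_le_mul h2 h4 (by linarith) (by norm_num)
  linarith

end Pool.Agent.H52.GEO
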