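import Mathlib
import Pool.Agent.H52.STD.Wd6

set_option autoImplicit false

/-!
# The hyperbolic splitting, in the plane
-/

namespace Pool.Agent.H52.GEO

open Real MeasureTheory Function Set Filter Topology
open Pool.Agent.TH705.SM Pool.Agent.Y332.SM Pool.Agent.N317.SM
open scoped ENNReal

/-- the lift of the map to the plane -/
noncomputable def Fp (a : ℝ) (p : ℝ × ℝ) : ℝ × ℝ := (2 * p.1 - p.2 + a * sin (2 * π * p.1), p.1)

/-- the covering map -/
noncomputable def pj (p : ℝ × ℝ) : T2 := ((p.1 : UnitAddCircle), (p.2 : UnitAddCircle))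

theorem pj_F (a : ℝ) (p : ℝ × ℝ) : S a (pj p) = pj (Fp a p) := S_coe a p.1 p.2

theorem pj_iter (a : ℝ) (p : ℝ × ℝ) (k : ℕ) : (S a)^[k] (pj p) = pj ((Fp a)^[k] p) := by
  induction k with
  | zero => rfl
  | succ k ih => rw [iterate_succ_apply', iterate_succ_apply', ih, pj_F]

theorem Fp_diff (a : ℝ) : Differentiable ℝ (Fp a) := by
  unfold Fp
  fun_prop

theorem fderiv_Fp (a : ℝ) (p v : ℝ × ℝ) :
    fderiv ℝ (Fp a) p v = (Lc a (pj p).1 * v.1 - v.2, v.1) := by
  have h1 : HasFDerivAt (fun p : ℝ × ℝ => p.1) (ContinuousLinearMap.fst ℝ ℝ ℝ) p := hasFDerivAt_fst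
  have h2 : HasFDerivAt (fun p : ℝ × ℝ => p.2) (ContinuousLinearMap.snd ℝ ℝ ℝ) p := hasFDerivAt_snd
  have h3 := (((h1.const_mul 2).sub h2).add (((h1.const_mul (2 * π)).sin).const_mul a)).prodMk h1
  have h4 : HasFDerivAt (Fp a) _ p := h3
  rw [h4.fderiv]
  have e : Lc a (pj p).1 = L a p.1 := Lc_coe a p.1
  rw [e]
  unfold L
  simp
  ring

theorem fderiv_iter (a : ℝ) (p v : ℝ × ℝ) (k : ℕ) : fderiv ℝ (Fp a)^[k + 1] p v =
    fderiv ℝ (Fp a) ((Fp a)^[k] p) (fderiv ℝ (Fp a)^[k] p v) := by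
  rw [iterate_succ', fderiv_comp _ (Fp_diff a _) ((Fp_diff a).iterate k _)]
  rfl

theorem two_step {w : ℕ → ℝ} (h : ∀ k, |w (k + 2)| ≤ 1 / 9 * |w k|) (k : ℕ) :
    max |w (k + 1)| |w k| ≤ 3 * (1 / 3) ^ k * max |w 1| |w 0| := by
  have h0 := le_max_left |w 1| |w 0|
  have h1 := le_max_right |w 1| |w 0|
  have p0 := abs_nonneg (w 0)
  have p1 := abs_nonneg (w 1)
  induction k using Nat.strong_induction_on with
  | _ k ih =>
    rcases k with _ | _ | k
    · rw [pow_zero, zero_add]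
      linarith
    · have := h 0
      rw [zero_add] at this
      rw [show (0 + 1 + 1) = 2 by rfl, show (0 + 1) = 1 by rfl, pow_one]
      apply max_le <;> linarith
    · have h2 := ih k (by omega)
      have h3 := h k
      have h4 := h (k + 1)
      have h5 := le_max_left |w (k + 1)| |w k|
      have h6 := le_max_right |w (k + 1)| |w k|
      rw [pow_succ, pow_succ]
      apply max_le
      · rw [show k + 1 + 1 + 1 = k + 1 + 2 by ring]
        linarith
      · rw [show k + 1 + 1 = k + 2 by ring]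
        linarith

theorem two_step' {w : ℕ → ℝ} (h : ∀ k, |w k| ≤ 1 / 9 * |w (k + 2)|) (k : ℕ) :
    max |w 1| |w 0| ≤ 3 * (1 / 3) ^ k * max |w (k + 1)| |w k| := by
  induction k using Nat.strong_induction_on with
  | _ k ih =>
    rcases k with _ | _ | k
    · rw [pow_zero, zero_add]
      have := le_max_left |w 1| |w 0|
      have := abs_nonneg (w 1)
      linarith
    · have h0 := h 0
      rw [zero_add] at h0
      have h1 := le_max_left |w 2| |w 1|
      have h2 := le_max_right |w 2| |w 1|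
      have h3 := abs_nonneg (w 2)
      rw [show (0 + 1 + 1) = 2 by rfl, show (0 + 1) = 1 by rfl, pow_one]
      apply max_le <;> linarith
    · have h2 := ih k (by omega)
      have h3 := h k
      have h4 := h (k + 1)
      have h5 := le_max_left |w (k + 1 + 1 + 1)| |w (k + 1 + 1)|
      have h6 := le_max_right |w (k + 1 + 1 + 1)| |w (k + 1 + 1)|
      rw [show k + 1 + 2 = k + 1 + 1 + 1 by ring] at h4
      rw [show k + 2 = k + 1 + 1 by ring] at h3
      have h7 : max |w (k + 1)| |w k| ≤ 1 / 9 * max |w (k + 1 + 1 + 1)| |w (k + 1 + 1)| := by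
        apply max_le <;> linarith
      refine h2.trans ((mul_le_mul_of_nonneg_left h7 (by positivity)).trans (le_of_eq ?_))
      rw [pow_succ, pow_succ]
      ring

/-- the products along the stable direction -/
noncomputable def Pk (a : ℝ) (z : T2) (k : ℕ) : ℝ := ∏ i ∈ Finset.range k, mm a ((S a)^[i] z)

theorem Pk_succ (a : ℝ) (z : T2) (k : ℕ) : Pk a z (k + 1) = Pk a z k * mm a ((S a)^[k] z) := by
  unfold Pk
  rw [Finset.prod_range_succ]

theorem st_iter {a : ℝ} {p : ℝ × ℝ} (hp : pj p ∈ Hs a) (k : ℕ) :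
    fderiv ℝ (Fp a)^[k] p (mm a (pj p), 1) = (Pk a (pj p) (k + 1), Pk a (pj p) k) := by
  induction k with
  | zero =>
    rw [iterate_zero, fderiv_id]
    simp [Pk]
  | succ k ih =>
    rw [fderiv_iter, ih, fderiv_Fp, ← pj_iter]
    have h := mm_eq (Hs_iter hp k)
    have e1 : Pk a (pj p) (k + 1 + 1) = Pk a (pj p) k * (mm a ((S a)^[k] (pj p)) *
        mm a (S a ((S a)^[k] (pj p)))) := by
      rw [Pk_succ, Pk_succ, iterate_succ_apply']
      ring
    rw [e1, ← h]
    simp only [Prod.mk.injEq, and_true]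
    rw [Pk_succ]
    ring

theorem Pk_two {a : ℝ} {z : T2} (hz : z ∈ Hs a) (k : ℕ) :
    |Pk a z (k + 2)| ≤ 1 / 9 * |Pk a z k| := by
  have h := mm_mul (Hs_iter hz k)
  have e1 : Pk a z (k + 2) = Pk a z k * (mm a ((S a)^[k] z) * mm a (S a ((S a)^[k] z))) := by
    rw [show k + 2 = k + 1 + 1 by ring, Pk_succ, Pk_succ, iterate_succ_apply']
    ring
  rw [e1, abs_mul, mul_comm]
  exact mul_le_mul_of_nonneg_right h (abs_nonneg _)

/-- the slope of the unstable direction -/
noncomputable def mu (a : ℝ) (z : T2) : ℝ := mm a (Prod.swap z)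

theorem mu_eq {a : ℝ} {z : T2} (hz : z ∈ Lam a) : (Lc a z.1 - mu a z) * mu a (S a z) = 1 := by
  have h := mm_eq (Lam_swap (Lam_S hz))
  have e1 : (Prod.swap (S a z)).1 = z.1 := rfl
  have e2 : S a (Prod.swap (S a z)) = Prod.swap z := by
    rw [S_swap, Si_S]
  rw [e1, e2] at h
  unfold mu
  linarith

theorem mu_mul {a : ℝ} {z : T2} (hz : z ∈ Lam a) : |mu a (S a z) * mu a z| ≤ 1 / 9 := by
  have h := mm_mul (Lam_swap (Lam_S hz))
  have e2 : S a (Prod.swap (S a z)) = Prod.swap z := by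
    rw [S_swap, Si_S]
  rw [e2] at h
  exact h

theorem Lam_iter {a : ℝ} {z : T2} (hz : z ∈ Lam a) (k : ℕ) : (S a)^[k] z ∈ Lam a := by
  induction k with
  | zero => exact hz
  | succ k ih =>
    rw [iterate_succ_apply']
    exact Lam_S ih

/-- the products along the unstable direction -/
noncomputable def Qk (a : ℝ) (z : T2) (k : ℕ) : ℝ :=
  ∏ i ∈ Finset.range k, (Lc a ((S a)^[i] z).1 - mu a ((S a)^[i] z))

theorem Qk_succ (a : ℝ) (z : T2) (k : ℕ) : Qk a z (k + 1) =
    Qk a z k * (Lc a ((S a)^[k] z).1 - mu a ((S a)^[k] z)) := by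
  unfold Qk
  rw [Finset.prod_range_succ]

/-- the second component -/
noncomputable def wk (a : ℝ) (z : T2) (k : ℕ) : ℝ := Qk a z k * mu a ((S a)^[k] z)

theorem wk_succ {a : ℝ} {z : T2} (hz : z ∈ Lam a) (k : ℕ) : wk a z (k + 1) = Qk a z k := by
  unfold wk
  rw [Qk_succ, iterate_succ_apply', mul_assoc, mu_eq (Lam_iter hz k), mul_one]

theorem un_iter {a : ℝ} {p : ℝ × ℝ} (hp : pj p ∈ Lam a) (k : ℕ) :
    fderiv ℝ (Fp a)^[k] p (1, mu a (pj p)) = (wk a (pj p) (k + 1), wk a (pj p) k) := by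
  induction k with
  | zero =>
    rw [iterate_zero, fderiv_id, wk_succ hp]
    simp [wk, Qk]
  | succ k ih =>
    rw [fderiv_iter, ih, fderiv_Fp, ← pj_iter, wk_succ hp (k + 1), wk_succ hp k]
    simp only [Prod.mk.injEq, and_true]
    rw [Qk_succ]
    unfold wk
    ring

theorem wk_two {a : ℝ} {z : T2} (hz : z ∈ Lam a) (k : ℕ) :
    |wk a z k| ≤ 1 / 9 * |wk a z (k + 2)| := by
  have h := mu_mul (Lam_iter hz k)
  have e1 : wk a z k = Qk a z (k + 1) * (mu a (S a ((S a)^[k] z)) * mu a ((S a)^[k] z)) := by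
    rw [← mul_assoc, ← iterate_succ_apply' (S a) k]
    have h2 : Qk a z (k + 1) * mu a ((S a)^[k + 1] z) = wk a z (k + 1) := rfl
    rw [h2, wk_succ hz]
    rfl
  rw [show k + 2 = (k + 1) + 1 by ring, wk_succ hz (k + 1), e1, abs_mul, mul_comm]
  exact mul_le_mul_of_nonneg_right h (abs_nonneg _)

/-- the stable line -/
noncomputable def Es (a : ℝ) (z : T2) : Submodule ℝ (ℝ × ℝ) := Submodule.span ℝ {(mm a z, 1)}

/-- the unstable line -/
noncomputable def Eu (a : ℝ) (z : T2) : Submodule ℝ (ℝ × ℝ) := Submodule.span ℝ {(1, mu a z)}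

theorem span_image {a : ℝ} {p v w : ℝ × ℝ} {c : ℝ} (hc : c ≠ 0)
    (h : fderiv ℝ (Fp a) p v = c • w) :
    fderiv ℝ (Fp a) p '' (Submodule.span ℝ {v} : Submodule ℝ (ℝ × ℝ)) =
      (Submodule.span ℝ {w} : Submodule ℝ (ℝ × ℝ)) := by
  ext x
  simp only [mem_image, SetLike.mem_coe, Submodule.mem_span_singleton]
  constructor
  · rintro ⟨_, ⟨b, rfl⟩, rfl⟩
    exact ⟨b * c, by rw [map_smul, h, mul_smul]⟩
  · rintro ⟨b, rfl⟩
    refine ⟨(b / c) • v, ⟨b / c, rfl⟩, ?_⟩
    rw [map_smul, h, smul_smul, div_mul_cancel₀ _ hc]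

theorem splitting {a : ℝ} {p : ℝ × ℝ} (hp : pj p ∈ Lam a) :
    IsCompl (Es a (pj p)) (Eu a (pj p)) ∧
    fderiv ℝ (Fp a) p '' Es a (pj p) = Es a (S a (pj p)) ∧
    fderiv ℝ (Fp a) p '' Eu a (pj p) = Eu a (S a (pj p)) ∧
    (∀ v ∈ Es a (pj p), ∀ k : ℕ, ‖fderiv ℝ (Fp a)^[k] p v‖ ≤ 3 * (1 / 3) ^ k * ‖v‖) ∧
    (∀ v ∈ Eu a (pj p), ∀ k : ℕ, ‖v‖ ≤ 3 * (1 / 3) ^ k * ‖fderiv ℝ (Fp a)^[k] p v‖) := by
  have hHs := Lam_Hs hp
  refine ⟨?_, ?_, ?_, ?_, ?_⟩
  · have h1 := mm_swap hp
    have hne : 1 - mm a (pj p) * mu a (pj p) ≠ 0 := by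
      intro h
      have h2 : mm a (pj p) * mm a (Prod.swap (pj p)) = 1 := by
        unfold mu at h
        linarith
      rw [h2, abs_one] at h1
      exact lt_irrefl _ h1
    constructor
    · rw [Submodule.disjoint_def]
      intro x hx hy
      unfold Es at hx
      unfold Eu at hy
      rw [Submodule.mem_span_singleton] at hx hy
      obtain ⟨b, rfl⟩ := hx
      obtain ⟨c, hc⟩ := hy
      simp only [Prod.smul_mk, smul_eq_mul, mul_one, Prod.mk.injEq] at hc
      have h3 : b * (1 - mm a (pj p) * mu a (pj p)) = 0 := by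
        linear_combination (-1 : ℝ) * hc.2 + mu a (pj p) * hc.1
      have hb : b = 0 := by
        rcases mul_eq_zero.1 h3 with h4 | h4
        · exact h4
        · exact absurd h4 hne
      rw [hb, zero_smul]
    · rw [codisjoint_iff, eq_top_iff]
      intro x _
      rw [Submodule.mem_sup]
      refine ⟨((x.2 - mu a (pj p) * x.1) / (1 - mm a (pj p) * mu a (pj p))) • (mm a (pj p), 1),
        Submodule.smul_mem _ _ (Submodule.mem_span_singleton_self _),
        ((x.1 - mm a (pj p) * x.2) / (1 - mm a (pj p) * mu a (pj p))) • (1, mu a (pj p)),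
        Submodule.smul_mem _ _ (Submodule.mem_span_singleton_self _), ?_⟩
      ext
      · simp only [Prod.smul_mk, smul_eq_mul, mul_one, Prod.mk_add_mk]
        rw [div_mul_eq_mul_div, ← add_div, div_eq_iff hne]
        ring
      · simp only [Prod.smul_mk, smul_eq_mul, mul_one, Prod.mk_add_mk]
        rw [div_mul_eq_mul_div, ← add_div, div_eq_iff hne]
        ring
  · refine span_image (c := mm a (pj p)) (mm_ne hHs) ?_
    rw [fderiv_Fp]
    have h := mm_eq hHs
    simp only [Prod.smul_mk, smul_eq_mul, mul_one]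
    rw [h]
  · have h := mu_eq hp
    refine span_image (c := Lc a (pj p).1 - mu a (pj p)) (fun h2 => by
      rw [h2, zero_mul] at h
      exact zero_ne_one h) ?_
    rw [fderiv_Fp]
    simp only [Prod.smul_mk, smul_eq_mul, mul_one]
    rw [h]
  · intro v hv k
    unfold Es at hv
    rw [Submodule.mem_span_singleton] at hv
    obtain ⟨b, rfl⟩ := hv
    rw [map_smul, norm_smul, norm_smul, st_iter hHs]
    have h := two_step (Pk_two hHs) k
    have e1 : ‖((mm a (pj p), 1) : ℝ × ℝ)‖ = max |Pk a (pj p) 1| |Pk a (pj p) 0| := by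
      rw [Prod.norm_def]
      simp [Pk]
    have e2 : ‖((Pk a (pj p) (k + 1), Pk a (pj p) k) : ℝ × ℝ)‖ =
        max |Pk a (pj p) (k + 1)| |Pk a (pj p) k| := by
      rw [Prod.norm_def]
      rfl
    rw [e1, e2]
    have := mul_le_mul_of_nonneg_left h (norm_nonneg b)
    refine this.trans (le_of_eq ?_)
    ring
  · intro v hv k
    unfold Eu at hv
    rw [Submodule.mem_span_singleton] at hv
    obtain ⟨b, rfl⟩ := hv
    rw [map_smul, norm_smul, norm_smul, un_iter hp]
    have h := two_step' (wk_two hp) k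
    have e1 : ‖((1, mu a (pj p)) : ℝ × ℝ)‖ = max |wk a (pj p) 1| |wk a (pj p) 0| := by
      rw [Prod.norm_def, show (1:ℕ) = 0 + 1 by rfl, wk_succ hp]
      simp [wk, Qk]
    have e2 : ‖((wk a (pj p) (k + 1), wk a (pj p) k) : ℝ × ℝ)‖ =
        max |wk a (pj p) (k + 1)| |wk a (pj p) k| := by
      rw [Prod.norm_def]
      rfl
    rw [e1, e2]
    have := mul_le_mul_of_nonneg_left h (norm_nonneg b)
    refine this.trans (le_of_eq ?_)
    ring

end Pool.Agent.H52.GEO
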