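import Mathlib
import Pool.Agent.H52.STD.Wd7

set_option autoImplicit false

/-!
# Orbits which are dense off the exceptional sets
-/

namespace Pool.Agent.H52.GEO

open Real MeasureTheory Function Set Filter Topology
open Pool.Agent.TH705.SM Pool.Agent.Y332.SM Pool.Agent.N317.SM
open scoped ENNReal

/-- specification, in the hyperbolic set -/
theorem spec' {a : ℝ} (ha : 256 ≤ |a|) {J : Type*} (s : Equiv.Perm J) (p : J → T2)
    (n N : J → ℕ) (hp : ∀ j, p j ∉ BC a (n j))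
    (hN : ∀ j, 3600 * (n j + n (s j) + log |a|) + |(n j : ℝ) - n (s j)| * log |a| ≤ N j) :
    ∃ Z : J → T2, ∀ j, Z j ∈ Lam a ∧ dist (Z j) (p j) ≤ rd (√|a|) (n j) / 2 ∧
      (S a)^[N j] (Z j) = Z (s j) := by
  have hL := log_ge ha
  have h1 : ∀ j, 0 ≤ |(n j : ℝ) - n (s j)| * log |a| := fun j => by positivity
  have h2 : ∀ j, 0 ≤ 3600 * (n j + n (s j) + log |a|) := fun j => by positivity
  obtain ⟨Z, g1, g2, g3⟩ := spec ha s p n N hp (fun j => by linarith [hN j, h1 j])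
    (fun j => by linarith [hN j, h2 j])
  refine ⟨Z, fun j => ⟨Z_Lam s (fun j => ?_) g1 g3 j, g2 j, g1 j⟩⟩
  have h3 : (0:ℝ) < N j := by
    have h4 : (0:ℝ) ≤ n j := Nat.cast_nonneg _
    have h5 : (0:ℝ) ≤ n (s j) := Nat.cast_nonneg _
    linarith [hN j, h1 j]
  exact_mod_cast h3

/-- the fixed point at the origin -/
theorem zero_Lam {a : ℝ} (ha : 256 ≤ |a|) : ((((0:ℝ) : UnitAddCircle), ((0:ℝ) : UnitAddCircle)) : T2) ∈
    Lam a := by
  have h1 : S a (((0:ℝ) : UnitAddCircle), ((0:ℝ) : UnitAddCircle)) =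
      (((0:ℝ) : UnitAddCircle), ((0:ℝ) : UnitAddCircle)) := by
    rw [S_coe]
    simp
  have h2 : Si a (((0:ℝ) : UnitAddCircle), ((0:ℝ) : UnitAddCircle)) =
      (((0:ℝ) : UnitAddCircle), ((0:ℝ) : UnitAddCircle)) := by
    conv_lhs => rw [← h1]
    exact Si_S a _
  have h3 : ∀ m, (Si a)^[m] (((0:ℝ) : UnitAddCircle), ((0:ℝ) : UnitAddCircle)) =
      (((0:ℝ) : UnitAddCircle), ((0:ℝ) : UnitAddCircle)) := fun m => iterate_fixed h2 m
  have h4 : ∀ m, (S a)^[m] (((0:ℝ) : UnitAddCircle), ((0:ℝ) : UnitAddCircle)) =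
      (((0:ℝ) : UnitAddCircle), ((0:ℝ) : UnitAddCircle)) := fun m => iterate_fixed h1 m
  intro m k
  rw [h3, h4, h4, ]
  show 13 ≤ |Lc a ((0:ℝ) : UnitAddCircle) * Lc a ((0:ℝ) : UnitAddCircle)|
  have h5 := L_big ha (c := 0) (x := 0) (by norm_num)
  rw [Lc_coe, abs_mul]
  nlinarith [abs_nonneg (L a 0)]

/-- **one orbit which is dense off the exceptional sets, at every scale** -/
theorem orbit_dense {a : ℝ} (ha : 256 ≤ |a|) : ∃ z ∈ Lam a, ∀ n p, p ∉ BC a n → ∀ m : ℕ,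
    ∃ k, m ≤ k ∧ dist ((S a)^[k] z) p ≤ rd (√|a|) n := by
  have hL := log_ge ha
  by_cases hne : ∃ n p, p ∉ BC a n
  swap
  · push Not at hne
    exact ⟨_, zero_Lam ha, fun n p hp => absurd (hne n p) hp⟩
  · have hD : ∀ n : ℕ, ∃ D : Set ((BC a n)ᶜ : Set T2), D.Countable ∧ Dense D :=
      fun n => TopologicalSpace.exists_countable_dense _
    choose D hDc hDd using hD
    have hcount : ∀ n, Countable (D n) := fun n => (hDc n).to_subtype
    let Tg := Σ n, D n
    have hTg : Nonempty Tg := by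
      obtain ⟨n, p, hp⟩ := hne
      obtain ⟨d, hd⟩ := (hDd n).nonempty_iff.2 ⟨⟨p, hp⟩⟩
      exact ⟨⟨n, ⟨d, hd⟩⟩⟩
    obtain ⟨g0, hg0⟩ := exists_surjective_nat Tg
    set g : ℤ → Tg := fun j => g0 (Nat.unpair j.toNat).1 with hg
    set n : ℤ → ℕ := fun j => (g j).1 with hn
    set p : ℤ → T2 := fun j => ((g j).2 : T2) with hp
    set N : ℤ → ℕ := fun j => ⌈3600 * (n j + n (j + 1) + log |a|) +
      |(n j : ℝ) - n (j + 1)| * log |a|⌉₊ with hN
    obtain ⟨Z, hZ⟩ := spec' ha (Equiv.addRight (1:ℤ)) p n N (fun j => (g j).2.1.2)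
      (fun j => Nat.le_ceil _)
    have hN1 : ∀ j, 1 ≤ N j := by
      intro j
      apply Nat.one_le_iff_ne_zero.2
      apply (Nat.ceil_pos.2 _).ne'
      have h4 : (0:ℝ) ≤ n j := Nat.cast_nonneg _
      have h5 : (0:ℝ) ≤ n (j + 1) := Nat.cast_nonneg _
      positivity
    have hreach : ∀ j : ℕ, ∃ k, j ≤ k ∧ (S a)^[k] (Z 0) = Z j := by
      intro j
      induction j with
      | zero => exact ⟨0, le_rfl, rfl⟩
      | succ j ih =>
        obtain ⟨k, hk, hk'⟩ := ih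
        refine ⟨N j + k, by have := hN1 j; omega, ?_⟩
        rw [iterate_add_apply, hk', (hZ j).2.2]
        rfl
    refine ⟨Z 0, (hZ 0).1, ?_⟩
    intro n' p' hp' m
    have hr : 0 < rd (√|a|) n' := rd_pos (sq_ge ha) n'
    obtain ⟨d, hd, hdist⟩ := (hDd n').exists_dist_lt ⟨p', hp'⟩ (half_pos hr)
    obtain ⟨i, hi⟩ := hg0 ⟨n', ⟨d, hd⟩⟩
    obtain ⟨k, hk, hk'⟩ := hreach (Nat.pair i m)
    refine ⟨k, (Nat.right_le_pair i m).trans hk, ?_⟩
    have hgj : g ((Nat.pair i m : ℕ) : ℤ) = ⟨n', ⟨d, hd⟩⟩ := by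
      simp only [hg, Int.toNat_natCast, Nat.unpair_pair]
      exact hi
    have h1 := (hZ ((Nat.pair i m : ℕ) : ℤ)).2.1
    have h2 : n ((Nat.pair i m : ℕ) : ℤ) = n' := by
      simp only [hn]
      rw [hgj]
    have h3 : p ((Nat.pair i m : ℕ) : ℤ) = (d : T2) := by
      simp only [hp]
      rw [hgj]
    rw [h2, h3] at h1
    rw [hk']
    have h4 : dist (p' : T2) (d : T2) < rd (√|a|) n' / 2 := hdist
    calc dist (Z ((Nat.pair i m : ℕ) : ℤ)) p' ≤ dist (Z ((Nat.pair i m : ℕ) : ℤ)) (d : T2) +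
        dist (d : T2) p' := dist_triangle _ _ _
      _ ≤ rd (√|a|) n' := by
        rw [dist_comm (d : T2) p']
        linarith

/-- every ball of radius `log |a| / |a|` meets the complement of the exceptional set -/
theorem near_good {a : ℝ} (ha : 256 ≤ |a|) (h : 10 ^ 17 * log |a| / |a| < 1 / 2) (x : T2) :
    ∃ y, dist x y ≤ 10 ^ 17 * log |a| / |a| / 2 ∧ y ∉ BC a 8 := by
  have ha0 : 0 < |a| := by linarith
  have hL := log_ge ha
  obtain ⟨ρ, hρ⟩ : ∃ ρ, ρ = 10 ^ 17 * log |a| / |a| := ⟨_, rfl⟩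
  have hρ0 : 0 < ρ := by rw [hρ]; positivity
  rw [← hρ] at h ⊢
  by_contra hcon
  push Not at hcon
  have hsub : Metric.closedBall x (ρ / 2) ⊆ BC a 8 := by
    intro y hy
    rw [Metric.mem_closedBall, dist_comm] at hy
    exact hcon y hy
  have h1 := (measure_mono (μ := (volume : Measure T2)) hsub).trans (BC_vol ha 8)
  have h0 := ar_nonneg ha 8
  rw [ball_vol x (by positivity) (by linarith), ENNReal.ofReal_le_ofReal_iff (by positivity),
    hρ] at h1
  unfold ar at h1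
  have e1 : (2 * (10 ^ 17 * log |a| / |a| / 2)) ^ 2 = 10 ^ 34 * log |a| ^ 2 / |a| ^ 2 := by
    ring
  have e2 : 2 * 10 ^ 33 * ((((8 : ℕ) : ℝ) + log |a|) * log |a| / |a| ^ 2) =
      2 * 10 ^ 33 * ((8 + log |a|) * log |a|) / |a| ^ 2 := by
    push_cast
    ring
  rw [e1, e2, div_le_div_iff_of_pos_right (by positivity)] at h1
  nlinarith

theorem rd_eight {a : ℝ} (ha : 256 ≤ |a|) : rd (√|a|) 8 ≤ 10 ^ 17 * log |a| / |a| / 2 := by
  have ha0 : 0 < |a| := by linarith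
  have hL := log_ge ha
  have e : rd (√|a|) 8 = 1 / |a| ^ 2 := by
    have : rd (√|a|) 8 = rd (√|a|) 4 ^ 2 := by
      unfold rd
      rw [← pow_mul]
    rw [this, rd_four, div_pow, one_pow]
  rw [e, div_div, div_le_div_iff₀ (by positivity) (by positivity), one_mul]
  nlinarith

/-- periodic points -/
theorem periodic {a : ℝ} (ha : 256 ≤ |a|) {n : ℕ} {p : T2} (hp : p ∉ BC a n) {N : ℕ}
    (hN : 7200 * (n + log |a|) ≤ N) :
    ∃ z ∈ Lam a, dist z p ≤ rd (√|a|) n ∧ (S a)^[N] z = z := by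
  have hL := log_ge ha
  obtain ⟨Z, hZ⟩ := spec' ha (Equiv.refl Unit) (fun _ => p) (fun _ => n) (fun _ => N) (fun _ => hp)
    (fun _ => by
      simp only [sub_self, abs_zero, zero_mul, add_zero]
      refine le_trans ?_ hN
      have h4 : (0:ℝ) ≤ n := Nat.cast_nonneg _
      linarith)
  have hr := rd_nonneg (√|a|) n
  exact ⟨Z (), (hZ ()).1, (hZ ()).2.1.trans (by linarith), (hZ ()).2.2⟩

/-- **one periodic orbit which is dense off the exceptional set** -/
theorem periodic_dense {a : ℝ} (ha : 256 ≤ |a|) (n : ℕ) : ∃ z ∈ Lam a, ∃ P : ℕ, 1 ≤ P ∧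
    (S a)^[P] z = z ∧ ∀ p, p ∉ BC a n → ∃ k, dist ((S a)^[k] z) p ≤ rd (√|a|) n := by
  have hL := log_ge ha
  have hr : 0 < rd (√|a|) n := rd_pos (sq_ge ha) n
  have htb : TotallyBounded ((BC a n)ᶜ : Set T2) :=
    (isCompact_univ.totallyBounded).subset (subset_univ _)
  obtain ⟨t, ht1, ht2, ht3⟩ := Metric.finite_approx_of_totallyBounded htb _ (half_pos hr)
  rcases t.eq_empty_or_nonempty with h0 | h0
  · refine ⟨_, zero_Lam ha, 1, le_rfl, ?_, fun p hp => ?_⟩
    · rw [iterate_one, S_coe]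
      simp
    · have := ht3 hp
      rw [h0] at this
      simp at this
  · have hfin : Finite t := ht2
    have hfty : Fintype t := Fintype.ofFinite t
    have hne : Nonempty t := h0.to_subtype
    have hcard : 0 < Fintype.card t := Fintype.card_pos
    have : NeZero (Fintype.card t) := ⟨hcard.ne'⟩
    have hf : Fintype.card (ZMod (Fintype.card t)) = Fintype.card t := ZMod.card _
    set e : ZMod (Fintype.card t) ≃ t := Fintype.equivOfCardEq hf with he
    set N : ℕ := ⌈7200 * (n + log |a|)⌉₊ with hN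
    have hNle : 7200 * (n + log |a|) ≤ N := Nat.le_ceil _
    have hN1 : 1 ≤ N := by
      apply Nat.one_le_iff_ne_zero.2
      apply (Nat.ceil_pos.2 _).ne'
      positivity
    obtain ⟨Z, hZ⟩ := spec' ha (Equiv.addRight (1 : ZMod (Fintype.card t)))
      (fun j => (e j : T2)) (fun _ => n) (fun _ => N) (fun j => ht1 (e j).2)
      (fun _ => by
        simp only [sub_self, abs_zero, zero_mul, add_zero]
        refine le_trans ?_ hNle
        have h4 : (0:ℝ) ≤ n := Nat.cast_nonneg _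
        linarith)
    have hreach : ∀ j : ℕ, ∃ k, j ≤ k ∧ (S a)^[k] (Z 0) = Z (j : ZMod (Fintype.card t)) := by
      intro j
      induction j with
      | zero => exact ⟨0, le_rfl, by simp⟩
      | succ j ih =>
        obtain ⟨k, hk, hk'⟩ := ih
        refine ⟨N + k, by omega, ?_⟩
        rw [iterate_add_apply, hk', (hZ _).2.2, Nat.cast_succ]
        rfl
    obtain ⟨P, hP, hP'⟩ := hreach (Fintype.card t)
    rw [ZMod.natCast_self] at hP'
    refine ⟨Z 0, (hZ 0).1, P, by omega, hP', ?_⟩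
    intro p hp
    have h1 := ht3 hp
    simp only [mem_iUnion, Metric.mem_ball, exists_prop] at h1
    obtain ⟨y, hy, hpy⟩ := h1
    obtain ⟨j, hj⟩ := ZMod.natCast_zmod_surjective (e.symm ⟨y, hy⟩)
    obtain ⟨k, _, hk⟩ := hreach j
    refine ⟨k, ?_⟩
    rw [hk, hj]
    have h2 := (hZ (e.symm ⟨y, hy⟩)).2.1
    rw [Equiv.apply_symm_apply] at h2
    have h3 : dist (Z (e.symm ⟨y, hy⟩)) y ≤ rd (√|a|) n / 2 := h2
    calc dist (Z (e.symm ⟨y, hy⟩)) p ≤ dist (Z (e.symm ⟨y, hy⟩)) y + dist y p :=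
          dist_triangle _ _ _
      _ ≤ rd (√|a|) n := by
        rw [dist_comm y p]
        linarith

end Pool.Agent.H52.GEO
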