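import Mathlib
import Pool.Agent.H52.STD.Wd12
import Pool.Agent.H52.STD.Wd8

set_option autoImplicit false

/-!
# A dense orbit in the mixing hyperbolic set
-/

namespace Pool.Agent.H52.GEO

open Real MeasureTheory Function Set Filter Topology
open Pool.Agent.TH705.SM Pool.Agent.Y332.SM Pool.Agent.N317.SM
open scoped ENNReal

/-- mixing gives a dense orbit -/
theorem dense_orbit {a : ℝ} {H : Set T2} (hc : IsCompact H) (hne : H.Nonempty)
    (hmix : ∀ U V : Set T2, IsOpen U → IsOpen V → (U ∩ H).Nonempty → (V ∩ H).Nonempty →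
      ∃ N0 : ℕ, ∀ N, N0 ≤ N → ∃ z ∈ H, z ∈ U ∧ (S a)^[N] z ∈ V) :
    ∃ q ∈ H, ∀ U : Set T2, IsOpen U → (U ∩ H).Nonempty → ∀ m : ℕ, ∃ k, m ≤ k ∧
      (S a)^[k] q ∈ U := by
  have hcs : CompactSpace H := isCompact_iff_compactSpace.1 hc
  have hneH : Nonempty H := hne.to_subtype
  have hcb : Countable (TopologicalSpace.countableBasis T2) :=
    (TopologicalSpace.countable_countableBasis T2).to_subtype
  let G : (TopologicalSpace.countableBasis T2) × ℕ → Set H := fun u =>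
    {x | ((u.1 : Set T2) ∩ H).Nonempty → ∃ k, u.2 ≤ k ∧ (S a)^[k] (x : T2) ∈ (u.1 : Set T2)}
  have hGo : ∀ u, IsOpen (G u) := by
    intro u
    have huo : IsOpen (u.1 : Set T2) :=
      TopologicalSpace.isOpen_of_mem_countableBasis u.1.2
    by_cases hu : ((u.1 : Set T2) ∩ H).Nonempty
    · have e : G u = ⋃ k : {k : ℕ // u.2 ≤ k},
          (fun x : H => (S a)^[(k : ℕ)] (x : T2)) ⁻¹' (u.1 : Set T2) := by
        ext x
        simp only [G, mem_iUnion, mem_preimage, Set.mem_ofPred_eq, Subtype.exists, exists_prop]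
        exact ⟨fun h => h hu, fun h _ => h⟩
      rw [e]
      apply isOpen_iUnion
      intro k
      exact huo.preimage (((S_cont a).iterate _).comp continuous_subtype_val)
    · have e : G u = univ := by
        ext x
        simp only [G, Set.mem_ofPred_eq, mem_univ, iff_true]
        exact fun h => absurd h hu
      rw [e]
      exact isOpen_univ
  have hGd : ∀ u, Dense (G u) := by
    intro u
    have huo : IsOpen (u.1 : Set T2) :=
      TopologicalSpace.isOpen_of_mem_countableBasis u.1.2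
    rw [dense_iff_inter_open]
    intro O hO hOn
    obtain ⟨O', hO', rfl⟩ := isOpen_induced_iff.1 hO
    obtain ⟨x, hx⟩ := hOn
    by_cases hu : ((u.1 : Set T2) ∩ H).Nonempty
    · obtain ⟨N0, hN0⟩ := hmix O' u.1 hO' huo ⟨x, hx, x.2⟩ hu
      obtain ⟨z, hz, hz1, hz2⟩ := hN0 (max N0 u.2) (le_max_left _ _)
      exact ⟨⟨z, hz⟩, hz1, fun _ => ⟨_, le_max_right _ _, hz2⟩⟩
    · exact ⟨x, hx, fun h => absurd h hu⟩
  obtain ⟨q, hq⟩ := (dense_iInter_of_isOpen hGo hGd).nonempty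
  refine ⟨q, q.2, fun U hU hUn m => ?_⟩
  obtain ⟨y, hyU, hyH⟩ := hUn
  obtain ⟨u, hu, hyu, huU⟩ := (TopologicalSpace.isBasis_countableBasis T2).exists_subset_of_mem_open
    hyU hU
  have h1 := mem_iInter.1 hq (⟨u, hu⟩, m)
  obtain ⟨k, hk, hk'⟩ := h1 ⟨y, hyu, hyH⟩
  exact ⟨k, hk, huU hk'⟩

/-- one periodic orbit close to all the good points, from specification -/
theorem periodic_dense2 {a : ℝ} (ha : 256 ≤ |a|) {Zf : (ℤ → T2 × ℕ × ℕ) → T2} (h : Coding a Zf)
    {n : ℕ} (hne : ∃ p, p ∉ BC a n) : ∃ z ∈ closure (L0 a Zf), ∃ P : ℕ, 1 ≤ P ∧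
    (S a)^[P] z = z ∧ ∀ p, p ∉ BC a n → ∃ k, dist ((S a)^[k] z) p ≤ rd (√|a|) n := by
  have hL := log_ge ha
  have hr : 0 < rd (√|a|) n := rd_pos (sq_ge ha) n
  have htb : TotallyBounded ((BC a n)ᶜ : Set T2) :=
    (isCompact_univ.totallyBounded).subset (subset_univ _)
  obtain ⟨t, ht1, ht2, ht3⟩ := Metric.finite_approx_of_totallyBounded htb _ (half_pos hr)
  have h0 : t.Nonempty := by
    obtain ⟨p, hp⟩ := hne
    have h1 := ht3 hp
    simp only [mem_iUnion, Metric.mem_ball, exists_prop] at h1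
    obtain ⟨y, hy, _⟩ := h1
    exact ⟨y, hy⟩
  have hfin : Finite t := ht2
  have hfty : Fintype t := Fintype.ofFinite t
  have hne : Nonempty t := h0.to_subtype
  have hcard : 0 < Fintype.card t := Fintype.card_pos
  have : NeZero (Fintype.card t) := ⟨hcard.ne'⟩
  have hf : Fintype.card (ZMod (Fintype.card t)) = Fintype.card t := ZMod.card _
  set e : ZMod (Fintype.card t) ≃ t := Fintype.equivOfCardEq hf with he
  set N : ℕ := ⌈7200 * (n + log |a|)⌉₊ with hN
  have hNle : 7200 * (n + log |a|) ≤ N := Nat.le_ceil _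
  have hN1 : 1 ≤ N := by
    apply Nat.one_le_iff_ne_zero.2
    apply (Nat.ceil_pos.2 _).ne'
    positivity
  obtain ⟨Z, hZ⟩ := spec2 h (Equiv.addRight (1 : ZMod (Fintype.card t)))
    (fun j => (e j : T2)) (fun _ => n) (fun _ => N) (fun j => ht1 (e j).2)
    (fun _ => by
      simp only [sub_self, abs_zero, zero_mul, add_zero]
      refine le_trans ?_ hNle
      have h4 : (0:ℝ) ≤ n := Nat.cast_nonneg _
      linarith)
  have hreach : ∀ j : ℕ, ∃ k, j ≤ k ∧ (S a)^[k] (Z 0) = Z (j : ZMod (Fintype.card t)) := by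
    intro j
    induction j with
    | zero => exact ⟨0, le_rfl, by simp⟩
    | succ j ih =>
      obtain ⟨k, hk, hk'⟩ := ih
      refine ⟨N + k, by omega, ?_⟩
      rw [iterate_add_apply, hk', (hZ _).2.2, Nat.cast_succ]
      rfl
  obtain ⟨P, hP, hP'⟩ := hreach (Fintype.card t)
  rw [ZMod.natCast_self] at hP'
  refine ⟨Z 0, (hZ 0).1, P, by omega, hP', ?_⟩
  intro p hp
  have h1 := ht3 hp
  simp only [mem_iUnion, Metric.mem_ball, exists_prop] at h1
  obtain ⟨y, hy, hpy⟩ := h1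
  obtain ⟨j, hj⟩ := ZMod.natCast_zmod_surjective (e.symm ⟨y, hy⟩)
  obtain ⟨k, _, hk⟩ := hreach j
  refine ⟨k, ?_⟩
  rw [hk, hj]
  have h2 := (hZ (e.symm ⟨y, hy⟩)).2.1
  rw [Equiv.apply_symm_apply] at h2
  have h3 : dist (Z (e.symm ⟨y, hy⟩)) y ≤ rd (√|a|) n / 2 := h2
  calc dist (Z (e.symm ⟨y, hy⟩)) p ≤ dist (Z (e.symm ⟨y, hy⟩)) y + dist y p :=
        dist_triangle _ _ _
    _ ≤ rd (√|a|) n := by
      rw [dist_comm y p]
      linarith

/-- periodic points, from specification -/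
theorem periodic2 {a : ℝ} (ha : 256 ≤ |a|) {Zf : (ℤ → T2 × ℕ × ℕ) → T2} (h : Coding a Zf)
    {n : ℕ} {p : T2} (hp : p ∉ BC a n) {N : ℕ} (hN : 7200 * (n + log |a|) ≤ N) :
    ∃ z ∈ closure (L0 a Zf), dist z p ≤ rd (√|a|) n / 2 ∧ (S a)^[N] z = z := by
  have hL := log_ge ha
  obtain ⟨Z, hZ⟩ := spec2 h (Equiv.refl Unit) (fun _ => p) (fun _ => n) (fun _ => N) (fun _ => hp)
    (fun _ => by
      simp only [sub_self, abs_zero, zero_mul, add_zero]
      refine le_trans ?_ hN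
      have h4 : (0:ℝ) ≤ n := Nat.cast_nonneg _
      linarith)
  exact ⟨Z (), (hZ ()).1, (hZ ()).2.1, (hZ ()).2.2⟩

end Pool.Agent.H52.GEO
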